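import Pool.Agent.Lib.MP_e6abdd_an.ApproxC

/-!
Approximation of the generating function by automorphic functions on low horocycles.
-/

namespace Pool.Agent.Lib.MP_e6abdd_an

open Complex hiding Gamma
open UpperHalfPlane hiding I
open MeasureTheory Filter Topology CongruenceSubgroup
open scoped Real MatrixGroups ComplexConjugate

theorem approx_swap {H : ℝ → ℝ → ℝ} (hH : Continuous H.uncurry) (a b c d : ℝ) :
    ∫ x in a..b, ∫ y in c..d, H x y = ∫ y in c..d, ∫ x in a..b, H x y :=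
  intervalIntegral_intervalIntegral_swap
    ((hH.continuousOn.integrableOn_compact (isCompact_uIcc.prod isCompact_uIcc)).mono_set
      (Set.prod_mono Set.uIoc_subset_uIcc Set.uIoc_subset_uIcc))

theorem approx_continuous_tent : Continuous tent := by
  unfold tent; fun_prop

theorem approx_continuous_pt {Y : ℝ} (hY : 0 < Y) :
    Continuous fun p : ℝ × ℝ => pt p.2 (Y * max 1 p.1) :=
  continuousOn_pt.comp_continuous (f := fun p : ℝ × ℝ => (p.2, Y * max 1 p.1)) (by fun_prop)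
    fun _ => mul_pos hY (lt_max_of_lt_left one_pos)

theorem approx_win_eq (a : ℝ → ℝ) (Y : ℝ) :
    win a Y = ∫ u in (1 : ℝ)..3, tent u * a (Y * max 1 u) := by
  refine intervalIntegral.integral_congr fun u hu => ?_
  rw [Set.uIcc_of_le (by norm_num)] at hu
  simp only [max_eq_right hu.1, smul_eq_mul]

theorem approx_win_int {H : ℍ → ℝ} (hH : Continuous H) {Y : ℝ} (hY : 0 < Y) :
    IntervalIntegrable (fun u => tent u • ∫ x in (0 : ℝ)..2, H (pt x (Y * u))) volume 1 3 := by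
  have h : Continuous fun u => tent u • ∫ x in (0 : ℝ)..2, H (pt x (Y * max 1 u)) :=
    approx_continuous_tent.smul
      (intervalIntegral.continuous_parametric_intervalIntegral_of_continuous'
        (f := fun u x => H (pt x (Y * max 1 u))) (hH.comp (approx_continuous_pt hY)) 0 2)
  refine ContinuousOn.intervalIntegrable (h.continuousOn.congr fun u hu => ?_)
  rw [Set.uIcc_of_le (by norm_num)] at hu
  simp only [max_eq_right hu.1]

theorem approx_select {G : ℍ → ℝ → ℝ} (hG : Continuous G.uncurry) (h0 : ∀ τ t, 0 ≤ G τ t)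
    {Y θ m : ℝ} (hY : 0 < Y) (hθ : 0 < θ) (hθ1 : θ ≤ 1)
    (h : win (fun y => ∫ x in (0 : ℝ)..2, ∫ t in (0 : ℝ)..1, G (pt x y) t) Y ≤ m) :
    ∃ t ∈ Set.Icc 0 θ, θ * win (fun y => ∫ x in (0 : ℝ)..2, G (pt x y) t) Y ≤ m := by
  have h1 : Continuous fun q : (ℝ × ℝ) × ℝ => G (pt q.2 (Y * max 1 q.1.2)) q.1.1 :=
    hG.comp (f := fun q : (ℝ × ℝ) × ℝ => (pt q.2 (Y * max 1 q.1.2), q.1.1))
      (((approx_continuous_pt hY).comp (f := fun q : (ℝ × ℝ) × ℝ => (q.1.2, q.2))
        (by fun_prop)).prodMk (by fun_prop))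
  have h2 : Continuous fun p : ℝ × ℝ =>
      tent p.2 * ∫ x in (0 : ℝ)..2, G (pt x (Y * max 1 p.2)) p.1 :=
    (approx_continuous_tent.comp continuous_snd).mul
      (intervalIntegral.continuous_parametric_intervalIntegral_of_continuous'
        (f := fun (p : ℝ × ℝ) x => G (pt x (Y * max 1 p.2)) p.1) h1 0 2)
  set A : ℝ → ℝ := fun t => win (fun y => ∫ x in (0 : ℝ)..2, G (pt x y) t) Y with hA
  have hA' : A = fun t => ∫ u in (1 : ℝ)..3,
      tent u * ∫ x in (0 : ℝ)..2, G (pt x (Y * max 1 u)) t := funext fun t => approx_win_eq _ _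
  have hAc : Continuous A := by
    rw [hA']
    exact intervalIntegral.continuous_parametric_intervalIntegral_of_continuous'
      (f := fun t u => tent u * ∫ x in (0 : ℝ)..2, G (pt x (Y * max 1 u)) t) h2 1 3
  have hA0 : ∀ t, 0 ≤ A t := fun t => by
    rw [hA']
    exact intervalIntegral.integral_nonneg (by norm_num) fun u _ => mul_nonneg (le_max_left _ _)
      (intervalIntegral.integral_nonneg (by norm_num) fun x _ => h0 _ _)
  have h3 : ∫ t in (0 : ℝ)..1, A t ≤ m := by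
    refine le_trans (le_of_eq ?_) h
    rw [hA', approx_win_eq, approx_swap
      (H := fun t u => tent u * ∫ x in (0 : ℝ)..2, G (pt x (Y * max 1 u)) t) h2]
    congr 1
    funext u
    rw [intervalIntegral.integral_const_mul]
    congr 1
    exact approx_swap (H := fun t x => G (pt x (Y * max 1 u)) t)
      (h1.comp (f := fun p : ℝ × ℝ => ((p.1, u), p.2)) (by fun_prop)) _ _ _ _
  obtain ⟨t, ht, hmin⟩ := isCompact_Icc.exists_isMinOn (Set.nonempty_Icc.2 hθ.le)
    hAc.continuousOn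
  refine ⟨t, ht, le_trans ?_ h3⟩
  have h4 : ∫ _u in (0 : ℝ)..θ, A t ≤ ∫ u in (0 : ℝ)..θ, A u :=
    intervalIntegral.integral_mono_on hθ.le intervalIntegrable_const (hAc.intervalIntegrable _ _)
      fun u hu => hmin hu
  have h5 := intervalIntegral.integral_add_adjacent_intervals (μ := volume)
    (hAc.intervalIntegrable 0 θ) (hAc.intervalIntegrable θ 1)
  have h6 : 0 ≤ ∫ u in θ..1, A u := intervalIntegral.integral_nonneg hθ1 fun u _ => hA0 u
  simp only [intervalIntegral.integral_const, sub_zero, smul_eq_mul] at h4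
  linarith

theorem approx_win_fc (D : ℍ → ℝ) (Y : ℝ) : win (fc 2 (fun τ => (D τ : ℂ)) 0) Y =
    ((win (fun y => ∫ x in (0 : ℝ)..2, D (pt x y)) Y / 2 : ℝ) : ℂ) := by
  rw [win, win, ← intervalIntegral.integral_div, ← intervalIntegral.integral_ofReal]
  congr 1
  funext u
  simp [fc, intervalIntegral.integral_ofReal]
  ring

theorem approx_continuous_sq {Φ : ℍ → ℝ → ℂ} (hc : Continuous Φ.uncurry) (J : ℕ) :
    Continuous (Function.uncurry fun τ t => ‖approxRem J (Φ τ) t‖ ^ 2) := by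
  have h : Continuous fun p : ℍ × ℝ => ‖approxRem J (Φ p.1) p.2‖ ^ 2 :=
    (approx_continuous_rem' hc J).norm.pow 2
  exact h

theorem approx_mean {Φ : ℍ → ℝ → ℂ} (hc : Continuous Φ.uncurry) {B : ℝ} (hB : ∀ τ t, ‖Φ τ t‖ ≤ B)
    (per : ∀ τ, Function.Periodic (Φ τ) 1)
    (inv : ∀ γ ∈ Gamma 2, ∀ τ : ℍ, ∃ (z : ℂ) (β : ℝ), ‖z‖ = 1 ∧
      Φ (γ • τ) = fun t => z * Φ τ (t + β)) {m : ℝ} (hm : 0 < m) :
    ∃ J : ℕ, ∀ᶠ Y in 𝓝[>] (0 : ℝ), win (fun y => ∫ x in (0 : ℝ)..2, ∫ t in (0 : ℝ)..1,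
      ‖approxRem J (Φ (pt x y)) t‖ ^ 2) Y ≤ m := by
  let D : ℕ → ℍ → ℝ := fun J τ => ∫ t in (0 : ℝ)..1, ‖approxRem J (Φ τ) t‖ ^ 2
  have hτ : ∀ τ, Continuous (Φ τ) := fun τ => hc.comp (Continuous.prodMk_right τ)
  have hb : ∀ J τ, ‖(D J τ : ℂ)‖ ≤ B ^ 2 := fun J τ => by
    rw [norm_real, Real.norm_of_nonneg
      (intervalIntegral.integral_nonneg zero_le_one fun t _ => by positivity)]
    exact approx_rem_le J (hτ τ) (hB τ)
  have hL : ∀ J, Lev 2 fun τ => (D J τ : ℂ) := fun J => by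
    refine ⟨⟨continuous_ofReal.comp ?_, _, hb J⟩, two_pos, fun γ hγ τ => ?_⟩
    · exact intervalIntegral.continuous_parametric_intervalIntegral_of_continuous'
        (f := fun τ t => ‖approxRem J (Φ τ) t‖ ^ 2)
        (approx_continuous_sq hc J) 0 1
    · obtain ⟨z, β, hz, h⟩ := inv γ hγ τ
      simp only [D, h, approx_rem_shift J (per τ) β hz]
  have h0 : Lev 2 fun _ => (0 : ℂ) := ⟨⟨continuous_const, 0, by simp⟩, two_pos, fun _ _ _ => rfl⟩
  have h1 := mean_dct (l := atTop) (F := fun J τ => (D J τ : ℂ))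
    (Eventually.of_forall fun J => ⟨hL J, hb J⟩) h0 fun τ =>
      (continuous_ofReal.tendsto 0).comp (approx_rem_tendsto (hτ τ))
  have h2 := mean_const_mul (LL.const 0) 0
  simp only [zero_mul] at h2
  rw [h2] at h1
  have h3 := (Complex.continuous_re.tendsto 0).comp h1
  obtain ⟨J, hJ⟩ := (h3.eventually (gt_mem_nhds (show re 0 < m / 2 by simpa using hm))).exists
  refine ⟨J, ?_⟩
  have h4 := (Complex.continuous_re.tendsto _).comp
    (LL.tendsto_fc ⟨2, hL J⟩ two_pos fun τ => by simpa using (hL J).per τ)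
  filter_upwards [h4.eventually (gt_mem_nhds hJ)] with Y hY
  simp only [Function.comp, approx_win_fc, ofReal_re] at hY
  linarith

theorem approx {X : ℝ} {K : ℤ → ℤ → ℍ → ℂ} {F : ℍ → ℂ} (hK : Coc X K) (hF : Sol X 1 F) {ε : ℝ}
    (hε : 0 < ε) : ∃ (J : ℕ) (Φ : ℤ → ℍ → ℂ), (∀ j, BC (Φ j) ∧ Aut j 1 (Φ j)) ∧
      ∀ᶠ Y in 𝓝[>] (0 : ℝ), ∃ u : ℤ → ℂ, (∀ j, ‖u j‖ ≤ 1) ∧
        win (fun y => ∫ x in (0 : ℝ)..2,
          ‖nz F (pt x y) - ∑ j ∈ Finset.Icc (-J : ℤ) J, u j * Φ j (pt x y)‖ ^ 2) Y ≤ ε := by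
  obtain ⟨C, hC⟩ := integral_maj
  have hC0 : 0 < |C| + 1 := by positivity
  obtain ⟨s, T, hs, hs1, hT, hP⟩ := approx_pointwise hK hF (η := ε / 4 / (|C| + 1)) (by positivity)
  have hc := approx_phi_continuous hK hF hs hs1 hT
  obtain ⟨B, hB⟩ := approx_phi_bdd hK hF hs hs1 hT
  have hθ : 0 < (1 - s) / 8 := by linarith
  obtain ⟨J, hJ⟩ := approx_mean hc hB approx_phi_periodic
    (fun γ hγ τ => ⟨_, _, norm_JJ' 0 hγ τ, approx_phi_smul hK hF hs hs1 hγ τ⟩)
    (m := (1 - s) / 8 * (ε / 4)) (by positivity)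
  have hcf : ∀ j, Continuous fun τ => approxCf (approxPhi K F s T τ) j := approx_continuous_cf hc
  refine ⟨J, fun j τ => approxCf (approxPhi K F s T τ) j, fun j =>
    ⟨⟨hcf j, B, fun τ => approx_norm_cf (hB τ) j⟩, approx_phi_aut hK hF hs hs1 j⟩, ?_⟩
  filter_upwards [hJ, Ioc_mem_nhdsGT (show (0 : ℝ) < T / 3 by linarith)] with Y hY ⟨hY0, hYT⟩
  have hR := approx_continuous_rem' hc J
  obtain ⟨t, ht, h1⟩ := approx_select (G := fun τ t => ‖approxRem J (approxPhi K F s T τ) t‖ ^ 2)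
    (approx_continuous_sq hc J) (fun _ _ => by positivity) hY0 hθ (by linarith) hY
  replace h1 := le_of_mul_le_mul_left h1 hθ
  refine ⟨fun j => approxE (j * t), fun j => (approx_norm_E _).le, ?_⟩
  have hR' : Continuous fun τ => ‖approxRem J (approxPhi K F s T τ) t‖ ^ 2 :=
    (hR.comp (Continuous.prodMk_left t)).norm.pow 2
  have hE : Continuous fun τ => ‖nz F τ - ∑ j ∈ Finset.Icc (-J : ℤ) J,
      approxE (j * t) * approxCf (approxPhi K F s T τ) j‖ ^ 2 :=
    ((continuous_nz hF.hol).sub (continuous_finsetSum _ fun j _ =>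
      continuous_const.mul (hcf j))).norm.pow 2
  have i1 := approx_win_int hR' hY0
  have i0 : IntervalIntegrable (fun u => tent u • (ε / 2)) volume 1 3 :=
    (approx_continuous_tent.smul continuous_const).intervalIntegrable _ _
  have e : ∀ u, tent u • (ε / 2 + 2 * ∫ x in (0 : ℝ)..2,
      ‖approxRem J (approxPhi K F s T (pt x (Y * u))) t‖ ^ 2) = tent u • (ε / 2) +
        2 * tent u • ∫ x in (0 : ℝ)..2, ‖approxRem J (approxPhi K F s T (pt x (Y * u))) t‖ ^ 2 :=
    fun u => by simp only [smul_eq_mul]; ring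
  refine (win_mono (b := fun y => ε / 2 + 2 * ∫ x in (0 : ℝ)..2,
    ‖approxRem J (approxPhi K F s T (pt x y)) t‖ ^ 2) (approx_win_int hE hY0) ?_ hY0 ?_).trans ?_
  · simp only [e]
    exact i0.add (i1.const_mul 2)
  · intro y hy
    have hy0 : 0 < y := hY0.trans_le hy.1
    have j1 : IntervalIntegrable
        (fun x => ‖approxRem J (approxPhi K F s T (pt x y)) t‖ ^ 2) volume 0 2 :=
      (hR'.comp (continuous_pt hy0)).intervalIntegrable 0 2
    have j2 := (intervalIntegrable_maj hy0).const_mul (2 * (ε / 4 / (|C| + 1)))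
    refine (intervalIntegral.integral_mono_on (g := fun x => 2 * (ε / 4 / (|C| + 1)) *
      maj (pt x y) + 2 * ‖approxRem J (approxPhi K F s T (pt x y)) t‖ ^ 2) (by norm_num)
      ((hE.comp (continuous_pt hy0)).intervalIntegrable 0 2) (j2.add (j1.const_mul 2))
      fun x _ => ?_).trans ?_
    · have h2 := hP (pt x y) (by rw [pt_im _ hy0]; linarith [hy.2]) t ht
      have h3 := norm_add_le (nz F (pt x y) - approxPhi K F s T (pt x y) t)
        (approxRem J (approxPhi K F s T (pt x y)) t)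
      rw [approxRem, sub_add_sub_cancel, ← approxRem] at h3
      refine (pow_le_pow_left₀ (norm_nonneg _) h3 2).trans ?_
      nlinarith [sq_nonneg (‖nz F (pt x y) - approxPhi K F s T (pt x y) t‖ -
        ‖approxRem J (approxPhi K F s T (pt x y)) t‖)]
    · rw [intervalIntegral.integral_add j2 (j1.const_mul 2), intervalIntegral.integral_const_mul,
        intervalIntegral.integral_const_mul]
      have h2 : ∫ x in (0 : ℝ)..2, maj (pt x y) ≤ |C| + 1 := by
        linarith [hC y hy0, le_abs_self C]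
      have h3 : 2 * (ε / 4 / (|C| + 1)) * ∫ x in (0 : ℝ)..2, maj (pt x y) ≤
          2 * (ε / 4 / (|C| + 1)) * (|C| + 1) := by gcongr
      have h4 : 2 * (ε / 4 / (|C| + 1)) * (|C| + 1) = ε / 2 := by field_simp; ring
      linarith
  · have h2 := win_const (ε / 2) Y
    rw [win] at h1 h2 ⊢
    simp only [e]
    rw [intervalIntegral.integral_add i0 (i1.const_mul 2), intervalIntegral.integral_const_mul, h2]
    linarith

end Pool.Agent.Lib.MP_e6abdd_an
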