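import Pool.Agent.Lib.MP_e6abdd_an.Unfold

/-!
Properties of the mean.
-/

namespace Pool.Agent.Lib.MP_e6abdd_an

open Complex hiding Gamma
open UpperHalfPlane hiding I
open MeasureTheory Filter Topology CongruenceSubgroup
open scoped Real MatrixGroups ComplexConjugate

variable {F G : ℍ → ℂ} {M : ℕ}

theorem Lev.mono (h : Lev M F) {M' : ℕ} (hM : M ∣ M') (h0 : 0 < M') : Lev M' F := by
  refine ⟨h.toBC, h0, fun γ hγ τ => h.inv γ ?_ τ⟩
  rw [Gamma_mem] at hγ ⊢
  have e : ∀ a : ℤ, ZMod.castHom hM (ZMod M) (a : ZMod M') = a := fun a => map_intCast _ a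
  refine ⟨?_, ?_, ?_, ?_⟩
  · rw [← e, hγ.1, map_one]
  · rw [← e, hγ.2.1, map_zero]
  · rw [← e, hγ.2.2.1, map_zero]
  · rw [← e, hγ.2.2.2, map_one]

theorem Lev.per (h : Lev M F) (τ : ℍ) : F (aff 1 M τ) = F τ := by
  have hm := ModularGroup_T_pow_mem_Gamma M M dvd_rfl
  rw [Int.natAbs_natCast] at hm
  rw [← h.inv _ hm τ, T_zpow_smul, Int.cast_natCast]

theorem Lev.smul (h : Lev M F) (γ : SL(2, ℤ)) : Lev M fun τ => F (γ • τ) := by
  obtain ⟨B, hB⟩ := h.bdd
  refine ⟨⟨h.cont.comp (continuous_const_smul (γ : GL (Fin 2) ℝ)), B, fun τ => hB _⟩, h.pos, fun g hg τ => ?_⟩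
  have := h.inv _ ((Gamma_normal M).conj_mem g hg γ) (γ • τ)
  rwa [mul_smul, mul_smul, inv_smul_smul] at this

theorem LL.const (c : ℂ) : LL fun _ => c := by
  exact ⟨1, ⟨continuous_const, ‖c‖, fun _ => le_rfl⟩, one_pos, fun _ _ _ => rfl⟩

theorem LL.common (h : LL F) (h' : LL G) : ∃ M, Lev M F ∧ Lev M G := by
  obtain ⟨M, h⟩ := h
  obtain ⟨M', h'⟩ := h'
  exact ⟨M * M', h.mono (dvd_mul_right _ _) (mul_pos h.pos h'.pos),
    h'.mono (dvd_mul_left _ _) (mul_pos h.pos h'.pos)⟩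

theorem Lev.add (h : Lev M F) (h' : Lev M G) : Lev M fun τ => F τ + G τ := by
  obtain ⟨B, hB⟩ := h.bdd
  obtain ⟨B', hB'⟩ := h'.bdd
  exact ⟨⟨h.cont.add h'.cont, B + B', fun τ =>
    (norm_add_le _ _).trans (add_le_add (hB τ) (hB' τ))⟩, h.pos,
    fun γ hγ τ => by rw [h.inv γ hγ, h'.inv γ hγ]⟩

theorem Lev.mul (h : Lev M F) (h' : Lev M G) : Lev M fun τ => F τ * G τ := by
  obtain ⟨B, hB⟩ := h.bdd
  obtain ⟨B', hB'⟩ := h'.bdd
  exact ⟨⟨h.cont.mul h'.cont, B * B', fun τ => (norm_mul_le _ _).trans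
    (mul_le_mul (hB τ) (hB' τ) (norm_nonneg _) ((norm_nonneg _).trans (hB τ)))⟩, h.pos,
    fun γ hγ τ => by rw [h.inv γ hγ, h'.inv γ hγ]⟩

theorem Lev.star (h : Lev M F) : Lev M fun τ => conj (F τ) := by
  obtain ⟨B, hB⟩ := h.bdd
  exact ⟨⟨continuous_conj.comp h.cont, B, fun τ => by simpa using hB τ⟩, h.pos,
    fun γ hγ τ => by rw [h.inv γ hγ]⟩

theorem LL.add (h : LL F) (h' : LL G) : LL fun τ => F τ + G τ := by
  obtain ⟨M, h, h'⟩ := h.common h'
  exact ⟨M, h.add h'⟩

theorem LL.mul (h : LL F) (h' : LL G) : LL fun τ => F τ * G τ := by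
  obtain ⟨M, h, h'⟩ := h.common h'
  exact ⟨M, h.mul h'⟩

theorem LL.star (h : LL F) : LL fun τ => conj (F τ) := by
  obtain ⟨M, h⟩ := h
  exact ⟨M, h.star⟩

theorem LL.sum {ι : Type} {s : Finset ι} {F : ι → ℍ → ℂ} (h : ∀ i ∈ s, LL (F i)) :
    LL fun τ => ∑ i ∈ s, F i τ := by
  classical
  induction s using Finset.induction_on with
  | empty => simpa using LL.const 0
  | insert a s ha ih =>
    simp only [Finset.sum_insert ha]
    exact (h a (by simp)).add (ih fun i hi => h i (by simp [hi]))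

theorem LL.tendsto (h : LL F) : Tendsto (win (hav F)) (𝓝[>] 0) (𝓝 (mean F)) := by
  obtain ⟨M, h⟩ := h
  obtain ⟨κ, -, hκ⟩ := tendsto_fint h.pos
  rw [mean, (hκ F h).limUnder_eq]
  exact hκ F h

theorem mean_win_congr {E : Type} [NormedAddCommGroup E] [NormedSpace ℝ E] {a b : ℝ → E} {Y : ℝ}
    (hY : 0 < Y) (h : ∀ y, 0 < y → a y = b y) : win a Y = win b Y := by
  refine intervalIntegral.integral_congr fun t ht => ?_
  rw [Set.uIcc_of_le (by norm_num)] at ht
  simp only [h (Y * t) (mul_pos hY (by linarith [ht.1]))]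

theorem LL.tendsto_fc (h : LL F) {P : ℝ} (hP : 0 < P) (per : ∀ τ, F (aff 1 P τ) = F τ) :
    Tendsto (win (fc P F 0)) (𝓝[>] 0) (𝓝 (mean F)) := by
  refine h.tendsto.congr' ?_
  obtain ⟨M, h⟩ := h
  filter_upwards [self_mem_nhdsWithin] with Y hY
  exact mean_win_congr hY fun y hy => hav_eq h.cont hP per hy

theorem mean_eq_fint (hM : 0 < M) : ∃ κ : ℝ, 0 < κ ∧ ∀ F, Lev M F → mean F = κ * fint M F := by
  obtain ⟨κ, h0, hκ⟩ := tendsto_fint hM
  exact ⟨κ, h0, fun F h => (hκ F h).limUnder_eq⟩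

theorem mean_vol_strip {δ : ℝ} (hδ : 0 < δ) : volume (strip ∩ {τ : ℍ | δ ≤ τ.im}) ≠ ⊤ := by
  have hm : MeasurableSet {τ : ℍ | δ ≤ τ.im} :=
    (isClosed_le continuous_const UpperHalfPlane.continuous_im).measurableSet
  have h := integrableOn_strip (G := {τ : ℍ | δ ≤ τ.im}.indicator fun _ => (1 : ℂ))
    (measurable_const.indicator hm) (b := (Set.Ici δ).indicator fun _ => 1) ?_ ?_
  · rw [IntegrableOn, integrable_indicator_iff hm, IntegrableOn, Measure.restrict_restrict hm,
      ← IntegrableOn, integrableOn_const_iff] at h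
    rw [Set.inter_comm]
    simpa [lt_top_iff_ne_top] using h
  · have h1 : IntegrableOn (fun y : ℝ => y ^ (-2 : ℝ)) (Set.Ici δ) :=
      (integrableOn_Ici_iff_integrableOn_Ioi).2 (integrableOn_Ioi_rpow_of_lt (by norm_num) hδ)
    refine (((integrable_indicator_iff measurableSet_Ici).2 h1).integrableOn
      (s := Set.Ioi 0)).congr_fun (fun y hy => ?_) measurableSet_Ioi
    by_cases hy' : y ∈ Set.Ici δ
    · simp only [Set.indicator_of_mem hy']
      rw [Real.rpow_neg (le_of_lt hy), one_div]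
      norm_cast
    · simp only [Set.indicator_of_notMem hy', zero_div]
  · intro τ
    by_cases hτ : δ ≤ τ.im <;> simp [Set.indicator, hτ]

theorem mean_vol_fdo : volume ModularGroup.fdo ≠ ⊤ := by
  have hm : MeasurableSet (strip ∩ {τ : ℍ | 1 / 2 ≤ τ.im}) := measurableSet_strip.inter
    (isClosed_le continuous_const UpperHalfPlane.continuous_im).measurableSet
  refine ne_top_of_le_ne_top (mean_vol_strip (δ := 1 / 2) (by norm_num)) ?_
  rw [← (measurePreserving_aff one_pos 1).measure_preimage hm.nullMeasurableSet]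
  refine measure_mono fun τ hτ => ?_
  have h1 := abs_lt.1 hτ.2
  have h2 := ModularGroup.three_lt_four_mul_im_sq_of_mem_fdo hτ
  have h3 := τ.im_pos
  simp only [Set.mem_preimage, strip, Set.mem_inter_iff, Set.mem_ofPred_eq, Set.mem_Ioc,
    aff_re one_pos, aff_im one_pos]
  exact ⟨⟨by linarith, by linarith⟩, by nlinarith⟩

@[reducible] noncomputable def meanFin (hM : 0 < M) : Fintype (SL(2, ℤ) ⧸ Gamma M) :=
  haveI : NeZero M := ⟨hM.ne'⟩
  Fintype.ofFinite _

theorem mean_fint [Fintype (SL(2, ℤ) ⧸ Gamma M)] (F : ℍ → ℂ) :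
    fint M F = ∫ τ in ModularGroup.fdo, ∑ q : SL(2, ℤ) ⧸ Gamma M, F (q.out • τ) := by
  simp only [fint, finsum_eq_sum_of_fintype]

theorem Lev.cont_sum [Fintype (SL(2, ℤ) ⧸ Gamma M)] (h : Lev M F) :
    Continuous fun τ : ℍ => ∑ q : SL(2, ℤ) ⧸ Gamma M, F (q.out • τ) :=
  continuous_finsetSum _ fun q _ => (h.smul q.out).cont

theorem Lev.int [Fintype (SL(2, ℤ) ⧸ Gamma M)] (h : Lev M F) :
    Integrable (fun τ : ℍ => ∑ q : SL(2, ℤ) ⧸ Gamma M, F (q.out • τ))
      (volume.restrict ModularGroup.fdo) := by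
  obtain ⟨B, hB⟩ := h.bdd
  exact integrable_finsetSum _ fun q _ => Measure.integrableOn_of_bounded mean_vol_fdo
    (h.smul q.out).cont.aestronglyMeasurable (M := B) (Eventually.of_forall fun τ => hB _)

theorem Lev.out (h : Lev M F) (g : SL(2, ℤ)) (τ : ℍ) :
    F ((g : SL(2, ℤ) ⧸ Gamma M).out • τ) = F (g • τ) := by
  obtain ⟨k, hk⟩ := QuotientGroup.mk_out_eq_mul (Gamma M) g
  rw [hk, mul_smul]
  exact (h.smul g).inv k k.2 τ

theorem mean_add (h : LL F) (h' : LL G) : mean (fun τ => F τ + G τ) = mean F + mean G := by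
  obtain ⟨M, h, h'⟩ := h.common h'
  obtain ⟨κ, -, hκ⟩ := mean_eq_fint h.pos
  let _ := meanFin h.pos
  rw [hκ _ (h.add h'), hκ _ h, hκ _ h', ← mul_add, mean_fint, mean_fint, mean_fint,
    ← integral_add h.int h'.int]
  simp only [Finset.sum_add_distrib]

theorem mean_const_mul (h : LL F) (c : ℂ) : mean (fun τ => c * F τ) = c * mean F := by
  obtain ⟨M, h, h'⟩ := h.common (LL.const c)
  obtain ⟨κ, -, hκ⟩ := mean_eq_fint h.pos
  let _ := meanFin h.pos
  rw [hκ _ (h'.mul h), hκ _ h, mean_fint, mean_fint]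
  simp only [← Finset.mul_sum]
  rw [integral_const_mul]
  ring

theorem mean_conj (h : LL F) : mean (fun τ => conj (F τ)) = conj (mean F) := by
  obtain ⟨M, h⟩ := h
  obtain ⟨κ, -, hκ⟩ := mean_eq_fint h.pos
  let _ := meanFin h.pos
  rw [hκ _ h.star, hκ _ h, mean_fint, mean_fint, map_mul, conj_ofReal, ← integral_conj]
  simp only [map_sum]

theorem mean_sum {ι : Type} {s : Finset ι} {F : ι → ℍ → ℂ} (h : ∀ i ∈ s, LL (F i)) :
    mean (fun τ => ∑ i ∈ s, F i τ) = ∑ i ∈ s, mean (F i) := by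
  classical
  induction s using Finset.induction_on with
  | empty => simpa using mean_const_mul (LL.const 0) 0
  | insert a s ha ih =>
    simp only [Finset.sum_insert ha]
    rw [mean_add (h a (by simp)) (LL.sum fun i hi => h i (by simp [hi])),
      ih fun i hi => h i (by simp [hi])]

theorem Lev.int_re [Fintype (SL(2, ℤ) ⧸ Gamma M)] (h : Lev M F) :
    Integrable (fun τ : ℍ => ∑ q : SL(2, ℤ) ⧸ Gamma M, (F (q.out • τ)).re)
      (volume.restrict ModularGroup.fdo) := by
  simpa using h.int.re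

theorem Lev.re_fint [Fintype (SL(2, ℤ) ⧸ Gamma M)] (h : Lev M F) : (fint M F).re =
    ∫ τ in ModularGroup.fdo, ∑ q : SL(2, ℤ) ⧸ Gamma M, (F (q.out • τ)).re := by
  have := integral_re h.int
  simp only [RCLike.re_to_complex, re_sum] at this
  rw [mean_fint, this]

theorem mean_re_mono (h : LL F) (h' : LL G) (hle : ∀ τ, (F τ).re ≤ (G τ).re) :
    (mean F).re ≤ (mean G).re := by
  obtain ⟨M, h, h'⟩ := h.common h'
  obtain ⟨κ, h0, hκ⟩ := mean_eq_fint h.pos
  let _ := meanFin h.pos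
  rw [hκ _ h, hκ _ h', re_ofReal_mul, re_ofReal_mul, h.re_fint, h'.re_fint]
  refine mul_le_mul_of_nonneg_left (integral_mono h.int_re h'.int_re fun τ => ?_) h0.le
  exact Finset.sum_le_sum fun q _ => hle _

theorem mean_smul (h : LL F) (γ : SL(2, ℤ)) : mean (fun τ => F (γ • τ)) = mean F := by
  obtain ⟨M, h⟩ := h
  obtain ⟨κ, -, hκ⟩ := mean_eq_fint h.pos
  let _ := meanFin h.pos
  rw [hκ _ (h.smul γ), hκ _ h, mean_fint, mean_fint]
  congr 2
  funext τ
  refine Fintype.sum_equiv (MulAction.toPerm γ) _ _ fun q => ?_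
  rw [MulAction.toPerm_apply, ← MulAction.Quotient.mk_smul_out, h.out, smul_eq_mul, mul_smul]

theorem mean_aff (h : LL F) {r : ℝ} (hr : 0 < r) (x : ℝ) (h' : LL fun τ => F (aff r x τ)) :
    mean (fun τ => F (aff r x τ)) = mean F := by
  have ht := h.tendsto
  obtain ⟨M, h⟩ := h
  have hM : (0 : ℝ) < M := by exact_mod_cast h.pos
  have key : ∀ y, 0 < y → hav (fun τ => F (aff r x τ)) y = hav F (r * y) := by
    intro y hy
    have hry := mul_pos hr hy
    rw [hav_eq (F := fun τ => F (aff r x τ)) (h.cont.comp (continuous_aff hr x)) (div_pos hM hr) _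
      hy, hav_eq h.cont hM h.per hry]
    · have e := fc_aff hM h.per x 0 hry
      simp only [Int.cast_zero, mul_zero, zero_mul, zero_div, Complex.exp_zero, one_mul] at e
      rw [← e]
      simp only [fc, Int.cast_zero, mul_zero, zero_mul, zero_div, neg_zero, Complex.exp_zero,
        mul_one, aff_pt hr _ _ hy, aff_pt one_pos _ _ hry, one_mul]
      have := intervalIntegral.integral_comp_mul_left (a := 0) (b := M / r)
        (fun s => F (pt (s + x) (r * y))) hr.ne'
      rw [this, mul_zero, mul_div_cancel₀ _ hr.ne', real_smul]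
      have : (r : ℂ) ≠ 0 := by exact_mod_cast hr.ne'
      push_cast
      field_simp
    · intro τ
      rw [← h.per (aff r x τ), aff_aff hr one_pos, aff_aff one_pos hr, mul_div_cancel₀ _ hr.ne']
      simp only [mul_one, one_mul, add_comm]
  have h2 : Tendsto (fun Y : ℝ => r * Y) (𝓝[>] 0) (𝓝[>] 0) := by
    refine tendsto_nhdsWithin_iff.2 ⟨?_, ?_⟩
    · simpa using ((continuous_const_mul r).tendsto 0).mono_left nhdsWithin_le_nhds
    · filter_upwards [self_mem_nhdsWithin] with Y hY using mul_pos hr hY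
  refine tendsto_nhds_unique h'.tendsto ((ht.comp h2).congr' ?_)
  filter_upwards [self_mem_nhdsWithin] with Y hY
  rw [mean_win_congr hY key]
  simp only [Function.comp, win, mul_assoc]

theorem mean_openPos : Measure.IsOpenPosMeasure (volume : Measure ℍ) := by
  refine ⟨fun U hU hne h0 => ?_⟩
  rw [UpperHalfPlane.volume_def, withDensity_apply_eq_zero (by fun_prop)] at h0
  have e : {z : ℍ | ((((1 / NNReal.mk z.im z.im_pos.le) ^ 2 : NNReal)) : ENNReal) ≠ 0} =
      Set.univ := by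
    ext z
    simp [← NNReal.coe_eq_zero, z.im_ne_zero]
  rw [e, Set.univ_inter, measurableEmbedding_coe.comap_apply] at h0
  exact (isOpenEmbedding_coe.isOpenMap U hU).measure_ne_zero volume (hne.image _) h0

theorem eq_zero_of_mean (h : LL F) (h0 : ∀ τ, 0 ≤ (F τ).re) (h1 : (mean F).re ≤ 0) (τ : ℍ) :
    (F τ).re = 0 := by
  obtain ⟨M, h⟩ := h
  obtain ⟨κ, hk, hκ⟩ := mean_eq_fint h.pos
  let _ := meanFin h.pos
  have := mean_openPos
  rw [hκ _ h, re_ofReal_mul, h.re_fint] at h1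
  set g : ℍ → ℝ := fun τ => ∑ q : SL(2, ℤ) ⧸ Gamma M, (F (q.out • τ)).re with hg
  have g0 : 0 ≤ g := fun τ => Finset.sum_nonneg fun q _ => h0 _
  have gc : Continuous g :=
    continuous_finsetSum _ fun q _ => Complex.continuous_re.comp (h.smul q.out).cont
  have h2 : ∫ τ in ModularGroup.fdo, g τ = 0 :=
    le_antisymm (by nlinarith) (integral_nonneg g0)
  have h3 := (Measure.eqOn_open_of_ae_eq ((integral_eq_zero_iff_of_nonneg g0 h.int_re).1 h2)
    ModularGroup.isOpen_fdo gc.continuousOn continuousOn_const).closure gc continuous_const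
  obtain ⟨γ, hγ⟩ := ModularGroup.exists_smul_mem_fd τ
  rw [ModularGroup.fd_eq_closure_fdo] at hγ
  have h4 := (Finset.sum_eq_zero_iff_of_nonneg fun q _ => h0 _).1 (h3 hγ)
    ((γ⁻¹ : SL(2, ℤ)) : SL(2, ℤ) ⧸ Gamma M) (Finset.mem_univ _)
  rwa [h.out, inv_smul_smul] at h4

theorem mean_dct {ι : Type} {l : Filter ι} [l.IsCountablyGenerated] {F : ι → ℍ → ℂ} {B : ℝ}
    (h : ∀ᶠ i in l, Lev M (F i) ∧ ∀ τ, ‖F i τ‖ ≤ B) (h' : Lev M G)
    (hl : ∀ τ, Tendsto (fun i => F i τ) l (𝓝 (G τ))) :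
    Tendsto (fun i => mean (F i)) l (𝓝 (mean G)) := by
  obtain ⟨κ, -, hκ⟩ := mean_eq_fint h'.pos
  let _ := meanFin h'.pos
  have : IsFiniteMeasure (volume.restrict ModularGroup.fdo) :=
    isFiniteMeasure_restrict.2 mean_vol_fdo
  rw [hκ _ h', mean_fint]
  refine Tendsto.congr' (f₁ := fun i => κ * fint M (F i))
    (h.mono fun i hi => (hκ _ hi.1).symm) (Tendsto.const_mul _ ?_)
  simp only [mean_fint]
  refine tendsto_integral_filter_of_dominated_convergence
    (fun _ => ∑ _q : SL(2, ℤ) ⧸ Gamma M, B) (h.mono fun i hi => hi.1.int.1)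
    (h.mono fun i hi => Eventually.of_forall fun τ => (norm_sum_le _ _).trans
      (Finset.sum_le_sum fun q _ => hi.2 _)) (integrable_const _)
    (Eventually.of_forall fun τ => tendsto_finsetSum _ fun q _ => hl _)

theorem mean_cs {f g : ℍ → ℂ} (h1 : LL fun τ => conj (f τ) * f τ) (h2 : LL fun τ => conj (g τ) * g τ)
    (h3 : LL fun τ => conj (f τ) * g τ) : ‖mean fun τ => conj (f τ) * g τ‖ ^ 2 ≤
      (mean fun τ => conj (f τ) * f τ).re * (mean fun τ => conj (g τ) * g τ).re := by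
  set a := mean fun τ => conj (f τ) * f τ with ha
  set b := mean fun τ => conj (g τ) * g τ with hb
  set c := mean fun τ => conj (f τ) * g τ with hc
  have z : mean (fun _ => (0 : ℂ)) = 0 := by simpa using mean_const_mul (LL.const 0) 0
  have pos : ∀ {u : ℍ → ℂ}, LL (fun τ => conj (u τ) * u τ) →
      0 ≤ (mean fun τ => conj (u τ) * u τ).re := fun hu => by
    have := mean_re_mono (LL.const 0) hu fun τ => by
      rw [← normSq_eq_conj_mul_self]; simpa using normSq_nonneg _
    simpa [z] using this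
  have key : ∀ s : ℝ, 0 ≤ normSq c * b.re * (s * s) + 2 * normSq c * s + a.re := by
    intro s
    set t : ℂ := s * conj c with ht
    have e : (fun τ => conj (f τ + t * g τ) * (f τ + t * g τ)) = fun τ =>
        (conj (f τ) * f τ + t * (conj (f τ) * g τ)) +
          (conj t * conj (conj (f τ) * g τ) + (conj t * t) * (conj (g τ) * g τ)) := by
      funext τ
      simp only [map_add, map_mul, conj_conj]
      ring
    have l1 := (LL.const t).mul h3
    have l2 := (LL.const (conj t)).mul h3.star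
    have l3 := (LL.const (conj t * t)).mul h2
    have := pos (u := fun τ => f τ + t * g τ) (e ▸ (h1.add l1).add (l2.add l3))
    rw [e, mean_add (h1.add l1) (l2.add l3), mean_add h1 l1, mean_add l2 l3, mean_const_mul h3,
      mean_const_mul h3.star, mean_const_mul h2, mean_conj h3, ← ha, ← hb, ← hc] at this
    have e1 : t * c = (s * normSq c : ℝ) := by
      rw [ht, mul_assoc, ← normSq_eq_conj_mul_self]; push_cast; ring
    have e2 : conj t * conj c = (s * normSq c : ℝ) := by rw [← map_mul, e1, conj_ofReal]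
    have e3 : conj t * t = (s * s * normSq c : ℝ) := by
      rw [← normSq_eq_conj_mul_self, ht, map_mul, normSq_conj, normSq_ofReal]
    rw [e1, e2, e3] at this
    simp only [add_re, ofReal_re, re_ofReal_mul] at this
    linarith
  have hd := discrim_le_zero key
  rw [discrim] at hd
  rw [← normSq_eq_norm_sq]
  rcases (normSq_nonneg c).eq_or_lt with h0 | h0
  · rw [← h0]; exact mul_nonneg (pos h1) (pos h2)
  · nlinarith

theorem mean_T2 : ModularGroup.T ^ 2 ∈ Gamma 2 := by
  simpa using ModularGroup_T_pow_mem_Gamma 2 2 dvd_rfl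

theorem unfold2 : ∃ c : ℝ, 0 < c ∧ ∀ (G : ℍ → ℂ) (G' : ℤ × ℤ → ℍ → ℂ), IntegrableOn G strip →
    (∀ γ ∈ Gamma 2, ∀ τ : ℍ, G' (γ 1 0, γ 1 1) τ = G (γ • τ)) →
    Lev 2 (fun τ => ∑' v : rows (Gamma 2), G' v τ) →
    mean (fun τ => ∑' v : rows (Gamma 2), G' v τ) = c * ∫ τ in strip, G τ := by
  obtain ⟨κ, h0, hκ⟩ := unfold (Gamma 2) two_pos le_rfl le_rfl mean_T2
  obtain ⟨κ', h0', hκ'⟩ := mean_eq_fint (M := 2) two_pos
  refine ⟨κ' / κ, div_pos h0' h0, fun G G' hG h hL => ?_⟩
  have : (κ : ℂ) ≠ 0 := by exact_mod_cast h0.ne'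
  rw [hκ' _ hL, hκ G G' hG h]
  push_cast
  field_simp

theorem siegel {δ : ℝ} (hδ : 0 < δ) : ∃ C : ℝ, 0 ≤ C ∧ ∀ F : ℍ → ℝ, Lev 2 (fun τ => (F τ : ℂ)) →
    (∀ τ, 0 ≤ F τ) → IntegrableOn F (strip ∩ {τ | δ ≤ τ.im}) ∧
      ∫ τ in strip ∩ {τ | δ ≤ τ.im}, F τ ≤ C * (mean fun τ => (F τ : ℂ)).re := by
  obtain ⟨κ, h0, hκ⟩ := unfold (Gamma 2) two_pos le_rfl le_rfl mean_T2
  obtain ⟨κ', h0', hκ'⟩ := mean_eq_fint (M := 2) two_pos
  obtain ⟨N, hN, hN'⟩ := norm_tsum_hgt hδ
  let _ := meanFin (M := 2) two_pos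
  have hm : MeasurableSet {τ : ℍ | δ ≤ τ.im} :=
    (isClosed_le continuous_const UpperHalfPlane.continuous_im).measurableSet
  refine ⟨κ * N / κ', by positivity, fun F hL hF => ?_⟩
  obtain ⟨B, hB⟩ := hL.bdd
  have hi : IntegrableOn (fun τ => (F τ : ℂ)) (strip ∩ {τ | δ ≤ τ.im}) :=
    Measure.integrableOn_of_bounded (mean_vol_strip hδ) hL.cont.aestronglyMeasurable (M := B)
      (Eventually.of_forall hB)
  refine ⟨by simpa [IntegrableOn] using hi.re, ?_⟩
  have hG : IntegrableOn ({τ : ℍ | δ ≤ τ.im}.indicator fun τ => (F τ : ℂ)) strip := by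
    rw [IntegrableOn, integrable_indicator_iff hm, IntegrableOn, Measure.restrict_restrict hm,
      Set.inter_comm]
    exact hi
  have e := hκ _ (fun v => {τ : ℍ | δ ≤ hgt v.1 v.2 τ}.indicator fun τ => (F τ : ℂ)) hG
    fun γ hγ τ => by
      simp only [Set.indicator, Set.mem_ofPred_eq, im_SL_smul, hL.inv γ hγ τ]
  rw [setIntegral_indicator hm, integral_complex_ofReal, mean_fint] at e
  have e2 := congrArg norm e
  rw [norm_mul, norm_real, norm_real, Real.norm_of_nonneg h0.le] at e2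
  rw [hκ' _ hL, re_ofReal_mul, hL.re_fint, ← mul_assoc, div_mul_cancel₀ _ h0'.ne', mul_assoc,
    ← integral_const_mul]
  refine (le_abs_self _).trans (e2.le.trans (mul_le_mul_of_nonneg_left ?_ h0.le))
  refine norm_integral_le_of_norm_le (hL.int_re.const_mul N) (Eventually.of_forall fun τ => ?_)
  rw [Finset.mul_sum]
  refine (norm_sum_le _ _).trans (Finset.sum_le_sum fun q _ => ?_)
  refine (hN' (rows (Gamma 2)) (fun v hv => (mem_rows2.1 hv).1) (q.out • τ) _ _ (hF _)
    (fun v => ?_) fun v hv => ?_).2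
  · refine (norm_indicator_le_norm_self _ _).trans ?_
    rw [norm_real, Real.norm_of_nonneg (hF _)]
  · have := Set.mem_of_indicator_ne_zero hv
    exact this

theorem win_congr {E : Type} [NormedAddCommGroup E] [NormedSpace ℝ E] {a b : ℝ → E} {Y : ℝ}
    (hY : 0 < Y) (h : ∀ y, 0 < y → a y = b y) : win a Y = win b Y := by
  exact mean_win_congr hY h

theorem mean_cont_tent : Continuous tent := by
  unfold tent
  fun_prop

/-- Locally bounded measurable functions of the height can be averaged over windows. -/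
theorem win_integrable {E : Type} [NormedAddCommGroup E] [NormedSpace ℝ E] {a : ℝ → E} {Y B : ℝ}
    (hY : 0 < Y) (h : AEStronglyMeasurable a (volume.restrict (Set.Ioi 0)))
    (hB : ∀ y ∈ Set.Icc Y (3 * Y), ‖a y‖ ≤ B) :
    IntervalIntegrable (fun t => tent t • a (Y * t)) volume 1 3 := by
  rw [intervalIntegrable_iff_integrableOn_Ioc_of_le (by norm_num)]
  have q : Measure.QuasiMeasurePreserving (fun t : ℝ => Y • t) (volume.restrict (Set.Ioc 1 3))
      (volume.restrict (Set.Ioi 0)) :=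
    (Measure.quasiMeasurePreserving_smul volume hY.ne').restrict fun t ht =>
      mul_pos hY (by linarith [ht.1])
  refine ⟨mean_cont_tent.aestronglyMeasurable.smul (h.comp_quasiMeasurePreserving q), ?_⟩
  refine HasFiniteIntegral.restrict_of_bounded (C := B) measure_Ioc_lt_top ?_
  filter_upwards [ae_restrict_mem measurableSet_Ioc] with t ht
  have h1 := hB (Y * t) ⟨by nlinarith [ht.1], by nlinarith [ht.2]⟩
  have h2 : tent t ≤ 1 := max_le zero_le_one (by linarith [abs_nonneg (t - 2)])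
  rw [norm_smul, Real.norm_of_nonneg (show 0 ≤ tent t from le_max_left _ _)]
  exact (mul_le_of_le_one_left (norm_nonneg _) h2).trans h1

theorem win_mono {a b : ℝ → ℝ} {Y : ℝ}
    (ha : IntervalIntegrable (fun t => tent t • a (Y * t)) volume 1 3)
    (hb : IntervalIntegrable (fun t => tent t • b (Y * t)) volume 1 3) (hY : 0 < Y)
    (h : ∀ y ∈ Set.Icc Y (3 * Y), a y ≤ b y) : win a Y ≤ win b Y := by
  refine intervalIntegral.integral_mono_on (by norm_num) ha hb fun t ht => ?_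
  exact smul_le_smul_of_nonneg_left (h _ ⟨by nlinarith [ht.1], by nlinarith [ht.2]⟩)
    (le_max_left _ _)

theorem win_const (c Y : ℝ) : win (fun _ => c) Y = c := by
  have h1 : ∫ t in (1 : ℝ)..2, tent t = ∫ t in (1 : ℝ)..2, (t - 1) := by
    refine intervalIntegral.integral_congr fun t ht => ?_
    rw [Set.uIcc_of_le (by norm_num)] at ht
    simp only [tent]
    rw [abs_of_nonpos (by linarith [ht.2]), max_eq_right (by linarith [ht.1])]
    ring
  have h2 : ∫ t in (2 : ℝ)..3, tent t = ∫ t in (2 : ℝ)..3, (3 - t) := by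
    refine intervalIntegral.integral_congr fun t ht => ?_
    rw [Set.uIcc_of_le (by norm_num)] at ht
    simp only [tent]
    rw [abs_of_nonneg (by linarith [ht.1]), max_eq_right (by linarith [ht.2])]
    ring
  rw [win, intervalIntegral.integral_smul_const, ← intervalIntegral.integral_add_adjacent_intervals
    (mean_cont_tent.intervalIntegrable 1 2) (mean_cont_tent.intervalIntegrable 2 3), h1, h2,
    intervalIntegral.integral_sub (by simp) (by simp),
    intervalIntegral.integral_sub (by simp) (by simp)]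
  norm_num

end Pool.Agent.Lib.MP_e6abdd_an
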