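import Pool.Agent.Lib.MP_e6abdd_an.Sol
import Pool.Agent.Lib.MP_e6abdd_an.Mean

/-!
The auxiliary point at bounded hyperbolic distance and weighted averages over cusps.
-/

namespace Pool.Agent.Lib.MP_e6abdd_an

open Complex hiding Gamma
open UpperHalfPlane hiding I
open MeasureTheory Filter Topology CongruenceSubgroup
open scoped Real MatrixGroups ComplexConjugate

noncomputable section

/-- The point with coordinate `a` in the disc model centred at `τ`. -/
def approxW (a : ℂ) (τ : ℍ) : ℍ := ofComplex (((τ : ℂ) - a * conj (τ : ℂ)) / (1 - a))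

theorem approx_one_sub_ne {a : ℂ} (ha : ‖a‖ < 1) : 1 - a ≠ 0 := by
  intro h
  have : a = 1 := by linear_combination -h
  simp [this] at ha

theorem approx_im {a : ℂ} (ha : ‖a‖ < 1) (z : ℂ) :
    ((z - a * conj z) / (1 - a)).im = z.im * (1 - ‖a‖ ^ 2) / normSq (1 - a) := by
  have h := normSq_pos.2 (approx_one_sub_ne ha)
  rw [div_im, ← normSq_eq_norm_sq, normSq_apply a]
  field_simp
  simp
  ring

theorem approx_sq_lt {a : ℂ} (ha : ‖a‖ < 1) : 0 < 1 - ‖a‖ ^ 2 := by
  have := norm_nonneg a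
  nlinarith

theorem approx_coe {a : ℂ} (ha : ‖a‖ < 1) (τ : ℍ) :
    (approxW a τ : ℂ) = ((τ : ℂ) - a * conj (τ : ℂ)) / (1 - a) := by
  rw [approxW, ofComplex_apply_of_im_pos]
  rw [approx_im ha]
  exact div_pos (mul_pos τ.im_pos (approx_sq_lt ha)) (normSq_pos.2 (approx_one_sub_ne ha))

theorem approx_W_im {a : ℂ} (ha : ‖a‖ < 1) (τ : ℍ) :
    (approxW a τ).im = τ.im * (1 - ‖a‖ ^ 2) / normSq (1 - a) := by
  rw [← coe_im, approx_coe ha, approx_im ha]; rfl

theorem approx_hgt {a : ℂ} (ha : ‖a‖ < 1) (c d : ℤ) (τ : ℍ) :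
    hgt c d (approxW a τ) = τ.im * (1 - ‖a‖ ^ 2) /
      normSq ((c * (τ : ℂ) + d) - a * conj (c * (τ : ℂ) + d)) := by
  have h := approx_one_sub_ne ha
  have h' := normSq_pos.2 h
  have e : (c * (approxW a τ : ℂ) + d) =
      ((c * (τ : ℂ) + d) - a * conj (c * (τ : ℂ) + d)) / (1 - a) := by
    rw [approx_coe ha]
    simp only [map_add, map_mul, map_intCast]
    field_simp
    ring
  rw [hgt, e, approx_W_im ha, map_div₀, div_div_div_cancel_right₀ h'.ne']

theorem approx_hgt_le {a : ℂ} (ha : ‖a‖ < 1) {c d : ℤ} (h : IsCoprime c d) (τ : ℍ) :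
    hgt c d (approxW a τ) * (1 - ‖a‖) ≤ 2 * hgt c d τ := by
  rw [approx_hgt ha, hgt]
  set z : ℂ := c * (τ : ℂ) + d
  have hz : 0 < ‖z‖ := norm_pos_iff.2 (denom_ne h τ)
  have h0 := norm_nonneg a
  have h1 : (1 - ‖a‖) * ‖z‖ ≤ ‖z - a * conj z‖ := by
    have := norm_sub_norm_le z (a * conj z)
    rw [norm_mul, norm_conj] at this
    linarith
  have h2 : 0 < (1 - ‖a‖) * ‖z‖ := mul_pos (by linarith) hz
  have h3 : ((1 - ‖a‖) * ‖z‖) ^ 2 ≤ ‖z - a * conj z‖ ^ 2 := by gcongr
  rw [normSq_eq_norm_sq, normSq_eq_norm_sq, div_mul_eq_mul_div, ← mul_div_assoc,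
    div_le_div_iff₀ (by nlinarith) (by positivity)]
  have hy := τ.im_pos
  calc τ.im * (1 - ‖a‖ ^ 2) * (1 - ‖a‖) * ‖z‖ ^ 2
      = τ.im * (1 + ‖a‖) * ((1 - ‖a‖) * ‖z‖) ^ 2 := by ring
    _ ≤ τ.im * 2 * ‖z - a * conj z‖ ^ 2 := by gcongr; linarith
    _ = _ := by ring

theorem approx_exp_arg (j : ℂ) : cexp (I * (2 * arg j)) * conj j = j := by
  have h := norm_mul_exp_arg_mul_I j
  have h2 : conj j = ‖j‖ * cexp (-(arg j * I)) := by
    conv_lhs => rw [← h]
    rw [map_mul, conj_ofReal, ← exp_conj]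
    simp
  rw [h2, mul_left_comm, ← exp_add]
  conv_rhs => rw [← h]
  congr 2
  ring

theorem approx_hgt_smul {a : ℂ} (ha : ‖a‖ < 1) (γ : SL(2, ℤ)) (v : ℤ × ℤ) (τ : ℍ) :
    hgt v.1 v.2 (approxW a (γ • τ)) = hgt (rowEquiv γ v).1 (rowEquiv γ v).2
      (approxW (a * cexp (I * (2 * arg (γ 1 0 * (τ : ℂ) + γ 1 1)))) τ) := by
  have hc : IsCoprime (γ 1 0) (γ 1 1) := by
    have := γ.det_coe
    rw [Matrix.det_fin_two] at this
    exact ⟨-γ 0 1, γ 0 0, by linear_combination this⟩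
  have hj := denom_ne hc τ
  set j : ℂ := γ 1 0 * (τ : ℂ) + γ 1 1 with hjdef
  have hn : ‖cexp (I * (2 * arg j))‖ = 1 := by
    rw [norm_exp]; simp
  have ha' : ‖a * cexp (I * (2 * arg j))‖ = ‖a‖ := by rw [norm_mul, hn, mul_one]
  rw [approx_hgt ha, approx_hgt (ha' ▸ ha), ha', im_SL_smul, hgt, ← hjdef]
  set z : ℂ := ((rowEquiv γ v).1 : ℤ) * (τ : ℂ) + ((rowEquiv γ v).2 : ℤ) with hz
  have e1 : (v.1 * ((γ • τ : ℍ) : ℂ) + v.2) = z / j := by
    rw [coe_SL_smul, ← hjdef, hz, eq_div_iff hj]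
    rw [show (rowEquiv γ v).1 = v.1 * γ 0 0 + v.2 * γ 1 0 from rfl,
      show (rowEquiv γ v).2 = v.1 * γ 0 1 + v.2 * γ 1 1 from rfl]
    push_cast
    field_simp
    rw [hjdef]
    ring
  have hj' : conj j ≠ 0 := by simpa using hj
  have e2 : z / j - a * conj (z / j) = (z - a * cexp (I * (2 * arg j)) * conj z) / j := by
    rw [map_div₀]
    have := approx_exp_arg j
    generalize cexp (I * (2 * arg j)) = E at this
    generalize conj j = j' at this hj'
    have h3 : conj z / j' = E * conj z / j := by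
      rw [div_eq_div_iff hj' hj, ← this]; ring
    rw [h3]
    ring
  rw [e1, e2, map_div₀]
  have := normSq_pos.2 hj
  rw [div_mul_eq_mul_div, div_div_div_cancel_right₀ this.ne']

theorem approx_continuous_W {X : Type} [TopologicalSpace X] {a : X → ℂ} {w : X → ℍ}
    (ha : Continuous a) (h1 : ∀ x, ‖a x‖ < 1) (hw : Continuous w) :
    Continuous fun x => approxW (a x) (w x) := by
  rw [isEmbedding_coe.continuous_iff]
  have : (UpperHalfPlane.coe ∘ fun x => approxW (a x) (w x)) =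
      fun x => ((w x : ℂ) - a x * conj (w x : ℂ)) / (1 - a x) :=
    funext fun x => approx_coe (h1 x) (w x)
  rw [this]
  have hc : Continuous fun x => (w x : ℂ) := continuous_coe.comp hw
  exact (hc.sub (ha.mul (continuous_conj.comp hc))).div (continuous_const.sub ha)
    fun x => approx_one_sub_ne (h1 x)

/-- Coprime pairs. -/
abbrev ApproxCP : Set (ℤ × ℤ) := {v | IsCoprime v.1 v.2}

/-- The weight of a cusp. -/
def approxRho (v : ℤ × ℤ) (w : ℍ) : ℝ := max 0 (hgt v.1 v.2 w - 1 / 2)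

theorem approx_rho_nonneg (v : ℤ × ℤ) (w : ℍ) : 0 ≤ approxRho v w := le_max_left _ _

theorem approx_rho_ne {v : ℤ × ℤ} {w : ℍ} (h : approxRho v w ≠ 0) : 1 / 2 ≤ hgt v.1 v.2 w := by
  by_contra h'
  exact h (max_eq_left (by linarith))

theorem approx_summable {E : Type} [NormedAddCommGroup E] (w : ℍ) {g : ApproxCP → E}
    (h : ∀ v, g v ≠ 0 → approxRho v w ≠ 0) : Summable g := by
  obtain ⟨N, hN⟩ := card_hgt (δ := 1 / 2) (by norm_num)
  obtain ⟨s, -, hs⟩ := hN w
  classical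
  refine summable_of_ne_finset_zero (s := s.preimage Subtype.val Subtype.val_injective.injOn) ?_
  intro v hv
  by_contra h0
  exact hv (Finset.mem_preimage.2 (hs v v.2 (approx_rho_ne (h v h0))))

theorem approx_den_pos (w : ℍ) : 0 < ∑' v : ApproxCP, approxRho v w := by
  obtain ⟨c, d, hcd, h⟩ := exists_hgt w
  refine (approx_summable w fun v hv => hv).tsum_pos (fun v => approx_rho_nonneg _ _)
    ⟨(c, d), hcd⟩ ?_
  exact lt_max_of_lt_right (by simp only; linarith)

/-- The weighted average over the cusps. -/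
def approxAv (w : ℍ) (g : ℤ × ℤ → ℂ) : ℂ :=
  (∑' v : ApproxCP, (approxRho v w : ℂ) * g v) / (∑' v : ApproxCP, approxRho v w : ℝ)

theorem approx_summable_mul (w : ℍ) (g : ℤ × ℤ → ℂ) :
    Summable fun v : ApproxCP => (approxRho v w : ℂ) * g v :=
  approx_summable w fun v hv h => hv (by simp [h])

theorem approx_av_le (w : ℍ) {g : ℤ × ℤ → ℂ} {b : ℝ}
    (h : ∀ v : ℤ × ℤ, IsCoprime v.1 v.2 → 1 / 2 ≤ hgt v.1 v.2 w → ‖g v‖ ≤ b) :
    ‖approxAv w g‖ ≤ b := by
  have hp := approx_den_pos w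
  rw [approxAv, norm_div, norm_real, Real.norm_of_nonneg hp.le, div_le_iff₀ hp, ← tsum_mul_left]
  refine tsum_of_norm_bounded ((approx_summable w fun v hv => hv).mul_left b).hasSum fun v => ?_
  rw [norm_mul, norm_real, Real.norm_of_nonneg (approx_rho_nonneg _ _), mul_comm b]
  by_cases h0 : approxRho v w = 0
  · simp [h0]
  · exact mul_le_mul_of_nonneg_left (h v v.2 (approx_rho_ne h0)) (approx_rho_nonneg _ _)

theorem approx_av_sub (w : ℍ) (z : ℂ) (g : ℤ × ℤ → ℂ) :
    approxAv w (fun v => z - g v) = z - approxAv w g := by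
  have hp : ((∑' v : ApproxCP, approxRho v w : ℝ) : ℂ) ≠ 0 := by
    exact_mod_cast (approx_den_pos w).ne'
  rw [approxAv, approxAv, eq_sub_iff_add_eq, ← add_div, div_eq_iff hp,
    ← (approx_summable_mul w fun v => z - g v).tsum_add (approx_summable_mul w g), ofReal_tsum,
    ← tsum_mul_left]
  exact tsum_congr fun v => by ring

theorem approx_av_smul (γ : SL(2, ℤ)) {w w' : ℍ} {g g' : ℤ × ℤ → ℂ} {z : ℂ}
    (hw : ∀ v : ℤ × ℤ, hgt v.1 v.2 w = hgt (rowEquiv γ v).1 (rowEquiv γ v).2 w')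
    (hg : ∀ v : ℤ × ℤ, IsCoprime v.1 v.2 → g v = z * g' (rowEquiv γ v)) :
    approxAv w g = z * approxAv w' g' := by
  let e : ApproxCP ≃ ApproxCP :=
    (rowEquiv γ).subtypeEquiv fun v => (isCoprime_rowEquiv γ v).symm
  have h1 : ∀ v : ApproxCP, approxRho v w = approxRho (e v) w' := fun v => by
    simp only [approxRho, hw]; rfl
  rw [approxAv, approxAv, ← e.tsum_eq fun v => approxRho v w',
    ← e.tsum_eq fun v => (approxRho v w' : ℂ) * g' v, ← mul_div_assoc, ← tsum_mul_left]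
  congr 1
  · refine tsum_congr fun v => ?_
    rw [h1, hg v v.2, mul_left_comm]; rfl
  · congr 1
    exact tsum_congr h1

theorem approx_continuous_av {X : Type} [TopologicalSpace X] {w : X → ℍ} (hw : Continuous w)
    {g : X → ℤ × ℤ → ℂ} (hg : ∀ v : ℤ × ℤ, IsCoprime v.1 v.2 → Continuous fun x => g x v) :
    Continuous fun x => approxAv (w x) (g x) := by
  have hr : ∀ v : ApproxCP, Continuous fun x => approxRho v (w x) := fun v =>
    continuous_const.max (((continuous_hgt v.2).comp hw).sub continuous_const)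
  refine Continuous.div ?_ (continuous_ofReal.comp ?_) fun x => ?_
  · exact continuous_tsum_hgt (R := ApproxCP) (fun v hv => hv) hw (δ := 1 / 2) (by norm_num)
      (fun v => (continuous_ofReal.comp (hr v)).mul (hg v v.2))
      fun v x h => approx_rho_ne fun h0 => h (by simp [h0])
  · exact continuous_tsum_hgt (R := ApproxCP) (fun v hv => hv) hw (δ := 1 / 2) (by norm_num)
      hr fun v x h => approx_rho_ne h
  · exact_mod_cast (approx_den_pos (w x)).ne'

end

end Pool.Agent.Lib.MP_e6abdd_an
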