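import Pool.Agent.Lib.MP_e6abdd_an.ApproxA

/-!
Fourier series in the angle.
-/

namespace Pool.Agent.Lib.MP_e6abdd_an

open Complex hiding Gamma
open UpperHalfPlane hiding I
open MeasureTheory Filter Topology CongruenceSubgroup
open scoped Real MatrixGroups ComplexConjugate

noncomputable section

/-- The character `e(t)`. -/
def approxE (t : ℝ) : ℂ := cexp (2 * π * I * t)

theorem approx_norm_E (t : ℝ) : ‖approxE t‖ = 1 := by
  rw [approxE, norm_exp]; simp

theorem approx_E_add (s t : ℝ) : approxE (s + t) = approxE s * approxE t := by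
  rw [approxE, approxE, approxE, ← exp_add]; congr 1; push_cast; ring

theorem approx_E_int (n : ℤ) : approxE n = 1 := by
  rw [approxE, ← exp_int_mul_two_pi_mul_I n]; congr 1; push_cast; ring

theorem approx_continuous_E : Continuous approxE := by
  unfold approxE; fun_prop

/-- Fourier coefficients for the period one. -/
def approxCf (g : ℝ → ℂ) (n : ℤ) : ℂ := ∫ t in (0 : ℝ)..1, g t * approxE (-(n * t))

theorem approx_cf_eq (g : ℝ → ℂ) (n : ℤ) : approxCf g n = fc 1 (fun σ => g σ.re) n 1 := by
  rw [approxCf, fc]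
  simp only [pt_re _ one_pos, approxE, ofReal_one, inv_one, one_mul, div_one]
  congr 1
  funext t
  congr 2
  push_cast
  ring

theorem approx_parseval {g : ℝ → ℂ} (hg : Continuous g) :
    HasSum (fun n : ℤ => ‖approxCf g n‖ ^ 2) (∫ t in (0 : ℝ)..1, ‖g t‖ ^ 2) := by
  have h := parseval_norm (f := fun σ => g σ.re) (hg.comp continuous_re) one_pos one_pos
  simpa only [← approx_cf_eq, pt_re _ one_pos, inv_one, one_mul] using h

theorem approx_cf_E (m n : ℤ) : approxCf (fun t => approxE (m * t)) n = if m = n then 1 else 0 := by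
  rw [approxCf]
  simp only [← approx_E_add]
  split_ifs with h
  · simp [h, approxE]
  · have h1 : (2 * π * I * (m - n) : ℂ) ≠ 0 := by
      have : ((m : ℂ) - n) ≠ 0 := by exact_mod_cast sub_ne_zero.2 h
      simp [this, Real.pi_ne_zero]
    have h2 : ∀ t : ℝ, approxE (m * t + -(n * t)) = cexp (2 * π * I * (m - n) * t) := fun t => by
      rw [approxE]; congr 1; push_cast; ring
    simp only [h2]
    rw [integral_exp_mul_complex h1]
    have h3 := approx_E_int (m - n)
    rw [approxE] at h3
    push_cast at h3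
    simp [h3]

theorem approx_cf_shift {g : ℝ → ℂ} (per : Function.Periodic g 1) (β : ℝ) (n : ℤ) :
    approxCf (fun t => g (t + β)) n = approxE (n * β) * approxCf g n := by
  have hp : Function.Periodic (fun t => g t * approxE (-(n * t))) 1 := fun t => by
    have : -((n : ℝ) * (t + 1)) = -(n * t) + ((-n : ℤ) : ℝ) := by push_cast; ring
    simp only [per t, this, approx_E_add, approx_E_int, mul_one]
  have h1 := hp.intervalIntegral_add_eq β 0
  have h2 := intervalIntegral.integral_comp_add_right (a := 0) (b := 1)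
    (fun t => g t * approxE (-(n * t))) β
  rw [zero_add, add_comm 1 β, h1, zero_add] at h2
  rw [approxCf, approxCf, ← h2, ← intervalIntegral.integral_const_mul]
  congr 1
  funext t
  rw [mul_left_comm, ← approx_E_add]
  congr 2
  ring

theorem approx_cf_mul (z : ℂ) (g : ℝ → ℂ) (n : ℤ) :
    approxCf (fun t => z * g t) n = z * approxCf g n := by
  simp only [approxCf, mul_assoc, intervalIntegral.integral_const_mul]

theorem approx_norm_cf {g : ℝ → ℂ} {B : ℝ} (h : ∀ t, ‖g t‖ ≤ B) (n : ℤ) : ‖approxCf g n‖ ≤ B := by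
  have := intervalIntegral.norm_integral_le_of_norm_le_const (a := 0) (b := 1) (C := B)
    (f := fun t => g t * approxE (-(n * t))) fun t _ => by
      rw [norm_mul, approx_norm_E, mul_one]; exact h t
  simpa [approxCf] using this

/-- The remainder of the Fourier series. -/
def approxRem (J : ℕ) (g : ℝ → ℂ) (t : ℝ) : ℂ :=
  g t - ∑ j ∈ Finset.Icc (-J : ℤ) J, approxE (j * t) * approxCf g j

theorem approx_continuous_rem (J : ℕ) {g : ℝ → ℂ} (hg : Continuous g) :
    Continuous (approxRem J g) :=
  hg.sub (continuous_finsetSum _ fun _ _ =>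
    (approx_continuous_E.comp (continuous_const.mul continuous_id)).mul continuous_const)

theorem approx_cf_rem (J : ℕ) {g : ℝ → ℂ} (hg : Continuous g) (n : ℤ) :
    approxCf (approxRem J g) n = if n ∈ Finset.Icc (-J : ℤ) J then 0 else approxCf g n := by
  have hE : ∀ m : ℤ, Continuous fun t : ℝ => approxE (m * t) := fun m =>
    approx_continuous_E.comp (continuous_const.mul continuous_id)
  have hE' : Continuous fun t : ℝ => approxE (-(n * t)) :=
    approx_continuous_E.comp (continuous_const.mul continuous_id).neg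
  have h1 : approxCf (approxRem J g) n = approxCf g n -
      ∑ j ∈ Finset.Icc (-J : ℤ) J, approxCf g j * approxCf (fun t => approxE (j * t)) n := by
    simp only [← approx_cf_mul]
    rw [approxCf, approxCf]
    simp only [approxRem, sub_mul, Finset.sum_mul]
    have hj : ∀ j : ℤ, Continuous fun t : ℝ =>
        approxE (j * t) * approxCf g j * approxE (-(n * t)) := fun j =>
      ((hE j).mul continuous_const).mul hE'
    have hg' : Continuous fun t : ℝ => g t * approxE (-(n * t)) := hg.mul hE'
    rw [intervalIntegral.integral_sub (hg'.intervalIntegrable _ _)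
      ((continuous_finsetSum _ fun j _ => hj j).intervalIntegrable _ _),
      intervalIntegral.integral_finsetSum fun j _ => (hj j).intervalIntegrable _ _]
    congr 1
    refine Finset.sum_congr rfl fun j _ => ?_
    rw [approxCf.eq_def fun t => approxCf g j * approxE (j * t)]
    simp only [mul_comm (approxCf g j)]
  rw [h1]
  simp only [approx_cf_E, mul_ite, mul_one, mul_zero, Finset.sum_ite_eq']
  split_ifs <;> simp

theorem approx_rem_eq (J : ℕ) {g : ℝ → ℂ} (hg : Continuous g) :
    ∫ t in (0 : ℝ)..1, ‖approxRem J g t‖ ^ 2 =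
      (∫ t in (0 : ℝ)..1, ‖g t‖ ^ 2) - ∑ j ∈ Finset.Icc (-J : ℤ) J, ‖approxCf g j‖ ^ 2 := by
  have h1 := approx_parseval (approx_continuous_rem J hg)
  have h2 := approx_parseval hg
  have h3 : HasSum (fun n : ℤ => if n ∈ Finset.Icc (-J : ℤ) J then ‖approxCf g n‖ ^ 2 else 0)
      (∑ j ∈ Finset.Icc (-J : ℤ) J, ‖approxCf g j‖ ^ 2) := by
    have := hasSum_sum_of_ne_finset_zero (L := SummationFilter.unconditional ℤ)
      (f := fun n : ℤ => if n ∈ Finset.Icc (-J : ℤ) J then ‖approxCf g n‖ ^ 2 else 0)
      (s := Finset.Icc (-J : ℤ) J) fun n hn => if_neg hn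
    rwa [Finset.sum_congr rfl fun n hn => if_pos hn] at this
  refine h1.unique ((h2.sub h3).congr_fun fun n => ?_)
  rw [approx_cf_rem J hg]
  split_ifs <;> simp

theorem approx_rem_le (J : ℕ) {g : ℝ → ℂ} (hg : Continuous g) {B : ℝ} (h : ∀ t, ‖g t‖ ≤ B) :
    ∫ t in (0 : ℝ)..1, ‖approxRem J g t‖ ^ 2 ≤ B ^ 2 := by
  rw [approx_rem_eq J hg]
  have h1 : ∫ t in (0 : ℝ)..1, ‖g t‖ ^ 2 ≤ ∫ _t in (0 : ℝ)..1, B ^ 2 :=
    intervalIntegral.integral_mono_on zero_le_one ((hg.norm.pow 2).intervalIntegrable _ _)
      intervalIntegrable_const fun t _ => by have := h t; gcongr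
  have h2 : 0 ≤ ∑ j ∈ Finset.Icc (-J : ℤ) J, ‖approxCf g j‖ ^ 2 := by positivity
  simp only [intervalIntegral.integral_const, sub_zero, smul_eq_mul, one_mul] at h1
  linarith

theorem approx_rem_tendsto {g : ℝ → ℂ} (hg : Continuous g) :
    Tendsto (fun J : ℕ => ∫ t in (0 : ℝ)..1, ‖approxRem J g t‖ ^ 2) atTop (𝓝 0) := by
  simp only [approx_rem_eq _ hg]
  have h1 : Tendsto (fun J : ℕ => Finset.Icc (-J : ℤ) J) atTop atTop := by
    refine tendsto_atTop_finset_of_monotone (fun a b hab => Finset.Icc_subset_Icc ?_ ?_) fun n =>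
      ⟨n.natAbs, Finset.mem_Icc.2 ⟨by omega, by omega⟩⟩
    · simpa using hab
    · simpa using hab
  have h2 := ((approx_parseval hg).comp h1).const_sub (∫ t in (0 : ℝ)..1, ‖g t‖ ^ 2)
  simpa using h2

theorem approx_rem_shift (J : ℕ) {g : ℝ → ℂ} (per : Function.Periodic g 1) (β : ℝ) {z : ℂ}
    (hz : ‖z‖ = 1) : ∫ t in (0 : ℝ)..1, ‖approxRem J (fun t => z * g (t + β)) t‖ ^ 2 =
      ∫ t in (0 : ℝ)..1, ‖approxRem J g t‖ ^ 2 := by
  have h0 : ∀ t, approxRem J (fun t => z * g (t + β)) t = z * approxRem J g (t + β) := fun t => by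
    simp only [approxRem, approx_cf_mul z fun t => g (t + β), approx_cf_shift per, mul_sub,
      Finset.mul_sum, mul_add, approx_E_add]
    congr 1
    exact Finset.sum_congr rfl fun j _ => by ring
  have hp : Function.Periodic (fun t => ‖approxRem J g t‖ ^ 2) 1 := fun t => by
    simp only [approxRem, per t, mul_add, mul_one, approx_E_add, approx_E_int]
  have h1 := hp.intervalIntegral_add_eq β 0
  have h2 := intervalIntegral.integral_comp_add_right (a := 0) (b := 1)
    (fun t => ‖approxRem J g t‖ ^ 2) β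
  rw [zero_add, add_comm 1 β, h1, zero_add] at h2
  simp only [h0, norm_mul, hz, one_mul, h2]

theorem approx_continuous_cf {X : Type} [TopologicalSpace X] [FirstCountableTopology X]
    [LocallyCompactSpace X] {g : X → ℝ → ℂ} (hg : Continuous g.uncurry) (n : ℤ) :
    Continuous fun x => approxCf (g x) n :=
  intervalIntegral.continuous_parametric_intervalIntegral_of_continuous'
    (f := fun x t => g x t * approxE (-(n * t)))
    (hg.mul (approx_continuous_E.comp (continuous_const.mul continuous_snd).neg)) 0 1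

theorem approx_continuous_rem' {X : Type} [TopologicalSpace X] [FirstCountableTopology X]
    [LocallyCompactSpace X] {g : X → ℝ → ℂ} (hg : Continuous g.uncurry) (J : ℕ) :
    Continuous fun p : X × ℝ => approxRem J (g p.1) p.2 :=
  hg.sub (continuous_finsetSum _ fun j _ =>
    (approx_continuous_E.comp (continuous_const.mul continuous_snd)).mul
      ((approx_continuous_cf hg j).comp continuous_fst))

end

end Pool.Agent.Lib.MP_e6abdd_an
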