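import Pool.Agent.Lib.MP_e6abdd_an.ApproxB

/-!
The automorphic function of a point and an angle, and the pointwise error bound.
-/

namespace Pool.Agent.Lib.MP_e6abdd_an

open Complex hiding Gamma
open UpperHalfPlane hiding I
open MeasureTheory Filter Topology CongruenceSubgroup
open scoped Real MatrixGroups ComplexConjugate

noncomputable section

variable {X : ℝ} {K : ℤ → ℤ → ℍ → ℂ} {F : ℍ → ℂ} {s T : ℝ}

/-- The averaged solution. -/
def approxPhi (K : ℤ → ℤ → ℍ → ℂ) (F : ℍ → ℂ) (s T : ℝ) (τ : ℍ) (t : ℝ) : ℂ :=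
  chi T τ * approxAv (approxW (s * approxE t) τ) fun v => FF 1 K F v τ

theorem approx_norm_a (hs : 0 ≤ s) (t : ℝ) : ‖(s : ℂ) * approxE t‖ = s := by
  rw [norm_mul, approx_norm_E, mul_one, norm_real, Real.norm_of_nonneg hs]

theorem approx_norm_chi (T : ℝ) (τ : ℍ) : ‖(chi T τ : ℂ)‖ ≤ 1 := by
  rw [norm_real, Real.norm_of_nonneg (chi_nonneg T τ)]; exact chi_le_one T τ

theorem approx_phi_continuous (hK : Coc X K) (hF : Sol X 1 F) (hs : 0 ≤ s) (hs1 : s < 1)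
    (hT : 0 < T) : Continuous (approxPhi K F s T).uncurry := by
  refine (continuous_ofReal.comp ((continuous_chi hT).comp continuous_fst)).mul ?_
  refine approx_continuous_av (X := ℍ × ℝ) (w := fun p => approxW (s * approxE p.2) p.1)
    (g := fun p v => FF 1 K F v p.1) ?_ fun v _ => ?_
  · exact approx_continuous_W (continuous_const.mul (approx_continuous_E.comp continuous_snd))
      (fun p => by rw [approx_norm_a hs]; exact hs1) continuous_fst
  · exact ((continuous_nz hF.hol).sub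
      (continuous_const.mul (continuous_nz (hK.hol v.1 v.2)))).comp continuous_fst

theorem approx_phi_periodic (τ : ℍ) : Function.Periodic (approxPhi K F s T τ) 1 := fun t => by
  have := approx_E_int 1
  rw [Int.cast_one] at this
  rw [approxPhi, approxPhi, approx_E_add, this, mul_one]

theorem approx_phi_bdd (hK : Coc X K) (hF : Sol X 1 F) (hs : 0 ≤ s) (hs1 : s < 1)
    (hT : 0 < T) : ∃ B, ∀ τ t, ‖approxPhi K F s T τ t‖ ≤ B := by
  obtain ⟨B, hB0, hB⟩ := FF_growth hK hF (δ := (1 - s) / 4) (by linarith)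
  refine ⟨B * (2 * T) ^ (1 / 4 : ℝ), fun τ t => ?_⟩
  by_cases h0 : chi T τ = 0
  · rw [approxPhi, h0]; simp only [ofReal_zero, zero_mul, norm_zero]; positivity
  rw [approxPhi, norm_mul]
  refine (mul_le_of_le_one_left (norm_nonneg _) (approx_norm_chi T τ)).trans ?_
  refine approx_av_le _ fun v hv h => ?_
  have h1 := approx_hgt_le (a := s * approxE t) (by rw [approx_norm_a hs]; exact hs1) hv τ
  rw [approx_norm_a hs] at h1
  refine (hB v hv τ (by nlinarith)).trans ?_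
  have := hgt_le_of_chi hT h0 hv
  have := (hgt_pos hv τ).le
  gcongr

theorem approx_phi_smul (hK : Coc X K) (hF : Sol X 1 F) (hs : 0 ≤ s) (hs1 : s < 1)
    {γ : SL(2, ℤ)} (hγ : γ ∈ Gamma 2) (τ : ℍ) : approxPhi K F s T (γ • τ) = fun t =>
      JJ 0 (γ 1 0) (γ 1 1) τ * approxPhi K F s T τ (t + arg (γ 1 0 * (τ : ℂ) + γ 1 1) / π) := by
  funext t
  rw [approxPhi, approxPhi, chi_smul, mul_left_comm]
  congr 1
  refine approx_av_smul γ (fun v => ?_) fun v hv => FF_equiv hK hF hγ hv τ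
  rw [approx_hgt_smul (by rw [approx_norm_a hs]; exact hs1), approx_E_add, mul_assoc]
  congr 4
  rw [approxE]
  congr 1
  have : (π : ℂ) ≠ 0 := by exact_mod_cast Real.pi_ne_zero
  push_cast
  field_simp

theorem approx_phi_aut (hK : Coc X K) (hF : Sol X 1 F) (hs : 0 ≤ s) (hs1 : s < 1) (j : ℤ) :
    Aut j 1 fun τ => approxCf (approxPhi K F s T τ) j := by
  intro γ hγ τ
  simp only
  rw [approx_phi_smul hK hF hs hs1 hγ, approx_cf_mul _ fun t => approxPhi K F s T τ (t + _),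
    approx_cf_shift (approx_phi_periodic τ), JJ_eq' j hγ, mul_assoc]
  congr 2
  rw [approxE]
  congr 1
  have : (π : ℂ) ≠ 0 := by exact_mod_cast Real.pi_ne_zero
  push_cast
  field_simp

theorem approx_support (hs : 0 ≤ s) (hs1 : s < 1) {t : ℝ} (ht : t ∈ Set.Icc 0 ((1 - s) / 8))
    {c d : ℤ} {τ : ℍ} (h : 1 / 2 ≤ hgt c d (approxW (s * approxE t) τ)) :
    (c : ℝ) ^ 2 * τ.im ≤ 8 * (1 - s) := by
  have ha : ‖(s : ℂ) * approxE t‖ < 1 := by rw [approx_norm_a hs]; exact hs1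
  have h1 := hgt_mul_le c d (approxW (s * approxE t) τ)
  have hy := τ.im_pos
  have h2 : (c : ℝ) ^ 2 * (approxW (s * approxE t) τ).im ≤ 2 := by
    have : 0 ≤ (c : ℝ) ^ 2 * (approxW (s * approxE t) τ).im :=
      mul_nonneg (sq_nonneg _) (UpperHalfPlane.im_pos _).le
    nlinarith
  have h3 : ‖approxE t - 1‖ ≤ 1 - s := by
    have := Real.norm_exp_I_mul_ofReal_sub_one_le (x := 2 * π * t)
    rw [show approxE t = cexp (I * (2 * π * t : ℝ)) by
      rw [approxE]; congr 1; push_cast; ring]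
    refine this.trans ?_
    have := Real.pi_le_four
    have := Real.pi_pos
    have := ht.1
    have := ht.2
    rw [Real.norm_of_nonneg (by positivity)]
    nlinarith
  have h4 : ‖1 - (s : ℂ) * approxE t‖ ≤ 2 * (1 - s) := by
    have e : 1 - (s : ℂ) * approxE t = ((1 - s : ℝ) : ℂ) - s * (approxE t - 1) := by
      push_cast; ring
    rw [e]
    refine (norm_sub_le _ _).trans ?_
    rw [norm_mul, norm_real, norm_real, Real.norm_of_nonneg hs, Real.norm_of_nonneg (by linarith)]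
    nlinarith [norm_nonneg (approxE t - 1)]
  have h5 := normSq_pos.2 (approx_one_sub_ne ha)
  rw [approx_W_im ha, approx_norm_a hs, ← mul_div_assoc, div_le_iff₀ h5, normSq_eq_norm_sq] at h2
  have h6 : ‖1 - (s : ℂ) * approxE t‖ ^ 2 ≤ (2 * (1 - s)) ^ 2 := by gcongr
  have h7 : 0 ≤ (c : ℝ) ^ 2 * τ.im := by positivity
  have h8 : (c : ℝ) ^ 2 * τ.im * (1 - s) ≤ 8 * (1 - s) * (1 - s) := by
    have : (c : ℝ) ^ 2 * τ.im * (1 - s) * 1 ≤ (c : ℝ) ^ 2 * τ.im * (1 - s) * (1 + s) :=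
      mul_le_mul_of_nonneg_left (by linarith) (mul_nonneg h7 (by linarith))
    nlinarith
  exact le_of_mul_le_mul_right h8 (by linarith)

theorem approx_small (C : ℝ) {η : ℝ} (hη : 0 < η) {r : ℝ} (hr : 0 < r) :
    ∀ᶠ κ in 𝓝[>] (0 : ℝ), C * κ ^ r ≤ η := by
  have h : Tendsto (fun κ : ℝ => C * κ ^ r) (𝓝 0) (𝓝 (C * 0 ^ r)) :=
    (Real.continuous_rpow_const hr.le).continuousAt.tendsto.const_mul C
  rw [Real.zero_rpow hr.ne', mul_zero] at h
  exact (h.mono_left nhdsWithin_le_nhds).eventually (ge_mem_nhds hη)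

theorem approx_cusp (hK : Coc X K) (hF : Sol X 1 F) {η : ℝ} (hη : 0 < η) :
    ∃ T : ℝ, 0 < T ∧ ∀ τ : ℍ, τ.im ≤ T → chi T τ ≠ 1 → ‖nz F τ‖ ^ 2 ≤ η * maj τ := by
  obtain ⟨C, hC⟩ := hK.err
  obtain ⟨B, hB0, hB⟩ := FF_growth hK hF one_pos
  obtain ⟨κ, ⟨h1, h2⟩, h3⟩ := (((approx_small C (η := η / 4) (by linarith) (r := 1 / 32)
    (by norm_num)).and (approx_small (B ^ 2) (η := η / 4) (by linarith) (r := 1 / 8)
    (by norm_num))).and (Ioc_mem_nhdsGT one_pos)).exists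
  obtain ⟨hκ, hκ1⟩ := h3
  refine ⟨κ⁻¹, inv_pos.2 hκ, fun τ hy hchi => ?_⟩
  obtain ⟨c, d, hcd, h⟩ : ∃ c d, IsCoprime c d ∧ κ⁻¹ < hgt c d τ := by
    by_contra hne
    push Not at hne
    exact hchi (chi_eq_one (inv_pos.2 hκ) hne)
  have hc : c ≠ 0 := by
    rintro rfl
    have hd : normSq ((d : ℤ) : ℂ) = 1 := by
      rcases Int.isUnit_iff.1 (isCoprime_zero_left.1 hcd) with rfl | rfl <;> simp
    rw [hgt, Int.cast_zero, zero_mul, zero_add, hd, div_one] at h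
    linarith
  have hm := one_le_maj τ
  have hT1 : 1 ≤ κ⁻¹ := (one_le_inv₀ hκ).2 hκ1
  have hp := hgt_pos hcd τ
  have hk : 1 ≤ κ * hgt c d τ := by
    have := mul_le_mul_of_nonneg_left h.le hκ.le
    rwa [mul_inv_cancel₀ hκ.ne'] at this
  have e1 : ‖nz (K c d) τ‖ ^ 2 ≤ η / 4 * maj τ := by
    refine (hC c d hcd τ κ ?_ (by linarith)).trans (mul_le_mul_of_nonneg_right h1 (by linarith))
    have h4 := hgt_mul_le c d τ
    have h5 : 0 ≤ (c : ℝ) ^ 2 * τ.im := mul_nonneg (sq_nonneg _) τ.im_pos.le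
    nlinarith
  have e2 : ‖FF 1 K F (c, d) τ‖ ^ 2 ≤ η / 4 * maj τ := by
    have h4 := hB (c, d) hcd τ (by simp only; linarith)
    have h5 : (hgt c d τ ^ (1 / 4 : ℝ)) ^ 2 ≤ κ ^ (1 / 8 : ℝ) * hgt c d τ ^ (5 / 8 : ℝ) := by
      have h6 : 1 ≤ (κ * hgt c d τ) ^ (1 / 8 : ℝ) := Real.one_le_rpow hk (by norm_num)
      rw [Real.mul_rpow hκ.le hp.le] at h6
      rw [← Real.rpow_natCast, ← Real.rpow_mul hp.le,
        show (5 / 8 : ℝ) = 1 / 8 + 1 / 4 * (2 : ℕ) by norm_num, Real.rpow_add hp, ← mul_assoc]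
      exact le_mul_of_one_le_left (by positivity) h6
    have h7 := hgt_le_maj (d := d) hc τ
    calc ‖FF 1 K F (c, d) τ‖ ^ 2 ≤ (B * hgt c d τ ^ (1 / 4 : ℝ)) ^ 2 := by gcongr
      _ = B ^ 2 * (hgt c d τ ^ (1 / 4 : ℝ)) ^ 2 := by ring
      _ ≤ B ^ 2 * (κ ^ (1 / 8 : ℝ) * maj τ) := by
        gcongr
        exact h5.trans (by gcongr)
      _ ≤ η / 4 * maj τ := by
        rw [← mul_assoc]; exact mul_le_mul_of_nonneg_right h2 (by linarith)
  have e3 : ‖nz F τ‖ ≤ ‖FF 1 K F (c, d) τ‖ + ‖nz (K c d) τ‖ := by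
    refine le_trans (le_of_eq ?_) (norm_add_le _ _)
    simp [FF]
  have := norm_nonneg (nz F τ)
  calc ‖nz F τ‖ ^ 2 ≤ (‖FF 1 K F (c, d) τ‖ + ‖nz (K c d) τ‖) ^ 2 := by gcongr
    _ ≤ _ := by nlinarith [sq_nonneg (‖FF 1 K F (c, d) τ‖ - ‖nz (K c d) τ‖)]

theorem approx_pointwise (hK : Coc X K) (hF : Sol X 1 F) {η : ℝ} (hη : 0 < η) :
    ∃ s T : ℝ, 0 ≤ s ∧ s < 1 ∧ 0 < T ∧ ∀ τ : ℍ, τ.im ≤ T → ∀ t ∈ Set.Icc 0 ((1 - s) / 8),
      ‖nz F τ - approxPhi K F s T τ t‖ ^ 2 ≤ η * maj τ := by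
  obtain ⟨C, hC⟩ := hK.err
  obtain ⟨T, hT, hTT⟩ := approx_cusp hK hF (η := η / 4) (by linarith)
  obtain ⟨κ, h1, hκ, hκ1⟩ := ((approx_small C (η := η / 4) (by linarith) (r := 1 / 32)
    (by norm_num)).and (Ioc_mem_nhdsGT one_pos)).exists
  refine ⟨1 - κ / 8, T, by linarith, by linarith, hT, fun τ hy t ht => ?_⟩
  have hm := one_le_maj τ
  set w := approxW ((1 - κ / 8 : ℝ) * approxE t) τ
  have e1 : ‖approxAv w fun v => nz (K v.1 v.2) τ‖ ≤ √(η / 4 * maj τ) := by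
    refine approx_av_le w fun v hv h => Real.le_sqrt_of_sq_le ?_
    have := approx_support (by linarith) (by linarith) ht h
    exact (hC v.1 v.2 hv τ κ (by linarith) (by linarith)).trans
      (mul_le_mul_of_nonneg_right h1 (by linarith))
  have e2 : ‖((1 - chi T τ : ℝ) : ℂ) * nz F τ‖ ≤ √(η / 4 * maj τ) := by
    by_cases h0 : chi T τ = 1
    · simp [h0]
    have := chi_nonneg T τ
    have := chi_le_one T τ
    rw [norm_mul, norm_real, Real.norm_of_nonneg (by linarith)]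
    exact (mul_le_of_le_one_left (norm_nonneg _) (by linarith)).trans
      (Real.le_sqrt_of_sq_le (hTT τ hy h0))
  have e3 : nz F τ - approxPhi K F (1 - κ / 8) T τ t =
      ((1 - chi T τ : ℝ) : ℂ) * nz F τ + chi T τ * approxAv w fun v => nz (K v.1 v.2) τ := by
    rw [approxPhi]
    simp only [FF, one_mul]
    rw [approx_av_sub w (nz F τ) fun v => nz (K v.1 v.2) τ]
    push_cast
    ring
  have e4 : ‖nz F τ - approxPhi K F (1 - κ / 8) T τ t‖ ≤ 2 * √(η / 4 * maj τ) := by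
    rw [e3]
    refine (norm_add_le _ _).trans ?_
    have : ‖(chi T τ : ℂ) * approxAv w fun v => nz (K v.1 v.2) τ‖ ≤ √(η / 4 * maj τ) := by
      rw [norm_mul]
      exact (mul_le_of_le_one_left (norm_nonneg _) (approx_norm_chi T τ)).trans e1
    linarith
  calc _ ≤ (2 * √(η / 4 * maj τ)) ^ 2 := by gcongr
    _ = _ := by rw [mul_pow, Real.sq_sqrt (by positivity)]; ring

end

end Pool.Agent.Lib.MP_e6abdd_an
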