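import Mathlib

/-!
Sums over primes near the line of real part one.
-/

namespace Pool.Agent.Lib.MP_e6abdd_an

open Complex Filter Topology

/-- The power `p ^ (-1 - η)`. -/
noncomputable def chaosW (η : ℝ) (p : ℕ) : ℝ := Real.exp (-(1 + η) * Real.log p)

/-- The real part of the prime zeta function at `1 + η + i τ`. -/
noncomputable def chaosP (η τ : ℝ) : ℝ :=
  ∑' p : Nat.Primes, Real.cos (τ * Real.log (p : ℕ)) * chaosW η p

theorem chaosW_pos (η : ℝ) (p : ℕ) : 0 < chaosW η p := Real.exp_pos _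

theorem chaosW_anti {η η' : ℝ} (h : η ≤ η') (p : ℕ) : chaosW η' p ≤ chaosW η p := by
  unfold chaosW
  have := Real.log_natCast_nonneg p
  exact Real.exp_le_exp.2 (by nlinarith)

theorem chaosW_summable {η : ℝ} (h : 0 < η) : Summable fun p : Nat.Primes => chaosW η p := by
  have := (Nat.Primes.summable_rpow (r := -(1 + η))).2 (by linarith)
  refine this.congr fun p => ?_
  rw [chaosW, Real.rpow_def_of_pos (by exact_mod_cast p.2.pos), mul_comm]

theorem chaosP_summable {η : ℝ} (h : 0 < η) (τ : ℝ) :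
    Summable fun p : Nat.Primes => Real.cos (τ * Real.log (p : ℕ)) * chaosW η p := by
  refine Summable.of_norm_bounded (chaosW_summable h) fun p => ?_
  rw [norm_mul, Real.norm_of_nonneg (chaosW_pos _ _).le]
  exact mul_le_of_le_one_left (chaosW_pos _ _).le (Real.abs_cos_le_one _)

theorem chaosP_zero (η : ℝ) : chaosP η 0 = ∑' p : Nat.Primes, chaosW η p := by
  simp [chaosP]

theorem chaosW_zero_le {p : ℕ} (hp : 2 ≤ p) : chaosW 0 p ≤ 1 / 2 := by
  have h : (2 : ℝ) ≤ p := by exact_mod_cast hp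
  rw [chaosW, add_zero, neg_one_mul, Real.exp_neg, Real.exp_log (by linarith), one_div]
  exact inv_anti₀ two_pos h

theorem chaos_cpow {η τ : ℝ} {p : ℕ} (hp : 0 < p) :
    (p : ℂ) ^ (-(1 + η + τ * I : ℂ)) = chaosW η p * cexp (-(τ * Real.log p : ℝ) * I) := by
  have : (p : ℂ) ≠ 0 := by exact_mod_cast hp.ne'
  rw [cpow_def_of_ne_zero this, chaosW, ofReal_exp, ← exp_add, ← natCast_log]
  congr 1
  push_cast
  ring

theorem chaos_log_zeta {η : ℝ} (h : 0 < η) (τ : ℝ) :
    |Real.log ‖riemannZeta (1 + η + τ * I)‖ - chaosP η τ| ≤ chaosP 1 0 := by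
  have hs : 1 < (1 + η + τ * I : ℂ).re := by simpa using h
  have hn : ∀ p : Nat.Primes, ‖((p : ℕ) : ℂ) ^ (-(1 + η + τ * I : ℂ))‖ = chaosW η p := by
    intro p
    rw [chaos_cpow p.2.pos, norm_mul, ← ofReal_neg, norm_exp_ofReal_mul_I, mul_one, norm_real,
      Real.norm_of_nonneg (chaosW_pos _ _).le]
  have hr : ∀ p : Nat.Primes, (((p : ℕ) : ℂ) ^ (-(1 + η + τ * I : ℂ))).re =
      Real.cos (τ * Real.log (p : ℕ)) * chaosW η p := by
    intro p
    rw [chaos_cpow p.2.pos, re_ofReal_mul, ← ofReal_neg, exp_ofReal_mul_I_re, Real.cos_neg,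
      mul_comm]
  have hd : ∀ p : Nat.Primes, ‖-log (1 - ((p : ℕ) : ℂ) ^ (-(1 + η + τ * I : ℂ))) -
      ((p : ℕ) : ℂ) ^ (-(1 + η + τ * I : ℂ))‖ ≤ chaosW 1 p := by
    intro p
    set w := ((p : ℕ) : ℂ) ^ (-(1 + η + τ * I : ℂ)) with hw
    have h0 : ‖w‖ ≤ chaosW 0 p := (hn p).le.trans (chaosW_anti h.le p)
    have h1 : ‖w‖ ≤ 1 / 2 := h0.trans (chaosW_zero_le p.2.two_le)
    have h2 := norm_log_one_add_sub_self_le (z := -w) (by rw [norm_neg]; linarith)
    rw [norm_neg] at h2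
    have h3 : -log (1 - w) - w = -(log (1 + -w) - -w) := by rw [← sub_eq_add_neg]; ring
    have h4 : (1 - ‖w‖)⁻¹ ≤ 2 := by
      rw [inv_le_comm₀ (by linarith) two_pos]; linarith
    have h5 : chaosW 1 p = chaosW 0 p ^ 2 := by
      rw [chaosW, chaosW, ← Real.exp_nat_mul]; congr 1; push_cast; ring
    rw [h3, norm_neg, h5]
    calc _ ≤ ‖w‖ ^ 2 * (1 - ‖w‖)⁻¹ / 2 := h2
      _ ≤ ‖w‖ ^ 2 * 2 / 2 := by gcongr
      _ = ‖w‖ ^ 2 := by ring
      _ ≤ _ := by gcongr
  have s1 : Summable fun p : Nat.Primes => ((p : ℕ) : ℂ) ^ (-(1 + η + τ * I : ℂ)) :=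
    Summable.of_norm_bounded (chaosW_summable h) fun p => (hn p).le
  have s2 := Summable.of_norm_bounded (chaosW_summable one_pos) hd
  have s3 : Summable fun p : Nat.Primes => -log (1 - ((p : ℕ) : ℂ) ^ (-(1 + η + τ * I : ℂ))) := by
    simpa using s2.add s1
  rw [← riemannZeta_eulerProduct_exp_log hs, norm_exp, Real.log_exp, chaosP]
  simp only [← hr]
  rw [← re_tsum s1, ← sub_re, ← s3.tsum_sub s1, chaosP_zero]
  exact (abs_re_le_norm _).trans (tsum_of_norm_bounded (chaosW_summable one_pos).hasSum hd)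

theorem chaos_zeta_bound (T : ℝ) : ∃ C, ∀ η ∈ Set.Ioc (0 : ℝ) 1, ∀ τ : ℝ, |τ| ≤ T →
    |Real.log ‖riemannZeta (1 + η + τ * I)‖ + Real.log ‖(η + τ * I : ℂ)‖| ≤ C := by
  set h : ℂ → ℂ := Function.update (fun s => (s - 1) * riemannZeta s) 1 1 with hh
  have hc : Continuous h := by
    refine continuous_iff_continuousAt.2 fun s => ?_
    by_cases hs : s = 1
    · subst hs
      exact continuousAt_update_same.2 riemannZeta_residue_one
    · exact (continuousAt_update_of_ne hs).2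
        ((continuousAt_id.sub continuousAt_const).mul (differentiableAt_riemannZeta hs).continuousAt)
  have hne : ∀ s : ℂ, 1 ≤ s.re → h s ≠ 0 := by
    intro s hs
    by_cases h1 : s = 1
    · subst h1; simp [hh]
    · rw [hh, Function.update_of_ne h1]
      exact mul_ne_zero (sub_ne_zero.2 h1) (riemannZeta_ne_zero_of_one_le_re hs)
  have hK : IsCompact (Set.Icc (0 : ℝ) 1 ×ˢ Set.Icc (-T) T) := isCompact_Icc.prod isCompact_Icc
  have hcont : ContinuousOn (fun x : ℝ × ℝ => Real.log ‖h (1 + x.1 + x.2 * I)‖)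
      (Set.Icc (0 : ℝ) 1 ×ˢ Set.Icc (-T) T) := by
    refine ContinuousOn.log (Continuous.continuousOn (by fun_prop)) fun x hx => ?_
    exact norm_ne_zero_iff.2 (hne _ (by simpa using hx.1.1))
  obtain ⟨C, hC⟩ := hK.exists_bound_of_continuousOn hcont
  refine ⟨C, fun η hη τ hτ => ?_⟩
  have := hC (η, τ) ⟨⟨hη.1.le, hη.2⟩, abs_le.1 hτ⟩
  have h1 : (1 + η + τ * I : ℂ) ≠ 1 := fun h => by
    have := congrArg re h
    simp at this
    exact hη.1.ne' this
  have h2 : (η + τ * I : ℂ) ≠ 0 := fun h => h1 (by rw [add_assoc, h, add_zero])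
  rw [hh] at this
  simp only [Function.update_of_ne h1] at this
  rw [show (1 + η + τ * I - 1 : ℂ) = η + τ * I by ring, norm_mul, Real.log_mul
    (norm_ne_zero_iff.2 h2) (norm_ne_zero_iff.2 (riemannZeta_ne_zero_of_one_le_re
      (by simpa using hη.1.le))), add_comm] at this
  exact this

theorem chaosP_bound (T : ℝ) : ∃ C, ∀ η ∈ Set.Ioc (0 : ℝ) 1,
    |chaosP η 0 + Real.log η| ≤ C ∧ ∀ τ : ℝ, |τ| ≤ T → -C ≤ chaosP η τ := by
  obtain ⟨C, hC⟩ := chaos_zeta_bound |T|
  have hP : 0 ≤ chaosP 1 0 := (abs_nonneg _).trans (chaos_log_zeta one_pos 0)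
  refine ⟨C + chaosP 1 0 + (1 + |T|), fun η hη => ⟨?_, fun τ hτ => ?_⟩⟩
  · have h1 := hC η hη 0 (by simp)
    have h2 := chaos_log_zeta hη.1 0
    have h3 : ‖(η + (0 : ℝ) * I : ℂ)‖ = η := by simp [abs_of_pos hη.1]
    rw [h3] at h1
    have := abs_nonneg T
    rw [abs_le] at h1 h2 ⊢
    constructor <;> linarith [h1.1, h1.2, h2.1, h2.2]
  · have h1 := hC η hη τ (hτ.trans (le_abs_self T))
    have h2 := chaos_log_zeta hη.1 τ
    have h3 : ‖(η + τ * I : ℂ)‖ ≤ 1 + |T| := by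
      refine (norm_add_le _ _).trans ?_
      simp only [norm_real, norm_mul, norm_I, mul_one, Real.norm_eq_abs, abs_of_pos hη.1]
      linarith [hη.2, le_abs_self T]
    have h4 := Real.log_le_self (norm_nonneg (η + τ * I : ℂ))
    rw [abs_le] at h1 h2
    linarith [h1.1, h1.2, h2.1, h2.2]

/-- A finite set of large primes that carries almost all of the sum. -/
theorem chaos_finset {η : ℝ} (h : 0 < η) (P : ℕ) : ∃ F : Finset Nat.Primes,
    (∀ p ∈ F, P < (p : ℕ)) ∧ ∀ η', η ≤ η' → ∀ τ : ℝ, chaosP η' 0 + chaosP η' τ - 2 * (P + 2) ≤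
      ∑ p ∈ F, (1 + Real.cos (τ * Real.log (p : ℕ))) * chaosW η' p := by
  classical
  have hs := chaosW_summable h
  obtain ⟨F₀, hF₀⟩ := ((hs.hasSum.eventually (lt_mem_nhds
    (show ∑' p : Nat.Primes, chaosW η p - 1 < ∑' p : Nat.Primes, chaosW η p by linarith))).exists)
  refine ⟨F₀.filter fun p => P < (p : ℕ), fun p hp => (Finset.mem_filter.1 hp).2,
    fun η' hη' τ => ?_⟩
  have h1 : ∑ p ∈ F₀.filter (fun p : Nat.Primes => ¬ P < (p : ℕ)), chaosW η p ≤ P + 1 := by
    have hc : (F₀.filter (fun p : Nat.Primes => ¬ P < (p : ℕ))).card ≤ P + 1 := by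
      rw [← Finset.card_range (P + 1)]
      refine Finset.card_le_card_of_injOn (fun p => (p : ℕ)) (fun p hp => ?_)
        (fun p _ q _ hpq => Subtype.ext hpq)
      have := (Finset.mem_filter.1 hp).2
      simp only [Finset.coe_range, Set.mem_Iio]
      omega
    have hw : ∀ p : Nat.Primes, chaosW η p ≤ 1 := fun p =>
      ((chaosW_anti h.le p).trans (chaosW_zero_le p.2.two_le)).trans (by norm_num)
    calc _ ≤ ∑ p ∈ F₀.filter (fun p : Nat.Primes => ¬ P < (p : ℕ)), (1 : ℝ) :=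
          Finset.sum_le_sum fun p _ => hw p
      _ ≤ P + 1 := by simp only [Finset.sum_const, nsmul_eq_mul, mul_one]; exact_mod_cast hc
  have h2 := Finset.sum_filter_add_sum_filter_not F₀ (fun p : Nat.Primes => P < (p : ℕ))
    fun p => chaosW η p
  have hs' := chaosW_summable (h.trans_le hη')
  have hs'' := chaosP_summable (h.trans_le hη') τ
  have h3 := ((hs.mul_left 2).sub (hs'.add hs'')).sum_le_tsum
    (F₀.filter fun p : Nat.Primes => P < (p : ℕ)) fun p _ => by
      have := chaosW_anti hη' p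
      have := chaosW_pos η' p
      have := Real.cos_le_one (τ * Real.log (p : ℕ))
      nlinarith
  rw [(hs.mul_left 2).tsum_sub (hs'.add hs''), hs'.tsum_add hs'', tsum_mul_left,
    Finset.sum_sub_distrib, ← Finset.mul_sum] at h3
  rw [chaosP_zero, chaosP]
  simp only [add_mul, one_mul]
  linarith

theorem chaos_sum_le {η : ℝ} (h : 0 < η) (F : Finset Nat.Primes) :
    ∑ p ∈ F, chaosW η p ≤ chaosP η 0 := by
  rw [chaosP_zero]
  exact (chaosW_summable h).sum_le_tsum F fun p _ => (chaosW_pos _ _).le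

theorem chaos_diff_le {η η' : ℝ} (h : 0 < η) (h' : η ≤ η') (F : Finset Nat.Primes) :
    ∑ p ∈ F, (chaosW η p - chaosW η' p) ≤ chaosP η 0 - chaosP η' 0 := by
  have hs := chaosW_summable h
  have hs' := chaosW_summable (h.trans_le h')
  rw [chaosP_zero, chaosP_zero, ← hs.tsum_sub hs']
  exact (hs.sub hs').sum_le_tsum F fun p _ => sub_nonneg.2 (chaosW_anti h' p)

end Pool.Agent.Lib.MP_e6abdd_an
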