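import Pool.Agent.Lib.MP_e6abdd_an.ChaosA
import Pool.Agent.Lib.MP_e6abdd_an.ChaosB

/-!
A test that works uniformly for all spectral parameters in a bounded range.
-/

namespace Pool.Agent.Lib.MP_e6abdd_an

open Complex hiding Gamma
open UpperHalfPlane hiding I
open MeasureTheory Filter Topology CongruenceSubgroup
open scoped Real MatrixGroups ComplexConjugate

theorem chaos_cp_nonneg (p : ℕ) : 0 ≤ cp p := by unfold cp; positivity

theorem chaos_cp_le (p : ℕ) : cp p ≤ 1 := by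
  unfold cp
  rw [div_le_one (by positivity)]
  nlinarith [sq_nonneg (√(p : ℝ) - 1), Real.sq_sqrt (Nat.cast_nonneg (α := ℝ) p)]

theorem chaos_abs_le {σ : ℕ → ℝ} (hσ : ∀ p, σ p = 1 ∨ σ p = -1) (p : ℕ) (x : ℝ) :
    |σ p * cp p * Real.cos x| ≤ 1 := by
  have h1 : |σ p| = 1 := by rcases hσ p with h | h <;> simp [h]
  rw [abs_mul, abs_mul, h1, one_mul, abs_of_nonneg (chaos_cp_nonneg p)]
  exact mul_le_one₀ (chaos_cp_le p) (abs_nonneg _) (Real.abs_cos_le_one x)

/-- The coefficients of the likelihood ratio at the grid point `s`. -/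
noncomputable def chaosC (σ : ℕ → ℝ) (η s : ℝ) (p : ℕ) : ℝ :=
  2 * σ p * Real.cos (s * Real.log p) * Real.exp (-η * Real.log p) / √p

theorem chaosW_eq (η : ℝ) {p : ℕ} (hp : 0 < p) :
    chaosW η p = Real.exp (-η * Real.log p) / p := by
  have h : (0 : ℝ) < p := by exact_mod_cast hp
  rw [chaosW, show -(1 + η) * Real.log p = -η * Real.log p - Real.log p by ring, Real.exp_sub,
    Real.exp_log h]

theorem chaos_null (p : ℕ) (c : ℝ) :
    chaosE 0 p (fun v => Real.exp (c * v - c ^ 2 / 2)) ≤ 1 := by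
  have h1 := Real.cosh_le_exp_half_sq c
  have h2 := Real.one_le_cosh c
  have h3 : (0 : ℝ) ≤ 1 / p := by positivity
  have h4 : Real.exp (c ^ 2 / 2) * Real.exp (-(c ^ 2 / 2)) = 1 := by rw [← Real.exp_add]; simp
  have h5 := Real.exp_pos (-(c ^ 2 / 2))
  have : chaosE 0 p (fun v => Real.exp (c * v - c ^ 2 / 2)) =
      Real.exp (-(c ^ 2 / 2)) * (Real.cosh c - 1 / p * (Real.cosh c - 1)) := by
    simp only [chaosE_eq, sub_eq_add_neg, Real.exp_add, Real.cosh_eq]
    simp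
    ring
  rw [this]
  have h6 : 0 ≤ 1 / (p : ℝ) * (Real.cosh c - 1) := mul_nonneg h3 (by linarith)
  nlinarith

/-- The estimates for one prime. -/
theorem chaos_prime {σ : ℕ → ℝ} (hσ : ∀ p, σ p = 1 ∨ σ p = -1) {η s t : ℝ} (hη : 0 ≤ η)
    (hs : |s - 2 * t| ≤ η) {p : ℕ} (hp : 10 ≤ p) {m μ : ℝ}
    (hm : m = σ p * cp p * Real.cos (t * (2 * Real.log p))) (hμ : μ = (1 - 1 / p) * m) :
    (1 + Real.cos (4 * t * Real.log p)) * chaosW η p - 8 * (chaosW (η / 2) p - chaosW η p) -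
        8 * chaosW 1 p ≤ chaosC σ η s p * μ - chaosC σ η s p ^ 2 / 2 ∧
      (1 + Real.cos (2 * s * Real.log p)) * chaosW (2 * η) p ≤
        chaosC σ η s p ^ 2 * (1 - 1 / p - μ ^ 2) ∧
      ∀ v : ℤ, |v| ≤ 1 → (chaosC σ η s p * (v - μ)) ^ 2 ≤ 2 := by
  have hp0 : 0 < p := by omega
  have hP : (10 : ℝ) ≤ p := by exact_mod_cast hp
  have hL := Real.log_natCast_nonneg p
  have hx : 0 < √(p : ℝ) := Real.sqrt_pos.2 (by linarith)
  have hx2 : √(p : ℝ) ^ 2 = p := Real.sq_sqrt (by linarith)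
  have hσ2 : σ p ^ 2 = 1 := by rcases hσ p with h | h <;> simp [h]
  set L := Real.log p with hLd
  set a := Real.cos (s * L) with ha
  set b := Real.cos (t * (2 * L)) with hb
  set u := Real.exp (-(η / 2) * L) with hu
  have hu0 : 0 < u := Real.exp_pos _
  have hu1 : u ≤ 1 := Real.exp_le_one_iff.2 (by nlinarith)
  have w1 : Real.exp (-η * L) = u ^ 2 := by
    rw [hu, ← Real.exp_nat_mul]; congr 1; push_cast; ring
  have w2 : Real.exp (-(2 * η) * L) = u ^ 4 := by
    rw [hu, ← Real.exp_nat_mul]; congr 1; push_cast; ring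
  have w3 : Real.exp (-1 * L) = 1 / p := by
    rw [neg_one_mul, Real.exp_neg, hLd, Real.exp_log (by linarith), one_div]
  have hy : η * L * u ≤ 2 * (1 - u) := by
    have h1 := Real.add_one_le_exp (η / 2 * L)
    have h2 : Real.exp (η / 2 * L) * u = 1 := by rw [hu, ← Real.exp_add]; simp
    nlinarith
  have hab : |a - b| ≤ η * L := by
    refine (Real.abs_cos_sub_cos_le _ _).trans ?_
    rw [show s * L - t * (2 * L) = (s - 2 * t) * L by ring, abs_mul, abs_of_nonneg hL]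
    gcongr
  have ha1 : |a| ≤ 1 := Real.abs_cos_le_one _
  have hb1 : |b| ≤ 1 := Real.abs_cos_le_one _
  have ha2 : a ^ 2 ≤ 1 := by rw [← sq_abs]; exact pow_le_one₀ (abs_nonneg _) ha1
  have hb2 : b ^ 2 ≤ 1 := by rw [← sq_abs]; exact pow_le_one₀ (abs_nonneg _) hb1
  have c1 : 1 + Real.cos (4 * t * L) = 2 * b ^ 2 := by
    rw [hb, show 4 * t * L = 2 * (t * (2 * L)) by ring, Real.cos_two_mul]; ring
  have c2 : 1 + Real.cos (2 * s * L) = 2 * a ^ 2 := by
    rw [ha, show 2 * s * L = 2 * (s * L) by ring, Real.cos_two_mul]; ring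
  have hc : chaosC σ η s p = 2 * σ p * a * u ^ 2 / √p := by rw [chaosC, w1]
  have hc2 : chaosC σ η s p ^ 2 = 4 * a ^ 2 * u ^ 4 / p := by
    rw [hc, div_pow, hx2, mul_pow, mul_pow, mul_pow, hσ2]; ring
  have hμ' : μ = 2 * σ p * b * (1 - 2 / (p + 1)) / √p := by
    rw [hμ, hm, cp, eq_div_iff hx.ne']
    have : (1 - 1 / (p : ℝ)) * (σ p * (2 * √p / (p + 1)) * b) * √p =
      (1 - 1 / (p : ℝ)) * (σ p * (2 * √p ^ 2 / (p + 1)) * b) := by ring
    rw [this, hx2]
    field_simp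
    ring
  have r0 : 0 ≤ 2 / ((p : ℝ) + 1) := by positivity
  have r1 : 2 / ((p : ℝ) + 1) ≤ 2 / p := by gcongr; linarith
  have r2 : 2 / (p : ℝ) ≤ 1 := by rw [div_le_one (by linarith)]; linarith
  set r := 2 / ((p : ℝ) + 1) with hr
  have hμ2 : μ ^ 2 ≤ 4 / p := by
    rw [hμ', div_pow, hx2, mul_pow, mul_pow, mul_pow, hσ2]
    gcongr
    have : (1 - r) ^ 2 ≤ 1 := by nlinarith
    nlinarith [sq_nonneg b]
  have hcμ : chaosC σ η s p * μ = 4 * a * b * u ^ 2 * (1 - r) / p := by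
    rw [hc, hμ', div_mul_div_comm, ← sq, hx2]
    congr 1
    linear_combination 4 * a * b * u ^ 2 * (1 - r) * hσ2
  have u2 : u ^ 2 ≤ 1 := pow_le_one₀ hu0.le hu1
  have u4 : u ^ 4 ≤ u ^ 2 := pow_le_pow_of_le_one hu0.le hu1 (by norm_num)
  have p4 : 4 / (p : ℝ) ≤ 2 / 5 := by rw [div_le_iff₀ (by linarith)]; linarith
  have p1 : 1 / (p : ℝ) ≤ 1 / 10 := by rw [div_le_iff₀ (by linarith)]; linarith
  refine ⟨?_, ?_, fun v hv => ?_⟩
  · rw [c1, hcμ, hc2, chaosW_eq _ hp0, chaosW_eq _ hp0, chaosW_eq _ hp0, w1, w3, ← hu]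
    have k1 : (a - b) ^ 2 ≤ 2 * (η * L) := by
      have : |a - b| ≤ 2 := (abs_sub _ _).trans (by linarith)
      rw [← sq_abs]
      nlinarith [abs_nonneg (a - b)]
    have k2 : (a - b) ^ 2 * u ^ 2 ≤ 4 * (u - u ^ 2) := by
      calc _ ≤ 2 * (η * L) * u ^ 2 := by gcongr
        _ = 2 * u * (η * L * u) := by ring
        _ ≤ 2 * u * (2 * (1 - u)) := by gcongr
        _ = _ := by ring
    have k3 : a * b * u ^ 2 * r ≤ 2 / p := by
      have : a * b ≤ 1 := by nlinarith [sq_nonneg (a - b)]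
      have : a * b * u ^ 2 ≤ 1 := by nlinarith [sq_nonneg u]
      nlinarith
    have k4 : a ^ 2 * u ^ 4 ≤ a ^ 2 * u ^ 2 := by gcongr
    have key : 2 * b ^ 2 * u ^ 2 - 8 * (u - u ^ 2) - 8 * (1 / p) ≤
        4 * a * b * u ^ 2 * (1 - r) - 2 * a ^ 2 * u ^ 4 := by
      have : (2 : ℝ) / p = 2 * (1 / p) := by ring
      nlinarith
    calc _ = (2 * b ^ 2 * u ^ 2 - 8 * (u - u ^ 2) - 8 * (1 / p)) / p := by ring
      _ ≤ (4 * a * b * u ^ 2 * (1 - r) - 2 * a ^ 2 * u ^ 4) / p := by gcongr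
      _ = _ := by ring
  · rw [c2, hc2, chaosW_eq _ hp0, w2]
    calc _ = 4 * a ^ 2 * u ^ 4 / p * (1 / 2) := by ring
      _ ≤ _ := by gcongr; linarith
  · rw [mul_pow, hc2]
    have hv' : |(v : ℝ)| ≤ 1 := by exact_mod_cast hv
    have h1 : ((v : ℝ) - μ) ^ 2 ≤ 4 := by
      have := abs_le.1 hv'
      nlinarith [sq_nonneg (v + μ)]
    have h2 : 4 * a ^ 2 * u ^ 4 / p ≤ 2 / 5 := by
      refine le_trans ?_ p4
      gcongr
      nlinarith [sq_nonneg a]
    nlinarith [sq_nonneg ((v : ℝ) - μ)]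

theorem chaos_block {σ : ℕ → ℝ} (hσ : ∀ p, σ p = 1 ∨ σ p = -1) {T : ℝ} (hT : 0 ≤ T) (P : ℕ)
    {δ : ℝ} (hδ : 0 < δ) : ∃ L G, Good δ L G ∧ (∀ p ∈ L, P < p) ∧ ∀ t ∈ Set.Icc 0 T,
      Ex (fun p => σ p * cp p * Real.cos (t * (2 * Real.log p))) L G ≤ 27 / 28 := by
  classical
  obtain ⟨C, hC⟩ := chaosP_bound (4 * T)
  set K := (2 * T + 1) / δ with hK
  have hK0 : 0 < K := by positivity
  set Q := P + 10 with hQ
  set b := Real.log K + 26 * C + 8 + 2 * (Q + 2) with hb
  set R := 100 * b ^ 2 + 2 + 2 * |C| + 1 + 2 * (Q + 2) with hR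
  have hR1 : 1 ≤ R := by
    have : 0 ≤ 100 * b ^ 2 + 2 + 2 * |C| + 2 * ((Q : ℝ) + 2) := by positivity
    linarith
  set η := Real.exp (-R) with hη
  have hη0 : 0 < η := Real.exp_pos _
  have hη1 : η ≤ 1 / 2 := by
    rw [hη, Real.exp_neg, one_div]
    exact inv_anti₀ two_pos (by linarith [Real.add_one_le_exp R])
  have hlog : Real.log η = -R := Real.log_exp _
  have l2 : Real.log 2 ≤ 1 := by linarith [Real.log_le_sub_one_of_pos two_pos]
  have l2' : 0 ≤ Real.log 2 := Real.log_nonneg one_le_two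
  obtain ⟨F, hF, hFs⟩ := chaos_finset hη0 Q
  set L : List ℕ := F.toList.map fun p : Nat.Primes => (p : ℕ) with hL
  have hmem : ∀ p ∈ L, p.Prime ∧ Q < p := by
    intro p hp
    obtain ⟨q, hq, rfl⟩ := List.mem_map.1 hp
    exact ⟨q.2, hF q (Finset.mem_toList.1 hq)⟩
  have hnd : L.Nodup := F.nodup_toList.map fun p q h => Subtype.ext h
  have hsum : ∀ g : ℕ → ℝ, (L.map g).sum = ∑ p ∈ F, g p := by
    intro g
    rw [hL, List.map_map, Finset.sum_map_toList]
    rfl
  set N := ⌊2 * T / η⌋₊ + 1 with hN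
  set f : ℕ → ℕ → ℤ → ℝ := fun i p v =>
    chaosC σ η (i * η) p * v - chaosC σ η (i * η) p ^ 2 / 2 with hf
  set Z : (ℕ → ℤ) → ℝ := fun e => ∑ i ∈ Finset.range N, Real.exp (chaosS (f i) L e) with hZ
  have hZ0 : ∀ e, 0 ≤ Z e := fun e => Finset.sum_nonneg fun i _ => (Real.exp_pos _).le
  have hG1 : ∀ e, (if η * Z e ≤ K then (1 : ℝ) else 0) ≤ 1 := fun e => by split_ifs <;> norm_num
  refine ⟨L, fun e => if η * Z e ≤ K then 1 else 0, ⟨⟨hnd, fun p hp => ⟨(hmem p hp).1, ?_⟩,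
    fun e e' he => ?_, fun e => by split_ifs <;> norm_num, hG1⟩, ?_⟩,
    fun p hp => ?_, fun t ht => ?_⟩
  · have := (hmem p hp).2; omega
  · simp only [hZ, chaosS_dep _ he]
  · have h1 : ∀ e, 1 + -(η / K) * Z e ≤ if η * Z e ≤ K then (1 : ℝ) else 0 := by
      intro e
      split_ifs with h
      · have := mul_nonneg (div_pos hη0 hK0).le (hZ0 e); linarith
      · have : 1 ≤ η / K * Z e := by
          rw [div_mul_eq_mul_div, le_div_iff₀ hK0]; linarith [not_le.1 h]
        linarith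
    refine le_trans ?_ (chaos_mono (by simp) h1)
    rw [chaos_add, chaos_const, chaos_mul, hZ, chaos_sum]
    have h2 : ∑ i ∈ Finset.range N, Ex 0 L (fun e => Real.exp (chaosS (f i) L e)) ≤ N := by
      calc _ ≤ ∑ i ∈ Finset.range N, (1 : ℝ) := Finset.sum_le_sum fun i _ =>
            chaos_exp hnd (by simp) fun p _ => chaos_null p _
        _ = N := by simp
    have h3 : η * N ≤ 2 * T + 1 := by
      have := Nat.floor_le (show 0 ≤ 2 * T / η by positivity)
      rw [le_div_iff₀ hη0] at this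
      rw [hN]; push_cast; nlinarith
    have h4 : η / K * N ≤ δ := by
      rw [div_mul_eq_mul_div, div_le_iff₀ hK0, hK, mul_div_cancel₀ _ hδ.ne']; exact h3
    have := mul_le_mul_of_nonneg_left h2 (div_pos hη0 hK0).le
    linarith
  · have := (hmem p hp).2; omega
  · set i := ⌊2 * t / η⌋₊ with hi
    have hi1 : (i : ℝ) * η ≤ 2 * t := by
      have := Nat.floor_le (show 0 ≤ 2 * t / η by have := ht.1; positivity)
      rwa [le_div_iff₀ hη0] at this
    have hi2 : 2 * t ≤ (i + 1) * η := by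
      have := (Nat.lt_floor_add_one (2 * t / η)).le
      rwa [div_le_iff₀ hη0] at this
    have hiN : i ∈ Finset.range N := by
      rw [Finset.mem_range, hN, Nat.lt_succ_iff]
      exact Nat.floor_mono (by have := ht.2; gcongr)
    have hs : |(i : ℝ) * η - 2 * t| ≤ η := by rw [abs_le]; constructor <;> nlinarith
    set m : ℕ → ℝ := fun p => σ p * cp p * Real.cos (t * (2 * Real.log p)) with hm
    set μ : ℕ → ℝ := fun p => (1 - 1 / p) * m p with hμ
    have hp : ∀ p, Q < p → _ := fun p (hp : Q < p) =>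
      chaos_prime hσ hη0.le hs (p := p) (by omega) (m := m p) (μ := μ p) rfl rfl
    have hi0 : 0 ≤ (i : ℝ) * η := by positivity
    obtain ⟨a1, a2⟩ := hC η ⟨hη0, by linarith⟩
    obtain ⟨a3, -⟩ := hC (η / 2) ⟨by linarith, by linarith⟩
    obtain ⟨a4, a5⟩ := hC (2 * η) ⟨by linarith, by linarith⟩
    obtain ⟨a6, -⟩ := hC 1 ⟨one_pos, le_rfl⟩
    rw [Real.log_div hη0.ne' two_ne_zero] at a3
    rw [Real.log_mul two_ne_zero hη0.ne'] at a4
    rw [Real.log_one] at a6
    rw [abs_le] at a1 a3 a4 a6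
    refine chaos_pz (f := fun p v => chaosC σ η (i * η) p * (v - μ p)) (b := b) hnd
      (fun p _ => chaos_abs_le hσ p _) (fun p _ => ?_) (fun p h => (hp p (hmem p h).2).2.2) ?_ hG1
      fun e he => if_neg (not_le.2 ?_)
    · simp only [chaosE_eq, hμ]; push_cast; ring
    · rw [hsum]
      have h1 := hFs (2 * η) (by linarith) (2 * (i * η))
      have h2 := a5 (2 * (i * η)) (by rw [abs_of_nonneg (by linarith)]; linarith [ht.2])
      refine le_trans ?_ (h1.trans (Finset.sum_le_sum fun p hpF =>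
        (hp p (hF p hpF)).2.1.trans (le_of_eq ?_)))
      · linarith [a4.1, le_abs_self C]
      · simp only [chaosE_eq, hμ]; push_cast; ring
    · have h1 := hFs η le_rfl (4 * t)
      have h2 := a2 (4 * t) (by rw [abs_of_nonneg (by linarith [ht.1])]; linarith [ht.2])
      have h3 := chaos_diff_le (η := η / 2) (η' := η) (by linarith) (by linarith) F
      have h4 := chaos_sum_le one_pos F
      have h5 := Finset.sum_le_sum fun (p : Nat.Primes) hpF => (hp p (hF p hpF)).1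
      rw [Finset.sum_sub_distrib, Finset.sum_sub_distrib, ← Finset.mul_sum,
        ← Finset.mul_sum] at h5
      have h6 : chaosS (f i) L e = chaosS (fun p v => chaosC σ η (i * η) p * (v - μ p)) L e +
          ∑ p ∈ F, (chaosC σ η (i * η) p * μ p - chaosC σ η (i * η) p ^ 2 / 2) := by
        rw [chaosS, chaosS, hsum, hsum, ← Finset.sum_add_distrib]
        exact Finset.sum_congr rfl fun p _ => by simp only [hf]; ring
      have h7 : Real.log K < Real.log η + chaosS (f i) L e := by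
        linarith [a1.1, a1.2, a3.2, a6.2]
      calc K = Real.exp (Real.log K) := (Real.exp_log hK0).symm
        _ < Real.exp (Real.log η + chaosS (f i) L e) := Real.exp_lt_exp.2 h7
        _ = η * Real.exp (chaosS (f i) L e) := by rw [Real.exp_add, Real.exp_log hη0]
        _ ≤ η * Z e := by
          gcongr
          exact Finset.single_le_sum (f := fun i => Real.exp (chaosS (f i) L e))
            (fun i _ => (Real.exp_pos _).le) hiN

theorem Good.chaos_append {ε ε' : ℝ} {L L' : List ℕ} {G G' : (ℕ → ℤ) → ℝ} (h : Good ε L G)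
    (h' : Good ε' L' G') (hd : ∀ p ∈ L, p ∉ L') :
    Good (ε + ε') (L ++ L') fun e => G e * G' e := by
  refine ⟨h.toTest.chaos_append h'.toTest hd, ?_⟩
  rw [Pool.Agent.Lib.MP_e6abdd_an.chaos_append 0 hd h.dep h'.dep]
  have h1 := (Ex_mem (m := 0) h.toTest (by simp)).2
  have h2 := (Ex_mem (m := 0) h'.toTest (by simp)).2
  nlinarith [h.big, h'.big, mul_nonneg (sub_nonneg.2 h1) (sub_nonneg.2 h2)]

theorem chaos_iter {σ : ℕ → ℝ} (hσ : ∀ p, σ p = 1 ∨ σ p = -1) {T : ℝ} (hT : 0 ≤ T) (P : ℕ)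
    {δ : ℝ} (hδ : 0 < δ) (n : ℕ) : ∃ L G, Good (n * δ) L G ∧ (∀ p ∈ L, P < p) ∧
      ∀ t ∈ Set.Icc 0 T,
        Ex (fun p => σ p * cp p * Real.cos (t * (2 * Real.log p))) L G ≤ (27 / 28) ^ n := by
  induction n with
  | zero => exact ⟨[], fun _ => 1, by simpa using good_one, by simp, fun t _ => by simp [chaos_nil]⟩
  | succ n ih =>
    obtain ⟨L, G, h1, h2, h3⟩ := ih
    obtain ⟨L', G', h1', h2', h3'⟩ := chaos_block hσ hT (P + L.sum) hδ
    have hd : ∀ p ∈ L, p ∉ L' := fun p hp hp' => by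
      have := h2' p hp'
      have := List.le_sum_of_mem hp
      omega
    refine ⟨L ++ L', fun e => G e * G' e, by
      simpa [add_mul] using h1.chaos_append h1' hd, fun p hp => ?_, fun t ht => ?_⟩
    · rcases List.mem_append.1 hp with h | h
      · exact h2 p h
      · have := h2' p h; omega
    · rw [chaos_append _ hd h1.dep h1'.dep, pow_succ]
      exact mul_le_mul (h3 t ht) (h3' t ht)
        (Ex_mem h1'.toTest fun p _ => chaos_abs_le hσ p _).1 (by positivity)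

theorem chaos {σ : ℕ → ℝ} (hσ : ∀ p, σ p = 1 ∨ σ p = -1) (T : ℝ) {ε : ℝ} (hε : 0 < ε) :
    ∃ L G, Good ε L G ∧
      (∀ t ∈ Set.Icc 0 T, Ex (fun p => σ p * cp p * Real.cos (t * (2 * Real.log p))) L G ≤ ε) ∧
      ∀ κ ∈ Set.Icc (0 : ℝ) (1 / 4),
        Ex (fun p => σ p * cp p * Real.cosh (κ * (2 * Real.log p))) L G ≤ ε := by
  have hσ1 : ∀ p, |σ p| = 1 := fun p => by rcases hσ p with h | h <;> simp [h]
  have hσ2 : ∀ p, σ p ^ 2 = 1 := fun p => by rcases hσ p with h | h <;> simp [h]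
  have hns : ¬ Summable fun p : Nat.Primes => (σ p * cp p) ^ 2 := fun h =>
    Nat.Primes.not_summable_one_div (h.of_nonneg_of_le (fun p => by positivity) fun p => by
      have hp : (1 : ℝ) ≤ (p : ℕ) := by exact_mod_cast p.2.one_le
      rw [mul_pow, hσ2, one_mul, cp, div_pow, mul_pow, Real.sq_sqrt (by linarith),
        div_le_div_iff₀ (by linarith) (by positivity)]
      nlinarith)
  obtain ⟨L, G, h1, h2⟩ := hellinger (m₀ := fun p => σ p * cp p)
    (fun p => by simpa using chaos_abs_le hσ p 0) hns (half_pos hε)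
  obtain ⟨n, hn⟩ := exists_pow_lt_of_lt_one hε (show (27 / 28 : ℝ) < 1 by norm_num)
  obtain ⟨L', G', h1', h2', h3'⟩ := chaos_iter hσ (le_max_right T 0) L.sum
    (δ := ε / 2 / (n + 1)) (by positivity) n
  have hd : ∀ p ∈ L, p ∉ L' := fun p hp hp' => by
    have := h2' p hp'
    have := List.le_sum_of_mem hp
    omega
  have hcosh : ∀ κ ∈ Set.Icc (0 : ℝ) (1 / 4), ∀ p : ℕ, 0 < p →
      |σ p * cp p * Real.cosh (κ * (2 * Real.log p))| ≤ 1 := by
    intro κ hκ p hp
    have hL := Real.log_natCast_nonneg p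
    rw [abs_mul, abs_mul, hσ1, one_mul, abs_of_nonneg (chaos_cp_nonneg p),
      abs_of_pos (Real.cosh_pos _), ← cp_mul_cosh hp]
    refine mul_le_mul_of_nonneg_left (Real.cosh_le_cosh.2 ?_) (chaos_cp_nonneg p)
    have := hκ.1
    rw [abs_of_nonneg (by positivity), abs_of_nonneg (by positivity)]
    gcongr
    exact hκ.2
  refine ⟨L ++ L', fun e => G e * G' e, (h1.chaos_append h1' hd).mono ?_, fun t ht => ?_,
    fun κ hκ => ?_⟩
  · have : (n : ℝ) * (ε / 2 / (n + 1)) ≤ ε / 2 := by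
      rw [← mul_div_assoc, div_le_iff₀ (by positivity)]; nlinarith
    linarith
  · rw [chaos_append _ hd h1.dep h1'.dep]
    have a := Ex_mem h1.toTest fun p _ => chaos_abs_le hσ p (t * (2 * Real.log p))
    have b := Ex_mem h1'.toTest fun p _ => chaos_abs_le hσ p (t * (2 * Real.log p))
    have c := h3' t ⟨ht.1, ht.2.trans (le_max_left _ _)⟩
    nlinarith [a.1, a.2, b.1]
  · rw [chaos_append _ hd h1.dep h1'.dep]
    have a := Ex_mem (m := fun p => σ p * cp p * Real.cosh (κ * (2 * Real.log p))) h1.toTest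
      fun p hp => hcosh κ hκ p (h1.prime p hp).1.pos
    have b := Ex_mem (m := fun p => σ p * cp p * Real.cosh (κ * (2 * Real.log p))) h1'.toTest
      fun p hp => hcosh κ hκ p (h1'.prime p hp).1.pos
    have c := h2 (fun p => σ p * cp p * Real.cosh (κ * (2 * Real.log p))) fun p hp =>
      ⟨hcosh κ hκ p (h1.prime p hp).1.pos, by
        have := Real.one_le_cosh (κ * (2 * Real.log p))
        nlinarith [sq_nonneg (σ p * cp p)]⟩
    nlinarith [a.1, b.1, b.2]

end Pool.Agent.Lib.MP_e6abdd_an
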