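import Pool.Agent.Lib.MP_e6abdd_an.Prob

/-!
Elementary properties of the product expectation: linearity, monotonicity, independence,
exponential and polynomial moments of sums of one-variable functions.
-/

namespace Pool.Agent.Lib.MP_e6abdd_an

open Filter Topology

/-- Expectation in one coordinate. -/
noncomputable def chaosE (m : ℕ → ℝ) (p : ℕ) (φ : ℤ → ℝ) : ℝ :=
  wt p (-1) * (φ (-1) * (1 - m p)) + wt p 0 * φ 0 + wt p 1 * (φ 1 * (1 + m p))

theorem chaos_nil (m : ℕ → ℝ) (G : (ℕ → ℤ) → ℝ) : Ex m [] G = G 0 := rfl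

theorem chaos_cons (m : ℕ → ℝ) (p : ℕ) (L : List ℕ) (G : (ℕ → ℤ) → ℝ) :
    Ex m (p :: L) G = chaosE m p fun v => Ex m L fun e => G (Function.update e p v) := by
  simp only [Ex, Op, chaosE]
  rw [Finset.sum_insert (by decide), Finset.sum_insert (by decide), Finset.sum_singleton]
  simp only [RingHom.id_apply]
  push_cast
  ring

theorem chaos_wt_nonneg (p : ℕ) (v : ℤ) : 0 ≤ wt p v := by
  unfold wt
  split_ifs
  · positivity
  · have : (1 : ℝ) / p ≤ 1 := by
      rcases Nat.eq_zero_or_pos p with rfl | h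
      · simp
      · rw [div_le_one (by exact_mod_cast h)]; exact_mod_cast h
    linarith

theorem chaosE_eq (m : ℕ → ℝ) (p : ℕ) (φ : ℤ → ℝ) : chaosE m p φ =
    (1 - 1 / p) / 2 * (φ (-1) * (1 - m p)) + 1 / p * φ 0 + (1 - 1 / p) / 2 * (φ 1 * (1 + m p)) := by
  simp [chaosE, wt]

theorem chaosE_mono {m : ℕ → ℝ} {p : ℕ} (hm : |m p| ≤ 1) {φ ψ : ℤ → ℝ}
    (h : ∀ v : ℤ, |v| ≤ 1 → φ v ≤ ψ v) : chaosE m p φ ≤ chaosE m p ψ := by
  unfold chaosE
  have h1 := abs_le.1 hm
  have a := chaos_wt_nonneg p (-1)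
  have b := chaos_wt_nonneg p 0
  have c := chaos_wt_nonneg p 1
  have := h (-1) (by simp)
  have := h 0 (by simp)
  have := h 1 (by simp)
  have : 0 ≤ 1 - m p := by linarith
  have : 0 ≤ 1 + m p := by linarith
  gcongr

theorem chaos_lin (m : ℕ → ℝ) (L : List ℕ) (a b : ℝ) (F G : (ℕ → ℤ) → ℝ) :
    Ex m L (fun e => a * F e + b * G e) = a * Ex m L F + b * Ex m L G := by
  induction L generalizing F G with
  | nil => rfl
  | cons p L ih =>
    simp only [chaos_cons]
    simp only [ih (fun e => F (Function.update e p _)) (fun e => G (Function.update e p _)),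
      chaosE]
    ring

theorem chaos_const (m : ℕ → ℝ) (L : List ℕ) (a : ℝ) : Ex m L (fun _ => a) = a := by
  induction L with
  | nil => rfl
  | cons p L ih => simp only [chaos_cons, ih, chaosE_eq]; ring

theorem chaos_mul (m : ℕ → ℝ) (L : List ℕ) (a : ℝ) (F : (ℕ → ℤ) → ℝ) :
    Ex m L (fun e => a * F e) = a * Ex m L F := by
  simpa using chaos_lin m L a 0 F F

theorem chaos_add (m : ℕ → ℝ) (L : List ℕ) (F G : (ℕ → ℤ) → ℝ) :
    Ex m L (fun e => F e + G e) = Ex m L F + Ex m L G := by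
  simpa using chaos_lin m L 1 1 F G

theorem chaos_sum {ι : Type} (m : ℕ → ℝ) (L : List ℕ) (s : Finset ι) (F : ι → (ℕ → ℤ) → ℝ) :
    Ex m L (fun e => ∑ i ∈ s, F i e) = ∑ i ∈ s, Ex m L (F i) := by
  classical
  induction s using Finset.induction_on with
  | empty => simpa using chaos_const m L 0
  | insert i s hi ih => simp only [Finset.sum_insert hi, chaos_add, ih]

theorem chaos_mono {m : ℕ → ℝ} {L : List ℕ} (hm : ∀ p ∈ L, |m p| ≤ 1) {F G : (ℕ → ℤ) → ℝ}
    (h : ∀ e, F e ≤ G e) : Ex m L F ≤ Ex m L G := by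
  induction L generalizing F G with
  | nil => exact h 0
  | cons p L ih =>
    simp only [chaos_cons]
    exact chaosE_mono (hm p (by simp)) fun v _ =>
      ih (fun q hq => hm q (by simp [hq])) fun e => h _

theorem chaos_append (m : ℕ → ℝ) {L L' : List ℕ} (hd : ∀ p ∈ L, p ∉ L') {G G' : (ℕ → ℤ) → ℝ}
    (hG : ∀ e e' : ℕ → ℤ, (∀ p ∈ L, e p = e' p) → G e = G e')
    (hG' : ∀ e e' : ℕ → ℤ, (∀ p ∈ L', e p = e' p) → G' e = G' e') :
    Ex m (L ++ L') (fun e => G e * G' e) = Ex m L G * Ex m L' G' := by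
  induction L generalizing G with
  | nil =>
    have : (fun e => G e * G' e) = fun e => G 0 * G' e := by
      funext e; rw [hG e 0 (by simp)]
    rw [List.nil_append, this, chaos_mul, chaos_nil]
  | cons p L ih =>
    have key : ∀ v : ℤ, Ex m (L ++ L') (fun e => G (Function.update e p v) *
        G' (Function.update e p v)) =
        Ex m L (fun e => G (Function.update e p v)) * Ex m L' G' := by
      intro v
      have : ∀ e, G' (Function.update e p v) = G' e := fun e => hG' _ _ fun q hq =>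
        Function.update_of_ne (fun h : q = p => hd p (by simp) (h ▸ hq)) _ _
      simp only [this]
      refine ih (fun q hq => hd q (by simp [hq])) fun e e' h => hG _ _ fun q hq => ?_
      by_cases hqp : q = p
      · subst hqp; simp
      · rw [Function.update_of_ne hqp, Function.update_of_ne hqp]
        exact h q (by simpa [hqp] using hq)
    rw [List.cons_append, chaos_cons, chaos_cons]
    simp only [key, chaosE]
    ring

theorem Test.chaos_append {L L' : List ℕ} {G G' : (ℕ → ℤ) → ℝ} (h : Test L G) (h' : Test L' G')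
    (hd : ∀ p ∈ L, p ∉ L') : Test (L ++ L') fun e => G e * G' e where
  nodup := List.nodup_append.2 ⟨h.nodup, h'.nodup, fun a ha b hb hab => hd a ha (hab ▸ hb)⟩
  prime := fun p hp => (List.mem_append.1 hp).elim (h.prime p) (h'.prime p)
  dep := fun e e' he => by
    rw [h.dep e e' fun p hp => he p (by simp [hp]), h'.dep e e' fun p hp => he p (by simp [hp])]
  nonneg := fun e => mul_nonneg (h.nonneg e) (h'.nonneg e)
  le_one := fun e => mul_le_one₀ (h.le_one e) (h'.nonneg e) (h'.le_one e)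

/-- A sum of one-variable functions of the coordinates. -/
def chaosS (f : ℕ → ℤ → ℝ) (L : List ℕ) (e : ℕ → ℤ) : ℝ := (L.map fun p => f p (e p)).sum

theorem chaosS_update (f : ℕ → ℤ → ℝ) {p : ℕ} {L : List ℕ} (h : p ∉ L) (e : ℕ → ℤ) (v : ℤ) :
    chaosS f (p :: L) (Function.update e p v) = f p v + chaosS f L e := by
  simp only [chaosS, List.map_cons, List.sum_cons, Function.update_self]
  congr 2
  exact List.map_congr_left fun q hq => by
    rw [Function.update_of_ne (fun h' : q = p => h (h' ▸ hq))]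

theorem chaosS_dep (f : ℕ → ℤ → ℝ) {L : List ℕ} {e e' : ℕ → ℤ} (h : ∀ p ∈ L, e p = e' p) :
    chaosS f L e = chaosS f L e' := by
  unfold chaosS
  congr 1
  exact List.map_congr_left fun q hq => by rw [h q hq]

theorem chaos_exp {m : ℕ → ℝ} {f : ℕ → ℤ → ℝ} {L : List ℕ} (hL : L.Nodup)
    (hm : ∀ p ∈ L, |m p| ≤ 1) (h : ∀ p ∈ L, chaosE m p (fun v => Real.exp (f p v)) ≤ 1) :
    Ex m L (fun e => Real.exp (chaosS f L e)) ≤ 1 := by
  induction L with
  | nil => simp [chaos_nil, chaosS]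
  | cons p L ih =>
    have hp := (List.nodup_cons.1 hL).1
    have ih' := ih (List.nodup_cons.1 hL).2 (fun q hq => hm q (by simp [hq]))
      fun q hq => h q (by simp [hq])
    rw [chaos_cons]
    simp only [chaosS_update f hp, Real.exp_add, chaos_mul]
    refine le_trans (chaosE_mono (hm p (by simp)) fun v _ => ?_) (h p (by simp))
    exact mul_le_of_le_one_right (Real.exp_pos _).le ih'

theorem chaos_moments {m : ℕ → ℝ} {f : ℕ → ℤ → ℝ} {L : List ℕ} (hL : L.Nodup)
    (hm : ∀ p ∈ L, |m p| ≤ 1) (h1 : ∀ p ∈ L, chaosE m p (f p) = 0)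
    (h4 : ∀ p ∈ L, ∀ v : ℤ, |v| ≤ 1 → f p v ^ 2 ≤ 2) :
    Ex m L (chaosS f L) = 0 ∧
      Ex m L (fun e => chaosS f L e ^ 2) = (L.map fun p => chaosE m p fun v => f p v ^ 2).sum ∧
      Ex m L (fun e => chaosS f L e ^ 4) ≤ 3 * Ex m L (fun e => chaosS f L e ^ 2) ^ 2 +
        2 * Ex m L (fun e => chaosS f L e ^ 2) := by
  induction L with
  | nil => simp [chaos_nil, chaosS]
  | cons p L ih =>
    have hp := (List.nodup_cons.1 hL).1
    obtain ⟨i1, i2, i4⟩ := ih (List.nodup_cons.1 hL).2 (fun q hq => hm q (by simp [hq]))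
      (fun q hq => h1 q (by simp [hq])) fun q hq => h4 q (by simp [hq])
    have hp1 := h1 p (by simp)
    have hp4 : chaosE m p (fun v => f p v ^ 4) ≤ chaosE m p (fun v => 2 * f p v ^ 2) :=
      chaosE_mono (hm p (by simp)) fun v hv => by
        have := h4 p (by simp) v hv
        nlinarith [sq_nonneg (f p v)]
    have hV : 0 ≤ Ex m L (fun e => chaosS f L e ^ 2) := by
      have := chaos_mono (m := m) (L := L) (fun q hq => hm q (by simp [hq]))
        (F := fun _ => 0) (G := fun e => chaosS f L e ^ 2) fun e => sq_nonneg _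
      rwa [chaos_const] at this
    have hv : 0 ≤ chaosE m p (fun v => f p v ^ 2) := by
      have := chaosE_mono (m := m) (p := p) (hm p (by simp)) (φ := fun _ => 0)
        (ψ := fun v => f p v ^ 2) fun v _ => sq_nonneg _
      simpa [chaosE] using this
    have e1 : ∀ a : ℝ, Ex m L (fun e => a + chaosS f L e) = a := by
      intro a; rw [chaos_add, chaos_const, i1, add_zero]
    have e2 : ∀ a : ℝ, Ex m L (fun e => (a + chaosS f L e) ^ 2) =
        a ^ 2 + Ex m L (fun e => chaosS f L e ^ 2) := by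
      intro a
      have : (fun e => (a + chaosS f L e) ^ 2) =
          fun e => a ^ 2 + (2 * a * chaosS f L e + chaosS f L e ^ 2) := by funext e; ring
      rw [this, chaos_add, chaos_add, chaos_const, chaos_mul, i1]; ring
    have e4 : ∀ a : ℝ, Ex m L (fun e => (a + chaosS f L e) ^ 4) =
        a ^ 4 + 6 * a ^ 2 * Ex m L (fun e => chaosS f L e ^ 2) +
          4 * a * Ex m L (fun e => chaosS f L e ^ 3) + Ex m L (fun e => chaosS f L e ^ 4) := by
      intro a
      have : (fun e => (a + chaosS f L e) ^ 4) =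
          fun e => a ^ 4 + (4 * a ^ 3 * chaosS f L e + (6 * a ^ 2 * chaosS f L e ^ 2 +
            (4 * a * chaosS f L e ^ 3 + chaosS f L e ^ 4))) := by funext e; ring
      rw [this, chaos_add, chaos_add, chaos_add, chaos_add, chaos_const, chaos_mul, chaos_mul,
        chaos_mul, i1]; ring
    have s2 : Ex m (p :: L) (fun e => chaosS f (p :: L) e ^ 2) =
        chaosE m p (fun v => f p v ^ 2) + Ex m L (fun e => chaosS f L e ^ 2) := by
      rw [chaos_cons]
      simp only [chaosS_update f hp, e2, chaosE_eq]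
      ring
    refine ⟨?_, ?_, ?_⟩
    · rw [chaos_cons]
      simp only [chaosS_update f hp, e1]
      exact hp1
    · rw [s2, i2]; simp
    · rw [s2, chaos_cons]
      simp only [chaosS_update f hp, e4]
      have : chaosE m p (fun v => f p v ^ 4 + 6 * f p v ^ 2 * Ex m L (fun e => chaosS f L e ^ 2) +
          4 * f p v * Ex m L (fun e => chaosS f L e ^ 3) + Ex m L (fun e => chaosS f L e ^ 4)) =
          chaosE m p (fun v => f p v ^ 4) +
            6 * chaosE m p (fun v => f p v ^ 2) * Ex m L (fun e => chaosS f L e ^ 2) +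
            4 * chaosE m p (f p) * Ex m L (fun e => chaosS f L e ^ 3) +
            Ex m L (fun e => chaosS f L e ^ 4) := by
        simp only [chaosE_eq]; ring
      rw [this, hp1]
      have h2 : chaosE m p (fun v => 2 * f p v ^ 2) = 2 * chaosE m p (fun v => f p v ^ 2) := by
        simp only [chaosE_eq]; ring
      nlinarith [sq_nonneg (chaosE m p (fun v => f p v ^ 2))]

theorem chaos_q_le_one (u : ℝ) : (u ^ 2 + 2 * u - u ^ 4 / 8 - 1 / 4) / 7 ≤ 1 := by
  nlinarith [sq_nonneg (u ^ 2 - 6), sq_nonneg (u - 5 / 2)]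

theorem chaos_q_nonpos {u : ℝ} (h : u ≤ 1 / 10) : (u ^ 2 + 2 * u - u ^ 4 / 8 - 1 / 4) / 7 ≤ 0 := by
  rcases le_total u 0 with h0 | h0
  · nlinarith [sq_nonneg (u ^ 2 - 6), sq_nonneg (u + 2), sq_nonneg (u ^ 2 + 2 * u),
      sq_nonneg (u + 1), mul_nonneg (neg_nonneg.2 h0) (sq_nonneg (u + 2))]
  · nlinarith [pow_nonneg h0 4]

/-- A lower bound for the probability of a large deviation. -/
theorem chaos_pz {m : ℕ → ℝ} {f : ℕ → ℤ → ℝ} {L : List ℕ} (hL : L.Nodup)
    (hm : ∀ p ∈ L, |m p| ≤ 1) (h1 : ∀ p ∈ L, chaosE m p (f p) = 0)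
    (h4 : ∀ p ∈ L, ∀ v : ℤ, |v| ≤ 1 → f p v ^ 2 ≤ 2) {b : ℝ}
    (hV : 100 * b ^ 2 + 2 ≤ (L.map fun p => chaosE m p fun v => f p v ^ 2).sum)
    {G : (ℕ → ℤ) → ℝ} (hG : ∀ e, G e ≤ 1) (hG0 : ∀ e, b < chaosS f L e → G e = 0) :
    Ex m L G ≤ 27 / 28 := by
  obtain ⟨i1, i2, i4⟩ := chaos_moments hL hm h1 h4
  rw [← i2] at hV
  set V := Ex m L (fun e => chaosS f L e ^ 2) with hVd
  have hV2 : 2 ≤ V := by nlinarith
  have hl : 0 < √V := Real.sqrt_pos.2 (by linarith)
  have hsq : √V ^ 2 = V := Real.sq_sqrt (by linarith)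
  have hbl : 10 * b ≤ √V := Real.le_sqrt_of_sq_le (by nlinarith)
  have key : ∀ e, G e ≤ 29 / 28 + (-2 / 7 / √V * chaosS f L e +
      (-1 / 7 / V * chaosS f L e ^ 2 + 1 / 56 / V ^ 2 * chaosS f L e ^ 4)) := by
    intro e
    have e2 : (chaosS f L e / √V) ^ 2 = chaosS f L e ^ 2 / V := by rw [div_pow, hsq]
    have e4 : (chaosS f L e / √V) ^ 4 = chaosS f L e ^ 4 / V ^ 2 := by
      rw [div_pow, show √V ^ 4 = (√V ^ 2) ^ 2 by ring, hsq]
    have : 29 / 28 + (-2 / 7 / √V * chaosS f L e +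
        (-1 / 7 / V * chaosS f L e ^ 2 + 1 / 56 / V ^ 2 * chaosS f L e ^ 4)) =
        1 - ((chaosS f L e / √V) ^ 2 + 2 * (chaosS f L e / √V) -
          (chaosS f L e / √V) ^ 4 / 8 - 1 / 4) / 7 := by
      rw [e2, e4]; ring
    rw [this]
    by_cases hb' : b < chaosS f L e
    · rw [hG0 e hb']; linarith [chaos_q_le_one (chaosS f L e / √V)]
    · have : chaosS f L e / √V ≤ 1 / 10 := by
        rw [div_le_iff₀ hl]; linarith [not_lt.1 hb']
      linarith [chaos_q_nonpos this, hG e]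
  refine (chaos_mono hm key).trans ?_
  rw [chaos_add, chaos_add, chaos_add, chaos_const, chaos_mul, chaos_mul, chaos_mul, i1, ← hVd]
  have h4' : Ex m L (fun e => chaosS f L e ^ 4) ≤ 4 * V ^ 2 := by nlinarith
  have a1 : -1 / 7 / V * V = -1 / 7 := by field_simp
  have a2 : 1 / 56 / V ^ 2 * Ex m L (fun e => chaosS f L e ^ 4) ≤ 1 / 14 := by
    calc _ ≤ 1 / 56 / V ^ 2 * (4 * V ^ 2) := by gcongr
      _ = 1 / 14 := by field_simp; norm_num
  linarith

end Pool.Agent.Lib.MP_e6abdd_an
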