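import Pool.Agent.Lib.MP_e6abdd_an.Defs

/-!
The Euclidean recursion behind the cocycle.
-/

namespace Pool.Agent.Lib.MP_e6abdd_an

open Classical in
noncomputable def cocRec {A : Type} (t : ℤ → A → A) (s : A → A) (a0 a1 : A) (c d : ℤ) : A :=
  if c = 0 ∨ ¬ IsCoprime c d then a0 else
  if _h : (Int.bmod d (2 * c.natAbs)).natAbs < c.natAbs then
    t ((d - Int.bmod d (2 * c.natAbs)) / (2 * c))
      (s (cocRec t s a0 a1 (-Int.bmod d (2 * c.natAbs)) c))
  else t ((c * d + 1) / 2) a1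
termination_by c.natAbs
decreasing_by simpa using _h

theorem coc_bmod {c d0 : ℤ} (k : ℤ) (h : d0.natAbs < c.natAbs) :
    Int.bmod (d0 + 2 * c * k) (2 * c.natAbs) = d0 := by
  have h1 : Int.bmod (d0 + 2 * c * k) (2 * c.natAbs) = Int.bmod d0 (2 * c.natAbs) := by
    rw [Int.bmod_eq_bmod_iff_bmod_sub_eq_zero, ← Int.dvd_iff_bmod_eq_zero]
    push_cast
    rw [add_sub_cancel_left]
    exact Dvd.dvd.mul_right (mul_dvd_mul_left 2 ((abs_dvd c c).2 dvd_rfl)) k
  rw [h1]
  apply Int.bmod_eq_of_le <;> omega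

theorem coc_unit {c d : ℤ} (h : IsCoprime c d) (hd : c ∣ d) : c = 1 ∨ c = -1 :=
  Int.isUnit_iff.1 (h.isUnit_of_dvd' dvd_rfl hd)

theorem coc_cases {c d : ℤ} (h : IsCoprime c d) : c = 0 ∨ ((c = 1 ∨ c = -1) ∧ Odd d) ∨
    (c ≠ 0 ∧ ∃ d0 k : ℤ, d = d0 + 2 * c * k ∧ d0.natAbs < c.natAbs) := by
  by_cases hc : c = 0
  · exact Or.inl hc
  right
  have h2 : (2 * c) ∣ d - Int.bmod d (2 * c.natAbs) := by
    have := @Int.dvd_self_sub_bmod d (2 * c.natAbs)
    push_cast at this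
    exact Dvd.dvd.trans (mul_dvd_mul_left 2 ((dvd_abs c c).2 dvd_rfl)) this
  obtain ⟨k, hk⟩ := h2
  by_cases hlt : (Int.bmod d (2 * c.natAbs)).natAbs < c.natAbs
  · exact Or.inr ⟨hc, _, k, by linarith, hlt⟩
  left
  have hpos : 0 < 2 * c.natAbs := by omega
  have h3 := @Int.le_bmod d _ hpos
  have h4 := @Int.bmod_lt d _ hpos
  have h5 : Int.bmod d (2 * c.natAbs) = c ∨ Int.bmod d (2 * c.natAbs) = -c := by omega
  have h6 : c = 1 ∨ c = -1 := by
    apply coc_unit h
    rcases h5 with h5 | h5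
    · exact ⟨2 * k + 1, by rw [h5] at hk; linarith⟩
    · exact ⟨2 * k - 1, by rw [h5] at hk; linarith⟩
  refine ⟨h6, ?_⟩
  rw [Int.odd_iff]
  rcases h5 with h5 | h5 <;> rw [h5] at hk <;> rcases h6 with rfl | rfl <;> omega

section

variable {A : Type} (t : ℤ → A → A) (s : A → A) (a0 a1 : A)

theorem coc_rec_zero (d : ℤ) : cocRec t s a0 a1 0 d = a0 := by
  rw [cocRec]; simp

theorem coc_rec_not {c d : ℤ} (h : ¬ IsCoprime c d) : cocRec t s a0 a1 c d = a0 := by
  rw [cocRec]; simp [h]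

theorem coc_rec_step {c d0 : ℤ} (k : ℤ) (hc : c ≠ 0) (h : IsCoprime c (d0 + 2 * c * k))
    (hlt : d0.natAbs < c.natAbs) :
    cocRec t s a0 a1 c (d0 + 2 * c * k) = t k (s (cocRec t s a0 a1 (-d0) c)) := by
  rw [cocRec, if_neg (by simp [hc, h]), coc_bmod k hlt, dif_pos hlt, add_sub_cancel_left,
    Int.mul_ediv_cancel_left _ (by simpa using hc)]

theorem coc_rec_one {c d : ℤ} (hc : c = 1 ∨ c = -1) (hd : Odd d) :
    cocRec t s a0 a1 c d = t ((c * d + 1) / 2) a1 := by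
  have h : IsCoprime c d := by
    rcases hc with rfl | rfl
    · exact isCoprime_one_left
    · exact isCoprime_one_left.neg_left
  have h1 : c.natAbs = 1 := by rcases hc with rfl | rfl <;> rfl
  rw [cocRec, if_neg (by rcases hc with rfl | rfl <;> simp [h]), dif_neg]
  rw [h1]
  have h2 := @Int.dvd_self_sub_bmod d (2 * 1)
  rw [Int.odd_iff] at hd
  omega

theorem coc_rec_neg (c d : ℤ) : cocRec t s a0 a1 (-c) (-d) = cocRec t s a0 a1 c d := by
  induction hn : c.natAbs using Nat.strong_induction_on generalizing c d with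
  | _ n ih =>
    by_cases h : IsCoprime c d
    · rcases coc_cases h with rfl | ⟨hc, hd⟩ | ⟨hc, d0, k, rfl, hlt⟩
      · simp [coc_rec_zero]
      · rw [coc_rec_one t s a0 a1 hc hd, coc_rec_one t s a0 a1 (by omega) hd.neg, neg_mul_neg]
      · have e : -(d0 + 2 * c * k) = -d0 + 2 * (-c) * k := by ring
        rw [coc_rec_step t s a0 a1 k hc h hlt, e, coc_rec_step t s a0 a1 k (neg_ne_zero.2 hc)
          (e ▸ h.neg_neg) (by simpa using hlt), ih _ (by simpa [← hn] using hlt) (-d0) c rfl]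
    · rw [coc_rec_not t s a0 a1 h, 
        coc_rec_not t s a0 a1 (by rwa [IsCoprime.neg_neg_iff])]

variable {t s a0 a1}

theorem coc_rec_T (tadd : ∀ m n a, t (m + n) a = t m (t n a)) (h0 : ∀ n, t n a0 = a0)
    {c d : ℤ} (h : IsCoprime c d) (n : ℤ) :
    cocRec t s a0 a1 c (d + 2 * c * n) = t n (cocRec t s a0 a1 c d) := by
  rcases coc_cases h with rfl | ⟨hc, hd⟩ | ⟨hc, d0, k, rfl, hlt⟩
  · simp [coc_rec_zero, h0]
  · have hd' : Odd (d + 2 * c * n) := hd.add_even ⟨c * n, by ring⟩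
    rw [coc_rec_one t s a0 a1 hc hd, coc_rec_one t s a0 a1 hc hd', ← tadd]
    congr 1
    rcases hc with rfl | rfl <;> omega
  · have e : d0 + 2 * c * k + 2 * c * n = d0 + 2 * c * (n + k) := by ring
    have h' : IsCoprime c (d0 + 2 * c * k + 2 * c * n) := by
      rw [show 2 * c * n = c * (2 * n) by ring]
      exact h.add_mul_left_right _
    rw [coc_rec_step t s a0 a1 k hc h hlt, e, coc_rec_step t s a0 a1 _ hc (e ▸ h') hlt, tadd]

theorem coc_rec_S (t0 : ∀ a, t 0 a = a) (ss : ∀ a, s (s a) = a) (h1 : s (t 1 a1) = a1)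
    {c d : ℤ} (h : IsCoprime c d) : cocRec t s a0 a1 d (-c) = s (cocRec t s a0 a1 c d) := by
  rcases lt_trichotomy c.natAbs d.natAbs with hlt | heq | hlt
  · have := coc_rec_step t s a0 a1 (c := d) (d0 := -c) 0 (by omega)
      (by simpa using h.symm.neg_right)
      (by simpa using hlt)
    simpa [t0] using this
  · have hc : c = 1 ∨ c = -1 := coc_unit h (Int.natAbs_dvd_natAbs.1 (heq ▸ dvd_rfl))
    have hd : d = 1 ∨ d = -1 := by omega
    have h2 : s a1 = t 1 a1 := by rw [← ss (t 1 a1), h1]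
    rw [coc_rec_one t s a0 a1 hc (by rcases hd with rfl | rfl <;> decide),
      coc_rec_one t s a0 a1 hd (by rcases hc with rfl | rfl <;> decide)]
    rcases hc with rfl | rfl <;> rcases hd with rfl | rfl <;> simp [t0, h1, h2]
  · have := coc_rec_step t s a0 a1 (c := c) (d0 := d) 0 (by omega) (by simpa using h) hlt
    rw [mul_zero, add_zero, t0] at this
    rw [this, ss, ← coc_rec_neg, neg_neg]

end

/-- Induction along the Euclidean algorithm. -/
theorem coc_ind {P : ℤ → ℤ → Prop} (h0 : ∀ d, P 0 d)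
    (h1 : ∀ c d, (c = 1 ∨ c = -1) → Odd d → P c d)
    (h2 : ∀ c d0 k, c ≠ 0 → IsCoprime c (d0 + 2 * c * k) → d0.natAbs < c.natAbs →
      P (-d0) c → P c (d0 + 2 * c * k)) {c d : ℤ} (h : IsCoprime c d) : P c d := by
  induction hn : c.natAbs using Nat.strong_induction_on generalizing c d with
  | _ n ih =>
    rcases coc_cases h with rfl | ⟨hc, hd⟩ | ⟨hc, d0, k, rfl, hlt⟩
    · exact h0 d
    · exact h1 c d hc hd
    · refine h2 c d0 k hc h hlt (ih _ (by simpa [← hn] using hlt) ?_ rfl)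
      rw [show 2 * c * k = c * (2 * k) by ring] at h
      exact (IsCoprime.of_add_mul_left_right h).symm.neg_left

end Pool.Agent.Lib.MP_e6abdd_an
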