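import Pool.Agent.Lib.MP_e6abdd_an.Defs

/-!
The solution of the difference equation at the cusp `1`.
-/

namespace Pool.Agent.Lib.MP_e6abdd_an

open Complex hiding Gamma
open UpperHalfPlane hiding I
open MeasureTheory Filter Topology CongruenceSubgroup
open scoped Real MatrixGroups ComplexConjugate

noncomputable section

def cocZ : ℂ := -(-I) ^ (-1 / 2 : ℂ)

def cocK (X : ℝ) (z : ℂ) : ℂ := (-I * z) ^ (-1 / 2 : ℂ) * cexp (π * I * X * (-1 / z))

def cocD (X : ℝ) (z : ℂ) : ℂ := cocK X (z + 1) - cocK X z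

def cocS (X : ℝ) (z : ℂ) : ℂ :=
  (1 - cocZ⁻¹)⁻¹ * (cocK X z + ∑' j : ℕ, cocZ⁻¹ ^ (j + 1) * cocD X (z + j))

def cocU (X : ℝ) (z : ℂ) : ℂ :=
  cexp (π * I * X) * cocK X z - (cexp (π * I * X) - cexp (-(π * I * X))) * cocS X z

def cocG (m : ℤ) : ℝ := (|(m : ℝ) + 1 / 2| / 3) ^ (-3 / 2 : ℝ)

theorem coc_norm_cpow (z : ℂ) : ‖(-I * z) ^ (-1 / 2 : ℂ)‖ = ‖z‖ ^ (-1 / 2 : ℝ) := by
  rw [show (-1 / 2 : ℂ) = ((-1 / 2 : ℝ) : ℂ) by push_cast; ring, norm_cpow_real]
  simp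

theorem coc_norm_z : ‖cocZ‖ = 1 := by
  have := coc_norm_cpow 1
  rw [mul_one] at this
  rw [cocZ, norm_neg, this]
  simp

theorem coc_z_ne : cocZ ≠ 0 := by
  intro h
  simpa [h] using coc_norm_z

theorem coc_z_ne_one : 1 - cocZ⁻¹ ≠ 0 := by
  intro h
  have h1 : cocZ = 1 := inv_eq_one.1 (sub_eq_zero.1 h).symm
  have h2 : cocZ ^ 2 = I := by
    rw [cocZ, neg_sq, ← cpow_nat_mul, show ((2 : ℕ) : ℂ) * (-1 / 2) = -1 by push_cast; ring,
      cpow_neg_one, inv_neg, inv_I, neg_neg]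
  rw [h1] at h2
  simpa using congrArg Complex.re h2

variable {X : ℝ}

theorem coc_ne {z : ℂ} (hz : 0 < z.im) : z ≠ 0 := by
  rintro rfl
  simp at hz

theorem coc_norm_exp (hX : 0 < X) {z : ℂ} (hz : 0 < z.im) :
    ‖cexp (π * I * X * (-1 / z))‖ ≤ 1 := by
  rw [norm_exp, Real.exp_le_one_iff]
  have h : (π * I * X * (-1 / z)).re = -(π * X * (z.im / normSq z)) := by
    simp [div_re, div_im]
    ring
  rw [h, neg_nonpos]
  have := normSq_nonneg z
  positivity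

theorem coc_norm_k (hX : 0 < X) {z : ℂ} (hz : 0 < z.im) : ‖cocK X z‖ ≤ ‖z‖ ^ (-1 / 2 : ℝ) := by
  rw [cocK, norm_mul, coc_norm_cpow]
  exact mul_le_of_le_one_right (by positivity) (coc_norm_exp hX hz)

theorem coc_deriv_k (X : ℝ) {z : ℂ} (hz : 0 < z.im) :
    HasDerivAt (cocK X) (cocK X z * (-1 / 2 / z + π * I * X / z ^ 2)) z := by
  have h0 := coc_ne hz
  have h1 : HasDerivAt (fun z : ℂ => (-I * z) ^ (-1 / 2 : ℂ))
      ((-1 / 2 : ℂ) * (-I * z) ^ (-1 / 2 - 1 : ℂ) * (-I)) z :=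
    (hasDerivAt_const_mul (-I)).cpow_const (Or.inl (by simpa using hz))
  have h2 : HasDerivAt (fun z : ℂ => π * I * X * (-1 / z)) (π * I * X * (1 / z ^ 2)) z := by
    refine HasDerivAt.const_mul _ ?_
    have h : HasDerivAt (fun y : ℂ => -1 * y⁻¹) (-1 * -(z ^ 2)⁻¹) z :=
      (hasDerivAt_inv h0).const_mul (-1)
    exact HasDerivAt.congr_deriv h (by simp)
  have h3 := h1.mul h2.cexp
  have h4 : -I * z ≠ 0 := mul_ne_zero (neg_ne_zero.2 I_ne_zero) h0
  refine HasDerivAt.congr_deriv h3 ?_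
  rw [cpow_sub _ _ h4, cpow_one, cocK]
  have := I_ne_zero
  field_simp

theorem coc_norm_d (hX : 0 < X) {z : ℂ} (hz : 0 < z.im) {ρ : ℝ} (hρ : 0 < ρ)
    (h : ∀ t ∈ Set.Icc (0 : ℝ) 1, 1 ≤ |z.re + t| ∧ ρ ≤ |z.re + t|) :
    ‖cocD X z‖ ≤ (1 / 2 + π * X) * ρ ^ (-3 / 2 : ℝ) := by
  have him : ∀ t : ℝ, 0 < (z + t).im := fun t => by simpa using hz
  have h1 : ∀ t : ℝ, HasDerivAt (fun t : ℝ => cocK X (z + t))
      (cocK X (z + t) * (-1 / 2 / (z + t) + π * I * X / (z + t) ^ 2)) t := fun t =>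
    HasDerivAt.comp_ofReal (e := fun w => cocK X (z + w))
      ((coc_deriv_k X (him t)).comp_const_add z t)
  have h2 := norm_image_sub_le_of_norm_deriv_le_segment_01'
    (fun t _ => (h1 t).hasDerivWithinAt) (C := (1 / 2 + π * X) * ρ ^ (-3 / 2 : ℝ)) ?_
  · simpa [cocD] using h2
  intro t ht
  obtain ⟨ha, hb⟩ := h t ⟨ht.1, ht.2.le⟩
  have hre : |z.re + t| ≤ ‖z + t‖ := by simpa using abs_re_le_norm (z + t)
  set w := z + t
  have hw : 1 ≤ ‖w‖ := ha.trans hre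
  have hw0 : 0 < ‖w‖ := by linarith
  have h3 : ‖-1 / 2 / w + π * I * X / w ^ 2‖ ≤ (1 / 2 + π * X) * ‖w‖⁻¹ := by
    refine (norm_add_le _ _).trans ?_
    have e1 : ‖-1 / 2 / w‖ = 1 / 2 * ‖w‖⁻¹ := by simp [div_eq_mul_inv]
    have e2 : ‖π * I * X / w ^ 2‖ = π * X * ‖w‖⁻¹ * ‖w‖⁻¹ := by
      simp [div_eq_mul_inv, abs_of_pos hX, abs_of_pos Real.pi_pos, sq, mul_assoc]
    have e3 : π * X * ‖w‖⁻¹ * ‖w‖⁻¹ ≤ π * X * ‖w‖⁻¹ :=
      mul_le_of_le_one_right (by positivity) (inv_le_one_of_one_le₀ hw)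
    rw [e1, e2]
    linarith
  rw [norm_mul]
  calc _ ≤ ‖w‖ ^ (-1 / 2 : ℝ) * ((1 / 2 + π * X) * ‖w‖⁻¹) :=
        mul_le_mul (coc_norm_k hX (him t)) h3 (norm_nonneg _) (by positivity)
    _ = (1 / 2 + π * X) * ‖w‖ ^ (-3 / 2 : ℝ) := by
        rw [mul_left_comm, ← Real.rpow_neg_one, ← Real.rpow_add hw0]; norm_num
    _ ≤ _ := mul_le_mul_of_nonneg_left
        (Real.rpow_le_rpow_of_nonpos hρ (hb.trans hre) (by norm_num)) (by positivity)

theorem coc_half_pos (m : ℤ) : 0 < |(m : ℝ) + 1 / 2| := by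
  rw [abs_pos]
  intro h
  have h1 : ((2 * m + 1 : ℤ) : ℝ) = 0 := by push_cast; linarith
  have h2 : 2 * m + 1 = 0 := by exact_mod_cast h1
  omega

theorem coc_g_nonneg (m : ℤ) : 0 ≤ cocG m := Real.rpow_nonneg (by positivity) _

theorem coc_g_summable : Summable cocG := by
  refine (((Real.summable_one_div_int_add_rpow (1 / 2) (3 / 2)).2 (by norm_num)).mul_left
    ((3 : ℝ) ^ (3 / 2 : ℝ))).congr fun m => ?_
  rw [cocG, neg_div, Real.rpow_neg (by positivity), Real.div_rpow (abs_nonneg _) (by norm_num),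
    inv_div, mul_one_div]

theorem coc_d_le (hX : 0 < X) {z : ℂ} (hz : 0 < z.im) {M : ℝ} (hM : 0 ≤ M)
    (h : ∀ i : ℤ, |z.re + i| ≤ 2 → ‖cocK X (z + i)‖ ≤ M) (j : ℕ) :
    ‖cocD X (z + j)‖ ≤ (1 / 2 + π * X + 2 * M) * cocG (⌊z.re⌋ + j) := by
  have h1 := Int.floor_le z.re
  have h2 := Int.lt_floor_add_one z.re
  have hρ : 0 < |((⌊z.re⌋ + j : ℤ) : ℝ) + 1 / 2| / 3 := div_pos (coc_half_pos _) (by norm_num)
  have hg := coc_g_nonneg (⌊z.re⌋ + j)
  have hC : 0 ≤ 1 / 2 + π * X := by positivity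
  by_cases hm : -2 ≤ ⌊z.re⌋ + j ∧ ⌊z.re⌋ + j ≤ 0
  · have h3 : (-2 : ℝ) ≤ ⌊z.re⌋ + j := by exact_mod_cast hm.1
    have h4 : (⌊z.re⌋ + j : ℝ) ≤ 0 := by exact_mod_cast hm.2
    have h5 := h j (by push_cast; rw [abs_le]; constructor <;> linarith)
    have h6 := h (j + 1) (by push_cast; rw [abs_le]; constructor <;> linarith)
    push_cast at h5 h6
    rw [← add_assoc] at h6
    have h7 : 1 ≤ cocG (⌊z.re⌋ + j) := by
      refine Real.one_le_rpow_of_pos_of_le_one_of_nonpos hρ ?_ (by norm_num)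
      push_cast
      rw [div_le_one (by norm_num), abs_le]; constructor <;> linarith
    have h8 := norm_sub_le (cocK X (z + j + 1)) (cocK X (z + j))
    rw [cocD]
    nlinarith
  · have h3 := coc_norm_d hX (z := z + j) (by simpa using hz) hρ ?_
    · rw [← cocG] at h3
      nlinarith
    intro t ht
    obtain ⟨ht0, ht1⟩ := ht
    simp only [add_re, natCast_re]
    push_cast
    rcases (by omega : 1 ≤ ⌊z.re⌋ + j ∨ ⌊z.re⌋ + j ≤ -3) with hm' | hm'
    · have h3 : (1 : ℝ) ≤ ⌊z.re⌋ + j := by exact_mod_cast hm'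
      rw [abs_of_pos (by linarith), abs_of_pos (by linarith)]
      constructor <;> linarith
    · have h3 : (⌊z.re⌋ + j : ℝ) ≤ -3 := by exact_mod_cast hm'
      rw [abs_of_neg (by linarith), abs_of_neg (by linarith)]
      constructor <;> linarith

theorem coc_norm_k_im (hX : 0 < X) {z : ℂ} {δ : ℝ} (hδ : 0 < δ) (hz : δ ≤ z.im) (i : ℤ) :
    ‖cocK X (z + i)‖ ≤ δ ^ (-1 / 2 : ℝ) := by
  refine (coc_norm_k hX (by simpa using hδ.trans_le hz)).trans
    (Real.rpow_le_rpow_of_nonpos hδ ?_ (by norm_num))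
  simpa using hz.trans ((by simp : z.im = (z + i).im).le.trans (im_le_norm (z + i)))

theorem coc_term_norm (X : ℝ) (z : ℂ) (j : ℕ) :
    ‖cocZ⁻¹ ^ (j + 1) * cocD X (z + j)‖ = ‖cocD X (z + j)‖ := by
  rw [norm_mul, norm_pow, norm_inv, coc_norm_z]; simp

theorem coc_inj (n : ℤ) : Function.Injective fun j : ℕ => n + (j : ℤ) := fun a b h => by
  simpa using h

theorem coc_summable (hX : 0 < X) {z : ℂ} (hz : 0 < z.im) :
    Summable fun j : ℕ => cocZ⁻¹ ^ (j + 1) * cocD X (z + j) := by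
  refine ((coc_g_summable.comp_injective (coc_inj ⌊z.re⌋)).mul_left
    (1 / 2 + π * X + 2 * z.im ^ (-1 / 2 : ℝ))).of_norm_bounded fun j => ?_
  rw [coc_term_norm]
  exact coc_d_le hX hz (by positivity) (fun i _ => coc_norm_k_im hX hz le_rfl i) j

theorem coc_s_eq (hX : 0 < X) {z : ℂ} (hz : 0 < z.im) :
    cocS X z = cocK X z + cocZ⁻¹ * cocS X (z + 1) := by
  have h1 := (coc_summable hX hz).tsum_eq_zero_add
  have h2 : ∑' j : ℕ, cocZ⁻¹ ^ (j + 1 + 1) * cocD X (z + (j + 1 : ℕ)) =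
      cocZ⁻¹ * ∑' j : ℕ, cocZ⁻¹ ^ (j + 1) * cocD X (z + 1 + j) := by
    rw [← tsum_mul_left]
    refine tsum_congr fun j => ?_
    push_cast
    rw [add_comm (j : ℂ) 1, ← add_assoc z]
    ring
  rw [cocS, cocS, h1, h2]
  simp only [cocD, Nat.cast_zero, add_zero, zero_add, pow_one]
  have := coc_z_ne_one
  generalize cocZ⁻¹ = η at *
  field_simp
  ring

theorem coc_u_eq (hX : 0 < X) {z : ℂ} (hz : 0 < z.im) : cocU X z =
    cexp (π * I * X) * cocK X z - cocZ * (cexp (-(π * I * X)) * cocK X (z - 1)) +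
      cocZ * cocU X (z - 1) := by
  have h := coc_s_eq hX (z := z - 1) (by simpa using hz)
  rw [sub_add_cancel] at h
  rw [cocU, cocU, h]
  have := coc_z_ne
  field_simp
  ring

theorem coc_norm_u (hX : 0 < X) : ∃ C : ℝ, 0 ≤ C ∧ ∀ z : ℂ, 0 < z.im → ∀ M : ℝ, 0 ≤ M →
    (∀ i : ℤ, |z.re + i| ≤ 2 → ‖cocK X (z + i)‖ ≤ M) → ‖cocU X z‖ ≤ C * (1 + M) := by
  have hG : 0 ≤ ∑' m, cocG m := tsum_nonneg coc_g_nonneg
  refine ⟨1 + 2 * (‖(1 - cocZ⁻¹)⁻¹‖ * (1 + (2 + π * X) * ∑' m, cocG m)), by positivity,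
    fun z hz M hM h => ?_⟩
  have hk : ‖cocK X z‖ ≤ 1 + M := by
    rcases le_total |z.re| 2 with h1 | h1
    · have := h 0 (by simpa using h1)
      simp only [Int.cast_zero, add_zero] at this
      linarith
    · have := (coc_norm_k hX hz).trans (Real.rpow_le_one_of_one_le_of_nonpos
        (le_trans (by linarith) (abs_re_le_norm z)) (by norm_num))
      linarith
  have hsum := (coc_g_summable.comp_injective (coc_inj ⌊z.re⌋))
  have h1 : ‖∑' j : ℕ, cocZ⁻¹ ^ (j + 1) * cocD X (z + j)‖ ≤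
      (1 / 2 + π * X + 2 * M) * ∑' m, cocG m := by
    refine (tsum_of_norm_bounded (hsum.mul_left (1 / 2 + π * X + 2 * M)).hasSum fun j => ?_).trans ?_
    · rw [coc_term_norm]
      exact coc_d_le hX hz hM h j
    · rw [tsum_mul_left]
      exact mul_le_mul_of_nonneg_left
        (tsum_comp_le_tsum_of_inj coc_g_summable coc_g_nonneg (coc_inj _)) (by positivity)
  have h2 : (1 / 2 + π * X + 2 * M) * ∑' m, cocG m ≤ (2 + π * X) * (∑' m, cocG m) * (1 + M) := by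
    rw [mul_right_comm]
    refine mul_le_mul_of_nonneg_right ?_ hG
    have : 0 ≤ π * X * M := by positivity
    nlinarith
  have h3 : ‖cocS X z‖ ≤ ‖(1 - cocZ⁻¹)⁻¹‖ * (1 + (2 + π * X) * ∑' m, cocG m) * (1 + M) := by
    rw [cocS, norm_mul, mul_assoc]
    refine mul_le_mul_of_nonneg_left ((norm_add_le _ _).trans ?_) (norm_nonneg _)
    linarith
  have e1 : ‖cexp (π * I * X)‖ = 1 := by rw [norm_exp]; simp
  have e2 : ‖cexp (-(π * I * X))‖ = 1 := by rw [norm_exp]; simp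
  have e3 : ‖cexp (π * I * X) - cexp (-(π * I * X))‖ ≤ 2 := by
    refine (norm_sub_le _ _).trans ?_
    rw [e1, e2]; norm_num
  rw [cocU]
  refine (norm_sub_le _ _).trans ?_
  rw [norm_mul, norm_mul, e1]
  have h4 := mul_le_mul e3 h3 (norm_nonneg _) (by norm_num)
  linarith

theorem coc_open : IsOpen {z : ℂ | 0 < z.im} := isOpen_lt continuous_const continuous_im

theorem coc_diff_s (hX : 0 < X) (N : ℕ) :
    ∀ z : ℂ, 0 < z.im → 1 - N < z.re → DifferentiableAt ℂ (cocS X) z := by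
  induction N with
  | zero =>
    intro z hz hre
    have hV : IsOpen {z : ℂ | 0 < z.im ∧ 1 < z.re} :=
      coc_open.inter (isOpen_lt continuous_const Complex.continuous_re)
    have hs : Summable fun j : ℕ => (1 / 2 + π * X) * ((j + 1 : ℕ) : ℝ) ^ (-3 / 2 : ℝ) :=
      ((summable_nat_add_iff (f := fun j : ℕ => (j : ℝ) ^ (-3 / 2 : ℝ)) 1).2
        (Real.summable_nat_rpow.2 (by norm_num))).mul_left _
    have h1 := differentiableOn_tsum_of_summable_norm hs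
      (F := fun (j : ℕ) (z : ℂ) => cocZ⁻¹ ^ (j + 1) * cocD X (z + j)) ?_ hV ?_
    · exact ((coc_deriv_k X hz).differentiableAt.add
        (h1.differentiableAt (hV.mem_nhds ⟨hz, by simpa using hre⟩))).const_mul _
    · intro j w hw
      have h2 := (coc_deriv_k X (z := w + j) (by simpa using hw.1)).comp_add_const
      have h3 := ((coc_deriv_k X (z := w + j + 1) (by simpa using hw.1)).comp_add_const).comp_add_const
      exact ((h3.differentiableAt.sub h2.differentiableAt).const_mul _).differentiableWithinAt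
    · intro j w hw
      rw [coc_term_norm]
      refine coc_norm_d hX (by simpa using hw.1) (by positivity) fun t ht => ?_
      have h2 := hw.2
      have h3 := ht.1
      have h4 := j.cast_nonneg (α := ℝ)
      simp only [add_re, natCast_re]
      push_cast
      rw [abs_of_pos (by linarith)]
      constructor <;> linarith
  | succ N ih =>
    intro z hz hre
    have h1 := ih (z + 1) (by simpa using hz) (by push_cast at hre; simp; linarith)
    have h2 : cocS X =ᶠ[𝓝 z] fun w => cocK X w + cocZ⁻¹ * cocS X (w + 1) := by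
      filter_upwards [coc_open.mem_nhds hz] with w hw using coc_s_eq hX hw
    refine DifferentiableAt.congr_of_eventuallyEq ?_ h2
    exact (coc_deriv_k X hz).differentiableAt.add
      ((h1.hasDerivAt.comp_add_const.differentiableAt).const_mul _)

theorem coc_diff_u (hX : 0 < X) {z : ℂ} (hz : 0 < z.im) : DifferentiableAt ℂ (cocU X) z := by
  obtain ⟨N, hN⟩ := exists_nat_gt (1 - z.re)
  exact ((coc_deriv_k X hz).differentiableAt.const_mul _).sub
    ((coc_diff_s hX N z hz (by linarith)).const_mul _)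

end

end Pool.Agent.Lib.MP_e6abdd_an
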