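import Pool.Agent.Lib.MP_e6abdd_an.Mult
import Pool.Agent.Lib.MP_e6abdd_an.CocA
import Pool.Agent.Lib.MP_e6abdd_an.CocB

/-!
The cocycle and its algebraic properties.
-/

namespace Pool.Agent.Lib.MP_e6abdd_an

open Complex hiding Gamma
open UpperHalfPlane hiding I
open MeasureTheory Filter Topology CongruenceSubgroup
open scoped Real MatrixGroups ComplexConjugate

open ModularGroup (S T)

noncomputable section

def cocX (X : ℝ) (τ : ℍ) : ℂ := sl (fun w : ℍ => cocU X w) (aff 1 (-1) τ)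

def cocT (n : ℤ) (f : ℍ → ℂ) (τ : ℍ) : ℂ := f (aff 1 (2 * n) τ)

def cocF (X : ℝ) (f : ℍ → ℂ) (τ : ℍ) : ℂ := psi X τ - sl f τ

def cocKK (X : ℝ) : ℤ → ℤ → ℍ → ℂ := cocRec cocT (cocF X) 0 (cocX X)

theorem coc_aff_aff (x x' : ℝ) (τ : ℍ) : aff 1 x (aff 1 x' τ) = aff 1 (x' + x) τ := by
  rw [aff_aff one_pos one_pos, one_mul, one_mul]

theorem coc_coe_aff (x : ℝ) (τ : ℍ) : (aff 1 x τ : ℂ) = τ + x := by
  rw [coe_aff one_pos]; simp

theorem coc_cpow_mul {a b : ℂ} (ha : a ≠ 0) (hb : b ≠ 0) (h : arg a + arg b ∈ Set.Ioc (-π) π)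
    (c : ℂ) : (a * b) ^ c = a ^ c * b ^ c := by
  rw [cpow_def_of_ne_zero ha, cpow_def_of_ne_zero hb, cpow_def_of_ne_zero (mul_ne_zero ha hb),
    log_mul ha hb h, add_mul, exp_add]

theorem coc_arg (τ : ℍ) : |arg (-I * τ)| < π / 2 :=
  abs_arg_lt_pi_div_two_iff.2 (Or.inl (by simpa using τ.im_pos))

theorem coc_mI_ne (τ : ℍ) : -I * τ ≠ 0 := mul_ne_zero (neg_ne_zero.2 I_ne_zero) τ.ne_zero

theorem coc_key (H : ℍ → ℂ) (w : ℍ) :
    sl (fun τ => sl (fun σ => H (aff 1 2 σ)) (aff 1 1 τ)) w =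
      -cocZ * sl (fun σ => H (aff 1 1 σ)) (aff 1 (-1) w) := by
  have h0 := w.ne_zero
  have h1 : (w : ℂ) - 1 ≠ 0 := by
    simpa [coc_coe_aff, ← sub_eq_add_neg] using (aff 1 (-1) w).ne_zero
  have h2 : -1 + (w : ℂ) ≠ 0 := by rwa [add_comm, ← sub_eq_add_neg]
  have hp : aff 1 2 (S • aff 1 1 (S • w)) = aff 1 1 (S • aff 1 (-1) w) := by
    apply UpperHalfPlane.ext
    simp only [coc_coe_aff, coe_S_smul]
    push_cast
    rw [← sub_eq_add_neg]
    field_simp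
    ring
  have a1 := abs_lt.1 (coc_arg w)
  have a2 := abs_lt.1 (coc_arg (aff 1 1 (S • w)))
  have a3 := abs_lt.1 (coc_arg (aff 1 (-1) w))
  have e1 := coc_cpow_mul (coc_mI_ne w) (coc_mI_ne (aff 1 1 (S • w)))
    ⟨by linarith [a1.1, a2.1], by linarith [a1.2, a2.2]⟩ (-1 / 2)
  have e2 := coc_cpow_mul (neg_ne_zero.2 I_ne_zero) (coc_mI_ne (aff 1 (-1) w))
    ⟨by rw [arg_neg_I]; linarith [a3.1], by rw [arg_neg_I]; linarith [a3.2, Real.pi_pos]⟩ (-1 / 2)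
  have e3 : -I * w * (-I * (aff 1 1 (S • w) : ℍ)) = -I * (-I * (aff 1 (-1) w : ℍ)) := by
    simp only [coc_coe_aff, coe_S_smul]
    push_cast
    field_simp
    ring
  simp only [sl, hp, cocZ, neg_neg]
  rw [← mul_assoc, ← mul_assoc, ← e1, ← e2, e3]

variable {X : ℝ}

theorem coc_sl_gs (X : ℝ) (τ : ℍ) : sl (gs X) τ = cocK X τ := by
  rw [sl, gs, coe_S_smul, cocK]

theorem coc_gs_aff (X x : ℝ) (τ : ℍ) : gs X (aff 1 x τ) = cexp (π * I * X * x) * gs X τ := by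
  rw [gs, gs, coc_coe_aff, ← exp_add]
  congr 1
  ring

theorem coc_sl_x (X : ℝ) (w : ℍ) : sl (fun τ => cocX X (aff 1 1 τ)) w = cocU X w := by
  have : (fun τ => cocX X (aff 1 1 τ)) = sl fun w : ℍ => cocU X w := by
    funext τ
    rw [cocX, coc_aff_aff, add_neg_cancel, aff_one_zero]
  rw [this, sl_sl]

theorem coc_sl_inj {f g : ℍ → ℂ}
    (h : ∀ w, sl (fun τ => f (aff 1 1 τ)) w = sl (fun τ => g (aff 1 1 τ)) w) : f = g := by
  have h1 := congrArg sl (funext h)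
  rw [sl_sl, sl_sl] at h1
  funext τ
  have h2 := congrFun h1 (aff 1 (-1) τ)
  simpa only [coc_aff_aff, neg_add_cancel, aff_one_zero] using h2

theorem coc_x_eq (hX : 0 < X) : cocF X (cocT 1 (cocX X)) = cocX X := by
  refine coc_sl_inj fun w => ?_
  have k1 := coc_key (cocX X) w
  have k2 := coc_key (fun σ => gs X (aff 1 (-2) σ)) w
  rw [coc_sl_x] at k1
  simp only [coc_aff_aff, add_neg_cancel, aff_one_zero] at k2
  have k3 : sl (fun σ => gs X (aff 1 (1 + -2) σ)) (aff 1 (-1) w) =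
      cexp (-(π * I * X)) * cocK X (w - 1) := by
    rw [sub_eq_add_neg, show (w : ℂ) + -1 = aff 1 (-1) w by rw [coc_coe_aff]; simp, ← coc_sl_gs,
      sl, sl, coc_gs_aff, mul_left_comm]
    congr 2
    push_cast
    ring
  have k4 : sl (fun σ => gs X (aff 1 1 σ)) w = cexp (π * I * X) * cocK X w := by
    rw [← coc_sl_gs, sl, sl, coc_gs_aff, mul_left_comm]
    simp
  rw [coc_sl_x, coc_u_eq hX w.im_pos]
  rw [k3] at k2
  rw [coc_coe_aff] at k1
  have e : sl (fun τ => cocF X (cocT 1 (cocX X)) (aff 1 1 τ)) w =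
      sl (fun σ => gs X (aff 1 1 σ)) w + sl (fun τ => sl (fun σ => gs X σ) (aff 1 1 τ)) w -
        sl (fun τ => sl (fun σ => cocX X (aff 1 2 σ)) (aff 1 1 τ)) w := by
    simp only [sl, cocF, cocT, psi, Int.cast_one, mul_one]
    ring
  rw [e, k1, k2, k4, sub_eq_add_neg (w : ℂ)]
  push_cast
  ring

theorem coc_f_f (X : ℝ) (f : ℍ → ℂ) : cocF X (cocF X f) = f := by
  funext τ
  have h1 := congrFun (sl_sl f) τ
  have h2 := congrFun (sl_sl (gs X)) τ
  simp only [sl, cocF, psi] at h1 h2 ⊢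
  linear_combination h1 - h2

theorem coc_t_zero (f : ℍ → ℂ) : cocT 0 f = f := by
  funext τ
  simp [cocT, aff_one_zero]

theorem coc_t_add (m n : ℤ) (f : ℍ → ℂ) : cocT (m + n) f = cocT m (cocT n f) := by
  funext τ
  simp only [cocT, coc_aff_aff]
  push_cast
  rw [mul_add]

theorem coc_kk_T {c d : ℤ} (h : IsCoprime c d) (n : ℤ) (τ : ℍ) :
    cocKK X c (d + 2 * c * n) τ = cocKK X c d (aff 1 (2 * n) τ) :=
  congrFun (coc_rec_T coc_t_add (fun _ => rfl) h n) τ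

theorem coc_kk_T2 {c d : ℤ} (h : IsCoprime c d) (τ : ℍ) :
    cocKK X c (d + 2 * c) τ = cocKK X c d (aff 1 2 τ) := by
  simpa using coc_kk_T h 1 τ

theorem coc_kk_S (hX : 0 < X) {c d : ℤ} (h : IsCoprime c d) (τ : ℍ) :
    cocKK X d (-c) τ = psi X τ - sl (cocKK X c d) τ :=
  congrFun (coc_rec_S coc_t_zero (coc_f_f X) (coc_x_eq hX) h) τ

theorem coc_kk_neg (c d : ℤ) : cocKK X (-c) (-d) = cocKK X c d := coc_rec_neg _ _ _ _ c d

theorem coc_kk_zero (d : ℤ) : cocKK X 0 d = 0 := coc_rec_zero _ _ _ _ d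

theorem coc_kk_one : cocKK X 1 (-1) = cocX X := by
  rw [cocKK, coc_rec_one _ _ _ _ (Or.inl rfl) (by decide)]
  exact coc_t_zero _

theorem coc_kk_step {c d0 : ℤ} (k : ℤ) (hc : c ≠ 0) (h : IsCoprime c (d0 + 2 * c * k))
    (hlt : d0.natAbs < c.natAbs) :
    cocKK X c (d0 + 2 * c * k) = cocT k (cocF X (cocKK X (-d0) c)) :=
  coc_rec_step _ _ _ _ k hc h hlt

def cocHol (f : ℍ → ℂ) : Prop := DifferentiableOn ℂ (f ∘ ofComplex) {z | 0 < z.im}

theorem coc_coe_of {z : ℂ} (hz : 0 < z.im) : (ofComplex z : ℂ) = z := by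
  rw [ofComplex_apply_of_im_pos hz]

theorem coc_hol_coe {g : ℂ → ℂ} (hg : ∀ z : ℂ, 0 < z.im → DifferentiableAt ℂ g z) :
    cocHol fun τ => g τ :=
  DifferentiableOn.congr (fun z hz => (hg z hz).differentiableWithinAt) fun z hz => by
    simp only [Function.comp, coc_coe_of hz]

theorem coc_hol_aff {f : ℍ → ℂ} (hf : cocHol f) (x : ℝ) : cocHol fun τ => f (aff 1 x τ) := by
  refine DifferentiableOn.congr (hf.comp (f := fun z : ℂ => z + x) (by fun_prop)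
    fun z hz => by simpa using hz) fun z hz => ?_
  simp only [Function.comp, aff, coc_coe_of hz]
  simp

theorem coc_hol_sl {f : ℍ → ℂ} (hf : cocHol f) : cocHol (sl f) := by
  have him : ∀ z : ℂ, 0 < z.im → 0 < (-1 / z).im := fun z hz => by
    have := (S • ofComplex z).im_pos
    rwa [← coe_im, coe_S_smul, coc_coe_of hz] at this
  have h1 : DifferentiableOn ℂ (fun z : ℂ => (-I * z) ^ (-1 / 2 : ℂ)) {z | 0 < z.im} :=
    DifferentiableOn.cpow_const (by fun_prop) fun z hz => Or.inl (by simpa using hz)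
  have h2 : DifferentiableOn ℂ (fun z : ℂ => -1 / z) {z | 0 < z.im} :=
    (differentiableOn_const _).div differentiableOn_id fun z hz => coc_ne hz
  refine DifferentiableOn.congr (h1.mul (hf.comp h2 him)) fun z hz => ?_
  have : S • ofComplex z = ofComplex (-1 / z) := UpperHalfPlane.ext (by
    rw [coe_S_smul, coc_coe_of hz, coc_coe_of (him z hz)])
  simp only [Function.comp, sl, coc_coe_of hz, this, Pi.mul_apply]

theorem coc_hol_gs (X : ℝ) : cocHol (gs X) :=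
  coc_hol_coe (g := fun z => cexp (π * I * X * z)) fun z _ => by fun_prop

theorem coc_hol_f {f : ℍ → ℂ} (hf : cocHol f) : cocHol (cocF X f) :=
  ((coc_hol_gs X).add (coc_hol_sl (coc_hol_gs X))).sub (coc_hol_sl hf)

theorem coc_hol_kk (hX : 0 < X) (c d : ℤ) : cocHol (cocKK X c d) := by
  have h0 : cocHol 0 := differentiableOn_const 0
  by_cases h : IsCoprime c d
  · refine coc_ind (P := fun c d => cocHol (cocKK X c d)) (fun d => ?_) (fun c d hc hd => ?_)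
      (fun c d0 k hc h hlt ih => ?_) h
    · rwa [coc_kk_zero]
    · rw [cocKK, coc_rec_one _ _ _ _ hc hd]
      exact coc_hol_aff (coc_hol_aff (coc_hol_sl (coc_hol_coe fun z hz => coc_diff_u hX hz)) _) _
    · rw [coc_kk_step k hc h hlt]
      exact coc_hol_aff (coc_hol_f ih) _
  · rwa [cocKK, coc_rec_not _ _ _ _ h]

theorem coc_norm_nz (f : ℍ → ℂ) (τ : ℍ) : ‖nz f τ‖ = τ.im ^ (1 / 4 : ℝ) * ‖f τ‖ := by
  rw [nz, norm_mul, norm_real, Real.norm_of_nonneg (Real.rpow_nonneg τ.im_pos.le _)]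

theorem coc_nz_sl (f : ℍ → ℂ) (τ : ℍ) : ‖nz (sl f) τ‖ = ‖nz f (S • τ)‖ := by
  rw [nz_sl, norm_sop]

theorem coc_nz_aff (f : ℍ → ℂ) (x : ℝ) (τ : ℍ) :
    nz (fun w => f (aff 1 x w)) τ = nz f (aff 1 x τ) := by
  rw [nz, nz, aff_im one_pos, one_mul]

theorem coc_norm_gs (X : ℝ) (τ : ℍ) : ‖gs X τ‖ = Real.exp (-(π * X * τ.im)) := by
  rw [gs, norm_exp]
  simp

theorem coc_nz_gs (hX : 0 < X) (τ : ℍ) : ‖nz (gs X) τ‖ ≤ τ.im ^ (1 / 4 : ℝ) := by
  have := τ.im_pos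
  rw [coc_norm_nz, coc_norm_gs]
  refine mul_le_of_le_one_right (by positivity) (Real.exp_le_one_iff.2 ?_)
  rw [neg_nonpos]
  positivity

theorem coc_nz_gs' (hX : 0 < X) (τ : ℍ) : ‖nz (gs X) τ‖ ≤ 1 + (π * X)⁻¹ := by
  have hy := τ.im_pos
  have ha : 0 < π * X := by positivity
  rcases le_total τ.im 1 with h | h
  · exact ((coc_nz_gs hX τ).trans (Real.rpow_le_one hy.le h (by norm_num))).trans
      (le_add_of_nonneg_right (by positivity))
  · have h1 : τ.im ^ (1 / 4 : ℝ) ≤ τ.im := by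
      simpa using Real.rpow_le_rpow_of_exponent_le h (show (1 / 4 : ℝ) ≤ 1 by norm_num)
    have h2 := Real.add_one_le_exp (π * X * τ.im)
    rw [coc_norm_nz, coc_norm_gs, Real.exp_neg]
    refine le_trans ?_ (le_add_of_nonneg_left zero_le_one)
    rw [← div_eq_mul_inv, ← one_div, div_le_div_iff₀ (Real.exp_pos _) ha]
    nlinarith

theorem coc_nz_psi (X : ℝ) (τ : ℍ) : ‖nz (psi X) τ‖ ≤ ‖nz (gs X) τ‖ + ‖nz (gs X) (S • τ)‖ := by
  rw [← coc_nz_sl]
  refine le_trans (le_of_eq ?_) (norm_add_le _ _)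
  simp only [nz, psi, mul_add]

theorem coc_bd (hX : 0 < X) : ∃ C : ℝ, ∀ c d : ℤ, IsCoprime c d → Odd (c + d) → ∀ τ,
    ‖nz (cocKK X c d) τ‖ ≤ C * (|(c : ℝ)| + 1) := by
  have ha : 0 < π * X := by positivity
  refine ⟨2 * (1 + (π * X)⁻¹), fun c d h => ?_⟩
  refine coc_ind (P := fun c d => Odd (c + d) → ∀ τ,
    ‖nz (cocKK X c d) τ‖ ≤ 2 * (1 + (π * X)⁻¹) * (|(c : ℝ)| + 1)) (fun d _ τ => ?_)
    (fun c d hc hd h => ?_) (fun c d0 k hc h hlt ih ho τ => ?_) h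
  · rw [coc_kk_zero, coc_norm_nz]
    simp only [Pi.zero_apply, norm_zero, mul_zero]
    positivity
  · rw [Int.odd_iff] at hd h
    omega
  · have ho' : Odd (-d0 + c) := by
      have : -d0 + c = c + (d0 + 2 * c * k) + 2 * (-d0 - c * k) := by ring
      rw [this]
      exact ho.add_even (even_two_mul _)
    rw [coc_kk_step k hc h hlt]
    have e : nz (cocT k (cocF X (cocKK X (-d0) c))) τ = nz (psi X) (aff 1 (2 * k) τ) -
        nz (sl (cocKK X (-d0) c)) (aff 1 (2 * k) τ) := by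
      simp only [nz, cocT, cocF, aff_im one_pos, one_mul, mul_sub]
    rw [e]
    refine (norm_sub_le _ _).trans ?_
    rw [coc_nz_sl]
    have h1 := ih ho' (S • aff 1 (2 * k) τ)
    have h2 := coc_nz_psi X (aff 1 (2 * k) τ)
    have h3 := coc_nz_gs' hX (aff 1 (2 * k) τ)
    have h4 := coc_nz_gs' hX (S • aff 1 (2 * k) τ)
    have h5 : |((-d0 : ℤ) : ℝ)| + 1 ≤ |(c : ℝ)| := by
      have : |(-d0 : ℤ)| + 1 ≤ |c| := by
        rw [abs_neg, Int.abs_eq_natAbs, Int.abs_eq_natAbs]; omega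
      exact_mod_cast this
    have h6 := mul_le_mul_of_nonneg_left h5 (by positivity : 0 ≤ 2 * (1 + (π * X)⁻¹))
    linarith

theorem coc_ubd (hX : 0 < X) {δ : ℝ} (hδ : 0 < δ) :
    ∃ B, ∀ τ : ℍ, δ ≤ τ.im → ‖sl (fun w => cocKK X 1 (-1) (aff 1 1 w)) τ‖ ≤ B := by
  obtain ⟨C, -, hC⟩ := coc_norm_u hX
  refine ⟨C * (1 + δ ^ (-1 / 2 : ℝ)), fun τ hτ => ?_⟩
  rw [coc_kk_one, coc_sl_x]
  exact hC τ τ.im_pos _ (by positivity) fun i _ => coc_norm_k_im hX hδ hτ i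

end

end Pool.Agent.Lib.MP_e6abdd_an
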