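import Pool.Agent.Lib.MP_e6abdd_an.MultA

/-!
The theta multiplier on `Γ(2)`.
-/

namespace Pool.Agent.Lib.MP_e6abdd_an

open Complex hiding Gamma
open UpperHalfPlane hiding I
open MeasureTheory Filter Topology CongruenceSubgroup
open scoped Real MatrixGroups ComplexConjugate

open ModularGroup (S T)

theorem arg_pos_of_im {z : ℂ} (h : 0 < z.im) : 0 < arg z ∧ arg z < π :=
  ⟨lt_of_le_of_ne (arg_nonneg_iff.2 h.le) fun e => by
    have := (arg_eq_zero_iff.1 e.symm).2; linarith, arg_lt_pi_iff.2 (Or.inr h.ne')⟩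

theorem abs_arg_lt_of_re {z : ℂ} (h : 0 < z.re) : -(π / 2) < arg z ∧ arg z < π / 2 :=
  abs_lt.1 (abs_arg_lt_pi_div_two_iff.2 (Or.inl h))

theorem ph_neg {z : ℂ} (h : 0 < z.im) (j : ℤ) : ph (4 * j + 1) (-z) = -I * ph (4 * j + 1) z := by
  rw [ph, ph, arg_neg_eq_arg_sub_pi_of_im_pos h]
  have : -I = cexp (-(π / 2 * I) + (-j : ℤ) * (2 * π * I)) := by
    rw [exp_add, exp_int_mul_two_pi_mul_I, exp_neg, exp_pi_div_two_mul_I]; simp
  rw [this, ← exp_add]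
  congr 1
  push_cast; ring

theorem jac_sq {a : ℤ} {d : ℤ} (h : IsCoprime a d) : jacobiSym a d.natAbs ^ 2 = 1 :=
  jacobiSym.sq_one (by
    rw [Int.isCoprime_iff_gcd_eq_one] at h
    simpa [Int.gcd, Int.natAbs_abs] using h)

theorem norm_nu {c d : ℤ} (h : IsCoprime c d) (hc : Even c) : ‖nu c d‖ = 1 := by
  obtain ⟨k, rfl⟩ := hc
  have hd := odd_of_coprime h ⟨k, rfl⟩
  have h1 : IsCoprime (d.sign * ((k + k) / 2)) d := by
    rw [show (k + k) / 2 = k by omega]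
    have h2 : IsCoprime k d := by rw [← two_mul] at h; exact h.of_mul_left_right
    have hd0 : d ≠ 0 := by rintro rfl; exact absurd hd (by decide)
    rcases lt_or_gt_of_ne hd0 with h0 | h0
    · simpa [Int.sign_eq_neg_one_of_neg h0, IsCoprime.neg_left_iff] using h2
    · simpa [Int.sign_eq_one_of_pos h0] using h2
  rw [nu, norm_mul]
  rcases sq_eq_one_iff.1 (jac_sq h1) with e | e <;> rw [e] <;> split_ifs <;> simp

theorem norm_JJ (j : ℤ) {c d : ℤ} (h : IsCoprime c d) (hc : Even c) (τ : ℍ) :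
    ‖JJ j c d τ‖ = 1 := by
  rw [JJ, norm_mul, norm_nu h hc, norm_ph, one_mul]

theorem norm_JJ' (j : ℤ) {γ : SL(2, ℤ)} (h : γ ∈ Gamma 2) (τ : ℍ) :
    ‖JJ j (γ 1 0) (γ 1 1) τ‖ = 1 :=
  norm_JJ j (coprime_row γ) (mem_gamma2.1 h).2 τ

theorem JJ_mul_conj (j : ℤ) {γ : SL(2, ℤ)} (h : γ ∈ Gamma 2) (τ : ℍ) :
    JJ j (γ 1 0) (γ 1 1) τ * conj (JJ j (γ 1 0) (γ 1 1) τ) = 1 := by
  rw [mul_conj, normSq_eq_norm_sq, norm_JJ' j h]; simp

theorem continuous_ph {X : Type} [TopologicalSpace X] {f : X → ℂ} (hf : Continuous f)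
    (h : ∀ x, f x ∈ slitPlane) (w : ℤ) : Continuous fun x => ph w (f x) := by
  have : Continuous fun x => arg (f x) :=
    continuous_iff_continuousAt.2 fun x => (continuousAt_arg (h x)).comp hf.continuousAt
  unfold ph
  fun_prop

theorem sign_slit (c : ℤ) {d : ℤ} (hd : d ≠ 0) (τ : ℍ) :
    (d.sign * (c * (τ : ℂ) + d)) ∈ slitPlane := by
  have hs : (d.sign : ℝ) ≠ 0 := by simpa using hd
  by_cases hc : c = 0
  · left
    have : (0 : ℝ) < d.sign * d := by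
      exact_mod_cast (Int.sign_mul_self_eq_natAbs d ▸ by omega : 0 < d.sign * d)
    simpa [hc] using this
  · right
    simp [hs, hc, τ.im_ne_zero]

theorem continuous_JJ (j c : ℤ) {d : ℤ} (hd : d ≠ 0) : Continuous (JJ j c d) :=
  continuous_const.mul (continuous_ph (by fun_prop) (sign_slit c hd) _)

theorem ph_eq (j : ℤ) (z : ℂ) : ph (4 * j + 1) z = ph 1 z * cexp (I * arg z) ^ (2 * j) := by
  rw [ph, ph, ← exp_int_mul, ← exp_add]
  congr 1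
  push_cast; ring

theorem JJ_eq (j : ℤ) {c d : ℤ} (hd : d ≠ 0) (τ : ℍ) :
    JJ j c d τ = JJ 0 c d τ * cexp (I * (2 * j * arg (c * (τ : ℂ) + d))) := by
  have h := slitPlane_ne_zero (sign_slit c hd τ)
  have e : cexp (I * (2 * j * arg (c * (τ : ℂ) + d))) =
      cexp (I * arg (c * (τ : ℂ) + d)) ^ (2 * j) := by
    rw [← exp_int_mul]; congr 1; push_cast; ring
  rw [JJ, JJ, ph_eq, e, exp_arg h, exp_arg (right_ne_zero_of_mul h), mul_zero, zero_add, mul_assoc]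
  rcases lt_or_gt_of_ne hd with h0 | h0
  · simp only [Int.sign_eq_neg_one_of_neg h0, Int.cast_neg, Int.cast_one, neg_one_mul, norm_neg,
      neg_div, (even_two_mul j).neg_zpow]
  · simp only [Int.sign_eq_one_of_pos h0, Int.cast_one, one_mul]

theorem JJ_eq' (j : ℤ) {γ : SL(2, ℤ)} (h : γ ∈ Gamma 2) (τ : ℍ) : JJ j (γ 1 0) (γ 1 1) τ =
    JJ 0 (γ 1 0) (γ 1 1) τ * cexp (I * (2 * j * arg (γ 1 0 * (τ : ℂ) + γ 1 1))) :=
  JJ_eq j (ne_of_gamma2 h) τ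

theorem JJ_zero_one (j : ℤ) (τ : ℍ) : JJ j 0 1 τ = 1 := by
  simp [JJ, nu, ph]

theorem nu_neg {c : ℤ} (hc : Even c) (d : ℤ) : nu (-c) (-d) = nu c d := by
  obtain ⟨k, rfl⟩ := hc
  rw [nu, nu, show -(k + k) / 2 = -k by omega, show (k + k) / 2 = k by omega]
  simp

theorem JJ_neg (j : ℤ) {c : ℤ} (hc : Even c) (d : ℤ) (τ : ℍ) :
    JJ j (-c) (-d) τ = JJ j c d τ := by
  rw [JJ, JJ, nu_neg hc]
  congr 2
  simp only [Int.sign_neg]; push_cast; ring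

/-- The constant part of the factor of automorphy. -/
noncomputable def sc (c d : ℤ) : ℂ := nu c d * (if 0 < c * d then 1 else -I)

theorem JJ_sc (j : ℤ) {c d : ℤ} (hc : c ≠ 0) (hd : d ≠ 0) (τ : ℍ) :
    JJ j c d τ = sc c d * ph (4 * j + 1) (τ + d / c) := by
  have hc' : (c : ℂ) ≠ 0 := by exact_mod_cast hc
  have him : 0 < ((τ : ℂ) + d / c).im := by
    rw [add_im, show ((d : ℂ) / c) = ((d / c : ℝ) : ℂ) by push_cast; rfl, ofReal_im, add_zero]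
    exact τ.im_pos
  have e : (d.sign * (c * (τ : ℂ) + d)) = ((d.sign * c : ℤ) : ℝ) * ((τ : ℂ) + d / c) := by
    push_cast; field_simp
  rw [JJ, sc, e, mul_assoc]
  congr 1
  split_ifs with h
  · rw [ph_pos_mul, one_mul]
    have : 0 < d.sign * c := by
      rcases lt_or_gt_of_ne hd with h0 | h0
      · rw [Int.sign_eq_neg_one_of_neg h0]; nlinarith
      · rw [Int.sign_eq_one_of_pos h0]; nlinarith
    exact_mod_cast this
  · have h' : c * d < 0 := lt_of_le_of_ne (not_lt.1 h) (mul_ne_zero hc hd)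
    have : 0 < -(d.sign * c) := by
      rcases lt_or_gt_of_ne hd with h0 | h0
      · rw [Int.sign_eq_neg_one_of_neg h0]; nlinarith
      · rw [Int.sign_eq_one_of_pos h0]; nlinarith
    rw [← ph_neg him, ← ph_pos_mul (r := ((-(d.sign * c) : ℤ) : ℝ)) (by exact_mod_cast this) _
      (-((τ : ℂ) + d / c))]
    congr 1
    push_cast; ring

theorem sc_pos {k d : ℤ} (hk : 0 < k) (hd : Odd d) :
    sc (2 * k) d = (jacobiSym k d.natAbs : ℤ) * (if d % 4 = 1 then 1 else -I) := by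
  have hd0 : d ≠ 0 := by rintro rfl; exact absurd hd (by decide)
  obtain ⟨l, hl⟩ := hd
  rw [sc, nu, show 2 * k / 2 = k by omega]
  rcases lt_or_gt_of_ne hd0 with h0 | h0
  · rw [Int.sign_eq_neg_one_of_neg h0, neg_one_mul, if_neg (show ¬ 0 < 2 * k * d by nlinarith),
      jacobiSym.neg _ (Int.natAbs_odd.2 ⟨l, hl⟩)]
    by_cases h : d.natAbs % 4 = 1
    · rw [if_pos h, if_neg (by omega), ZMod.χ₄_nat_one_mod_four h]; simp
    · rw [if_neg h, if_pos (by omega), ZMod.χ₄_nat_three_mod_four (by omega)]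
      push_cast; linear_combination (-(jacobiSym k d.natAbs : ℂ)) * I_mul_I
  · rw [Int.sign_eq_one_of_pos h0, one_mul, if_pos (show 0 < 2 * k * d by positivity), mul_one]
    congr 1
    exact if_congr (by omega) rfl rfl

theorem sc_neg {c : ℤ} (hc : Even c) (d : ℤ) : sc (-c) (-d) = sc c d := by
  rw [sc, sc, nu_neg hc, neg_mul_neg]

theorem sc_shift {K e d d' : ℤ} (he : e ≠ 0) (hd : Odd d) (h1 : IsCoprime K d) (h2 : IsCoprime K d')
    (hK : K ≠ 0) (h : 4 * e ∣ d' - d) : sc (2 * (K ^ 2 * e)) d' = sc (2 * (K ^ 2 * e)) d := by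
  wlog h0 : 0 < e generalizing e d d'
  · have := this (e := -e) (d := -d) (d' := -d') (by omega) hd.neg h1.neg_right h2.neg_right
      (by rw [mul_neg, neg_dvd, ← dvd_neg, show -(-d' - -d) = d' - d by ring]; exact h) (by omega)
    rwa [mul_neg, mul_neg, sc_neg (even_two_mul _), sc_neg (even_two_mul _)] at this
  have hd' : Odd d' := by
    obtain ⟨k, hk⟩ := h
    have : d' = 2 * (2 * e * k) + d := by linarith
    rw [this]; exact (even_two_mul _).add_odd hd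
  have hp : 0 < K ^ 2 * e := by positivity
  rw [sc_pos hp hd, sc_pos hp hd', jacobiSym.mul_left, jacobiSym.mul_left, jacobiSym.pow_left,
    jacobiSym.pow_left, jac_sq h1, jac_sq h2]
  obtain ⟨n, rfl⟩ := Int.eq_ofNat_of_zero_le h0.le
  rw [jac_periodic (by exact_mod_cast h0) hd h]
  congr 1
  obtain ⟨k, hk⟩ := h
  have : d' = d + 4 * (n * k) := by linarith
  exact if_congr (by omega) rfl rfl

theorem JJ_c_zero (j d : ℤ) (τ τ' : ℍ) : JJ j 0 d τ = JJ j 0 d τ' := by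
  simp [JJ]

theorem JJ_shift (j : ℤ) {K e d d' : ℤ} (hd : Odd d) (h1 : IsCoprime K d) (h2 : IsCoprime K d')
    (hK : K ≠ 0) (h : 4 * e ∣ d' - d) {τ τ' : ℍ}
    (hτ : (2 * (K ^ 2 * e) : ℤ) * (τ' : ℂ) + d' = (2 * (K ^ 2 * e) : ℤ) * (τ : ℂ) + d) :
    JJ j (2 * (K ^ 2 * e)) d' τ' = JJ j (2 * (K ^ 2 * e)) d τ := by
  by_cases he : e = 0
  · subst he
    have : d' = d := by simpa [sub_eq_zero] using h
    subst this
    simpa using JJ_c_zero j d' τ' τ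
  have hd' : Odd d' := by
    obtain ⟨k, hk⟩ := h
    have : d' = 2 * (2 * e * k) + d := by linarith
    rw [this]; exact (even_two_mul _).add_odd hd
  have hc : 2 * (K ^ 2 * e) ≠ 0 := by positivity
  have hc' : ((2 * (K ^ 2 * e) : ℤ) : ℂ) ≠ 0 := by exact_mod_cast hc
  rw [JJ_sc j hc (by rintro rfl; exact absurd hd' (by decide)),
    JJ_sc j hc (by rintro rfl; exact absurd hd (by decide)), sc_shift he hd h1 h2 hK h]
  congr 2
  field_simp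
  linear_combination hτ

theorem JJ_add (j : ℤ) {c d : ℤ} (hc : Even c) (hd : Odd d) (n : ℤ) (τ : ℍ) :
    JJ j c (d + 2 * n * c) τ = JJ j c d (aff 1 (2 * n) τ) := by
  obtain ⟨k, rfl⟩ := hc
  have := JJ_shift j (K := 1) (e := k) (d := d) (d' := d + 2 * n * (k + k)) hd isCoprime_one_left
    isCoprime_one_left one_ne_zero ⟨n, by ring⟩ (τ := aff 1 (2 * n) τ) (τ' := τ)
    (by rw [coe_aff one_pos]; push_cast; ring)
  rwa [one_pow, one_mul, two_mul k] at this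

theorem JJ_const (j : ℤ) : ∃ s : ℤ → ℤ → ℂ, (∀ c d, c ≠ 0 → d ≠ 0 → ∀ τ : ℍ,
    JJ j c d τ = s c d * ph (4 * j + 1) (τ + d / c)) ∧
    ∀ c d, c ≠ 0 → Even c → Odd d → s c (d + 2 * c) = s c d := by
  refine ⟨sc, fun c d hc hd τ => JJ_sc j hc hd τ, ?_⟩
  rintro c d hc ⟨k, rfl⟩ hd
  have := sc_shift (K := 1) (e := k) (d := d) (d' := d + 2 * (k + k)) (by omega) hd
    isCoprime_one_left isCoprime_one_left one_ne_zero ⟨1, by ring⟩
  rwa [one_pow, one_mul, two_mul k] at this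

theorem coe_U2_smul (τ : ℍ) : ((U2 • τ : ℍ) : ℂ) = τ / (2 * τ + 1) := by
  rw [coe_SL_smul]; simp [U2]

theorem two_mul_add_ne (τ : ℍ) : (2 * τ + 1 : ℂ) ≠ 0 := by
  simpa using denom_ne (c := 2) (d := 1) isCoprime_one_right τ

theorem JJ_two_one (j : ℤ) (τ : ℍ) : JJ j 2 1 τ = ph (4 * j + 1) (2 * τ + 1) := by
  simp [JJ, nu]

theorem JJ_U2_step (j : ℤ) {c d : ℤ} (hc : Even c) (hd : d ≠ 0) (τ : ℍ) :
    JJ j (c + d * 2) d τ = JJ j c d (U2 • τ) * JJ j 2 1 τ := by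
  wlog h0 : 0 < d generalizing c d
  · have := this (c := -c) (d := -d) hc.neg (by omega) (by omega)
    rwa [JJ_neg j hc, show -c + -d * 2 = -(c + d * 2) by ring,
      JJ_neg j (hc.add (even_two.mul_left d))] at this
  have hn : nu (c + d * 2) d = nu c d := by
    rw [nu, nu, Int.sign_eq_one_of_pos h0, one_mul, one_mul, show (c + d * 2) / 2 = c / 2 + d by omega]
    congr 2
    exact jacobiSym.mod_left' (by rw [Int.natCast_natAbs, abs_of_pos h0]; simp)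
  have hA := slitPlane_ne_zero (sign_slit c hd (U2 • τ))
  have hB := two_mul_add_ne τ
  have e : ((c + d * 2 : ℤ) * (τ : ℂ) + d) = (c * (U2 • τ : ℍ) + d) * (2 * τ + 1) := by
    rw [coe_U2_smul]; push_cast; field_simp; ring
  rw [JJ_two_one, JJ, JJ, hn, mul_assoc, e]
  simp only [Int.sign_eq_one_of_pos h0, Int.cast_one, one_mul] at hA ⊢
  rw [ph_mul]
  apply arg_mul_of_lt hA hB
  have h1 := arg_pos_of_im (z := 2 * τ + 1) (by simpa using τ.im_pos)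
  have h2 := neg_pi_lt_arg (c * (U2 • τ : ℍ) + d)
  have h3 := neg_pi_lt_arg ((c * (U2 • τ : ℍ) + d) * (2 * τ + 1))
  have h4 := arg_le_pi ((c * (U2 • τ : ℍ) + d) * (2 * τ + 1))
  rcases lt_trichotomy c 0 with h | h | h
  · have : arg (c * (U2 • τ : ℍ) + d) < 0 := arg_neg_iff.2 (by
      simpa using mul_neg_of_neg_of_pos (by exact_mod_cast h : (c : ℝ) < 0) (U2 • τ).im_pos)
    rw [abs_lt]; constructor <;> linarith
  · have : arg (c * (U2 • τ : ℍ) + d) = 0 := by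
      rw [h]; simpa using arg_ofReal_of_nonneg (by exact_mod_cast h0.le : (0 : ℝ) ≤ d)
    rw [abs_lt]; constructor <;> linarith
  · have h5 := arg_pos_of_im (z := c * (U2 • τ : ℍ) + d) (by
      simpa using mul_pos (by exact_mod_cast h : (0 : ℝ) < c) (U2 • τ).im_pos)
    have h6 := arg_pos_of_im (z := (c * (U2 • τ : ℍ) + d) * (2 * τ + 1)) (by
      rw [← e]
      simpa using mul_pos (by exact_mod_cast (by omega : 0 < c + d * 2) : (0 : ℝ) < c + d * 2)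
        τ.im_pos)
    rw [abs_lt]; constructor <;> linarith

theorem T_sq_smul (τ : ℍ) : T ^ 2 • τ = aff 1 2 τ := by
  have := T_zpow_smul 2 τ
  rwa [zpow_ofNat, Int.cast_ofNat] at this

theorem JJ_mul (j : ℤ) {γ γ' : SL(2, ℤ)} (h : γ ∈ Gamma 2) (h' : γ' ∈ Gamma 2) (τ : ℍ) :
    JJ j ((γ * γ') 1 0) ((γ * γ') 1 1) τ =
      JJ j (γ 1 0) (γ 1 1) (γ' • τ) * JJ j (γ' 1 0) (γ' 1 1) τ := by
  refine gamma2_induction (P := fun γ' => ∀ γ ∈ Gamma 2, ∀ τ : ℍ,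
    JJ j ((γ * γ') 1 0) ((γ * γ') 1 1) τ =
      JJ j (γ 1 0) (γ 1 1) (γ' • τ) * JJ j (γ' 1 0) (γ' 1 1) τ) ?_ ?_ ?_ ?_ ?_ γ' h' γ h τ
  · intro γ h τ
    have := JJ_neg j (c := 0) ⟨0, rfl⟩ 1 τ
    rw [JJ_zero_one, neg_zero] at this
    rw [ModularGroup.SL_neg_smul, one_smul]
    simp [JJ_neg j (mem_gamma2.1 h).2, this]
  · intro γ h τ
    have := JJ_add j (mem_gamma2.1 h).2 (odd_of_gamma2 h) 1 τ
    rw [T_sq_smul, T_sq_apply, SL_mul_apply, SL_mul_apply]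
    simpa [JJ_zero_one, add_comm, mul_comm] using this
  · intro γ h τ
    have := JJ_U2_step j (mem_gamma2.1 h).2 (ne_of_gamma2 h) τ
    rw [SL_mul_apply, SL_mul_apply]
    simpa [U2] using this
  · intro δ hδ δ' hδ' ih ih' γ h τ
    rw [← mul_assoc, ih' _ (mul_mem h hδ), ih _ h, ih' _ hδ, mul_smul, mul_assoc]
  · intro δ hδ ih γ h τ
    have e1 := ih _ (mul_mem h (inv_mem hδ)) (δ⁻¹ • τ)
    have e2 := ih _ (inv_mem hδ) (δ⁻¹ • τ)
    rw [inv_mul_cancel_right, smul_inv_smul] at e1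
    rw [inv_mul_cancel, smul_inv_smul] at e2
    have e3 : JJ j ((1 : SL(2, ℤ)) 1 0) ((1 : SL(2, ℤ)) 1 1) (δ⁻¹ • τ) = 1 := by
      simpa using JJ_zero_one j _
    rw [e1]
    linear_combination (JJ j ((γ * δ⁻¹) 1 0) ((γ * δ⁻¹) 1 1) τ) * (e3.symm.trans e2)

theorem S_S_smul (τ : ℍ) : S • S • τ = τ := by
  rw [← mul_smul, S_sq, ModularGroup.SL_neg_smul, one_smul]

theorem U2_smul (τ : ℍ) : U2 • τ = S • aff 1 (-2) (S • τ) := by
  apply UpperHalfPlane.ext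
  have h1 := τ.ne_zero
  have h2 := two_mul_add_ne τ
  rw [coe_U2_smul, coe_S_smul, coe_aff one_pos, coe_S_smul]
  push_cast
  rw [show (1 * (-1 / τ) + -2 : ℂ) = -(2 * τ + 1) / τ by field_simp; ring]
  field_simp

theorem re_neg_I_mul (τ : ℍ) : 0 < (-I * τ).re := by
  simpa using τ.im_pos

theorem neg_I_mul_ne (τ : ℍ) : (-I * τ) ≠ 0 := mul_ne_zero (by simp) τ.ne_zero

theorem JJ_U2 (j : ℤ) (τ : ℍ) : JJ j 2 1 τ =
    ph (4 * j + 1) (-I * aff 1 (-2) (S • τ)) * ph (4 * j + 1) (-I * τ) := by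
  have e : (-I * aff 1 (-2) (S • τ)) * (-I * τ) = 2 * τ + 1 := by
    have h1 := τ.ne_zero
    rw [coe_aff one_pos, coe_S_smul]
    push_cast; field_simp
    linear_combination (-1 - 2 * (τ : ℂ)) * I_sq
  rw [JJ_two_one, ← ph_mul, e]
  apply arg_mul_of_lt (neg_I_mul_ne _) (neg_I_mul_ne _)
  have h1 := abs_arg_lt_of_re (re_neg_I_mul τ)
  have h2 := abs_arg_lt_of_re (re_neg_I_mul (aff 1 (-2) (S • τ)))
  have h3 := neg_pi_lt_arg ((-I * aff 1 (-2) (S • τ)) * (-I * τ))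
  have h4 := arg_le_pi ((-I * aff 1 (-2) (S • τ)) * (-I * τ))
  rw [abs_lt]; constructor <;> linarith

theorem JJ_scale (j : ℤ) {K c d : ℤ} (hc : Even c) {τ τ' : ℍ} (hτ : (τ' : ℂ) = K * τ) :
    JJ j (K * c) d τ = (jacobiSym K d.natAbs : ℤ) * JJ j c d τ' := by
  obtain ⟨k, rfl⟩ := hc
  rw [JJ, JJ, nu, nu, show (k + k) / 2 = k by omega, show K * (k + k) = 2 * (K * k) by ring,
    Int.mul_ediv_cancel_left _ two_ne_zero, show d.sign * (K * k) = K * (d.sign * k) by ring,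
    jacobiSym.mul_left, hτ]
  push_cast
  rw [show (2 * (K * k) * τ + d : ℂ) = (k + k) * (K * τ) + d by ring]
  ring

theorem JJ_sq (j : ℤ) {K c d : ℤ} (hc : Even c) (h : IsCoprime K d) {τ τ' : ℍ}
    (hτ : (τ' : ℂ) = K ^ 2 * τ) : JJ j (K ^ 2 * c) d τ = JJ j c d τ' := by
  rw [JJ_scale j hc (τ' := τ') (by rw [hτ]; push_cast; rfl), jacobiSym.pow_left, jac_sq h]
  simp

theorem JJ_twist {D : ℕ} (hD : 0 < D) {c d : ℤ} (_hd : Odd d) (hc : (2 * D : ℤ) ∣ c)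
    (h : IsCoprime c d) (τ : ℍ) :
    JJ 0 (c / D) d (aff D 0 τ) = (jacobiSym D d.natAbs : ℤ) * JJ 0 c d τ := by
  obtain ⟨k, rfl⟩ := hc
  have hD' : (D : ℤ) ≠ 0 := by omega
  have h1 : IsCoprime (D : ℤ) d := h.of_mul_left_left.of_mul_left_right
  rw [show 2 * D * k = D * (2 * k) by ring, Int.mul_ediv_cancel_left _ hD',
    JJ_scale 0 (even_two_mul k) (τ' := aff D 0 τ) (by
      rw [coe_aff (by exact_mod_cast hD)]; simp), ← mul_assoc, ← Int.cast_mul, ← sq, jac_sq h1]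
  simp

theorem neg_I_mul_S (τ : ℍ) : -I * (S • τ : ℍ) = (-I * τ)⁻¹ := by
  rw [coe_S_smul]
  have := τ.ne_zero
  field_simp
  simp

theorem ph_S (w : ℤ) (τ : ℍ) : ph w (-I * (S • τ : ℍ)) = conj (ph w (-I * τ)) := by
  have h := (abs_arg_lt_of_re (re_neg_I_mul τ)).2
  rw [neg_I_mul_S, ph, ph, arg_inv, if_neg (by linarith [Real.pi_pos]), ← exp_conj]
  congr 1
  simp [map_ofNat]
  ring

theorem continuous_ph_S (w : ℤ) : Continuous fun τ : ℍ => ph w (-I * τ) :=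
  continuous_ph (by fun_prop) (fun τ => Or.inl (re_neg_I_mul τ)) w

theorem sop_S (j : ℤ) (f : ℍ → ℂ) (τ : ℍ) : sop j f (S • τ) = ph (4 * j + 1) (-I * τ) * f τ := by
  rw [sop, ph_S, conj_conj, S_S_smul]

theorem sop_sop (j : ℤ) (f : ℍ → ℂ) : sop j (sop j f) = f := by
  funext τ
  rw [sop, sop_S, ← mul_assoc, mul_comm (conj _), ph_mul_conj, one_mul]

theorem norm_sop (j : ℤ) (f : ℍ → ℂ) (τ : ℍ) : ‖sop j f τ‖ = ‖f (S • τ)‖ := by
  rw [sop, norm_mul, RCLike.norm_conj, norm_ph, one_mul]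

theorem nz_sl (f : ℍ → ℂ) : nz (sl f) = sop 0 (nz f) := by
  funext τ
  have h0 : 0 < ‖(τ : ℂ)‖ := norm_pos_iff.2 τ.ne_zero
  have h1 : (S • τ).im = τ.im / ‖(τ : ℂ)‖ ^ 2 := by
    rw [im_SL_smul, hgt, ← normSq_eq_norm_sq]; simp [S]
  have h2 : (-I * τ) ^ (-1 / 2 : ℂ) =
      ((‖(τ : ℂ)‖ ^ 2) ^ (1 / 4 : ℝ) : ℝ)⁻¹ * conj (ph (4 * 0 + 1) (-I * τ)) := by
    rw [cpow_def_of_ne_zero (neg_I_mul_ne τ), ph, ← exp_conj, ← Real.rpow_natCast,
      ← Real.rpow_mul h0.le, Real.rpow_def_of_pos h0, ofReal_inv, ofReal_exp, ← exp_neg, ← exp_add, Complex.log]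
    congr 1
    simp [map_ofNat]
    ring
  rw [nz, sl, sop, nz, h1, h2, Real.div_rpow τ.im_pos.le (by positivity)]
  push_cast; ring

theorem nz_inj {f g : ℍ → ℂ} {τ : ℍ} (h : nz f τ = nz g τ) : f τ = g τ :=
  mul_left_cancel₀ (ofReal_ne_zero.2 (Real.rpow_pos_of_pos τ.im_pos _).ne') h

theorem sl_sl (f : ℍ → ℂ) : sl (sl f) = f :=
  funext fun τ => nz_inj (by rw [nz_sl, nz_sl, sop_sop])

theorem continuous_SL (γ : SL(2, ℤ)) : Continuous fun τ : ℍ => γ • τ :=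
  continuous_const_smul (Matrix.SpecialLinearGroup.mapGL ℝ γ)

theorem BC.sop {f : ℍ → ℂ} (h : BC f) (j : ℤ) : BC (sop j f) := by
  obtain ⟨B, hB⟩ := h.bdd
  exact ⟨(continuous_conj.comp (continuous_ph_S _)).mul (h.cont.comp (continuous_SL S)), B,
    fun τ => (norm_sop j f τ).trans_le (hB _)⟩

theorem BC.aff {f : ℍ → ℂ} (h : BC f) {r : ℝ} (hr : 0 < r) (x : ℝ) :
    BC fun τ => f (aff r x τ) := by
  obtain ⟨B, hB⟩ := h.bdd
  exact ⟨h.cont.comp (continuous_aff hr x), B, fun τ => hB _⟩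

theorem per_neg {f : ℍ → ℂ} {P : ℝ} (h : ∀ τ, f (aff 1 P τ) = f τ) (τ : ℍ) :
    f (aff 1 (-P) τ) = f τ := by
  rw [← h, aff_aff one_pos one_pos]; simp [aff_one_zero]

theorem aut_of_gen {j : ℤ} {f : ℍ → ℂ} (h1 : ∀ τ, f (aff 1 2 τ) = f τ)
    (h2 : ∀ τ, sop j f (aff 1 2 τ) = sop j f τ) : Aut j 1 f := by
  refine gamma2_induction (P := fun γ => ∀ τ : ℍ, f (γ • τ) = JJ j (γ 1 0) (γ 1 1) τ * f τ)
    ?_ ?_ ?_ ?_ ?_
  · intro τ
    have := JJ_neg j (c := 0) ⟨0, rfl⟩ 1 τ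
    rw [JJ_zero_one, neg_zero] at this
    rw [ModularGroup.SL_neg_smul, one_smul]
    simp [this]
  · intro τ
    rw [T_sq_smul, T_sq_apply, h1]; simp [JJ_zero_one]
  · intro τ
    have e := per_neg h2 (S • τ)
    rw [sop_S, sop, ← U2_smul] at e
    have := ph_mul_conj (4 * j + 1) (-I * aff 1 (-2) (S • τ))
    rw [show JJ j (U2 1 0) (U2 1 1) τ = JJ j 2 1 τ from rfl, JJ_U2, mul_assoc, ← e, ← mul_assoc,
      this, one_mul]
  · intro γ hγ δ hδ ih ih' τ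
    rw [mul_smul, ih, ih', JJ_mul j hγ hδ, mul_assoc]
  · intro γ hγ ih τ
    have e1 := ih (γ⁻¹ • τ)
    have e2 := JJ_mul j (inv_mem hγ) hγ (γ⁻¹ • τ)
    rw [smul_inv_smul] at e1
    rw [inv_mul_cancel, smul_inv_smul] at e2
    have e3 : JJ j ((1 : SL(2, ℤ)) 1 0) ((1 : SL(2, ℤ)) 1 1) (γ⁻¹ • τ) = 1 := by
      simpa using JJ_zero_one j _
    rw [e1, ← mul_assoc, ← e2, e3, one_mul]

variable {j : ℤ} {M : ℕ} {f g : ℍ → ℂ}

theorem Aut.per (h : Aut j 1 f) (τ : ℍ) : f (aff 1 2 τ) = f τ := by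
  have := h _ T_sq_mem τ
  rw [T_sq_smul, T_sq_apply] at this
  simpa [JJ_zero_one] using this

theorem Aut.sop (h : Aut j 1 f) : Aut j 1 (sop j f) := by
  refine aut_of_gen (fun τ => ?_) (by rw [sop_sop]; exact h.per)
  have key : ∀ τ : ℍ, MP_e6abdd_an.sop j f (aff 1 (-2) τ) = MP_e6abdd_an.sop j f τ := fun τ => by
    obtain ⟨σ, rfl⟩ : ∃ σ, τ = S • σ := ⟨S • τ, (S_S_smul τ).symm⟩
    rw [sop_S, MP_e6abdd_an.sop, ← U2_smul, h _ U2_mem,
      show JJ j (U2 1 0) (U2 1 1) σ = JJ j 2 1 σ from rfl, JJ_U2]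
    linear_combination (ph (4 * j + 1) (-I * σ) * f σ) *
      ph_mul_conj (4 * j + 1) (-I * aff 1 (-2) (S • σ))
  simpa using per_neg key τ

theorem Aut.mono (h : Aut j M f) {M' : ℕ} (hM : M ∣ M') : Aut j M' f :=
  fun γ hγ => h γ (gamma_le (mul_dvd_mul_left 2 hM) hγ)

theorem mem2_of_mem {γ : SL(2, ℤ)} (h : γ ∈ Gamma (2 * M)) : γ ∈ Gamma 2 :=
  gamma_le (dvd_mul_right 2 M) h

theorem smul_eq_iff {γ : SL(2, ℤ)} {τ σ : ℍ} : σ = γ • τ ↔
    (σ : ℂ) * (γ 1 0 * (τ : ℂ) + γ 1 1) = γ 0 0 * (τ : ℂ) + γ 0 1 := by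
  rw [UpperHalfPlane.ext_iff, coe_SL_smul, eq_div_iff (denom_ne (coprime_row γ) τ)]

theorem smul_mul_denom (γ : SL(2, ℤ)) (τ : ℍ) :
    ((γ • τ : ℍ) : ℂ) * (γ 1 0 * (τ : ℂ) + γ 1 1) = γ 0 0 * (τ : ℂ) + γ 0 1 :=
  smul_eq_iff.1 rfl

theorem Aut.trans (h : Aut j M f) {K : ℕ} (hK : 0 < K) (i : ℤ) :
    Aut j (M * K ^ 2) fun τ => f (aff 1 (2 * i / K) τ) := by
  intro γ hγ τ
  have hdet := det_SL γ
  have hs := smul_mul_denom γ τ
  have ho := odd_of_gamma2 (mem2_of_mem hγ)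
  obtain ⟨⟨a, ha⟩, ⟨b, hb⟩, ⟨c, hc⟩, ⟨d, hd⟩⟩ := mem_gamma.1 hγ
  rw [sub_eq_iff_eq_add] at ha hd
  push_cast at ha hb hc hd
  have hK' : (K : ℂ) ≠ 0 := by exact_mod_cast hK.ne'
  let δ := mkSL (γ 0 0 + 4 * i * M * K * c) (γ 0 1 + 4 * i * M * K * (d - a) - 8 * i ^ 2 * M * c)
    (γ 1 0) (γ 1 1 - 4 * i * M * K * c) (by rw [ha, hc, hd] at hdet ⊢; linear_combination hdet)
  have hδ : δ ∈ Gamma (2 * M) := by
    rw [mem_gamma]
    simp only [δ, mkSL_00, mkSL_01, mkSL_10, mkSL_11, ha, hb, hc, hd]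
    push_cast
    exact ⟨⟨K ^ 2 * a + 2 * i * K * c, by ring⟩,
      ⟨K ^ 2 * b + 2 * i * K * (d - a) - 4 * i ^ 2 * c, by ring⟩, ⟨K ^ 2 * c, by ring⟩,
      ⟨K ^ 2 * d - 2 * i * K * c, by ring⟩⟩
  have e : aff 1 (2 * i / K) (γ • τ) = δ • aff 1 (2 * i / K) τ := by
    rw [smul_eq_iff, coe_aff one_pos, coe_aff one_pos]
    simp only [δ, mkSL_00, mkSL_01, mkSL_10, mkSL_11]
    rw [ha, hc, hd] at hs ⊢
    push_cast at hs ⊢
    field_simp
    linear_combination (K : ℂ) * hs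
  have hc' : γ 1 0 = 2 * (K ^ 2 * (M * c)) := by rw [hc]; ring
  have hco : ∀ e : ℤ, IsCoprime (K : ℤ) (1 + K * e) := fun e => ⟨-e, 1, by ring⟩
  simp only [e, h δ hδ, δ, mkSL_10, mkSL_11]
  congr 1
  rw [hc']
  refine JJ_shift j ho (by convert hco (2 * M * K * d) using 1; rw [hd]; ring)
    (by convert hco (2 * M * K * d - 4 * i * M * c) using 1; rw [hd]; ring) (by omega)
    ⟨-(i * K), by ring⟩ ?_
  rw [coe_aff one_pos]; push_cast; field_simp; ring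

theorem Aut.down (h : Aut j M f) {K : ℕ} (hK : 0 < K) :
    Aut j (M * K ^ 2) fun τ => f (aff ((K : ℝ) ^ 2)⁻¹ 0 τ) := by
  intro γ hγ τ
  have hdet := det_SL γ
  have hs := smul_mul_denom γ τ
  have h2 := mem_gamma2.1 (mem2_of_mem hγ)
  obtain ⟨⟨a, ha⟩, ⟨b, hb⟩, ⟨c, hc⟩, ⟨d, hd⟩⟩ := mem_gamma.1 hγ
  rw [sub_eq_iff_eq_add] at ha hd
  push_cast at ha hb hc hd
  have hK' : (K : ℂ) ≠ 0 := by exact_mod_cast hK.ne'
  have hr : (0 : ℝ) < ((K : ℝ) ^ 2)⁻¹ := by positivity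
  let δ := mkSL (γ 0 0) (2 * M * b) (K ^ 2 * γ 1 0) (γ 1 1) (by
    rw [hb] at hdet; linear_combination hdet)
  have hδ : δ ∈ Gamma (2 * M) := by
    rw [mem_gamma]
    simp only [δ, mkSL_00, mkSL_01, mkSL_10, mkSL_11, ha, hc, hd]
    push_cast
    exact ⟨⟨K ^ 2 * a, by ring⟩, ⟨b, rfl⟩, ⟨K ^ 4 * c, by ring⟩, ⟨K ^ 2 * d, by ring⟩⟩
  have e : aff ((K : ℝ) ^ 2)⁻¹ 0 (γ • τ) = δ • aff ((K : ℝ) ^ 2)⁻¹ 0 τ := by
    rw [smul_eq_iff, coe_aff hr, coe_aff hr]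
    simp only [δ, mkSL_00, mkSL_01, mkSL_10, mkSL_11]
    rw [hb] at hs
    push_cast at hs ⊢
    field_simp
    linear_combination hs
  simp only [e, h δ hδ, δ, mkSL_10, mkSL_11]
  congr 1
  refine JJ_sq j h2.2 ⟨-(2 * M * K * d), 1, by rw [hd]; ring⟩ ?_
  rw [coe_aff hr]; push_cast; field_simp; ring

theorem Aut.up (h : Aut j M f) {K : ℕ} (hK : 0 < K) :
    Aut j (M * K ^ 2) fun τ => f (aff (K ^ 2) 0 τ) := by
  intro γ hγ τ
  have hdet := det_SL γ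
  have hs := smul_mul_denom γ τ
  obtain ⟨⟨a, ha⟩, ⟨b, hb⟩, ⟨c, hc⟩, ⟨d, hd⟩⟩ := mem_gamma.1 hγ
  rw [sub_eq_iff_eq_add] at ha hd
  push_cast at ha hb hc hd
  have hr : (0 : ℝ) < (K : ℝ) ^ 2 := by positivity
  let δ := mkSL (γ 0 0) (K ^ 2 * γ 0 1) (2 * M * c) (γ 1 1) (by
    rw [hc] at hdet; linear_combination hdet)
  have hδ : δ ∈ Gamma (2 * M) := by
    rw [mem_gamma]
    simp only [δ, mkSL_00, mkSL_01, mkSL_10, mkSL_11, ha, hb, hd]
    push_cast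
    exact ⟨⟨K ^ 2 * a, by ring⟩, ⟨K ^ 4 * b, by ring⟩, ⟨c, rfl⟩, ⟨K ^ 2 * d, by ring⟩⟩
  have e : aff (K ^ 2) 0 (γ • τ) = δ • aff (K ^ 2) 0 τ := by
    rw [smul_eq_iff, coe_aff hr, coe_aff hr]
    simp only [δ, mkSL_00, mkSL_01, mkSL_10, mkSL_11]
    rw [hc] at hs
    push_cast at hs ⊢
    linear_combination (K : ℂ) ^ 2 * hs
  simp only [e, h δ hδ, δ, mkSL_10, mkSL_11]
  congr 1
  rw [show γ 1 0 = K ^ 2 * (2 * M * c) by rw [hc]; ring]
  refine (JJ_sq j ⟨M * c, by ring⟩ ⟨-(2 * M * K * d), 1, by rw [hd]; ring⟩ ?_).symm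
  rw [coe_aff hr]; push_cast; ring

theorem Aut.slash (h : Aut j M f) {γ : SL(2, ℤ)} (hγ : γ ∈ Gamma 2) :
    Aut j M fun τ => conj (JJ j (γ 1 0) (γ 1 1) τ) * f (γ • τ) := by
  intro δ hδ τ
  have hδ' : γ * δ * γ⁻¹ ∈ Gamma (2 * M) := (Gamma_normal _).conj_mem δ hδ γ
  have e1 := JJ_mul j hγ (mem2_of_mem hδ) τ
  have e2 := JJ_mul j (mem2_of_mem hδ') hγ τ
  rw [inv_mul_cancel_right, e1] at e2
  have e3 := h _ hδ' (γ • τ)
  rw [← mul_smul, inv_mul_cancel_right, mul_smul] at e3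
  have e4 := JJ_mul_conj j hγ τ
  have e5 := JJ_mul_conj j hγ (δ • τ)
  simp only [e3]
  set A := JJ j (γ 1 0) (γ 1 1) (δ • τ)
  set B := JJ j (γ 1 0) (γ 1 1) τ
  set C := JJ j (δ 1 0) (δ 1 1) τ
  set E := JJ j ((γ * δ * γ⁻¹) 1 0) ((γ * δ * γ⁻¹) 1 1) (γ • τ)
  linear_combination f (γ • τ) * (-(conj A * conj B) * e2 - conj A * E * e4 + C * conj B * e5)

theorem Aut.lev (h : Aut j M f) (h' : Aut j M g) (hf : BC f) (hg : BC g) (hM : 0 < M) :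
    Lev (2 * M) fun τ => conj (f τ) * g τ := by
  obtain ⟨B, hB⟩ := hf.bdd
  obtain ⟨B', hB'⟩ := hg.bdd
  refine ⟨⟨(continuous_conj.comp hf.cont).mul hg.cont, B * B', fun τ => ?_⟩, by omega,
    fun γ hγ τ => ?_⟩
  · rw [norm_mul, RCLike.norm_conj]
    exact mul_le_mul (hB τ) (hB' τ) (norm_nonneg _) ((norm_nonneg _).trans (hB τ))
  · rw [h γ hγ, h' γ hγ, map_mul]
    linear_combination (conj (f τ) * g τ) * JJ_mul_conj j (mem2_of_mem hγ) τ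

theorem Aut.cusp_one (h : Aut j 1 f) (τ : ℍ) :
    MP_e6abdd_an.sop j (fun w => f (aff 1 1 w)) (aff 1 2 τ) =
      I * MP_e6abdd_an.sop j (fun w => f (aff 1 1 w)) τ := by
  have h0 := τ.ne_zero
  have h2 : ((aff 1 2 τ : ℍ) : ℂ) = τ + 2 := by rw [coe_aff one_pos]; simp
  have h3 : (τ + 2 : ℂ) ≠ 0 := h2 ▸ (aff 1 2 τ).ne_zero
  let γ := mkSL (-1) 2 (-2) 3 (by norm_num)
  have e : aff 1 1 (S • aff 1 2 τ) = γ • aff 1 1 (S • τ) := by
    rw [smul_eq_iff, coe_aff one_pos, coe_aff one_pos, coe_S_smul, coe_S_smul, h2]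
    simp only [γ, mkSL_00, mkSL_01, mkSL_10, mkSL_11]
    push_cast; field_simp; ring
  have hJ : JJ j (-2) 3 (aff 1 1 (S • τ)) = I * ph (4 * j + 1) ((τ + 2) / τ) := by
    have : jacobiSym (-1) 3 = -1 := by norm_num
    rw [JJ, coe_aff one_pos, coe_S_smul]
    congr 1
    · simp [nu, this, show Int.sign 3 = 1 from rfl]
    · congr 1
      simp only [show Int.sign 3 = 1 from rfl]
      push_cast; field_simp; ring
  have hp : ph (4 * j + 1) (-I * aff 1 2 τ) =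
      ph (4 * j + 1) ((τ + 2) / τ) * ph (4 * j + 1) (-I * τ) := by
    have e' : (τ + 2) / τ * (-I * τ) = -I * aff 1 2 τ := by rw [h2]; field_simp
    rw [← ph_mul, e']
    apply arg_mul_of_lt (div_ne_zero h3 h0) (neg_I_mul_ne _)
    have a1 := abs_arg_lt_of_re (re_neg_I_mul τ)
    have a2 := abs_arg_lt_of_re (re_neg_I_mul (aff 1 2 τ))
    have a3 := neg_pi_lt_arg ((τ + 2) / τ)
    have a4 := arg_le_pi ((τ + 2) / τ)
    rw [e', abs_lt]; constructor <;> linarith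
  simp only [MP_e6abdd_an.sop, e, h γ (mem_gamma2.2 (by simp [γ])), γ, mkSL_10, mkSL_11, hJ, hp,
    map_mul]
  linear_combination (I * conj (ph (4 * j + 1) (-I * τ)) * f (aff 1 1 (S • τ))) *
    ph_mul_conj (4 * j + 1) ((τ + 2) / τ)

end Pool.Agent.Lib.MP_e6abdd_an
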