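import Pool.Agent.Lib.MP_e6abdd_an.Maj
import Pool.Agent.Lib.MP_e6abdd_an.Mult
import Pool.Agent.Lib.MP_e6abdd_an.CocC

/-!
Construction of the cocycle.
-/

namespace Pool.Agent.Lib.MP_e6abdd_an

open Complex hiding Gamma
open UpperHalfPlane hiding I
open MeasureTheory Filter Topology CongruenceSubgroup
open scoped Real MatrixGroups ComplexConjugate

open ModularGroup (S T)

section

variable {X : ℝ}

noncomputable def cocN (X : ℝ) (δ : SL(2, ℤ)) (τ : ℍ) : ℝ :=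
  ‖nz (fun w => cocKK X (δ 1 0) (δ 1 1) w - cocKK X (δ 0 0) (δ 0 1) w) τ‖

theorem coc_n_S (hX : 0 < X) (δ : SL(2, ℤ)) (τ : ℍ) : cocN X (δ * S) τ = cocN X δ (S • τ) := by
  have e0 : ∀ i, (δ * S) i 0 = δ i 1 := fun i => by
    simp [Matrix.mul_apply, Fin.sum_univ_two, ModularGroup.coe_S]
  have e1 : ∀ i, (δ * S) i 1 = -δ i 0 := fun i => by
    simp [Matrix.mul_apply, Fin.sum_univ_two, ModularGroup.coe_S]
  rw [cocN, cocN, ← coc_nz_sl, ← norm_neg]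
  simp only [e0, e1, coc_kk_S hX (δ.isCoprime_row _), nz, sl]
  congr 1
  ring

theorem coc_n_T (δ : SL(2, ℤ)) (τ : ℍ) : cocN X (δ * T ^ 2) τ = cocN X δ (T ^ 2 • τ) := by
  have e0 : ∀ i, (δ * T ^ 2) i 0 = δ i 0 := fun i => by
    simp [Matrix.mul_apply, Fin.sum_univ_two, ModularGroup.coe_T, sq]
  have e1 : ∀ i, (δ * T ^ 2) i 1 = δ i 1 + 2 * δ i 0 := fun i => by
    simp [Matrix.mul_apply, Fin.sum_univ_two, ModularGroup.coe_T, sq]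
    ring
  have e : T ^ 2 • τ = aff 1 2 τ := by simpa [zpow_ofNat] using T_zpow_smul 2 τ
  rw [cocN, cocN, e, ← coc_nz_aff]
  simp only [e0, e1, coc_kk_T2 (δ.isCoprime_row _)]

theorem coc_n_mul (hX : 0 < X) {γ : SL(2, ℤ)}
    (hγ : γ ∈ Subgroup.closure ({S, T ^ 2} : Set SL(2, ℤ))) :
    ∀ (δ : SL(2, ℤ)) (τ : ℍ), cocN X (δ * γ) τ = cocN X δ (γ • τ) := by
  induction hγ using Subgroup.closure_induction with
  | mem γ h =>
    rcases h with rfl | rfl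
    · exact coc_n_S hX
    · exact coc_n_T
  | one => simp
  | mul γ γ' _ _ h h' => intro δ τ; rw [← mul_assoc, h', h, mul_smul]
  | inv γ _ h =>
    intro δ τ
    have := h (δ * γ⁻¹) (γ⁻¹ • τ)
    rw [inv_mul_cancel_right, smul_inv_smul] at this
    exact this.symm

theorem coc_S_S (w : ℍ) : S • S • w = w := by
  apply UpperHalfPlane.ext
  have := w.ne_zero
  rw [coe_S_smul, coe_S_smul]
  field_simp

theorem coc_im_S (i : ℤ) (w : ℍ) : (S • aff 1 i w).im = hgt 1 i w := by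
  rw [im_SL_smul, hgt, hgt, aff_im one_pos, coc_coe_aff]
  simp [ModularGroup.coe_S]

theorem coc_nz_x (X : ℝ) (w : ℍ) :
    ‖nz (cocX X) (T • w)‖ = ‖nz (fun w : ℍ => cocU X w) (S • w)‖ := by
  have e : T • w = aff 1 1 w := by simpa using T_zpow_smul 1 w
  rw [← coc_nz_sl, e, ← coc_nz_aff]
  simp only [cocX, coc_aff_aff, add_neg_cancel, aff_one_zero]

theorem coc_n_cases (hX : 0 < X) (δ : SL(2, ℤ)) (τ : ℍ) :
    cocN X δ τ = ‖nz (psi X) (δ • τ)‖ ∨ cocN X δ τ = ‖nz (fun w : ℍ => cocU X w) ((S * δ) • τ)‖ ∨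
      cocN X δ τ = ‖nz (fun w : ℍ => cocU X w) (δ • τ)‖ := by
  obtain ⟨σ, hσ, h⟩ := theta_coset δ
  have h1 := coc_n_mul hX h σ⁻¹ τ
  rw [inv_mul_cancel_left] at h1
  rw [h1]
  rcases hσ with rfl | rfl | rfl
  · left
    have h2 : ∀ w, cocKK X 1 0 w = psi X w := fun w => by
      simpa [coc_kk_zero, sl] using coc_kk_S hX (c := 0) (d := 1) isCoprime_one_right w
    rw [cocN, ← norm_neg]
    simp [coc_kk_zero, h2, nz]
  · right; left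
    rw [mul_smul, mul_smul, ← coc_nz_x, cocN, ← norm_neg, ← coc_kk_one]
    simp [coc_kk_zero, nz, ModularGroup.coe_T, Matrix.adjugate_fin_two]
  · right; right
    have h2 : cocKK X (-1) 1 = cocX X := by rw [← coc_kk_one, ← coc_kk_neg, neg_neg]
    rw [mul_smul, mul_smul, ← coc_S_S (δ • τ), ← coc_nz_x, coc_S_S, cocN, ← h2]
    simp [coc_kk_zero, nz, ModularGroup.coe_T, ModularGroup.coe_S, Matrix.adjugate_fin_two]

variable {τ : ℍ} {r t : ℝ}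

theorem coc_h4 (hr : 1 ≤ r) (hm : maj τ = r ^ 10) (ht2 : t ^ 64 ≤ 2) (hy : τ.im ≤ t ^ 64)
    {c d : ℤ} (h : IsCoprime c d) {l : ℝ} (hl : t ^ 64 ≤ l) (hc : (c : ℝ) ^ 2 * τ.im ≤ l) :
    hgt c d τ ^ 4 ≤ 8 * r ^ 64 * l := by
  have hy0 := τ.im_pos
  have hr64 : 1 ≤ r ^ 64 := one_le_pow₀ hr
  rcases eq_or_ne c 0 with rfl | hc0
  · have h1 : hgt 0 d τ = τ.im := by
      rcases Int.isUnit_iff.1 (isCoprime_zero_left.1 h) with rfl | rfl <;> simp [hgt]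
    have h2 : τ.im ^ 3 ≤ 2 ^ 3 := pow_le_pow_left₀ hy0.le (hy.trans ht2) 3
    rw [h1]
    calc τ.im ^ 4 = τ.im ^ 3 * τ.im := by ring
      _ ≤ 8 * r ^ 64 * l := mul_le_mul (by linarith) (hy.trans hl) hy0.le (by linarith)
  · have hc' : (c : ℝ) ≠ 0 := by exact_mod_cast hc0
    have hm0 : 0 < (c : ℝ) ^ 2 * τ.im := by positivity
    have h0 := maj_hgt_nonneg c d τ
    have h1 := Real.rpow_le_rpow (by positivity) (hm ▸ le_maj (d := d) hc0 τ)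
      (show (0 : ℝ) ≤ 32 / 5 by norm_num)
    rw [← Real.rpow_mul (by positivity), ← Real.rpow_natCast r, ← Real.rpow_mul (by positivity),
      show (5 / 8 : ℝ) * (32 / 5) = (4 : ℕ) by norm_num,
      show ((10 : ℕ) : ℝ) * (32 / 5) = (64 : ℕ) by norm_num, Real.rpow_natCast, Real.rpow_natCast,
      div_pow, ← Real.rpow_natCast (_ ^ (1 / 4 : ℝ)), ← Real.rpow_mul hm0.le,
      show (1 / 4 : ℝ) * (4 : ℕ) = 1 by norm_num, Real.rpow_one, div_le_iff₀ hm0] at h1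
    exact h1.trans (mul_le_mul (by linarith) hc hm0.le (by linarith))

theorem coc_t48 (ht : 0 ≤ t) (ht2 : t ^ 64 ≤ 2) : t ^ 64 ≤ 2 * t ^ 16 := by
  have h : t ^ 48 ≤ 2 := by
    rcases le_total t 1 with h | h
    · exact (pow_le_one₀ ht h).trans one_le_two
    · exact (pow_le_pow_right₀ h (by norm_num)).trans ht2
  calc t ^ 64 = t ^ 48 * t ^ 16 := by ring
    _ ≤ _ := mul_le_mul_of_nonneg_right h (by positivity)

theorem coc_hgt1 (hr : 1 ≤ r) (hm : maj τ = r ^ 10) (ht : 0 ≤ t) (ht2 : t ^ 64 ≤ 2)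
    (hy : τ.im ≤ t ^ 64) {c d : ℤ} (h : IsCoprime c d) (hc : (c : ℝ) ^ 2 * τ.im ≤ t ^ 64) :
    hgt c d τ ≤ 2 * (r ^ 16 * t ^ 16) := by
  refine le_of_pow_le_pow_left₀ (n := 4) (by norm_num) (by positivity)
    ((coc_h4 hr hm ht2 hy h le_rfl hc).trans ?_)
  have : 0 ≤ r ^ 64 * t ^ 64 := mul_nonneg (pow_nonneg (zero_le_one.trans hr) _) (pow_nonneg ht _)
  calc 8 * r ^ 64 * t ^ 64 ≤ 16 * (r ^ 64 * t ^ 64) := by linarith
    _ = _ := by ring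

theorem coc_t64 (hr : 1 ≤ r) (ht : 0 ≤ t) (ht2 : t ^ 64 ≤ 2) :
    t ^ 64 ≤ 2 * (r ^ 16 * t ^ 16) :=
  (coc_t48 ht ht2).trans (mul_le_mul_of_nonneg_left
    (le_mul_of_one_le_left (by positivity) (one_le_pow₀ hr)) zero_le_two)

theorem coc_hgt2 (hr : 1 ≤ r) (hm : maj τ = r ^ 10) (ht : 0 ≤ t) (ht2 : t ^ 64 ≤ 2)
    (hy : τ.im ≤ t ^ 64) {c d : ℤ} (h : IsCoprime c d)
    (hc : (c : ℝ) ^ 2 * τ.im ≤ 20 * (r ^ 16 * t ^ 16)) :
    hgt c d τ ^ (1 / 4 : ℝ) ≤ 2 * (r ^ 5 * t) := by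
  have h0 := maj_hgt_nonneg c d τ
  have h1 : 0 ≤ r ^ 16 * t ^ 16 := by positivity
  have h2 := coc_h4 hr hm ht2 hy h ((coc_t64 hr ht ht2).trans (by linarith)) hc
  refine le_of_pow_le_pow_left₀ (n := 16) (by norm_num) (by positivity) ?_
  rw [← Real.rpow_natCast (_ ^ (1 / 4 : ℝ)), ← Real.rpow_mul h0,
    show (1 / 4 : ℝ) * (16 : ℕ) = (4 : ℕ) by norm_num, Real.rpow_natCast]
  refine h2.trans ?_
  have : 0 ≤ r ^ 80 * t ^ 16 := mul_nonneg (pow_nonneg (zero_le_one.trans hr) _) (pow_nonneg ht _)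
  calc 8 * r ^ 64 * (20 * (r ^ 16 * t ^ 16)) = 160 * (r ^ 80 * t ^ 16) := by ring
    _ ≤ 65536 * (r ^ 80 * t ^ 16) := by linarith
    _ = _ := by ring

theorem coc_hgt3 (hr : 1 ≤ r) (hm : maj τ = r ^ 10) (ht : 0 ≤ t) (ht2 : t ^ 64 ≤ 2)
    (hy : τ.im ≤ t ^ 64) {c d : ℤ} (h : IsCoprime c d) (hc : (c : ℝ) ^ 2 * τ.im ≤ t ^ 64) :
    hgt c d τ ^ (1 / 4 : ℝ) ≤ 2 * (r ^ 5 * t) := by
  have h1 : 0 ≤ r ^ 16 * t ^ 16 := by positivity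
  exact coc_hgt2 hr hm ht ht2 hy h (hc.trans ((coc_t64 hr ht ht2).trans (by linarith)))

theorem coc_shift (δ : SL(2, ℤ)) (τ : ℍ) {i : ℤ} (hi : |(δ • τ).re + i| ≤ 2) :
    ((1 * δ 0 0 + i * δ 1 0 : ℤ) : ℝ) ^ 2 * τ.im ≤
      8 * ((δ 1 0 : ℝ) ^ 2 * τ.im) + 2 * hgt (δ 1 0) (δ 1 1) τ := by
  have hj := denom_ne (δ.isCoprime_row 1) τ
  have hdet : (δ 0 0 : ℂ) * δ 1 1 - δ 0 1 * δ 1 0 = 1 := by
    have := δ.det_coe
    rw [Matrix.det_fin_two] at this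
    exact_mod_cast this
  have h1 : ((1 * δ 0 0 + i * δ 1 0 : ℤ) : ℂ) =
      δ 1 0 * ((δ • τ : ℍ) + i) + (δ 1 0 * (τ : ℂ) + δ 1 1)⁻¹ := by
    rw [coe_SL_smul]
    push_cast
    field_simp
    linear_combination hdet
  have h2 := congrArg Complex.re h1
  rw [intCast_re, add_re, mul_re, intCast_re, intCast_im, zero_mul, sub_zero, add_re, coe_re,
    intCast_re] at h2
  have h3 := re_sq_le_normSq (δ 1 0 * (τ : ℂ) + δ 1 1)⁻¹
  have h4 : ((δ • τ).re + i) ^ 2 ≤ 2 ^ 2 := sq_le_sq' (abs_le.1 hi).1 (abs_le.1 hi).2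
  rw [h2, hgt, div_eq_mul_inv, ← normSq_inv]
  generalize (δ • τ).re + i = a at *
  generalize normSq (δ 1 0 * (τ : ℂ) + δ 1 1)⁻¹ = n at *
  generalize ((δ 1 0 * (τ : ℂ) + δ 1 1)⁻¹).re = b at *
  have h5 : ((δ 1 0 : ℝ) * a + b) ^ 2 ≤ 8 * (δ 1 0 : ℝ) ^ 2 + 2 * n := by
    nlinarith [sq_nonneg ((δ 1 0 : ℝ) * a - b), mul_le_mul_of_nonneg_left h4 (sq_nonneg (δ 1 0 : ℝ))]
  nlinarith [mul_le_mul_of_nonneg_right h5 τ.im_pos.le]

theorem coc_nz_u (hX : 0 < X) : ∃ C : ℝ, 0 ≤ C ∧ ∀ (τ : ℍ) (r t : ℝ), 1 ≤ r → maj τ = r ^ 10 →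
    0 ≤ t → t ^ 64 ≤ 2 → τ.im ≤ t ^ 64 → ∀ δ : SL(2, ℤ), (δ 1 0 : ℝ) ^ 2 * τ.im ≤ t ^ 64 →
    ‖nz (fun w : ℍ => cocU X w) (δ • τ)‖ ≤ C * (r ^ 5 * t) := by
  obtain ⟨C, hC0, hC⟩ := coc_norm_u hX
  refine ⟨4 * C, by positivity, fun τ r t hr hm ht ht2 hy δ hc => ?_⟩
  have hw := (δ • τ).im_pos
  have hq : 0 < (δ • τ).im ^ (1 / 4 : ℝ) := by positivity
  have h1 : (δ • τ).im ^ (1 / 4 : ℝ) ≤ 2 * (r ^ 5 * t) := by
    rw [im_SL_smul]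
    exact coc_hgt3 hr hm ht ht2 hy (δ.isCoprime_row 1) hc
  have h2 := hC (δ • τ : ℍ) hw (2 * (r ^ 5 * t) / (δ • τ).im ^ (1 / 4 : ℝ)) (by positivity) ?_
  · rw [coc_norm_nz]
    calc _ ≤ (δ • τ).im ^ (1 / 4 : ℝ) * (C * (1 + 2 * (r ^ 5 * t) / (δ • τ).im ^ (1 / 4 : ℝ))) :=
          mul_le_mul_of_nonneg_left h2 hq.le
      _ = C * ((δ • τ).im ^ (1 / 4 : ℝ) + 2 * (r ^ 5 * t)) := by field_simp
      _ ≤ C * (2 * (r ^ 5 * t) + 2 * (r ^ 5 * t)) :=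
          mul_le_mul_of_nonneg_left (by linarith) hC0
      _ = _ := by ring
  intro i hi
  have h3 := coc_nz_gs hX (S • aff 1 i (δ • τ))
  rw [← coc_nz_sl, coc_norm_nz, coc_im_S, hgt_smul, aff_im one_pos, one_mul, coc_sl_gs,
    coc_coe_aff, ofReal_intCast] at h3
  rw [le_div_iff₀ hq, mul_comm]
  have hdet : δ 0 0 * δ 1 1 - δ 0 1 * δ 1 0 = 1 := by
    have := δ.det_coe
    rwa [Matrix.det_fin_two] at this
  refine h3.trans (coc_hgt2 hr hm ht ht2 hy ⟨δ 1 1, -δ 1 0, by linear_combination hdet⟩ ?_)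
  have h4 := coc_hgt1 hr hm ht ht2 hy (δ.isCoprime_row 1) hc
  have h5 := coc_t64 hr ht ht2
  linarith [coc_shift δ τ hi]

theorem coc_n_le (hX : 0 < X) : ∃ C : ℝ, 0 ≤ C ∧ ∀ (τ : ℍ) (r t : ℝ), 1 ≤ r → maj τ = r ^ 10 →
    0 ≤ t → t ^ 64 ≤ 2 → τ.im ≤ t ^ 64 → ∀ δ : SL(2, ℤ), (δ 0 0 : ℝ) ^ 2 * τ.im ≤ t ^ 64 →
    (δ 1 0 : ℝ) ^ 2 * τ.im ≤ t ^ 64 → cocN X δ τ ≤ C * (r ^ 5 * t) := by
  obtain ⟨C, hC0, hC⟩ := coc_nz_u hX
  refine ⟨4 + C, by positivity, fun τ r t hr hm ht ht2 hy δ ha hc => ?_⟩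
  have h0 : 0 ≤ r ^ 5 * t := by positivity
  have h0' : 0 ≤ C * (r ^ 5 * t) := by positivity
  have e : ∀ j, (S * δ) 1 j = δ 0 j := fun j => by
    simp [Matrix.mul_apply, Fin.sum_univ_two, ModularGroup.coe_S]
  rcases coc_n_cases hX δ τ with h | h | h <;> rw [h]
  · have h1 := coc_nz_psi X (δ • τ)
    have h2 := coc_nz_gs hX (δ • τ)
    have h3 := coc_nz_gs hX (S • δ • τ)
    rw [im_SL_smul] at h2
    rw [← mul_smul, im_SL_smul, e, e, mul_smul] at h3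
    have h4 := coc_hgt3 hr hm ht ht2 hy (δ.isCoprime_row 0) ha
    have h5 := coc_hgt3 hr hm ht ht2 hy (δ.isCoprime_row 1) hc
    linarith
  · have := hC τ r t hr hm ht ht2 hy (S * δ) (by rwa [e])
    linarith
  · have := hC τ r t hr hm ht ht2 hy δ hc
    linarith

theorem coc_row {c d : ℤ} (h : IsCoprime c d) (hc : c ≠ 0) :
    ∃ δ : SL(2, ℤ), δ 1 0 = c ∧ δ 1 1 = d ∧ 2 * (δ 0 0).natAbs ≤ c.natAbs := by
  obtain ⟨u, v, huv⟩ := h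
  have hpos : 0 < c.natAbs := Int.natAbs_pos.2 hc
  obtain ⟨k, hk⟩ : c ∣ v - Int.bmod v c.natAbs := Int.natAbs_dvd.1 Int.dvd_self_sub_bmod
  have h3 := @Int.le_bmod v _ hpos
  have h4 := @Int.bmod_lt v _ hpos
  refine ⟨⟨!![Int.bmod v c.natAbs, -u - d * k; c, d], ?_⟩, rfl, rfl, ?_⟩
  · rw [Matrix.det_fin_two_of]
    linear_combination huv - d * hk
  · change 2 * (Int.bmod v c.natAbs).natAbs ≤ _
    omega

theorem coc_err_aux (hX : 0 < X) : ∃ A : ℝ, ∀ (τ : ℍ) (r : ℝ), 1 ≤ r → maj τ = r ^ 10 →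
    ∀ c d : ℤ, IsCoprime c d → ∀ t : ℝ, 0 ≤ t → t ^ 64 ≤ 2 → (c : ℝ) ^ 2 * τ.im ≤ t ^ 64 →
    ‖nz (cocKK X c d) τ‖ ≤ A * (r ^ 5 * t) := by
  obtain ⟨C, hC0, hC⟩ := coc_n_le hX
  refine ⟨100 * C, fun τ r hr hm c d => ?_⟩
  induction hn : c.natAbs using Nat.strong_induction_on generalizing c d with
  | _ n ih =>
    intro h t ht ht2 hc
    have hy := τ.im_pos
    rcases eq_or_ne c 0 with rfl | hc0
    · rw [coc_kk_zero, coc_norm_nz]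
      simp only [Pi.zero_apply, norm_zero, mul_zero]
      positivity
    obtain ⟨δ, rfl, rfl, ha⟩ := coc_row h hc0
    have h1 : 4 * (δ 0 0 : ℝ) ^ 2 ≤ (δ 1 0 : ℝ) ^ 2 := by
      have h2 : (2 * (δ 0 0).natAbs) ^ 2 ≤ (δ 1 0).natAbs ^ 2 := Nat.pow_le_pow_left ha 2
      have h3 : (4 : ℤ) * (δ 0 0) ^ 2 ≤ (δ 1 0) ^ 2 := by
        zify at h2
        rw [mul_pow, sq_abs, sq_abs] at h2
        linarith
      exact_mod_cast h3
    have h2 : (1 : ℝ) ≤ (δ 1 0 : ℝ) ^ 2 := by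
      have : (1 : ℤ) ≤ (δ 1 0) ^ 2 := one_le_sq_iff_one_le_abs _ |>.2 (Int.one_le_abs hc0)
      exact_mod_cast this
    have h3 := mul_le_mul_of_nonneg_right h1 hy.le
    have h4 := mul_le_mul_of_nonneg_right h2 hy.le
    have h5 : 0 ≤ (δ 0 0 : ℝ) ^ 2 * τ.im := by positivity
    have hq : (1 / 4 : ℝ) ≤ (99 / 100) ^ 64 := by
      have := one_add_mul_le_pow (show (-2 : ℝ) ≤ -1 / 100 by norm_num) 64
      rw [show (1 : ℝ) + -1 / 100 = 99 / 100 by norm_num] at this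
      exact le_trans (by norm_num) this
    have hq' : (99 / 100 : ℝ) ^ 64 ≤ 1 := pow_le_one₀ (by norm_num) (by norm_num)
    have ht64 : 0 ≤ t ^ 64 := pow_nonneg ht _
    have h6 := ih _ (by omega) (δ 0 0) (δ 0 1) rfl (δ.isCoprime_row 0) (99 / 100 * t)
      (by positivity) (by rw [mul_pow]; exact (mul_le_of_le_one_left ht64 hq').trans ht2)
      (by rw [mul_pow]; exact le_trans (by linarith) (mul_le_mul_of_nonneg_right hq ht64))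
    have h7 := hC τ r t hr hm ht ht2 (by linarith) δ (by linarith) hc
    have e : nz (cocKK X (δ 1 0) (δ 1 1)) τ = nz (cocKK X (δ 0 0) (δ 0 1)) τ +
        nz (fun w => cocKK X (δ 1 0) (δ 1 1) w - cocKK X (δ 0 0) (δ 0 1) w) τ := by
      simp only [nz]; ring
    rw [e]
    refine (norm_add_le _ _).trans ((add_le_add h6 h7).trans (le_of_eq ?_))
    ring

theorem coc_err (hX : 0 < X) : ∃ C : ℝ, ∀ c d : ℤ, IsCoprime c d → ∀ (τ : ℍ) (κ : ℝ),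
    (c : ℝ) ^ 2 * τ.im ≤ κ → κ ≤ 2 →
      ‖nz (cocKK X c d) τ‖ ^ 2 ≤ C * κ ^ (1 / 32 : ℝ) * maj τ := by
  obtain ⟨A, hA⟩ := coc_err_aux hX
  refine ⟨A ^ 2, fun c d h τ κ h1 h2 => ?_⟩
  have hκ : 0 ≤ κ := le_trans (mul_nonneg (sq_nonneg _) τ.im_pos.le) h1
  have hm := one_le_maj τ
  have e1 : maj τ = (maj τ ^ (1 / 10 : ℝ)) ^ 10 := by
    rw [← Real.rpow_natCast, ← Real.rpow_mul (by linarith)]; norm_num
  have e2 : (κ ^ (1 / 64 : ℝ)) ^ 64 = κ := by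
    rw [← Real.rpow_natCast, ← Real.rpow_mul hκ]; norm_num
  have e3 : κ ^ (1 / 32 : ℝ) = (κ ^ (1 / 64 : ℝ)) ^ 2 := by
    rw [← Real.rpow_natCast, ← Real.rpow_mul hκ]; norm_num
  have h3 := hA τ _ (Real.one_le_rpow hm (by norm_num)) e1 c d h (κ ^ (1 / 64 : ℝ))
    (by positivity) (by rwa [e2]) (by rwa [e2])
  refine (pow_le_pow_left₀ (norm_nonneg _) h3 2).trans (le_of_eq ?_)
  rw [e3]
  generalize κ ^ (1 / 64 : ℝ) = t
  generalize maj τ ^ (1 / 10 : ℝ) = r at *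
  rw [e1]
  ring

end

theorem exists_coc {X : ℝ} (hX : 0 < X) : ∃ K, Coc X K :=
  ⟨cocKK X, coc_hol_kk hX, coc_kk_neg, coc_kk_zero 1, fun _ _ h => coc_kk_T2 h,
    fun _ _ h => coc_kk_S hX h, coc_bd hX, fun _ hδ => coc_ubd hX hδ, coc_err hX⟩

end Pool.Agent.Lib.MP_e6abdd_an
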