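import Pool.Agent.Lib.MP_e6abdd_an.Defs

/-!
Positivity of polynomials in a bounded symmetric operator.
-/

namespace Pool.Agent.Lib.MP_e6abdd_an

open Complex hiding Gamma
open MeasureTheory Filter Topology Polynomial
open scoped Real ComplexConjugate InnerProductSpace

/-- Evaluation of a real polynomial at an element of a complex algebra. -/
noncomputable def cos_ev {A : Type} [Ring A] [Algebra ℂ A] (a : A) : ℝ[X] →+* A :=
  (aeval a).toRingHom.comp (mapRingHom ofRealHom)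

theorem cos_ev_C {A : Type} [Ring A] [Algebra ℂ A] (a : A) (r : ℝ) :
    cos_ev a (C r) = cι A r := by
  simp [cos_ev, cι]

theorem cos_ev_X {A : Type} [Ring A] [Algebra ℂ A] (a : A) : cos_ev a X = a := by
  simp [cos_ev]

theorem cos_ev_comp_C {A : Type} [Ring A] [Algebra ℂ A] (a : A) :
    (cos_ev a).comp (C : ℝ →+* ℝ[X]) = cι A :=
  RingHom.ext (cos_ev_C a)

theorem cos_ι_apply {V : Type} [AddCommGroup V] [Module ℂ V] (r : ℝ) (v : V) :
    cι (Module.End ℂ V) r v = (r : ℂ) • v := by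
  simp [cι]

theorem cos_polyPos_dense {V H : Type} [AddCommGroup V] [Module ℂ V] [NormedAddCommGroup H]
    [InnerProductSpace ℂ H] [CompleteSpace H] (E : V →ₗ[ℂ] H) (hd : DenseRange E)
    (A : Module.End ℂ V) {R : ℝ}
    (hsym : ∀ φ ψ, ⟪E (A φ), E ψ⟫_ℂ = ⟪E φ, E (A ψ)⟫_ℂ)
    (hbd : ∀ ψ, ‖E (A ψ)‖ ≤ R * ‖E ψ‖) (hlo : ∀ ψ, -‖E ψ‖ ^ 2 ≤ re ⟪E ψ, E (A ψ)⟫_ℂ)
    (Q : ℝ[X]) (hQ : ∀ x ∈ Set.Icc (-1 : ℝ) R, 0 ≤ Q.eval x) (φ : V) :
    0 ≤ re ⟪E φ, E (cos_ev A Q φ)⟫_ℂ := by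
  set B : H →L[ℂ] H := (E ∘ₗ A).extendOfNorm E with hB
  have hBE : ∀ ψ, B (E ψ) = E (A ψ) := fun ψ =>
    LinearMap.extendOfNorm_eq (f := E ∘ₗ A) hd ⟨R, hbd⟩ ψ
  have hBs : B.IsSymmetric := by
    intro x y
    refine hd.induction_on₂ (p := fun x y => ⟪B x, y⟫_ℂ = ⟪x, B y⟫_ℂ)
      (isClosed_eq (by fun_prop) (by fun_prop)) (fun a b => ?_) x y
    rw [hBE, hBE, hsym]
  have hsa : IsSelfAdjoint B := hBs.isSelfAdjoint
  have hup : B ≤ algebraMap ℝ (H →L[ℂ] H) R := by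
    rw [ContinuousLinearMap.le_def, ContinuousLinearMap.isPositive_def']
    refine ⟨(IsSelfAdjoint.algebraMap _ (IsSelfAdjoint.all R)).sub hsa, fun x => ?_⟩
    have h1 : ‖B x‖ ≤ R * ‖x‖ :=
      LinearMap.norm_extendOfNorm_apply_le (f := E ∘ₗ A) hd R hbd x
    have h2 : re ⟪B x, x⟫_ℂ ≤ ‖B x‖ * ‖x‖ := re_inner_le_norm (𝕜 := ℂ) _ _
    have h3 : (algebraMap ℝ (H →L[ℂ] H) R - B) x = (R : ℂ) • x - B x := by
      simp [Algebra.algebraMap_eq_smul_one]
    rw [ContinuousLinearMap.reApplyInnerSelf_apply, h3, inner_sub_left, inner_smul_left,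
      inner_self_eq_norm_sq_to_K]
    have h4 := mul_le_mul_of_nonneg_right h1 (norm_nonneg x)
    simp only [conj_ofReal, coe_algebraMap, map_sub, RCLike.re_to_complex]
    norm_cast
    nlinarith
  have hdn : algebraMap ℝ (H →L[ℂ] H) (-1) ≤ B := by
    rw [ContinuousLinearMap.le_def, ContinuousLinearMap.isPositive_def']
    refine ⟨hsa.sub (IsSelfAdjoint.algebraMap _ (IsSelfAdjoint.all _)), fun x => ?_⟩
    have h1 : -‖x‖ ^ 2 ≤ re ⟪B x, x⟫_ℂ := by
      refine hd.induction_on (p := fun x => -‖x‖ ^ 2 ≤ re ⟪B x, x⟫_ℂ) x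
        (isClosed_le (by fun_prop) (by fun_prop)) (fun a => ?_)
      rw [hBE, hsym]
      exact hlo a
    have h3 : (B - algebraMap ℝ (H →L[ℂ] H) (-1)) x = B x + x := by
      simp [Algebra.algebraMap_eq_smul_one]
    rw [ContinuousLinearMap.reApplyInnerSelf_apply, h3, inner_add_left,
      inner_self_eq_norm_sq_to_K]
    simp only [coe_algebraMap, map_add, RCLike.re_to_complex]
    norm_cast
    linarith
  have hpos : 0 ≤ aeval B Q := by
    rw [← cfc_polynomial Q B hsa]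
    exact cfc_nonneg fun x hx => hQ x ⟨(algebraMap_le_iff_le_spectrum hsa).1 hdn x hx,
      (le_algebraMap_iff_spectrum_le hsa).1 hup x hx⟩
  have hev : ∀ (P : ℝ[X]) ψ, aeval B P (E ψ) = E (cos_ev A P ψ) := by
    intro P
    induction P using Polynomial.induction_on with
    | C r =>
      intro ψ
      rw [cos_ev_C, cos_ι_apply, aeval_C, map_smul]
      simp [Algebra.algebraMap_eq_smul_one]
    | add p q hp hq =>
      intro ψ
      simp only [map_add, add_apply, LinearMap.add_apply, hp, hq]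
    | monomial n r h =>
      intro ψ
      rw [pow_succ, ← mul_assoc, map_mul, map_mul (cos_ev A), aeval_X, cos_ev_X,
        mul_apply_eq_comp, Module.End.mul_apply, hBE, h]
  rw [← hev]
  exact ((ContinuousLinearMap.nonneg_iff_isPositive _).1 hpos).re_inner_nonneg_right _

theorem cos_polyPos {V H : Type} [AddCommGroup V] [Module ℂ V] [NormedAddCommGroup H]
    [InnerProductSpace ℂ H] [CompleteSpace H] (E : V →ₗ[ℂ] H)
    (A : Module.End ℂ V) {R : ℝ}
    (hsym : ∀ φ ψ, ⟪E (A φ), E ψ⟫_ℂ = ⟪E φ, E (A ψ)⟫_ℂ)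
    (hbd : ∀ ψ, ‖E (A ψ)‖ ≤ R * ‖E ψ‖) (hlo : ∀ ψ, -‖E ψ‖ ^ 2 ≤ re ⟪E ψ, E (A ψ)⟫_ℂ)
    (Q : ℝ[X]) (hQ : ∀ x ∈ Set.Icc (-1 : ℝ) R, 0 ≤ Q.eval x) (φ : V) :
    0 ≤ re ⟪E φ, E (cos_ev A Q φ)⟫_ℂ := by
  set K := (LinearMap.range E).topologicalClosure with hK
  have : CompleteSpace K := (LinearMap.range E).isClosed_topologicalClosure.completeSpace_coe
  let E' : V →ₗ[ℂ] K := E.codRestrict K fun v =>
    (LinearMap.range E).le_topologicalClosure (LinearMap.mem_range_self E v)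
  have hd : DenseRange E' := by
    intro x
    rw [IsInducing.subtypeVal.closure_eq_preimage_closure_image, Set.mem_preimage,
      ← Set.range_comp]
    exact x.2
  exact cos_polyPos_dense E' hd A hsym hbd hlo Q hQ φ

end Pool.Agent.Lib.MP_e6abdd_an
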