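import Pool.Agent.Lib.MP_e6abdd_an.Chaos
import Pool.Agent.Lib.MP_e6abdd_an.CosA

/-!
Cosine families of symmetric operators.
-/

namespace Pool.Agent.Lib.MP_e6abdd_an

open Complex hiding Gamma
open UpperHalfPlane hiding I
open MeasureTheory Filter Topology CongruenceSubgroup
open scoped Real MatrixGroups ComplexConjugate

open scoped InnerProductSpace Polynomial

theorem cos_cp_le_one (p : ℕ) : |cp p| ≤ 1 := by
  have h0 : (0 : ℝ) ≤ p := Nat.cast_nonneg p
  have h1 := Real.sq_sqrt h0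
  have h2 := Real.sqrt_nonneg (p : ℝ)
  rw [cp, abs_of_nonneg (by positivity), div_le_one (by positivity)]
  nlinarith [sq_nonneg (√(p : ℝ) - 1)]

theorem cos_dirichlet (θ : ℝ) (N : ℕ) :
    2 * Real.sin (θ / 2) * ∑ n ∈ Finset.range N, Real.cos (n * θ) =
      Real.sin (N * θ - θ / 2) + Real.sin (θ / 2) := by
  induction N with
  | zero => simp
  | succ N ih =>
    rw [Finset.sum_range_succ, mul_add, ih]
    have h : ((N + 1 : ℕ) : ℝ) * θ - θ / 2 = N * θ + θ / 2 := by push_cast; ring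
    rw [h, Real.sin_add, Real.sin_sub]
    ring

theorem cos_dirichlet_le {θ : ℝ} (h0 : 0 < θ) (h1 : θ ≤ π) (N : ℕ) :
    θ * ∑ n ∈ Finset.range N, Real.cos (n * θ) ≤ π := by
  have h2 := cos_dirichlet θ N
  have h3 : 2 / π * (θ / 2) ≤ Real.sin (θ / 2) := Real.mul_le_sin (by linarith) (by linarith)
  have h4 := Real.sin_le_one (N * θ - θ / 2)
  have h5 := Real.sin_le_one (θ / 2)
  have hp := Real.pi_pos
  have h6 : θ ≤ π * Real.sin (θ / 2) := by
    have : 2 / π * (θ / 2) = θ / π := by field_simp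
    rw [this, div_le_iff₀ hp] at h3
    linarith
  set S := ∑ n ∈ Finset.range N, Real.cos (n * θ)
  rcases le_total S 0 with h | h
  · nlinarith
  · have : Real.sin (θ / 2) * S ≤ 1 := by linarith
    nlinarith

section

variable {V H : Type} [AddCommGroup V] [Module ℂ V] [NormedAddCommGroup H]
  [InnerProductSpace ℂ H] {E : V →ₗ[ℂ] H} {C : ℝ → Module.End ℂ V}

theorem cos_mul (hadd : ∀ a b, C (a + b) + C (a - b) = 2 * (C a * C b)) (a b : ℝ) :
    C a * C b = (1 / 2 : ℂ) • (C (a + b) + C (a - b)) := by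
  rw [hadd, two_mul, ← two_smul ℂ, smul_smul]; simp

theorem cos_half (h0 : C 0 = 1) (hadd : ∀ a b, C (a + b) + C (a - b) = 2 * (C a * C b))
    (hsym : ∀ a φ ψ, ⟪E (C a φ), E ψ⟫_ℂ = ⟪E φ, E (C a ψ)⟫_ℂ) (a : ℝ) (ψ : V) :
    2 * ‖E (C (a / 2) ψ)‖ ^ 2 = re ⟪E ψ, E (C a ψ)⟫_ℂ + ‖E ψ‖ ^ 2 := by
  have h1 : ⟪E (C (a / 2) ψ), E (C (a / 2) ψ)⟫_ℂ =
      (1 / 2 : ℂ) * (⟪E ψ, E (C a ψ)⟫_ℂ + ⟪E ψ, E ψ⟫_ℂ) := by
    rw [hsym, ← Module.End.mul_apply, cos_mul hadd, add_halves, sub_self, h0]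
    simp only [LinearMap.smul_apply, LinearMap.add_apply, Module.End.one_apply, map_smul, map_add,
      inner_smul_right, inner_add_right]
  have h2 := congrArg Complex.re h1
  rw [inner_self_eq_norm_sq_to_K, inner_self_eq_norm_sq_to_K] at h2
  simp only [coe_algebraMap, ← ofReal_pow, ofReal_re, mul_re, add_re, add_im, ofReal_im] at h2
  norm_num at h2
  linarith

theorem cos_bound (h0 : C 0 = 1) (hadd : ∀ a b, C (a + b) + C (a - b) = 2 * (C a * C b))
    (hsym : ∀ a φ ψ, ⟪E (C a φ), E ψ⟫_ℂ = ⟪E φ, E (C a ψ)⟫_ℂ) {b : ℝ}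
    (hb : ∀ φ, ‖E (C b φ)‖ ≤ Real.cosh (b / 4) * ‖E φ‖) (k : ℕ) (ψ : V) :
    ‖E (C (b / 2 ^ k) ψ)‖ ≤ Real.cosh (b / 2 ^ k / 4) * ‖E ψ‖ := by
  induction k with
  | zero => simpa using hb ψ
  | succ k ih =>
    have h1 := cos_half h0 hadd hsym (b / 2 ^ k) ψ
    have h2 : re ⟪E ψ, E (C (b / 2 ^ k) ψ)⟫_ℂ ≤ ‖E ψ‖ * ‖E (C (b / 2 ^ k) ψ)‖ :=
      re_inner_le_norm (𝕜 := ℂ) _ _
    have h3 : b / 2 ^ (k + 1) = b / 2 ^ k / 2 := by rw [pow_succ, div_div]
    have h4 : Real.cosh (b / 2 ^ k / 4) = 2 * Real.cosh (b / 2 ^ k / 2 / 4) ^ 2 - 1 := by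
      have := Real.cosh_two_mul (b / 2 ^ k / 2 / 4)
      have h5 := Real.cosh_sq (b / 2 ^ k / 2 / 4)
      rw [show 2 * (b / 2 ^ k / 2 / 4) = b / 2 ^ k / 4 by ring] at this
      linarith
    rw [h3]
    refine abs_le_of_sq_le_sq' ?_ (by positivity) |>.2
    have h6 := mul_le_mul_of_nonneg_left ih (norm_nonneg (E ψ))
    rw [h4] at h6
    nlinarith

theorem cos_cheb (h0 : C 0 = 1) (hadd : ∀ a b, C (a + b) + C (a - b) = 2 * (C a * C b))
    (η : ℝ) (n : ℕ) : cos_ev (C η) (Polynomial.Chebyshev.T ℝ n) = C (n * η) := by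
  induction n using Nat.twoStepInduction with
  | zero => simp [h0]
  | one => simp [cos_ev_X]
  | more n h1 h2 =>
    have h3 := hadd η ((n + 1 : ℕ) * η)
    have h4 := hadd 0 (n * η)
    rw [zero_add, zero_sub, h0, one_mul, two_mul, add_right_inj] at h4
    rw [show η + ((n + 1 : ℕ) : ℝ) * η = ((n + 2 : ℕ) : ℝ) * η by push_cast; ring,
      show η - ((n + 1 : ℕ) : ℝ) * η = -(n * η) by push_cast; ring, h4] at h3
    rw [show ((n + 2 : ℕ) : ℤ) = n + 2 by push_cast; ring, Polynomial.Chebyshev.T_add_two,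
      map_sub, map_mul, map_mul, cos_ev_X, h1, show (n + 1 : ℤ) = ((n + 1 : ℕ) : ℤ) by simp, h2,
      map_ofNat, mul_assoc, ← h3, add_sub_cancel_right]

theorem cos_cont (hadd : ∀ a b, C (a + b) + C (a - b) = 2 * (C a * C b))
    (hc : ∀ φ ψ, Continuous fun a => ⟪E φ, E (C a ψ)⟫_ℂ) (s : ℕ → ℂ) (φ : V) (L : List ℕ) :
    ∀ (G : (ℕ → ℤ) → ℝ) (a : (ℕ → ℝ) → ℝ), Continuous a → Continuous fun x : ℕ → ℝ =>
      ⟪E φ, E ((Op (cι (Module.End ℂ V)) (fun p => s p • C (x p)) L G * C (a x)) φ)⟫_ℂ := by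
  induction L with
  | nil =>
    intro G a ha
    simp only [Op, Module.End.mul_apply, cos_ι_apply, map_smul, inner_smul_right]
    exact continuous_const.mul ((hc φ φ).comp ha)
  | cons p L ih =>
    intro G a ha
    have key : ∀ (x : ℕ → ℝ) (v : ℤ) (O : Module.End ℂ V),
        ⟪E φ, E ((cι (Module.End ℂ V) (wt p v) * (O * (1 + cι (Module.End ℂ V) v * s p • C (x p))) *
          C (a x)) φ)⟫_ℂ = wt p v * (⟪E φ, E ((O * C (a x)) φ)⟫_ℂ + (v : ℝ) * s p * (1 / 2) *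
            (⟪E φ, E ((O * C (x p + a x)) φ)⟫_ℂ + ⟪E φ, E ((O * C (x p - a x)) φ)⟫_ℂ)) := by
      intro x v O
      have h1 := congrArg (fun T : Module.End ℂ V => T φ) (cos_mul hadd (x p) (a x))
      simp only [Module.End.mul_apply, LinearMap.smul_apply, LinearMap.add_apply] at h1
      simp only [Module.End.mul_apply, cos_ι_apply, LinearMap.add_apply, LinearMap.smul_apply,
        Module.End.one_apply, h1, map_smul, map_add, inner_smul_right, inner_add_right]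
      ring
    simp only [Op, Finset.sum_mul, LinearMap.sum_apply, map_sum, inner_sum, key]
    refine continuous_finsetSum _ fun v _ => continuous_const.mul ((ih _ a ha).add
      (continuous_const.mul ((ih _ (fun x => x p + a x) (by fun_prop)).add
        (ih _ (fun x => x p - a x) (by fun_prop)))))

end

theorem cos_point {σ : ℕ → ℝ} (hσ : ∀ p, σ p = 1 ∨ σ p = -1) {L : List ℕ} {G : (ℕ → ℤ) → ℝ}
    (hG : Test L G) {η δ T ε : ℝ} (hη : 0 < η) (hε : 0 ≤ ε) (n : ℕ → ℕ) {N : ℕ} (hN : 0 < N)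
    (hNδ : N * η ≤ δ) (hT : 2 * π ≤ T * (N * η))
    (h1 : ∀ t ∈ Set.Icc 0 T, Ex (fun p => σ p * cp p * Real.cos (t * (n p * η))) L G ≤ ε)
    (h2 : ∀ κ ∈ Set.Icc (0 : ℝ) (1 / 4),
      Ex (fun p => σ p * cp p * Real.cosh (κ * (n p * η))) L G ≤ ε)
    {x : ℝ} (hx : x ∈ Set.Icc (-1) (Real.cosh (η / 4))) :
    Ex (fun p => σ p * cp p * (Polynomial.Chebyshev.T ℝ (n p)).eval x) L G ≤
      ε + 2 * Real.cosh (δ / 4) -
        2 / N * ∑ m ∈ Finset.range N, (Polynomial.Chebyshev.T ℝ (m : ℕ)).eval x := by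
  have hN' : (0 : ℝ) < N := by exact_mod_cast hN
  have hch := Real.one_le_cosh (δ / 4)
  have hsum : ∀ {B : ℝ} {f : ℕ → ℝ}, (∀ m < N, f m ≤ B) →
      2 / N * ∑ m ∈ Finset.range N, f m ≤ 2 * B := by
    intro B f hf
    have := Finset.sum_le_card_nsmul (Finset.range N) f B fun m hm => hf m (by simpa using hm)
    rw [Finset.card_range, nsmul_eq_mul] at this
    rw [div_mul_eq_mul_div, div_le_iff₀ hN']
    linarith
  rcases le_total x 1 with h | h
  · obtain ⟨θ, ⟨hθ0, hθ1⟩, rfl⟩ : ∃ θ ∈ Set.Icc 0 π, Real.cos θ = x :=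
      ⟨Real.arccos x, ⟨Real.arccos_nonneg x, Real.arccos_le_pi x⟩, Real.cos_arccos hx.1 h⟩
    simp only [Polynomial.Chebyshev.T_real_cos, Int.cast_natCast]
    rcases le_total (θ / η) T with h3 | h3
    · have h4 := h1 (θ / η) ⟨by positivity, h3⟩
      have h5 : ∀ p, θ / η * (n p * η) = n p * θ := fun p => by field_simp
      simp only [h5] at h4
      have h6 := hsum (f := fun m => Real.cos (m * θ)) fun m _ => Real.cos_le_one _
      linarith
    · have h4 : Ex (fun p => σ p * cp p * Real.cos (n p * θ)) L G ≤ 1 := by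
        refine (Ex_mem hG fun p _ => ?_).2
        rw [abs_mul, abs_mul]
        have h5 : |σ p| = 1 := by rcases hσ p with h | h <;> simp [h]
        rw [h5, one_mul]
        exact mul_le_one₀ (cos_cp_le_one p) (abs_nonneg _) (Real.abs_cos_le_one _)
      rw [le_div_iff₀ hη] at h3
      have hp := Real.pi_pos
      have h5 : 2 * π ≤ N * θ := by nlinarith
      have h6 : 0 < θ := by
        by_contra h7
        nlinarith
      have h7 := cos_dirichlet_le h6 hθ1 N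
      have h8 : 2 / N * ∑ m ∈ Finset.range N, Real.cos (m * θ) ≤ 1 := by
        rw [div_mul_eq_mul_div, div_le_one hN']
        refine le_of_mul_le_mul_left ?_ h6
        nlinarith
      linarith
  · obtain ⟨u, hu0, rfl⟩ : ∃ u, 0 ≤ u ∧ Real.cosh u = x :=
      ⟨Real.arcosh x, Real.arcosh_nonneg h, Real.cosh_arcosh h⟩
    have hu1 : u ≤ η / 4 := by
      have := Real.cosh_le_cosh.1 hx.2
      rwa [abs_of_nonneg hu0, abs_of_nonneg (by positivity)] at this
    simp only [Polynomial.Chebyshev.T_real_cosh, Int.cast_natCast]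
    have h4 := h2 (u / η) ⟨by positivity, by rw [div_le_iff₀ hη]; linarith⟩
    have h5 : ∀ p, u / η * (n p * η) = n p * u := fun p => by field_simp
    simp only [h5] at h4
    have h6 := hsum (B := Real.cosh (δ / 4)) (f := fun m => Real.cosh (m * u)) fun m hm => by
      have hm' : (m : ℝ) ≤ N := by exact_mod_cast hm.le
      have h7 : 0 ≤ δ := le_trans (by positivity) hNδ
      rw [Real.cosh_le_cosh, abs_of_nonneg (by positivity), abs_of_nonneg (by positivity)]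
      have := mul_le_mul hm' hu1 hu0 hN'.le
      linarith
    linarith

theorem cos_step {V H : Type} [AddCommGroup V] [Module ℂ V] [NormedAddCommGroup H]
    [InnerProductSpace ℂ H] [CompleteSpace H] (E : V →ₗ[ℂ] H) (C : ℝ → Module.End ℂ V)
    (h0 : C 0 = 1) (hadd : ∀ a b, C (a + b) + C (a - b) = 2 * (C a * C b))
    (hsym : ∀ a φ ψ, ⟪E (C a φ), E ψ⟫_ℂ = ⟪E φ, E (C a ψ)⟫_ℂ) {η : ℝ}
    (hb : ∀ φ, ‖E (C η φ)‖ ≤ Real.cosh (η / 4) * ‖E φ‖) (s : ℕ → ℝ) (n : ℕ → ℕ) (N : ℕ)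
    (L : List ℕ) (G : (ℕ → ℤ) → ℝ) (u w : ℝ)
    (h : ∀ x ∈ Set.Icc (-1) (Real.cosh (η / 4)),
      Ex (fun p => s p * (Polynomial.Chebyshev.T ℝ (n p)).eval x) L G ≤
        u - w * ∑ m ∈ Finset.range N, (Polynomial.Chebyshev.T ℝ (m : ℕ)).eval x) (φ : V) :
    re ⟪E φ, E (Op (cι (Module.End ℂ V)) (fun p => (s p : ℂ) • C (n p * η)) L G φ)⟫_ℂ ≤
      u * ‖E φ‖ ^ 2 - w * ∑ m ∈ Finset.range N, re ⟪E φ, E (C (m * η) φ)⟫_ℂ := by
  set P : ℝ[X] := Op (Polynomial.C : ℝ →+* ℝ[X])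
    (fun p => Polynomial.C (s p) * Polynomial.Chebyshev.T ℝ (n p)) L G with hP
  have h1 := cos_polyPos E (C η) (hsym η) hb (fun ψ => by
      have := cos_half h0 hadd hsym η ψ
      nlinarith [sq_nonneg ‖E (C (η / 2) ψ)‖])
    (Polynomial.C u - Polynomial.C w * ∑ m ∈ Finset.range N, Polynomial.Chebyshev.T ℝ (m : ℕ) - P)
    (fun x hx => by
      have h2 : P.eval x = Ex (fun p => s p * (Polynomial.Chebyshev.T ℝ (n p)).eval x) L G := by
        have h3 : (Polynomial.evalRingHom x).comp (Polynomial.C : ℝ →+* ℝ[X]) = RingHom.id ℝ :=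
          RingHom.ext fun r => by simp
        rw [← Polynomial.coe_evalRingHom, hP, Op_map, h3]
        simp
      have := h x hx
      simp only [Polynomial.eval_sub, Polynomial.eval_mul, Polynomial.eval_C,
        Polynomial.eval_finsetSum, h2]
      linarith) φ
  have h2 : cos_ev (C η) P = Op (cι (Module.End ℂ V)) (fun p => (s p : ℂ) • C (n p * η)) L G := by
    rw [hP, Op_map, cos_ev_comp_C]
    congr 1
    funext p
    rw [map_mul, cos_ev_C, cos_cheb h0 hadd]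
    exact LinearMap.ext fun v => by simp [cos_ι_apply]
  simp only [map_sub, map_mul, map_sum, cos_ev_C, cos_cheb h0 hadd, h2, LinearMap.sub_apply,
    Module.End.mul_apply, cos_ι_apply, LinearMap.sum_apply, map_smul, inner_sub_right,
    inner_smul_right, inner_sum, sub_re, re_ofReal_mul, re_sum, inner_self_eq_norm_sq_to_K,
    coe_algebraMap, ← ofReal_pow, ofReal_re, ← Finset.mul_sum] at h1
  linarith

theorem cos_tube {f : ℝ → ℝ} (hf : Continuous f) (s y₀ : ℕ → ℝ) (L : List ℕ) (G : (ℕ → ℤ) → ℝ)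
    {T e e' : ℝ} (he : e < e') (h : ∀ t ∈ Set.Icc 0 T, Ex (fun p => s p * f (t * y₀ p)) L G ≤ e) :
    ∀ᶠ y in 𝓝 y₀, ∀ t ∈ Set.Icc 0 T, Ex (fun p => s p * f (t * y p)) L G ≤ e' := by
  refine isCompact_Icc.eventually_forall_of_forall_eventually fun t ht => ?_
  have h1 : Continuous fun z : (ℕ → ℝ) × ℝ => Ex (fun p => s p * f (z.2 * z.1 p)) L G :=
    continuous_Ex (m := fun z : (ℕ → ℝ) × ℝ => fun p => s p * f (z.2 * z.1 p))
      (fun p => by fun_prop) L G
  have h2 := h1.continuousAt.eventually_lt (x₀ := (y₀, t)) (g := fun _ => e') continuousAt_const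
    ((h t ht).trans_lt he)
  exact h2.mono fun z hz => hz.le

theorem cos_family {V H : Type} [AddCommGroup V] [Module ℂ V] [NormedAddCommGroup H]
    [InnerProductSpace ℂ H] [CompleteSpace H] (E : V →ₗ[ℂ] H) (C : ℝ → Module.End ℂ V)
    (h0 : C 0 = 1) (hadd : ∀ a b, C (a + b) + C (a - b) = 2 * (C a * C b))
    (hsym : ∀ a φ ψ, ⟪E (C a φ), E ψ⟫_ℂ = ⟪E φ, E (C a ψ)⟫_ℂ)
    (hc : ∀ φ ψ, Continuous fun a => ⟪E φ, E (C a ψ)⟫_ℂ)
    (hb : ∀ φ, cp 3 * ‖E (C (2 * Real.log 3) φ)‖ ≤ ‖E φ‖)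
    {σ : ℕ → ℝ} (hσ : ∀ p, σ p = 1 ∨ σ p = -1) (φ : V) {ε : ℝ} (hε : 0 < ε) :
    ∃ L G, Good ε L G ∧ re ⟪E φ, E (Op (cι (Module.End ℂ V))
      (fun p => ((σ p * cp p : ℝ) : ℂ) • C (2 * Real.log p)) L G φ)⟫_ℂ ≤ ε := by
  set b := 2 * Real.log 3 with hbdef
  have hb0 : 0 < b := mul_pos two_pos (Real.log_pos (by norm_num))
  have hb' : ∀ ψ, ‖E (C b ψ)‖ ≤ Real.cosh (b / 4) * ‖E ψ‖ := fun ψ => by
    have h1 := cp_mul_cosh (p := 3) (by norm_num)
    rw [show (1 / 4 * (2 * Real.log (3 : ℕ)) : ℝ) = b / 4 by rw [hbdef]; push_cast; ring] at h1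
    have h2 := mul_le_mul_of_nonneg_left (hb ψ) (Real.cosh_pos (b / 4)).le
    rwa [← mul_assoc, mul_comm (Real.cosh _), h1, one_mul] at h2
  set k : ℝ → ℝ := fun a => re ⟪E φ, E (C a φ)⟫_ℂ with hk
  set M := ‖E φ‖ ^ 2 with hM
  have hM0 : 0 ≤ M := sq_nonneg _
  have hk0 : k 0 = M := by
    simp only [hk, h0, Module.End.one_apply, inner_self_eq_norm_sq_to_K, coe_algebraMap,
      ← ofReal_pow, ofReal_re, hM]
  have hkc : Continuous k := continuous_re.comp (hc φ φ)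
  obtain ⟨δ, hδ, hδk⟩ : ∃ δ > 0, ∀ a ∈ Set.Icc 0 δ, Real.cosh (δ / 4) * M - k a ≤ ε / 4 := by
    have h1 : ∀ᶠ a in 𝓝 (0 : ℝ), M - k a < ε / 8 :=
      (show Continuous fun a => M - k a by fun_prop).continuousAt.eventually_lt continuousAt_const
        (by rw [hk0]; linarith)
    have h2 : ∀ᶠ a in 𝓝 (0 : ℝ), Real.cosh (a / 4) * M - M < ε / 8 :=
      (show Continuous fun a => Real.cosh (a / 4) * M - M by
        fun_prop).continuousAt.eventually_lt continuousAt_const (by simp; linarith)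
    obtain ⟨r, hr, h3⟩ := Metric.eventually_nhds_iff.1 (h1.and h2)
    refine ⟨r / 2, by positivity, fun a ha => ?_⟩
    have h4 := (h3 (y := a) (by rw [Real.dist_eq, sub_zero, abs_of_nonneg ha.1]; linarith [ha.2])).1
    have h5 := (h3 (y := r / 2) (by
      rw [Real.dist_eq, sub_zero, abs_of_nonneg (by positivity)]; linarith)).2
    linarith
  obtain ⟨e, he, he1, he2⟩ : ∃ e > 0, e ≤ ε ∧ 2 * e * M ≤ ε / 2 := by
    refine ⟨ε / (4 * (M + 1)), by positivity, ?_, ?_⟩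
    · rw [div_le_iff₀ (by positivity)]; nlinarith
    · rw [show 2 * (ε / (4 * (M + 1))) * M = ε / 2 * (M / (M + 1)) by field_simp; ring]
      exact mul_le_of_le_one_right (by positivity) ((div_le_one (by positivity)).2 (by linarith))
  obtain ⟨L, G, hG, h1, h2⟩ := chaos hσ (4 * π / δ) he
  refine ⟨L, G, hG.mono he1, ?_⟩
  set η : ℕ → ℝ := fun j => b / 2 ^ j with hη
  have hη0 : ∀ j, 0 < η j := fun j => by positivity
  have hηt : Tendsto η atTop (𝓝 0) :=
    tendsto_const_nhds.div_atTop (tendsto_pow_atTop_atTop_of_one_lt one_lt_two)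
  set x : ℕ → ℕ → ℝ := fun j p => ⌊2 * Real.log p / η j⌋₊ * η j with hx
  have hxt : Tendsto x atTop (𝓝 fun p => 2 * Real.log p) := by
    refine tendsto_pi_nhds.2 fun p => ?_
    have h3 : 0 ≤ 2 * Real.log p := mul_nonneg zero_le_two (Real.log_natCast_nonneg p)
    refine tendsto_of_tendsto_of_tendsto_of_le_of_le (g := fun j => 2 * Real.log p - η j)
      (h := fun _ => 2 * Real.log p) (by simpa using hηt.const_sub _) tendsto_const_nhds
      (fun j => ?_) fun j => ?_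
    · have h4 := Nat.lt_floor_add_one (2 * Real.log p / η j)
      rw [div_lt_iff₀ (hη0 j)] at h4
      simp only [hx]
      linarith
    · exact (le_div_iff₀ (hη0 j)).1 (Nat.floor_le (div_nonneg h3 (hη0 j).le))
  have h3 := cos_tube Real.continuous_cos (fun p => σ p * cp p) (fun p : ℕ => 2 * Real.log p) L G
    (show e < 2 * e by linarith) h1
  have h4 := cos_tube Real.continuous_cosh (fun p => σ p * cp p) (fun p : ℕ => 2 * Real.log p) L G
    (show e < 2 * e by linarith) h2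
  have h5 := cos_cont hadd hc (fun p => ((σ p * cp p : ℝ) : ℂ)) φ L G (fun _ => 0) continuous_const
  simp only [h0, mul_one] at h5
  refine le_of_tendsto (((continuous_re.comp h5).tendsto _).comp hxt) ?_
  filter_upwards [hxt.eventually h3, hxt.eventually h4,
    hηt.eventually (gt_mem_nhds (half_pos hδ))] with j h6 h7 h8
  set N := ⌊δ / η j⌋₊ with hN
  have hN1 : N * η j ≤ δ := (le_div_iff₀ (hη0 j)).1 (Nat.floor_le (div_nonneg hδ.le (hη0 j).le))
  have hN2 : δ / 2 ≤ N * η j := by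
    have h9 := Nat.lt_floor_add_one (δ / η j)
    rw [div_lt_iff₀ (hη0 j)] at h9
    linarith
  have hN3 : 0 < N := by
    rcases Nat.eq_zero_or_pos N with h | h
    · rw [h] at hN2; simp only [Nat.cast_zero, zero_mul] at hN2; linarith
    · exact h
  have hN4 : (0 : ℝ) < N := by exact_mod_cast hN3
  have hT : 2 * π ≤ 4 * π / δ * (N * η j) := by
    have := mul_le_mul_of_nonneg_left hN2 (show 0 ≤ 4 * π / δ by positivity)
    rwa [show 4 * π / δ * (δ / 2) = 2 * π by field_simp; ring] at this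
  have h9 := cos_step E C h0 hadd hsym (cos_bound h0 hadd hsym hb' j) (fun p => σ p * cp p)
    (fun p => ⌊2 * Real.log p / η j⌋₊) N L G _ _
    (fun y hy => cos_point hσ hG.toTest (hη0 j) (by positivity) _ hN3 hN1 hT h6 h7 hy) φ
  refine h9.trans ?_
  have h10 := Finset.card_nsmul_le_sum (Finset.range N) (fun m : ℕ => k (m * η j))
    (Real.cosh (δ / 4) * M - ε / 4) fun m hm => by
      have hm' : (m : ℝ) ≤ N := by exact_mod_cast (Finset.mem_range.1 hm).le
      have := hδk (m * η j) ⟨by have := hη0 j; positivity,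
        (mul_le_mul_of_nonneg_right hm' (hη0 j).le).trans hN1⟩
      linarith
  rw [Finset.card_range, nsmul_eq_mul] at h10
  have h11 := mul_le_mul_of_nonneg_left h10 (show (0 : ℝ) ≤ 2 / N by positivity)
  rw [show 2 / (N : ℝ) * (N * (Real.cosh (δ / 4) * M - ε / 4)) =
    2 * (Real.cosh (δ / 4) * M - ε / 4) by field_simp] at h11
  change _ * M - 2 / (N : ℝ) * ∑ m ∈ Finset.range N, k (m * η j) ≤ ε
  linarith

end Pool.Agent.Lib.MP_e6abdd_an
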