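import Pool.Agent.Lib.MP_e6abdd_an.CuspC

/-!
Pointwise bounds for the smoothing operator in the three cusps.
-/

namespace Pool.Agent.Lib.MP_e6abdd_an

open Complex hiding Gamma
open UpperHalfPlane hiding I
open MeasureTheory Filter Topology CongruenceSubgroup Metric
open scoped Real MatrixGroups ComplexConjugate InnerProductSpace

open ModularGroup (S T)

variable {j w : ℤ} {η : ℝ} {f g : ℍ → ℂ}

structure CuspNb (g : ℍ → ℂ) (n : ℝ) : Prop where
  bc : BC g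
  lev : Lev 2 fun τ => conj (g τ) * g τ
  le : (mean fun τ => conj (g τ) * g τ).re ≤ n ^ 2
  nonneg : 0 ≤ n

theorem cusp_per {F : ℍ → ℂ} (h : Lev 2 F) (m : ℤ) (τ : ℍ) : F (aff 1 (2 * m) τ) = F τ := by
  have h1 := h.inv (T ^ (2 * m)) (mem_gamma2.2 (by
    rw [ModularGroup.coe_T_zpow]; simp)) τ
  rw [T_zpow_smul] at h1
  simpa using h1

theorem cusp_box : ∃ C : ℝ, 0 ≤ C ∧ ∀ F : ℍ → ℝ, Lev 2 (fun τ => (F τ : ℂ)) → (∀ τ, 0 ≤ F τ) →
    ∀ τ : ℍ, 3 / 4 ≤ τ.im →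
      ∫ σ in closedBall τ 4, F σ ≤ C * τ.im * (mean fun τ => (F τ : ℂ)).re := by
  set E := Real.exp 4 with hE
  have hE0 : 0 < E := Real.exp_pos 4
  obtain ⟨C, hC, h⟩ := siegel (δ := 3 / 4 / E) (by positivity)
  refine ⟨(E + 4) * C, by positivity, fun F hF h0 τ hτ => ?_⟩
  obtain ⟨hi, hle⟩ := h F hF h0
  set U := strip ∩ {τ : ℍ | 3 / 4 / E ≤ τ.im} with hU
  have hUm : MeasurableSet U :=
    measurableSet_strip.inter (isClosed_le continuous_const UpperHalfPlane.continuous_im).measurableSet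
  have hi' : Integrable (U.indicator F) := (integrable_indicator_iff hUm).2 hi
  have hFc : Continuous F := by
    simpa [Function.comp_def] using Complex.continuous_re.comp hF.cont
  set s := Finset.Icc ⌊-(τ.re + τ.im * E) / 2⌋ ⌊-(τ.re - τ.im * E) / 2 + 1⌋ with hs
  have hcard : (s.card : ℝ) ≤ τ.im * E + 3 := by
    have h1 := Int.floor_le (-(τ.re - τ.im * E) / 2 + 1)
    have h2 := Int.lt_floor_add_one (-(τ.re + τ.im * E) / 2)
    have h3 : 0 < τ.im * E := mul_pos τ.im_pos hE0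
    have h4 : ⌊-(τ.re + τ.im * E) / 2⌋ ≤ ⌊-(τ.re - τ.im * E) / 2 + 1⌋ + 1 :=
      (Int.floor_mono (by linarith)).trans (le_add_of_nonneg_right zero_le_one)
    have h5 : ((s.card : ℤ) : ℝ) = _ := congrArg Int.cast (Int.card_Icc_of_le _ _ h4)
    push_cast at h5
    linarith
  have hcomp : ∀ m : ℤ, Integrable fun σ => U.indicator F (aff 1 (2 * m) σ) := fun m =>
    ((measurePreserving_aff one_pos _).integrable_comp hi'.aestronglyMeasurable).2 hi'
  have h1 : ∫ σ, (closedBall τ 4).indicator F σ ≤ ∫ σ, ∑ m ∈ s, U.indicator F (aff 1 (2 * m) σ) := by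
    refine integral_mono ((integrable_indicator_iff measurableSet_closedBall).2
      (hFc.continuousOn.integrableOn_compact (isCompact_closedBall _ _)))
      (integrable_finsetSum _ fun m _ => hcomp m) fun σ => ?_
    have hn : ∀ m ∈ s, 0 ≤ U.indicator F (aff 1 (2 * (m : ℤ)) σ) := fun m _ =>
      Set.indicator_nonneg (fun _ _ => h0 _) _
    by_cases hσ : σ ∈ closedBall τ 4
    · have d1 : Real.exp (dist σ τ) ≤ E := Real.exp_le_exp.2 hσ
      have d2 := dist_coe_le σ τ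
      have d3 := abs_re_le_norm ((σ : ℂ) - τ)
      have d4 := im_div_exp_dist_le τ σ
      rw [Complex.dist_eq] at d2
      rw [sub_re, coe_re, coe_re] at d3
      rw [dist_comm] at d4
      have d5 : τ.im * (Real.exp (dist σ τ) - 1) ≤ τ.im * E :=
        mul_le_mul_of_nonneg_left (by linarith) τ.im_pos.le
      have d6 := abs_le.1 (d3.trans (d2.trans d5))
      have m1 := Int.floor_le (-σ.re / 2 + 1)
      have m2 := Int.lt_floor_add_one (-σ.re / 2 + 1)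
      set m := ⌊-σ.re / 2 + 1⌋ with hm
      have hms : m ∈ s := Finset.mem_Icc.2
        ⟨Int.floor_mono (by linarith [d6.2]), Int.floor_mono (by linarith [d6.1])⟩
      have hmU : aff 1 (2 * m) σ ∈ U := by
        refine ⟨?_, ?_⟩
        · change (aff 1 (2 * m) σ).re ∈ Set.Ioc (0 : ℝ) 2
          rw [aff_re one_pos]
          constructor <;> linarith
        · change 3 / 4 / E ≤ (aff 1 (2 * m) σ).im
          rw [aff_im one_pos, one_mul]
          exact (div_le_div₀ τ.im_pos.le hτ (Real.exp_pos _) d1).trans d4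
      refine le_trans ?_ (Finset.single_le_sum hn hms)
      rw [Set.indicator_of_mem hσ, Set.indicator_of_mem hmU]
      exact (ofReal_injective (cusp_per hF m σ)).ge
    · rw [Set.indicator_of_notMem hσ]
      exact Finset.sum_nonneg hn
  rw [integral_indicator measurableSet_closedBall, integral_finsetSum _ fun m _ => hcomp m] at h1
  simp only [cusp_int_comp (measurePreserving_aff one_pos _) hi'.aestronglyMeasurable,
    integral_indicator hUm, Finset.sum_const, nsmul_eq_mul] at h1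
  have h2 : 0 ≤ ∫ σ in U, F σ := integral_nonneg h0
  calc _ ≤ s.card * ∫ σ in U, F σ := h1
    _ ≤ ((E + 4) * τ.im) * (C * (mean fun τ => (F τ : ℂ)).re) :=
      mul_le_mul (by linarith) hle h2 (by positivity)
    _ = _ := by ring

theorem cusp_ball : ∃ C : ℝ, 0 ≤ C ∧ ∀ (g : ℍ → ℂ) (n : ℝ), CuspNb g n → ∀ τ : ℍ, 3 / 4 ≤ τ.im →
    ∫ σ in closedBall τ 4, ‖g σ‖ ≤ C * √τ.im * n := by
  obtain ⟨C, hC, h⟩ := cusp_box
  set μ := volume.real (closedBall UpperHalfPlane.I 4) with hμ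
  refine ⟨(μ + C) / 2, by positivity, fun g n hg τ hτ => ?_⟩
  have hlev := hg.lev
  have hle := hg.le
  simp only [cusp_sq] at hlev hle
  rcases hg.nonneg.eq_or_lt with rfl | hn
  · have : ∀ σ, ‖g σ‖ = 0 := fun σ => by
      have := eq_zero_of_mean ⟨2, hlev⟩ (fun τ => by rw [ofReal_re]; positivity)
        (by simpa using hle) σ
      rwa [ofReal_re, pow_eq_zero_iff two_ne_zero] at this
    simp [this]
  have h1 := h (fun σ => ‖g σ‖ ^ 2) hlev (fun _ => by positivity) τ hτ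
  have hy := τ.im_pos
  set l := √τ.im * n with hl
  have hl0 : 0 < l := by positivity
  have hl2 : l ^ 2 = τ.im * n ^ 2 := by rw [hl, mul_pow, Real.sq_sqrt hy.le]
  have hm : volume.real (closedBall τ 4) = μ := by
    have : aff τ.im τ.re ⁻¹' closedBall τ 4 = closedBall UpperHalfPlane.I 4 := by
      ext σ
      rw [Set.mem_preimage, mem_closedBall, mem_closedBall, ← cusp_dist_aff hy τ.re σ, cusp_aff_I]
    rw [hμ, ← this, measureReal_def, measureReal_def, (measurePreserving_aff hy _).measure_preimage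
      measurableSet_closedBall.nullMeasurableSet]
  have hK := isCompact_closedBall τ 4
  have i2 : IntegrableOn (fun σ => ‖g σ‖ ^ 2) (closedBall τ 4) :=
    (hg.bc.cont.norm.pow 2).continuousOn.integrableOn_compact hK
  have i0 : IntegrableOn (fun _ : ℍ => l ^ 2) (closedBall τ 4) :=
    continuous_const.continuousOn.integrableOn_compact hK
  have h2 : ∫ σ in closedBall τ 4, 2 * l * ‖g σ‖ ≤ ∫ σ in closedBall τ 4, (l ^ 2 + ‖g σ‖ ^ 2) :=
    integral_mono ((hg.bc.cont.norm.continuousOn.integrableOn_compact hK).const_mul _) (i0.add i2)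
      fun σ => by
        have := sq_nonneg (l - ‖g σ‖)
        simp only
        linarith
  rw [integral_const_mul, integral_add i0 i2, setIntegral_const, hm, smul_eq_mul] at h2
  have h3 : C * τ.im * (mean fun τ => ((‖g τ‖ ^ 2 : ℝ) : ℂ)).re ≤ C * τ.im * n ^ 2 :=
    mul_le_mul_of_nonneg_left hle (by positivity)
  refine le_of_mul_le_mul_left ?_ (show 0 < 2 * l by positivity)
  calc _ ≤ μ * l ^ 2 + C * (τ.im * n ^ 2) := by linarith
    _ = _ := by rw [← hl2, mul_assoc _ (√τ.im), ← hl]; ring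

theorem cusp_int_le {κ : ℍ → ℂ} {M : ℝ} {τ : ℍ} (h0 : ∀ σ, σ ∉ closedBall τ 4 → κ σ = 0)
    (hM : ∀ σ, ‖κ σ‖ ≤ M) (hg : BC g) :
    ‖∫ σ, κ σ * g σ‖ ≤ M * ∫ σ in closedBall τ 4, ‖g σ‖ := by
  rw [← integral_const_mul, ← integral_indicator measurableSet_closedBall]
  refine norm_integral_le_of_norm_le ((integrable_indicator_iff measurableSet_closedBall).2
    ((hg.cont.norm.continuousOn.integrableOn_compact (isCompact_closedBall _ _)).const_mul _))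
    (Eventually.of_forall fun σ => ?_)
  by_cases hσ : σ ∈ closedBall τ 4
  · rw [Set.indicator_of_mem hσ, norm_mul]
    exact mul_le_mul_of_nonneg_right (hM σ) (norm_nonneg _)
  · simp [Set.indicator_of_notMem hσ, h0 σ hσ]

theorem cuspk_far {τ σ : ℍ} (h : η ≤ dist τ σ) : cuspk w η τ σ = 0 := by
  rw [← norm_eq_zero, norm_cuspk, cusprho_zero h]

theorem cusp_loc (w : ℤ) (hη : η ≤ 1) : ∃ C : ℝ, 0 ≤ C ∧ ∀ (g : ℍ → ℂ) (n : ℝ), CuspNb g n →
    ∀ τ : ℍ, 3 / 4 ≤ τ.im → ‖cuspR w η g τ‖ ≤ C * √τ.im * n := by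
  obtain ⟨C, hC, h⟩ := cusp_ball
  have hm := inv_nonneg.2 (cuspm_nonneg η)
  refine ⟨(cuspm η)⁻¹ * C, by positivity, fun g n hg τ hτ => ?_⟩
  refine (cusp_int_le (τ := τ) (fun σ hσ => cuspk_far ?_)
    (fun σ => (norm_cuspk τ σ).trans_le (cusprho_le hη τ σ)) hg.bc).trans ?_
  · rw [mem_closedBall', not_le] at hσ
    linarith
  · simp only [mul_assoc] at h ⊢
    exact mul_le_mul_of_nonneg_left (h g n hg τ hτ) hm

theorem cusp_arctan (a b : ℝ) : |Real.arctan a - Real.arctan b| ≤ |a - b| := by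
  have h : LipschitzWith 1 Real.arctan := lipschitzWith_of_nnnorm_deriv_le Real.differentiable_arctan
    fun x => by
      rw [Real.deriv_arctan, ← NNReal.coe_le_coe, coe_nnnorm, Real.norm_of_nonneg (by positivity)]
      exact (div_le_one (by positivity)).2 (by simpa using sq_nonneg x)
  simpa [Real.dist_eq] using h.dist_le_mul a b

theorem cusp_arg {z : ℂ} (hz : 0 < z.re) : arg z = Real.arctan (z.im / z.re) := by
  have h1 := abs_lt.1 (abs_arg_lt_pi_div_two_iff.2 (Or.inl hz))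
  rw [← tan_arg, Real.arctan_tan h1.1 h1.2]

theorem cusp_ph_sub (w : ℤ) (a b : ℂ) : ‖ph w a - ph w b‖ ≤ |(w : ℝ)| * |arg a - arg b| / 2 := by
  have h : ph w a - ph w b = ph w b * (cexp (I * (w * (arg a - arg b) / 2 : ℝ)) - 1) := by
    rw [mul_sub, mul_one, ph, ph, ← Complex.exp_add]
    congr 2
    push_cast
    ring
  rw [h, norm_mul, norm_ph, one_mul]
  refine Real.norm_exp_I_mul_ofReal_sub_one_le.trans ?_
  rw [Real.norm_eq_abs, abs_div, abs_mul, abs_two]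

theorem cusp_dist_shift (τ : ℍ) {t : ℝ} (ht : t ∈ Set.Icc (0 : ℝ) 2) :
    dist τ (aff 1 t τ) ≤ 2 / τ.im := by
  refine (dist_le_dist_coe_div_sqrt _ _).trans ?_
  rw [aff_im one_pos, one_mul, Real.sqrt_mul_self τ.im_pos.le, coe_aff one_pos, Complex.dist_eq]
  refine div_le_div_of_nonneg_right ?_ τ.im_pos.le
  simpa [abs_of_nonneg ht.1] using ht.2

theorem cuspk_lip (hη : η ≤ 1) (τ σ : ℍ) {t : ℝ} (ht : t ∈ Set.Icc (0 : ℝ) 2) :
    ‖cuspk w η τ σ - cuspk w η (aff 1 t τ) σ‖ ≤ (cuspm η)⁻¹ * (2 + |(w : ℝ)|) / τ.im := by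
  have hm := cuspm_nonneg η
  have hy := τ.im_pos
  have h1 : |cusprho η τ σ - cusprho η (aff 1 t τ) σ| ≤ (cuspm η)⁻¹ * (2 / τ.im) := by
    rw [cusprho, cusprho, ← sub_div, abs_div, abs_of_nonneg hm, div_eq_inv_mul]
    refine mul_le_mul_of_nonneg_left ?_ (inv_nonneg.2 hm)
    rw [max_comm, max_comm 0]
    refine (abs_max_sub_max_le_abs _ _ _).trans (le_trans ?_ (cusp_dist_shift τ ht))
    rw [sub_sub_sub_cancel_left, dist_comm τ (aff 1 t τ)]
    exact abs_dist_sub_le _ _ _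
  have h2 : |arg (cuspD τ σ) - arg (cuspD (aff 1 t τ) σ)| ≤ 2 / τ.im := by
    rw [cusp_arg (cuspD_re_pos _ _), cusp_arg (cuspD_re_pos _ _)]
    refine (cusp_arctan _ _).trans ?_
    have := σ.im_pos
    rw [cuspD_re, cuspD_re, cuspD_im, cuspD_im, aff_im one_pos, aff_re one_pos, one_mul, one_mul,
      ← sub_div, abs_div, abs_of_pos (add_pos hy this)]
    refine div_le_div₀ zero_le_two ?_ hy (by linarith)
    rw [show σ.re - τ.re - (σ.re - (τ.re + t)) = t by ring, abs_of_nonneg ht.1]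
    exact ht.2
  have h3 := (cusp_ph_sub w (cuspD τ σ) (cuspD (aff 1 t τ) σ)).trans
    (div_le_div_of_nonneg_right (mul_le_mul_of_nonneg_left h2 (abs_nonneg _)) zero_le_two)
  have e : cuspk w η τ σ - cuspk w η (aff 1 t τ) σ =
      ((cusprho η τ σ - cusprho η (aff 1 t τ) σ : ℝ) : ℂ) * conj (ph w (cuspD τ σ)) +
        cusprho η (aff 1 t τ) σ * conj (ph w (cuspD τ σ) - ph w (cuspD (aff 1 t τ) σ)) := by
    simp only [cuspk, ofReal_sub, map_sub]; ring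
  rw [e]
  refine (norm_add_le _ _).trans ?_
  rw [norm_mul, norm_mul, RCLike.norm_conj, RCLike.norm_conj, norm_ph, mul_one, Complex.norm_real,
    Complex.norm_real, Real.norm_of_nonneg (cusprho_nonneg _ _)]
  calc _ ≤ (cuspm η)⁻¹ * (2 / τ.im) + (cuspm η)⁻¹ * (|(w : ℝ)| * (2 / τ.im) / 2) :=
      add_le_add h1 (mul_le_mul (cusprho_le hη _ _) h3 (norm_nonneg _) (inv_nonneg.2 hm))
    _ = _ := by ring

theorem cusp_diff (w : ℤ) (hη : η ≤ 1) : ∃ C : ℝ, 0 ≤ C ∧ ∀ (g : ℍ → ℂ) (n : ℝ), CuspNb g n →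
    ∀ τ : ℍ, 3 / 4 ≤ τ.im → ∀ t ∈ Set.Icc (0 : ℝ) 2,
      ‖cuspR w η g τ - cuspR w η g (aff 1 t τ)‖ ≤ C * n := by
  obtain ⟨C, hC, h⟩ := cusp_ball
  have hm := inv_nonneg.2 (cuspm_nonneg η)
  set L := (cuspm η)⁻¹ * (2 + |(w : ℝ)|) with hL
  have hL0 : 0 ≤ L := by positivity
  refine ⟨L * C * 2, by positivity, fun g n hg τ hτ t ht => ?_⟩
  have hy := τ.im_pos
  rw [cuspR, cuspR, ← integral_sub (cusp_mul_int (cuspk_int _) hg.bc)
    (cusp_mul_int (cuspk_int _) hg.bc)]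
  simp only [← sub_mul]
  refine (cusp_int_le (τ := τ) (fun σ hσ => ?_) (fun σ => cuspk_lip hη τ σ ht) hg.bc).trans ?_
  · rw [mem_closedBall', not_le] at hσ
    have h1 := cusp_dist_shift τ ht
    have h2 : 2 / τ.im ≤ 3 := by rw [div_le_iff₀ hy]; linarith
    have h3 := dist_triangle τ (aff 1 t τ) σ
    rw [cuspk_far (by linarith), cuspk_far (by linarith), sub_zero]
  · have h1 : √τ.im ≤ 2 * τ.im := Real.sqrt_le_iff.2 ⟨by positivity, by nlinarith⟩
    have := hg.nonneg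
    calc _ ≤ L / τ.im * (C * √τ.im * n) := mul_le_mul_of_nonneg_left (h g n hg τ hτ) (by positivity)
      _ ≤ L / τ.im * (C * (2 * τ.im) * n) := by gcongr
      _ = _ := by field_simp

/-- The expansion at the cusp `1`. -/
noncomputable def cuspone (j : ℤ) (f : ℍ → ℂ) : ℍ → ℂ := sop j fun σ => f (aff 1 1 σ)

theorem cusp_nb (f : AH j) : CuspNb f.fn ‖f‖ :=
  ⟨f.bc, f.lev f, (AH.norm_sq f).ge, norm_nonneg _⟩

theorem cuspone_sq (τ : ℍ) :
    conj (cuspone j f τ) * cuspone j f τ = conj (f ((T * S) • τ)) * f ((T * S) • τ) := by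
  have h := T_zpow_smul 1 (S • τ)
  rw [zpow_one, Int.cast_one] at h
  rw [cusp_sq, cusp_sq, cuspone, norm_sop, mul_smul, h]

theorem cusp_nb_one (f : AH j) : CuspNb (cuspone j f.fn) ‖f‖ := by
  refine ⟨(f.bc.aff one_pos 1).sop j, ?_, ?_, norm_nonneg _⟩ <;> simp only [cuspone_sq]
  · exact (f.lev f).smul (T * S)
  · rw [mean_smul (f.ll f) (T * S), AH.norm_sq]

theorem cuspR_one (hf : BC f) :
    cuspR (4 * j + 1) η (cuspone j f) = cuspone j (cuspR (4 * j + 1) η f) := by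
  funext τ
  rw [cuspone, cuspR_sop (hf.aff one_pos 1), funext (cuspR_aff hf one_pos 1), cuspone]

theorem cusp_cover (j : ℤ) (τ : ℍ) : ∃ σ : ℍ, 3 / 4 ≤ σ.im ∧
    (∃ c d, IsCoprime c d ∧ σ.im = hgt c d τ) ∧ ((∀ F : AH j, ‖F.fn τ‖ = ‖F.fn σ‖) ∨
      (∀ F : AH j, ‖F.fn τ‖ = ‖sop j F.fn σ‖) ∨ ∀ F : AH j, ‖F.fn τ‖ = ‖cuspone j F.fn σ‖) := by
  obtain ⟨c, d, hcd, h⟩ := exists_hgt τ
  have key : ∀ δ : SL(2, ℤ), Even (c * δ 0 0 + d * δ 1 0) →
      ∃ γ ∈ Gamma 2, (γ • δ⁻¹ • τ).im = hgt c d τ := fun δ he => by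
    obtain ⟨γ, hγ, h1, h2⟩ := exists_gamma2_row ((isCoprime_rowEquiv δ (c, d)).2 hcd) he
    refine ⟨γ, hγ, ?_⟩
    rw [im_SL_smul, h1, h2]
    conv_rhs => rw [← smul_inv_smul δ τ, hgt_smul]
    rfl
  have inv : ∀ (F : AH j) (δ : SL(2, ℤ)), ∀ γ ∈ Gamma 2,
      ‖F.fn τ‖ = ‖F.fn (δ • γ • δ⁻¹ • τ)‖ := fun F δ γ hγ => by
    have h1 := ((F.lev F).smul δ).inv γ hγ (δ⁻¹ • τ)
    simp only [smul_inv_smul, cusp_sq, ofReal_inj] at h1
    exact ((pow_left_inj₀ (norm_nonneg _) (norm_nonneg _) two_ne_zero).1 h1).symm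
  rcases Int.even_or_odd c with hc | hc
  · obtain ⟨γ, hγ, h1⟩ := key 1 (by simpa using hc)
    exact ⟨_, h1 ▸ h, ⟨c, d, hcd, h1⟩, Or.inl fun F => by rw [inv F 1 γ hγ, one_smul]⟩
  rcases Int.even_or_odd d with hd | hd
  · obtain ⟨γ, hγ, h1⟩ := key S (by simpa [ModularGroup.S] using hd)
    exact ⟨_, h1 ▸ h, ⟨c, d, hcd, h1⟩, Or.inr (Or.inl fun F => by rw [inv F S γ hγ, norm_sop])⟩
  · obtain ⟨γ, hγ, h1⟩ := key (T * S) (by
      have e1 : (T * S) 0 0 = 1 := by decide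
      have e2 : (T * S) 1 0 = 1 := by decide
      rw [e1, e2, mul_one, mul_one]
      exact hc.add_odd hd)
    refine ⟨_, h1 ▸ h, ⟨c, d, hcd, h1⟩, Or.inr (Or.inr fun F => ?_)⟩
    have h2 := cuspone_sq (j := j) (f := F.fn) (γ • (T * S)⁻¹ • τ)
    simp only [cusp_sq, ofReal_inj] at h2
    rw [inv F (T * S) γ hγ, (pow_left_inj₀ (norm_nonneg _) (norm_nonneg _) two_ne_zero).1 h2]

theorem cusp_hgt (j : ℤ) (hη : η ≤ 1) : ∃ C : ℝ, 0 ≤ C ∧ ∀ (τ : ℍ) (H : ℝ),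
    (∀ c d, IsCoprime c d → hgt c d τ ≤ H) → ∀ f : AH j, ‖(cuspRA j η f).fn τ‖ ≤ C * √H * ‖f‖ := by
  obtain ⟨C, hC, h⟩ := cusp_loc (4 * j + 1) hη
  refine ⟨C, hC, fun τ H hH f => ?_⟩
  obtain ⟨σ, h1, ⟨c, d, hcd, h2⟩, h3⟩ := cusp_cover j τ
  have h4 : C * √σ.im * ‖f‖ ≤ C * √H * ‖f‖ := by
    gcongr
    exact h2 ▸ hH c d hcd
  refine le_trans ?_ h4
  rcases h3 with h3 | h3 | h3 <;> rw [h3, cuspRA_fn]
  · exact h _ _ (cusp_nb f) σ h1
  · rw [← cuspR_sop f.bc, ← norm_SA]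
    exact h _ _ (cusp_nb (SA j f)) σ h1
  · rw [← cuspR_one f.bc]
    exact h _ _ (cusp_nb_one f) σ h1

theorem cusp_key (j : ℤ) (hη : η ≤ 1) : ∃ C : ℝ, 0 ≤ C ∧ ∀ τ : ℍ, ∃ e : AH j,
    ((∃ φ, e = EE j φ) ∨ ∃ φ, e = SA j (EE j φ)) ∧
      ∀ f : AH j, ‖(cuspRA j η f).fn τ‖ ≤ ‖⟪e, f⟫_ℂ‖ + C * ‖f‖ := by
  obtain ⟨C, hC, h⟩ := cusp_diff (4 * j + 1) hη
  have hinf : ∀ σ : ℍ, 3 / 4 ≤ σ.im → ∃ φ, ∀ f : AH j,
      ‖cuspR (4 * j + 1) η f.fn σ‖ ≤ ‖⟪EE j φ, f⟫_ℂ‖ + C * ‖f‖ := fun σ hσ => by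
    obtain ⟨φ, hφ⟩ := cusp_const (j := j) (w := 4 * j + 1) hη σ.im_pos
    refine ⟨φ, fun f => ?_⟩
    have hc : Continuous fun x : ℝ => cuspR (4 * j + 1) η f.fn (aff 1 x σ) := by
      refine f.bc.cuspR.cont.comp ?_
      rw [isEmbedding_coe.continuous_iff]
      have : (UpperHalfPlane.coe ∘ fun x : ℝ => aff 1 x σ) = fun x : ℝ => ((1 : ℝ) : ℂ) * σ + x :=
        funext fun x => coe_aff one_pos _ _
      rw [this]
      fun_prop
    have h1 := intervalIntegral.norm_integral_le_of_norm_le_const (a := 0) (b := 2)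
      (f := fun x => cuspR (4 * j + 1) η f.fn σ - cuspR (4 * j + 1) η f.fn (aff 1 x σ))
      fun x hx => h _ _ (cusp_nb f) σ hσ x (by
        rw [Set.uIoc_of_le zero_le_two] at hx; exact ⟨hx.1.le, hx.2⟩)
    rw [intervalIntegral.integral_sub intervalIntegrable_const (hc.intervalIntegrable _ _),
      intervalIntegral.integral_const] at h1
    rw [← hφ, cusp_fc_shift (f.aut.cuspR f.bc).per]
    set A := ∫ x in (0 : ℝ)..2, cuspR (4 * j + 1) η f.fn (aff 1 x σ)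
    set a := cuspR (4 * j + 1) η f.fn σ
    have e : a = 2⁻¹ * A + 2⁻¹ * (((2 : ℝ) - 0) • a - A) := by
      rw [real_smul]; push_cast; ring
    have h2 := norm_add_le (2⁻¹ * A) (2⁻¹ * (((2 : ℝ) - 0) • a - A))
    rw [← e, norm_mul 2⁻¹ (_ - _)] at h2
    simp only [norm_inv, Complex.norm_ofNat, sub_zero, abs_two] at h1 h2
    linarith
  refine ⟨C, hC, fun τ => ?_⟩
  obtain ⟨σ, h1, -, h3 | h3 | h3⟩ := cusp_cover j τ
  · obtain ⟨φ, hφ⟩ := hinf σ h1
    exact ⟨_, Or.inl ⟨φ, rfl⟩, fun f => by rw [h3]; exact hφ f⟩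
  · obtain ⟨φ, hφ⟩ := hinf σ h1
    refine ⟨_, Or.inr ⟨φ, rfl⟩, fun f => ?_⟩
    rw [h3, cuspRA_fn, ← cuspR_sop f.bc, ← norm_SA, inner_SA]
    exact hφ (SA j f)
  · refine ⟨_, Or.inl ⟨0, rfl⟩, fun f => ?_⟩
    have h4 := h _ _ (cusp_nb_one f) σ h1 2 ⟨zero_le_two, le_rfl⟩
    have h5 : cuspone j (cuspRA j η f).fn (aff 1 2 σ) = I * cuspone j (cuspRA j η f).fn σ :=
      (cuspRA j η f).aut.cusp_one σ
    rw [cuspR_one f.bc, ← cuspRA_fn, h5, ← one_sub_mul, norm_mul] at h4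
    have h6 : 1 ≤ ‖(1 : ℂ) - I‖ := by simpa using abs_re_le_norm (1 - I)
    have h7 := le_mul_of_one_le_left (norm_nonneg (cuspone j (cuspRA j η f).fn σ)) h6
    rw [h3]
    linarith [norm_nonneg ⟪EE j 0, f⟫_ℂ]

end Pool.Agent.Lib.MP_e6abdd_an
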