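import Pool.Agent.Lib.MP_e6abdd_an.CuspA
import Pool.Agent.Lib.MP_e6abdd_an.CuspD

/-!
Hecke eigenfunctions and incomplete Eisenstein series span a dense subspace.
-/

namespace Pool.Agent.Lib.MP_e6abdd_an

open Complex hiding Gamma
open UpperHalfPlane hiding I
open MeasureTheory Filter Topology CongruenceSubgroup UniformSpace
open scoped Real MatrixGroups ComplexConjugate InnerProductSpace

variable {j : ℤ} {η : ℝ}

theorem cusp_norm_le : ∃ m : ℝ, 0 ≤ m ∧ ∀ (g : AH j) (b : ℝ), (∀ τ, ‖g.fn τ‖ ≤ b) →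
    ‖g‖ ≤ m * b := by
  have h0 : 0 ≤ (mean fun _ => 1).re := by
    have h := mean_re_mono (LL.const 0) (LL.const 1) fun _ => by simp
    have h0 := mean_const_mul (LL.const 0) 0
    simp only [zero_mul] at h0
    simpa [h0] using h
  refine ⟨√(mean fun _ => 1).re, Real.sqrt_nonneg _, fun g b hb => ?_⟩
  have hb0 : 0 ≤ b := (norm_nonneg _).trans (hb UpperHalfPlane.I)
  refine (pow_le_pow_iff_left₀ (norm_nonneg _) (by positivity) two_ne_zero).1 ?_
  have h := mean_re_mono (g.ll g) ((LL.const ((b ^ 2 : ℝ) : ℂ)).mul (LL.const 1)) fun τ => by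
    rw [cusp_sq, mul_one, ofReal_re, ofReal_re]
    exact pow_le_pow_left₀ (norm_nonneg _) (hb τ) 2
  rw [mean_const_mul (LL.const 1), re_ofReal_mul] at h
  rw [AH.norm_sq, mul_pow, Real.sq_sqrt h0]
  linarith

theorem cusp_mk {X : Type} [NormedAddCommGroup X] [NormedSpace ℂ X] (l : ℍ → X →L[ℂ] ℂ) {C : ℝ}
    (hC : ∀ τ x, ‖l τ x‖ ≤ C * ‖x‖) (hc : ∀ x, Continuous fun τ => l τ x)
    (ha : ∀ x, Aut j 1 fun τ => l τ x) : ∃ B : X →L[ℂ] AH j, ∀ x τ, (B x).fn τ = l τ x := by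
  obtain ⟨m, hm, h⟩ := cusp_norm_le (j := j)
  let B : X →ₗ[ℂ] AH j :=
    { toFun x := AH.mk (fun τ => l τ x) ⟨hc x, _, fun τ => hC τ x⟩ (ha x)
      map_add' x y := AH.ext fun τ => by simp
      map_smul' c x := AH.ext fun τ => by simp }
  exact ⟨B.mkContinuous (m * C) fun x => by
    rw [mul_assoc]; exact h _ _ fun τ => hC τ x, fun _ _ => rfl⟩

theorem cusp_hgt_le (τ : ℍ) (c d : ℤ) (h : IsCoprime c d) : hgt c d τ ≤ τ.im + τ.im⁻¹ := by
  have hy := τ.im_pos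
  rcases eq_or_ne c 0 with rfl | hc
  · rcases Int.isUnit_iff.1 (isCoprime_zero_left.1 h) with rfl | rfl <;>
      simpa [hgt] using hy.le
  · have h1 := hgt_mul_le c d τ
    have h2 : (1 : ℝ) ≤ (c : ℝ) ^ 2 := by exact_mod_cast (one_le_sq_iff_one_le_abs c).2 (Int.one_le_abs hc)
    have h3 := hgt_pos h τ
    have h4 : hgt c d τ ≤ τ.im⁻¹ := by
      rw [← one_div, le_div_iff₀ hy]
      nlinarith [mul_pos h3 hy]
    linarith

theorem cusp_ev (j : ℤ) (hη : η ≤ 1) : ∃ ev : ℍ → Completion (AH j) →L[ℂ] ℂ,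
    ∀ (τ : ℍ) (f : AH j), ev τ f = (cuspRA j η f).fn τ := by
  obtain ⟨C, -, h⟩ := cusp_hgt j hη
  let l : ℍ → AH j →ₗ[ℂ] ℂ := fun τ =>
    { toFun f := (cuspRA j η f).fn τ
      map_add' f g := by simp
      map_smul' c f := by simp }
  exact ⟨fun τ => ((l τ).mkContinuous _ (h τ _ (cusp_hgt_le τ))).fromCompletion, fun τ f => by
    rw [ContinuousLinearMap.fromCompletion_apply_coe]; rfl⟩

section

variable {ev : ℍ → Completion (AH j) →L[ℂ] ℂ}
  (hev : ∀ (τ : ℍ) (f : AH j), ev τ f = (cuspRA j η f).fn τ)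

include hev

theorem cusp_ev_hgt (hη : η ≤ 1) : ∃ C : ℝ, 0 ≤ C ∧ ∀ (τ : ℍ) (H : ℝ),
    (∀ c d, IsCoprime c d → hgt c d τ ≤ H) → ∀ ψ, ‖ev τ ψ‖ ≤ C * √H * ‖ψ‖ := by
  obtain ⟨C, hC, h⟩ := cusp_hgt j hη
  refine ⟨C, hC, fun τ H hH ψ => ?_⟩
  refine Completion.induction_on ψ (isClosed_le (by fun_prop) (by fun_prop)) fun f => ?_
  rw [hev, Completion.norm_coe]
  exact h τ H hH f

theorem cusp_ev_cont (hη : η ≤ 1) (ψ : Completion (AH j)) : Continuous fun τ => ev τ ψ := by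
  obtain ⟨C, hC, h⟩ := cusp_ev_hgt hev hη
  refine continuous_iff_continuousAt.2 fun τ =>
    continuousAt_of_locally_uniform_approx_of_continuousAt fun u hu => ?_
  obtain ⟨ε, hε, hu⟩ := Metric.mem_uniformity_dist.1 hu
  set H := τ.im + τ.im⁻¹ + 1 with hH
  have hc : Continuous fun σ : ℍ => σ.im + σ.im⁻¹ :=
    UpperHalfPlane.continuous_im.add (UpperHalfPlane.continuous_im.inv₀ fun σ => σ.im_ne_zero)
  have hp : 0 < C * √H + 1 := by positivity
  obtain ⟨f, hf⟩ := Completion.denseRange_coe.exists_dist_lt ψ (div_pos hε hp)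
  refine ⟨{σ | σ.im + σ.im⁻¹ < H}, (isOpen_lt hc continuous_const).mem_nhds (lt_add_one (τ.im + τ.im⁻¹)),
    (cuspRA j η f).fn, (cuspRA j η f).bc.cont.continuousAt, fun σ hσ => hu ?_⟩
  rw [← hev, dist_eq_norm, ← map_sub]
  refine (h σ H (fun c d hcd => (cusp_hgt_le σ c d hcd).trans hσ.le) _).trans_lt ?_
  rw [dist_eq_norm, lt_div_iff₀ hp] at hf
  nlinarith [norm_nonneg (ψ - f)]

theorem cusp_ev_aut (ψ : Completion (AH j)) : Aut j 1 fun τ => ev τ ψ := fun γ hγ τ => by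
  refine Completion.induction_on ψ (isClosed_eq (by fun_prop) (by fun_prop)) fun f => ?_
  simp only [hev]
  exact (cuspRA j η f).aut γ hγ τ

theorem cusp_ev_norm (h0 : 0 < η) (hη : η ≤ 1) (ψ : Completion (AH j)) (g : AH j)
    (hg : ∀ τ, g.fn τ = ev τ ψ) : ‖g‖ ≤ ‖ψ‖ := by
  obtain ⟨C, hC, h⟩ := cusp_ev_hgt hev hη
  have hchi : ∀ T τ, ‖(chi T τ : ℂ)‖ ≤ 1 := fun T τ => by
    rw [Complex.norm_real, Real.norm_of_nonneg (chi_nonneg T τ)]; exact chi_le_one T τ
  have key : ∀ T, 0 < T → ∃ G : AH j, (∀ τ, G.fn τ = chi T τ * g.fn τ) ∧ ‖G‖ ≤ ‖ψ‖ := by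
    intro T hT
    obtain ⟨B, hB⟩ := cusp_mk (j := j) (fun τ => (chi T τ : ℂ) • ev τ) (C := C * √(2 * T))
      (fun τ φ => by
        by_cases hc : chi T τ = 0
        · rw [smul_apply, hc, ofReal_zero, zero_smul, norm_zero]
          positivity
        · rw [smul_apply, norm_smul]
          exact (mul_le_of_le_one_left (norm_nonneg _) (hchi T τ)).trans
            (h τ _ (fun c d hcd => hgt_le_of_chi hT hc hcd) φ))
      (fun φ => (continuous_ofReal.comp (continuous_chi hT)).mul (cusp_ev_cont hev hη φ))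
      (fun φ γ hγ τ => by
        have h1 := cusp_ev_aut hev φ γ hγ τ
        simp only [smul_apply, chi_smul, smul_eq_mul] at h1 ⊢
        rw [h1, mul_left_comm])
    refine ⟨B ψ, fun τ => by rw [hB, hg]; rfl, ?_⟩
    refine Completion.induction_on ψ (isClosed_le (by fun_prop) (by fun_prop)) fun f => ?_
    rw [Completion.norm_coe]
    refine le_trans ?_ (norm_cuspRA_le h0 f)
    refine (pow_le_pow_iff_left₀ (norm_nonneg _) (norm_nonneg _) two_ne_zero).1 ?_
    rw [AH.norm_sq, AH.norm_sq]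
    refine mean_re_mono (AH.ll _ _) (AH.ll _ _) fun τ => ?_
    rw [cusp_sq, cusp_sq, ofReal_re, ofReal_re, hB, smul_apply, norm_smul, hev]
    exact pow_le_pow_left₀ (by positivity) (mul_le_of_le_one_left (norm_nonneg _) (hchi T τ)) 2
  choose! G hG hGn using key
  obtain ⟨b, hb⟩ := g.bc.bdd
  have h1 := mean_dct (l := atTop) (M := 2) (B := b ^ 2)
    (F := fun T τ => conj ((G T).fn τ) * (G T).fn τ)
    ((eventually_gt_atTop 0).mono fun T hT => ⟨AH.lev _ _, fun τ => by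
      rw [cusp_sq, Complex.norm_real, norm_pow, norm_norm, hG T hT, norm_mul]
      exact pow_le_pow_left₀ (by positivity)
        ((mul_le_of_le_one_left (norm_nonneg _) (hchi T τ)).trans (hb τ)) 2⟩)
    (g.lev g) fun τ => tendsto_const_nhds.congr' (by
      filter_upwards [eventually_gt_atTop 0, eventually_chi τ] with T hT h1
      rw [hG T hT, h1, ofReal_one, one_mul])
  refine (pow_le_pow_iff_left₀ (norm_nonneg _) (norm_nonneg _) two_ne_zero).1 ?_
  rw [AH.norm_sq]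
  refine le_of_tendsto ((Complex.continuous_re.tendsto _).comp h1)
    ((eventually_gt_atTop 0).mono fun T hT => ?_)
  rw [Function.comp_apply, ← AH.norm_sq]
  exact pow_le_pow_left₀ (norm_nonneg _) (hGn T hT) 2

end

theorem cusp_dense {j : ℤ} (S : Submodule ℂ (AH j))
    (h1 : ∀ g : AH j, (∀ p, ∃ lam : ℂ, TA j p g = lam • g) → g ∈ S)
    (h2 : ∀ φ, EE j φ ∈ S) (h3 : ∀ φ, SA j (EE j φ) ∈ S) : Dense (S : Set (AH j)) := by
  set E₀ := LinearMap.range (EE j) with hE₀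
  have hT : ∀ p, ∀ e ∈ E₀, TA j p e ∈ E₀ := by
    rintro p _ ⟨φ, rfl⟩
    by_cases hp : p.Prime ∧ p ≠ 2
    · have hc : ((sg p * √p / (p ^ 2 + p) : ℝ) : ℂ) ≠ 0 := by
        have h0 : (0 : ℝ) < p := by exact_mod_cast hp.1.pos
        have h4 : sg p ≠ 0 := by rcases sg_eq p with h | h <;> simp [h]
        exact ofReal_ne_zero.2 (div_ne_zero (mul_ne_zero h4 (by positivity)) (by positivity))
      exact (E₀.smul_mem_iff hc).1 ⟨_, (MA_EE hp.1 hp.2 φ).symm⟩
    · simp [TA_of_not hp]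
  refine cusp_abstract (fun p => (TA j p).mkContinuous _ norm_TA_le) (fun p => inner_TA)
    (fun p q => TA_comm) (E₀ ⊔ E₀.map (SA j)) S (sup_le ?_ ?_) (fun p e he => ?_) h1 ?_
  · rintro _ ⟨φ, rfl⟩; exact h2 φ
  · rintro _ ⟨_, ⟨φ, rfl⟩, rfl⟩; exact h3 φ
  · obtain ⟨a, ha, _, ⟨b, hb, rfl⟩, rfl⟩ := Submodule.mem_sup.1 he
    rw [LinearMap.mkContinuous_apply, map_add, TA_SA]
    exact Submodule.add_mem_sup (hT p a ha) ⟨_, hT p b hb, rfl⟩
  intro K _ hK ψ ε hε
  obtain ⟨f, hf⟩ := Completion.denseRange_coe.exists_dist_lt (ψ : Completion (AH j))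
    (show 0 < ε / 3 by positivity)
  obtain ⟨η, hf', h0, hη⟩ := (((cuspRA_tendsto f).eventually
    (gt_mem_nhds (show (0 : ℝ) < (ε / 3) ^ 2 by positivity))).and (Ioo_mem_nhdsGT one_pos)).exists
  replace hη := hη.le
  obtain ⟨ev, hev⟩ := cusp_ev j hη
  obtain ⟨C, hC, h⟩ := cusp_key j hη
  have hb : ∀ (τ : ℍ) (φ : K), ‖(ev τ ∘L K.subtypeL) φ‖ ≤ C * ‖φ‖ := fun τ φ => by
    obtain ⟨e, he, h⟩ := h τ
    have h4 : ∀ x, ‖ev τ x‖ ≤ ‖⟪(e : Completion (AH j)), x⟫_ℂ‖ + C * ‖x‖ := fun x => by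
      refine Completion.induction_on x (isClosed_le (by fun_prop) (by fun_prop)) fun f => ?_
      rw [hev, Completion.norm_coe, Completion.inner_coe]
      exact h f
    have h5 : e ∈ E₀ ⊔ E₀.map (SA j) := by
      rcases he with ⟨φ, rfl⟩ | ⟨φ, rfl⟩
      · exact Submodule.mem_sup_left ⟨φ, rfl⟩
      · exact Submodule.mem_sup_right ⟨_, ⟨φ, rfl⟩, rfl⟩
    simpa [hK φ φ.2 e h5] using h4 φ
  obtain ⟨B, hB⟩ := cusp_mk (j := j) (fun τ => ev τ ∘L K.subtypeL) hb
    (fun φ => cusp_ev_cont hev hη φ) fun φ => cusp_ev_aut hev φ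
  refine ⟨B, (mean fun _ => ((C ^ 2 : ℝ) : ℂ)).re, fun n v hv => ?_, fun p φ φ' hφ => ?_, ?_⟩
  · simp only [AH.norm_sq]
    rw [← re_sum, ← mean_sum fun i _ => AH.ll _ _]
    refine mean_re_mono (LL.sum fun i _ => AH.ll _ _) (LL.const _) fun τ => ?_
    set u := (InnerProductSpace.toDual ℂ K).symm (ev τ ∘L K.subtypeL) with hu
    have h4 : ‖u‖ ≤ C := by
      rw [hu, LinearIsometryEquiv.norm_map]
      exact ContinuousLinearMap.opNorm_le_bound _ hC (hb τ)
    have h5 : ∀ x, ‖(ev τ ∘L K.subtypeL) x‖ = ‖⟪x, u⟫_ℂ‖ := fun x => by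
      rw [norm_inner_symm x u, hu, InnerProductSpace.toDual_symm_apply]
    simp only [cusp_sq, re_sum, ofReal_re, hB, h5]
    exact (hv.sum_inner_products_le u).trans (pow_le_pow_left₀ (norm_nonneg _) h4 2)
  · refine AH.ext fun τ => ?_
    rw [LinearMap.mkContinuous_apply, hB, ContinuousLinearMap.comp_apply, Submodule.subtypeL_apply,
      hφ]
    by_cases hp : p.Prime ∧ p ≠ 2
    · rw [TA_fn hp.1 hp.2, funext (hB φ)]
      change _ = TT p (fun τ => ev τ φ) τ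
      refine Completion.induction_on (φ : Completion (AH j))
        (isClosed_eq (by fun_prop) (by unfold TT; fun_prop)) fun f => ?_
      simp only [ContinuousLinearMap.completion_apply_coe, hev, LinearMap.mkContinuous_apply,
        cuspRA_fn, TA_fn hp.1 hp.2]
      exact cuspR_TT f.bc hp.1.pos τ
    · refine Completion.induction_on (φ : Completion (AH j))
        (isClosed_eq (by fun_prop) (by fun_prop)) fun f => ?_
      simp [TA_of_not hp, Completion.coe_zero]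
  · have h4 := cusp_ev_norm hev h0 hη (ψ - f) (B ψ - cuspRA j η f) fun τ => by
      rw [AH.fn_sub, hB, map_sub, hev]; rfl
    have h5 : ‖cuspRA j η f - f‖ ≤ ε / 3 :=
      (pow_le_pow_iff_left₀ (norm_nonneg _) (by positivity) two_ne_zero).1 hf'.le
    have h6 := dist_triangle4 (B ψ : Completion (AH j)) (cuspRA j η f) f ψ
    rw [Completion.dist_eq, Completion.dist_eq, dist_comm (f : Completion (AH j))] at h6
    simp only [dist_eq_norm] at h6 hf
    linarith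

end Pool.Agent.Lib.MP_e6abdd_an
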