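import Mathlib

/-!
Abstract Hilbert space facts: a Bessel bound gives compactness, and the range of a compact
intertwiner is spanned by images of joint eigenvectors.
-/

namespace Pool.Agent.Lib.MP_e6abdd_an

open Filter Topology Module.End UniformSpace
open scoped InnerProductSpace

section

variable {H₁ H₂ : Type*} [NormedAddCommGroup H₁] [InnerProductSpace ℂ H₁] [CompleteSpace H₁]
  [NormedAddCommGroup H₂] [InnerProductSpace ℂ H₂] [CompleteSpace H₂]

omit [CompleteSpace H₁] in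
theorem cusp_compact (B : H₁ →L[ℂ] H₂) (M : ℝ)
    (h : ∀ (n : ℕ) (v : Fin n → H₁), Orthonormal ℂ v → ∑ i, ‖B (v i)‖ ^ 2 ≤ M) :
    IsCompactOperator B := by
  have hc := isClosed_setOfPred_isCompactOperator (σ₁₂ := RingHom.id ℂ) (M₁ := H₁) (M₂ := H₂)
  refine hc.closure_subset (Metric.mem_closure_iff.2 fun ε hε => ?_)
  set F : Set ℝ := {s | ∃ (n : ℕ) (v : Fin n → H₁), Orthonormal ℂ v ∧ ∑ i, ‖B (v i)‖ ^ 2 = s}
  have hne : F.Nonempty := ⟨_, 0, Fin.elim0, Orthonormal.of_isEmpty _, rfl⟩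
  have hbd : BddAbove F := ⟨M, by rintro s ⟨n, v, hv, rfl⟩; exact h n v hv⟩
  obtain ⟨s, ⟨n, v, hv, rfl⟩, hs⟩ := exists_lt_of_lt_csSup hne
    (show sSup F - (ε / 2) ^ 2 < sSup F by have : 0 < (ε / 2) ^ 2 := by positivity
                                           linarith)
  set K : Submodule ℂ H₁ := Submodule.span ℂ (Set.range v)
  have : FiniteDimensional ℂ K := FiniteDimensional.span_of_finite ℂ (Set.finite_range v)
  have key : ∀ r ∈ Kᗮ, ‖B r‖ ≤ ε / 2 * ‖r‖ := by
    intro r hr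
    rcases eq_or_ne r 0 with rfl | h0
    · simp
    have hn : 0 < ‖r‖ := norm_pos_iff.2 h0
    set e : H₁ := ((‖r‖⁻¹ : ℝ) : ℂ) • r with he
    have he1 : ‖e‖ = 1 := by
      rw [he, norm_smul, Complex.norm_real, norm_inv, norm_norm, inv_mul_cancel₀ hn.ne']
    have ho : Orthonormal ℂ (Matrix.vecCons e v) := by
      refine orthonormal_vecCons_iff.2 ⟨he1, fun i => ?_, hv⟩
      rw [he, inner_smul_left,
        (Submodule.mem_orthogonal' K r).1 hr _ (Submodule.subset_span ⟨i, rfl⟩), mul_zero]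
    have h1 := le_csSup hbd ⟨_, _, ho, rfl⟩
    rw [Fin.sum_univ_succ] at h1
    simp only [Matrix.cons_val_zero, Matrix.cons_val_succ] at h1
    have h2 : ‖B e‖ ≤ ε / 2 := by
      refine (pow_le_pow_iff_left₀ (norm_nonneg _) (by positivity) two_ne_zero).1 ?_
      linarith
    rw [he, map_smul, norm_smul, Complex.norm_real, norm_inv, norm_norm,
      inv_mul_le_iff₀ hn] at h2
    linarith
  refine ⟨B ∘L K.starProjection, ?_, ?_⟩
  · have h1 : IsCompactOperator K.orthogonalProjectionOnto :=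
      isCompactOperator_of_locallyCompactSpace_dom _
    exact h1.clm_comp (B ∘L K.subtypeL)
  · rw [dist_eq_norm]
    refine lt_of_le_of_lt (ContinuousLinearMap.opNorm_le_bound _ (M := ε / 2) (by positivity)
      fun x => ?_) (by linarith)
    have h1 : (B - B ∘L K.starProjection) x = B (Kᗮ.starProjection x) := by
      rw [Submodule.starProjection_orthogonal_val]
      simp
    rw [h1]
    refine (key _ (Kᗮ.starProjection_apply_mem x)).trans ?_
    gcongr
    exact Kᗮ.norm_starProjection_apply_le x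

theorem cusp_spec {ι : Type*} (B : H₁ →L[ℂ] H₂) (hB : IsCompactOperator B)
    (T₁ : ι → H₁ →L[ℂ] H₁) (T₂ : ι → H₂ →L[ℂ] H₂)
    (s₁ : ∀ i v w, ⟪T₁ i v, w⟫_ℂ = ⟪v, T₁ i w⟫_ℂ) (s₂ : ∀ i v w, ⟪T₂ i v, w⟫_ℂ = ⟪v, T₂ i w⟫_ℂ)
    (comm : ∀ i k v, T₁ i (T₁ k v) = T₁ k (T₁ i v)) (hBT : ∀ i v, B (T₁ i v) = T₂ i (B v))
    (S : Submodule ℂ H₂) (hS : IsClosed (S : Set H₂))
    (h : ∀ v, (∀ i, ∃ lam : ℂ, T₁ i v = lam • v) → B v ∈ S) (v : H₁) : B v ∈ S := by
  set A : H₁ →L[ℂ] H₁ := ContinuousLinearMap.adjoint B ∘L B with hA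
  have hAc : IsCompactOperator A := hB.clm_comp (ContinuousLinearMap.adjoint B)
  have hAi : ∀ x y, ⟪A x, y⟫_ℂ = ⟪B x, B y⟫_ℂ := fun x y => by
    simp [hA, ContinuousLinearMap.adjoint_inner_left]
  have hAs : A.IsSymmetric := fun x y => by
    change ⟪A x, y⟫_ℂ = ⟪x, A y⟫_ℂ
    rw [hAi, ← inner_conj_symm x, hAi, inner_conj_symm]
  have hAT : ∀ i x, A (T₁ i x) = T₁ i (A x) := fun i x => by
    refine ext_inner_right ℂ fun y => ?_
    rw [hAi, hBT, s₂, ← hBT, ← hAi, s₁]
  set U : Submodule ℂ H₁ := S.comap (B : H₁ →ₗ[ℂ] H₂)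
  have hU : IsClosed (U : Set H₁) := hS.preimage B.continuous
  have hle : (⨆ μ, eigenspace (A : Module.End ℂ H₁) μ) ≤ U := by
    refine iSup_le fun μ => ?_
    rcases eq_or_ne μ 0 with rfl | hμ
    · intro x hx
      have h0 : A x = 0 := by simpa using mem_eigenspace_iff.1 hx
      have h1 := hAi x x
      rw [h0, inner_zero_left, eq_comm, inner_self_eq_zero] at h1
      change B x ∈ S
      rw [h1]
      exact S.zero_mem
    · set V := eigenspace (A : Module.End ℂ H₁) μ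
      have : FiniteDimensional ℂ V := A.finite_dimensional_eigenspace hAc μ hμ
      have inv : ∀ i, ∀ x ∈ V, (T₁ i : H₁ →ₗ[ℂ] H₁) x ∈ V := fun i x hx => by
        have h0 : A x = μ • x := mem_eigenspace_iff.1 hx
        refine mem_eigenspace_iff.2 ?_
        change A (T₁ i x) = μ • T₁ i x
        rw [hAT, h0, map_smul]
      have htop := LinearMap.IsSymmetric.iSup_iInf_eq_top_of_commute (𝕜 := ℂ) (E := V)
        (T := fun i => (T₁ i : H₁ →ₗ[ℂ] H₁).restrict (inv i))
        (fun i x y => s₁ i x y) (fun i k _ => by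
          ext x
          exact comm i k x)
      have h2 : (⊤ : Submodule ℂ V) ≤ U.comap V.subtype := by
        rw [← htop]
        refine iSup_le fun χ x hx => ?_
        refine h x fun i => ⟨χ i, ?_⟩
        have := mem_eigenspace_iff.1 ((Submodule.mem_iInf _).1 hx i)
        exact congrArg Subtype.val this
      exact fun x hx => h2 (Submodule.mem_top (x := ⟨x, hx⟩))
  have h3 : Uᗮ = ⊥ := le_bot_iff.1 ((Submodule.orthogonal_le hle).trans
    (A.orthogonalComplement_iSup_eigenspaces_eq_bot hAc hAs).le)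
  have h4 := Submodule.topologicalClosure_eq_top_iff.2 h3
  rw [hU.submodule_topologicalClosure_eq] at h4
  exact (h4 ▸ Submodule.mem_top : v ∈ U)

end

theorem cusp_abstract {A : Type*} [NormedAddCommGroup A] [InnerProductSpace ℂ A] {ι : Type*}
    (T : ι → A →L[ℂ] A) (sym : ∀ i f g, ⟪T i f, g⟫_ℂ = ⟪f, T i g⟫_ℂ)
    (comm : ∀ i k f, T i (T k f) = T k (T i f)) (E S : Submodule ℂ A) (hE : E ≤ S)
    (hT : ∀ i, ∀ e ∈ E, T i e ∈ E) (h1 : ∀ g, (∀ i, ∃ lam : ℂ, T i g = lam • g) → g ∈ S)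
    (hB : ∀ (K : Submodule ℂ (Completion A)) [CompleteSpace K],
      (∀ ψ ∈ K, ∀ e ∈ E, ⟪(e : Completion A), ψ⟫_ℂ = 0) → ∀ ψ : K, ∀ ε > 0,
      ∃ (B : K →L[ℂ] A) (M : ℝ),
      (∀ (n : ℕ) (v : Fin n → K), Orthonormal ℂ v → ∑ i, ‖B (v i)‖ ^ 2 ≤ M) ∧
      (∀ i (φ φ' : K), (φ' : Completion A) = (T i).completion φ → B φ' = T i (B φ)) ∧
      ‖(B ψ : Completion A) - ψ‖ ≤ ε) : Dense (S : Set A) := by
  set c : A →L[ℂ] Completion A := Completion.toComplL with hc
  have hcc : ∀ a, c a = (a : Completion A) := fun _ => rfl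
  set K : Submodule ℂ (Completion A) := (E.map (c : A →ₗ[ℂ] Completion A))ᗮ
  have hK : ∀ ψ, ψ ∈ K ↔ ∀ e ∈ E, ⟪(e : Completion A), ψ⟫_ℂ = 0 := fun ψ => by
    rw [Submodule.mem_orthogonal]
    exact ⟨fun h e he => h _ ⟨e, he, rfl⟩, by rintro h _ ⟨e, he, rfl⟩; exact h e he⟩
  have s₂ : ∀ i v w, ⟪(T i).completion v, w⟫_ℂ = ⟪v, (T i).completion w⟫_ℂ := fun i v w => by
    refine Completion.induction_on₂ v w (isClosed_eq (by fun_prop) (by fun_prop)) fun a b => ?_
    simp [sym]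
  have c₂ : ∀ i k v, (T i).completion ((T k).completion v) =
      (T k).completion ((T i).completion v) := fun i k v => by
    refine Completion.induction_on v (isClosed_eq (by fun_prop) (by fun_prop)) fun a => ?_
    simp [comm i k]
  have inv : ∀ i, ∀ ψ ∈ K, (T i).completion ψ ∈ K := fun i ψ hψ => (hK _).2 fun e he => by
    rw [← s₂, ContinuousLinearMap.completion_apply_coe]
    exact (hK _).1 hψ _ (hT i e he)
  set S' : Submodule ℂ (Completion A) := S.map (c : A →ₗ[ℂ] Completion A)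
  have hKS : ∀ ψ ∈ K, ψ ∈ S'.topologicalClosure := fun ψ hψ => by
    refine S'.isClosed_topologicalClosure.closure_subset
      (Metric.mem_closure_iff.2 fun ε hε => ?_)
    obtain ⟨B, M, hM, hBT, hε'⟩ := hB K (fun ψ hψ => (hK ψ).1 hψ) ⟨ψ, hψ⟩ (ε / 2) (by positivity)
    refine ⟨_, cusp_spec (c ∘L B) (cusp_compact _ M fun n v hv => by simpa [hcc] using hM n v hv)
      (fun i => (T i).completion.restrict (inv i)) (fun i => (T i).completion)
      (fun i v w => s₂ i v w) s₂ (fun i k v => Subtype.ext (c₂ i k v)) (fun i v => ?_)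
      S'.topologicalClosure S'.isClosed_topologicalClosure (fun v hv => ?_) ⟨ψ, hψ⟩, ?_⟩
    · simp only [ContinuousLinearMap.comp_apply, hcc, ContinuousLinearMap.completion_apply_coe]
      rw [hBT i v _ rfl]
    · refine S'.le_topologicalClosure ⟨B v, h1 _ fun i => ?_, rfl⟩
      obtain ⟨lam, hl⟩ := hv i
      exact ⟨lam, by rw [← map_smul, ← hl]; exact (hBT i v _ rfl).symm⟩
    · rw [dist_comm, dist_eq_norm]
      exact hε'.trans_lt (by linarith)
  have htop : S'.topologicalClosure = ⊤ := by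
    refine Submodule.topologicalClosure_eq_top_iff.2 (Submodule.eq_bot_iff _ |>.2 fun ψ hψ => ?_)
    have h2 : ψ ∈ K := Submodule.orthogonal_le (Submodule.map_mono hE) hψ
    rw [← S'.orthogonal_closure] at hψ
    exact inner_self_eq_zero.1 ((Submodule.mem_orthogonal _ _).1 hψ ψ (hKS ψ h2))
  intro a
  rw [Completion.isDenseInducing_coe.isInducing.closure_eq_preimage_closure_image]
  exact (htop ▸ Submodule.mem_top : (a : Completion A) ∈ S'.topologicalClosure)

end Pool.Agent.Lib.MP_e6abdd_an
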