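import Pool.Agent.Lib.MP_e6abdd_an.Eis

/-!
The smoothing operator given by a point pair kernel.
-/

namespace Pool.Agent.Lib.MP_e6abdd_an

open Complex hiding Gamma
open UpperHalfPlane hiding I
open MeasureTheory Filter Topology CongruenceSubgroup
open scoped Real MatrixGroups ComplexConjugate

open ModularGroup (S T)

noncomputable section

def cuspD (τ σ : ℍ) : ℂ := -I * ((τ : ℂ) - conj (σ : ℂ))

def cuspm (η : ℝ) : ℝ := ∫ z : ℍ, max 0 (η - dist UpperHalfPlane.I z)

def cusprho (η : ℝ) (τ σ : ℍ) : ℝ := max 0 (η - dist τ σ) / cuspm η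

def cuspk (w : ℤ) (η : ℝ) (τ σ : ℍ) : ℂ := cusprho η τ σ * conj (ph w (cuspD τ σ))

def cuspR (w : ℤ) (η : ℝ) (f : ℍ → ℂ) (τ : ℍ) : ℂ := ∫ σ, cuspk w η τ σ * f σ

variable {j w : ℤ} {η : ℝ} {f g : ℍ → ℂ}

instance cusp_openPos : (volume : Measure ℍ).IsOpenPosMeasure := by
  have h : (volume.comap UpperHalfPlane.coe : Measure ℍ).IsOpenPosMeasure :=
    Measure.IsOpenPosMeasure.comap _ isOpenEmbedding_coe
  rw [volume_def]
  refine (withDensity_absolutelyContinuous' ?_ (Eventually.of_forall fun z => ?_)).isOpenPosMeasure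
  · refine Measurable.aemeasurable (Measurable.coe_nnreal_ennreal (Continuous.measurable ?_))
    refine .pow (.div₀ continuous_const ?_ ?_) _
    · exact UpperHalfPlane.continuous_im.subtype_mk _
    · exact fun x ↦ NNReal.ne_iff.mp x.im_ne_zero
  · have : NNReal.mk z.im z.im_pos.le ≠ 0 := NNReal.ne_iff.mp z.im_ne_zero
    exact ENNReal.coe_ne_zero.2 (pow_ne_zero _ (one_div_ne_zero this))

theorem cusp_dist_aff {r : ℝ} (hr : 0 < r) (x : ℝ) (τ σ : ℍ) :
    dist (aff r x τ) (aff r x σ) = dist τ σ := by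
  rw [UpperHalfPlane.dist_eq, UpperHalfPlane.dist_eq, aff_im hr, aff_im hr, coe_aff hr, coe_aff hr,
    dist_add_right, Complex.dist_eq, Complex.dist_eq, ← mul_sub, norm_mul, Complex.norm_real,
    Real.norm_of_nonneg hr.le, show r * τ.im * (r * σ.im) = r ^ 2 * (τ.im * σ.im) by ring,
    Real.sqrt_mul (by positivity), Real.sqrt_sq hr.le]
  congr 2
  field_simp

theorem cusp_dist_SL (γ : SL(2, ℤ)) (τ σ : ℍ) : dist (γ • τ) (γ • σ) = dist τ σ := by
  have h : ∀ z : ℍ, γ • z = (Matrix.SpecialLinearGroup.map (Int.castRingHom ℝ) γ) • z :=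
    fun z => UpperHalfPlane.ext (by
      rw [coe_specialLinearGroup_apply, coe_specialLinearGroup_apply]; simp)
  rw [h, h, dist_smul]

theorem cuspD_re (τ σ : ℍ) : (cuspD τ σ).re = τ.im + σ.im := by
  simp [cuspD]

theorem cuspD_im (τ σ : ℍ) : (cuspD τ σ).im = σ.re - τ.re := by
  simp [cuspD]

theorem cuspD_re_pos (τ σ : ℍ) : 0 < (cuspD τ σ).re := by
  rw [cuspD_re]; exact add_pos τ.im_pos σ.im_pos

theorem cusp_ph_mul (w : ℤ) {a b : ℂ} (ha : 0 < a.re) (hb : 0 < b.re) :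
    ph w (a * b) = ph w a * ph w b := by
  have h1 := abs_lt.1 (abs_arg_lt_pi_div_two_iff.2 (Or.inl ha))
  have h2 := abs_lt.1 (abs_arg_lt_pi_div_two_iff.2 (Or.inl hb))
  refine ph_mul ((arg_mul_eq_add_arg_iff ?_ ?_).2 ⟨by linarith, by linarith⟩) w
  · rintro rfl; simp at ha
  · rintro rfl; simp at hb

theorem cuspk_aff {r : ℝ} (hr : 0 < r) (x : ℝ) (τ σ : ℍ) :
    cuspk w η (aff r x τ) (aff r x σ) = cuspk w η τ σ := by
  have h : cuspD (aff r x τ) (aff r x σ) = r * cuspD τ σ := by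
    simp only [cuspD, coe_aff hr, map_add, map_mul, conj_ofReal]; ring
  rw [cuspk, cuspk, h, ph_pos_mul hr, cusprho, cusprho, cusp_dist_aff hr]

theorem cuspk_S (τ σ : ℍ) : conj (ph w (-I * τ)) * cuspk w η (S • τ) (S • σ) =
    cuspk w η τ σ * conj (ph w (-I * σ)) := by
  have hτ : 0 < (-I * (τ : ℂ)).re := by simpa using τ.im_pos
  have hσ : 0 < (-I * (σ : ℂ)).re := by simpa using σ.im_pos
  have h0 : 0 < (normSq (σ : ℂ))⁻¹ := inv_pos.2 (normSq_pos.2 σ.ne_zero)
  have h : cuspD (S • τ) (S • σ) * (-I * τ) =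
      ((normSq (σ : ℂ))⁻¹ : ℝ) * (cuspD τ σ * (-I * σ)) := by
    have h1 := τ.ne_zero
    have h2 := σ.ne_zero
    have h3 : conj (σ : ℂ) ≠ 0 := by simpa using h2
    simp only [cuspD, coe_S_smul, map_div₀, map_neg, map_one, ofReal_inv, normSq_eq_conj_mul_self]
    field_simp
    ring
  have h1 := cusp_ph_mul w (cuspD_re_pos (S • τ) (S • σ)) hτ
  rw [h, ph_pos_mul h0, cusp_ph_mul _ (cuspD_re_pos τ σ) hσ] at h1
  have h2 := congrArg conj h1
  simp only [map_mul] at h2
  simp only [cuspk, cusprho, cusp_dist_SL]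
  linear_combination (-((max 0 (η - dist τ σ) / cuspm η : ℝ) : ℂ)) * h2

theorem cusp_int_comp {E : Type} [NormedAddCommGroup E] [NormedSpace ℝ E] {φ : ℍ → ℍ}
    (hφ : MeasurePreserving φ) {G : ℍ → E} (hG : AEStronglyMeasurable G) :
    ∫ σ, G (φ σ) = ∫ σ, G σ := by
  rw [← integral_map hφ.measurable.aemeasurable (by rwa [hφ.map_eq]), hφ.map_eq]

theorem cusp_ph_cont (w : ℤ) (τ : ℍ) : Continuous fun σ => ph w (cuspD τ σ) := by
  have h : Continuous fun σ => arg (cuspD τ σ) := continuous_iff_continuousAt.2 fun σ =>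
    ContinuousAt.comp (f := cuspD τ) (continuousAt_arg (Or.inl (cuspD_re_pos τ σ)))
      (by unfold cuspD; fun_prop)
  unfold ph
  fun_prop

theorem cusprho_cont (τ : ℍ) : Continuous (cusprho η τ) := by
  unfold cusprho; fun_prop

theorem cuspk_cont (τ : ℍ) : Continuous (cuspk w η τ) := by
  have h1 := cusp_ph_cont w τ
  have h2 := cusprho_cont (η := η) τ
  unfold cuspk
  fun_prop

theorem cusp_supp (τ : ℍ) : HasCompactSupport fun σ : ℍ => max 0 (η - dist τ σ) := by
  refine HasCompactSupport.intro (isCompact_closedBall τ η) fun σ hσ => ?_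
  rw [Metric.mem_closedBall', not_le] at hσ
  exact max_eq_left (by linarith)

theorem cuspm_pos (hη : 0 < η) : 0 < cuspm η :=
  Continuous.integral_pos_of_hasCompactSupport_nonneg_nonzero (x := UpperHalfPlane.I)
    (by fun_prop) (cusp_supp _) (fun _ => le_max_left _ _) (by simpa using hη)

theorem cuspm_nonneg (η : ℝ) : 0 ≤ cuspm η := integral_nonneg fun _ => le_max_left _ _

theorem cusprho_nonneg (τ σ : ℍ) : 0 ≤ cusprho η τ σ :=
  div_nonneg (le_max_left _ _) (cuspm_nonneg η)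

theorem cusprho_zero {τ σ : ℍ} (h : η ≤ dist τ σ) : cusprho η τ σ = 0 := by
  rw [cusprho, max_eq_left (by linarith), zero_div]

theorem norm_cuspk (τ σ : ℍ) : ‖cuspk w η τ σ‖ = cusprho η τ σ := by
  rw [cuspk, norm_mul, RCLike.norm_conj, norm_ph, mul_one, Complex.norm_real,
    Real.norm_of_nonneg (cusprho_nonneg τ σ)]

theorem cusprho_int (τ : ℍ) : Integrable (cusprho η τ) :=
  ((show Continuous fun σ : ℍ => max 0 (η - dist τ σ) by
    fun_prop).integrable_of_hasCompactSupport (cusp_supp τ)).div_const _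

theorem cusp_aff_I (τ : ℍ) : aff τ.im τ.re UpperHalfPlane.I = τ :=
  UpperHalfPlane.ext (by
    rw [coe_aff τ.im_pos, coe_I, add_comm]; exact τ.re_add_im)

theorem cusprho_mass (hη : 0 < η) : ∫ σ, cusprho η UpperHalfPlane.I σ = 1 := by
  simp only [cusprho]
  rw [integral_div]
  exact div_self (cuspm_pos hη).ne'

theorem cuspk_int (τ : ℍ) : Integrable (cuspk w η τ) :=
  (cusprho_int τ).mono' (cuspk_cont τ).aestronglyMeasurable
    (Eventually.of_forall fun σ => (norm_cuspk τ σ).le)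

theorem cusp_mul_int {κ : ℍ → ℂ} (hκ : Integrable κ) (hf : BC f) :
    Integrable fun σ => κ σ * f σ := by
  obtain ⟨B, hB⟩ := hf.bdd
  exact hκ.mul_bdd hf.cont.aestronglyMeasurable (Eventually.of_forall hB)

theorem cuspR_aff (hf : BC f) {r : ℝ} (hr : 0 < r) (x : ℝ) (τ : ℍ) :
    cuspR w η (fun σ => f (aff r x σ)) τ = cuspR w η f (aff r x τ) := by
  rw [cuspR, cuspR, ← cusp_int_comp (measurePreserving_aff hr x)
    (G := fun σ => cuspk w η (aff r x τ) σ * f σ)
    ((cuspk_cont _).mul hf.cont).aestronglyMeasurable]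
  simp only [cuspk_aff hr]

theorem cuspR_sop (hf : BC f) (τ : ℍ) :
    cuspR (4 * j + 1) η (sop j f) τ = sop j (cuspR (4 * j + 1) η f) τ := by
  rw [sop, cuspR, cuspR, ← cusp_int_comp (measurePreserving_SL S)
    (G := fun σ => cuspk (4 * j + 1) η (S • τ) σ * f σ)
    ((cuspk_cont _).mul hf.cont).aestronglyMeasurable, ← integral_const_mul]
  simp only [sop, ← mul_assoc, cuspk_S]

theorem cuspR_eq (hf : BC f) (τ : ℍ) :
    cuspR w η f τ = ∫ z, cuspk w η UpperHalfPlane.I z * f (aff τ.im τ.re z) := by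
  conv_lhs => rw [← cusp_aff_I τ, ← cuspR_aff hf τ.im_pos]
  rfl

theorem cusp_cont_aff (z : ℍ) : Continuous fun τ : ℍ => aff τ.im τ.re z := by
  rw [isEmbedding_coe.continuous_iff]
  have : (UpperHalfPlane.coe ∘ fun τ : ℍ => aff τ.im τ.re z) =
      fun τ : ℍ => (τ.im : ℂ) * z + τ.re := funext fun τ => coe_aff τ.im_pos _ _
  rw [this]
  have h1 := UpperHalfPlane.continuous_im
  have h2 := UpperHalfPlane.continuous_re
  fun_prop

theorem BC.cuspR (hf : BC f) : BC (cuspR w η f) := by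
  obtain ⟨B, hB⟩ := hf.bdd
  have h1 : ∀ τ z : ℍ, ‖cuspk w η UpperHalfPlane.I z * f (MP_e6abdd_an.aff τ.im τ.re z)‖ ≤
      cusprho η UpperHalfPlane.I z * B := fun τ z => by
    rw [norm_mul, norm_cuspk]
    exact mul_le_mul_of_nonneg_left (hB _) (cusprho_nonneg _ _)
  have h2 := (cusprho_int (η := η) UpperHalfPlane.I).mul_const B
  rw [funext (cuspR_eq hf)]
  refine ⟨continuous_of_dominated (fun τ => ?_) (fun τ => Eventually.of_forall (h1 τ)) h2
    (Eventually.of_forall fun z => continuous_const.mul (hf.cont.comp (cusp_cont_aff z))), _,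
    fun τ => norm_integral_le_of_norm_le h2 (Eventually.of_forall (h1 τ))⟩
  exact ((cuspk_cont _).mul (hf.aff τ.im_pos _).cont).aestronglyMeasurable

theorem Aut.cuspR (h : Aut j 1 f) (hf : BC f) : Aut j 1 (cuspR (4 * j + 1) η f) := by
  refine aut_of_gen (fun τ => ?_) fun τ => ?_
  · rw [← cuspR_aff hf one_pos, funext h.per]
  · rw [← cuspR_sop hf, ← cuspR_sop hf, ← cuspR_aff (hf.sop j) one_pos, funext h.sop.per]

theorem cuspR_add (hf : BC f) (hg : BC g) (τ : ℍ) :
    cuspR w η (fun σ => f σ + g σ) τ = cuspR w η f τ + cuspR w η g τ := by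
  simp only [cuspR, mul_add]
  exact integral_add (cusp_mul_int (cuspk_int τ) hf) (cusp_mul_int (cuspk_int τ) hg)

theorem cuspR_mul (c : ℂ) (τ : ℍ) : cuspR w η (fun σ => c * f σ) τ = c * cuspR w η f τ := by
  simp only [cuspR, mul_left_comm _ c]
  exact integral_const_mul _ _

theorem cuspR_sum {ι : Type} {s : Finset ι} {F : ι → ℍ → ℂ} (h : ∀ i ∈ s, BC (F i)) (τ : ℍ) :
    cuspR w η (fun σ => ∑ i ∈ s, F i σ) τ = ∑ i ∈ s, cuspR w η (F i) τ := by
  simp only [cuspR, Finset.mul_sum]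
  exact integral_finsetSum _ fun i hi => cusp_mul_int (cuspk_int τ) (h i hi)

theorem cuspR_TT (hf : BC f) {p : ℕ} (hp : 0 < p) (τ : ℍ) :
    cuspR w η (TT p f) τ = TT p (cuspR w η f) τ := by
  have h1 : (0 : ℝ) < (p : ℝ) ^ 2 := by positivity
  have h2 : (0 : ℝ) < ((p : ℝ) ^ 2)⁻¹ := by positivity
  have b2 : ∀ b ∈ Finset.range (p ^ 2),
      BC fun τ => f (aff ((p : ℝ) ^ 2)⁻¹ (2 * b / p ^ 2) τ) := fun b _ => hf.aff h2 _
  have b3 : ∀ i ∈ Finset.range p, BC fun τ => om p i * f (aff 1 (2 * i / p) τ) := fun i _ =>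
    (BC.const _).mul (hf.aff one_pos _)
  unfold TT
  rw [cuspR_add ((hf.aff h1 0).add (BC.sum b2)) (BC.sum b3), cuspR_add (hf.aff h1 0) (BC.sum b2),
    cuspR_sum b2, cuspR_sum b3]
  simp only [cuspR_mul, cuspR_aff hf h1, cuspR_aff hf h2, cuspR_aff hf one_pos]

theorem cuspk_zero (τ σ : ℍ) : cuspk 0 η τ σ = cusprho η τ σ := by
  simp [cuspk, ph]

theorem Lev.cuspR {M : ℕ} (h : Lev M f) : Lev M (cuspR 0 η f) := by
  refine ⟨h.toBC.cuspR, h.pos, fun γ hγ τ => ?_⟩
  rw [MP_e6abdd_an.cuspR, MP_e6abdd_an.cuspR, ← cusp_int_comp (measurePreserving_SL γ)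
    (G := fun σ => cuspk 0 η (γ • τ) σ * f σ) ((cuspk_cont _).mul h.cont).aestronglyMeasurable]
  simp only [cuspk_zero, cusprho, cusp_dist_SL, h.inv γ hγ]

/-- The smoothing operator on automorphic functions. -/
def cuspRA (j : ℤ) (η : ℝ) : Module.End ℂ (AH j) where
  toFun f := AH.mk (cuspR (4 * j + 1) η f.fn) f.bc.cuspR (f.aut.cuspR f.bc)
  map_add' f g := AH.ext fun τ => cuspR_add f.bc g.bc τ
  map_smul' c _ := AH.ext fun τ => cuspR_mul c τ

theorem cuspRA_fn (f : AH j) : (cuspRA j η f).fn = cuspR (4 * j + 1) η f.fn := rfl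

theorem cuspR_norm_le (hη : 0 < η) (hf : BC f) {B : ℝ} (hB : ∀ τ, ‖f τ‖ ≤ B) (τ : ℍ) :
    ‖cuspR w η f τ‖ ≤ B := by
  rw [cuspR_eq hf]
  refine (norm_integral_le_of_norm_le ((cusprho_int (η := η) UpperHalfPlane.I).mul_const B)
    (Eventually.of_forall fun z => ?_)).trans ?_
  · rw [norm_mul, norm_cuspk]
    exact mul_le_mul_of_nonneg_left (hB _) (cusprho_nonneg _ _)
  · rw [integral_mul_const, cusprho_mass hη, one_mul]

theorem cuspR_tendsto (hf : BC f) (τ : ℍ) :
    Tendsto (fun η => cuspR w η f τ) (𝓝[>] 0) (𝓝 (f τ)) := by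
  set G : ℍ → ℂ := fun z => conj (ph w (cuspD UpperHalfPlane.I z)) * f (aff τ.im τ.re z)
  have hG : Continuous G := by
    have h1 := cusp_ph_cont w UpperHalfPlane.I
    exact (continuous_conj.comp h1).mul (hf.aff τ.im_pos τ.re).cont
  have hI : G UpperHalfPlane.I = f τ := by
    have : cuspD UpperHalfPlane.I UpperHalfPlane.I = 2 := by
      simp only [cuspD, coe_I, conj_I]; linear_combination (-2) * I_mul_I
    simp [G, this, cusp_aff_I, ph]
  refine Metric.tendsto_nhds.2 fun ε hε => ?_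
  obtain ⟨δ, hδ, h⟩ := Metric.continuous_iff.1 hG UpperHalfPlane.I (ε / 2) (by positivity)
  filter_upwards [Ioo_mem_nhdsGT hδ] with η hη
  have e1 : cuspR w η f τ - f τ = ∫ z, cusprho η UpperHalfPlane.I z * (G z - f τ) := by
    have i1 := cusp_mul_int (cuspk_int (w := w) (η := η) UpperHalfPlane.I) (hf.aff τ.im_pos τ.re)
    have i2 : Integrable fun z => (cusprho η UpperHalfPlane.I z : ℂ) * f τ :=
      (cusprho_int (η := η) UpperHalfPlane.I).ofReal.mul_const (f τ)
    have e2 : ∫ z, (cusprho η UpperHalfPlane.I z : ℂ) * f τ = f τ := by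
      rw [integral_mul_const, integral_complex_ofReal, cusprho_mass hη.1]; simp
    simp only [mul_sub]
    rw [integral_sub (i1.congr (Eventually.of_forall fun z => by simp only [G, cuspk, mul_assoc]))
      i2, e2, cuspR_eq hf]
    simp only [G, cuspk, mul_assoc]
  rw [dist_eq_norm, e1]
  refine (norm_integral_le_of_norm_le ((cusprho_int (η := η) UpperHalfPlane.I).mul_const (ε / 2))
    (Eventually.of_forall fun z => ?_)).trans_lt ?_
  · rw [norm_mul, Complex.norm_real, Real.norm_of_nonneg (cusprho_nonneg _ _)]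
    rcases le_or_gt η (dist UpperHalfPlane.I z) with h1 | h1
    · simp [cusprho_zero h1]
    · refine mul_le_mul_of_nonneg_left ?_ (cusprho_nonneg _ _)
      rw [← hI, ← dist_eq_norm]
      exact (h z (by rw [dist_comm]; exact h1.trans hη.2)).le
  · rw [integral_mul_const, cusprho_mass hη.1]
    linarith

end

end Pool.Agent.Lib.MP_e6abdd_an
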