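import Pool.Agent.Lib.MP_e6abdd_an.CuspB

/-!
Constant terms and the contraction property of the smoothing operator.
-/

namespace Pool.Agent.Lib.MP_e6abdd_an

open Complex hiding Gamma
open UpperHalfPlane hiding I
open MeasureTheory Filter Topology CongruenceSubgroup
open scoped Real MatrixGroups ComplexConjugate InnerProductSpace

open ModularGroup (S T)

variable {j w : ℤ} {η : ℝ} {f g : ℍ → ℂ}

theorem cusp_swap {κ : ℍ → ℂ} (hκ : Integrable κ) (hc : Continuous κ) {G : ℝ → ℍ → ℂ}
    (hG : Continuous G.uncurry) {B : ℝ} (hB : ∀ t z, ‖G t z‖ ≤ B) (a b : ℝ) :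
    ∫ t in a..b, ∫ z, κ z * G t z = ∫ z, κ z * ∫ t in a..b, G t z := by
  rw [intervalIntegral_integral_swap]
  · simp only [intervalIntegral.integral_const_mul]
  · have h1 : Integrable (fun _ : ℝ => B) (volume.restrict (Set.uIoc a b)) :=
      integrableOn_const (by simp [Real.volume_uIoc])
    refine (h1.mul_prod hκ.norm).mono' ((hc.comp continuous_snd).mul hG).aestronglyMeasurable
      (Eventually.of_forall fun p => ?_)
    simp only [Function.uncurry, norm_mul, mul_comm B]
    exact mul_le_mul_of_nonneg_left (hB _ _) (norm_nonneg _)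

theorem cusp_fc_zero (f : ℍ → ℂ) (y : ℝ) : fc 2 f 0 y = 2⁻¹ * ∫ x in (0 : ℝ)..2, f (pt x y) := by
  simp [fc]

theorem cusp_fc_shift (per : ∀ τ, f (aff 1 2 τ) = f τ) (τ : ℍ) :
    fc 2 f 0 τ.im = 2⁻¹ * ∫ x in (0 : ℝ)..2, f (aff 1 x τ) := by
  have h := fc_aff two_pos per τ.re 0 τ.im_pos
  simp only [Int.cast_zero, mul_zero, zero_mul, zero_div, Complex.exp_zero, one_mul] at h
  rw [← h, cusp_fc_zero]
  congr 2
  funext x
  conv_rhs => rw [← pt_re_im τ]
  simp only [aff_pt one_pos _ _ τ.im_pos, one_mul, add_comm]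

theorem cusp_fc_norm {B : ℝ} (hB : ∀ τ, ‖f τ‖ ≤ B) (y : ℝ) : ‖fc 2 f 0 y‖ ≤ B := by
  rw [cusp_fc_zero, norm_mul]
  have := intervalIntegral.norm_integral_le_of_norm_le_const (a := 0) (b := 2)
    (f := fun x => f (pt x y)) fun x _ => hB _
  simp only [sub_zero, abs_two, norm_inv, Complex.norm_ofNat] at this ⊢
  linarith

theorem cusp_fc_R (hf : BC f) (per : ∀ τ, f (aff 1 2 τ) = f τ) {y : ℝ} (hy : 0 < y) :
    fc 2 (cuspR w η f) 0 y = ∫ z, cuspk w η UpperHalfPlane.I z * fc 2 f 0 (y * z.im) := by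
  obtain ⟨B, hB⟩ := hf.bdd
  have hc : Continuous (Function.uncurry fun (x : ℝ) (z : ℍ) => aff y x z) := by
    rw [isEmbedding_coe.continuous_iff]
    have : (UpperHalfPlane.coe ∘ Function.uncurry fun (x : ℝ) (z : ℍ) => aff y x z) =
        fun p : ℝ × ℍ => (y : ℂ) * p.2 + p.1 := funext fun p => coe_aff hy _ _
    rw [this]
    fun_prop
  simp only [cusp_fc_zero (cuspR w η f), cuspR_eq hf, pt_im _ hy, pt_re _ hy]
  rw [cusp_swap (cuspk_int _) (cuspk_cont _) (G := fun x z => f (aff y x z)) (hf.cont.comp hc)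
    (fun _ _ => hB _), ← integral_const_mul]
  congr 1
  funext z
  rw [← aff_im hy 0, cusp_fc_shift per, mul_left_comm]
  simp only [aff_aff one_pos hy, one_mul, zero_add]

theorem cusp_win_clamp (a : ℝ → ℂ) (Y : ℝ) :
    win a Y = ∫ t in (1 : ℝ)..3, tent t • a (Y * max 1 (min t 3)) := by
  refine intervalIntegral.integral_congr fun t ht => ?_
  rw [Set.uIcc_of_le (by norm_num)] at ht
  simp only [min_eq_left ht.2, max_eq_right ht.1]

theorem cusp_tent_norm (t : ℝ) : ‖tent t‖ ≤ 1 := by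
  rw [tent, Real.norm_of_nonneg (le_max_left _ _)]
  exact max_le zero_le_one (by linarith [abs_nonneg (t - 2)])

theorem cusp_mean_R {F : ℍ → ℂ} (hη : 0 < η) (h : Lev 2 F) : mean (cuspR 0 η F) = mean F := by
  obtain ⟨B, hB⟩ := h.bdd
  have per : ∀ τ, F (aff 1 2 τ) = F τ := fun τ => by simpa using h.per τ
  have h' := h.cuspR (η := η)
  have per' : ∀ τ, cuspR 0 η F (aff 1 2 τ) = cuspR 0 η F τ := fun τ => by simpa using h'.per τ
  refine tendsto_nhds_unique (LL.tendsto_fc ⟨2, h'⟩ two_pos per') ?_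
  set a := fc 2 F 0 with ha
  have hG : ∀ Y, 0 < Y → Continuous (Function.uncurry fun (t : ℝ) (z : ℍ) =>
      tent t • a (Y * z.im * max 1 (min t 3))) := fun Y hY => by
    have h1 := UpperHalfPlane.continuous_im
    have h2 : Continuous fun p : ℝ × ℍ => tent p.1 := by unfold tent; fun_prop
    have h3 : Continuous fun p : ℝ × ℍ => Y * p.2.im * max 1 (min p.1 3) := by fun_prop
    exact h2.smul ((continuousOn_fc h.cont 2 0).comp_continuous h3 fun p =>
      mul_pos (mul_pos hY p.2.im_pos) (lt_max_of_lt_left one_pos))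
  have hGB : ∀ (t y : ℝ), ‖tent t • a y‖ ≤ B := fun t y => by
    rw [norm_smul]
    exact (mul_le_of_le_one_left (norm_nonneg _) (cusp_tent_norm t)).trans (cusp_fc_norm hB y)
  have e1 : ∀ Y, 0 < Y → win (fc 2 (cuspR 0 η F) 0) Y =
      ∫ z, cuspk 0 η UpperHalfPlane.I z * win a (Y * z.im) := fun Y hY => by
    simp only [cusp_win_clamp a]
    rw [← cusp_swap (cuspk_int _) (cuspk_cont _) (hG Y hY) (fun t z => hGB _ _), cusp_win_clamp]
    congr 1
    funext t
    rw [cusp_fc_R h.toBC per (mul_pos hY (lt_max_of_lt_left one_pos)), ← integral_smul]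
    simp only [mul_smul_comm, mul_right_comm Y, ha]
  have e2 : mean F = ∫ z, cuspk 0 η UpperHalfPlane.I z * mean F := by
    simp only [cuspk_zero]
    rw [integral_mul_const, integral_complex_ofReal, cusprho_mass hη]; simp
  rw [e2]
  refine Tendsto.congr' (eventually_nhdsWithin_of_forall fun Y hY => (e1 Y hY).symm)
    (tendsto_integral_filter_of_dominated_convergence
      (fun z => cusprho η UpperHalfPlane.I z * (B * |3 - 1|))
      (eventually_nhdsWithin_of_forall fun Y hY => ?_)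
      (Eventually.of_forall fun Y => Eventually.of_forall fun z => ?_)
      ((cusprho_int _).mul_const _) (Eventually.of_forall fun z => Tendsto.const_mul _ ?_))
  · simp only [cusp_win_clamp a]
    exact ((cuspk_cont _).mul (intervalIntegral.continuous_parametric_intervalIntegral_of_continuous'
      (f := fun (z : ℍ) (t : ℝ) => tent t • a (Y * z.im * max 1 (min t 3)))
      ((hG Y hY).comp continuous_swap) 1 3)).aestronglyMeasurable
  · rw [norm_mul, norm_cuspk]
    exact mul_le_mul_of_nonneg_left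
      (intervalIntegral.norm_integral_le_of_norm_le_const fun t _ => hGB _ _) (cusprho_nonneg _ _)
  · refine (LL.tendsto_fc ⟨2, h⟩ two_pos per).comp (tendsto_nhdsWithin_iff.2 ⟨?_,
      eventually_nhdsWithin_of_forall fun Y hY => mul_pos hY z.im_pos⟩)
    have : Tendsto (fun Y : ℝ => Y * z.im) (𝓝 0) (𝓝 (0 * z.im)) :=
      (continuous_mul_const _).tendsto 0
    rw [zero_mul] at this
    exact this.mono_left nhdsWithin_le_nhds

theorem cusp_sq (z : ℂ) : conj z * z = ((‖z‖ ^ 2 : ℝ) : ℂ) := by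
  rw [Complex.conj_mul', ofReal_pow]

theorem cusp_jensen (hη : 0 < η) (hf : BC f) (τ : ℍ) :
    ‖cuspR w η f τ‖ ^ 2 ≤ (cuspR 0 η (fun σ => conj (f σ) * f σ) τ).re := by
  obtain ⟨B, hB⟩ := hf.bdd
  have hc := (hf.aff τ.im_pos τ.re).cont
  have hbc : BC fun σ => conj (f σ) * f σ :=
    BC.mul ⟨continuous_conj.comp hf.cont, B, fun σ => by simpa using hB σ⟩ hf
  have i0 := cusprho_int (η := η) UpperHalfPlane.I
  have i1 : Integrable fun z => cusprho η UpperHalfPlane.I z * ‖f (aff τ.im τ.re z)‖ :=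
    i0.mul_bdd hc.norm.aestronglyMeasurable (c := B) (Eventually.of_forall fun z => by
      simpa using hB _)
  have i2 : Integrable fun z => cusprho η UpperHalfPlane.I z * ‖f (aff τ.im τ.re z)‖ ^ 2 :=
    i0.mul_bdd (hc.norm.pow 2).aestronglyMeasurable (c := B ^ 2) (Eventually.of_forall fun z => by
      rw [norm_pow, norm_norm]; exact pow_le_pow_left₀ (norm_nonneg _) (hB _) 2)
  rw [cuspR_eq hbc]
  simp only [cuspk_zero, cusp_sq, ← ofReal_mul]
  rw [integral_complex_ofReal, ofReal_re]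
  set t := ∫ z, cusprho η UpperHalfPlane.I z * ‖f (aff τ.im τ.re z)‖ with ht
  have h1 : ‖cuspR w η f τ‖ ≤ t := by
    rw [cuspR_eq hf]
    exact norm_integral_le_of_norm_le i1 (Eventually.of_forall fun z => by
      rw [norm_mul, norm_cuspk])
  have h2 : ∫ z, 2 * t * (cusprho η UpperHalfPlane.I z * ‖f (aff τ.im τ.re z)‖) ≤
      ∫ z, (t ^ 2 * cusprho η UpperHalfPlane.I z +
        cusprho η UpperHalfPlane.I z * ‖f (aff τ.im τ.re z)‖ ^ 2) :=
    integral_mono (i1.const_mul _) ((i0.const_mul _).add i2) fun z => by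
      have := mul_nonneg (cusprho_nonneg (η := η) UpperHalfPlane.I z)
        (sq_nonneg (t - ‖f (aff τ.im τ.re z)‖))
      simp only
      linarith
  rw [integral_const_mul, integral_add (i0.const_mul _) i2, integral_const_mul, cusprho_mass hη,
    ← ht] at h2
  have h3 := pow_le_pow_left₀ (norm_nonneg _) h1 2
  linarith

theorem norm_cuspRA_le (hη : 0 < η) (f : AH j) : ‖cuspRA j η f‖ ≤ ‖f‖ := by
  refine (pow_le_pow_iff_left₀ (norm_nonneg _) (norm_nonneg _) two_ne_zero).1 ?_
  rw [AH.norm_sq, AH.norm_sq, ← cusp_mean_R hη (f.lev f)]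
  refine mean_re_mono (AH.ll _ _) ⟨2, (f.lev f).cuspR⟩ fun τ => ?_
  rw [cusp_sq, ofReal_re]
  exact cusp_jensen hη f.bc τ

theorem cuspRA_tendsto (f : AH j) :
    Tendsto (fun η => ‖cuspRA j η f - f‖ ^ 2) (𝓝[>] 0) (𝓝 0) := by
  obtain ⟨B, hB⟩ := f.bc.bdd
  have h := mean_dct (l := 𝓝[>] (0 : ℝ)) (M := 2) (B := (B + B) ^ 2)
    (F := fun η τ => conj ((cuspRA j η f - f).fn τ) * (cuspRA j η f - f).fn τ)
    (eventually_nhdsWithin_of_forall fun η hη => ⟨AH.lev _ _, fun τ => ?_⟩)
    (AH.lev (0 : AH j) 0) fun τ => ?_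
  · have h1 := (Complex.continuous_re.tendsto _).comp h
    rw [← AH.norm_sq, norm_zero, zero_pow two_ne_zero] at h1
    simpa only [AH.norm_sq, Function.comp_def] using h1
  · rw [cusp_sq, Complex.norm_real, norm_pow, norm_norm]
    exact pow_le_pow_left₀ (norm_nonneg _)
      ((norm_sub_le _ _).trans (add_le_add (cuspR_norm_le hη f.bc hB τ) (hB τ))) 2
  · have h1 : Tendsto (fun η => (cuspRA j η f - f).fn τ) (𝓝[>] 0) (𝓝 0) := by
      simpa [cuspRA_fn] using tendsto_sub_nhds_zero_iff.2 (cuspR_tendsto (w := 4 * j + 1) f.bc τ)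
    simpa using ((continuous_conj.tendsto _).comp h1).mul h1

theorem cusprho_le (hη : η ≤ 1) (τ σ : ℍ) : cusprho η τ σ ≤ (cuspm η)⁻¹ := by
  rw [cusprho, ← one_div]
  exact div_le_div_of_nonneg_right (max_le zero_le_one (by linarith [dist_nonneg (x := τ) (y := σ)]))
    (cuspm_nonneg η)

theorem cusp_const (hη : η ≤ 1) {y : ℝ} (hy : 0 < y) :
    ∃ φ : VV, ∀ f : AH j, fc 2 (cuspR w η f.fn) 0 y = ⟪EE j φ, f⟫_ℂ := by
  obtain ⟨c, hc, h⟩ := inner_EE'
  set κ := cuspk w η UpperHalfPlane.I with hκ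
  have hs : ∀ σ, κ σ ≠ 0 → dist σ UpperHalfPlane.I ≤ 1 := fun σ h0 => by
    by_contra h1
    rw [dist_comm] at h1
    exact h0 (by rw [← norm_eq_zero, norm_cuspk, cusprho_zero (by linarith)])
  have hv : ∀ s : ℝ, 0 < Real.exp s / y := fun s => by positivity
  set K : ℝ → ℂ := fun s => ∫ u, κ (pt u (Real.exp s / y)) with hK
  have hp : Continuous fun p : ℝ × ℝ => pt p.1 (Real.exp p.2 / y) :=
    continuousOn_pt.comp_continuous (f := fun p : ℝ × ℝ => (p.1, Real.exp p.2 / y)) (by fun_prop)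
      fun p => hv _
  have hKc : Continuous K := by
    refine continuous_of_dominated (bound := (Set.Icc (-Real.exp 1) (Real.exp 1)).indicator
      fun _ => (cuspm η)⁻¹) (fun s => ((cuspk_cont _).comp (continuous_pt (hv s))).aestronglyMeasurable)
      (fun s => Eventually.of_forall fun u => ?_) ((integrable_indicator_iff measurableSet_Icc).2
        (integrableOn_const (by simp))) (Eventually.of_forall fun u =>
        (cuspk_cont _).comp (hp.comp (f := fun s => (u, s)) (by fun_prop)))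
    by_cases h0 : κ (pt u (Real.exp s / y)) = 0
    · rw [h0, norm_zero]
      exact Set.indicator_nonneg (fun _ _ => inv_nonneg.2 (cuspm_nonneg η)) _
    · have h1 := dist_coe_le (pt u (Real.exp s / y)) UpperHalfPlane.I
      have h2 := Real.exp_le_exp.2 (hs _ h0)
      have h3 := abs_re_le_norm ((pt u (Real.exp s / y) : ℂ) - UpperHalfPlane.I)
      rw [Complex.dist_eq, UpperHalfPlane.I_im] at h1
      rw [sub_re, coe_re, coe_re, pt_re _ (hv s), UpperHalfPlane.I_re, sub_zero] at h3
      have h4 : u ∈ Set.Icc (-Real.exp 1) (Real.exp 1) := abs_le.1 (by linarith)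
      rw [Set.indicator_of_mem h4, norm_cuspk]
      exact cusprho_le hη _ _
  refine ⟨⟨fun s => conj ((c : ℂ)⁻¹ * (K s * (y * Real.exp (-s / 2)))), by fun_prop,
    |Real.log y| + 2, fun s hs' => ?_⟩, fun f => ?_⟩
  · have : K s = 0 := by
      refine integral_eq_zero_of_ae (Eventually.of_forall fun u => ?_)
      by_contra h0
      have h1 := (dist_log_im_le _ _).trans (hs _ h0)
      rw [pt_im _ (hv s), UpperHalfPlane.I_im, Real.log_one, Real.log_div (Real.exp_pos s).ne' hy.ne',
        Real.log_exp, dist_zero_right, Real.norm_eq_abs] at h1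
      have h2 := abs_add_le (s - Real.log y) (Real.log y)
      rw [sub_add_cancel] at h2
      linarith
    simp [this]
  · obtain ⟨B, hB⟩ := f.bc.bdd
    have hbc : BC fun z : ℍ => fc 2 f.fn 0 (y * z.im) :=
      ⟨(continuousOn_fc f.bc.cont 2 0).comp_continuous
        (continuous_const.mul UpperHalfPlane.continuous_im) fun z => mul_pos hy z.im_pos, B,
        fun z => cusp_fc_norm hB _⟩
    have him : (fun s => Real.exp s / y) '' Set.univ = Set.Ioi 0 := by
      refine Set.Subset.antisymm (by rintro _ ⟨s, -, rfl⟩; exact hv s) fun v hv' =>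
        ⟨Real.log (v * y), trivial, ?_⟩
      simp only
      rw [Real.exp_log (mul_pos hv' hy), mul_div_cancel_right₀ _ hy.ne']
    rw [h, cusp_fc_R f.bc f.aut.per hy, integral_upper (cusp_mul_int (cuspk_int _) hbc), ← him,
      integral_image_eq_integral_abs_deriv_smul (f' := fun s => Real.exp s / y) MeasurableSet.univ
        (fun s _ => ((Real.hasDerivAt_exp s).div_const y).hasDerivWithinAt)
        (fun a _ b _ hab => Real.exp_injective (by simpa [hy.ne'] using hab)),
      Measure.restrict_univ, ← integral_const_mul]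
    congr 1
    funext s
    have e1 : y * (Real.exp s / y) = Real.exp s := by field_simp
    have e2 : Real.exp (-s / 2) * Real.exp (-s / 2) * Real.exp s = 1 := by
      rw [← Real.exp_add, ← Real.exp_add, ← Real.exp_zero]; congr 1; ring
    have e3 := congrArg ofReal e2
    have e4 : (Real.exp s : ℂ) ≠ 0 := ofReal_ne_zero.2 (Real.exp_pos s).ne'
    have e5 : (y : ℂ) ≠ 0 := ofReal_ne_zero.2 hy.ne'
    have e6 : (c : ℂ) ≠ 0 := ofReal_ne_zero.2 hc.ne'
    simp only [pt_im _ (hv s), e1, integral_mul_const, conj_conj, abs_of_pos (hv s), real_smul,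
      ofReal_div, ofReal_mul, ofReal_one] at e3 ⊢
    change _ * (K s * _ / _) = _
    generalize (Real.exp (-s / 2) : ℂ) = q at e3 ⊢
    field_simp
    linear_combination (-(K s * fc 2 f.fn 0 (Real.exp s))) * e3

end Pool.Agent.Lib.MP_e6abdd_an
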