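import Mathlib

/-!
Basic definitions: phases of half-integral weight, horocycle integrals, the mean of a function
of finite level, and the product measures on Legendre symbols.
-/

namespace Pool.Agent.Lib.MP_e6abdd_an

open Complex hiding Gamma
open UpperHalfPlane hiding I
open MeasureTheory Filter Topology CongruenceSubgroup
open scoped Real MatrixGroups ComplexConjugate

noncomputable section

/-- The phase of `z ^ (w / 2)`. -/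
def ph (w : ℤ) (z : ℂ) : ℂ := cexp (I * (w * (arg z : ℂ) / 2))

/-- The theta multiplier of an element of `Γ(2)` with bottom row `(c, d)`. -/
def nu (c d : ℤ) : ℂ :=
  (jacobiSym (d.sign * (c / 2)) d.natAbs : ℤ) * (if d.natAbs % 4 = 1 then 1 else -I)

/-- The unimodular factor of automorphy of weight `1/2 + 2 j`. -/
def JJ (j c d : ℤ) (τ : ℍ) : ℂ := nu c d * ph (4 * j + 1) (d.sign * (c * (τ : ℂ) + d))

/-- The point `r τ + x`. -/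
def aff (r x : ℝ) (τ : ℍ) : ℍ := ofComplex (r * (τ : ℂ) + x)

/-- The point `x + i y`. -/
def pt (x y : ℝ) : ℍ := ofComplex (x + y * I)

/-- The height of `τ` with respect to the cusp `-d / c`. -/
def hgt (c d : ℤ) (τ : ℍ) : ℝ := τ.im / normSq (c * (τ : ℂ) + d)

/-- The action of `S` in weight `1/2 + 2 j`, unitary normalisation. -/
def sop (j : ℤ) (f : ℍ → ℂ) (τ : ℍ) : ℂ :=
  conj (ph (4 * j + 1) (-I * τ)) * f (ModularGroup.S • τ)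

structure BC (f : ℍ → ℂ) : Prop where
  cont : Continuous f
  bdd : ∃ B, ∀ τ, ‖f τ‖ ≤ B

def Aut (j : ℤ) (M : ℕ) (f : ℍ → ℂ) : Prop :=
  ∀ γ ∈ Gamma (2 * M), ∀ τ : ℍ, f (γ • τ) = JJ j (γ 1 0) (γ 1 1) τ * f τ

structure Lev (M : ℕ) (F : ℍ → ℂ) : Prop extends BC F where
  pos : 0 < M
  inv : ∀ γ ∈ Gamma M, ∀ τ : ℍ, F (γ • τ) = F τ

/-- Bounded continuous functions of finite level. -/
def LL (F : ℍ → ℂ) : Prop := ∃ M, Lev M F

/-- The `n`-th Fourier coefficient, for the period `P`, on the horocycle of height `y`. -/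
def fc (P : ℝ) (f : ℍ → ℂ) (n : ℤ) (y : ℝ) : ℂ :=
  (P : ℂ)⁻¹ * ∫ x in (0 : ℝ)..P, f (pt x y) * cexp (-(2 * π * I * n * x / P))

def hav (F : ℍ → ℂ) (y : ℝ) : ℂ := limUnder atTop fun L : ℝ => fc L F 0 y

def tent (t : ℝ) : ℝ := max 0 (1 - |t - 2|)

def win {E : Type} [NormedAddCommGroup E] [NormedSpace ℝ E] (a : ℝ → E) (Y : ℝ) : E :=
  ∫ t in (1 : ℝ)..3, tent t • a (Y * t)

def mean (F : ℍ → ℂ) : ℂ := limUnder (𝓝[>] 0) (win (hav F))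

def strip : Set ℍ := {τ | τ.re ∈ Set.Ioc (0 : ℝ) 2}

/-- A continuous cut-off at height `T`. -/
def chi (T : ℝ) (τ : ℍ) : ℝ :=
  max 0 (1 - ∑' v : {v : ℤ × ℤ // IsCoprime v.1 v.2}, max 0 (hgt v.1.1 v.1.2 τ / T - 1))

def wt (p : ℕ) (v : ℤ) : ℝ := if v = 0 then 1 / p else (1 - 1 / p) / 2

/-- The expectation of `G` for the product measure with densities `1 + v * M p` on the
coordinates in the list; the `M p` lie in an arbitrary ring with a map from the reals. -/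
def Op {A : Type} [Ring A] (ι : ℝ →+* A) (M : ℕ → A) : List ℕ → ((ℕ → ℤ) → ℝ) → A
  | [], G => ι (G 0)
  | p :: L, G => ∑ v ∈ ({-1, 0, 1} : Finset ℤ),
      ι (wt p v) * (Op ι M L (fun e => G (Function.update e p v)) * (1 + ι v * M p))

abbrev Ex (m : ℕ → ℝ) (L : List ℕ) (G : (ℕ → ℤ) → ℝ) : ℝ := Op (RingHom.id ℝ) m L G

/-- The real scalars of a complex algebra. -/
def cι (A : Type) [Ring A] [Algebra ℂ A] : ℝ →+* A := (algebraMap ℂ A).comp ofRealHom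

structure Test (L : List ℕ) (G : (ℕ → ℤ) → ℝ) : Prop where
  nodup : L.Nodup
  prime : ∀ p ∈ L, p.Prime ∧ p ≠ 2
  dep : ∀ e e' : ℕ → ℤ, (∀ p ∈ L, e p = e' p) → G e = G e'
  nonneg : ∀ e, 0 ≤ G e
  le_one : ∀ e, G e ≤ 1

structure Good (ε : ℝ) (L : List ℕ) (G : (ℕ → ℤ) → ℝ) : Prop extends Test L G where
  big : 1 - ε ≤ Ex 0 L G

def eps (n : ℤ) : ℕ → ℤ := fun p => jacobiSym n p

/-- The coefficient `2 √p / (p + 1)`. -/
def cp (p : ℕ) : ℝ := 2 * √p / (p + 1)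

/-- The integral over a fundamental domain of `Γ(M)`. -/
def fint (M : ℕ) (F : ℍ → ℂ) : ℂ :=
  ∫ τ in ModularGroup.fdo, ∑ᶠ q : SL(2, ℤ) ⧸ Gamma M, F (q.out • τ)

def rows (Γ₀ : Subgroup SL(2, ℤ)) : Set (ℤ × ℤ) := {v | ∃ γ ∈ Γ₀, (γ 1 0, γ 1 1) = v}

/-- The action of `S` on holomorphic functions in weight `1/2`. -/
def sl (f : ℍ → ℂ) (τ : ℍ) : ℂ := (-I * τ) ^ (-1 / 2 : ℂ) * f (ModularGroup.S • τ)

def gs (X : ℝ) (τ : ℍ) : ℂ := cexp (π * I * X * τ)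

def psi (X : ℝ) (τ : ℍ) : ℂ := gs X τ + sl (gs X) τ

/-- Unitary normalisation in weight `1/2`. -/
def nz (f : ℍ → ℂ) (τ : ℍ) : ℂ := (τ.im ^ (1 / 4 : ℝ) : ℝ) * f τ

def maj (τ : ℍ) : ℝ := 1 + ∑ c ∈ Finset.Icc 1 ⌊τ.im ^ (-1 / 2 : ℝ)⌋₊,
  ∑' d : ℤ, (hgt c d τ / ((c : ℝ) ^ 2 * τ.im) ^ (1 / 4 : ℝ)) ^ (5 / 8 : ℝ)

/-- The cocycle: `K c d` is the difference of the solutions attached to the cusps `∞` and
`-d / c`. -/
structure Coc (X : ℝ) (K : ℤ → ℤ → ℍ → ℂ) : Prop where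
  hol : ∀ c d, DifferentiableOn ℂ (K c d ∘ ofComplex) {z | 0 < z.im}
  neg : ∀ c d, K (-c) (-d) = K c d
  base : K 0 1 = 0
  T2 : ∀ c d, IsCoprime c d → ∀ τ, K c (d + 2 * c) τ = K c d (aff 1 2 τ)
  S : ∀ c d, IsCoprime c d → ∀ τ, K d (-c) τ = psi X τ - sl (K c d) τ
  bd : ∃ C : ℝ, ∀ c d : ℤ, IsCoprime c d → Odd (c + d) → ∀ τ, ‖nz (K c d) τ‖ ≤ C * (|(c : ℝ)| + 1)
  ubd : ∀ δ > 0, ∃ B, ∀ τ : ℍ, δ ≤ τ.im → ‖sl (fun w => K 1 (-1) (aff 1 1 w)) τ‖ ≤ B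
  err : ∃ C : ℝ, ∀ c d : ℤ, IsCoprime c d → ∀ (τ : ℍ) (κ : ℝ), (c : ℝ) ^ 2 * τ.im ≤ κ → κ ≤ 2 →
    ‖nz (K c d) τ‖ ^ 2 ≤ C * κ ^ (1 / 32 : ℝ) * maj τ

structure Sol (X : ℝ) (t : ℂ) (F : ℍ → ℂ) : Prop where
  hol : DifferentiableOn ℂ (F ∘ ofComplex) {z | 0 < z.im}
  per : ∀ τ, F (aff 1 2 τ) = F τ
  eqn : ∀ τ, F τ + sl F τ = t * psi X τ
  bdd : ∀ δ > 0, ∃ B, ∀ τ : ℍ, δ ≤ τ.im → ‖F τ‖ ≤ B
  bdd1 : ∀ δ > 0, ∃ B, ∀ τ : ℍ, δ ≤ τ.im → ‖sl (fun w => F (aff 1 1 w)) τ‖ ≤ B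

/-- A theta function with real characteristics and a coherent-state parameter. -/
def GG (τ : ℍ) (α β : ℝ) (s : ℂ) : ℂ := (τ.im ^ (1 / 4 : ℝ) : ℝ) * ∑' b : ℤ,
  cexp (π * I * τ * (b + α) ^ 2 + 2 * π * I * β * (b + α / 2) + 2 * π * (√τ.im : ℝ) * s * (b + α)
    - π * s ^ 2 / 2)

def WW (D N : ℕ) (ξ : ℤ) : ℤ := if Int.gcd ξ N = 1 then jacobiSym D ξ.natAbs else 0

def f1 (ζ s₁ s₃ : ℂ) : ℂ :=
  cexp (-π * normSq ζ - I * π * (√2 : ℝ) * (s₁ * conj ζ + s₃ * ζ) + π * s₁ * s₃)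

def term (D N : ℕ) (τ z : ℍ) (sp sm s₃ : ℂ) (c d : ℤ) : ℂ :=
  WW D N d * z.im * f1 (z.im * (c * (τ : ℂ) + d) / (√(2 * D * τ.im) : ℝ)) ((sp + sm) / 2) s₃ *
    GG (aff D 0 τ) (z.re * c / D) (z.re * d) ((sp - sm) / (2 * I))

/-- The theta kernel of a ternary lattice in the mixed model. -/
def TH (D N : ℕ) (τ z : ℍ) (sp sm s₃ : ℂ) : ℂ :=
  ∑' v : ℤ × ℤ, term D N τ z sp sm s₃ (2 * D * N * v.1) v.2

def om (p : ℕ) (i : ℤ) : ℂ := (jacobiSym (-i) p : ℤ) * (if p % 4 = 1 then 1 else I)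

/-- The Hecke operator `T (p ^ 2)`. -/
def TT (p : ℕ) (f : ℍ → ℂ) (τ : ℍ) : ℂ :=
  f (aff (p ^ 2) 0 τ) + ∑ b ∈ Finset.range (p ^ 2), f (aff ((p : ℝ) ^ 2)⁻¹ (2 * b / p ^ 2) τ) +
    ∑ i ∈ Finset.range p, om p i * f (aff 1 (2 * i / p) τ)

theorem coe_aff {r : ℝ} (hr : 0 < r) (x : ℝ) (τ : ℍ) : (aff r x τ : ℂ) = r * τ + x := by
  rw [aff, ofComplex_apply_of_im_pos]
  simpa using mul_pos hr τ.im_pos

theorem coe_pt (x : ℝ) {y : ℝ} (hy : 0 < y) : (pt x y : ℂ) = x + y * I := by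
  rw [pt, ofComplex_apply_of_im_pos]
  simpa using hy

theorem aff_re {r : ℝ} (hr : 0 < r) (x : ℝ) (τ : ℍ) : (aff r x τ).re = r * τ.re + x := by
  rw [← coe_re, coe_aff hr]; simp

theorem aff_im {r : ℝ} (hr : 0 < r) (x : ℝ) (τ : ℍ) : (aff r x τ).im = r * τ.im := by
  rw [← coe_im, coe_aff hr]; simp

theorem pt_re (x : ℝ) {y : ℝ} (hy : 0 < y) : (pt x y).re = x := by
  rw [← coe_re, coe_pt x hy]; simp

theorem pt_im (x : ℝ) {y : ℝ} (hy : 0 < y) : (pt x y).im = y := by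
  rw [← coe_im, coe_pt x hy]; simp

theorem pt_re_im (τ : ℍ) : pt τ.re τ.im = τ :=
  UpperHalfPlane.ext (by rw [coe_pt _ τ.im_pos]; exact τ.re_add_im)

theorem aff_pt {r : ℝ} (hr : 0 < r) (s x : ℝ) {y : ℝ} (hy : 0 < y) :
    aff r s (pt x y) = pt (r * x + s) (r * y) :=
  UpperHalfPlane.ext (by rw [coe_aff hr, coe_pt x hy, coe_pt _ (mul_pos hr hy)]; push_cast; ring)

theorem aff_aff {r r' : ℝ} (hr : 0 < r) (hr' : 0 < r') (x x' : ℝ) (τ : ℍ) :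
    aff r x (aff r' x' τ) = aff (r * r') (r * x' + x) τ :=
  UpperHalfPlane.ext (by
    rw [coe_aff hr, coe_aff hr', coe_aff (mul_pos hr hr')]; push_cast; ring)

theorem aff_one_zero (τ : ℍ) : aff 1 0 τ = τ :=
  UpperHalfPlane.ext (by rw [coe_aff one_pos]; simp)

theorem continuous_aff {r : ℝ} (hr : 0 < r) (x : ℝ) : Continuous (aff r x) := by
  rw [isEmbedding_coe.continuous_iff]
  have : (UpperHalfPlane.coe ∘ aff r x) = fun τ : ℍ => (r : ℂ) * τ + x := funext (coe_aff hr x)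
  rw [this]; fun_prop

theorem continuous_pt {y : ℝ} (hy : 0 < y) : Continuous fun x => pt x y := by
  rw [isEmbedding_coe.continuous_iff]
  have : (UpperHalfPlane.coe ∘ fun x => pt x y) = fun x : ℝ => (x : ℂ) + y * I :=
    funext fun x => coe_pt x hy
  rw [this]; fun_prop

theorem continuousOn_pt : ContinuousOn (fun p : ℝ × ℝ => pt p.1 p.2) {p | 0 < p.2} := by
  rw [isEmbedding_coe.continuousOn_iff]
  exact (show Continuous fun p : ℝ × ℝ => (p.1 : ℂ) + p.2 * I by fun_prop).continuousOn.congr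
    fun p hp => coe_pt p.1 hp

theorem T_zpow_smul (n : ℤ) (τ : ℍ) : ModularGroup.T ^ n • τ = aff 1 n τ :=
  UpperHalfPlane.ext (by rw [ModularGroup.coe_T_zpow_smul_eq, coe_aff one_pos]; simp)

theorem coe_S_smul (τ : ℍ) : ((ModularGroup.S • τ : ℍ) : ℂ) = -1 / τ := by
  rw [modular_S_smul]; simp [neg_div, inv_neg]

theorem coe_SL_smul (γ : SL(2, ℤ)) (τ : ℍ) :
    ((γ • τ : ℍ) : ℂ) = (γ 0 0 * (τ : ℂ) + γ 0 1) / (γ 1 0 * (τ : ℂ) + γ 1 1) := by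
  rw [specialLinearGroup_apply]; simp

theorem im_SL_smul (γ : SL(2, ℤ)) (τ : ℍ) : (γ • τ).im = hgt (γ 1 0) (γ 1 1) τ := by
  rw [ModularGroup.im_smul_eq_div_normSq, hgt]; simp [denom]

theorem denom_ne {c d : ℤ} (h : IsCoprime c d) (τ : ℍ) : (c * (τ : ℂ) + d) ≠ 0 := by
  intro h0
  have h1 := congrArg Complex.im h0
  have h2 := congrArg Complex.re h0
  simp only [add_im, mul_im, intCast_re, intCast_im, zero_mul, add_zero, zero_im, mul_eq_zero,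
    coe_im, τ.im_ne_zero, or_false, Int.cast_eq_zero] at h1
  subst h1
  simp only [Int.cast_zero, zero_mul, zero_add, intCast_re, zero_re, Int.cast_eq_zero] at h2
  subst h2
  exact not_isCoprime_zero_zero h

theorem norm_ph (w : ℤ) (z : ℂ) : ‖ph w z‖ = 1 := by
  rw [ph, norm_exp]; simp

end

end Pool.Agent.Lib.MP_e6abdd_an
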