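import Pool.Agent.Lib.MP_e6abdd_an.EisB

/-!
Incomplete Eisenstein series.
-/

namespace Pool.Agent.Lib.MP_e6abdd_an

open Complex hiding Gamma
open UpperHalfPlane hiding I
open MeasureTheory Filter Topology CongruenceSubgroup
open scoped Real MatrixGroups ComplexConjugate

open scoped InnerProductSpace

noncomputable section

variable {j : ℤ} {p : ℕ}

/-- Continuous functions of compact support on the line. -/
def VV : Submodule ℂ (ℝ → ℂ) where
  carrier := {φ | Continuous φ ∧ ∃ R : ℝ, ∀ s, R ≤ |s| → φ s = 0}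
  add_mem' := fun {φ ψ} ⟨h, R, hR⟩ ⟨h', R', hR'⟩ => ⟨h.add h', max R R', fun s hs => by
    simp [hR s (le_of_max_le_left hs), hR' s (le_of_max_le_right hs)]⟩
  zero_mem' := ⟨continuous_const, 0, fun _ _ => rfl⟩
  smul_mem' := fun c φ ⟨h, R, hR⟩ => ⟨h.const_smul c, R, fun s hs => by simp [hR s hs]⟩

def CC (a : ℝ) : Module.End ℂ VV where
  toFun φ := ⟨fun s => (φ.1 (s + a) + φ.1 (s - a)) / 2, by
    obtain ⟨h, R, hR⟩ := φ.2
    refine ⟨by fun_prop, R + |a|, fun s hs => ?_⟩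
    have h1 := abs_sub (s + a) a
    have h2 := abs_add_le (s - a) a
    rw [add_sub_cancel_right] at h1
    rw [sub_add_cancel] at h2
    beta_reduce
    rw [hR (s + a) (by linarith), hR (s - a) (by linarith)]
    simp⟩
  map_add' φ ψ := Subtype.ext (funext fun s => by simp; ring)
  map_smul' c φ := Subtype.ext (funext fun s => by simp; ring)

theorem eis_CC_apply (a : ℝ) (φ : VV) (s : ℝ) :
    (CC a φ).1 s = (φ.1 (s + a) + φ.1 (s - a)) / 2 := rfl

theorem CC_zero : CC 0 = 1 :=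
  LinearMap.ext fun φ => Subtype.ext (funext fun s => by simp [eis_CC_apply])

theorem CC_add (a b : ℝ) : CC (a + b) + CC (a - b) = 2 * (CC a * CC b) := by
  rw [two_mul]
  refine LinearMap.ext fun φ => Subtype.ext (funext fun s => ?_)
  simp only [LinearMap.add_apply, Module.End.mul_apply, Submodule.coe_add, Pi.add_apply,
    eis_CC_apply]
  rw [show s + (a + b) = s + a + b by ring, show s - (a + b) = s - a - b by ring,
    show s + (a - b) = s + a - b by ring, show s - (a - b) = s - a + b by ring]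
  ring

def eis (j : ℤ) (φ : ℝ → ℂ) (τ : ℍ) : ℂ := ∑' v : rows (Gamma 2),
  conj (JJ j v.1.1 v.1.2 τ) * ((√(hgt v.1.1 v.1.2 τ) : ℝ) * φ (Real.log (hgt v.1.1 v.1.2 τ)))

def EE (j : ℤ) : VV →ₗ[ℂ] AH j where
  toFun φ := AH.mk (eis j φ.1) (φ.2.2.elim fun _ hR => eis_bc φ.2.1 hR) (eis_aut j φ.1)
  map_add' φ ψ := AH.ext fun τ => by
    obtain ⟨R, hR⟩ := φ.2.2
    obtain ⟨R', hR'⟩ := ψ.2.2
    obtain ⟨B, hB⟩ := eis_summable_bdd (j := j) φ.2.1 hR
    obtain ⟨B', hB'⟩ := eis_summable_bdd (j := j) ψ.2.1 hR'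
    refine Eq.trans (tsum_congr fun v => ?_) ((hB τ).1.tsum_add (hB' τ).1)
    simp only [eis_tm, eis_W, Submodule.coe_add, Pi.add_apply]
    ring
  map_smul' c φ := AH.ext fun τ => by
    refine Eq.trans (tsum_congr fun v => ?_) tsum_mul_left
    simp only [Submodule.coe_smul, Pi.smul_apply, smul_eq_mul, RingHom.id_apply]
    ring

theorem eis_EE_fn (φ : VV) : (EE j φ).fn = eis_sum j φ.1 := rfl

theorem inner_EE : ∃ c : ℝ, 0 < c ∧ ∀ (j : ℤ) (φ : VV) (g : AH j), ⟪EE j φ, g⟫_ℂ =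
    c * ∫ τ in strip, conj ((√τ.im : ℝ) * φ.1 (Real.log τ.im)) * g.fn τ := by
  obtain ⟨c, hc, h⟩ := unfold2
  refine ⟨c, hc, fun j φ g => ?_⟩
  obtain ⟨R, hR⟩ := φ.2.2
  have e : (fun τ => conj ((EE j φ).fn τ) * g.fn τ) =
      fun τ => ∑' v : rows (Gamma 2), conj (eis_tm j φ.1 v τ) * g.fn τ := by
    funext τ
    rw [eis_EE_fn, eis_sum, conj_tsum, tsum_mul_right]
  have hl := (EE j φ).lev g
  rw [e] at hl
  rw [AH.inner_def, e]
  refine h _ (fun v τ => conj (eis_tm j φ.1 v τ) * g.fn τ) (eis_integrableOn φ.2.1 hR g.bc)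
    (fun γ hγ τ => ?_) hl
  rw [g.aut γ hγ τ, im_SL_smul]
  simp only [eis_tm, eis_W, map_mul, conj_conj]
  ring

theorem inner_EE' : ∃ c : ℝ, 0 < c ∧ ∀ (j : ℤ) (φ : VV) (g : AH j), ⟪EE j φ, g⟫_ℂ =
    c * ∫ s : ℝ, conj (φ.1 s) * (Real.exp (-s / 2) * fc 2 g.fn 0 (Real.exp s)) := by
  obtain ⟨c, hc, h⟩ := inner_EE
  refine ⟨c * 2, by positivity, fun j φ g => ?_⟩
  obtain ⟨R, hR⟩ := φ.2.2
  rw [h, ofReal_mul, mul_assoc]
  exact congrArg _ (eis_integral_strip φ.2.1 hR g.bc)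

theorem eis_inner_CC : ∃ c : ℝ, ∀ (j : ℤ) (φ : VV) (g : AH j),
    ⟪EE j φ, g⟫_ℂ = c * ∫ s : ℝ, conj (φ.1 s) * eis_hh g.fn s ∧ ∀ a, ⟪EE j (CC a φ), g⟫_ℂ =
      c * ∫ s : ℝ, conj (φ.1 s) * ((eis_hh g.fn (s + a) + eis_hh g.fn (s - a)) / 2) := by
  obtain ⟨c, -, h⟩ := inner_EE'
  refine ⟨c, fun j φ g => ⟨h j φ g, fun a => ?_⟩⟩
  obtain ⟨R, hR⟩ := φ.2.2
  rw [h]
  exact congrArg _ (eis_shift φ.2.1 hR (eis_hh_continuous g.bc.cont) a)

theorem MA_EE (hp : p.Prime) (h2 : p ≠ 2) (φ : VV) :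
    MA j p (EE j φ) = EE j ((((sg p * cp p : ℝ) : ℂ) • CC (2 * Real.log p)) φ) := by
  obtain ⟨c, h⟩ := eis_inner_CC
  refine ext_inner_right ℂ fun g => ?_
  have hp1 : (p : ℂ) ≠ 0 := Nat.cast_ne_zero.2 hp.pos.ne'
  have hp2 : (p : ℂ) + 1 ≠ 0 := Nat.cast_add_one_ne_zero p
  have hp3 : (p : ℂ) ^ 2 + p ≠ 0 := by
    rw [show (p : ℂ) ^ 2 + p = p * (p + 1) by ring]
    exact mul_ne_zero hp1 hp2
  have e : (fun s => conj (φ.1 s) * eis_hh (TA j p g).fn s) = fun s => 2 * p * (conj (φ.1 s) *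
      ((eis_hh g.fn (s + 2 * Real.log p) + eis_hh g.fn (s - 2 * Real.log p)) / 2)) := by
    funext s
    rw [TA_fn hp h2, eis_hh_TT hp h2 g.bc.cont g.aut.per]
    ring
  rw [MA, LinearMap.smul_apply, LinearMap.smul_apply, map_smul, inner_smul_left, inner_smul_left,
    inner_TA, (h j φ _).1, (h j φ g).2, e, integral_const_mul, conj_ofReal, conj_ofReal, cp]
  push_cast
  field_simp

theorem inner_EE_CC (a : ℝ) (φ ψ : VV) :
    ⟪EE j (CC a φ), EE j ψ⟫_ℂ = ⟪EE j φ, EE j (CC a ψ)⟫_ℂ := by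
  obtain ⟨c, h⟩ := eis_inner_CC
  obtain ⟨R, hR⟩ := ψ.2.2
  have hψ := ψ.2.1
  have h1 : ∀ t, R + |a| ≤ |t| → ψ.1 (t + a) = 0 := fun t ht => hR _ (by
    have := abs_sub (t + a) a
    rw [add_sub_cancel_right] at this
    linarith)
  have h2 : ∀ t, R + |a| ≤ |t| → ψ.1 (t - a) = 0 := fun t ht => hR _ (by
    have := abs_add_le (t - a) a
    rw [sub_add_cancel] at this
    linarith)
  let u : VV := ⟨fun t => ψ.1 (t + a), by fun_prop, _, h1⟩
  let w : VV := ⟨fun t => ψ.1 (t - a), by fun_prop, _, h2⟩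
  have e : CC a ψ = (2⁻¹ : ℂ) • (u + w) := Subtype.ext (funext fun s => by
    simp only [eis_CC_apply, Submodule.coe_smul, Submodule.coe_add, Pi.smul_apply, Pi.add_apply,
      smul_eq_mul, u, w]
    ring)
  rw [(h j φ _).2, (h j φ _).1]
  congr 2
  funext s
  rw [eis_EE_fn, ← eis_hh_shift hψ hR, e, map_smul, map_add]
  congr 1
  have hy := Real.exp_pos s
  have i1 := ((EE j u).bc.cont.comp (continuous_pt hy)).intervalIntegrable (μ := volume) 0 2
  have i2 := ((EE j w).bc.cont.comp (continuous_pt hy)).intervalIntegrable (μ := volume) 0 2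
  simp only [Function.comp_def] at i1 i2
  simp only [eis_hh, eis_fc, AH.fn_smul, AH.fn_add, intervalIntegral.integral_const_mul]
  rw [intervalIntegral.integral_add i1 i2]
  simp only [eis_EE_fn, u, w]
  ring

theorem continuous_EE_CC (φ ψ : VV) : Continuous fun a => ⟪EE j φ, EE j (CC a ψ)⟫_ℂ := by
  obtain ⟨c, h⟩ := eis_inner_CC
  obtain ⟨R, hR⟩ := φ.2.2
  have hφ := φ.2.1
  have hh := eis_hh_continuous (EE j ψ).bc.cont
  simp only [← inner_EE_CC, (h j φ _).2]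
  refine continuous_const.mul (continuousOn_univ.1 (continuousOn_integral_of_compact_support
    (isCompact_Icc (a := -R) (b := R)) (Continuous.continuousOn ?_) fun a s _ hs => ?_))
  · unfold Function.uncurry
    fun_prop
  · rw [hR s, map_zero, zero_mul]
    by_contra h0
    exact hs ⟨(abs_lt.1 (not_le.1 h0)).1.le, (abs_lt.1 (not_le.1 h0)).2.le⟩

end

end Pool.Agent.Lib.MP_e6abdd_an
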