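import Pool.Agent.Lib.MP_e6abdd_an.Hecke

/-!
Terms of incomplete Eisenstein series.
-/

namespace Pool.Agent.Lib.MP_e6abdd_an

open Complex hiding Gamma
open UpperHalfPlane hiding I
open MeasureTheory Filter Topology CongruenceSubgroup
open scoped Real MatrixGroups ComplexConjugate

noncomputable section

variable {j : ℤ} {φ ψ : ℝ → ℂ} {R : ℝ}

/-- The profile as a function of the height. -/
def eis_W (φ : ℝ → ℂ) (h : ℝ) : ℂ := (√h : ℝ) * φ (Real.log h)

def eis_tm (j : ℤ) (φ : ℝ → ℂ) (v : ℤ × ℤ) (τ : ℍ) : ℂ :=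
  conj (JJ j v.1 v.2 τ) * eis_W φ (hgt v.1 v.2 τ)

def eis_sum (j : ℤ) (φ : ℝ → ℂ) (τ : ℍ) : ℂ := ∑' v : rows (Gamma 2), eis_tm j φ v τ

theorem eis_cs (hR : ∀ s, R ≤ |s| → φ s = 0) : HasCompactSupport φ :=
  HasCompactSupport.intro (isCompact_Icc (a := -R) (b := R)) fun s hs => hR s (by
    by_contra h
    exact hs ⟨(abs_lt.1 (not_le.1 h)).1.le, (abs_lt.1 (not_le.1 h)).2.le⟩)

theorem eis_W_continuousOn (hφ : Continuous φ) : ContinuousOn (eis_W φ) (Set.Ioi 0) := by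
  unfold eis_W
  refine ContinuousOn.mul (by fun_prop) (hφ.comp_continuousOn ?_)
  exact Real.continuousOn_log.mono fun x hx => ne_of_gt hx

theorem eis_W_ne (hR : ∀ s, R ≤ |s| → φ s = 0) {h : ℝ} (hh : 0 < h) (h0 : eis_W φ h ≠ 0) :
    Real.exp (-R) ≤ h ∧ h ≤ Real.exp R := by
  have h1 : |Real.log h| < R := by
    by_contra h1
    exact h0 (by rw [eis_W, hR _ (not_lt.1 h1), mul_zero])
  rw [abs_lt] at h1
  exact ⟨(Real.le_log_iff_exp_le hh).1 h1.1.le, (Real.log_le_iff_le_exp hh).1 h1.2.le⟩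

theorem eis_W_exp (φ : ℝ → ℂ) (s : ℝ) : eis_W φ (Real.exp s) = Real.exp (s / 2) * φ s := by
  rw [eis_W, Real.log_exp, Real.exp_half]

theorem eis_W_bdd (hφ : Continuous φ) (hR : ∀ s, R ≤ |s| → φ s = 0) :
    ∃ B, 0 ≤ B ∧ ∀ h, 0 < h → ‖eis_W φ h‖ ≤ B := by
  have h1 : HasCompactSupport fun s : ℝ => (Real.exp (s / 2) : ℂ) * φ s := (eis_cs hR).mul_left
  obtain ⟨B, hB⟩ := h1.exists_bound_of_continuous (by fun_prop)
  refine ⟨B, (norm_nonneg _).trans (hB 0), fun h hh => ?_⟩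
  rw [← Real.exp_log hh, eis_W_exp]
  exact hB _

theorem eis_odd {c d : ℤ} (h : IsCoprime c d) (hc : Even c) : Odd d := by
  rcases Int.even_or_odd d with hd | hd
  · have := h.isUnit_of_dvd' hc.two_dvd hd.two_dvd
    rw [Int.isUnit_iff] at this
    omega
  · exact hd

theorem eis_tm_continuous (hφ : Continuous φ) (v : rows (Gamma 2)) : Continuous (eis_tm j φ v) := by
  obtain ⟨h1, h2⟩ := mem_rows2.1 v.2
  have hd : v.1.2 ≠ 0 := by
    intro h0
    have := eis_odd h1 h2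
    rw [h0] at this
    exact absurd this (by decide)
  unfold eis_tm
  refine (continuous_conj.comp (continuous_JJ j _ hd)).mul ?_
  exact (eis_W_continuousOn hφ).comp_continuous (continuous_hgt h1) fun τ => hgt_pos h1 τ

theorem eis_tm_ne (hR : ∀ s, R ≤ |s| → φ s = 0) (v : rows (Gamma 2)) (τ : ℍ)
    (h : eis_tm j φ v τ ≠ 0) : Real.exp (-R) ≤ hgt v.1.1 v.1.2 τ :=
  (eis_W_ne hR (hgt_pos (mem_rows2.1 v.2).1 τ) (right_ne_zero_of_mul h)).1

theorem eis_tm_norm (v : rows (Gamma 2)) (τ : ℍ) :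
    ‖eis_tm j φ v τ‖ = ‖eis_W φ (hgt v.1.1 v.1.2 τ)‖ := by
  rw [eis_tm, norm_mul, RCLike.norm_conj, norm_JJ j (mem_rows2.1 v.2).1 (mem_rows2.1 v.2).2, one_mul]

theorem eis_summable_bdd (hφ : Continuous φ) (hR : ∀ s, R ≤ |s| → φ s = 0) :
    ∃ B, ∀ τ, Summable (fun v : rows (Gamma 2) => eis_tm j φ v τ) ∧ ‖eis_sum j φ τ‖ ≤ B := by
  obtain ⟨N, -, hN⟩ := norm_tsum_hgt (Real.exp_pos (-R))
  obtain ⟨B, hB0, hB⟩ := eis_W_bdd hφ hR
  exact ⟨N * B, fun τ => hN _ (fun v hv => (mem_rows2.1 hv).1) τ _ B hB0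
    (fun v => by rw [eis_tm_norm]; exact hB _ (hgt_pos (mem_rows2.1 v.2).1 τ))
    fun v hv => eis_tm_ne hR v τ hv⟩

theorem eis_bc (hφ : Continuous φ) (hR : ∀ s, R ≤ |s| → φ s = 0) : BC (eis_sum j φ) := by
  obtain ⟨B, hB⟩ := eis_summable_bdd (j := j) hφ hR
  exact ⟨continuous_tsum_hgt (fun v hv => (mem_rows2.1 hv).1) continuous_id (Real.exp_pos (-R))
    (eis_tm_continuous hφ) fun v τ h => eis_tm_ne hR v τ h, B, fun τ => (hB τ).2⟩

theorem eis_row_mul (δ γ : SL(2, ℤ)) :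
    rowEquiv γ (δ 1 0, δ 1 1) = ((δ * γ) 1 0, (δ * γ) 1 1) := by
  change (δ 1 0 * γ 0 0 + δ 1 1 * γ 1 0, δ 1 0 * γ 0 1 + δ 1 1 * γ 1 1) = _
  simp [Matrix.mul_apply, Fin.sum_univ_two]

theorem eis_row_mem {γ : SL(2, ℤ)} (hγ : γ ∈ Gamma 2) (v : ℤ × ℤ) :
    v ∈ rows (Gamma 2) ↔ rowEquiv γ v ∈ rows (Gamma 2) := by
  constructor
  · rintro ⟨δ, hδ, rfl⟩
    exact ⟨δ * γ, mul_mem hδ hγ, (eis_row_mul δ γ).symm⟩
  · rintro ⟨δ, hδ, h⟩
    refine ⟨δ * γ⁻¹, mul_mem hδ (inv_mem hγ), (rowEquiv γ).injective ?_⟩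
    rw [eis_row_mul, ← h]
    simp

theorem eis_aut (j : ℤ) (φ : ℝ → ℂ) : Aut j 1 (eis_sum j φ) := by
  intro γ hγ τ
  have hγ' : γ ∈ Gamma 2 := hγ
  unfold eis_sum
  rw [← tsum_mul_left]
  refine Eq.trans (tsum_congr fun ⟨v, δ, hδ, hv⟩ => ?_)
    (((rowEquiv γ).subtypeEquiv (eis_row_mem hγ')).tsum_eq _)
  subst hv
  have h1 : JJ j (γ 1 0) (γ 1 1) τ * conj (JJ j (γ 1 0) (γ 1 1) τ) = 1 := by
    rw [mul_conj, normSq_eq_norm_sq, norm_JJ' j hγ']; simp
  simp only [Equiv.subtypeEquiv_apply, eis_row_mul, eis_tm]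
  rw [JJ_mul j hδ hγ', ← im_SL_smul, ← im_SL_smul, mul_smul, map_mul]
  linear_combination (-(conj (JJ j (δ 1 0) (δ 1 1) (γ • τ)) * eis_W φ (δ • γ • τ).im)) * h1

/-- The normalised constant term in logarithmic scale. -/
def eis_hh (g : ℍ → ℂ) (s : ℝ) : ℂ := Real.exp (-s / 2) * fc 2 g 0 (Real.exp s)

theorem eis_hh_continuous {g : ℍ → ℂ} (hg : Continuous g) : Continuous (eis_hh g) := by
  unfold eis_hh
  exact Continuous.mul (by fun_prop)
    ((continuousOn_fc hg 2 0).comp_continuous Real.continuous_exp fun s => Real.exp_pos s)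

theorem eis_fc (g : ℍ → ℂ) (y : ℝ) : fc 2 g 0 y = (∫ x in (0 : ℝ)..2, g (pt x y)) / 2 := by
  simp [fc]; ring

theorem eis_integrable (hφ : Continuous φ) (hR : ∀ s, R ≤ |s| → φ s = 0) {h : ℝ → ℂ}
    (hh : Continuous h) : Integrable fun s => conj (φ s) * h s := by
  refine Continuous.integrable_of_hasCompactSupport (by fun_prop) (eis_cs (R := R) ?_)
  intro s hs
  rw [hR s hs]; simp

theorem eis_shift (hφ : Continuous φ) (hR : ∀ s, R ≤ |s| → φ s = 0) {h : ℝ → ℂ}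
    (hh : Continuous h) (a : ℝ) : ∫ s, conj ((φ (s + a) + φ (s - a)) / 2) * h s =
      ∫ s, conj (φ s) * ((h (s + a) + h (s - a)) / 2) := by
  have i1 := eis_integrable hφ hR (h := fun s => h (s + a)) (by fun_prop)
  have i2 := eis_integrable hφ hR (h := fun s => h (s - a)) (by fun_prop)
  have i3 := i1.comp_sub_right a
  have i4 := i2.comp_add_right a
  have e1 := integral_sub_right_eq_self (μ := volume) (fun s => conj (φ s) * h (s + a)) a
  have e2 := integral_add_right_eq_self (μ := volume) (fun s => conj (φ s) * h (s - a)) a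
  simp only [sub_add_cancel, add_sub_cancel_right] at i3 i4 e1 e2
  have e3 : (fun s => conj ((φ (s + a) + φ (s - a)) / 2) * h s) =
      fun s => (conj (φ (s - a)) * h s + conj (φ (s + a)) * h s) / 2 := by
    funext s; simp only [map_div₀, map_add, map_ofNat]; ring
  have e4 : (fun s => conj (φ s) * ((h (s + a) + h (s - a)) / 2)) =
      fun s => (conj (φ s) * h (s + a) + conj (φ s) * h (s - a)) / 2 := by
    funext s; ring
  rw [e3, e4, integral_div, integral_div, integral_add i3 i4, integral_add i1 i2, e1, e2]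

theorem eis_integrableOn (hφ : Continuous φ) (hR : ∀ s, R ≤ |s| → φ s = 0) {g : ℍ → ℂ}
    (hg : BC g) : IntegrableOn (fun τ : ℍ => conj (eis_W φ τ.im) * g τ) strip := by
  obtain ⟨B, hB⟩ := hg.bdd
  have hc : Continuous fun τ : ℍ => eis_W φ τ.im :=
    (eis_W_continuousOn hφ).comp_continuous continuous_im fun τ => τ.im_pos
  refine integrableOn_strip (b := fun y => ‖eis_W φ y‖ * B)
    ((continuous_conj.comp hc).mul hg.cont).measurable ?_ fun τ => ?_
  · have hsub : Set.Icc (Real.exp (-R)) (Real.exp R) ⊆ Set.Ioi 0 :=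
      fun y hy => (Real.exp_pos _).trans_le hy.1
    have h1 : IntegrableOn (fun y => ‖eis_W φ y‖ * B / y ^ 2)
        (Set.Icc (Real.exp (-R)) (Real.exp R)) := by
      refine ContinuousOn.integrableOn_Icc ?_
      refine ContinuousOn.div (((eis_W_continuousOn hφ).mono hsub).norm.mul continuousOn_const)
        (by fun_prop) fun y hy => pow_ne_zero 2 (ne_of_gt (hsub hy))
    refine h1.of_forall_sdiff_eq_zero measurableSet_Ioi fun y hy => ?_
    have : eis_W φ y = 0 := by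
      by_contra h0
      exact hy.2 (eis_W_ne hR hy.1 h0)
    simp [this]
  · rw [norm_mul, RCLike.norm_conj]
    exact mul_le_mul_of_nonneg_left (hB τ) (norm_nonneg _)

theorem eis_integral_strip (hφ : Continuous φ) (hR : ∀ s, R ≤ |s| → φ s = 0) {g : ℍ → ℂ}
    (hg : BC g) : ∫ τ in strip, conj (eis_W φ τ.im) * g τ = 2 * ∫ s, conj (φ s) * eis_hh g s := by
  rw [integral_strip (eis_integrableOn hφ hR hg), ← Real.range_exp, ← Set.image_univ,
    integral_image_eq_integral_abs_deriv_smul MeasurableSet.univ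
      (fun x _ => (Real.hasDerivAt_exp x).hasDerivWithinAt) Real.exp_injective.injOn,
    Measure.restrict_univ, ← integral_const_mul]
  refine integral_congr_ae (ae_of_all _ fun s => ?_)
  simp only [pt_im _ (Real.exp_pos s), eis_W_exp, eis_hh, eis_fc]
  rw [intervalIntegral.integral_const_mul, abs_of_pos (Real.exp_pos s), real_smul, map_mul,
    conj_ofReal]
  have h1 : Real.exp s = Real.exp (s / 2) ^ 2 := by rw [← Real.exp_nat_mul]; congr 1; ring
  have h2 : Real.exp (-s / 2) = (Real.exp (s / 2))⁻¹ := by rw [← Real.exp_neg]; congr 1; ring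
  have h3 : ((Real.exp (s / 2) : ℝ) : ℂ) ≠ 0 := ofReal_ne_zero.2 (Real.exp_pos _).ne'
  generalize (∫ x in (0 : ℝ)..2, g (pt x (Real.exp s))) = J
  rw [h2, h1]
  push_cast at h3 ⊢
  field_simp

theorem eis_hh_TT {p : ℕ} (hp : p.Prime) (h2 : p ≠ 2) {g : ℍ → ℂ} (hg : Continuous g)
    (per : ∀ τ, g (aff 1 2 τ) = g τ) (s : ℝ) : eis_hh (TT p g) s =
      p * (eis_hh g (s + 2 * Real.log p) + eis_hh g (s - 2 * Real.log p)) := by
  have hp0 : (0 : ℝ) < p := Nat.cast_pos.2 hp.pos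
  have e0 : Real.exp (2 * Real.log p) = (p : ℝ) ^ 2 := by
    rw [show 2 * Real.log p = Real.log p + Real.log p by ring, Real.exp_add, Real.exp_log hp0, sq]
  have e1 : Real.exp (s + 2 * Real.log p) = p ^ 2 * Real.exp s := by
    rw [Real.exp_add, e0, mul_comm]
  have e2 : Real.exp (s - 2 * Real.log p) = Real.exp s / p ^ 2 := by rw [Real.exp_sub, e0]
  have e3 : Real.exp (-(s + 2 * Real.log p) / 2) = Real.exp (-s / 2) / p := by
    rw [show -(s + 2 * Real.log p) / 2 = -s / 2 - Real.log p by ring, Real.exp_sub,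
      Real.exp_log hp0]
  have e4 : Real.exp (-(s - 2 * Real.log p) / 2) = Real.exp (-s / 2) * p := by
    rw [show -(s - 2 * Real.log p) / 2 = -s / 2 + Real.log p by ring, Real.exp_add,
      Real.exp_log hp0]
  have hp1 : (p : ℂ) ≠ 0 := Nat.cast_ne_zero.2 hp.pos.ne'
  simp only [eis_hh]
  rw [fc_TT hp h2 hg per 0 (Real.exp_pos s), e1, e2, e3, e4, jacobiSym.zero_left hp.one_lt]
  simp only [dvd_zero, if_true, Int.zero_ediv, mul_zero, Int.cast_zero, zero_mul, add_zero,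
    ofReal_div, ofReal_mul, ofReal_natCast]
  field_simp

end

end Pool.Agent.Lib.MP_e6abdd_an
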