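import Pool.Agent.Lib.MP_e6abdd_an.EisA

/-!
The constant term of incomplete Eisenstein series.
-/

namespace Pool.Agent.Lib.MP_e6abdd_an

open Complex hiding Gamma
open UpperHalfPlane hiding I
open MeasureTheory Filter Topology CongruenceSubgroup
open scoped Real MatrixGroups ComplexConjugate

noncomputable section

variable {j : ℤ} {φ ψ : ℝ → ℂ} {R : ℝ}

theorem eis_hasSum_congr {f g : ℤ → ℂ} {a b : ℂ} (h : HasSum f a) (h1 : ∀ i, g i = f i)
    (h2 : b = a) : HasSum g b := by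
  rw [h2, funext h1]; exact h

theorem eis_hasSum_two {Φ : ℝ → ℂ} (hΦ : Integrable Φ) (t : ℝ) :
    HasSum (fun k : ℤ => ∫ x in (0 : ℝ)..2, Φ (x + (2 * k + t))) (∫ x, Φ x) := by
  have h1 : Integrable fun x => Φ (2 * x + t) :=
    (hΦ.comp_add_right t).comp_mul_left' (two_ne_zero)
  have h2 := h1.hasSum_intervalIntegral_comp_add_int.mul_left 2
  have h3 : ∫ x, Φ (2 * x + t) = (∫ x, Φ x) / 2 := by
    rw [Measure.integral_comp_mul_left (fun x => Φ (x + t)) 2, integral_add_right_eq_self]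
    simp [abs_of_pos, div_eq_inv_mul]
  rw [h3] at h2
  refine eis_hasSum_congr h2 (fun k => ?_) ?_
  · have := intervalIntegral.smul_integral_comp_mul_add (a := 0) (b := 1)
      (fun x => Φ (x + (2 * k + t))) 2 0
    simp only [mul_zero, add_zero, mul_one, real_smul, ofReal_ofNat] at this
    rw [← this]
    congr 2
    funext x
    congr 1
    ring
  · ring

theorem eis_unfold_pos {n : ℕ} (hn : 0 < n) {a : ℤ → ℂ} (ha : Function.Periodic a (2 * n)) :
    ∃ A : ℂ, ∀ Φ : ℝ → ℂ, Integrable Φ →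
      Summable (fun d : ℤ => a d * ∫ x in (0 : ℝ)..2, Φ (x + d / n)) →
      ∑' d : ℤ, a d * ∫ x in (0 : ℝ)..2, Φ (x + d / n) = A * ∫ x, Φ x := by
  have : NeZero (2 * n) := ⟨by omega⟩
  refine ⟨∑ r : Fin (2 * n), a r, fun Φ hΦ hs => ?_⟩
  have hn' : (n : ℝ) ≠ 0 := Nat.cast_ne_zero.2 hn.ne'
  have h1 := (Int.divModEquiv (2 * n)).symm.summable_iff.2 hs
  rw [← (Int.divModEquiv (2 * n)).symm.tsum_eq]
  have h2 : ∀ p : ℤ × Fin (2 * n), a ((Int.divModEquiv (2 * n)).symm p) *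
      ∫ x in (0 : ℝ)..2, Φ (x + ((Int.divModEquiv (2 * n)).symm p : ℤ) / n) =
      a p.2 * ∫ x in (0 : ℝ)..2, Φ (x + (2 * p.1 + ((p.2 : ℕ) : ℝ) / n)) := by
    intro p
    have e : (Int.divModEquiv (2 * n)).symm p = (p.2 : ℕ) + p.1 * (2 * n) := by
      change p.1 * ((2 * n : ℕ) : ℤ) + _ = _
      push_cast
      ring
    rw [e]
    have := ha.int_mul p.1 ((p.2 : ℕ) : ℤ)
    simp only [Int.cast_id] at this
    rw [this]
    congr 2
    funext x
    congr 1
    push_cast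
    field_simp
    ring
  simp only [Function.comp_def, h2] at h1 ⊢
  rw [h1.tsum_prod]
  simp only [tsum_fintype]
  rw [Finset.sum_mul]
  exact (hasSum_sum fun r _ => (eis_hasSum_two hΦ _).mul_left (a (r : Fin (2 * n)))).tsum_eq

theorem eis_unfold {c : ℤ} (hc : c ≠ 0) {a : ℤ → ℂ} (ha : Function.Periodic a (2 * c)) :
    ∃ A : ℂ, ∀ Φ : ℝ → ℂ, Integrable Φ →
      Summable (fun d : ℤ => a d * ∫ x in (0 : ℝ)..2, Φ (x + d / c)) →
      ∑' d : ℤ, a d * ∫ x in (0 : ℝ)..2, Φ (x + d / c) = A * ∫ x, Φ x := by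
  obtain ⟨n, rfl | rfl⟩ := c.eq_nat_or_neg
  · simpa using eis_unfold_pos (n := n) (by omega) ha
  · have ha' : Function.Periodic (fun d => a (-d)) (2 * n) := fun d => by
      have := ha (-d)
      simp only
      rw [← this]
      congr 1
      ring
    obtain ⟨A, hA⟩ := eis_unfold_pos (n := n) (by omega) ha'
    refine ⟨A, fun Φ hΦ hs => ?_⟩
    have h1 := (Equiv.neg ℤ).summable_iff.2 hs
    rw [← (Equiv.neg ℤ).tsum_eq]
    simp only [Function.comp_def, Equiv.neg_apply, Int.cast_neg, Int.cast_natCast,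
      neg_div_neg_eq] at h1 ⊢
    exact hA Φ hΦ h1

theorem eis_continuous_ph (w : ℤ) {y : ℝ} (hy : 0 < y) :
    Continuous fun t : ℝ => ph w (t + y * I) := by
  have h : Continuous fun t : ℝ => arg (t + y * I) := by
    rw [continuous_iff_continuousAt]
    intro t
    refine ContinuousAt.comp (f := fun t : ℝ => (t : ℂ) + y * I) (continuousAt_arg ?_) (by fun_prop)
    right
    simpa using hy.ne'
  unfold ph
  fun_prop

/-- The unfolded term for the denominator `c`. -/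
def eis_Phi (w : ℤ) (ψ : ℝ → ℂ) (c : ℤ) (y t : ℝ) : ℂ :=
  conj (ph w (t + y * I)) * eis_W ψ (y / (c ^ 2 * (t ^ 2 + y ^ 2)))

def eis_K (w : ℤ) (ψ : ℝ → ℂ) (r : ℝ) : ℂ :=
  ∫ u : ℝ, conj (ph w (u + I)) * (((√(1 + u ^ 2))⁻¹ : ℝ) * ψ (r - Real.log (1 + u ^ 2)))

theorem eis_Phi_integrable (hψ : Continuous ψ) (hR : ∀ s, R ≤ |s| → ψ s = 0) (w : ℤ) {c : ℤ}
    (hc : c ≠ 0) {y : ℝ} (hy : 0 < y) : Integrable (eis_Phi w ψ c y) := by
  have hc0 : (1 : ℤ) ≤ c ^ 2 := by nlinarith [sq_abs c, Int.one_le_abs hc]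
  have hc1 : (1 : ℝ) ≤ (c : ℝ) ^ 2 := by exact_mod_cast hc0
  have hpos : ∀ t : ℝ, 0 < (c : ℝ) ^ 2 * (t ^ 2 + y ^ 2) := fun t => by positivity
  refine Continuous.integrable_of_hasCompactSupport ?_
    (eis_cs (R := y * Real.exp R + 1) fun t ht => ?_)
  · refine (continuous_conj.comp (eis_continuous_ph w hy)).mul ?_
    exact (eis_W_continuousOn hψ).comp_continuous
      (Continuous.div continuous_const (by fun_prop) fun t => (hpos t).ne')
      fun t => div_pos hy (hpos t)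
  · by_contra h0
    have h1 := (eis_W_ne hR (div_pos hy (hpos t)) (right_ne_zero_of_mul h0)).1
    rw [le_div_iff₀ (hpos t), Real.exp_neg, inv_mul_le_iff₀ (Real.exp_pos R)] at h1
    have h2 : 0 < y * Real.exp R := by positivity
    nlinarith [sq_abs t, sq_nonneg y, mul_le_mul_of_nonneg_right hc1
      (show 0 ≤ t ^ 2 + y ^ 2 by positivity)]

theorem eis_Phi_integral (w : ℤ) (ψ : ℝ → ℂ) {c : ℤ} (hc : c ≠ 0) (s : ℝ) :
    Real.exp (-s / 2) * ∫ t, eis_Phi w ψ c (Real.exp s) t =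
      (|(c : ℝ)|⁻¹ : ℝ) * eis_K w ψ (-s - Real.log (c ^ 2)) := by
  have hy := Real.exp_pos s
  have hc' : (c : ℝ) ≠ 0 := Int.cast_ne_zero.2 hc
  have h1 := Measure.integral_comp_mul_left (eis_Phi w ψ c (Real.exp s)) (Real.exp s)
  rw [abs_of_pos (inv_pos.2 hy), real_smul] at h1
  have h2 : ∫ t, eis_Phi w ψ c (Real.exp s) t =
      Real.exp s * ∫ u, eis_Phi w ψ c (Real.exp s) (Real.exp s * u) := by
    rw [h1, ← mul_assoc, ← ofReal_mul, mul_inv_cancel₀ hy.ne']; simp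
  rw [h2, eis_K, ← mul_assoc, ← integral_const_mul, ← integral_const_mul]
  refine integral_congr_ae (ae_of_all _ fun u => ?_)
  have hu : 0 < 1 + u ^ 2 := by positivity
  have e1 : ((Real.exp s * u : ℝ) : ℂ) + Real.exp s * I = Real.exp s * (u + I) := by
    push_cast; ring
  have e2 : Real.exp s / (c ^ 2 * ((Real.exp s * u) ^ 2 + Real.exp s ^ 2)) =
      Real.exp (-s - Real.log (c ^ 2) - Real.log (1 + u ^ 2)) := by
    rw [Real.exp_sub, Real.exp_sub, Real.exp_log hu, Real.exp_log (by positivity), Real.exp_neg]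
    field_simp
    ring
  have e3 : Real.exp (-s / 2) * Real.exp s *
      Real.exp ((-s - Real.log (c ^ 2) - Real.log (1 + u ^ 2)) / 2) =
      |(c : ℝ)|⁻¹ * (√(1 + u ^ 2))⁻¹ := by
    rw [← Real.exp_add, ← Real.exp_add, ← Real.sqrt_sq_eq_abs,
      ← Real.exp_log (show (0 : ℝ) < c ^ 2 by positivity), ← Real.exp_half, Real.log_exp]
    conv_rhs => rw [← Real.exp_log hu, ← Real.exp_half]
    rw [← Real.exp_neg, ← Real.exp_neg, ← Real.exp_add]
    congr 1
    ring
  have e4 := congrArg (fun x : ℝ => (x : ℂ)) e3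
  simp only [ofReal_mul] at e4
  simp only [eis_Phi]
  rw [e1, ph_pos_mul hy, e2, eis_W_exp]
  linear_combination (conj (ph w (u + I)) *
    ψ (-s - Real.log (c ^ 2) - Real.log (1 + u ^ 2))) * e4

/-- The terms extended by zero to all pairs. -/
def eis_ind (j : ℤ) (ψ : ℝ → ℂ) (v : ℤ × ℤ) (τ : ℍ) : ℂ :=
  (rows (Gamma 2)).indicator (fun v => eis_tm j ψ v τ) v

theorem eis_ind_of_mem {v : ℤ × ℤ} (h : v ∈ rows (Gamma 2)) :
    eis_ind j ψ v = eis_tm j ψ v := funext fun _ => Set.indicator_of_mem h _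

theorem eis_ind_of_not {v : ℤ × ℤ} (h : v ∉ rows (Gamma 2)) :
    eis_ind j ψ v = fun _ => 0 := funext fun _ => Set.indicator_of_notMem h _

theorem eis_ind_continuous (hψ : Continuous ψ) (v : ℤ × ℤ) : Continuous (eis_ind j ψ v) := by
  by_cases h : v ∈ rows (Gamma 2)
  · rw [eis_ind_of_mem h]; exact eis_tm_continuous hψ ⟨v, h⟩
  · rw [eis_ind_of_not h]; exact continuous_const

theorem eis_hasSum_int (hψ : Continuous ψ) (hR : ∀ s, R ≤ |s| → ψ s = 0) {y : ℝ} (hy : 0 < y) :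
    HasSum (fun v : ℤ × ℤ => ∫ x in (0 : ℝ)..2, eis_ind j ψ v (pt x y))
      (∫ x in (0 : ℝ)..2, eis_sum j ψ (pt x y)) := by
  have hf := (locallyFinite_hgt (Real.exp_pos (-R))).finite_nonempty_inter_compact
    ((isCompact_Icc (a := (0 : ℝ)) (b := 2)).image (continuous_pt hy))
  have h0 : ∀ v ∉ hf.toFinset, ∀ x ∈ Set.uIcc (0 : ℝ) 2, eis_ind j ψ v (pt x y) = 0 := by
    intro v hv x hx
    rw [Set.uIcc_of_le zero_le_two] at hx
    by_cases h : v ∈ rows (Gamma 2)
    · rw [eis_ind_of_mem h]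
      by_contra h1
      exact hv (hf.mem_toFinset.2
        ⟨pt x y, ⟨(mem_rows2.1 h).1, eis_tm_ne hR ⟨v, h⟩ _ h1⟩, x, hx, rfl⟩)
    · rw [eis_ind_of_not h]
  have h1 : ∫ x in (0 : ℝ)..2, eis_sum j ψ (pt x y) =
      ∑ v ∈ hf.toFinset, ∫ x in (0 : ℝ)..2, eis_ind j ψ v (pt x y) := by
    rw [← intervalIntegral.integral_finsetSum (f := fun v x => eis_ind j ψ v (pt x y)) fun v _ =>
      ((eis_ind_continuous hψ v).comp (continuous_pt hy)).intervalIntegrable _ _]
    refine intervalIntegral.integral_congr fun x hx => ?_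
    simp only [eis_sum]
    rw [tsum_subtype (rows (Gamma 2)) fun v => eis_tm j ψ v (pt x y)]
    exact tsum_eq_sum fun v hv => h0 v hv x hx
  rw [h1]
  refine hasSum_sum_of_ne_finset_zero fun v hv => ?_
  rw [intervalIntegral.integral_congr (g := fun _ => 0) fun x hx => h0 v hv x hx]
  simp

theorem eis_ind_zero (ψ : ℝ → ℂ) (d : ℤ) (τ : ℍ) :
    eis_ind j ψ (0, d) τ = if d ∈ ({1, -1} : Finset ℤ) then eis_W ψ τ.im else 0 := by
  have h1 : JJ j 0 (-1) τ = 1 := by
    have := JJ_neg j Even.zero 1 τ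
    rwa [neg_zero, JJ_zero_one] at this
  split_ifs with h
  · rw [Finset.mem_insert, Finset.mem_singleton] at h
    rcases h with rfl | rfl
    · rw [eis_ind_of_mem (mem_rows2.2 ⟨isCoprime_one_right, Even.zero⟩)]
      simp [eis_tm, JJ_zero_one, hgt]
    · rw [eis_ind_of_mem (mem_rows2.2 ⟨isCoprime_one_right.neg_right, Even.zero⟩)]
      simp [eis_tm, h1, hgt]
  · rw [eis_ind_of_not]
    intro h2
    have h3 := (mem_rows2.1 h2).1
    rw [isCoprime_zero_left, Int.isUnit_iff] at h3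
    exact h (by simpa using h3)

theorem eis_ind_ne (j : ℤ) {c : ℤ} (hc : c ≠ 0) : ∃ a : ℤ → ℂ, Function.Periodic a (2 * c) ∧
    ∀ (ψ : ℝ → ℂ) (d : ℤ) (x y : ℝ), 0 < y →
      eis_ind j ψ (c, d) (pt x y) = a d * eis_Phi (4 * j + 1) ψ c y (x + d / c) := by
  classical
  obtain ⟨s, hs, hs'⟩ := JJ_const j
  refine ⟨fun d => if (c, d) ∈ rows (Gamma 2) then conj (s c d) else 0, fun d => ?_,
    fun ψ d x y hy => ?_⟩
  · have h : (c, d + 2 * c) ∈ rows (Gamma 2) ↔ (c, d) ∈ rows (Gamma 2) := by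
      simp only [mem_rows2, IsCoprime.add_mul_right_right_iff]
    simp only [h]
    split_ifs with h1
    · obtain ⟨h2, h3⟩ := mem_rows2.1 h1
      rw [hs' c d hc h3 (eis_odd h2 h3)]
    · rfl
  · simp only
    split_ifs with h1
    · obtain ⟨h2, h3⟩ := mem_rows2.1 h1
      have hd : d ≠ 0 := by
        rintro rfl
        exact absurd (eis_odd (d := 0) h2 h3) (by decide)
      have hc' : (c : ℝ) ≠ 0 := Int.cast_ne_zero.2 hc
      have e1 : (pt x y : ℂ) + d / c = ((x + d / c : ℝ) : ℂ) + y * I := by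
        rw [coe_pt x hy]; push_cast; ring
      have e2 : hgt c d (pt x y) = y / (c ^ 2 * ((x + d / c) ^ 2 + y ^ 2)) := by
        rw [hgt, pt_im x hy, coe_pt x hy, normSq_apply]
        congr 1
        simp
        field_simp
      rw [eis_ind_of_mem h1]
      simp only [eis_tm, eis_Phi]
      rw [hs c d hc hd, e1, e2, map_mul, mul_assoc]
    · rw [eis_ind_of_not h1, zero_mul]

/-- The constant term. -/
theorem eis_const (j : ℤ) : ∃ A : ℤ → ℂ, ∀ (ψ : ℝ → ℂ) (R : ℝ), Continuous ψ →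
    (∀ s, R ≤ |s| → ψ s = 0) → ∀ s : ℝ, HasSum (fun c : ℤ => if c = 0 then 2 * ψ s else
      A c * eis_K (4 * j + 1) ψ (-s - Real.log (c ^ 2))) (eis_hh (eis_sum j ψ) s) := by
  have key : ∀ c : ℤ, ∃ A : ℂ, c ≠ 0 → ∀ (ψ : ℝ → ℂ) (R : ℝ), Continuous ψ →
      (∀ s, R ≤ |s| → ψ s = 0) → ∀ y : ℝ, 0 < y →
      ∑' d : ℤ, ∫ x in (0 : ℝ)..2, eis_ind j ψ (c, d) (pt x y) =
        A * ∫ t, eis_Phi (4 * j + 1) ψ c y t := by
    intro c
    by_cases hc : c = 0
    · exact ⟨0, fun h => absurd hc h⟩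
    obtain ⟨a, ha, ha'⟩ := eis_ind_ne j hc
    obtain ⟨A, hA⟩ := eis_unfold hc ha
    refine ⟨A, fun _ ψ R hψ hR y hy => ?_⟩
    have h1 := (eis_hasSum_int (j := j) hψ hR hy).summable.prod_factor c
    simp only [ha' ψ _ _ y hy, intervalIntegral.integral_const_mul] at h1 ⊢
    exact hA _ (eis_Phi_integrable hψ hR _ hc hy) h1
  choose A hA using key
  refine ⟨fun c => A c * (|(c : ℝ)|⁻¹ : ℝ) / 2, fun ψ R hψ hR s => ?_⟩
  have hy := Real.exp_pos s
  have h1 := eis_hasSum_int (j := j) hψ hR hy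
  have h2 := (h1.prod_fiberwise fun c => (h1.summable.prod_factor c).hasSum).mul_left
    (Real.exp (-s / 2) / 2 : ℂ)
  refine eis_hasSum_congr h2 (fun c => ?_) ?_
  · split_ifs with hc
    · subst hc
      rw [tsum_eq_sum (s := {1, -1}) fun d hd => by
        simp only [eis_ind_zero, if_neg hd, intervalIntegral.integral_zero]]
      have e : (Real.exp (-s / 2) : ℂ) * Real.exp (s / 2) = 1 := by
        rw [← ofReal_mul, ← Real.exp_add]; simp [neg_div]
      rw [Finset.sum_pair (by decide)]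
      simp only [eis_ind_zero, pt_im _ hy, eis_W_exp, Finset.mem_insert, Finset.mem_singleton,
        true_or, or_true, if_true, intervalIntegral.integral_const, real_smul]
      push_cast at e ⊢
      linear_combination (-2 * ψ s) * e
    · rw [hA c hc ψ R hψ hR _ hy]
      linear_combination (-A c / 2) * eis_Phi_integral (4 * j + 1) ψ hc s
  · rw [eis_hh, eis_fc]; ring

theorem eis_hh_shift (hψ : Continuous ψ) (hR : ∀ s, R ≤ |s| → ψ s = 0) (a s : ℝ) :
    eis_hh (eis_sum j fun t => ψ (t + a)) s + eis_hh (eis_sum j fun t => ψ (t - a)) s =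
      eis_hh (eis_sum j ψ) (s + a) + eis_hh (eis_sum j ψ) (s - a) := by
  obtain ⟨A, hA⟩ := eis_const j
  have h1 := hA (fun t => ψ (t + a)) (R + |a|) (by fun_prop) (fun t ht => hR _ (by
    have := abs_sub (t + a) a
    rw [add_sub_cancel_right] at this
    linarith)) s
  have h2 := hA (fun t => ψ (t - a)) (R + |a|) (by fun_prop) (fun t ht => hR _ (by
    have := abs_add_le (t - a) a
    rw [sub_add_cancel] at this
    linarith)) s
  refine (h1.add h2).unique ?_
  convert (hA ψ R hψ hR (s + a)).add (hA ψ R hψ hR (s - a)) using 1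
  funext c
  split_ifs
  · rfl
  · rw [add_comm]
    simp only [eis_K]
    congr 3 <;> funext u <;> congr 3 <;> ring

end

end Pool.Agent.Lib.MP_e6abdd_an
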