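import Pool.Agent.Lib.MP_e6abdd_an.ExistB

/-!
Existence of the interpolation basis.
-/

namespace Pool.Agent.Lib.MP_e6abdd_an

open Complex hiding Gamma
open UpperHalfPlane hiding I
open MeasureTheory Filter Topology CongruenceSubgroup
open scoped Real MatrixGroups ComplexConjugate FourierTransform

theorem exist_complex (n : ℕ) : ∃ b : SchwartzMap ℝ ℂ, (∀ x, b (-x) = b x) ∧
    SchwartzMap.fourierTransformCLM ℂ b = b ∧ ∀ m : ℕ, b (√m : ℝ) = if n = m then 1 else 0 := by
  induction n using Nat.strong_induction_on with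
  | _ n ih =>
    choose b h1 h2 h3 using ih
    obtain ⟨β, g1, g2, g3, g4⟩ := exist_triangular n
    have g5 : SchwartzMap.fourierTransformCLM ℂ β = β := SchwartzMap.ext g2
    have key : ∀ x, (β - ∑ i : Fin n, β (√(i : ℕ) : ℝ) • b i i.2) x =
        β x - ∑ i : Fin n, β (√(i : ℕ) : ℝ) * b i i.2 x := fun x => by
      simp
    refine ⟨β - ∑ i : Fin n, β (√(i : ℕ) : ℝ) • b i i.2, fun x => ?_, ?_, fun m => ?_⟩
    · simp only [key, g1, h1]
    · simp only [map_sub, map_sum, map_smul, g5, h2]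
    · simp only [key, h3, mul_ite, mul_one, mul_zero]
      rcases lt_trichotomy m n with h | rfl | h
      · rw [if_neg h.ne', Finset.sum_eq_single ⟨m, h⟩ (fun i _ hi => if_neg fun e => hi (Fin.ext e))
          (by simp), if_pos rfl, sub_self]
      · rw [if_pos rfl, g3, Finset.sum_eq_zero fun i _ => if_neg i.2.ne, sub_zero]
      · rw [if_neg h.ne, g4 m h, Finset.sum_eq_zero fun i _ => if_neg (i.2.trans h).ne, sub_zero]

theorem exists_basis : ∃ b : ℕ → SchwartzMap ℝ ℝ, (∀ n x, b n (-x) = b n x) ∧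
    (∀ n ξ, 𝓕 (fun x => (b n x : ℂ)) ξ = b n ξ) ∧
    ∀ n m : ℕ, b n √m = if n = m then 1 else 0 := by
  choose β h1 h2 h3 using exist_complex
  refine ⟨fun n => SchwartzMap.postcompCLM reCLM (β n), fun n x => ?_, fun n ξ => ?_,
    fun n m => ?_⟩
  · simp only [SchwartzMap.postcompCLM_apply, h1]
  · have g1 : ∀ ξ, 𝓕 (fun x => β n x) ξ = β n ξ := fun ξ => congrArg (fun f => f ξ) (h2 n)
    set γ : SchwartzMap ℝ ℂ := SchwartzMap.postcompCLM conjCLE.toContinuousLinearMap (β n) with hγ
    have g2 : ∀ x, γ x = conj (β n x) := fun x => rfl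
    have g3 : 𝓕 (fun x => γ x) ξ = conj (β n ξ) := by
      rw [← h1, ← g1, Real.fourier_real_eq_integral_exp_smul,
        Real.fourier_real_eq_integral_exp_smul, ← integral_conj]
      refine integral_congr_ae (Eventually.of_forall fun x => ?_)
      simp only [g2, smul_eq_mul, map_mul, ← exp_conj, conj_ofReal, conj_I]
      congr 2
      push_cast
      ring
    have g4 : (fun x => ((SchwartzMap.postcompCLM reCLM (β n) x : ℝ) : ℂ)) =
        fun x => ((1 / 2 : ℂ) • (β n + γ)) x := by
      funext x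
      change (((β n x).re : ℝ) : ℂ) = 1 / 2 * (β n x + conj (β n x))
      rw [add_conj]
      push_cast
      ring
    have g5 : 𝓕 (fun x => ((1 / 2 : ℂ) • (β n + γ)) x) ξ =
        (1 / 2 : ℂ) * (𝓕 (fun x => β n x) ξ + 𝓕 (fun x => γ x) ξ) := by
      change SchwartzMap.fourierTransformCLM ℂ ((1 / 2 : ℂ) • (β n + γ)) ξ = _
      rw [map_smul, map_add]
      rfl
    rw [g4, g5, g1, g3, add_conj]
    simp only [SchwartzMap.postcompCLM_apply, reCLM_apply]
    push_cast
    ring
  · simp only [SchwartzMap.postcompCLM_apply, reCLM_apply, h3]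
    split_ifs <;> simp

end Pool.Agent.Lib.MP_e6abdd_an
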