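import Pool.Agent.Lib.MP_e6abdd_an.Defs

/-!
Superpositions of Gaussians are Schwartz functions.
-/

namespace Pool.Agent.Lib.MP_e6abdd_an

open Complex hiding Gamma
open UpperHalfPlane hiding I
open MeasureTheory Filter Topology CongruenceSubgroup
open scoped Real MatrixGroups ComplexConjugate FourierTransform

theorem existA_family (V : Set (ℝ → ℂ)) (hd : ∀ f ∈ V, Differentiable ℝ f ∧ deriv f ∈ V)
    (hm : ∀ f ∈ V, (fun x : ℝ => x * f x) ∈ V) (hb : ∀ f ∈ V, ∃ C, ∀ x, ‖f x‖ ≤ C)
    {f : ℝ → ℂ} (hf : f ∈ V) : ∃ β : SchwartzMap ℝ ℂ, ∀ x, β x = f x := by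
  have h1 : ∀ n, iteratedDeriv n f ∈ V := by
    intro n
    induction n with
    | zero => simpa using hf
    | succ n ih => rw [iteratedDeriv_succ]; exact (hd _ ih).2
  have h2 : ∀ g ∈ V, ∀ k : ℕ, (fun x : ℝ => (x : ℂ) ^ k * g x) ∈ V := by
    intro g hg k
    induction k with
    | zero => simpa using hg
    | succ k ih =>
      convert hm _ ih using 2 with x
      ring
  refine ⟨⟨f, contDiff_of_differentiable_iteratedDeriv fun m _ => (hd _ (h1 m)).1,
    fun k n => ?_⟩, fun x => rfl⟩
  obtain ⟨C, hC⟩ := hb _ (h2 _ (h1 n) k)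
  refine ⟨C, fun x => ?_⟩
  have := hC x
  rwa [norm_mul, norm_pow, norm_real, ← norm_iteratedFDeriv_eq_norm_iteratedDeriv] at this

theorem existA_bound {v : ℝ} (h0 : 0 < v) (h1 : v ≤ 1) (b : ℕ) (x : ℝ) :
    |x| ^ b * Real.exp (-(π * v) * x ^ 2) ≤ (1 + b.factorial) / v ^ b := by
  have hy : 0 ≤ π * v * x ^ 2 := by positivity
  have g1 : |x| ^ b ≤ 1 + (x ^ 2) ^ b := by
    rcases le_total |x| 1 with h | h
    · exact (pow_le_one₀ (abs_nonneg x) h).trans (le_add_of_nonneg_right (by positivity))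
    · rw [← sq_abs]
      exact (pow_le_pow_left₀ (abs_nonneg x) (by nlinarith) b).trans
        (le_add_of_nonneg_left zero_le_one)
  have g2 : (x ^ 2 * v) ^ b ≤ b.factorial * Real.exp (π * v * x ^ 2) := by
    have := Real.pow_div_factorial_le_exp _ hy b
    rw [div_le_iff₀' (by positivity)] at this
    refine (pow_le_pow_left₀ (by positivity) ?_ b).trans this
    have : 0 ≤ v * x ^ 2 := by positivity
    nlinarith [Real.pi_gt_three]
  have g3 : v ^ b ≤ Real.exp (π * v * x ^ 2) :=
    (pow_le_one₀ h0.le h1).trans (Real.one_le_exp hy)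
  rw [neg_mul, Real.exp_neg, ← div_eq_mul_inv, div_le_div_iff₀ (Real.exp_pos _) (by positivity)]
  rw [mul_pow] at g2
  have g4 := mul_le_mul_of_nonneg_right g1 (pow_pos h0 b).le
  nlinarith

theorem existA_norm_gs (x : ℝ) (τ : ℍ) : ‖gs (x ^ 2) τ‖ = Real.exp (-(π * τ.im) * x ^ 2) := by
  rw [gs, norm_exp]
  congr 1
  generalize x ^ 2 = X
  simp
  ring

/-- The integrand. -/
noncomputable def existF (z : ℝ → ℍ) (h : ℝ → ℂ) (a b : ℕ) (x s : ℝ) : ℂ :=
  h s * (z s : ℂ) ^ a * (x : ℂ) ^ b * gs (x ^ 2) (z s)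

theorem existA_hasDerivAt (z : ℝ → ℍ) (h : ℝ → ℂ) (a b : ℕ) (x s : ℝ) :
    HasDerivAt (fun x => existF z h a b x s)
      (b * existF z h a (b - 1) x s + 2 * π * I * existF z h (a + 1) (b + 1) x s) x := by
  have h1 : HasDerivAt (fun w : ℂ => h s * (z s : ℂ) ^ a * w ^ b * cexp (π * I * w ^ 2 * z s))
      (h s * (z s : ℂ) ^ a * (b * (x : ℂ) ^ (b - 1)) * cexp (π * I * (x : ℂ) ^ 2 * z s) +
        h s * (z s : ℂ) ^ a * (x : ℂ) ^ b * (cexp (π * I * (x : ℂ) ^ 2 * z s) *
          (π * I * ((2 : ℕ) * (x : ℂ) ^ (2 - 1)) * z s))) x :=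
    ((hasDerivAt_pow b (x : ℂ)).const_mul _).mul
      (((hasDerivAt_pow 2 (x : ℂ)).const_mul _).mul_const _).cexp
  convert h1.comp_ofReal using 1
  · funext y; simp only [existF, gs, ofReal_pow]
  · simp only [existF, gs, ofReal_pow]; push_cast; ring

/-- Superpositions of Gaussians with rapidly decreasing weight are Schwartz functions. -/
theorem exist_schwartz {z : ℝ → ℍ} (hz : Continuous z) (hz1 : ∀ s, ‖(z s : ℂ)‖ ≤ 1) {h : ℝ → ℂ}
    (hh : Continuous h) (hint : ∀ k : ℕ, Integrable fun s => ‖h s‖ / (z s).im ^ k) :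
    ∃ β : SchwartzMap ℝ ℂ, (∀ x : ℝ, β x = ∫ s, h s * gs (x ^ 2) (z s)) ∧
      ∀ ξ : ℝ, 𝓕 (fun x => β x) ξ = ∫ s, h s * sl (gs (ξ ^ 2)) (z s) := by
  have hzc : Continuous fun s => (z s : ℂ) := UpperHalfPlane.continuous_coe.comp hz
  have hv : ∀ s, (z s).im ≤ 1 := fun s =>
    (le_abs_self _).trans ((abs_im_le_norm (z s : ℂ)).trans (hz1 s))
  have hcont : ∀ a b x, Continuous (existF z h a b x) := by
    intro a b x
    unfold existF gs
    fun_prop
  have hle : ∀ a b x s, ‖existF z h a b x s‖ ≤ (1 + b.factorial) * (‖h s‖ / (z s).im ^ b) := by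
    intro a b x s
    rw [existF, norm_mul, norm_mul, norm_mul, norm_pow, norm_pow, norm_real, Real.norm_eq_abs,
      existA_norm_gs, mul_assoc, ← mul_div_assoc, mul_comm _ ‖h s‖, mul_div_assoc]
    refine mul_le_mul (mul_le_of_le_one_right (norm_nonneg _)
      (pow_le_one₀ (norm_nonneg _) (hz1 s))) (existA_bound (z s).im_pos (hv s) b x)
      (by positivity) (norm_nonneg _)
  have hI : ∀ a b x, Integrable (existF z h a b x) := fun a b x =>
    ((hint b).const_mul _).mono' (hcont a b x).aestronglyMeasurable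
      (Eventually.of_forall (hle a b x))
  set B : ℕ × ℕ → ℝ → ℂ := fun p x => ∫ s, existF z h p.1 p.2 x s with hB
  have hder : ∀ a b x, HasDerivAt (B (a, b))
      (b * B (a, b - 1) x + 2 * π * I * B (a + 1, b + 1) x) x := by
    intro a b x
    have := (hasDerivAt_integral_of_dominated_loc_of_deriv_le (μ := volume) (x₀ := x)
      (F := fun x s => existF z h a b x s) univ_mem
      (Eventually.of_forall fun x => (hcont a b x).aestronglyMeasurable) (hI a b x)
      (F' := fun x s => b * existF z h a (b - 1) x s + 2 * π * I * existF z h (a + 1) (b + 1) x s)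
      (((hI a (b - 1) x).const_mul _).add ((hI (a + 1) (b + 1) x).const_mul _)).1
      (bound := fun s => ‖(b : ℂ)‖ * ((1 + (b - 1).factorial) * (‖h s‖ / (z s).im ^ (b - 1))) +
        ‖2 * π * I‖ * ((1 + (b + 1).factorial) * (‖h s‖ / (z s).im ^ (b + 1))))
      (Eventually.of_forall fun s y _ => (norm_add_le _ _).trans (by
        rw [norm_mul, norm_mul (2 * π * I)]
        exact add_le_add (mul_le_mul_of_nonneg_left (hle _ _ _ _) (norm_nonneg _))
          (mul_le_mul_of_nonneg_left (hle _ _ _ _) (norm_nonneg _))))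
      ((((hint _).const_mul _).const_mul _).add (((hint _).const_mul _).const_mul _))
      (Eventually.of_forall fun s y _ => existA_hasDerivAt z h a b y s)).2
    rwa [integral_add ((hI _ _ x).const_mul _) ((hI _ _ x).const_mul _), integral_const_mul,
      integral_const_mul] at this
  have hmem : ∀ p, B p ∈ Submodule.span ℂ (Set.range B) := fun p =>
    Submodule.subset_span ⟨p, rfl⟩
  have v1 : ∀ f ∈ Submodule.span ℂ (Set.range B),
      Differentiable ℝ f ∧ deriv f ∈ Submodule.span ℂ (Set.range B) := by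
    intro f hf
    induction hf using Submodule.span_induction with
    | mem f hf =>
      obtain ⟨⟨a, b⟩, rfl⟩ := hf
      refine ⟨fun x => (hder a b x).differentiableAt, ?_⟩
      have : deriv (B (a, b)) = (b : ℂ) • B (a, b - 1) + (2 * π * I) • B (a + 1, b + 1) :=
        funext fun x => (hder a b x).deriv
      rw [this]
      exact add_mem (Submodule.smul_mem _ _ (hmem _)) (Submodule.smul_mem _ _ (hmem _))
    | zero => exact ⟨differentiable_const _, by rw [deriv_zero]; exact zero_mem _⟩
    | add f g _ _ hf hg =>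
      refine ⟨hf.1.add hg.1, ?_⟩
      have : deriv (f + g) = deriv f + deriv g := funext fun x => deriv_add (hf.1 x) (hg.1 x)
      rw [this]
      exact add_mem hf.2 hg.2
    | smul c f _ hf =>
      refine ⟨hf.1.const_smul c, ?_⟩
      have : deriv (c • f) = c • deriv f := funext fun x => deriv_const_smul c (hf.1 x)
      rw [this]
      exact Submodule.smul_mem _ _ hf.2
  have v2 : ∀ f ∈ Submodule.span ℂ (Set.range B),
      (fun x : ℝ => x * f x) ∈ Submodule.span ℂ (Set.range B) := by
    intro f hf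
    induction hf using Submodule.span_induction with
    | mem f hf =>
      obtain ⟨⟨a, b⟩, rfl⟩ := hf
      convert hmem (a, b + 1) using 1
      funext x
      simp only [hB, ← integral_const_mul, existF]
      congr 1
      funext s
      ring
    | zero =>
      simp only [Pi.zero_apply, mul_zero]
      exact zero_mem (Submodule.span ℂ (Set.range B))
    | add f g _ _ hf hg =>
      convert add_mem hf hg using 1
      funext x
      simp [mul_add]
    | smul c f _ hf =>
      convert Submodule.smul_mem _ c hf using 1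
      funext x
      simp only [Pi.smul_apply, smul_eq_mul]
      ring
  have v3 : ∀ f ∈ Submodule.span ℂ (Set.range B), ∃ C, ∀ x, ‖f x‖ ≤ C := by
    intro f hf
    induction hf using Submodule.span_induction with
    | mem f hf =>
      obtain ⟨⟨a, b⟩, rfl⟩ := hf
      exact ⟨_, fun x => norm_integral_le_of_norm_le ((hint b).const_mul _)
        (Eventually.of_forall (hle a b x))⟩
    | zero => exact ⟨0, by simp⟩
    | add f g _ _ hf hg =>
      obtain ⟨C, hC⟩ := hf
      obtain ⟨C', hC'⟩ := hg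
      exact ⟨C + C', fun x => (norm_add_le _ _).trans (add_le_add (hC x) (hC' x))⟩
    | smul c f _ hf =>
      obtain ⟨C, hC⟩ := hf
      exact ⟨‖c‖ * C, fun x => by
        rw [Pi.smul_apply, norm_smul]; exact mul_le_mul_of_nonneg_left (hC x) (norm_nonneg _)⟩
  obtain ⟨β, hβ⟩ := existA_family (Submodule.span ℂ (Set.range B)) v1 v2 v3 (hmem (0, 0))
  have hβ' : ∀ x : ℝ, β x = ∫ s, h s * gs (x ^ 2) (z s) := fun x => by
    simp [hβ, hB, existF]
  refine ⟨β, hβ', fun ξ => ?_⟩
  have hn : ∀ x s : ℝ, ‖cexp (↑(-2 * π * x * ξ) * I) * (h s * gs (x ^ 2) (z s))‖ =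
      ‖h s‖ * Real.exp (-(π * (z s).im) * x ^ 2) := fun x s => by
    rw [norm_mul, norm_exp_ofReal_mul_I, one_mul, norm_mul, existA_norm_gs]
  have hc2 : Continuous fun p : ℝ × ℝ =>
      cexp (↑(-2 * π * p.1 * ξ) * I) * (h p.2 * gs (p.1 ^ 2) (z p.2)) := by
    unfold gs
    fun_prop
  have hprod : Integrable (Function.uncurry fun x s : ℝ =>
      cexp (↑(-2 * π * x * ξ) * I) * (h s * gs (x ^ 2) (z s))) (volume.prod volume) := by
    refine (integrable_prod_iff' hc2.aestronglyMeasurable).2
      ⟨Eventually.of_forall fun s => ?_, ?_⟩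
    · refine ((integrable_exp_neg_mul_sq (mul_pos Real.pi_pos (z s).im_pos)).const_mul
        ‖h s‖).mono' (hc2.comp (Continuous.prodMk_left s)).aestronglyMeasurable
        (Eventually.of_forall fun x => (hn x s).le)
    · refine (hint 1).mono' (hc2.aestronglyMeasurable.prod_swap.norm.integral_prod_right')
        (Eventually.of_forall fun s => ?_)
      simp only [hn]
      rw [integral_const_mul, integral_gaussian, Real.norm_of_nonneg (by positivity), pow_one,
        div_eq_mul_inv ‖h s‖]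
      refine mul_le_mul_of_nonneg_left (Real.sqrt_le_iff.2 ⟨(inv_pos.2 (z s).im_pos).le, ?_⟩)
        (norm_nonneg _)
      have h1 : 1 ≤ (z s).im⁻¹ := (one_le_inv₀ (z s).im_pos).2 (hv s)
      have h2 : π / (π * (z s).im) = (z s).im⁻¹ := by field_simp
      rw [h2]
      nlinarith
  rw [Real.fourier_real_eq_integral_exp_smul]
  simp only [hβ', smul_eq_mul, ← integral_const_mul]
  rw [integral_integral_swap hprod]
  refine integral_congr_ae (Eventually.of_forall fun s => ?_)
  have hb : 0 < (-I * z s).re := by simpa using (z s).im_pos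
  have h1 := congrFun (fourier_gaussian_pi hb) ξ
  rw [Real.fourier_real_eq_integral_exp_smul] at h1
  have h2 : sl (gs (ξ ^ 2)) (z s) =
      1 / (-I * z s) ^ (1 / 2 : ℂ) * cexp (-π / (-I * z s) * ξ ^ 2) := by
    rw [sl, gs, modular_S_smul, neg_div, cpow_neg, one_div (_ ^ _)]
    congr 2
    have := (z s).ne_zero
    simp only [ofReal_pow]
    field_simp
    simp
  dsimp only
  rw [h2, ← h1, ← integral_const_mul]
  refine integral_congr_ae (Eventually.of_forall fun x => ?_)
  simp only [gs, smul_eq_mul, ofReal_pow]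
  rw [show -(π : ℂ) * (-I * z s) * (x : ℂ) ^ 2 = π * I * (x : ℂ) ^ 2 * z s by ring]
  ring

end Pool.Agent.Lib.MP_e6abdd_an
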