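import Pool.Agent.Lib.MP_e6abdd_an.KnoppA

/-!
Three Eisenstein series of weight four, the theta function, and the cusp `1`.
-/

namespace Pool.Agent.Lib.MP_e6abdd_an

open Complex hiding Gamma
open UpperHalfPlane hiding I
open MeasureTheory Filter Topology CongruenceSubgroup Asymptotics
open scoped Real MatrixGroups ComplexConjugate Manifold ModularForm

open ModularGroup (S T)

noncomputable section

open Classical in
/-- The indicator of the coprime rows for which `l` is odd. -/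
def knI (l : ℤ × ℤ → ℤ) (v : ℤ × ℤ) : ℂ := if IsCoprime v.1 v.2 ∧ Odd (l v) then 1 else 0

theorem knI_congr {l l' : ℤ × ℤ → ℤ} {v v' : ℤ × ℤ}
    (h : IsCoprime v.1 v.2 ↔ IsCoprime v'.1 v'.2) (h' : Odd (l v) ↔ Odd (l' v')) :
    knI l v = knI l' v' := by
  simp only [knI, h, h']

theorem kn_cop_T (c d : ℤ) : IsCoprime c (d - c) ↔ IsCoprime c d := by
  rw [show d - c = d + (-1) * c by ring, IsCoprime.add_mul_right_right_iff]

theorem kn_cop_S (c d : ℤ) : IsCoprime (-d) c ↔ IsCoprime c d := by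
  rw [IsCoprime.neg_left_iff, isCoprime_comm]

theorem knSz_ge {v : ℤ × ℤ} (h : IsCoprime v.1 v.2) : 1 ≤ knSz v := by
  have h1 : 1 ≤ |v.1| + |v.2| := by
    by_contra h2
    have a1 := abs_nonneg v.1
    have a2 := abs_nonneg v.2
    rw [abs_eq_zero.1 (by omega : |v.1| = 0), abs_eq_zero.1 (by omega : |v.2| = 0)] at h
    exact not_isCoprime_zero_zero h
  rw [knSz]
  exact_mod_cast h1

theorem kn_adm {l : ℤ × ℤ → ℤ} {u : ℤ × ℤ → ℍ → ℂ}
    (h1 : ∀ v, IsCoprime v.1 v.2 → KnHol (u v))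
    (h2 : ∀ δ > 0, ∃ C, 0 ≤ C ∧ ∀ v, IsCoprime v.1 v.2 → Odd (l v) → ∀ τ : ℍ, δ ≤ τ.im →
      ‖u v τ‖ ≤ C * knSz v) : KnAdm fun v τ => knI l v * u v τ := by
  refine ⟨fun v => ?_, fun δ hδ => ?_⟩
  · by_cases h : IsCoprime v.1 v.2 ∧ Odd (l v)
    · exact ((KnHol.const _).mul (h1 v h.1)).mul (kn_holE h.1)
    · simp only [knI, if_neg h, zero_mul]
      exact KnHol.const 0
  · obtain ⟨C, hC, h⟩ := h2 δ hδ
    refine ⟨C, fun v τ hτ => ?_⟩
    by_cases h' : IsCoprime v.1 v.2 ∧ Odd (l v)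
    · simpa only [knI, if_pos h', one_mul] using h v h'.1 h'.2 τ hτ
    · simp only [knI, if_neg h', zero_mul, norm_zero]
      exact mul_nonneg hC (knSz_nonneg v)

theorem kn_admI (l : ℤ × ℤ → ℤ) : KnAdm fun v _ => knI l v := by
  simpa using kn_adm (l := l) (u := fun _ _ => 1) (fun _ _ => KnHol.const 1)
    fun δ _ => ⟨1, zero_le_one, fun v h _ _ _ => by simpa using knSz_ge h⟩

def knE0 : ℍ → ℂ := knS (knI fun v => v.1 + v.2)
def knE1 : ℍ → ℂ := knS (knI fun v => v.1)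
def knE2 : ℍ → ℂ := knS (knI fun v => v.2)

theorem knE0_T (τ : ℍ) : knE0 (aff 1 1 τ) = knE2 τ := by
  rw [knE0, knE2, knS_T]
  congr 1
  exact funext fun w => knI_congr (kn_cop_T _ _) (by simp)

theorem knE1_T (τ : ℍ) : knE1 (aff 1 1 τ) = knE1 τ := by
  rw [knE1, knS_T]
  congr 1
  exact funext fun w => knI_congr (kn_cop_T _ _) (by simp)

theorem knE2_T (τ : ℍ) : knE2 (aff 1 1 τ) = knE0 τ := by
  rw [knE0, knE2, knS_T]
  congr 1
  exact funext fun w => knI_congr (kn_cop_T _ _) (by simp only [Int.odd_iff]; omega)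

theorem knE0_S (τ : ℍ) : knE0 (S • τ) = (τ : ℂ) ^ 4 * knE0 τ := by
  rw [knE0, knS_S]
  congr 2
  exact funext fun w => knI_congr (kn_cop_S _ _) (by simp only [Int.odd_iff]; omega)

theorem knE1_S (τ : ℍ) : knE1 (S • τ) = (τ : ℂ) ^ 4 * knE2 τ := by
  rw [knE1, knE2, knS_S]
  congr 2
  exact funext fun w => knI_congr (kn_cop_S _ _) (by simp)

theorem knE2_S (τ : ℍ) : knE2 (S • τ) = (τ : ℂ) ^ 4 * knE1 τ := by
  rw [knE1, knE2, knS_S]
  congr 2
  exact funext fun w => knI_congr (kn_cop_S _ _) (by simp)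

theorem knE0_per (τ : ℍ) : knE0 (aff 1 2 τ) = knE0 τ := by rw [kn_two, knE0_T, knE2_T]
theorem knE1_per (τ : ℍ) : knE1 (aff 1 2 τ) = knE1 τ := by rw [kn_two, knE1_T, knE1_T]
theorem knE2_per (τ : ℍ) : knE2 (aff 1 2 τ) = knE2 τ := by rw [kn_two, knE2_T, knE0_T]

theorem knE0_hol : KnHol knE0 := (kn_admI _).holS
theorem knE1_hol : KnHol knE1 := (kn_admI _).holS
theorem knE2_hol : KnHol knE2 := (kn_admI _).holS

theorem kn_limE (v : ℤ × ℤ) :
    Tendsto (knE v) atImInfty (𝓝 (if v.1 = 0 then ((v.2 : ℂ) ^ 4)⁻¹ else 0)) := by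
  split_ifs with h
  · have : knE v = fun _ => ((v.2 : ℂ) ^ 4)⁻¹ := funext fun τ => by simp [knE, h]
    rw [this]
    exact tendsto_const_nhds
  · have h1 : (1 : ℝ) ≤ |(v.1 : ℝ)| := by exact_mod_cast Int.one_le_abs h
    have h2 : Tendsto (fun τ : ℍ => (τ.im ^ 4)⁻¹) atImInfty (𝓝 0) :=
      tendsto_inv_atTop_zero.comp ((tendsto_pow_atTop (by norm_num)).comp tendsto_comap)
    refine squeeze_zero_norm (fun τ => ?_) h2
    have h3 : τ.im ≤ ‖v.1 * (τ : ℂ) + v.2‖ := by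
      refine le_trans ?_ (abs_im_le_norm _)
      have : (v.1 * (τ : ℂ) + v.2).im = v.1 * τ.im := by simp
      rw [this, abs_mul, abs_of_pos τ.im_pos]
      nlinarith [τ.im_pos]
    rw [knE, norm_inv, norm_pow]
    have := τ.im_pos
    gcongr

theorem kn_lim {l : ℤ × ℤ → ℤ} (hp : ∀ τ, knS (knI l) (aff 1 2 τ) = knS (knI l) τ) :
    Tendsto (knS (knI l)) atImInfty (𝓝 (knI l (0, 1) + knI l (0, -1))) := by
  refine kn_tendsto hp ?_
  obtain ⟨b, hb, hb'⟩ := (kn_admI l).strip 2 one_pos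
  have h := tendsto_tsum_of_dominated_convergence (𝓕 := atImInfty ⊓ 𝓟 (verticalStrip 2 1))
    (f := fun τ v => knI l v * knE v τ) hb
    (fun v => ((kn_limE v).const_mul (knI l v)).mono_left inf_le_left)
    (eventually_inf_principal.2 (Eventually.of_forall hb'))
  rw [tsum_eq_sum (s := {(0, 1), (0, -1)}), Finset.sum_pair (by simp)] at h
  · norm_num at h
    exact h
  · rintro ⟨c, d⟩ hv
    by_cases hc : c = 0
    · subst hc
      rw [knI, if_neg, zero_mul]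
      rintro ⟨h1, -⟩
      rcases Int.isUnit_iff.1 (isCoprime_zero_left.1 h1) with h2 | h2 <;>
        simp only at h2 <;> simp [h2] at hv
    · simp [hc]

theorem knE0_lim : Tendsto knE0 atImInfty (𝓝 2) := by
  have := kn_lim knE0_per
  norm_num [knI, isCoprime_zero_left] at this
  exact this

theorem knE1_lim : Tendsto knE1 atImInfty (𝓝 0) := by
  have := kn_lim knE1_per
  norm_num [knI, isCoprime_zero_left] at this
  exact this

theorem knE2_lim : Tendsto knE2 atImInfty (𝓝 2) := by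
  have := kn_lim knE2_per
  norm_num [knI, isCoprime_zero_left] at this
  exact this

theorem knE0_bd : KnBd knE0 :=
  .of_strip (fun τ => by rw [knE0_per]) (kn_admI _).bound
theorem knE1_bd : KnBd knE1 :=
  .of_strip (fun τ => by rw [knE1_per]) (kn_admI _).bound
theorem knE2_bd : KnBd knE2 :=
  .of_strip (fun τ => by rw [knE2_per]) (kn_admI _).bound

theorem kn_T_smul (τ : ℍ) : T • τ = aff 1 1 τ := by simpa using T_zpow_smul 1 τ

theorem kn_slash (γ : SL(2, ℤ)) : (fun τ => knE0 τ * knE1 τ * knE2 τ) ∣[(12 : ℤ)] γ =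
    fun τ => knE0 τ * knE1 τ * knE2 τ := by
  refine SlashInvariantForm.slash_action_generators_SL2Z ?_ ?_ γ
  · funext τ
    have h0 : (τ : ℂ) ≠ 0 := τ.ne_zero
    rw [ModularForm.SL_slash_apply, knE0_S, knE1_S, knE2_S, ModularGroup.denom_S]
    field_simp
  · funext τ
    rw [ModularForm.SL_slash_apply, kn_T_smul, knE0_T, knE1_T, knE2_T]
    simp [ModularGroup.denom_apply, ModularGroup.T]
    ring

def knCusp : CuspForm 𝒮ℒ 12 where
  toFun τ := knE0 τ * knE1 τ * knE2 τ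
  slash_action_eq' A hA := by
    obtain ⟨A, rfl⟩ := hA
    exact kn_slash A
  holo' := ((knE0_hol.mul knE1_hol).mul knE2_hol).mdiff
  zero_at_cusps' hc := by
    rw [Subgroup.IsArithmetic.isCusp_iff_isCusp_SL2Z] at hc
    rw [OnePoint.isZeroAt_iff_forall_SL2Z hc]
    intro γ _
    rw [kn_slash]
    simpa using! (knE0_lim.mul knE1_lim).mul knE2_lim

theorem kn_ne_of_lim {f : ℍ → ℂ} (h : Tendsto f atImInfty (𝓝 2)) : f ≠ 0 := by
  rintro rfl
  exact two_ne_zero (tendsto_nhds_unique h (tendsto_const_nhds (x := (0 : ℂ))))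

theorem kn_prod : ∃ c : ℂ, c ≠ 0 ∧
    ∀ τ, knE0 τ * knE1 τ * knE2 τ = c * ModularForm.discriminant τ := by
  obtain ⟨c, hc⟩ := CuspForm.exists_smul_discriminant_of_weight_eq_twelve knCusp
  have h : ∀ τ, knE0 τ * knE1 τ * knE2 τ = c * ModularForm.discriminant τ := fun τ =>
    (congrArg (fun F : CuspForm 𝒮ℒ 12 => F τ) hc).symm
  refine ⟨c, fun h0 => ?_, h⟩
  have h1 : knE0 * knE1 * knE2 = 0 := funext fun τ => by simpa [h0] using h τ
  rw [UpperHalfPlane.mul_eq_zero_iff (f := knE0 * knE1) (knE0_hol.mul knE1_hol).mdiff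
    knE2_hol.mdiff,
    UpperHalfPlane.mul_eq_zero_iff knE0_hol.mdiff knE1_hol.mdiff] at h1
  rcases h1 with (h1 | h1) | h1
  · exact kn_ne_of_lim knE0_lim h1
  · refine kn_ne_of_lim knE2_lim (funext fun τ => ?_)
    have h2 := knE1_S τ
    rw [h1] at h2
    exact (mul_eq_zero.1 h2.symm).resolve_left (pow_ne_zero _ τ.ne_zero)
  · exact kn_ne_of_lim knE2_lim h1

theorem kn_E_ne (τ : ℍ) : knE0 τ ≠ 0 ∧ knE1 τ ≠ 0 := by
  obtain ⟨c, hc, h⟩ := kn_prod
  have := mul_ne_zero hc (ModularForm.discriminant_ne_zero τ)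
  rw [← h] at this
  exact mul_ne_zero_iff.1 (left_ne_zero_of_mul this)

theorem kn_cpow_mul {x y : ℂ} (hx : x ≠ 0) (hy : y ≠ 0) (h : arg x + arg y ∈ Set.Ioc (-π) π)
    (s : ℂ) : (x * y) ^ s = x ^ s * y ^ s := by
  rw [cpow_def_of_ne_zero (mul_ne_zero hx hy), cpow_def_of_ne_zero hx, cpow_def_of_ne_zero hy,
    (log_mul_eq_add_log_iff hx hy).2 h, add_mul, Complex.exp_add]

theorem kn_arg (τ : ℍ) : |arg (-I * τ)| < π / 2 :=
  abs_arg_lt_pi_div_two_iff.2 (Or.inl (by simpa using τ.im_pos))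

theorem kn_I_ne (τ : ℍ) : -I * (τ : ℂ) ≠ 0 := mul_ne_zero (neg_ne_zero.2 I_ne_zero) τ.ne_zero

/-- The theta function. -/
def knTh (τ : ℍ) : ℂ := jacobiTheta τ

theorem knTh_hol : KnHol knTh := KnHol.of_coe fun _ hz => differentiableAt_jacobiTheta hz

theorem knTh_per (τ : ℍ) : knTh (aff 1 2 τ) = knTh τ := by
  rw [knTh, knTh, kn_coe, add_comm]
  exact jacobiTheta_two_add _

theorem kn_half (τ : ℍ) : (-I * τ) ^ (-1 / 2 : ℂ) * (-I * τ) ^ (1 / 2 : ℂ) = 1 := by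
  rw [← cpow_add _ _ (kn_I_ne τ)]
  norm_num

theorem knTh_sl (τ : ℍ) : sl knTh τ = knTh τ := by
  rw [sl, knTh, knTh, jacobiTheta_S_smul, ← mul_assoc, kn_half, one_mul]

theorem kn_exp_lim {a : ℝ} (ha : a < 0) :
    Tendsto (fun τ : ℍ => Real.exp (a * τ.im)) atImInfty (𝓝 0) :=
  Real.tendsto_exp_atBot.comp (Tendsto.const_mul_atTop_of_neg ha tendsto_comap)

theorem knTh_lim : Tendsto knTh atImInfty (𝓝 1) := by
  have h := isBigO_at_im_infty_jacobiTheta_sub_one.comp_tendsto tendsto_coe_atImInfty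
  exact tendsto_sub_nhds_zero_iff.1
    (h.trans_tendsto (kn_exp_lim (neg_lt_zero.2 Real.pi_pos)))

theorem knTh_bd : KnBd knTh :=
  .of_inf knTh_hol.continuous (fun τ => by rw [knTh_per]) (knTh_lim.isBigO_one ℝ)

theorem kn_theta_one {z : ℂ} (hz : 0 < z.im) :
    jacobiTheta (z + 1) = 2 * jacobiTheta (4 * z) - jacobiTheta z := by
  have hs : ∀ {z : ℂ}, 0 < z.im →
      HasSum (fun n : ℤ => cexp (π * I * (n : ℂ) ^ 2 * z)) (jacobiTheta z) := fun {z} hz => by
    simpa [jacobiTheta₂_term, ← jacobiTheta_eq_jacobiTheta₂] using hasSum_jacobiTheta₂_term 0 hz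
  have h1 := (hs (z := z + 1) (by simpa using hz)).add (hs hz)
  have h2 := (hs (z := 4 * z) (by simpa using hz)).mul_left 2
  have hi : Function.Injective fun n : ℤ => 2 * n := fun a b h => by simpa using h
  rw [← hi.hasSum_iff] at h1
  · rw [eq_sub_iff_add_eq]
    refine h1.tsum_eq.symm.trans (Eq.trans (tsum_congr fun n => ?_) h2.tsum_eq)
    have : (π * I * ((2 * n : ℤ) : ℂ) ^ 2 * (z + 1)) =
        π * I * (n : ℂ) ^ 2 * (4 * z) + (2 * n ^ 2 : ℤ) * (2 * π * I) := by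
      push_cast; ring
    rw [Function.comp_apply, this, Complex.exp_add, exp_int_mul_two_pi_mul_I,
      show π * I * ((2 * n : ℤ) : ℂ) ^ 2 * z = π * I * (n : ℂ) ^ 2 * (4 * z) by push_cast; ring]
    ring
  · intro n hn
    obtain ⟨k, rfl⟩ : Odd n := Int.not_even_iff_odd.1 fun ⟨k, hk⟩ => hn ⟨k, by simp only; omega⟩
    have : (π * I * ((2 * k + 1 : ℤ) : ℂ) ^ 2 * (z + 1)) =
        π * I * ((2 * k + 1 : ℤ) : ℂ) ^ 2 * z + ((2 * k ^ 2 + 2 * k : ℤ) * (2 * π * I) + π * I) := by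
      push_cast; ring
    rw [this, Complex.exp_add, Complex.exp_add, exp_int_mul_two_pi_mul_I, exp_pi_mul_I]
    ring

/-- The expansion at the cusp `1`. -/
def knU (H : ℍ → ℂ) : ℍ → ℂ := sl fun w => H (aff 1 1 w)

theorem KnHol.U {H : ℍ → ℂ} (h : KnHol H) : KnHol (knU H) := (h.aff one_pos 1).sl

theorem knTh_U (w : ℍ) : knU knTh w = knTh (aff 4⁻¹ 0 w) - knTh w := by
  have h4 : (0 : ℝ) < 4⁻¹ := by norm_num
  have h0 : (w : ℂ) ≠ 0 := w.ne_zero
  have e1 : (4 : ℂ) * (S • w : ℍ) = (S • aff 4⁻¹ 0 w : ℍ) := by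
    rw [coe_S_smul, coe_S_smul, coe_aff h4]
    push_cast
    rw [add_zero]
    field_simp
  have e2 : -I * (aff 4⁻¹ 0 w : ℂ) = ((2⁻¹ : ℝ) : ℂ) ^ 2 * (-I * w) := by
    rw [coe_aff h4]; push_cast; ring
  have e3 : (((2⁻¹ : ℝ) : ℂ) ^ 2 * (-I * w)) ^ (1 / 2 : ℂ) = 2⁻¹ * (-I * w) ^ (1 / 2 : ℂ) := by
    have a0 : arg (((2⁻¹ : ℝ) : ℂ) ^ 2) = 0 := by
      rw [← ofReal_pow]; exact arg_ofReal_of_nonneg (by norm_num)
    have a1 := abs_lt.1 (kn_arg w)
    rw [kn_cpow_mul (by norm_num) (kn_I_ne w)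
      (by rw [a0]; constructor <;> linarith [Real.pi_pos]), one_div (2 : ℂ),
      sq_cpow_two_inv (by simp)]
    simp
  rw [knU, sl, knTh, kn_coe, ofReal_one, kn_theta_one (S • w).im_pos, e1, jacobiTheta_S_smul,
    jacobiTheta_S_smul, e2, e3, knTh, knTh]
  linear_combination (jacobiTheta (aff 4⁻¹ 0 w) - jacobiTheta w) * kn_half w

theorem knTh_U_bd : KnBd (knU knTh) := by
  rw [funext knTh_U]
  exact (knTh_bd.aff (by norm_num) 0).sub knTh_bd

/-- The multiplier at the cusp `1`. -/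
def knZ : ℂ := -cexp (π * I / 4)

theorem norm_knZ : ‖knZ‖ = 1 := by
  rw [knZ, norm_neg, Complex.norm_exp]; simp

theorem knU_T {H : ℍ → ℂ} (h : ∀ τ, H τ = -sl (fun w => H (aff 1 2 w)) τ) (w : ℍ) :
    knU H (aff 1 1 w) = knZ * knU H w := by
  have h0 : (w : ℂ) ≠ 0 := w.ne_zero
  have h1 : (w : ℂ) + 1 ≠ 0 := by simpa [kn_coe] using (aff 1 1 w).ne_zero
  set τ := aff 1 1 (S • aff 1 1 w) with hτ
  have e0 : (τ : ℂ) = w / (w + 1) := by
    rw [hτ, kn_coe, coe_S_smul, kn_coe]; push_cast; field_simp; ring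
  have e1 : aff 1 2 (S • τ) = aff 1 1 (S • w) := by
    refine UpperHalfPlane.ext ?_
    rw [kn_coe, kn_coe, coe_S_smul, coe_S_smul, e0]; push_cast; field_simp; ring
  have e2 : (-I * (aff 1 1 w : ℍ)) * (-I * τ) = -I * (-I * w) := by
    rw [e0, kn_coe]; push_cast; field_simp
  have a1 := abs_lt.1 (kn_arg w)
  have a2 := abs_lt.1 (kn_arg τ)
  have a3 := abs_lt.1 (kn_arg (aff 1 1 w))
  have e3 : ((-I * (aff 1 1 w : ℍ)) * (-I * τ)) ^ (-1 / 2 : ℂ) =
    (-I * (-I * w)) ^ (-1 / 2 : ℂ) := by rw [e2]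
  rw [kn_cpow_mul (kn_I_ne _) (kn_I_ne _) (by constructor <;> linarith),
    kn_cpow_mul (neg_ne_zero.2 I_ne_zero) (kn_I_ne _)
      (by rw [arg_neg_I]; constructor <;> linarith [Real.pi_pos]),
    cpow_def_of_ne_zero (neg_ne_zero.2 I_ne_zero), log_neg_I,
    show -((π : ℂ) / 2) * I * (-1 / 2) = π * I / 4 by ring] at e3
  rw [knU, sl, sl, ← hτ, h τ, sl, e1, knZ]
  linear_combination (-H (aff 1 1 (S • w))) * e3

/-- The twist that makes the expansion at the cusp `1` periodic. -/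
def knX (τ : ℍ) : ℂ := cexp (3 / 4 * π * I * τ)

theorem knX_hol : KnHol knX :=
  KnHol.of_coe (G := fun z => cexp (3 / 4 * π * I * z)) fun z _ => by fun_prop

theorem norm_knX (τ : ℍ) : ‖knX τ‖ = Real.exp (-(3 / 4 * π) * τ.im) := by
  rw [knX, Complex.norm_exp]
  congr 1
  simp [mul_re, mul_im]

theorem kn_twist {G : ℍ → ℂ} (h : ∀ w, G (aff 1 1 w) = knZ * G w) (w : ℍ) :
    G (aff 1 1 w) * knX (aff 1 1 w) = G w * knX w := by
  have : cexp (π * I / 4) * cexp (3 / 4 * π * I) = -1 := by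
    rw [← Complex.exp_add, ← exp_pi_mul_I]; congr 1; ring
  rw [h, knX, knX, knZ, kn_coe, mul_add, Complex.exp_add, ofReal_one, mul_one]
  linear_combination (-G w * cexp (3 / 4 * π * I * w)) * this

theorem kn_norm_per {G : ℍ → ℂ} (h : ∀ w, G (aff 1 1 w) = knZ * G w) (w : ℍ) :
    ‖G (aff 1 2 w)‖ = ‖G w‖ := by
  rw [kn_two, h, h, norm_mul, norm_mul, norm_knZ, one_mul, one_mul]

theorem kn_cuspA {G : ℍ → ℂ} (hG : KnHol G) (h : ∀ w, G (aff 1 1 w) = knZ * G w)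
    (hb : IsBoundedAtImInfty fun w => G w * knE1 w) :
    ∃ q, Tendsto (fun w => G w * knX w) atImInfty (𝓝 q) := by
  obtain ⟨c, hc, hp⟩ := kn_prod
  have hX : Tendsto knX atImInfty (𝓝 0) := by
    rw [tendsto_zero_iff_norm_tendsto_zero]
    simp only [norm_knX]
    exact kn_exp_lim (by linarith [Real.pi_pos])
  have hz : IsZeroAtImInfty fun w => G w * knE1 w * knX w :=
    (IsBigO.mul (g₁ := fun _ => (1 : ℝ)) hb (isBigO_refl knX _).norm_right).trans_tendsto (by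
      simpa using hX.norm)
  have h1 := hz.exp_decay_atImInfty one_pos
    (kn_periodic (P := 1) fun w => by
      rw [mul_right_comm, kn_twist h, knE1_T, mul_right_comm])
    ((hG.mul knE1_hol).mul knX_hol).mdiff hz.isBoundedAtImInfty
  have h2 : (fun w => G w * knE1 w * knX w) =O[atImInfty] ModularForm.discriminant :=
    h1.trans (by simpa using ModularForm.exp_isBigO_discriminant)
  have h3 : IsBoundedAtImInfty fun w => G w * knX w := by
    obtain ⟨C, hC⟩ := h2.bound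
    obtain ⟨C', hC'⟩ := (knE0_bd.mul knE2_bd).inf.bound
    refine IsBigO.of_bound (C * C' / ‖c‖) ?_
    filter_upwards [hC, hC'] with w h4 h5
    have h6 := norm_pos_iff.2 (ModularForm.discriminant_ne_zero w)
    have h7 : G w * knX w * c * ModularForm.discriminant w =
        G w * knE1 w * knX w * (knE0 w * knE2 w) := by
      rw [mul_assoc _ c, ← hp]; ring
    have h8 := mul_le_mul h4 h5 (norm_nonneg _) ((norm_nonneg _).trans h4)
    rw [← norm_mul, ← h7, norm_mul, norm_mul _ c] at h8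
    simp only [Pi.one_apply, norm_one, mul_one] at h8 ⊢
    rw [le_div_iff₀ (norm_pos_iff.2 hc)]
    exact le_of_mul_le_mul_right (by linarith) h6
  have h4 := exp_decay_sub_atImInfty one_pos (kn_periodic (P := 1) (kn_twist h))
    (hG.mul knX_hol).mdiff h3
  refine ⟨_, tendsto_sub_nhds_zero_iff.1 (h4.trans_tendsto ?_)⟩
  simpa using kn_exp_lim (a := -2 * π) (by linarith [Real.pi_pos])

theorem kn_cuspB {G : ℍ → ℂ} (hG : KnHol G) (h : ∀ w, G (aff 1 1 w) = knZ * G w)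
    (hz : IsZeroAtImInfty fun w => G w * knX w) : KnBd G := by
  refine .of_inf hG.continuous (kn_norm_per h) ?_
  obtain ⟨C, hC⟩ := (hz.exp_decay_atImInfty one_pos (kn_periodic (P := 1) (kn_twist h))
    (hG.mul knX_hol).mdiff hz.isBoundedAtImInfty).bound
  refine IsBigO.of_bound |C| ?_
  filter_upwards [hC] with w hw
  rw [norm_mul, norm_knX, Real.norm_of_nonneg (Real.exp_pos _).le] at hw
  have h1 : Real.exp (-2 * π * w.im / 1) ≤ Real.exp (-(3 / 4 * π) * w.im) :=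
    Real.exp_le_exp.2 (by nlinarith [mul_pos Real.pi_pos w.im_pos])
  simp only [Pi.one_apply, norm_one, mul_one]
  refine le_of_mul_le_mul_right (hw.trans ?_) (Real.exp_pos _)
  exact mul_le_mul (le_abs_self C) h1 (Real.exp_pos _).le (abs_nonneg C)

end

end Pool.Agent.Lib.MP_e6abdd_an
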