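import Pool.Agent.Lib.MP_e6abdd_an.ExistA
import Pool.Agent.Lib.MP_e6abdd_an.KnoppB

/-!
The triangular family: `theta ^ 3 * (theta ^ 12 / eta ^ 12) ^ k` integrated over the geodesic
from `-1` to `1`.
-/

namespace Pool.Agent.Lib.MP_e6abdd_an

open Complex hiding Gamma
open UpperHalfPlane hiding I
open MeasureTheory Filter Topology CongruenceSubgroup
open scoped Real MatrixGroups ComplexConjugate FourierTransform

open ModularGroup (S T)

noncomputable section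

/-- The Euler product. -/
def exbP (q : ℂ) : ℂ := ∏' n : ℕ, (1 - q ^ (n + 1))

theorem exbP_diff : DifferentiableOn ℂ exbP (Metric.ball 0 1) :=
  ModularForm.differentiableOn_tprod_one_sub_pow

theorem exbP_zero : exbP 0 = 1 := by simp [exbP]

theorem exbP_ne {q : ℂ} (hq : ‖q‖ < 1) : exbP q ≠ 0 := by
  refine tprod_one_add_ne_zero_of_summable (f := fun n : ℕ => -q ^ (n + 1)) (fun i => ?_) ?_
  · intro h
    have h1 : q ^ (i + 1) = 1 := by linear_combination -h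
    have h2 := pow_lt_one₀ (norm_nonneg q) hq (Nat.succ_ne_zero i)
    rw [← norm_pow, h1, norm_one] at h2
    exact lt_irrefl _ h2
  · simpa using (summable_nat_add_iff 1).mpr (summable_geometric_of_lt_one (norm_nonneg _) hq)

/-- The local parameter at infinity. -/
def exbt (z : ℂ) : ℂ := cexp (π * I * z)

theorem norm_exbt (z : ℂ) : ‖exbt z‖ = Real.exp (-π * z.im) := by
  rw [exbt, Complex.norm_exp]
  congr 1
  simp [mul_re, mul_im]

theorem exbt_lt {z : ℂ} (hz : 0 < z.im) : ‖exbt z‖ < 1 := by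
  rw [norm_exbt, Real.exp_lt_one_iff]
  nlinarith [Real.pi_pos]

theorem exbt_ne (z : ℂ) : exbt z ≠ 0 := Complex.exp_ne_zero _

theorem exbt_one (z : ℂ) : exbt (z + 1) = -exbt z := by
  rw [exbt, exbt, mul_add, mul_one, Complex.exp_add, exp_pi_mul_I]
  ring

theorem exbt_two (z : ℂ) : exbt (z + 2) = exbt z := by
  rw [show z + 2 = z + 1 + 1 by ring, exbt_one, exbt_one, neg_neg]

theorem exb_eta (z : ℂ) : ModularForm.eta z ^ 12 = exbt z * exbP (exbt z ^ 2) ^ 12 := by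
  have h1 : Function.Periodic.qParam 1 z = exbt z ^ 2 := by
    rw [Function.Periodic.qParam, exbt, ← Complex.exp_nat_mul]
    congr 1
    push_cast
    ring
  have h2 : Function.Periodic.qParam 24 z ^ 12 = exbt z := by
    rw [Function.Periodic.qParam, exbt, ← Complex.exp_nat_mul]
    congr 1
    push_cast
    ring
  rw [ModularForm.eta, mul_pow, h2, exbP]
  simp only [ModularForm.eta_q, h1]

theorem exb_eta_one (z : ℂ) : ModularForm.eta (z + 1) ^ 12 = -ModularForm.eta z ^ 12 := by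
  rw [exb_eta, exb_eta, exbt_one, neg_sq]
  ring

theorem exb_eta_S {z : ℂ} (hz : 0 < z.im) :
    ModularForm.eta (-1 / z) ^ 12 = (-I * z) ^ 6 * ModularForm.eta z ^ 12 := by
  have he : ModularForm.eta (-1 / z) = (sqrt I)⁻¹ * (sqrt z * ModularForm.eta z) := by
    simpa using ModularForm.eta_comp_eq_csqrt_I_inv hz
  have h2 : ∀ w : ℂ, sqrt w ^ 12 = w ^ 6 := fun w => by
    rw [show 12 = 2 * 6 by norm_num, pow_mul, Complex.sqrt, cpow_ofNat_inv_pow]
  have h3 : I ^ 6 = -1 := by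
    rw [show 6 = 4 + 2 by norm_num, pow_add, I_pow_four, I_sq, one_mul]
  rw [he, mul_pow, mul_pow, inv_pow, h2, h2, h3, mul_pow, neg_pow I, h3]
  norm_num

/-- The square root of `-I z`. -/
def exbr (z : ℂ) : ℂ := (-I * z) ^ (1 / 2 : ℂ)

theorem exbr_sq (z : ℂ) : exbr z ^ 2 = -I * z := by
  rw [exbr, one_div, cpow_ofNat_inv_pow]

theorem exb_theta_S {z : ℂ} (hz : 0 < z.im) :
    jacobiTheta (-1 / z) = exbr z * jacobiTheta z := by
  have := jacobiTheta_S_smul ⟨z, hz⟩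
  rwa [coe_S_smul] at this

/-- The weakly holomorphic form of weight `3 / 2` with a pole of order `k`. -/
def exbU (k : ℕ) (z : ℂ) : ℂ :=
  jacobiTheta z ^ 3 * (jacobiTheta z ^ 12 / ModularForm.eta z ^ 12) ^ k

theorem exbU_S (k : ℕ) {z : ℂ} (hz : 0 < z.im) : exbU k (-1 / z) = exbr z ^ 3 * exbU k z := by
  have h0 : (-I * z) ^ 6 ≠ 0 := pow_ne_zero _ (mul_ne_zero (neg_ne_zero.2 I_ne_zero) (kn_ne hz))
  have h1 : exbr z ^ 12 = (-I * z) ^ 6 := by
    rw [show 12 = 2 * 6 by norm_num, pow_mul, exbr_sq]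
  rw [exbU, exbU, exb_theta_S hz, exb_eta_S hz, mul_pow, mul_pow, h1,
    mul_div_mul_left _ _ h0, mul_assoc]

theorem exbU_diff (k : ℕ) {z : ℂ} (hz : 0 < z.im) : DifferentiableAt ℂ (exbU k) z := by
  have h1 := differentiableAt_jacobiTheta hz
  have h2 := ModularForm.differentiableAt_eta_of_mem_upperHalfPlaneSet hz
  exact (h1.pow 3).mul
    (((h1.pow 12).div (h2.pow 12) (pow_ne_zero _ (ModularForm.eta_ne_zero hz))).pow k)

theorem exb_cusp_inf (k : ℕ) : ∃ C : ℂ → ℂ, DifferentiableOn ℂ C (Metric.ball 0 1) ∧ C 0 = 1 ∧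
    ∀ z : ℂ, 0 < z.im → exbU k z * exbt z ^ k = C (exbt z) := by
  have hper := kn_periodic (P := 2) knTh_per
  have hd := differentiableOn_cuspFunction_ball two_pos hper knTh_hol.mdiff knTh_bd.inf
  have h0 : cuspFunction 2 knTh 0 = 1 := by
    rw [cuspFunction_apply_zero two_pos
      (analyticAt_cuspFunction_zero two_pos hper knTh_hol.mdiff knTh_bd.inf) hper]
    exact knTh_lim.limUnder_eq
  have hsq : Set.MapsTo (fun t : ℂ => t ^ 2) (Metric.ball 0 1) (Metric.ball 0 1) := by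
    intro t ht
    rw [mem_ball_zero_iff] at ht ⊢
    rw [norm_pow]
    exact pow_lt_one₀ (norm_nonneg _) ht two_ne_zero
  have hP : DifferentiableOn ℂ (fun t : ℂ => exbP (t ^ 2)) (Metric.ball 0 1) :=
    exbP_diff.comp (by fun_prop) hsq
  refine ⟨fun t => cuspFunction 2 knTh t ^ 3 *
    (cuspFunction 2 knTh t ^ 12 / exbP (t ^ 2) ^ 12) ^ k, ?_, ?_, fun z hz => ?_⟩
  · exact (hd.pow 3).mul (((hd.pow 12).div (hP.pow 12) fun t ht =>
      pow_ne_zero _ (exbP_ne (mem_ball_zero_iff.1 (hsq ht)))).pow k)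
  · simp [h0, exbP_zero]
  · have h1 : cuspFunction 2 knTh (exbt z) = jacobiTheta z := by
      have := eq_cuspFunction (f := knTh) ⟨z, hz⟩ two_ne_zero hper
      rw [Function.Periodic.qParam] at this
      rw [exbt, show π * I * z = 2 * π * I * z / ((2 : ℝ) : ℂ) by push_cast; ring]
      exact this
    simp only [h1]
    rw [exbU, exb_eta, mul_assoc, ← mul_pow]
    congr 2
    have := exbt_ne z
    field_simp

theorem exb_theta_bd {δ : ℝ} (hδ : 0 < δ) {z : ℂ} (hz : δ ≤ z.im) :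
    ‖jacobiTheta z - 1‖ ≤ 2 / (1 - Real.exp (-π * δ)) * Real.exp (-π * z.im) := by
  refine (norm_jacobiTheta_sub_one_le (hδ.trans_le hz)).trans ?_
  have h1 : Real.exp (-π * δ) < 1 := by
    rw [Real.exp_lt_one_iff]
    nlinarith [Real.pi_pos]
  have h2 : Real.exp (-π * z.im) ≤ Real.exp (-π * δ) :=
    Real.exp_le_exp.2 (by nlinarith [Real.pi_pos])
  gcongr

theorem exb_theta_one {w : ℂ} (hw : 0 < w.im) :
    jacobiTheta (-1 / w + 1) = exbr w * (jacobiTheta (4⁻¹ * w) - jacobiTheta w) := by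
  have h := knTh_U ⟨w, hw⟩
  have h2 := kn_half ⟨w, hw⟩
  rw [knU, sl, knTh, knTh, knTh, kn_coe, coe_S_smul, coe_aff (by norm_num)] at h
  push_cast at h h2
  rw [add_zero] at h
  rw [← h, exbr]
  linear_combination (-jacobiTheta (-1 / w + 1)) * h2

theorem exb_theta_two : ∃ A : ℝ, 0 ≤ A ∧ ∀ w : ℂ, 1 / 2 ≤ w.im →
    ‖jacobiTheta (4⁻¹ * w) - jacobiTheta w‖ ≤ A * Real.exp (-π * (w.im / 4)) := by
  have h1 : Real.exp (-π * (1 / 8)) < 1 := by
    rw [Real.exp_lt_one_iff]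
    nlinarith [Real.pi_pos]
  have h0 : 0 ≤ 2 / (1 - Real.exp (-π * (1 / 8))) := div_nonneg two_pos.le (by linarith)
  refine ⟨2 * (2 / (1 - Real.exp (-π * (1 / 8)))), by positivity, fun w hw => ?_⟩
  have e : (4⁻¹ * w).im = w.im / 4 := by
    rw [show (4⁻¹ : ℂ) = ((4⁻¹ : ℝ) : ℂ) by push_cast; rfl, im_ofReal_mul]
    ring
  have a1 := exb_theta_bd (δ := 1 / 8) (by norm_num) (z := 4⁻¹ * w) (by rw [e]; linarith)
  have a2 := exb_theta_bd (δ := 1 / 8) (by norm_num) (z := w) (by linarith)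
  have a3 : Real.exp (-π * w.im) ≤ Real.exp (-π * (w.im / 4)) :=
    Real.exp_le_exp.2 (by nlinarith [Real.pi_pos])
  rw [e] at a1
  calc ‖jacobiTheta (4⁻¹ * w) - jacobiTheta w‖
      = ‖(jacobiTheta (4⁻¹ * w) - 1) - (jacobiTheta w - 1)‖ := by congr 1; ring
    _ ≤ ‖jacobiTheta (4⁻¹ * w) - 1‖ + ‖jacobiTheta w - 1‖ := norm_sub_le _ _
    _ ≤ _ := by nlinarith [mul_le_mul_of_nonneg_left a3 h0]

theorem exb_eta_low : ∃ D : ℝ, 0 ≤ D ∧ ∀ w : ℂ, 1 / 2 ≤ w.im →
    ‖(ModularForm.eta w ^ 12)⁻¹‖ ≤ D * Real.exp (π * w.im) := by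
  have h1 : Real.exp (-π * (1 / 2)) ^ 2 < 1 := by
    refine pow_lt_one₀ (Real.exp_pos _).le ?_ two_ne_zero
    rw [Real.exp_lt_one_iff]
    nlinarith [Real.pi_pos]
  have hsub := Metric.closedBall_subset_ball (x := (0 : ℂ)) h1
  have hc : ContinuousOn (fun q => (exbP q ^ 12)⁻¹)
      (Metric.closedBall 0 (Real.exp (-π * (1 / 2)) ^ 2)) :=
    ((exbP_diff.continuousOn.mono hsub).pow 12).inv₀ fun q hq =>
      pow_ne_zero _ (exbP_ne (mem_ball_zero_iff.1 (hsub hq)))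
  obtain ⟨D, hD⟩ := (isCompact_closedBall _ _).exists_bound_of_continuousOn hc
  refine ⟨max D 0, le_max_right _ _, fun w hw => ?_⟩
  have h2 : exbt w ^ 2 ∈ Metric.closedBall (0 : ℂ) (Real.exp (-π * (1 / 2)) ^ 2) := by
    rw [mem_closedBall_zero_iff, norm_pow, norm_exbt]
    exact pow_le_pow_left₀ (Real.exp_pos _).le
      (Real.exp_le_exp.2 (by nlinarith [Real.pi_pos])) 2
  rw [exb_eta, mul_inv, norm_mul, norm_inv, norm_exbt, ← Real.exp_neg, mul_comm]
  simp only [neg_mul, neg_neg]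
  exact mul_le_mul_of_nonneg_right ((hD _ h2).trans (le_max_left _ _)) (Real.exp_pos _).le

theorem exb_cusp_w (k : ℕ) : ∃ B : ℝ, 0 ≤ B ∧ ∀ w : ℂ, 1 / 2 ≤ w.im →
    ‖exbU k (-1 / w + 1)‖ ≤ B * (1 + ‖w‖) ^ 3 * Real.exp (-(2 * w.im)) := by
  obtain ⟨A, hA0, hA⟩ := exb_theta_two
  obtain ⟨D, hD0, hD⟩ := exb_eta_low
  refine ⟨A ^ 3 * (A ^ 12 * D) ^ k, by positivity, fun w hw => ?_⟩
  have hw0 : 0 < w.im := by linarith
  set g := jacobiTheta (4⁻¹ * w) - jacobiTheta w with hg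
  have h0 : (-I * w) ^ 6 ≠ 0 := pow_ne_zero _ (mul_ne_zero (neg_ne_zero.2 I_ne_zero) (kn_ne hw0))
  have h1 : exbr w ^ 12 = (-I * w) ^ 6 := by
    rw [show 12 = 2 * 6 by norm_num, pow_mul, exbr_sq]
  have e : exbU k (-1 / w + 1) =
      exbr w ^ 3 * g ^ 3 * (-(g ^ 12 * (ModularForm.eta w ^ 12)⁻¹)) ^ k := by
    rw [exbU, exb_theta_one hw0, exb_eta_one, exb_eta_S hw0, ← hg, mul_pow, mul_pow, h1, div_neg,
      mul_div_mul_left _ _ h0, div_eq_mul_inv]
  have hr : ‖exbr w‖ ≤ 1 + ‖w‖ := by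
    have : ‖exbr w‖ ^ 2 = ‖w‖ := by
      rw [← norm_pow, exbr_sq, norm_mul, norm_neg, norm_I, one_mul]
    nlinarith [sq_nonneg (‖exbr w‖ - 1), norm_nonneg w]
  have hg1 := hA w hw
  rw [← hg] at hg1
  have hg3 : ‖g‖ ^ 3 ≤ A ^ 3 * Real.exp (-(2 * w.im)) := by
    refine (pow_le_pow_left₀ (norm_nonneg _) hg1 3).trans ?_
    rw [mul_pow, ← Real.exp_nat_mul]
    refine mul_le_mul_of_nonneg_left (Real.exp_le_exp.2 ?_) (by positivity)
    push_cast
    nlinarith [Real.pi_gt_three]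
  have hg12 : ‖g‖ ^ 12 * ‖(ModularForm.eta w ^ 12)⁻¹‖ ≤ A ^ 12 * D := by
    have a1 := pow_le_pow_left₀ (norm_nonneg _) hg1 12
    rw [mul_pow, ← Real.exp_nat_mul] at a1
    have a2 : Real.exp ((12 : ℕ) * (-π * (w.im / 4))) * Real.exp (π * w.im) ≤ 1 := by
      rw [← Real.exp_add, Real.exp_le_one_iff]
      push_cast
      nlinarith [Real.pi_pos]
    calc ‖g‖ ^ 12 * ‖(ModularForm.eta w ^ 12)⁻¹‖
        ≤ (A ^ 12 * Real.exp ((12 : ℕ) * (-π * (w.im / 4)))) * (D * Real.exp (π * w.im)) :=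
          mul_le_mul a1 (hD w hw) (norm_nonneg _) (by positivity)
      _ = A ^ 12 * D * (Real.exp ((12 : ℕ) * (-π * (w.im / 4))) * Real.exp (π * w.im)) := by ring
      _ ≤ A ^ 12 * D * 1 := mul_le_mul_of_nonneg_left a2 (by positivity)
      _ = A ^ 12 * D := mul_one _
  rw [e, norm_mul, norm_mul, norm_pow, norm_pow, norm_pow, norm_neg, norm_mul, norm_pow]
  calc ‖exbr w‖ ^ 3 * ‖g‖ ^ 3 * (‖g‖ ^ 12 * ‖(ModularForm.eta w ^ 12)⁻¹‖) ^ k
      ≤ (1 + ‖w‖) ^ 3 * (A ^ 3 * Real.exp (-(2 * w.im))) * (A ^ 12 * D) ^ k := by gcongr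
    _ = _ := by ring

theorem exb_cusp_one (k N : ℕ) : ∃ B : ℝ, 0 ≤ B ∧ ∀ z : ℂ, 0 < z.im → z.im ≤ 1 →
    |z.re - 1| ≤ z.im → ‖exbU k z‖ ≤ B * z.im ^ N := by
  obtain ⟨B, hB0, hB⟩ := exb_cusp_w k
  refine ⟨B * 8 * (N + 3).factorial, by positivity, fun z hz hz1 hx => ?_⟩
  have hn : (1 - z) ≠ 0 := fun h => by
    have := congrArg Complex.im h
    simp at this
    linarith
  have hq : normSq (1 - z) = (z.re - 1) ^ 2 + z.im ^ 2 := by
    rw [normSq_apply]
    simp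
    ring
  have hx2 : (z.re - 1) ^ 2 ≤ z.im ^ 2 := sq_le_sq' (abs_le.1 hx).1 (abs_le.1 hx).2
  have hv : 1 / z.im ≤ 2 * ((1 - z)⁻¹).im := by
    have : ((1 - z)⁻¹).im = z.im / normSq (1 - z) := by
      rw [inv_im]
      simp
    rw [this, hq, ← mul_div_assoc, div_le_div_iff₀ hz (by positivity)]
    nlinarith
  have hy : 1 ≤ 1 / z.im := by
    rw [le_div_iff₀ hz]
    linarith
  have hw : ‖(1 - z)⁻¹‖ ≤ 1 / z.im := by
    rw [norm_inv, one_div]
    refine inv_anti₀ hz ?_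
    have := abs_im_le_norm (1 - z)
    simpa [abs_of_pos hz] using this
  have h1 := hB (1 - z)⁻¹ (by linarith)
  rw [show -1 / (1 - z)⁻¹ + 1 = z by field_simp; ring] at h1
  have h2 : Real.exp (-(2 * ((1 - z)⁻¹).im)) ≤ (N + 3).factorial * z.im ^ (N + 3) := by
    refine (Real.exp_le_exp.2 (neg_le_neg hv)).trans ?_
    have h3 := Real.pow_div_factorial_le_exp (1 / z.im) (by positivity) (N + 3)
    rw [Real.exp_neg]
    refine (inv_anti₀ (by positivity) h3).trans (le_of_eq ?_)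
    rw [one_div_pow]
    field_simp
  refine h1.trans ?_
  calc B * (1 + ‖(1 - z)⁻¹‖) ^ 3 * Real.exp (-(2 * ((1 - z)⁻¹).im))
      ≤ B * (2 * (1 / z.im)) ^ 3 * ((N + 3).factorial * z.im ^ (N + 3)) := by
        gcongr
        linarith
    _ = _ := by
        field_simp
        ring

/-- The geodesic from `-1` to `1`. -/
def exbz (s : ℝ) : ℍ := pt (Real.sinh s / Real.cosh s) (1 / Real.cosh s)

theorem exb_y_pos (s : ℝ) : 0 < 1 / Real.cosh s := one_div_pos.2 (Real.cosh_pos s)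

theorem exbz_coe (s : ℝ) : (exbz s : ℂ) = ((Real.sinh s : ℝ) + I) / (Real.cosh s : ℝ) := by
  rw [exbz, coe_pt _ (exb_y_pos s)]
  push_cast
  ring

theorem exbz_im (s : ℝ) : (exbz s).im = 1 / Real.cosh s := pt_im _ (exb_y_pos s)

theorem exbz_re (s : ℝ) : (exbz s).re = Real.sinh s / Real.cosh s := pt_re _ (exb_y_pos s)

theorem exb_cosh_ne (s : ℝ) : ((Real.cosh s : ℝ) : ℂ) ≠ 0 := ofReal_ne_zero.2 (Real.cosh_pos s).ne'

theorem exb_cosh_sq (s : ℝ) : ((Real.cosh s : ℝ) : ℂ) ^ 2 = ((Real.sinh s : ℝ) : ℂ) ^ 2 + 1 := by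
  exact_mod_cast Real.cosh_sq s

theorem exbz_neg (s : ℝ) : (exbz (-s) : ℂ) = -1 / exbz s := by
  rw [eq_div_iff (exbz s).ne_zero, exbz_coe, exbz_coe, Real.sinh_neg, Real.cosh_neg, ofReal_neg]
  have := exb_cosh_ne s
  field_simp
  linear_combination exb_cosh_sq s + I_sq

theorem exbz_S (s : ℝ) : S • exbz s = exbz (-s) :=
  UpperHalfPlane.ext (by rw [coe_S_smul, exbz_neg])

theorem norm_exbz (s : ℝ) : ‖(exbz s : ℂ)‖ = 1 := by
  have h : ‖(exbz s : ℂ)‖ ^ 2 = 1 := by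
    rw [Complex.sq_norm, normSq_apply, coe_re, coe_im, exbz_re, exbz_im]
    have := (Real.cosh_pos s).ne'
    field_simp
    linear_combination -Real.cosh_sq s
  exact (pow_eq_one_iff_of_nonneg (norm_nonneg _) two_ne_zero).1 h

/-- The derivative of the geodesic. -/
def exbd (s : ℝ) : ℂ := -I * exbz s / (Real.cosh s : ℝ)

theorem exbz_deriv (s : ℝ) : HasDerivAt (fun s => (exbz s : ℂ)) (exbd s) s := by
  simp only [exbd, exbz_coe]
  have h1 := (Real.hasDerivAt_sinh s).ofReal_comp.add_const I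
  have h2 := (Real.hasDerivAt_cosh s).ofReal_comp
  have h3 := h1.div h2 (exb_cosh_ne s)
  refine HasDerivAt.congr_deriv h3 ?_
  have := exb_cosh_ne s
  field_simp
  linear_combination exb_cosh_sq s + I_sq

theorem exbz_cont' : Continuous fun s => (exbz s : ℂ) :=
  continuous_iff_continuousAt.2 fun s => (exbz_deriv s).continuousAt

theorem exbz_cont : Continuous exbz := isEmbedding_coe.continuous_iff.2 exbz_cont'

theorem exbd_cont : Continuous exbd :=
  (continuous_const.mul exbz_cont').div (continuous_ofReal.comp Real.continuous_cosh) exb_cosh_ne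

theorem norm_exbd (s : ℝ) : ‖exbd s‖ = 1 / Real.cosh s := by
  rw [exbd, norm_div, norm_mul, norm_neg, norm_I, norm_exbz, one_mul, norm_real,
    Real.norm_of_nonneg (Real.cosh_pos s).le]

theorem exb_y_le (s : ℝ) : 1 / Real.cosh s ≤ 1 := by
  rw [div_le_one (Real.cosh_pos s)]
  exact Real.one_le_cosh s

theorem exb_x_le {s : ℝ} (hs : 0 ≤ s) :
    0 ≤ 1 - Real.sinh s / Real.cosh s ∧ 1 - Real.sinh s / Real.cosh s ≤ 1 / Real.cosh s := by
  have h0 := Real.cosh_pos s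
  have h1 := Real.cosh_sub_sinh s
  have h2 : Real.exp (-s) ≤ 1 := Real.exp_le_one_iff.2 (by linarith)
  have e : 1 - Real.sinh s / Real.cosh s = Real.exp (-s) / Real.cosh s := by
    rw [← h1]
    field_simp
  rw [e]
  exact ⟨by positivity, by gcongr⟩

theorem exb_y_decay (s : ℝ) : 1 / Real.cosh s ≤ 4 * (1 + s ^ 2)⁻¹ := by
  have h1 := Real.quadratic_le_exp_of_nonneg (abs_nonneg s)
  have h2 : Real.cosh s = (Real.exp |s| + Real.exp (-|s|)) / 2 := by
    rw [← Real.cosh_eq, Real.cosh_abs]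
  have h3 := Real.exp_pos (-|s|)
  have h4 := abs_nonneg s
  rw [← div_eq_mul_inv, div_le_div_iff₀ (Real.cosh_pos s) (by positivity), h2, ← sq_abs s]
  linarith

theorem exb_path_bd (k N : ℕ) : ∃ B : ℝ, 0 ≤ B ∧ ∀ s : ℝ,
    ‖exbU k (exbz s)‖ ≤ B * (1 / Real.cosh s) ^ N := by
  obtain ⟨B, hB0, hB⟩ := exb_cusp_one k N
  have key : ∀ s : ℝ, 0 ≤ s → ‖exbU k (exbz s)‖ ≤ B * (1 / Real.cosh s) ^ N := by
    intro s hs
    have h := hB (exbz s) (exbz s).im_pos (by rw [coe_im, exbz_im]; exact exb_y_le s) (by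
      rw [coe_im, coe_re, exbz_im, exbz_re, abs_sub_comm, abs_of_nonneg (exb_x_le hs).1]
      exact (exb_x_le hs).2)
    rwa [coe_im, exbz_im] at h
  refine ⟨B, hB0, fun s => ?_⟩
  rcases le_total 0 s with hs | hs
  · exact key s hs
  · have h := key (-s) (by linarith)
    have hr : ‖exbr (exbz s)‖ = 1 := by
      have : ‖exbr (exbz s)‖ ^ 2 = 1 := by
        rw [← norm_pow, exbr_sq, norm_mul, norm_neg, norm_I, one_mul, norm_exbz]
      exact (pow_eq_one_iff_of_nonneg (norm_nonneg _) two_ne_zero).1 this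
    rwa [exbz_neg, exbU_S k (exbz s).im_pos, norm_mul, norm_pow, hr, one_pow, one_mul,
      Real.cosh_neg] at h

/-- The weight of the superposition. -/
def exbh (k : ℕ) (s : ℝ) : ℂ := exbU k (exbz s) * exbd s / 2

theorem exbh_cont (k : ℕ) : Continuous (exbh k) := by
  have h : Continuous fun s => exbU k (exbz s) :=
    continuous_iff_continuousAt.2 fun s =>
      ContinuousAt.comp (f := fun s => (exbz s : ℂ))
        (exbU_diff k (exbz s).im_pos).continuousAt exbz_cont'.continuousAt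
  exact (h.mul exbd_cont).div_const 2

theorem exbh_int (k j : ℕ) : Integrable fun s => ‖exbh k s‖ / (exbz s).im ^ j := by
  obtain ⟨B, hB0, hB⟩ := exb_path_bd k j
  have hc : Continuous fun s => ‖exbh k s‖ / (exbz s).im ^ j :=
    (exbh_cont k).norm.div ((UpperHalfPlane.continuous_im.comp exbz_cont).pow j)
      fun s => pow_ne_zero _ (exbz s).im_ne_zero
  refine (integrable_inv_one_add_sq.const_mul (2 * B)).mono' hc.aestronglyMeasurable
    (Eventually.of_forall fun s => ?_)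
  have hy := exb_y_pos s
  rw [Real.norm_of_nonneg (by have := (exbz s).im_pos; positivity), exbz_im,
    div_le_iff₀ (by positivity), exbh, norm_div, norm_mul, norm_exbd, Complex.norm_two]
  calc ‖exbU k (exbz s)‖ * (1 / Real.cosh s) / 2
      ≤ B * (1 / Real.cosh s) ^ j * (4 * (1 + s ^ 2)⁻¹) / 2 := by
        gcongr
        · exact hB s
        · exact exb_y_decay s
    _ = _ := by ring

theorem exbh_dual (k : ℕ) (X s : ℝ) :
    exbh k s * sl (gs X) (exbz s) = exbh k (-s) * gs X (exbz (-s)) := by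
  have h1 := kn_half (exbz s)
  have h2 := exbr_sq (exbz s)
  have h3 := exb_cosh_ne s
  have h4 := (exbz s).ne_zero
  rw [sl, exbz_S, ← mul_assoc, exbh, exbh, exbd, exbd, exbz_neg, exbU_S k (exbz s).im_pos,
    Real.cosh_neg]
  congr 1
  rw [← exbr] at h1
  have h5 : (-I * (exbz s : ℂ)) ^ (-1 / 2 : ℂ) * (exbz s : ℂ) ^ 2 = -exbr (exbz s) ^ 3 := by
    linear_combination (-exbr (exbz s) ^ 3) * h1 +
      ((-I * (exbz s : ℂ)) ^ (-1 / 2 : ℂ) * (exbr (exbz s) ^ 2 - I * exbz s)) * h2 +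
      ((-I * (exbz s : ℂ)) ^ (-1 / 2 : ℂ) * (exbz s : ℂ) ^ 2) * I_sq
  generalize (-I * (exbz s : ℂ)) ^ (-1 / 2 : ℂ) = ρ at h5 ⊢
  field_simp
  linear_combination (-exbU k (exbz s)) * h5

theorem exb_prim {G : ℂ → ℂ} (hG : DifferentiableOn ℂ G (Metric.ball 0 1)) :
    ∃ Φ : ℂ → ℂ, (∀ z : ℂ, 0 < z.im → HasDerivAt Φ (G (exbt z)) z) ∧
      ∀ z, Φ (z + 2) = Φ z + 2 * G 0 := by
  obtain ⟨Ψ, hΨ⟩ := ((differentiableOn_dslope (c := 0)
    (Metric.ball_mem_nhds 0 one_pos)).2 hG).isExactOn_ball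
  refine ⟨fun z => G 0 * z + Ψ (exbt z) / (π * I), fun z hz => ?_, fun z => ?_⟩
  · have h1 : HasDerivAt exbt (exbt z * (π * I)) z := by
      simpa using! ((hasDerivAt_id z).const_mul (π * I)).cexp
    have h2 := ((hΨ _ (mem_ball_zero_iff.2 (exbt_lt hz))).comp z h1).div_const (π * I)
    refine HasDerivAt.congr_deriv (((hasDerivAt_id z).const_mul (G 0)).add h2) ?_
    have h3 := sub_smul_dslope G 0 (exbt z)
    have h4 : (π * I : ℂ) ≠ 0 := mul_ne_zero (ofReal_ne_zero.2 Real.pi_ne_zero) I_ne_zero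
    rw [sub_zero, smul_eq_mul] at h3
    rw [← mul_assoc, mul_div_cancel_right₀ _ h4]
    linear_combination h3
  · simp only [exbt_two]
    ring

theorem exb_x_lim : Tendsto (fun s : ℝ => 1 / Real.cosh s) atTop (𝓝 0) := by
  have h : Tendsto (fun s : ℝ => 4 * (1 + s ^ 2)⁻¹) atTop (𝓝 (4 * 0)) :=
    (tendsto_inv_atTop_zero.comp
      (tendsto_atTop_add_const_left _ 1 (tendsto_pow_atTop two_ne_zero))).const_mul 4
  rw [mul_zero] at h
  exact squeeze_zero (fun s => (exb_y_pos s).le) exb_y_decay h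

theorem exb_value {G : ℂ → ℂ} (hG : DifferentiableOn ℂ G (Metric.ball 0 1)) {B : ℝ}
    (hB : ∀ z : ℂ, 0 < z.im → z.im ≤ 1 → |z.re - 1| ≤ z.im → ‖G (exbt z)‖ ≤ B)
    (hc : Continuous fun s => G (exbt (exbz s)) * exbd s)
    (hi : Integrable fun s => G (exbt (exbz s)) * exbd s) :
    ∫ s, G (exbt (exbz s)) * exbd s = 2 * G 0 := by
  obtain ⟨Φ, hΦ, hper⟩ := exb_prim hG
  have h1 := intervalIntegral_tendsto_integral hi tendsto_neg_atTop_atBot tendsto_id
  have h2 : ∀ R : ℝ, ∫ s in (-R)..R, G (exbt (exbz s)) * exbd s =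
      Φ (exbz R) - Φ (exbz (-R) + 2) + 2 * G 0 := by
    intro R
    rw [intervalIntegral.integral_eq_sub_of_hasDerivAt (f := fun s => Φ (exbz s))
      (fun s _ => (hΦ _ (exbz s).im_pos).comp_of_eq s (exbz_deriv s) rfl)
      (hc.intervalIntegrable _ _), hper]
    ring
  have h3 : Tendsto (fun R : ℝ => Φ (exbz R) - Φ (exbz (-R) + 2)) atTop (𝓝 0) := by
    have h4 : Tendsto (fun R : ℝ => B * (2 * (1 / Real.cosh R))) atTop (𝓝 (B * (2 * 0))) :=
      (exb_x_lim.const_mul 2).const_mul B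
    rw [mul_zero, mul_zero] at h4
    refine squeeze_zero_norm' ?_ h4
    filter_upwards [eventually_ge_atTop 0] with R hR
    obtain ⟨a1, a2⟩ := exb_x_le hR
    have hy := exb_y_pos R
    have hconv : Convex ℝ {z : ℂ | z.im = 1 / Real.cosh R ∧ |z.re - 1| ≤ 1 / Real.cosh R} := by
      intro a ha b hb p q hp hq hpq
      obtain ⟨ha1, ha2⟩ := ha
      obtain ⟨hb1, hb2⟩ := hb
      rw [abs_le] at ha2 hb2
      refine ⟨?_, abs_le.2 ⟨?_, ?_⟩⟩
      · simp only [add_im, smul_im, smul_eq_mul, ha1, hb1]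
        rw [← add_mul, hpq, one_mul]
      · simp only [add_re, smul_re, smul_eq_mul]
        nlinarith [mul_le_mul_of_nonneg_left ha2.1 hp, mul_le_mul_of_nonneg_left hb2.1 hq]
      · simp only [add_re, smul_re, smul_eq_mul]
        nlinarith [mul_le_mul_of_nonneg_left ha2.2 hp, mul_le_mul_of_nonneg_left hb2.2 hq]
    have m1 : (exbz R : ℂ) ∈
        {z : ℂ | z.im = 1 / Real.cosh R ∧ |z.re - 1| ≤ 1 / Real.cosh R} := by
      refine ⟨exbz_im R, ?_⟩
      rw [coe_re, exbz_re, abs_sub_comm, abs_of_nonneg a1]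
      exact a2
    have e2 : ((exbz (-R) : ℂ) + 2).re = 2 - Real.sinh R / Real.cosh R := by
      rw [add_re, coe_re, exbz_re, Real.sinh_neg, Real.cosh_neg, re_ofNat]
      ring
    have e3 : ((exbz (-R) : ℂ) + 2).im = 1 / Real.cosh R := by
      rw [add_im, coe_im, exbz_im, Real.cosh_neg, im_ofNat, add_zero]
    have m2 : (exbz (-R) : ℂ) + 2 ∈
        {z : ℂ | z.im = 1 / Real.cosh R ∧ |z.re - 1| ≤ 1 / Real.cosh R} := by
      refine ⟨e3, ?_⟩
      rw [e2, abs_of_nonneg (by linarith)]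
      linarith
    have b1 : ∀ z ∈ {z : ℂ | z.im = 1 / Real.cosh R ∧ |z.re - 1| ≤ 1 / Real.cosh R},
        0 < z.im := fun z hz => hz.1 ▸ hy
    have b2 : ∀ z ∈ {z : ℂ | z.im = 1 / Real.cosh R ∧ |z.re - 1| ≤ 1 / Real.cosh R},
        ‖G (exbt z)‖ ≤ B := fun z hz =>
      hB z (b1 z hz) (hz.1.trans_le (exb_y_le R)) (hz.2.trans_eq hz.1.symm)
    have h5 := Convex.norm_image_sub_le_of_norm_hasDerivWithin_le (𝕜 := ℂ) (f := Φ)
      (f' := fun z => G (exbt z)) (C := B)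
      (fun z hz => (hΦ z (b1 z hz)).hasDerivWithinAt) b2 hconv m2 m1
    refine h5.trans (mul_le_mul_of_nonneg_left ?_ ((norm_nonneg _).trans (b2 _ m1)))
    refine (norm_le_abs_re_add_abs_im _).trans ?_
    rw [sub_re, sub_im, e2, e3, coe_re, coe_im, exbz_re, exbz_im, sub_self, abs_zero, add_zero,
      abs_sub_comm, abs_of_nonneg (by linarith)]
    linarith
  have h6 := h3.add_const (2 * G 0)
  rw [zero_add] at h6
  exact tendsto_nhds_unique h1 (h6.congr fun R => (h2 R).symm)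

theorem exb_norm_gs {X : ℝ} (hX : 0 ≤ X) (τ : ℍ) : ‖gs X τ‖ ≤ 1 := by
  rw [gs, Complex.norm_exp, Real.exp_le_one_iff]
  have : (π * I * X * τ : ℂ).re = -(π * X * τ.im) := by simp [mul_re, mul_im]
  rw [this, neg_nonpos]
  have := τ.im_pos
  positivity

theorem exb_integral (k j : ℕ) :
    ∫ s, exbh k s * gs ((k + j : ℕ) : ℝ) (exbz s) = 0 ^ j := by
  obtain ⟨C, hC, hC0, hCz⟩ := exb_cusp_inf k
  obtain ⟨B, hB0, hB⟩ := exb_cusp_one k 0
  have hgs : ∀ τ : ℍ, gs ((k + j : ℕ) : ℝ) τ = exbt τ ^ (k + j) := fun τ => by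
    rw [gs, exbt, ← Complex.exp_nat_mul]
    congr 1
    push_cast
    ring
  have e : ∀ z : ℂ, 0 < z.im → exbt z ^ j * C (exbt z) = exbU k z * exbt z ^ (k + j) :=
    fun z hz => by rw [← hCz z hz]; ring
  have e2 : ∀ s, exbt (exbz s) ^ j * C (exbt (exbz s)) * exbd s =
      2 * (exbh k s * gs ((k + j : ℕ) : ℝ) (exbz s)) := fun s => by
    rw [e _ (exbz s).im_pos, hgs, exbh]
    ring
  have hc : Continuous fun s => 2 * (exbh k s * gs ((k + j : ℕ) : ℝ) (exbz s)) := by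
    refine continuous_const.mul ((exbh_cont k).mul ?_)
    exact Complex.continuous_exp.comp (continuous_const.mul exbz_cont')
  have hi : Integrable fun s => 2 * (exbh k s * gs ((k + j : ℕ) : ℝ) (exbz s)) := by
    refine ((exbh_int k 0).const_mul 2).mono' hc.aestronglyMeasurable
      (Eventually.of_forall fun s => ?_)
    rw [norm_mul, norm_mul, Complex.norm_two, pow_zero, div_one]
    have := exb_norm_gs (X := ((k + j : ℕ) : ℝ)) (Nat.cast_nonneg _) (exbz s)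
    have := mul_le_mul_of_nonneg_left this (norm_nonneg (exbh k s))
    linarith
  have h := exb_value (G := fun t => t ^ j * C t) ((differentiableOn_pow j).mul hC) (B := B)
    (fun z hz hz1 hx => by
      have h1 := hB z hz hz1 hx
      have h2 : ‖exbt z‖ ^ (k + j) ≤ 1 := pow_le_one₀ (norm_nonneg _) (exbt_lt hz).le
      rw [pow_zero, mul_one] at h1
      rw [e z hz, norm_mul, norm_pow]
      exact (mul_le_mul h1 h2 (by positivity) hB0).trans (mul_one B).le)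
    (by simpa only [e2] using hc) (by simpa only [e2] using hi)
  simp only [e2] at h
  rw [integral_const_mul, hC0, mul_one] at h
  exact mul_left_cancel₀ two_ne_zero h

end

/-- The triangular family. -/
theorem exist_triangular (k : ℕ) : ∃ β : SchwartzMap ℝ ℂ, (∀ x, β (-x) = β x) ∧
    (∀ ξ, 𝓕 (fun x => β x) ξ = β ξ) ∧ β (√k : ℝ) = 1 ∧ ∀ m : ℕ, k < m → β (√m : ℝ) = 0 := by
  obtain ⟨β, h1, h2⟩ :=
    exist_schwartz exbz_cont (fun s => (norm_exbz s).le) (exbh_cont k) (exbh_int k)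
  refine ⟨β, fun x => by rw [h1, h1, neg_sq], fun ξ => ?_, ?_, fun m hm => ?_⟩
  · rw [h2, h1]
    simp only [exbh_dual]
    exact integral_neg_eq_self (fun s => exbh k s * gs (ξ ^ 2) (exbz s)) volume
  · rw [h1, Real.sq_sqrt (Nat.cast_nonneg k)]
    simpa using exb_integral k 0
  · obtain ⟨j, rfl⟩ := Nat.exists_eq_add_of_lt hm
    rw [h1, Real.sq_sqrt (Nat.cast_nonneg _), add_assoc, exb_integral, zero_pow j.succ_ne_zero]

end Pool.Agent.Lib.MP_e6abdd_an
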