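import Pool.Agent.Lib.MP_e6abdd_an.GaussA

/-!
From Gaussians to even Schwartz functions.
-/

namespace Pool.Agent.Lib.MP_e6abdd_an

open Complex hiding Gamma
open UpperHalfPlane hiding I
open MeasureTheory Filter Topology CongruenceSubgroup
open scoped Real MatrixGroups ComplexConjugate

open scoped FourierTransform

section

variable {c : ℕ → ℂ} {x : ℕ → ℝ}

theorem gauss_term {δ K : ℝ} (hK : ∀ x ξ : ℝ,
    ‖gauss_k δ x ξ‖ ≤ K * ((1 + x ^ 2) ^ 3)⁻¹ * (1 + ξ ^ 2) ^ 3) (i : ℕ) (ξ : ℝ) :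
    ‖c i * gauss_k δ (x i) ξ‖ ≤ ‖c i‖ * ((1 + x i ^ 2) ^ 3)⁻¹ * (K * (1 + ξ ^ 2) ^ 3) := by
  rw [norm_mul]
  exact (mul_le_mul_of_nonneg_left (hK _ _) (norm_nonneg _)).trans_eq (by ring)

theorem gauss_A_cont (hs : Summable fun i => ‖c i‖ * ((1 + x i ^ 2) ^ 3)⁻¹) {δ : ℝ} (hδ : 0 < δ) :
    Continuous fun ξ => ∑' i, c i * gauss_k δ (x i) ξ := by
  obtain ⟨K, hK0, hK⟩ := gauss_k_bound hδ
  refine continuous_iff_continuousAt.2 fun ξ => ?_
  refine (continuousOn_tsum (s := Metric.ball 0 (|ξ| + 1))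
    (fun i => (continuous_const.mul (gauss_k_cont δ (x i))).continuousOn)
    (hs.mul_right (K * (1 + (|ξ| + 1) ^ 2) ^ 3)) fun i y hy => ?_).continuousAt
      (Metric.isOpen_ball.mem_nhds (by simp))
  refine (gauss_term hK i y).trans ?_
  have h1 : y ^ 2 ≤ (|ξ| + 1) ^ 2 := by
    rw [← sq_abs y]
    have : |y| < |ξ| + 1 := by simpa using hy
    gcongr
  gcongr

theorem gauss_fubini (hs : Summable fun i => ‖c i‖ * ((1 + x i ^ 2) ^ 3)⁻¹) {δ : ℝ} (hδ : 0 < δ)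
    {φ : ℝ → ℂ} (hφ : Continuous φ) (hi : Integrable fun ξ => ‖φ ξ‖ * (1 + ξ ^ 2) ^ 3) :
    (Integrable fun ξ => φ ξ * ∑' i, c i * gauss_k δ (x i) ξ) ∧
      HasSum (fun i => c i * ∫ ξ, φ ξ * gauss_k δ (x i) ξ)
        (∫ ξ, φ ξ * ∑' i, c i * gauss_k δ (x i) ξ) := by
  obtain ⟨K, hK0, hK⟩ := gauss_k_bound hδ
  have h1 : ∀ i ξ, ‖φ ξ * (c i * gauss_k δ (x i) ξ)‖ ≤
      ‖c i‖ * ((1 + x i ^ 2) ^ 3)⁻¹ * K * (‖φ ξ‖ * (1 + ξ ^ 2) ^ 3) := fun i ξ => by
    rw [norm_mul]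
    exact (mul_le_mul_of_nonneg_left (gauss_term hK i ξ) (norm_nonneg _)).trans_eq (by ring)
  have h2 : ∀ i, Integrable fun ξ => φ ξ * (c i * gauss_k δ (x i) ξ) := fun i =>
    (hi.const_mul _).mono' (hφ.mul (continuous_const.mul
      (gauss_k_cont δ (x i)))).aestronglyMeasurable (ae_of_all _ (h1 i))
  refine ⟨(hi.const_mul ((∑' i, ‖c i‖ * ((1 + x i ^ 2) ^ 3)⁻¹) * K)).mono'
    (hφ.mul (gauss_A_cont hs hδ)).aestronglyMeasurable (ae_of_all _ fun ξ => ?_), ?_⟩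
  · rw [norm_mul]
    exact (mul_le_mul_of_nonneg_left (tsum_of_norm_bounded (hs.hasSum.mul_right _)
      fun i => gauss_term hK i ξ) (norm_nonneg _)).trans_eq (by ring)
  · have h3 := hasSum_integral_of_summable_integral_norm h2
      (Summable.of_nonneg_of_le (fun i => integral_nonneg fun _ => norm_nonneg _)
        (fun i => (integral_mono (h2 i).norm (hi.const_mul _) (h1 i)).trans_eq
          (integral_const_mul _ _)) ((hs.mul_right K).mul_right _))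
    simp only [tsum_mul_left] at h3
    simpa only [mul_left_comm (φ _), integral_const_mul] using h3

theorem gauss_odd (hs : Summable fun i => ‖c i‖ * ((1 + x i ^ 2) ^ 3)⁻¹)
    (hg : ∀ z : ℂ, 0 < z.re → HasSum (fun i => c i *
      (cexp (-π * z * x i ^ 2) + z ^ (-1 / 2 : ℂ) * cexp (-π * x i ^ 2 / z))) 0)
    {δ : ℝ} (hδ : 0 < δ) {ξ : ℝ} (hξ : 0 < ξ) :
    ∑' i, c i * gauss_k δ (x i) (-ξ) = -∑' i, c i * gauss_k δ (x i) ξ := by
  have hF : ∀ w : ℂ, 0 < w.re →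
      (Integrable fun ξ : ℝ => cexp (-π * w * ξ ^ 2) * ∑' i, c i * gauss_k δ (x i) ξ) ∧
      ∫ ξ : ℝ, cexp (-π * w * ξ ^ 2) * ∑' i, c i * gauss_k δ (x i) ξ = 0 := fun w hw => by
    have hw0 : w ≠ 0 := fun h => by simp [h] at hw
    have hwi : 0 < w⁻¹.re := by rw [inv_re]; exact div_pos hw (normSq_pos.2 hw0)
    obtain ⟨h1, h2⟩ := gauss_fubini hs hδ (φ := fun ξ : ℝ => cexp (-π * w * ξ ^ 2)) (by fun_prop)
      ((gauss_integrable (mul_pos Real.pi_pos hw)).congr (ae_of_all _ fun ξ => by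
        beta_reduce
        rw [neg_mul (π : ℂ) w, norm_cexp_neg_mul_sq, re_ofReal_mul]))
    refine ⟨h1, h2.unique ?_⟩
    have h3 := (hg (δ ^ 2 + w⁻¹) (by rw [add_re, ← ofReal_pow, ofReal_re]; positivity)).mul_left
      (w⁻¹ ^ (1 / 2 : ℂ))
    simpa only [gauss_k_gauss hδ hw, mul_zero, mul_left_comm (w⁻¹ ^ (1 / 2 : ℂ))] using h3
  have h := gauss_laplace (B := fun ξ : ℝ => cexp (-π * 1 * ξ ^ 2) * ∑' i, c i * gauss_k δ (x i) ξ)
    ((show Continuous fun ξ : ℝ => cexp (-π * 1 * ξ ^ 2) by fun_prop).mul (gauss_A_cont hs hδ))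
    (hF 1 (by simp)).1 (fun u => by
      rw [← (hF (1 + 2 * u * I) (by simp)).2]
      congr 1
      funext ξ
      rw [← mul_assoc, ← Complex.exp_add]
      congr 2
      push_cast
      ring) hξ
  simp only [ofReal_neg, neg_sq, ← mul_add, mul_eq_zero, Complex.exp_ne_zero, false_or] at h
  linear_combination h

theorem gauss_conv {δ : ℝ} (hδ : 0 < δ) {f : ℝ → ℂ} (hi : Integrable f) (hf : 𝓕 f = f) (y : ℝ) :
    ∫ ξ, f ξ * gauss_k δ y ξ =
      cexp (-π * δ ^ 2 * y ^ 2) * f y + ∫ u : ℝ, f (y - δ * u) * cexp (-π * u ^ 2) := by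
  have hδ0 : (δ : ℂ) ≠ 0 := ofReal_ne_zero.2 hδ.ne'
  have e : ∀ ξ : ℝ, f ξ * gauss_k δ y ξ =
      cexp (-π * δ ^ 2 * y ^ 2) * (cexp (((-2 * π * ξ * y : ℝ) : ℂ) * I) * f ξ) +
        (δ : ℂ)⁻¹ * (cexp (((-π * ((y - ξ) / δ) ^ 2 : ℝ) : ℂ)) * f ξ) := fun ξ => by
    rw [gauss_k, sub_eq_add_neg, Complex.exp_add,
      show (-(2 * π * I * ξ * y) : ℂ) = ((-2 * π * ξ * y : ℝ) : ℂ) * I by push_cast; ring]
    push_cast
    ring
  simp only [e]
  rw [integral_add, integral_const_mul, integral_const_mul]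
  · congr 1
    · conv_rhs => rw [← hf, Real.fourier_real_eq_integral_exp_smul]
      rfl
    · have h1 := Measure.integral_comp_mul_left
        (fun v : ℝ => cexp (((-π * (v / δ) ^ 2 : ℝ) : ℂ)) * f (y - v)) δ
      have h2 := integral_sub_left_eq_self
        (fun v : ℝ => cexp (((-π * (v / δ) ^ 2 : ℝ) : ℂ)) * f (y - v)) volume y
      simp only [sub_sub_cancel] at h2
      rw [h2, ← ofReal_inv, ← real_smul, ← abs_of_pos (inv_pos.2 hδ), ← h1]
      congr 1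
      funext u
      rw [mul_div_cancel_left₀ _ hδ.ne', mul_comm]
      push_cast
      rfl
  · exact (hi.bdd_mul (c := 1) (by fun_prop)
      (ae_of_all _ fun _ => (norm_exp_ofReal_mul_I _).le)).const_mul _
  · refine (hi.bdd_mul (c := 1) (by fun_prop) (ae_of_all _ fun ξ => ?_)).const_mul _
    rw [norm_exp_ofReal, Real.exp_le_one_iff, neg_mul, neg_nonpos]
    positivity

theorem gauss_core (hs : Summable fun i => ‖c i‖ * ((1 + x i ^ 2) ^ 3)⁻¹)
    (hg : ∀ z : ℂ, 0 < z.re → HasSum (fun i => c i *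
      (cexp (-π * z * x i ^ 2) + z ^ (-1 / 2 : ℂ) * cexp (-π * x i ^ 2 / z))) 0)
    {f : ℝ → ℂ} (hc : Continuous f) (he : ∀ y, f (-y) = f y) (hf : 𝓕 f = f) {B : ℝ}
    (hB : ∀ y, (1 + y ^ 2) ^ 4 * ‖f y‖ ≤ B) : HasSum (fun i => c i * f (x i)) 0 := by
  have hB0 : 0 ≤ B := le_trans (by positivity) (hB 0)
  have h1 : ∀ y, ‖f y‖ * (1 + y ^ 2) ^ 3 ≤ B * (1 + y ^ 2)⁻¹ := fun y => by
    rw [← div_eq_mul_inv, le_div_iff₀ (by positivity)]
    exact le_of_eq_of_le (by ring) (hB y)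
  have h2 : ∀ y, ‖f y‖ ≤ B * ((1 + y ^ 2) ^ 3)⁻¹ := fun y => by
    rw [← div_eq_mul_inv, le_div_iff₀ (by positivity)]
    exact (h1 y).trans (mul_le_of_le_one_right hB0
      (inv_le_one_of_one_le₀ (by nlinarith [sq_nonneg y])))
  have h3 : Integrable fun y => ‖f y‖ * (1 + y ^ 2) ^ 3 :=
    (integrable_inv_one_add_sq.const_mul B).mono' (by fun_prop) (ae_of_all _ fun y => by
      rw [Real.norm_of_nonneg (by positivity)]; exact h1 y)
  have hi : Integrable f := h3.mono' hc.aestronglyMeasurable (ae_of_all _ fun y =>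
    le_mul_of_one_le_right (norm_nonneg _) (one_le_pow₀ (by nlinarith [sq_nonneg y])))
  have h4 : ∀ δ : ℝ, 0 < δ → ∑' i, c i * (cexp (-π * δ ^ 2 * x i ^ 2) * f (x i) +
      ∫ u : ℝ, f (x i - δ * u) * cexp (-π * u ^ 2)) = 0 := fun δ hδ => by
    obtain ⟨h5, h6⟩ := gauss_fubini hs hδ hc h3
    simp only [gauss_conv hδ hi hf] at h6
    rw [h6.tsum_eq, ← intervalIntegral.integral_Iic_add_Ioi (b := 0) h5.integrableOn
      h5.integrableOn, ← neg_zero, ← integral_comp_neg_Ioi, neg_zero, add_eq_zero_iff_eq_neg,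
      ← integral_neg]
    refine setIntegral_congr_fun measurableSet_Ioi fun ξ hξ => ?_
    simp only [he, gauss_odd hs hg hδ hξ, mul_neg]
  have hG := gauss_integrable Real.pi_pos
  have hn : ∀ u : ℝ, ‖cexp (-π * u ^ 2)‖ = Real.exp (-π * u ^ 2) := fun u => by
    rw [norm_cexp_neg_mul_sq, ofReal_re]
  have h5 : ∀ δ ∈ Set.Ioc (0 : ℝ) 1, ∀ y u : ℝ, ‖f (y - δ * u) * cexp (-π * u ^ 2)‖ ≤
      8 * B * ((1 + y ^ 2) ^ 3)⁻¹ * (Real.exp (-π * u ^ 2) * (1 + u ^ 2) ^ 3) := by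
    intro δ hδ y u
    have h6 : (δ * u) ^ 2 ≤ u ^ 2 := by
      rw [mul_pow]
      exact mul_le_of_le_one_left (sq_nonneg u) (pow_le_one₀ hδ.1.le hδ.2)
    have h7 : ‖f (y - δ * u)‖ ≤ 8 * B * ((1 + y ^ 2) ^ 3)⁻¹ * (1 + u ^ 2) ^ 3 := by
      refine (h2 _).trans ?_
      rw [mul_right_comm, ← div_eq_mul_inv, ← div_eq_mul_inv, div_le_div_iff₀ (by positivity)
        (by positivity)]
      calc B * (1 + y ^ 2) ^ 3 ≤ B * (8 * (1 + (y - δ * u) ^ 2) ^ 3 * (1 + (δ * u) ^ 2) ^ 3) := by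
            gcongr; exact gauss_peetre _ _
        _ ≤ B * (8 * (1 + (y - δ * u) ^ 2) ^ 3 * (1 + u ^ 2) ^ 3) := by gcongr
        _ = _ := by ring
    rw [norm_mul, hn]
    exact (mul_le_mul_of_nonneg_right h7 (Real.exp_pos _).le).trans_eq (by ring)
  have hmem : ∀ᶠ δ in 𝓝[>] (0 : ℝ), δ ∈ Set.Ioc (0 : ℝ) 1 := Ioc_mem_nhdsGT one_pos
  have h6 : Tendsto (fun δ : ℝ => ∑' i, c i * (cexp (-π * δ ^ 2 * x i ^ 2) * f (x i) +
      ∫ u : ℝ, f (x i - δ * u) * cexp (-π * u ^ 2))) (𝓝[>] 0)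
      (𝓝 (∑' i, c i * (2 * f (x i)))) := by
    refine tendsto_tsum_of_dominated_convergence (hs.mul_right
      (B + 8 * B * ∫ u : ℝ, Real.exp (-π * u ^ 2) * (1 + u ^ 2) ^ 3)) (fun i => ?_) ?_
    · refine Tendsto.const_mul _ ?_
      rw [two_mul]
      refine Tendsto.add ?_ ?_
      · exact ((show Continuous fun δ : ℝ => cexp (-π * δ ^ 2 * x i ^ 2) * f (x i) by
          fun_prop).tendsto' 0 _ (by simp)).mono_left nhdsWithin_le_nhds
      · have h7 : f (x i) = ∫ u : ℝ, f (x i) * cexp (-π * u ^ 2) := by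
          rw [integral_const_mul, integral_gaussian_complex (by simpa using Real.pi_pos),
            div_self (ofReal_ne_zero.2 Real.pi_ne_zero), one_cpow, mul_one]
        rw [h7]
        refine tendsto_integral_filter_of_dominated_convergence _
          (Eventually.of_forall fun δ => Continuous.aestronglyMeasurable (by fun_prop))
          (hmem.mono fun δ hδ => ae_of_all _ (h5 δ hδ (x i))) (hG.const_mul _)
          (ae_of_all _ fun u => ?_)
        exact ((show Continuous fun δ : ℝ => f (x i - δ * u) * cexp (-π * u ^ 2) by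
          fun_prop).tendsto' 0 _ (by simp)).mono_left nhdsWithin_le_nhds
    · filter_upwards [hmem] with δ hδ i
      rw [norm_mul, mul_assoc ‖c i‖]
      refine mul_le_mul_of_nonneg_left ((norm_add_le _ _).trans ?_) (norm_nonneg _)
      rw [mul_add]
      refine add_le_add ?_ ?_
      · have h8 : ‖cexp (-π * δ ^ 2 * x i ^ 2)‖ ≤ 1 := by
          rw [show (-π * δ ^ 2 * x i ^ 2 : ℂ) = ((-(π * δ ^ 2 * x i ^ 2) : ℝ) : ℂ) by
            push_cast; ring, norm_exp_ofReal, Real.exp_le_one_iff, neg_nonpos]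
          positivity
        rw [norm_mul, mul_comm _ B]
        exact (mul_le_of_le_one_left (norm_nonneg _) h8).trans (h2 _)
      · exact (norm_integral_le_of_norm_le (hG.const_mul _)
          (ae_of_all _ (h5 δ hδ (x i)))).trans_eq (by rw [integral_const_mul]; ring)
  have h7 : ∑' i, c i * (2 * f (x i)) = 0 :=
    tendsto_nhds_unique h6 (tendsto_const_nhds.congr' (hmem.mono fun δ hδ => (h4 δ hδ.1).symm))
  have h8 : Summable fun i => c i * f (x i) :=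
    (hs.mul_left B).of_norm_bounded fun i => by
      rw [norm_mul]
      exact (mul_le_mul_of_nonneg_left (h2 _) (norm_nonneg _)).trans_eq (by ring)
  simp only [mul_left_comm _ (2 : ℂ), tsum_mul_left, mul_eq_zero, two_ne_zero, false_or] at h7
  exact h7 ▸ h8.hasSum

end

theorem gauss_psi {X : ℝ} (hX : 0 ≤ X) {z : ℂ} (hz : 0 < (I * z).im) :
    psi X ⟨I * z, hz⟩ = cexp (-π * z * (√X : ℝ) ^ 2) +
      z ^ (-1 / 2 : ℂ) * cexp (-π * (√X : ℝ) ^ 2 / z) := by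
  have hz0 : z ≠ 0 := fun h => by simp [h] at hz
  rw [psi, sl, gs, gs, coe_S_smul, ← ofReal_pow, Real.sq_sqrt hX]
  congr 2
  · change π * I * X * (I * z) = _
    linear_combination π * X * z * I_mul_I
  · congr 1
    change -I * (I * z) = _
    linear_combination -z * I_mul_I
  · congr 1
    change π * I * X * (-1 / (I * z)) = _
    field_simp

theorem interp {X : ℝ} (hX : 0 ≤ X) {t : ℂ} {c : ℕ → ℂ} {C : ℝ} (hc : ∀ n, ‖c n‖ ≤ C * (n + 1))
    (h : ∀ τ : ℍ, HasSum (fun n : ℕ => c n * psi n τ) (t * psi X τ))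
    (f : SchwartzMap ℝ ℝ) (he : ∀ x, f (-x) = f x)
    (hf : ∀ ξ, 𝓕 (fun x => (f x : ℂ)) ξ = f ξ) :
    HasSum (fun n : ℕ => c n * f √n) (t * f √X) := by
  have h1 := gauss_core (c := fun n => Nat.casesOn n (-t) c)
    (x := fun n => Nat.casesOn n √X fun m => √m) ?_ ?_ (f := fun x => (f x : ℂ))
    (continuous_ofReal.comp f.continuous) (fun y => by rw [he]) (funext hf)
    (B := 2 ^ 8 * (Finset.Iic (8, 0)).sup (fun m => SchwartzMap.seminorm ℝ m.1 m.2) f) ?_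
  · simpa using (hasSum_nat_add_iff' 1).2 h1
  · rw [← summable_nat_add_iff 1]
    have h2 : Summable fun n : ℕ => C * (1 / ((n + 1 : ℕ) : ℝ) ^ 2) :=
      ((summable_nat_add_iff 1).2 (Real.summable_one_div_nat_pow.2 one_lt_two)).mul_left C
    refine h2.of_nonneg_of_le (fun n => by positivity) fun n => ?_
    change ‖c n‖ * ((1 + √n ^ 2) ^ 3)⁻¹ ≤ _
    rw [Real.sq_sqrt (Nat.cast_nonneg n)]
    refine (mul_le_mul_of_nonneg_right (hc n) (by positivity)).trans_eq ?_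
    push_cast
    field_simp
    ring
  · intro z hz
    have hz' : 0 < (I * z).im := by simpa using hz
    have h2 := h ⟨I * z, hz'⟩
    simp only [gauss_psi hX, gauss_psi (Nat.cast_nonneg _)] at h2
    rw [← hasSum_nat_add_iff' 1]
    simpa using h2
  · intro y
    have h2 := SchwartzMap.one_add_le_sup_seminorm_apply (𝕜 := ℝ) (m := (8, 0)) le_rfl le_rfl f y
    rw [norm_iteratedFDeriv_zero] at h2
    refine le_trans ?_ h2
    rw [norm_real]
    refine mul_le_mul_of_nonneg_right ?_ (norm_nonneg _)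
    rw [show (1 + ‖y‖) ^ 8 = ((1 + ‖y‖) ^ 2) ^ 4 by ring, Real.norm_eq_abs, ← sq_abs y]
    gcongr
    nlinarith [abs_nonneg y]

end Pool.Agent.Lib.MP_e6abdd_an
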