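import Pool.Agent.Lib.MP_e6abdd_an.Defs

/-!
Auxiliary results on Gaussians: bounds, uniqueness of the Laplace transform, the kernel.
-/

namespace Pool.Agent.Lib.MP_e6abdd_an

open Complex hiding Gamma
open MeasureTheory Filter Topology Set
open scoped Real ComplexConjugate FourierTransform

theorem gauss_peetre (x y : ℝ) : (1 + x ^ 2) ^ 3 ≤ 8 * (1 + (x - y) ^ 2) ^ 3 * (1 + y ^ 2) ^ 3 := by
  have h : 1 + x ^ 2 ≤ 2 * (1 + (x - y) ^ 2) * (1 + y ^ 2) := by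
    nlinarith [sq_nonneg (x - 2 * y), mul_nonneg (sq_nonneg (x - y)) (sq_nonneg y)]
  calc (1 + x ^ 2) ^ 3 ≤ (2 * (1 + (x - y) ^ 2) * (1 + y ^ 2)) ^ 3 := by gcongr
    _ = _ := by ring

theorem gauss_decay {a : ℝ} (ha : 0 < a) :
    ∃ K, 0 ≤ K ∧ ∀ x : ℝ, Real.exp (-a * x ^ 2) * (1 + x ^ 2) ^ 3 ≤ K := by
  refine ⟨(1 + 3 / a) ^ 3, by positivity, fun x => ?_⟩
  have h1 := Real.add_one_le_exp (a / 3 * x ^ 2)
  have h2 : 1 + x ^ 2 ≤ (1 + 3 / a) * Real.exp (a / 3 * x ^ 2) := by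
    have h3 : 3 / a * (a / 3 * x ^ 2) = x ^ 2 := by field_simp
    have h4 : 0 < 3 / a := by positivity
    have h5 : 0 ≤ a / 3 * x ^ 2 := by positivity
    nlinarith
  calc Real.exp (-a * x ^ 2) * (1 + x ^ 2) ^ 3
      ≤ Real.exp (-a * x ^ 2) * ((1 + 3 / a) * Real.exp (a / 3 * x ^ 2)) ^ 3 := by gcongr
    _ = (1 + 3 / a) ^ 3 := by
      rw [mul_pow, ← Real.exp_nat_mul, mul_left_comm, ← Real.exp_add]
      simp only [Nat.cast_ofNat, show -a * x ^ 2 + 3 * (a / 3 * x ^ 2) = 0 by ring, Real.exp_zero,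
        mul_one]

theorem gauss_integrable {a : ℝ} (ha : 0 < a) :
    Integrable fun x : ℝ => Real.exp (-a * x ^ 2) * (1 + x ^ 2) ^ 3 := by
  obtain ⟨K, -, hK⟩ := gauss_decay (half_pos ha)
  refine ((integrable_exp_neg_mul_sq (half_pos ha)).mul_const K).mono' (by fun_prop)
    (ae_of_all _ fun x => ?_)
  rw [Real.norm_of_nonneg (by positivity),
    show -a * x ^ 2 = -(a / 2) * x ^ 2 + -(a / 2) * x ^ 2 by ring, Real.exp_add, mul_assoc]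
  exact mul_le_mul_of_nonneg_left (hK x) (Real.exp_pos _).le

/-- Uniqueness: the even part of `B` is determined by the integrals against `exp (-2πi u ξ²)`. -/
theorem gauss_laplace {B : ℝ → ℂ} (hc : Continuous B) (hi : Integrable B)
    (h : ∀ u : ℝ, ∫ ξ : ℝ, cexp (((-2 * π * ξ ^ 2 * u : ℝ) : ℂ) * I) * B ξ = 0) {ξ : ℝ} (hξ : 0 < ξ) :
    B ξ + B (-ξ) = 0 := by
  set D : ℝ → ℂ := fun s => (B √s + B (-√s)) / (2 * √s : ℝ) with hD
  have hDx : ∀ x ∈ Ioi (0 : ℝ), ∀ a : ℂ,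
      ((2 : ℝ) * x ^ ((2 : ℝ) - 1)) • (a * D (x ^ (2 : ℝ))) = a * B x + a * B (-x) := by
    intro x hx a
    have hx' : (x : ℂ) ≠ 0 := ofReal_ne_zero.2 (ne_of_gt hx)
    rw [show (2 : ℝ) - 1 = 1 by norm_num, Real.rpow_one, Real.rpow_two, hD]
    simp only [Real.sqrt_sq (le_of_lt hx), real_smul]
    push_cast
    field_simp
  have hDi : IntegrableOn D (Ioi 0) := by
    rw [← integrableOn_Ioi_comp_rpow_iff D two_ne_zero, abs_two]
    refine (hi.add hi.comp_neg).integrableOn.congr_fun (fun x hx => ?_) measurableSet_Ioi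
    simpa using (hDx x hx 1).symm
  have hF : 𝓕 ((Ioi 0).indicator D) = 0 := by
    funext u
    have h1 : ∀ v : ℝ, cexp (((-2 * π * v * u : ℝ) : ℂ) * I) • (Ioi 0).indicator D v =
        (Ioi 0).indicator (fun v : ℝ => cexp (((-2 * π * v * u : ℝ) : ℂ) * I) * D v) v := fun v => by
      rw [indicator_mul_right, smul_eq_mul]
    have h2 : Integrable fun ξ : ℝ => cexp (((-2 * π * ξ ^ 2 * u : ℝ) : ℂ) * I) * B ξ :=
      hi.bdd_mul (c := 1) (by fun_prop) (ae_of_all _ fun x => (norm_exp_ofReal_mul_I _).le)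
    rw [Real.fourier_real_eq_integral_exp_smul, integral_congr_ae (ae_of_all _ h1),
      integral_indicator measurableSet_Ioi, ← integral_comp_rpow_Ioi_of_pos two_pos,
      setIntegral_congr_fun measurableSet_Ioi fun x hx => hDx x hx _]
    simp only [Real.rpow_two]
    rw [integral_add h2.integrableOn (by simpa using h2.comp_neg.restrict)]
    have h3 := integral_comp_neg_Ioi 0 fun ξ : ℝ => cexp (((-2 * π * ξ ^ 2 * u : ℝ) : ℂ) * I) * B ξ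
    simp only [neg_sq, neg_zero] at h3
    rw [h3, add_comm, intervalIntegral.integral_Iic_add_Ioi h2.integrableOn h2.integrableOn, h]
    rfl
  have hcont : ContinuousAt ((Ioi 0).indicator D) (ξ ^ 2) := by
    have h1 : ContinuousAt D (ξ ^ 2) := by
      refine ContinuousAt.div (by fun_prop) (by fun_prop) ?_
      rw [Real.sqrt_sq hξ.le]
      exact ofReal_ne_zero.2 (by positivity)
    refine h1.congr ?_
    filter_upwards [Ioi_mem_nhds (pow_pos hξ 2)] with s hs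
    rw [indicator_of_mem hs]
  have h4 := ((integrable_indicator_iff measurableSet_Ioi).2 hDi).fourierInv_fourier_eq
    (by rw [hF]; exact integrable_zero _ _ _) hcont
  rw [hF, indicator_of_mem (mem_Ioi.2 (pow_pos hξ 2)), Real.fourierInv_eq] at h4
  simp only [Pi.zero_apply, smul_zero, integral_zero, hD, Real.sqrt_sq hξ.le] at h4
  exact (div_eq_zero_iff.1 h4.symm).resolve_right (ofReal_ne_zero.2 (by positivity))

theorem gauss_sqrt {w z : ℂ} (hw : 0 < w.re) (hz : 0 < z.re) :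
    (w * z) ^ (1 / 2 : ℂ) = w ^ (1 / 2 : ℂ) * z ^ (1 / 2 : ℂ) := by
  have hw0 : w ≠ 0 := fun h => by simp [h] at hw
  have hz0 : z ≠ 0 := fun h => by simp [h] at hz
  have h1 := abs_lt.1 (abs_arg_lt_pi_div_two_iff.2 (Or.inl hw))
  have h2 := abs_lt.1 (abs_arg_lt_pi_div_two_iff.2 (Or.inl hz))
  rw [cpow_def_of_ne_zero (mul_ne_zero hw0 hz0), cpow_def_of_ne_zero hw0, cpow_def_of_ne_zero hz0,
    ← Complex.exp_add, (log_mul_eq_add_log_iff hw0 hz0).2 ⟨by linarith, by linarith⟩, add_mul]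

/-- The kernel: a modulated Gaussian plus its Fourier transform. -/
noncomputable def gauss_k (δ x ξ : ℝ) : ℂ :=
  cexp (-π * δ ^ 2 * x ^ 2 - 2 * π * I * ξ * x) + (δ : ℂ)⁻¹ * cexp (-π * ((x - ξ) / δ) ^ 2)

theorem gauss_k_cont (δ x : ℝ) : Continuous (gauss_k δ x) := by
  unfold gauss_k; fun_prop

theorem gauss_k_bound {δ : ℝ} (hδ : 0 < δ) : ∃ K, 0 ≤ K ∧ ∀ x ξ : ℝ,
    ‖gauss_k δ x ξ‖ ≤ K * ((1 + x ^ 2) ^ 3)⁻¹ * (1 + ξ ^ 2) ^ 3 := by
  obtain ⟨K₁, hK₁, h₁⟩ := gauss_decay (show 0 < π * δ ^ 2 by positivity)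
  obtain ⟨K₂, hK₂, h₂⟩ := gauss_decay (show 0 < π / δ ^ 2 by positivity)
  refine ⟨K₁ + δ⁻¹ * (8 * K₂), by positivity, fun x ξ => ?_⟩
  have e1 : ‖cexp (-π * δ ^ 2 * x ^ 2 - 2 * π * I * ξ * x)‖ = Real.exp (-(π * δ ^ 2) * x ^ 2) := by
    rw [norm_exp]
    congr 1
    simp [← ofReal_pow]
  have e2 : ‖(δ : ℂ)⁻¹ * cexp (-π * ((x - ξ) / δ) ^ 2)‖ =
      δ⁻¹ * Real.exp (-(π / δ ^ 2) * (x - ξ) ^ 2) := by
    rw [norm_mul, norm_inv, norm_real, Real.norm_of_nonneg hδ.le, norm_exp]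
    congr 2
    norm_cast
    ring
  have hx : 0 < (1 + x ^ 2) ^ 3 := by positivity
  have hξ : 1 ≤ (1 + ξ ^ 2) ^ 3 := one_le_pow₀ (by nlinarith [sq_nonneg ξ])
  refine (norm_add_le _ _).trans ?_
  rw [e1, e2, mul_right_comm, ← div_eq_mul_inv, le_div_iff₀ hx, add_mul, add_mul]
  refine add_le_add ((h₁ x).trans (le_mul_of_one_le_right hK₁ hξ)) ?_
  rw [mul_assoc, mul_assoc]
  refine mul_le_mul_of_nonneg_left ?_ (by positivity)
  calc Real.exp (-(π / δ ^ 2) * (x - ξ) ^ 2) * (1 + x ^ 2) ^ 3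
      ≤ Real.exp (-(π / δ ^ 2) * (x - ξ) ^ 2) * (8 * (1 + (x - ξ) ^ 2) ^ 3 * (1 + ξ ^ 2) ^ 3) := by
        gcongr; exact gauss_peetre x ξ
    _ = 8 * (Real.exp (-(π / δ ^ 2) * (x - ξ) ^ 2) * (1 + (x - ξ) ^ 2) ^ 3) * (1 + ξ ^ 2) ^ 3 := by
        ring
    _ ≤ _ := by gcongr; exact h₂ _

theorem gauss_k_gauss {δ : ℝ} (hδ : 0 < δ) {w : ℂ} (hw : 0 < w.re) (x : ℝ) :
    ∫ ξ : ℝ, cexp (-π * w * ξ ^ 2) * gauss_k δ x ξ = w⁻¹ ^ (1 / 2 : ℂ) *
      (cexp (-π * (δ ^ 2 + w⁻¹) * x ^ 2) +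
        (δ ^ 2 + w⁻¹) ^ (-1 / 2 : ℂ) * cexp (-π * x ^ 2 / (δ ^ 2 + w⁻¹))) := by
  have hw0 : w ≠ 0 := fun h => by simp [h] at hw
  have hδ0 : (δ : ℂ) ≠ 0 := ofReal_ne_zero.2 hδ.ne'
  have hπ : (π : ℂ) ≠ 0 := ofReal_ne_zero.2 Real.pi_ne_zero
  have hwi : 0 < w⁻¹.re := by rw [inv_re]; exact div_pos hw (normSq_pos.2 hw0)
  set z : ℂ := δ ^ 2 + w⁻¹ with hz
  have hzr : 0 < z.re := by
    rw [hz, add_re, ← ofReal_pow, ofReal_re]; positivity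
  have hz0 : z ≠ 0 := fun h => by simp [h] at hzr
  have hzi : 0 < z⁻¹.re := by rw [inv_re]; exact div_pos hzr (normSq_pos.2 hz0)
  have hb1 : (-π * w).re < 0 := by
    simpa using mul_pos Real.pi_pos hw
  have hb2 : (-π * (w + (δ ^ 2 : ℂ)⁻¹)).re < 0 := by
    rw [← ofReal_pow, ← ofReal_inv, ← ofReal_neg, re_ofReal_mul, add_re, ofReal_re]
    exact mul_neg_of_neg_of_pos (neg_neg_of_pos Real.pi_pos) (by positivity)
  have e : ∀ ξ : ℝ, cexp (-π * w * ξ ^ 2) * gauss_k δ x ξ =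
      cexp (-π * w * ξ ^ 2 + -(2 * π * I * x) * ξ + -π * δ ^ 2 * x ^ 2) + (δ : ℂ)⁻¹ *
        cexp (-π * (w + (δ ^ 2 : ℂ)⁻¹) * ξ ^ 2 + 2 * π * x / δ ^ 2 * ξ + -π * x ^ 2 / δ ^ 2) := by
    intro ξ
    rw [gauss_k, mul_add, mul_left_comm, ← Complex.exp_add, ← Complex.exp_add]
    congr 1
    · congr 1; ring
    · congr 2; field_simp; ring
  simp only [e]
  rw [integral_add (integrable_cexp_quadratic' hb1 _ _)
    ((integrable_cexp_quadratic' hb2 _ _).const_mul _), integral_const_mul,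
    integral_cexp_quadratic hb1, integral_cexp_quadratic hb2, mul_add (w⁻¹ ^ (1 / 2 : ℂ))]
  have hwz : w + (δ ^ 2 : ℂ)⁻¹ = w * z / δ ^ 2 := by rw [hz]; field_simp
  have e1 : (π / -(-π * w) : ℂ) = w⁻¹ := by field_simp
  have e2 : (π / -(-π * (w + (δ ^ 2 : ℂ)⁻¹)) : ℂ) = (δ ^ 2 : ℝ) * (w⁻¹ * z⁻¹) := by
    rw [hwz]; push_cast; field_simp
  have e3 : (((δ ^ 2 : ℝ) : ℂ) * (w⁻¹ * z⁻¹)) ^ (1 / 2 : ℂ) =
      δ * (w⁻¹ ^ (1 / 2 : ℂ) * z ^ (-1 / 2 : ℂ)) := by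
    have h1 : ((δ ^ 2 : ℝ) : ℂ) ^ (1 / 2 : ℂ) = δ := by
      rw [show (1 / 2 : ℂ) = ((1 / 2 : ℝ) : ℂ) by simp, ← ofReal_cpow (sq_nonneg δ),
        ← Real.sqrt_eq_rpow, Real.sqrt_sq hδ.le]
    have h2 : z⁻¹ ^ (1 / 2 : ℂ) = z ^ (-1 / 2 : ℂ) := by
      rw [inv_cpow _ _ (by rw [Ne, arg_eq_pi_iff]; exact fun h => absurd h.1 (not_lt.2 hzr.le)),
        neg_div, cpow_neg]
    rw [← mul_assoc, gauss_sqrt (by rw [re_ofReal_mul]; positivity) hzi,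
      gauss_sqrt (by rw [ofReal_re]; positivity) hwi, h1, h2, mul_assoc]
  rw [e1, e2, e3]
  congr 1
  · congr 2
    rw [hz]; field_simp
    rw [I_sq]; ring
  · rw [← mul_assoc, ← mul_assoc, inv_mul_cancel₀ hδ0, one_mul, mul_assoc]
    congr 3
    rw [hwz]
    have h3 : (δ : ℂ) ^ 2 = z - w⁻¹ := by rw [hz]; ring
    field_simp
    rw [h3]; field_simp; ring

end Pool.Agent.Lib.MP_e6abdd_an
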