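import Mathlib

/-!
Empirical absolute moments of a sequence that tends to zero in density and whose empirical second
moment stays between two positive constants.
-/

namespace Pool.Agent.Lib.MP_e6abdd_an

open Filter Topology

theorem h2_point {a b δ R : ℝ} (ha : 0 < a) (hab : a < b) (hδ : 0 < δ) (hR : 0 < R) (t : ℝ) :
    |t| ^ a ≤ δ ^ a + R ^ a * (if δ ≤ |t| then (1 : ℝ) else 0) + R ^ (a - b) * |t| ^ b := by
  have h0 := abs_nonneg t
  have p1 : 0 ≤ δ ^ a := by positivity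
  have p2 : 0 ≤ R ^ a := by positivity
  have p3 : 0 ≤ R ^ (a - b) * |t| ^ b := by positivity
  split_ifs with h
  · rcases le_total |t| R with h1 | h1
    · have := Real.rpow_le_rpow h0 h1 ha.le
      linarith
    · have ht : 0 < |t| := hR.trans_le h1
      have e : |t| ^ a = |t| ^ (a - b) * |t| ^ b := by
        rw [← Real.rpow_add ht]; ring_nf
      have := mul_le_mul_of_nonneg_right
        (Real.rpow_le_rpow_of_nonpos hR h1 (show a - b ≤ 0 by linarith))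
        (show 0 ≤ |t| ^ b by positivity)
      linarith
  · have := Real.rpow_le_rpow h0 (not_le.1 h).le ha.le
    linarith

theorem h2_sum {x : ℕ → ℝ} {a b δ R ε : ℝ} (ha : 0 < a) (hab : a < b) (hδ : 0 < δ) (hR : 0 < R)
    {N : ℕ} (h : ∑ n ∈ Finset.range (N + 1), (if δ ≤ |x n| then (1 : ℝ) else 0) ≤ ε * (N + 1)) :
    (∑ n ∈ Finset.range (N + 1), |x n| ^ a) / ((N : ℝ) + 1) ≤
      δ ^ a + R ^ a * ε + R ^ (a - b) * ((∑ n ∈ Finset.range (N + 1), |x n| ^ b) / ((N : ℝ) + 1)) := by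
  have hN : (0 : ℝ) < N + 1 := by positivity
  have h1 := Finset.sum_le_sum fun n (_ : n ∈ Finset.range (N + 1)) => h2_point ha hab hδ hR (x n)
  rw [Finset.sum_add_distrib, Finset.sum_add_distrib, ← Finset.mul_sum, ← Finset.mul_sum,
    Finset.sum_const, Finset.card_range, nsmul_eq_mul] at h1
  have h2 := mul_le_mul_of_nonneg_left h (show 0 ≤ R ^ a by positivity)
  rw [div_le_iff₀ hN, add_mul, add_mul, mul_assoc (R ^ (a - b)), div_mul_cancel₀ _ hN.ne']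
  push_cast at h1
  nlinarith

theorem h2_small {a η : ℝ} (ha : 0 < a) (hη : 0 < η) : ∃ δ : ℝ, 0 < δ ∧ δ ^ a = η :=
  ⟨η ^ a⁻¹, by positivity, Real.rpow_inv_rpow hη.le ha.ne'⟩

theorem h2_neg {a η : ℝ} (ha : a < 0) (hη : 0 < η) : ∃ R : ℝ, 0 < R ∧ R ^ a = η :=
  ⟨η ^ a⁻¹, by positivity, Real.rpow_inv_rpow hη.le ha.ne⟩

theorem h2_low {x : ℕ → ℝ} {A k : ℝ} (hA : 0 < A) (hk : 0 < k) (hk2 : k < 2)
    (hd : ∀ δ > 0, ∀ ε > 0, ∀ᶠ N : ℕ in atTop,
      ∑ n ∈ Finset.range (N + 1), (if δ ≤ |x n| then (1 : ℝ) else 0) ≤ ε * (N + 1))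
    (hu : ∀ᶠ N : ℕ in atTop,
      (∑ n ∈ Finset.range (N + 1), |x n| ^ (2 : ℝ)) / ((N : ℝ) + 1) ≤ A) :
    Tendsto (fun N : ℕ => (∑ n ∈ Finset.range (N + 1), |x n| ^ k) / ((N : ℝ) + 1)) atTop (𝓝 0) := by
  rw [Metric.tendsto_nhds]
  intro η hη
  obtain ⟨δ, hδ, e1⟩ := h2_small hk (show 0 < η / 4 by positivity)
  obtain ⟨R, hR, e2⟩ := h2_neg (show k - 2 < 0 by linarith) (show 0 < η / 4 / A by positivity)
  have hRk : 0 < R ^ k := by positivity
  filter_upwards [hd δ hδ (η / 4 / R ^ k) (by positivity), hu] with N h1 h2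
  have h3 := h2_sum hk hk2 hδ hR h1
  have h4 := mul_le_mul_of_nonneg_left h2 (show 0 ≤ η / 4 / A by positivity)
  rw [e1, e2, mul_div_cancel₀ _ hRk.ne'] at h3
  rw [div_mul_cancel₀ _ hA.ne'] at h4
  rw [Real.dist_eq, sub_zero, abs_of_nonneg (by positivity)]
  linarith

theorem h2_high {x : ℕ → ℝ} {κ k : ℝ} (hκ : 0 < κ) (hk2 : 2 < k)
    (hd : ∀ δ > 0, ∀ ε > 0, ∀ᶠ N : ℕ in atTop,
      ∑ n ∈ Finset.range (N + 1), (if δ ≤ |x n| then (1 : ℝ) else 0) ≤ ε * (N + 1))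
    (hl : ∀ᶠ N : ℕ in atTop,
      κ ≤ (∑ n ∈ Finset.range (N + 1), |x n| ^ (2 : ℝ)) / ((N : ℝ) + 1)) :
    Tendsto (fun N : ℕ => (∑ n ∈ Finset.range (N + 1), |x n| ^ k) / ((N : ℝ) + 1)) atTop atTop := by
  rw [tendsto_atTop]
  intro B
  have hB : 0 < |B| + 1 := by positivity
  obtain ⟨δ, hδ, e1⟩ := h2_small two_pos (show 0 < κ / 3 by positivity)
  obtain ⟨R, hR, e2⟩ := h2_neg (show 2 - k < 0 by linarith)
    (show 0 < κ / 3 / (|B| + 1) by positivity)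
  have hRk : 0 < R ^ (2 : ℝ) := by positivity
  filter_upwards [hd δ hδ (κ / 3 / R ^ (2 : ℝ)) (by positivity), hl] with N h1 h2
  have h3 := h2_sum two_pos hk2 hδ hR h1
  rw [e1, e2, mul_div_cancel₀ _ hRk.ne'] at h3
  by_contra hc
  have h4 := mul_lt_mul_of_pos_left ((not_le.1 hc).trans_le ((le_abs_self B).trans
    (le_add_of_nonneg_right zero_le_one))) (show 0 < κ / 3 / (|B| + 1) by positivity)
  rw [div_mul_cancel₀ _ hB.ne'] at h4
  linarith

end Pool.Agent.Lib.MP_e6abdd_an
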