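import Pool.Agent.Lib.MP_e6abdd_an.H8Fin
import Pool.Agent.Lib.MP_e6abdd_an.H2Tri

/-!
The empirical absolute moments of the rescaled coefficients.
-/

namespace Pool.Agent.Lib.MP_e6abdd_an

open MeasureTheory Filter Topology
open scoped Real FourierTransform

theorem h2_main (b : ℕ → SchwartzMap ℝ ℝ) (he : ∀ n x, b n (-x) = b n x)
    (hf : ∀ n ξ, 𝓕 (fun x => (b n x : ℂ)) ξ = b n ξ)
    (hb : ∀ n m : ℕ, b n √m = if n = m then 1 else 0) {X : ℝ} (hX : 0 < X) (hI : ∀ n : ℤ, X ≠ n)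
    {k : ℝ} (hk : 0 < k) {M : ℕ → ℝ} (hM : ∀ N : ℕ, M N = (∑ n ∈ Finset.range (N + 1),
      |(n : ℝ) ^ (1 / 4 : ℝ) * b n √X| ^ k) / ((N : ℝ) + 1)) :
    (k < 2 → Tendsto M atTop (𝓝 0)) ∧
      (k = 2 → ∃ c C : ℝ, 0 < c ∧ ∀ᶠ N : ℕ in atTop, c ≤ M N ∧ M N ≤ C) ∧
      (2 < k → Tendsto M atTop atTop) := by
  obtain ⟨K, F, hK, hF, h⟩ := exists_F hX b he hf hb
  obtain ⟨κ, A, hκ, hA, ho⟩ := h8_order hX hI hF h
  obtain ⟨c, hc, hbig⟩ := h8_big hκ hA ho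
  have hd := fun δ (hδ : δ > 0) ε (hε : ε > 0) =>
    density (continuous_nz hF.hol) (sing_F hK hF) h hδ hε
  have e : ∀ n : ℕ, |(n : ℝ) ^ (1 / 4 : ℝ) * b n √X| ^ (2 : ℝ) = √n * (b n √X) ^ 2 := fun n => by
    have := h8_sq n 1 (b n √X)
    rw [mul_one, one_pow, one_mul] at this
    rw [Real.rpow_two, sq_abs, this]
  have hu : ∀ᶠ N : ℕ in atTop, (∑ n ∈ Finset.range (N + 1),
      |(n : ℝ) ^ (1 / 4 : ℝ) * b n √X| ^ (2 : ℝ)) / ((N : ℝ) + 1) ≤ A := by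
    filter_upwards [ho] with N a
    have hN : (0 : ℝ) ≤ N := N.cast_nonneg
    have b1 : ∑ n ∈ Finset.range (N + 1), |(n : ℝ) ^ (1 / 4 : ℝ) * b n √X| ^ (2 : ℝ) ≤
        √N * ∑ n ∈ Finset.range (N + 1), (b n √X) ^ 2 := by
      rw [Finset.mul_sum]
      refine Finset.sum_le_sum fun n hn => ?_
      rw [e]
      exact mul_le_mul_of_nonneg_right (Real.sqrt_le_sqrt (by
        exact_mod_cast Nat.lt_succ_iff.1 (Finset.mem_range.1 hn))) (sq_nonneg _)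
    have b2 := mul_le_mul_of_nonneg_left a.2 (Real.sqrt_nonneg (N : ℝ))
    rw [mul_left_comm, Real.mul_self_sqrt hN] at b2
    rw [div_le_iff₀ (by positivity)]
    nlinarith [hκ.trans_le hA]
  have hl : ∀ᶠ N : ℕ in atTop, c / 2 ≤ (∑ n ∈ Finset.range (N + 1),
      |(n : ℝ) ^ (1 / 4 : ℝ) * b n √X| ^ (2 : ℝ)) / ((N : ℝ) + 1) := by
    filter_upwards [hbig (fun _ => 1) 1 zero_le_one (by simp), eventually_ge_atTop 3] with N a h3
    have hN : (3 : ℝ) ≤ N := by exact_mod_cast h3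
    rw [one_mul, le_div_iff₀ (by linarith)] at a
    have b1 : ∑ n ∈ Finset.Icc 2 N, ((n : ℝ) ^ (1 / 4 : ℝ) * 1 * b n √X) ^ 2 ≤
        ∑ n ∈ Finset.range (N + 1), |(n : ℝ) ^ (1 / 4 : ℝ) * b n √X| ^ (2 : ℝ) := by
      simp only [mul_one, Real.rpow_two, sq_abs]
      refine Finset.sum_le_sum_of_subset_of_nonneg (fun n hn => ?_) fun _ _ _ => sq_nonneg _
      rw [Finset.mem_Icc] at hn
      rw [Finset.mem_range]; omega
    rw [le_div_iff₀ (by positivity)]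
    nlinarith
  obtain rfl : M = _ := funext hM
  refine ⟨fun hk2 => h2_low (hκ.trans_le hA) hk hk2 hd hu, ?_,
    fun hk2 => h2_high (half_pos hc) hk2 hd hl⟩
  rintro rfl
  exact ⟨c / 2, A, half_pos hc, hl.and hu⟩

end Pool.Agent.Lib.MP_e6abdd_an
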