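import Mathlib

/-!
A lower bound for the number of coprime pairs in a box.
-/

namespace Pool.Agent.Lib.MP_e6abdd_an

open Finset

theorem h8_tel (n : ℕ) :
    ∑ i ∈ range n, (1 : ℝ) / (2 * i + 3) ^ 2 ≤ 1 / 4 - 1 / (4 * ((n : ℝ) + 1)) := by
  induction n with
  | zero => simp
  | succ n ih =>
    rw [sum_range_succ]
    push_cast
    have h : (1 : ℝ) / (2 * n + 3) ^ 2 ≤ 1 / (4 * (n + 1)) - 1 / (4 * (n + 1 + 1)) := by
      rw [div_sub_div _ _ (by positivity) (by positivity), div_le_div_iff₀ (by positivity)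
        (by positivity)]
      have : (0 : ℝ) ≤ n := n.cast_nonneg
      nlinarith [mul_nonneg this this]
    linarith

theorem h8_count (m : ℕ) : ∃ s : Finset (ℕ × ℕ), 80 * (m : ℝ) ^ 2 ≤ s.card ∧
    ∀ v ∈ s, 1 ≤ v.1 ∧ v.1 ≤ 2 * m ∧ 20 * m < v.2 ∧ v.2 ≤ 200 * m ∧ v.1.Coprime (2 * v.2) := by
  let P : Finset (ℕ × ℕ) := (range m).image (fun j => 2 * j + 1) ×ˢ Ioc (20 * m) (200 * m)
  have hP : P.card = 180 * m ^ 2 := by
    rw [card_product, card_image_of_injective _ (fun a b h => by simpa using h), card_range,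
      Nat.card_Ioc, show 200 * m - 20 * m = 180 * m by omega]
    ring
  let B : ℕ → Finset (ℕ × ℕ) := fun i =>
    (Ioc 0 (2 * m)).filter (2 * i + 3 ∣ ·) ×ˢ (Ioc 0 (200 * m)).filter (2 * i + 3 ∣ ·)
  have hB : ∀ i, ((B i).card : ℝ) ≤ 400 * m ^ 2 * (1 / (2 * i + 3) ^ 2) := fun i => by
    rw [card_product, Nat.Ioc_filter_dvd_card_eq_div, Nat.Ioc_filter_dvd_card_eq_div, Nat.cast_mul]
    refine (mul_le_mul Nat.cast_div_le Nat.cast_div_le (by positivity) (by positivity)).trans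
      (le_of_eq ?_)
    push_cast
    field_simp
    ring
  refine ⟨P.filter fun v => v.1.Coprime v.2, ?_, fun v hv => ?_⟩
  · have h1 : P.filter (fun v => ¬ v.1.Coprime v.2) ⊆ (range m).biUnion B := fun v hv => by
      simp only [P, mem_filter, mem_product, mem_image, mem_range, mem_Ioc] at hv
      obtain ⟨⟨⟨j, hj, e⟩, h2, h3⟩, h4⟩ := hv
      have h5 : Odd (Nat.gcd v.1 v.2) := Odd.of_dvd_nat ⟨j, e.symm⟩ (Nat.gcd_dvd_left _ _)
      obtain ⟨r, hr⟩ := h5
      have h6 : Nat.gcd v.1 v.2 ≤ v.1 := Nat.gcd_le_left _ (by omega)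
      have h7 : Nat.gcd v.1 v.2 ≠ 1 := h4
      have h8 : 2 * (r - 1) + 3 = Nat.gcd v.1 v.2 := by omega
      simp only [B, mem_biUnion, mem_range, mem_product, mem_filter, mem_Ioc]
      exact ⟨r - 1, by omega, ⟨⟨by omega, by omega⟩, h8 ▸ Nat.gcd_dvd_left _ _⟩,
        ⟨by omega, h3⟩, h8 ▸ Nat.gcd_dvd_right _ _⟩
    have h2 : ((P.filter fun v => ¬ v.1.Coprime v.2).card : ℝ) ≤ 100 * m ^ 2 := by
      have h3 : ((P.filter fun v => ¬ v.1.Coprime v.2).card : ℝ) ≤
          ∑ i ∈ range m, ((B i).card : ℝ) := by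
        exact_mod_cast (card_le_card h1).trans card_biUnion_le
      refine h3.trans ((sum_le_sum fun i _ => hB i).trans ?_)
      rw [← mul_sum]
      have h4 := h8_tel m
      have h5 : (0 : ℝ) ≤ 1 / (4 * (m + 1)) := by positivity
      nlinarith [sq_nonneg (m : ℝ)]
    have h3 := card_filter_add_card_filter_not (s := P) fun v => v.1.Coprime v.2
    rw [hP] at h3
    have h4 := congrArg (Nat.cast : ℕ → ℝ) h3
    push_cast at h4
    linarith
  · simp only [P, mem_filter, mem_product, mem_image, mem_range, mem_Ioc] at hv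
    obtain ⟨⟨⟨j, hj, e⟩, h2, h3⟩, h4⟩ := hv
    exact ⟨by omega, by omega, h2, h3,
      Nat.Coprime.mul_right ((Nat.coprime_two_right).2 ⟨j, e.symm⟩) h4⟩

end Pool.Agent.Lib.MP_e6abdd_an
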