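import Pool.Agent.Lib.MP_e6abdd_an.Coc

/-!
A pointwise bound for the cocycle at points that lie close to a much later cusp.
-/

namespace Pool.Agent.Lib.MP_e6abdd_an

open Complex hiding Gamma
open UpperHalfPlane hiding I
open MeasureTheory Filter Topology CongruenceSubgroup
open scoped Real MatrixGroups ComplexConjugate

open ModularGroup (S T)

variable {X : ℝ} {τ : ℍ}

theorem h8_hgt_le {p q : ℤ} {D : ℝ} (hD : 0 < D) (h : D ≤ |p * τ.re + q|) :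
    hgt p q τ ≤ τ.im / D ^ 2 := by
  rw [hgt, tile_normSq]
  refine div_le_div_of_nonneg_left τ.im_pos.le (by positivity) ?_
  have := pow_le_pow_left₀ hD.le h 2
  rw [sq_abs] at this
  nlinarith [sq_nonneg ((p : ℝ) * τ.im)]

theorem h8_det {p q c d : ℤ} (h : p * d - q * c ≠ 0) (x : ℝ) :
    1 ≤ |(p : ℝ)| * |c * x + d| + |(c : ℝ)| * |p * x + q| := by
  have h1 : (1 : ℝ) ≤ |((p * d - q * c : ℤ) : ℝ)| := by exact_mod_cast Int.one_le_abs h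
  have e : ((p * d - q * c : ℤ) : ℝ) = p * (c * x + d) - c * (p * x + q) := by push_cast; ring
  rw [e] at h1
  rw [← abs_mul, ← abs_mul]
  exact h1.trans (abs_sub _ _)

theorem h8_far {p q c d : ℤ} (h : IsCoprime c d) (h1 : |(p : ℝ)| < |(c : ℝ)|)
    (hpq : IsCoprime p q) (h2 : |(p : ℝ)| * |c * τ.re + d| ≤ 1 / 2) :
    hgt p q τ ≤ 4 * (c ^ 2 * τ.im) := by
  have hc : 0 < |(c : ℝ)| := (abs_nonneg _).trans_lt h1
  have h3 : p * d - q * c ≠ 0 := fun h0 => by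
    have h4 : c ∣ p := h.dvd_of_dvd_mul_right ⟨q, by linarith⟩
    have h5 : |p| < |c| := by exact_mod_cast h1
    have h6 : p = 0 := Int.eq_zero_of_abs_lt_dvd ((abs_dvd c p).2 h4) h5
    subst h6
    have h7 : q ≠ 0 := by rintro rfl; exact not_isCoprime_zero_zero hpq
    have h8 : c ≠ 0 := by rintro rfl; simp at hc
    exact mul_ne_zero h7 h8 (by linarith)
  have h4 := h8_det h3 τ.re
  refine (h8_hgt_le (D := 1 / (2 * |(c : ℝ)|)) (by positivity) ?_).trans (le_of_eq ?_)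
  · rw [div_le_iff₀ (by positivity)]; nlinarith
  · rw [← sq_abs (c : ℝ)]; field_simp; norm_num

theorem h8_root {h η : ℝ} (h0 : 0 ≤ h) (hη : 0 ≤ η) (h1 : h ≤ η ^ 4) : h ^ (1 / 4 : ℝ) ≤ η := by
  refine (Real.rpow_le_rpow h0 h1 (by norm_num)).trans (le_of_eq ?_)
  rw [← Real.rpow_natCast, ← Real.rpow_mul hη]; norm_num

/-- All cusps of denominator at most `5 M` have height at most `η ^ 4`. -/
def H8Low (τ : ℍ) (M η : ℝ) : Prop :=
  ∀ p q : ℤ, IsCoprime p q → |(p : ℝ)| ≤ 5 * M → hgt p q τ ≤ η ^ 4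

structure H8St (τ : ℍ) (c d : ℤ) (M η : ℝ) : Prop where
  cop : IsCoprime c d
  le : 2 * |(c : ℝ)| ≤ M
  near : |(c : ℝ)| * |c * τ.re + d| ≤ 4 / 3
  hgt : hgt c d τ ≤ 9 * (M ^ 2 * τ.im)
  low : H8Low τ M η

theorem h8_nz_u (hX : 0 < X) : ∃ C : ℝ, 0 ≤ C ∧ ∀ (τ : ℍ) (M η : ℝ), 0 ≤ η → H8Low τ M η →
    ∀ δ : SL(2, ℤ), 2 * |(δ 1 0 : ℝ)| ≤ M → hgt (δ 1 0) (δ 1 1) τ ≤ 9 * (M ^ 2 * τ.im) →
    ‖nz (fun w : ℍ => cocU X w) (δ • τ)‖ ≤ C * η := by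
  obtain ⟨C, hC0, hC⟩ := coc_norm_u hX
  refine ⟨2 * C, by positivity, fun τ M η hη hl δ hc hh => ?_⟩
  have hw := (δ • τ).im_pos
  have hM : 0 ≤ M := le_trans (by positivity) hc
  have hq : 0 < (δ • τ).im ^ (1 / 4 : ℝ) := by positivity
  have h1 : (δ • τ).im ^ (1 / 4 : ℝ) ≤ η := by
    refine h8_root hw.le hη ?_
    rw [im_SL_smul]
    exact hl _ _ (δ.isCoprime_row 1) (by linarith [abs_nonneg (δ 1 0 : ℝ)])
  have h2 := hC (δ • τ : ℍ) hw (η / (δ • τ).im ^ (1 / 4 : ℝ)) (by positivity) ?_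
  · rw [coc_norm_nz]
    calc _ ≤ (δ • τ).im ^ (1 / 4 : ℝ) * (C * (1 + η / (δ • τ).im ^ (1 / 4 : ℝ))) :=
          mul_le_mul_of_nonneg_left h2 hq.le
      _ = C * ((δ • τ).im ^ (1 / 4 : ℝ) + η) := by field_simp
      _ ≤ C * (η + η) := mul_le_mul_of_nonneg_left (by linarith) hC0
      _ = _ := by ring
  intro i hi
  have h3 := coc_nz_gs hX (S • aff 1 i (δ • τ))
  rw [← coc_nz_sl, coc_norm_nz, coc_im_S, hgt_smul, aff_im one_pos, one_mul, coc_sl_gs,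
    coc_coe_aff, ofReal_intCast] at h3
  rw [le_div_iff₀ hq, mul_comm]
  have hdet : δ 0 0 * δ 1 1 - δ 0 1 * δ 1 0 = 1 := tile_det δ
  refine h3.trans (h8_root (maj_hgt_nonneg _ _ _) hη
    (hl _ _ ⟨δ 1 1, -δ 1 0, by linear_combination hdet⟩ ?_))
  have h4 := coc_shift δ τ hi
  have h5 : (2 * |(δ 1 0 : ℝ)|) ^ 2 ≤ M ^ 2 := pow_le_pow_left₀ (by positivity) hc 2
  rw [mul_pow, sq_abs] at h5
  have h6 := mul_le_mul_of_nonneg_right h5 τ.im_pos.le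
  have h7 : 0 ≤ M ^ 2 * τ.im := mul_nonneg (sq_nonneg _) τ.im_pos.le
  refine abs_le_of_sq_le_sq' (le_of_mul_le_mul_right ?_ τ.im_pos) (by positivity) |> abs_le.2
  nlinarith

theorem h8_step (hX : 0 < X) : ∃ C : ℝ, 0 ≤ C ∧ ∀ (τ : ℍ) (c d : ℤ) (M η : ℝ), 0 ≤ η →
    H8St τ c d M η → c ≠ 0 → ∃ c' d' : ℤ, H8St τ c' d' |(c : ℝ)| η ∧
      ‖nz (cocKK X c d) τ - nz (cocKK X c' d') τ‖ ≤ C * η := by
  obtain ⟨C, hC0, hC⟩ := h8_nz_u hX
  refine ⟨2 + C, by positivity, fun τ c d M η hη h hc0 => ?_⟩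
  obtain ⟨δ, rfl, rfl, ha⟩ := coc_row h.cop hc0
  have hc : 0 < |(δ 1 0 : ℝ)| := abs_pos.2 (by exact_mod_cast hc0)
  have h1 : 2 * |(δ 0 0 : ℝ)| ≤ |(δ 1 0 : ℝ)| := by
    have : 2 * |δ 0 0| ≤ |δ 1 0| := by rw [Int.abs_eq_natAbs, Int.abs_eq_natAbs]; omega
    exact_mod_cast this
  have hdet : δ 0 0 * δ 1 1 - δ 0 1 * δ 1 0 = 1 := tile_det δ
  have h2 := h8_det (p := δ 0 0) (q := δ 0 1) (c := δ 1 0) (d := δ 1 1) (by omega) τ.re
  have h3 : |(δ 1 0 : ℝ)| * |δ 0 0 * τ.re + δ 0 1| ≤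
      1 + |(δ 0 0 : ℝ)| * |δ 1 0 * τ.re + δ 1 1| := by
    have e : (δ 1 0 : ℝ) * (δ 0 0 * τ.re + δ 0 1) = δ 0 0 * (δ 1 0 * τ.re + δ 1 1) - 1 := by
      have : (δ 0 0 : ℝ) * δ 1 1 - δ 0 1 * δ 1 0 = 1 := by exact_mod_cast hdet
      linear_combination -this
    rw [← abs_mul, ← abs_mul, e]
    linarith [abs_sub (δ 0 0 * (δ 1 0 * τ.re + δ 1 1) : ℝ) 1, abs_one (α := ℝ)]
  have hn := h.near
  have hle := h.le
  have a0 := abs_nonneg (δ 0 0 : ℝ)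
  have a1 := abs_nonneg (δ 1 0 * τ.re + δ 1 1 : ℝ)
  have a2 := abs_nonneg (δ 0 0 * τ.re + δ 0 1 : ℝ)
  have h4 : |(δ 0 0 : ℝ)| * |δ 1 0 * τ.re + δ 1 1| ≤ 2 / 3 := by nlinarith
  have h5 : hgt (δ 0 0) (δ 0 1) τ ≤ 9 * (|(δ 1 0 : ℝ)| ^ 2 * τ.im) := by
    refine (h8_hgt_le (D := 1 / (3 * |(δ 1 0 : ℝ)|)) (by positivity) ?_).trans (le_of_eq ?_)
    · rw [div_le_iff₀ (by positivity)]; nlinarith
    · field_simp; norm_num
  have h6 : |(δ 1 0 : ℝ)| ≤ M := by linarith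
  refine ⟨δ 0 0, δ 0 1, ⟨δ.isCoprime_row 0, h1, by nlinarith, h5,
    fun p q k1 k2 => h.low p q k1 (by linarith)⟩, ?_⟩
  have e0 : ‖nz (cocKK X (δ 1 0) (δ 1 1)) τ - nz (cocKK X (δ 0 0) (δ 0 1)) τ‖ = cocN X δ τ := by
    simp only [cocN, nz, mul_sub]
  have h0' : 0 ≤ C * η := by positivity
  have e : ∀ j, (S * δ) 1 j = δ 0 j := fun j => by
    simp [Matrix.mul_apply, Fin.sum_univ_two, ModularGroup.coe_S]
  rw [e0]
  rcases coc_n_cases hX δ τ with k | k | k <;> rw [k]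
  · have k1 := coc_nz_psi X (δ • τ)
    have k2 := coc_nz_gs hX (δ • τ)
    have k3 := coc_nz_gs hX (S • δ • τ)
    rw [im_SL_smul] at k2
    rw [← mul_smul, im_SL_smul, e, e, mul_smul] at k3
    have k4 := h8_root (maj_hgt_nonneg _ _ _) hη (h.low _ _ (δ.isCoprime_row 0) (by linarith))
    have k5 := h8_root (maj_hgt_nonneg _ _ _) hη (h.low _ _ (δ.isCoprime_row 1) (by linarith))
    linarith
  · have := hC τ M η hη h.low (S * δ) (by rw [e]; linarith) (by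
      rw [e, e]
      exact h5.trans (by have := τ.im_pos; gcongr))
    linarith
  · have := hC τ M η hη h.low δ hle h.hgt
    linarith

theorem h8_chain (hX : 0 < X) : ∃ A : ℝ, 0 ≤ A ∧ ∀ (τ : ℍ) (c d : ℤ) (M η t : ℝ), 0 ≤ η → 0 ≤ t →
    H8St τ c d M η → c ^ 2 * τ.im ≤ t ^ 4 → ‖nz (cocKK X c d) τ‖ ≤ A * (η + 4 * t) := by
  obtain ⟨C, hC0, hC⟩ := h8_step hX
  have it : ∀ (τ : ℍ) (η : ℝ), 0 ≤ η → ∀ (n : ℕ) (c d : ℤ) (M : ℝ), H8St τ c d M η →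
      ∃ (c' d' : ℤ) (M' : ℝ), H8St τ c' d' M' η ∧
        ‖nz (cocKK X c d) τ - nz (cocKK X c' d') τ‖ ≤ n * (C * η) ∧ (c' = 0 ∨ 2 ^ n * M' ≤ M) := by
    intro τ η hη n
    induction n with
    | zero => exact fun c d M h => ⟨c, d, M, h, by simp, by simp⟩
    | succ n ih =>
      intro c d M h
      rcases eq_or_ne c 0 with rfl | hc
      · exact ⟨0, d, M, h, by simp; positivity, .inl rfl⟩
      obtain ⟨c1, d1, h1, h2⟩ := hC τ c d M η hη h hc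
      obtain ⟨c2, d2, M2, h3, h4, h5⟩ := ih c1 d1 _ h1
      refine ⟨c2, d2, M2, h3, ?_, h5.imp_right fun k => ?_⟩
      · refine (norm_sub_le_norm_sub_add_norm_sub _ (nz (cocKK X c1 d1) τ) _).trans ?_
        push_cast; linarith
      · rw [pow_succ]; linarith [h.le]
  refine ⟨5 * C, by positivity, fun τ c d => ?_⟩
  induction hn : c.natAbs using Nat.strong_induction_on generalizing c d with
  | _ n ih =>
    intro M η t hη ht h hc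
    have z : ∀ d, nz (cocKK X 0 d) τ = 0 := fun d => by simp [coc_kk_zero, nz]
    rcases eq_or_ne c 0 with rfl | hc0
    · rw [z, norm_zero]; positivity
    obtain ⟨c1, d1, h1, h2⟩ := hC τ c d M η hη h hc0
    obtain ⟨c2, d2, M2, h3, h4, h5⟩ := it τ η hη 4 c1 d1 _ h1
    have h6 := norm_sub_le_norm_sub_add_norm_sub (nz (cocKK X c d) τ) (nz (cocKK X c1 d1) τ)
      (nz (cocKK X c2 d2) τ)
    have h7 := norm_le_norm_add_norm_sub' (nz (cocKK X c d) τ) (nz (cocKK X c2 d2) τ)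
    have h8 : 0 ≤ C * t := by positivity
    push_cast at h4
    rcases h5 with rfl | h5
    · have h9 := congrArg norm (z d2)
      rw [norm_zero] at h9
      nlinarith
    have hc1 : 0 < |(c : ℝ)| := abs_pos.2 (by exact_mod_cast hc0)
    have k1 := h3.le
    have k2 := abs_nonneg (c2 : ℝ)
    have k3 : 32 * |(c2 : ℝ)| ≤ |(c : ℝ)| := by linarith
    have k4 : c2.natAbs < n := by
      have : |c2| < |c| := by exact_mod_cast (show |(c2 : ℝ)| < |(c : ℝ)| by linarith)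
      rw [Int.abs_eq_natAbs, Int.abs_eq_natAbs] at this
      omega
    have k5 := pow_le_pow_left₀ (by positivity) k3 2
    rw [mul_pow, sq_abs, sq_abs] at k5
    have k6 := mul_le_mul_of_nonneg_right k5 τ.im_pos.le
    have k7 : 0 ≤ t ^ 4 := by positivity
    have k8 := ih _ k4 c2 d2 rfl M2 (2 * t) (t / 2) (by positivity) (by positivity)
      ⟨h3.cop, h3.le, h3.near, h3.hgt, fun p q a1 a2 => by
        have := h8_far (τ := τ) h.cop (p := p) (q := q) (by linarith) a1 (by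
          nlinarith [h.near, abs_nonneg (c * τ.re + d : ℝ), abs_nonneg (p : ℝ)])
        nlinarith⟩ (by nlinarith)
    nlinarith

/-- The cocycle at the top row of `γ` is small near the cusp of the bottom row. -/
theorem h8_err (hX : 0 < X) : ∃ A : ℝ, 0 ≤ A ∧ ∀ (τ : ℍ) (t : ℝ), 0 ≤ t →
    ∀ γ ∈ Subgroup.closure ({S, T ^ 2} : Set SL(2, ℤ)), γ 0 0 ≠ 0 →
    20 * |(γ 0 0 : ℝ)| ≤ |(γ 1 0 : ℝ)| → |(γ 1 0 : ℝ)| * |γ 1 0 * τ.re + γ 1 1| ≤ 1 →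
    (γ 1 0 : ℝ) ^ 2 * τ.im ≤ t ^ 4 → ‖nz (cocKK X (γ 0 0) (γ 0 1)) τ‖ ≤ A * t := by
  obtain ⟨A, hA0, hA⟩ := h8_chain hX
  refine ⟨4 + 6 * A, by positivity, fun τ t ht γ hγ ha h1 h2 h3 => ?_⟩
  obtain ⟨k, hk⟩ : ∃ k : ℤ, |-γ 1 0 + 2 * k * γ 0 0| ≤ |γ 0 0| := by
    have hpos : 0 < (2 * γ 0 0).natAbs := Int.natAbs_pos.2 (by omega)
    obtain ⟨k, hk⟩ : 2 * γ 0 0 ∣ γ 1 0 - Int.bmod (γ 1 0) (2 * γ 0 0).natAbs :=
      Int.natAbs_dvd.1 Int.dvd_self_sub_bmod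
    have h3 := @Int.le_bmod (γ 1 0) _ hpos
    have h4 := @Int.bmod_lt (γ 1 0) _ hpos
    refine ⟨k, ?_⟩
    rw [show -γ 1 0 + 2 * k * γ 0 0 = -Int.bmod (γ 1 0) (2 * γ 0 0).natAbs by linarith,
      Int.abs_eq_natAbs, Int.abs_eq_natAbs]
    omega
  have hS : S ∈ Subgroup.closure ({S, T ^ 2} : Set SL(2, ℤ)) := Subgroup.subset_closure (by simp)
  have hT : T ^ 2 ∈ Subgroup.closure ({S, T ^ 2} : Set SL(2, ℤ)) :=
    Subgroup.subset_closure (by simp)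
  set δ : SL(2, ℤ) := (T ^ 2) ^ k * S * γ with hδ
  have eT : (T ^ 2 : SL(2, ℤ)) ^ k = T ^ (2 * k) := by rw [zpow_mul]; rfl
  have e1 : ∀ j, δ 1 j = γ 0 j := fun j => by
    simp [hδ, eT, Matrix.mul_apply, Fin.sum_univ_two, ModularGroup.coe_S, ModularGroup.coe_T_zpow]
  have e0 : ∀ j, δ 0 j = -γ 1 j + 2 * k * γ 0 j := fun j => by
    simp [hδ, eT, Matrix.mul_apply, Fin.sum_univ_two, ModularGroup.coe_S, ModularGroup.coe_T_zpow]
    ring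
  have hm := coc_n_mul hX (mul_mem (mul_mem (zpow_mem hT k) hS) hγ) 1 τ
  rw [one_mul, ← hδ] at hm
  have hp : cocN X 1 (δ • τ) = ‖nz (psi X) (δ • τ)‖ := by
    have h2 : ∀ w, cocKK X 1 0 w = psi X w := fun w => by
      simpa [coc_kk_zero, sl] using coc_kk_S hX (c := 0) (d := 1) isCoprime_one_right w
    rw [cocN, ← norm_neg]
    simp [coc_kk_zero, h2, nz]
  have ha1 : 0 < |(γ 0 0 : ℝ)| := abs_pos.2 (by exact_mod_cast ha)
  have hk' : |(δ 0 0 : ℝ)| ≤ |(γ 0 0 : ℝ)| := by rw [e0]; exact_mod_cast hk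
  have b1 := abs_nonneg (γ 1 0 * τ.re + γ 1 1 : ℝ)
  have low : H8Low τ (2 * |(γ 0 0 : ℝ)|) (2 * t) := fun p q a1 a2 => by
    have := h8_far (τ := τ) (γ.isCoprime_row 1) (p := p) (q := q) (by linarith) a1 (by
      nlinarith [abs_nonneg (p : ℝ)])
    nlinarith [pow_nonneg ht 4]
  have tri : ∀ σ : SL(2, ℤ), |(σ 1 0 : ℝ)| * |σ 0 0 * τ.re + σ 0 1| ≤
      1 + |(σ 0 0 : ℝ)| * |σ 1 0 * τ.re + σ 1 1| := fun σ => by
    have e : (σ 1 0 : ℝ) * (σ 0 0 * τ.re + σ 0 1) = σ 0 0 * (σ 1 0 * τ.re + σ 1 1) - 1 := by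
      have : (σ 0 0 : ℝ) * σ 1 1 - σ 0 1 * σ 1 0 = 1 := by exact_mod_cast tile_det σ
      linear_combination -this
    rw [← abs_mul, ← abs_mul, e]
    linarith [abs_sub (σ 0 0 * (σ 1 0 * τ.re + σ 1 1) : ℝ) 1, abs_one (α := ℝ)]
  have t1 := tri γ
  have t2 := tri δ
  have t3 := h8_det (p := δ 0 0) (q := δ 0 1) (c := δ 1 0) (d := δ 1 1)
    (by have := tile_det δ; omega) τ.re
  rw [e1, e1] at t2 t3
  have b2 := abs_nonneg (γ 0 0 * τ.re + γ 0 1 : ℝ)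
  have b3 := abs_nonneg (δ 0 0 * τ.re + δ 0 1 : ℝ)
  have b4 := abs_nonneg (δ 0 0 : ℝ)
  have t4 : |(γ 0 0 : ℝ)| * |γ 0 0 * τ.re + γ 0 1| ≤ 1 / 10 := by nlinarith
  have t5 : |(δ 0 0 : ℝ)| * |γ 0 0 * τ.re + γ 0 1| ≤ 1 / 10 := by nlinarith
  have t6 := hA τ (δ 0 0) (δ 0 1) _ (2 * t) t (by positivity) ht
    ⟨δ.isCoprime_row 0, by linarith, by nlinarith, by
      refine (h8_hgt_le (D := 1 / (6 * |(γ 0 0 : ℝ)|)) (by positivity) ?_).trans (le_of_eq ?_)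
      · rw [div_le_iff₀ (by positivity)]; nlinarith
      · field_simp; norm_num, low⟩ (by
      refine le_trans (mul_le_mul_of_nonneg_right ?_ τ.im_pos.le) h3
      exact sq_le_sq.2 (by linarith))
  have e : ∀ j, (S * δ) 1 j = δ 0 j := fun j => by
    simp [Matrix.mul_apply, Fin.sum_univ_two, ModularGroup.coe_S]
  have k1 := coc_nz_psi X (δ • τ)
  have k2 := coc_nz_gs hX (δ • τ)
  have k3 := coc_nz_gs hX (S • δ • τ)
  rw [im_SL_smul] at k2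
  rw [← mul_smul, im_SL_smul, e, e, mul_smul] at k3
  have k4 := h8_root (maj_hgt_nonneg _ _ _) (by positivity)
    (low _ _ (δ.isCoprime_row 0) (by linarith))
  have k5 := h8_root (maj_hgt_nonneg _ _ _) (by positivity)
    (low _ _ (δ.isCoprime_row 1) (by rw [e1]; linarith))
  have k6 : ‖nz (cocKK X (γ 0 0) (γ 0 1)) τ - nz (cocKK X (δ 0 0) (δ 0 1)) τ‖ = cocN X δ τ := by
    simp only [cocN, nz, mul_sub, e1]
  have k7 := norm_le_norm_add_norm_sub' (nz (cocKK X (γ 0 0) (γ 0 1)) τ)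
    (nz (cocKK X (δ 0 0) (δ 0 1)) τ)
  nlinarith

end Pool.Agent.Lib.MP_e6abdd_an
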