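import Pool.Agent.Lib.MP_e6abdd_an.H8Mom

/-!
Empirical second moments and weak limits of the rescaled coefficients.
-/

namespace Pool.Agent.Lib.MP_e6abdd_an

open MeasureTheory Filter Topology
open scoped Real FourierTransform BoundedContinuousFunction

theorem h8_weak {x : ℕ → ℝ} (h : ∀ δ > 0, ∀ ε > 0, ∀ᶠ N : ℕ in atTop,
    ∑ n ∈ Finset.Icc 2 N, (if δ ≤ |x n| then (1 : ℝ) else 0) ≤ ε * (N - 1)) (g : ℝ →ᵇ ℝ) :
    Tendsto (fun N : ℕ => (∑ n ∈ Finset.Icc 2 N, g (x n)) / ((N : ℝ) - 1)) atTop (𝓝 (g 0)) := by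
  rw [Metric.tendsto_nhds]
  intro ε hε
  obtain ⟨δ, hδ, hg⟩ := Metric.continuousAt_iff.1 (g.continuous.continuousAt (x := 0)) (ε / 3)
    (by positivity)
  have h0 : 0 < 2 * ‖g‖ + 1 := by positivity
  filter_upwards [h δ hδ (ε / 3 / (2 * ‖g‖ + 1)) (by positivity), eventually_ge_atTop 2]
    with N hN h2
  have hN' : (0 : ℝ) < N - 1 := by
    have : (2 : ℝ) ≤ N := by exact_mod_cast h2
    linarith
  have hc : ((Finset.Icc 2 N).card : ℝ) = N - 1 := by
    rw [Nat.card_Icc, Nat.cast_sub (by omega)]; push_cast; ring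
  have e : (∑ n ∈ Finset.Icc 2 N, g (x n)) / (N - 1) - g 0 =
      (∑ n ∈ Finset.Icc 2 N, (g (x n) - g 0)) / (N - 1) := by
    rw [Finset.sum_sub_distrib, Finset.sum_const, nsmul_eq_mul, hc]
    field_simp
  have h1 : ∀ n ∈ Finset.Icc 2 N, |g (x n) - g 0| ≤
      ε / 3 + (2 * ‖g‖ + 1) * if δ ≤ |x n| then (1 : ℝ) else 0 := by
    intro n _
    split_ifs with h2
    · have := g.dist_le_two_norm (x n) 0
      rw [Real.dist_eq] at this
      linarith
    · have := hg (x := x n) (by simpa using h2)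
      rw [Real.dist_eq] at this
      linarith
  rw [Real.dist_eq, e, abs_div, abs_of_pos hN', div_lt_iff₀ hN']
  refine ((Finset.abs_sum_le_sum_abs _ _).trans (Finset.sum_le_sum h1)).trans_lt ?_
  rw [Finset.sum_add_distrib, ← Finset.mul_sum, Finset.sum_const, nsmul_eq_mul, hc]
  have h2 := mul_le_mul_of_nonneg_left hN h0.le
  rw [← mul_assoc, mul_div_cancel₀ _ h0.ne'] at h2
  nlinarith [mul_pos hε hN']

theorem h8_sq (n : ℕ) (r c : ℝ) : ((n : ℝ) ^ (1 / 4 : ℝ) * r * c) ^ 2 = r ^ 2 * (√n * c ^ 2) := by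
  rw [mul_pow, mul_pow, ← Real.rpow_natCast ((n : ℝ) ^ _), ← Real.rpow_mul n.cast_nonneg,
    Real.sqrt_eq_rpow]
  norm_num
  ring

variable {c : ℕ → ℝ} {κ A : ℝ}

theorem h8_big (hκ : 0 < κ) (hA : κ ≤ A) (h : ∀ᶠ N : ℕ in atTop,
      κ * √N ≤ ∑ n ∈ Finset.range (N + 1), c n ^ 2 ∧ ∑ n ∈ Finset.range (N + 1), c n ^ 2 ≤ A * √N) :
    ∃ k : ℝ, 0 < k ∧ ∀ (ρ : ℕ → ℝ) (L : ℝ), 0 ≤ L → (∀ᶠ n in atTop, L ≤ ρ n ^ 2) →
      ∀ᶠ N : ℕ in atTop, L * k ≤
        (∑ n ∈ Finset.Icc 2 N, ((n : ℝ) ^ (1 / 4 : ℝ) * ρ n * c n) ^ 2) / ((N : ℝ) - 1) := by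
  have hA0 : 0 < A := hκ.trans_le hA
  set s := κ / (2 * A) with hs
  have hs0 : 0 < s := by positivity
  have hs1 : s ≤ 1 := by rw [hs, div_le_one (by positivity)]; linarith
  refine ⟨s * (κ / 2), by positivity, fun ρ L hL hρ => ?_⟩
  obtain ⟨n₀, hn₀⟩ := eventually_atTop.1 hρ
  have t : Tendsto (fun N : ℕ => ⌊s ^ 2 * N⌋₊) atTop atTop :=
    tendsto_nat_floor_atTop.comp (tendsto_natCast_atTop_atTop.const_mul_atTop (by positivity))
  filter_upwards [h, t.eventually h, t.eventually_ge_atTop (max n₀ 1), eventually_ge_atTop 2]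
    with N a1 a2 a3 h2
  have hN : (2 : ℝ) ≤ N := by exact_mod_cast h2
  have hsN : √(s ^ 2 * N) = s * √N := by rw [Real.sqrt_mul (sq_nonneg _), Real.sqrt_sq hs0.le]
  have b1 : (⌊s ^ 2 * N⌋₊ : ℝ) ≤ s ^ 2 * N := Nat.floor_le (by positivity)
  have b2 := Nat.lt_floor_add_one (s ^ 2 * N)
  generalize ⌊s ^ 2 * N⌋₊ = K at *
  have b3 : K ≤ N := by
    exact_mod_cast b1.trans (mul_le_of_le_one_left (by linarith) (pow_le_one₀ hs0.le hs1))
  have b4 := Finset.sum_range_add_sum_Ico (fun n => c n ^ 2) (show K + 1 ≤ N + 1 by omega)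
  have b5 : A * √K ≤ κ / 2 * √N := by
    have := mul_le_mul_of_nonneg_left ((Real.sqrt_le_sqrt b1).trans_eq hsN) hA0.le
    rwa [← mul_assoc, show A * s = κ / 2 by rw [hs]; field_simp] at this
  have b6 : L * (s * √N) * ∑ n ∈ Finset.Ico (K + 1) (N + 1), c n ^ 2 ≤
      ∑ n ∈ Finset.Icc 2 N, ((n : ℝ) ^ (1 / 4 : ℝ) * ρ n * c n) ^ 2 := by
    rw [Finset.mul_sum]
    refine (Finset.sum_le_sum fun n hn => ?_).trans (Finset.sum_le_sum_of_subset_of_nonneg
      (fun n hn => ?_) fun _ _ _ => sq_nonneg _)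
    · rw [Finset.mem_Ico] at hn
      have : ((K + 1 : ℕ) : ℝ) ≤ n := by exact_mod_cast hn.1
      push_cast at this
      rw [h8_sq, mul_assoc, ← hsN]
      exact mul_le_mul (hn₀ n (by omega)) (mul_le_mul_of_nonneg_right
        (Real.sqrt_le_sqrt (by linarith)) (sq_nonneg _)) (by positivity) (sq_nonneg _)
    · rw [Finset.mem_Ico] at hn
      rw [Finset.mem_Icc]; omega
  rw [le_div_iff₀ (by linarith)]
  refine le_trans ?_ b6
  have b7 : κ / 2 * √N ≤ ∑ n ∈ Finset.Ico (K + 1) (N + 1), c n ^ 2 := by linarith [a1.1, a2.2]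
  refine le_trans ?_ (mul_le_mul_of_nonneg_left b7 (by positivity))
  have b8 : √(N : ℝ) * √N = N := Real.mul_self_sqrt (by linarith)
  calc _ ≤ L * (s * (κ / 2)) * (√N * √N) := by rw [b8]; gcongr; linarith
    _ = _ := by ring

theorem h8_small (hA : 0 < A) (h : ∀ᶠ N : ℕ in atTop,
      ∑ n ∈ Finset.range (N + 1), c n ^ 2 ≤ A * √N) {ρ : ℕ → ℝ} (hρ : Tendsto ρ atTop (𝓝 0)) :
    Tendsto (fun N : ℕ => (∑ n ∈ Finset.Icc 2 N, ((n : ℝ) ^ (1 / 4 : ℝ) * ρ n * c n) ^ 2) /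
      ((N : ℝ) - 1)) atTop (𝓝 0) := by
  rw [Metric.tendsto_nhds]
  intro ε hε
  obtain ⟨n₀, hn₀⟩ := eventually_atTop.1 ((hρ.pow 2).eventually
    (gt_mem_nhds (show (0 : ℝ) ^ 2 < ε / (8 * A) by rw [zero_pow two_ne_zero]; positivity)))
  set B := ∑ n ∈ Finset.range n₀, ((n : ℝ) ^ (1 / 4 : ℝ) * ρ n * c n) ^ 2
  filter_upwards [h, eventually_ge_atTop 2, (tendsto_natCast_atTop_atTop.const_mul_atTop
    (show 0 < ε / 8 by positivity)).eventually_ge_atTop B] with N a1 h2 a2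
  have hN : (2 : ℝ) ≤ N := by exact_mod_cast h2
  rw [Real.dist_eq, sub_zero, abs_of_nonneg (div_nonneg (Finset.sum_nonneg fun _ _ => sq_nonneg _)
    (by linarith)), div_lt_iff₀ (by linarith), ← Finset.sum_filter_add_sum_filter_not _ (· < n₀)]
  have b1 : ∑ n ∈ (Finset.Icc 2 N).filter (· < n₀), ((n : ℝ) ^ (1 / 4 : ℝ) * ρ n * c n) ^ 2 ≤ B :=
    Finset.sum_le_sum_of_subset_of_nonneg (fun n hn => Finset.mem_range.2 (Finset.mem_filter.1 hn).2)
      fun _ _ _ => sq_nonneg _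
  have b2 : ∑ n ∈ (Finset.Icc 2 N).filter (fun n => ¬ n < n₀),
      ((n : ℝ) ^ (1 / 4 : ℝ) * ρ n * c n) ^ 2 ≤
      ε / (8 * A) * √N * ∑ n ∈ Finset.range (N + 1), c n ^ 2 := by
    rw [Finset.mul_sum]
    refine (Finset.sum_le_sum fun n hn => ?_).trans (Finset.sum_le_sum_of_subset_of_nonneg
      (fun n hn => ?_) fun _ _ _ => by positivity)
    · rw [Finset.mem_filter, Finset.mem_Icc] at hn
      rw [h8_sq, mul_assoc]
      exact mul_le_mul (hn₀ n (by omega)).le (mul_le_mul_of_nonneg_right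
        (Real.sqrt_le_sqrt (by exact_mod_cast hn.1.2)) (sq_nonneg _)) (by positivity)
        (by positivity)
    · rw [Finset.mem_filter, Finset.mem_Icc] at hn
      rw [Finset.mem_range]; omega
  have b3 := mul_le_mul_of_nonneg_left a1 (show 0 ≤ ε / (8 * A) * √N by positivity)
  rw [show ε / (8 * A) * √N * (A * √N) = ε / 8 * (√N * √N) by field_simp,
    Real.mul_self_sqrt (by linarith)] at b3
  nlinarith

theorem h8_cheb {x : ℕ → ℝ} (h : Tendsto (fun N : ℕ => (∑ n ∈ Finset.Icc 2 N, x n ^ 2) /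
      ((N : ℝ) - 1)) atTop (𝓝 0)) : ∀ δ > 0, ∀ ε > 0, ∀ᶠ N : ℕ in atTop,
    ∑ n ∈ Finset.Icc 2 N, (if δ ≤ |x n| then (1 : ℝ) else 0) ≤ ε * (N - 1) := by
  intro δ hδ ε hε
  filter_upwards [h.eventually (gt_mem_nhds (show 0 < ε * δ ^ 2 by positivity)),
    eventually_ge_atTop 2] with N a h2
  have hN : (2 : ℝ) ≤ N := by exact_mod_cast h2
  rw [div_lt_iff₀ (by linarith)] at a
  refine le_of_mul_le_mul_left ?_ (show 0 < δ ^ 2 by positivity)
  rw [Finset.mul_sum]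
  refine (Finset.sum_le_sum fun n _ => ?_).trans (a.le.trans (le_of_eq (by ring)))
  split_ifs with k
  · simpa using pow_le_pow_left₀ hδ.le k 2
  · simpa using sq_nonneg (x n)

theorem h8_main (b : ℕ → SchwartzMap ℝ ℝ) (he : ∀ n x, b n (-x) = b n x)
    (hf : ∀ n ξ, 𝓕 (fun x => (b n x : ℂ)) ξ = b n ξ)
    (hb : ∀ n m : ℕ, b n √m = if n = m then 1 else 0) {X : ℝ} (hX : 0 < X) (hI : ∀ n : ℤ, X ≠ n)
    (α : ℝ) (μ : Measure ℝ) [IsProbabilityMeasure μ] :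
    (Integrable (fun t : ℝ => t ^ 2) μ ∧
      (∀ g : ℝ →ᵇ ℝ, Tendsto (fun N : ℕ => (∑ n ∈ Finset.Icc 2 N,
        g ((n : ℝ) ^ (1 / 4 : ℝ) * Real.log n ^ α * b n √X)) / ((N : ℝ) - 1)) atTop
        (𝓝 (∫ t, g t ∂μ))) ∧
      Tendsto (fun N : ℕ => (∑ n ∈ Finset.Icc 2 N,
        ((n : ℝ) ^ (1 / 4 : ℝ) * Real.log n ^ α * b n √X) ^ 2) / ((N : ℝ) - 1)) atTop
        (𝓝 (∫ t, t ^ 2 ∂μ))) ↔ α < 0 ∧ μ = Measure.dirac 0 := by
  obtain ⟨K, F, hK, hF, h⟩ := exists_F hX b he hf hb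
  obtain ⟨κ, A, hκ, hA, ho⟩ := h8_order hX hI hF h
  obtain ⟨k, hk, hbig⟩ := h8_big hκ hA ho
  have tl : Tendsto (fun n : ℕ => Real.log n) atTop atTop :=
    Real.tendsto_log_atTop.comp tendsto_natCast_atTop_atTop
  have neg := fun hα : α < 0 => h8_small (hκ.trans_le hA) (ho.mono fun _ h => h.2)
    (ρ := fun n => Real.log n ^ α) (by
      simpa [Function.comp_def] using (tendsto_rpow_neg_atTop (neg_pos.2 hα)).comp tl)
  have uniq : (∀ g : ℝ →ᵇ ℝ, ∫ t, g t ∂μ = g 0) → μ = Measure.dirac 0 := fun h =>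
    ext_of_forall_integral_eq_of_IsFiniteMeasure fun g => by rw [h, integral_dirac]
  constructor
  · rintro ⟨-, h1, h2⟩
    rcases lt_trichotomy α 0 with hα | rfl | hα
    · exact ⟨hα, uniq fun g => tendsto_nhds_unique (h1 g) (h8_weak (h8_cheb (neg hα)) g)⟩
    · have h3 := uniq fun g => tendsto_nhds_unique (h1 g) (h8_weak (fun δ hδ ε hε => by
        filter_upwards [density (continuous_nz hF.hol) (sing_F hK hF) h hδ (half_pos hε),
          eventually_ge_atTop 3] with N a h3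
        have hN : (3 : ℝ) ≤ N := by exact_mod_cast h3
        simp only [Real.rpow_zero, mul_one]
        refine (Finset.sum_le_sum_of_subset_of_nonneg (fun n hn => ?_)
          fun _ _ _ => by positivity).trans (a.trans (by nlinarith))
        rw [Finset.mem_Icc] at hn
        rw [Finset.mem_range]; omega) g)
      have h4 := ge_of_tendsto h2 (hbig (fun n => Real.log n ^ (0 : ℝ)) 1 zero_le_one (by simp))
      rw [h3, integral_dirac] at h4
      norm_num at h4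
      linarith
    · set v := ∫ t : ℝ, t ^ 2 ∂μ
      have h4 := ge_of_tendsto h2 (hbig (fun n => Real.log n ^ α) ((|v| + 1) / k) (by positivity)
        ((tendsto_pow_atTop two_ne_zero).comp ((tendsto_rpow_atTop hα).comp tl)
          |>.eventually_ge_atTop _))
      rw [div_mul_cancel₀ _ hk.ne'] at h4
      linarith [le_abs_self v]
  · rintro ⟨hα, rfl⟩
    refine ⟨integrable_dirac (by simp), fun g => ?_, ?_⟩
    · rw [integral_dirac]
      exact h8_weak (h8_cheb (neg hα)) g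
    · simpa using neg hα

end Pool.Agent.Lib.MP_e6abdd_an
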