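import Pool.Agent.Lib.MP_e6abdd_an.Sol
import Pool.Agent.Lib.MP_e6abdd_an.Mean
import Pool.Agent.Lib.MP_e6abdd_an.H8Err
import Pool.Agent.Lib.MP_e6abdd_an.H8Cnt

/-!
A lower bound for the mean square of the generating function on low horocycles.
-/

namespace Pool.Agent.Lib.MP_e6abdd_an

open Complex hiding Gamma
open UpperHalfPlane hiding I
open MeasureTheory Filter Topology CongruenceSubgroup
open scoped Real MatrixGroups ComplexConjugate

open ModularGroup (S T)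

variable {X : ℝ} {F : ℍ → ℂ}

theorem h8_coc (hX : 0 < X) : Coc X (cocKK X) :=
  ⟨coc_hol_kk hX, coc_kk_neg, coc_kk_zero 1, fun _ _ h => coc_kk_T2 h,
    fun _ _ h => coc_kk_S hX h, coc_bd hX, fun _ hδ => coc_ubd hX hδ, coc_err hX⟩

theorem h8_gamma2 : ∀ γ ∈ Gamma 2, γ ∈ Subgroup.closure ({S, T ^ 2} : Set SL(2, ℤ)) := by
  set H := Subgroup.closure ({S, T ^ 2} : Set SL(2, ℤ))
  have hS : S ∈ H := Subgroup.subset_closure (by simp)
  have hT : T ^ 2 ∈ H := Subgroup.subset_closure (by simp)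
  have h1 : (-1 : SL(2, ℤ)) ∈ H := S_sq ▸ mul_mem hS hS
  exact gamma2_induction h1 hT (U2_eq ▸ mul_mem h1 (mul_mem (mul_mem hS (inv_mem hT)) hS))
    (fun _ _ _ _ => mul_mem) fun _ _ => inv_mem

theorem h8_inv (g : SL(2, ℤ)) :
    g⁻¹ 0 0 = g 1 1 ∧ g⁻¹ 0 1 = -g 0 1 ∧ g⁻¹ 1 0 = -g 1 0 ∧ g⁻¹ 1 1 = g 0 0 := by
  simp [Matrix.SpecialLinearGroup.coe_inv, Matrix.adjugate_fin_two]

theorem h8_geo {g : SL(2, ℤ)} {w : ℍ} {R : ℝ} (hR : 0 < R) (ha : 0 ≤ g 1 1) (hc : 0 < g 1 0)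
    (hw : R ≤ w.re) : (g • w).im * (g 1 0 * R) ^ 2 ≤ w.im ∧
      (g 1 0 * (g • w).re - g 0 0) ^ 2 * (g 1 0 * R) ^ 2 ≤ 1 := by
  have ha' : (0 : ℝ) ≤ g 1 1 := by exact_mod_cast ha
  have hc' : (0 : ℝ) < g 1 0 := by exact_mod_cast hc
  have h1 : (g • w).im * (g 1 0 * R) ^ 2 ≤ w.im := by
    rw [im_SL_smul, ← le_div_iff₀ (by positivity)]
    refine h8_hgt_le (by positivity) (le_trans ?_ (le_abs_self _))
    nlinarith
  refine ⟨h1, ?_⟩
  have h2 := im_SL_smul g⁻¹ (g • w)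
  rw [inv_smul_smul, hgt, tile_normSq, (h8_inv g).2.2.1, (h8_inv g).2.2.2, eq_div_iff (by
    push_cast
    exact (add_pos_of_nonneg_of_pos (sq_nonneg _) (sq_pos_of_ne_zero
      (mul_ne_zero (neg_ne_zero.2 hc'.ne') (g • w).im_pos.ne'))).ne')] at h2
  push_cast at h2
  have h3 := w.im_pos
  have h4 : w.im * (g 1 0 * (g • w).re - g 0 0) ^ 2 ≤ (g • w).im := by
    nlinarith [mul_nonneg h3.le (sq_nonneg (-(g 1 0 : ℝ) * (g • w).im))]
  refine le_of_mul_le_mul_left ?_ h3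
  nlinarith [mul_le_mul_of_nonneg_right h4 (sq_nonneg (g 1 0 * R : ℝ))]

theorem h8_point (hX : 0 < X) (hI : ∀ n : ℤ, X ≠ n) (hF : Sol X 1 F) :
    ∃ R : ℝ, 10 ≤ R ∧ ∃ m : ℝ, 0 < m ∧ ∀ g ∈ Gamma 2, 0 < g 1 1 → 20 * g 1 1 ≤ g 1 0 →
      ∀ w : ℍ, R ≤ w.re → 1 ≤ w.im → w.im ≤ 2 →
        m ≤ ‖nz F (g • w)‖ ∨ m ≤ ‖nz F (g • aff 1 2 w)‖ := by
  obtain ⟨A, hA0, hA⟩ := h8_err hX
  have hK := h8_coc hX
  have he : 0 < ‖1 - cexp (π * I * X * (2 : ℝ))‖ := by
    rw [norm_pos_iff, sub_ne_zero]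
    intro h
    obtain ⟨n, hn⟩ := exp_eq_one_iff.1 h.symm
    refine hI n ?_
    have h2 : (2 * π * I : ℂ) ≠ 0 := two_pi_I_ne_zero
    have h3 : (X : ℂ) = n := mul_right_cancel₀ h2 (by rw [← hn]; push_cast; ring)
    exact_mod_cast h3
  set m := Real.exp (-(π * X * 2)) * ‖1 - cexp (π * I * X * (2 : ℝ))‖ / 4 with hm
  have hm0 : 0 < m := by positivity
  set t := m / (A + 1) with ht
  have ht0 : 0 < t := by positivity
  refine ⟨max 10 (2 / t ^ 2), le_max_left _ _, m, hm0, fun g hg ha hc w h1 h2 h3 => ?_⟩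
  set R := max 10 (2 / t ^ 2)
  have hR : 10 ≤ R := le_max_left _ _
  have hR' : 2 ≤ R * t ^ 2 := (div_le_iff₀ (by positivity)).1 (le_max_right _ _)
  have hR2 : 2 ≤ t ^ 4 * R ^ 2 := by nlinarith
  have ha' : (0 : ℝ) < g 1 1 := by exact_mod_cast ha
  have hc' : 20 * (g 1 1 : ℝ) ≤ g 1 0 := by exact_mod_cast hc
  have key : ∀ w : ℍ, R ≤ w.re → w.im ≤ 2 → ‖nz F w - nz (gs X) w‖ ≤ ‖nz F (g • w)‖ + m := by
    intro w h1 h3
    obtain ⟨k1, k2⟩ := h8_geo (g := g) (by linarith) ha.le (by omega) h1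
    obtain ⟨e1, e2, e3, e4⟩ := h8_inv g
    have hγ := inv_mem (h8_gamma2 g hg)
    have k3 := hA (g • w) t ht0.le _ hγ (by omega) (by
      rw [e1, e3]; push_cast
      rw [abs_neg, abs_of_pos ha', abs_of_pos (by linarith)]; exact hc') (by
      rw [e3, e4, ← abs_mul]; push_cast
      refine abs_le_one_iff_mul_self_le_one.2 ?_
      nlinarith [mul_nonneg (sq_nonneg (g 1 0 * (g 1 0 * (g • w).re - g 0 0) : ℝ))
        (show 0 ≤ R ^ 2 - 1 by nlinarith)]) (by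
      rw [e3]; push_cast
      refine le_of_mul_le_mul_right ?_ (show 0 < R ^ 2 by positivity)
      nlinarith)
    have k4 := sol_norm hK hF hγ (v := (1, 0)) isCoprime_one_left (g • w)
    have k5 : ∀ w, cocKK X 1 0 w = psi X w := fun w => by
      simpa [coc_kk_zero, sl] using coc_kk_S hX (c := 0) (d := 1) isCoprime_one_right w
    rw [inv_smul_smul, show rowEquiv g⁻¹ (1, 0) = (g⁻¹ 0 0, g⁻¹ 0 1) by simp [rowEquiv]] at k4
    simp only [FF, one_mul] at k4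
    have k6 := coc_nz_gs hX (S • w)
    rw [← coc_nz_sl] at k6
    have k7 : (S • w).im ≤ t ^ 4 := by
      have := (h8_geo (g := S) (w := w) (R := R) (by linarith) (by simp [ModularGroup.coe_S])
        (by simp [ModularGroup.coe_S]) h1).1
      simp only [ModularGroup.coe_S, Matrix.of_apply, Matrix.cons_val', Matrix.cons_val_zero,
        Matrix.cons_val_one, Matrix.cons_val_fin_one, Int.cast_one, one_mul] at this
      refine le_of_mul_le_mul_right ?_ (show 0 < R ^ 2 by positivity)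
      linarith
    have k8 := h8_root (S • w).im_pos.le ht0.le k7
    have k9 : nz F w - nz (gs X) w = (nz F w - nz (cocKK X 1 0) w) + nz (sl (gs X)) w := by
      simp only [nz, k5, psi]; ring
    have k10 := norm_sub_le (nz F (g • w)) (nz (cocKK X (g⁻¹ 0 0) (g⁻¹ 0 1)) (g • w))
    have k11 : (A + 1) * t = m := by rw [ht]; field_simp
    rw [k9]
    refine (norm_add_le _ _).trans ?_
    linarith
  have a1 := key w h1 h3
  have a2 := key (aff 1 2 w) (by rw [aff_re one_pos]; linarith) (by rw [aff_im one_pos]; linarith)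
  have a3 : nz F (aff 1 2 w) = nz F w := by simp only [nz, kn_im, hF.per]
  have a4 : nz (gs X) (aff 1 2 w) = cexp (π * I * X * (2 : ℝ)) * nz (gs X) w := by
    simp only [nz, kn_im, coc_gs_aff]; ring
  have a5 : Real.exp (-(π * X * 2)) ≤ ‖nz (gs X) w‖ := by
    rw [coc_norm_nz, coc_norm_gs]
    refine le_trans (Real.exp_le_exp.2 ?_) (le_mul_of_one_le_left (Real.exp_pos _).le
      (Real.one_le_rpow h2 (by norm_num)))
    nlinarith [mul_pos Real.pi_pos hX]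
  have a6 := norm_sub_le (nz F (aff 1 2 w) - nz (gs X) (aff 1 2 w)) (nz F w - nz (gs X) w)
  rw [show nz F (aff 1 2 w) - nz (gs X) (aff 1 2 w) - (nz F w - nz (gs X) w) =
    nz (gs X) w * (1 - cexp (π * I * X * (2 : ℝ))) by rw [a3, a4]; ring, norm_mul] at a6
  have a7 := mul_le_mul_of_nonneg_right a5 he.le
  by_contra h
  push Not at h
  linarith [h.1, h.2]

theorem h8_hgt_mul {c d c' d' : ℤ} (h : c * d' - d * c' ≠ 0) (τ : ℍ) :
    hgt c d τ * hgt c' d' τ ≤ 1 := by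
  rw [hgt, hgt, div_mul_div_comm]
  refine div_le_one_of_le₀ ?_ (mul_nonneg (normSq_nonneg _) (normSq_nonneg _))
  have h1 : (1 : ℝ) ≤ ((c * d' - d * c' : ℤ) : ℝ) ^ 2 := by
    exact_mod_cast (one_le_sq_iff_one_le_abs _).2 (Int.one_le_abs h)
  push_cast at h1
  rw [tile_normSq, tile_normSq]
  nlinarith [sq_nonneg (((c : ℝ) * τ.re + d) * (c' * τ.re + d') + c * τ.im * (c' * τ.im)),
    mul_le_mul_of_nonneg_right h1 (sq_nonneg τ.im)]

theorem h8_row {a c : ℤ} (h : IsCoprime c a) (hc : Even c) (h0 : 0 < c) :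
    ∃ g ∈ Gamma 2, g 1 0 = c ∧ g 1 1 = a ∧ 0 ≤ g 0 0 ∧ g 0 0 < 2 * c := by
  obtain ⟨g, hg, h1, h2⟩ := exists_gamma2_row h hc
  have hT : (T ^ 2 : SL(2, ℤ)) ∈ Gamma 2 := by rw [mem_gamma2, sol_T2]; simp
  set k := -(g 0 0 / (2 * c))
  have eT : (T ^ 2 : SL(2, ℤ)) ^ k = T ^ (2 * k) := by rw [zpow_mul]; rfl
  have e1 : ∀ j, ((T ^ 2) ^ k * g) 1 j = g 1 j := fun j => by
    simp [eT]
  have e0 : ((T ^ 2) ^ k * g) 0 0 = g 0 0 % (2 * c) := by
    simp only [eT, SL_mul_apply, ModularGroup.coe_T_zpow, h1, Int.emod_def, k]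
    simp
    ring
  exact ⟨_, mul_mem (zpow_mem hT k) hg, by rw [e1, h1], by rw [e1, h2],
    e0 ▸ Int.emod_nonneg _ (by omega), e0 ▸ Int.emod_lt_of_pos _ (by omega)⟩

theorem h8_loc {g : SL(2, ℤ)} {w : ℍ} {R Y : ℝ} {m : ℕ} (hR : 10 ≤ R) (hm : 0 < m)
    (eY : Y * (640000 * R ^ 2 * m ^ 2) = 1) (c1 : 40 * (m : ℤ) ≤ g 1 0) (c2 : g 1 0 ≤ 400 * (m : ℤ))
    (c3 : 0 ≤ g 1 1) (c4 : g 1 1 ≤ g 1 0) (c5 : 0 ≤ g 0 0) (c6 : g 0 0 ≤ 2 * g 1 0)
    (w1 : R ≤ w.re) (w2 : w.re ≤ R + 3) (w3 : 1 ≤ w.im) (w4 : w.im ≤ 2) :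
    (g • w).im ∈ Set.Icc Y (800 * Y) ∧ -2 < (g • w).re ∧ (g • w).re ≤ 4 := by
  obtain ⟨b1, b2⟩ := h8_geo (g := g) (by linarith) c3 (by omega) w1
  have b3 := im_SL_smul g w
  rw [hgt, tile_normSq] at b3
  have b4 := (g • w).im_pos
  replace c1 : 40 * (m : ℝ) ≤ g 1 0 := by exact_mod_cast c1
  replace c2 : (g 1 0 : ℝ) ≤ 400 * m := by exact_mod_cast c2
  replace c3 : (0 : ℝ) ≤ g 1 1 := by exact_mod_cast c3
  replace c4 : (g 1 1 : ℝ) ≤ g 1 0 := by exact_mod_cast c4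
  replace c5 : (0 : ℝ) ≤ g 0 0 := by exact_mod_cast c5
  replace c6 : (g 0 0 : ℝ) ≤ 2 * g 1 0 := by exact_mod_cast c6
  have c7 : (1 : ℝ) ≤ m := by exact_mod_cast hm
  generalize (g 1 0 : ℝ) = c at *
  generalize (g 1 1 : ℝ) = a at *
  generalize (g 0 0 : ℝ) = p at *
  generalize (g • w).re = x at *
  generalize (g • w).im = y at *
  generalize w.re = s at *
  generalize w.im = h at *
  generalize (m : ℝ) = m at *
  have hY0 : 0 < Y := (pos_iff_pos_of_mul_pos (eY ▸ one_pos)).2 (by positivity)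
  have hc : 0 < c := by linarith
  have i2 : |c * x - p| ≤ 1 := by
    refine abs_le_one_iff_mul_self_le_one.2 ?_
    have f1 : 1 ≤ (c * R) ^ 2 := one_le_pow₀ (by nlinarith)
    nlinarith [mul_le_mul_of_nonneg_left f1 (sq_nonneg (c * x - p))]
  obtain ⟨i3, i4⟩ := abs_le.1 i2
  refine ⟨⟨?_, ?_⟩, by by_contra h; nlinarith, by by_contra h; nlinarith⟩
  · rw [b3, le_div_iff₀ (by positivity)]
    have f1 : (c * s + a) ^ 2 ≤ (400 * m * (R + 4)) ^ 2 :=
      pow_le_pow_left₀ (by nlinarith) (by nlinarith) 2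
    have f2 : (c * h) ^ 2 ≤ (400 * m * 2) ^ 2 := pow_le_pow_left₀ (by nlinarith) (by nlinarith) 2
    have f3 : (400 * m * (R + 4)) ^ 2 + (400 * m * 2) ^ 2 ≤ 640000 * R ^ 2 * m ^ 2 := by
      nlinarith [mul_nonneg (sq_nonneg m) (show 0 ≤ 3 * R ^ 2 - 8 * R - 20 by nlinarith)]
    linarith [mul_le_mul_of_nonneg_left ((add_le_add f1 f2).trans f3) hY0.le]
  · have f1 : (40 * m * R) ^ 2 ≤ (c * R) ^ 2 := pow_le_pow_left₀ (by positivity) (by nlinarith) 2
    refine le_of_mul_le_mul_right ?_ (show 0 < (40 * m * R) ^ 2 by positivity)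
    linarith [mul_le_mul_of_nonneg_left f1 b4.le]

theorem h8_low (hX : 0 < X) (hI : ∀ n : ℤ, X ≠ n) (hF : Sol X 1 F) :
    ∃ D : ℝ, 0 < D ∧ ∃ c : ℝ, 0 < c ∧ ∀ m : ℕ, 0 < m →
      ∃ y ∈ Set.Icc (D / m ^ 2) (800 * (D / m ^ 2)), c ≤ ∫ x in (0 : ℝ)..2, ‖nz F (pt x y)‖ ^ 2 := by
  obtain ⟨R, hR, μ, hμ, hP⟩ := h8_point hX hI hF
  have hc := continuous_nz hF.hol
  have := mean_openPos
  let B₀ : Set ℍ := {w | w.re ∈ Set.Ioo R (R + 1) ∧ w.im ∈ Set.Ioo 1 2}
  let B : Set ℍ := {w | w.re ∈ Set.Ioo R (R + 3) ∧ w.im ∈ Set.Ioo 1 2}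
  have box : ∀ s u : Set ℝ, MeasurableSet s → MeasurableSet u →
      MeasurableSet {w : ℍ | w.re ∈ s ∧ w.im ∈ u} := fun s u hs hu =>
    (UpperHalfPlane.continuous_re.measurable hs).inter (UpperHalfPlane.continuous_im.measurable hu)
  obtain ⟨β, hβ, hβ'⟩ : ∃ β : ℝ, 0 < β ∧ ENNReal.ofReal β ≤ volume B₀ := by
    have h1 : 0 < volume B₀ := IsOpen.measure_pos _ ((isOpen_Ioo.preimage
      UpperHalfPlane.continuous_re).inter (isOpen_Ioo.preimage UpperHalfPlane.continuous_im))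
      ⟨pt (R + 1 / 2) (3 / 2), by
        simp only [B₀, Set.mem_ofPred_eq, pt_re _ (show (0 : ℝ) < 3 / 2 by norm_num),
          pt_im _ (show (0 : ℝ) < 3 / 2 by norm_num), Set.mem_Ioo]
        norm_num⟩
    obtain ⟨r, h2, h3⟩ := ENNReal.lt_iff_exists_nnreal_btwn.1 h1
    exact ⟨r, by exact_mod_cast h2, by simpa using h3.le⟩
  set D := 1 / (640000 * R ^ 2) with hD
  have hD0 : 0 < D := by positivity
  refine ⟨D, hD0, μ ^ 2 * β * D / 60, by positivity, fun m hm => ?_⟩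
  have hm' : (0 : ℝ) < m := by exact_mod_cast hm
  set Y := D / m ^ 2 with hY
  have hY0 : 0 < Y := by positivity
  by_contra hn
  push Not at hn
  obtain ⟨s, hs, hs'⟩ := h8_count m
  have hg : ∀ v : ℕ × ℕ, ∃ g : SL(2, ℤ), v ∈ s → g ∈ Gamma 2 ∧ g 1 0 = 2 * v.2 ∧ g 1 1 = v.1 ∧
      0 ≤ g 0 0 ∧ g 0 0 < 2 * (2 * v.2) := fun v => by
    by_cases hv : v ∈ s
    · obtain ⟨_, _, h3, _, h5⟩ := hs' v hv
      obtain ⟨g, k⟩ := h8_row (a := v.1) (c := 2 * v.2)
        (by exact_mod_cast Nat.isCoprime_iff_coprime.2 h5.symm) (even_two_mul _) (by omega)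
      exact ⟨g, fun _ => k⟩
    · exact ⟨1, fun h => absurd h hv⟩
  choose g hg using hg
  let E : Set ℍ := {τ | μ ≤ ‖nz F τ‖}
  have hE : MeasurableSet E := measurableSet_le measurable_const hc.norm.measurable
  let U : ℕ × ℕ → Set ℍ := fun v => (fun τ => (g v)⁻¹ • τ) ⁻¹' B ∩ E
  have hU : ∀ v, MeasurableSet (U v) := fun v =>
    ((measurePreserving_SL _).measurable (box _ _ measurableSet_Ioo measurableSet_Ioo)).inter hE
  have u1 : ∀ v ∈ s, ENNReal.ofReal β ≤ 2 * volume (U v) := fun v hv => by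
    obtain ⟨k1, k2, k3, k4, -⟩ := hs' v hv
    obtain ⟨l1, l2, l3, -⟩ := hg v hv
    have p1 := measurePreserving_SL (g v)
    have p2 := p1.comp (measurePreserving_aff one_pos 2)
    rw [two_mul]
    refine hβ'.trans ((measure_mono fun w hw => ?_).trans ((measure_union_le _ _).trans
      (add_le_add (p1.measure_preimage (hU v).nullMeasurableSet).le
        (p2.measure_preimage (hU v).nullMeasurableSet).le)))
    obtain ⟨⟨w1, w2⟩, w3, w4⟩ := hw
    refine (hP _ l1 (by omega) (by omega) w w1.le w3.le w4.le).imp (fun h => ⟨?_, h⟩) fun h =>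
      ⟨?_, h⟩
    · simp only [Set.mem_preimage, inv_smul_smul]
      exact ⟨⟨w1, by linarith⟩, w3, w4⟩
    · simp only [Set.mem_preimage, Function.comp, inv_smul_smul, B, Set.mem_ofPred_eq,
        aff_re one_pos, aff_im one_pos, one_mul]
      exact ⟨⟨by linarith, by linarith⟩, w3, w4⟩
  have u2 : (s : Set (ℕ × ℕ)).PairwiseDisjoint U := fun v hv v' hv' hne => by
    refine Set.disjoint_left.2 fun τ h1 h2 => hne ?_
    obtain ⟨k1, k2, k3, -⟩ := hs' v hv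
    obtain ⟨k1', k2', k3', -⟩ := hs' v' hv'
    obtain ⟨-, l2, l3, -⟩ := hg v hv
    obtain ⟨-, l2', l3', -⟩ := hg v' hv'
    have a1 : 1 < ((g v)⁻¹ • τ).im := h1.1.2.1
    have a2 : 1 < ((g v')⁻¹ • τ).im := h2.1.2.1
    rw [im_SL_smul, (h8_inv _).2.2.1, (h8_inv _).2.2.2] at a1 a2
    have a3 : -g v 1 0 * g v' 0 0 - g v 0 0 * -g v' 1 0 = 0 := by
      by_contra h
      nlinarith [h8_hgt_mul h τ]
    have d1 := tile_det (g v)
    have d2 := tile_det (g v')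
    have c1 : IsCoprime (g v 1 0) (g v 0 0) := ⟨-g v 0 1, g v 1 1, by linarith⟩
    have c2 : IsCoprime (g v' 1 0) (g v' 0 0) := ⟨-g v' 0 1, g v' 1 1, by linarith⟩
    have a4 : g v 1 0 = g v' 1 0 := Int.dvd_antisymm (by omega) (by omega)
      (c1.dvd_of_dvd_mul_left ⟨g v' 0 0, by linarith⟩)
      (c2.dvd_of_dvd_mul_left ⟨g v 0 0, by linarith⟩)
    have a5 : g v 0 0 = g v' 0 0 := mul_right_cancel₀ (show g v 1 0 ≠ 0 by omega) (by
      rw [← a4] at a3; linarith)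
    have a6 : g v 1 0 ∣ g v 1 1 - g v' 1 1 :=
      c1.dvd_of_dvd_mul_left ⟨g v 0 1 - g v' 0 1, by rw [← a4, ← a5] at d2; linarith⟩
    have a7 := Int.eq_zero_of_abs_lt_dvd a6 (abs_lt.2 ⟨by omega, by omega⟩)
    exact Prod.ext (by omega) (by omega)
  let V : Set ℍ := (strip ∩ {τ | τ.im ∈ Set.Icc Y (800 * Y)}) ∩ E
  have hI' : MeasurableSet {τ : ℍ | τ.im ∈ Set.Icc Y (800 * Y)} :=
    UpperHalfPlane.continuous_im.measurable measurableSet_Icc
  have hV : MeasurableSet V := (measurableSet_strip.inter hI').inter hE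
  have u3 : ⋃ v ∈ s, U v ⊆ V ∪ aff 1 2 ⁻¹' V ∪ aff 1 (-2) ⁻¹' V := by
    refine Set.iUnion₂_subset fun v hv τ hτ => ?_
    obtain ⟨k1, k2, k3, k4, -⟩ := hs' v hv
    obtain ⟨-, l2, l3, l4, l5⟩ := hg v hv
    obtain ⟨⟨⟨w1, w2⟩, w3, w4⟩, hτ⟩ := hτ
    set w := (g v)⁻¹ • τ with hw
    have e : g v • w = τ := smul_inv_smul _ _
    obtain ⟨i1, i5, i6⟩ := h8_loc (g := g v) (w := w) (Y := Y) hR hm (by rw [hY, hD]; field_simp)
      (by omega) (by omega) (by omega) (by omega) l4 (by omega) w1.le w2.le w3.le w4.le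
    rw [e] at i1 i5 i6
    have i7 : ∀ σ : ℍ, nz F (aff 1 2 σ) = nz F σ := fun σ => by simp only [nz, kn_im, hF.per]
    have i8 : nz F (aff 1 (-2) τ) = nz F τ := by
      rw [← i7, kn_aff_add, neg_add_cancel, aff_one_zero]
    simp only [V, E, strip, Set.mem_union, Set.mem_preimage, Set.mem_inter_iff, Set.mem_ofPred_eq,
      aff_re one_pos, kn_im, i7, i8, Set.mem_Ioc, one_mul]
    rcases le_or_gt τ.re 0 with h | h
    · exact .inl (.inr ⟨⟨⟨by linarith, by linarith⟩, i1⟩, hτ⟩)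
    rcases le_or_gt τ.re 2 with h' | h'
    · exact .inl (.inl ⟨⟨⟨h, h'⟩, i1⟩, hτ⟩)
    · exact .inr ⟨⟨⟨by linarith, by linarith⟩, i1⟩, hτ⟩
  have u4 : ENNReal.ofReal (80 * m ^ 2 * β) ≤ 6 * volume V := by
    calc _ ≤ ENNReal.ofReal (s.card * β) := ENNReal.ofReal_le_ofReal (by gcongr)
      _ = ∑ _v ∈ s, ENNReal.ofReal β := by
          rw [ENNReal.ofReal_mul (by positivity)]; simp
      _ ≤ ∑ v ∈ s, 2 * volume (U v) := Finset.sum_le_sum u1
      _ = 2 * volume (⋃ v ∈ s, U v) := by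
          rw [measure_biUnion_finset u2 fun v _ => hU v, Finset.mul_sum]
      _ ≤ 2 * (volume V + volume V + volume V) := by
          gcongr
          exact (measure_mono u3).trans ((measure_union_le _ _).trans (add_le_add
            ((measure_union_le _ _).trans (add_le_add le_rfl
              ((measurePreserving_aff one_pos 2).measure_preimage hV.nullMeasurableSet).le))
            ((measurePreserving_aff one_pos _).measure_preimage hV.nullMeasurableSet).le))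
      _ = _ := by ring
  have hG : Measurable fun τ : ℍ => ENNReal.ofReal (‖nz F τ‖ ^ 2) :=
    (hc.norm.pow 2).measurable.ennreal_ofReal
  have u5 : ENNReal.ofReal (μ ^ 2) * volume V ≤
      ENNReal.ofReal (μ ^ 2 * β * D / 60 * (1 / Y ^ 2) * (799 * Y)) := by
    calc _ = ∫⁻ _ in V, ENNReal.ofReal (μ ^ 2) := by simp
      _ ≤ ∫⁻ τ in V, {τ : ℍ | τ.im ∈ Set.Icc Y (800 * Y)}.indicator
            (fun τ => ENNReal.ofReal (‖nz F τ‖ ^ 2)) τ := by
          refine setLIntegral_mono' hV fun τ hτ => ?_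
          rw [Set.indicator_of_mem hτ.1.2]
          exact ENNReal.ofReal_le_ofReal (pow_le_pow_left₀ hμ.le hτ.2 2)
      _ ≤ _ := lintegral_mono_set (t := strip) fun τ hτ => hτ.1.1
      _ = _ := lintegral_strip (hG.indicator hI')
      _ ≤ ∫⁻ y in Set.Ioi (0 : ℝ), (Set.Icc Y (800 * Y)).indicator
            (fun _ => ENNReal.ofReal (μ ^ 2 * β * D / 60 * (1 / Y ^ 2))) y := by
          refine setLIntegral_mono' measurableSet_Ioi fun y hy => ?_
          by_cases h : y ∈ Set.Icc Y (800 * Y)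
          · have e : ∀ x, {τ : ℍ | τ.im ∈ Set.Icc Y (800 * Y)}.indicator
                (fun τ => ENNReal.ofReal (‖nz F τ‖ ^ 2)) (pt x y) =
                ENNReal.ofReal (‖nz F (pt x y)‖ ^ 2) := fun x =>
              Set.indicator_of_mem (by simpa [pt_im x hy] using h) _
            have i1 : IntervalIntegrable (fun x => ‖nz F (pt x y)‖ ^ 2) volume 0 2 :=
              ((hc.comp (continuous_pt hy)).norm.pow 2).intervalIntegrable _ _
            simp only [e, Set.indicator_of_mem h]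
            rw [← ofReal_integral_eq_lintegral_ofReal i1.1 (ae_of_all _ fun x => by positivity),
              ← intervalIntegral.integral_of_le (by norm_num), ENNReal.ofReal_mul (by positivity)]
            gcongr
            · exact (hn y h).le
            · exact h.1
          · have e : ∀ x, {τ : ℍ | τ.im ∈ Set.Icc Y (800 * Y)}.indicator
                (fun τ => ENNReal.ofReal (‖nz F τ‖ ^ 2)) (pt x y) = 0 := fun x =>
              Set.indicator_of_notMem (by simpa [pt_im x hy] using h) _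
            simp only [e, lintegral_zero, zero_mul, zero_le]
      _ ≤ ∫⁻ y, (Set.Icc Y (800 * Y)).indicator
            (fun _ => ENNReal.ofReal (μ ^ 2 * β * D / 60 * (1 / Y ^ 2))) y :=
          setLIntegral_le_lintegral _ _
      _ = _ := by
          rw [lintegral_indicator_const measurableSet_Icc, Real.volume_Icc,
            ← ENNReal.ofReal_mul (by positivity)]
          congr 2; ring
  have u6 : ENNReal.ofReal (μ ^ 2 * (80 * m ^ 2 * β)) ≤
      ENNReal.ofReal (6 * (μ ^ 2 * β * D / 60 * (1 / Y ^ 2) * (799 * Y))) := by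
    rw [ENNReal.ofReal_mul (by positivity), ENNReal.ofReal_mul (show (0 : ℝ) ≤ 6 by norm_num),
      ENNReal.ofReal_ofNat]
    calc _ ≤ ENNReal.ofReal (μ ^ 2) * (6 * volume V) := by gcongr
      _ = 6 * (ENNReal.ofReal (μ ^ 2) * volume V) := by ring
      _ ≤ _ := by gcongr
  rw [ENNReal.ofReal_le_ofReal_iff (by positivity),
    show 6 * (μ ^ 2 * β * D / 60 * (1 / Y ^ 2) * (799 * Y)) = μ ^ 2 * (799 / 10 * m ^ 2 * β) by
      rw [hY]; field_simp; norm_num] at u6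
  nlinarith [mul_pos (pow_pos hμ 2) (mul_pos (pow_pos hm' 2) hβ)]

end Pool.Agent.Lib.MP_e6abdd_an
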