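import Pool.Agent.Lib.MP_e6abdd_an.Main
import Pool.Agent.Lib.MP_e6abdd_an.H8Low

/-!
The order of magnitude of the mean square of the coefficients.
-/

namespace Pool.Agent.Lib.MP_e6abdd_an

open Complex hiding Gamma
open UpperHalfPlane hiding I
open MeasureTheory Filter Topology CongruenceSubgroup
open scoped Real MatrixGroups ComplexConjugate

variable {X : ℝ} {F : ℍ → ℂ}

theorem h8_neg (hF : Sol X 1 F) (k : ℕ) {y : ℝ} (hy : 0 < y) :
    fc 2 (nz F) (-(k + 1 : ℕ)) y = 0 := by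
  set a := fun n => (qExpansion 2 F).coeff n
  have hn : ∀ (n : ℕ) (x : ℝ), ‖a n * gs n (pt x y)‖ = ‖a n * gs n (pt 0 y)‖ := fun n x => by
    simp only [norm_mul, coc_norm_gs, pt_im _ hy]
  have hs : Summable fun n : ℕ => ‖a n * gs n (pt 0 y)‖ := (sol_hasSum hF _).summable.norm
  have e : ∀ (n : ℕ) (x : ℝ), a n * gs n (pt x y) * cexp (π * I * (k + 1 : ℕ) * x) =
      a n * cexp (-(π * n * y)) * cexp (π * I * (n + (k + 1) : ℕ) * x) := fun n x => by
    rw [gs, coe_pt x hy, mul_assoc, mul_assoc (a n), ← exp_add, ← exp_add]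
    congr 2
    push_cast
    linear_combination (π * n * y : ℂ) * I_mul_I
  have h := intervalIntegral.hasSum_integral_of_dominated_convergence (μ := volume) (a := 0) (b := 2)
    (F := fun (n : ℕ) (x : ℝ) => a n * gs n (pt x y) * cexp (π * I * (k + 1 : ℕ) * x))
    (f := fun x => F (pt x y) * cexp (π * I * (k + 1 : ℕ) * x))
    (fun n _ => ‖a n * gs n (pt 0 y)‖) (fun n => by
      simp only [e]; exact Continuous.aestronglyMeasurable (by fun_prop))
    (fun n => ae_of_all _ fun x _ => by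
      rw [norm_mul, hn, norm_exp]; simp)
    (ae_of_all _ fun _ _ => hs) intervalIntegrable_const
    (ae_of_all _ fun x _ => (sol_hasSum hF _).mul_right _)
  have z : ∀ n : ℕ, ∫ x in (0 : ℝ)..2, a n * gs n (pt x y) * cexp (π * I * (k + 1 : ℕ) * x) = 0 := by
    intro n
    simp only [e]
    rw [intervalIntegral.integral_const_mul, integral_exp_mul_complex (mul_ne_zero
      (mul_ne_zero (by exact_mod_cast Real.pi_ne_zero) I_ne_zero) (Nat.cast_ne_zero.2 (by omega))),
      show (π * I * (n + (k + 1) : ℕ) * (2 : ℝ) : ℂ) = (n + (k + 1) : ℕ) * (2 * π * I) by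
        push_cast; ring, exp_nat_mul_two_pi_mul_I]
    simp
  simp only [z] at h
  have h0 := h.unique hasSum_zero
  rw [fc_two]
  simp only [nz, pt_im _ hy, mul_assoc]
  rw [intervalIntegral.integral_const_mul]
  simp only [mul_assoc] at h0
  simp only [Int.cast_neg, Int.cast_natCast, mul_neg, neg_neg, mul_assoc, h0, mul_zero]

theorem h8_parseval (hF : Sol X 1 F) {c : ℕ → ℝ} (h : ∀ (n : ℕ) (y : ℝ), 0 < y →
      fc 2 (nz F) n y = (c n * (y ^ (1 / 4 : ℝ) * Real.exp (-(π * n * y))) : ℝ))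
    {y : ℝ} (hy : 0 < y) : HasSum (fun n : ℕ => c n ^ 2 * Real.exp (-(2 * π * n * y)))
      ((∫ x in (0 : ℝ)..2, ‖nz F (pt x y)‖ ^ 2) / (2 * √y)) := by
  have h1 := (parseval_norm (continuous_nz hF.hol) two_pos hy).nat_add_neg_add_one
  have h2 : ∀ n : ℕ, fc 2 (nz F) (-(n + 1)) y = 0 := fun n => by simpa using h8_neg hF n hy
  have hs := Real.sqrt_pos.2 hy
  have h3 := h1.div_const √y
  rw [show (2 : ℝ)⁻¹ * (∫ x in (0 : ℝ)..2, ‖nz F (pt x y)‖ ^ 2) / √y =
    (∫ x in (0 : ℝ)..2, ‖nz F (pt x y)‖ ^ 2) / (2 * √y) by field_simp] at h3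
  refine h3.congr_fun fun n => ?_
  · rw [h2, h n y hy, norm_real, Real.norm_eq_abs, sq_abs, mul_pow, mul_pow, ← Real.exp_nat_mul,
      ← Real.rpow_natCast (y ^ _), ← Real.rpow_mul hy.le, Real.sqrt_eq_rpow]
    have := Real.rpow_pos_of_pos hy (1 / 2)
    norm_num
    field_simp

theorem h8_up (hX : 0 < X) (hF : Sol X 1 F) : ∃ C : ℝ, ∀ᶠ Y in 𝓝[>] (0 : ℝ),
    win (fun y => ∫ x in (0 : ℝ)..2, ‖nz F (pt x y)‖ ^ 2) Y ≤ C := by
  obtain ⟨J, Φ, h1, h2⟩ := approx (h8_coc hX) hF one_pos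
  choose B hB using fun j => (h1 j).1.bdd
  set A := ∑ j ∈ Finset.Icc (-J : ℤ) J, B j
  refine ⟨2 * 1 + 4 * A ^ 2, ?_⟩
  filter_upwards [h2, self_mem_nhdsWithin] with Y ⟨u, hu, a⟩ hY
  have c0 := continuous_nz hF.hol
  have c1 : Continuous fun τ => ‖nz F τ - ∑ j ∈ Finset.Icc (-J : ℤ) J, u j * Φ j τ‖ ^ 2 :=
    (c0.fun_sub (continuous_finsetSum _ fun j _ =>
      continuous_const.mul (h1 j).1.cont)).norm.pow 2
  have i1 := approx_win_int c1 hY
  have i0 : IntervalIntegrable (fun t => tent t • (4 * A ^ 2)) volume 1 3 :=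
    (approx_continuous_tent.smul continuous_const).intervalIntegrable _ _
  have e : ∀ t p : ℝ, tent t • (2 * p + 4 * A ^ 2) = 2 * tent t • p + tent t • (4 * A ^ 2) :=
    fun t p => by simp only [smul_eq_mul]; ring
  refine (win_mono (b := fun y => 2 * (∫ x in (0 : ℝ)..2,
    ‖nz F (pt x y) - ∑ j ∈ Finset.Icc (-J : ℤ) J, u j * Φ j (pt x y)‖ ^ 2) + 4 * A ^ 2)
    (approx_win_int (c0.norm.pow 2) hY) ?_ hY fun y hy => ?_).trans ?_
  · simp only [e]
    exact (i1.const_mul 2).add i0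
  · have hy0 : 0 < y := lt_of_lt_of_le hY hy.1
    have j1 : IntervalIntegrable (fun x => ‖nz F (pt x y) -
        ∑ j ∈ Finset.Icc (-J : ℤ) J, u j * Φ j (pt x y)‖ ^ 2) volume 0 2 :=
      (c1.comp (continuous_pt hy0)).intervalIntegrable 0 2
    refine (intervalIntegral.integral_mono_on (g := fun x => 2 *
      ‖nz F (pt x y) - ∑ j ∈ Finset.Icc (-J : ℤ) J, u j * Φ j (pt x y)‖ ^ 2 + 2 * A ^ 2)
      (by norm_num) (((c0.norm.pow 2).comp (continuous_pt hy0)).intervalIntegrable 0 2)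
      ((j1.const_mul 2).add intervalIntegrable_const) fun x _ => ?_).trans (le_of_eq ?_)
    · have k1 : ‖∑ j ∈ Finset.Icc (-J : ℤ) J, u j * Φ j (pt x y)‖ ≤ A :=
        norm_sum_le_of_le _ fun j _ => by
          rw [norm_mul]
          exact (mul_le_of_le_one_left (norm_nonneg _) (hu j)).trans (hB j _)
      have k2 := norm_le_norm_add_norm_sub' (nz F (pt x y))
        (∑ j ∈ Finset.Icc (-J : ℤ) J, u j * Φ j (pt x y))
      refine (pow_le_pow_left₀ (norm_nonneg _) (k2.trans (add_le_add k1 le_rfl)) 2).trans ?_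
      nlinarith [sq_nonneg (A - ‖nz F (pt x y) - ∑ j ∈ Finset.Icc (-J : ℤ) J, u j * Φ j (pt x y)‖)]
    · rw [intervalIntegral.integral_add (j1.const_mul 2) intervalIntegrable_const,
        intervalIntegral.integral_const_mul, intervalIntegral.integral_const]
      simp only [smul_eq_mul]
      ring
  · have h3 := win_const (4 * A ^ 2) Y
    rw [win] at a h3 ⊢
    simp only [e]
    rw [intervalIntegral.integral_add (i1.const_mul 2) i0, intervalIntegral.integral_const_mul, h3]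
    linarith

theorem h8_tauber {u : ℕ → ℝ} (hu : ∀ n, 0 ≤ u n) {q : ℝ → ℝ}
    (hq : ∀ y, 0 < y → HasSum (fun n : ℕ => u n * Real.exp (-(2 * π * n * y))) (q y))
    {C : ℝ} (h1 : ∀ᶠ y in 𝓝[>] (0 : ℝ), √y * q y ≤ C) {D c : ℝ} (hD : 0 < D) (hc : 0 < c)
    (h2 : ∀ m : ℕ, 0 < m → c * m ≤ q (D / m ^ 2)) :
    ∃ κ A : ℝ, 0 < κ ∧ κ ≤ A ∧ ∀ᶠ N : ℕ in atTop, κ * √N ≤ ∑ n ∈ Finset.range (N + 1), u n ∧
      ∑ n ∈ Finset.range (N + 1), u n ≤ A * √N := by
  obtain ⟨y₀, hy₀, h1⟩ := (nhdsGT_basis (0 : ℝ)).eventually_iff.1 h1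
  have hsD := Real.sqrt_pos.2 hD
  obtain ⟨L, hL, hL'⟩ : ∃ L : ℝ, 0 < L ∧ Real.exp (-(π * L)) * (2 * |C|) ≤ c / 2 * √D := by
    have t := ((Real.tendsto_exp_neg_atTop_nhds_zero.comp (tendsto_id.const_mul_atTop
      Real.pi_pos)).mul_const (2 * |C|)).eventually (ge_mem_nhds
        (show 0 * (2 * |C|) < c / 2 * √D by rw [zero_mul]; positivity))
    exact ((eventually_gt_atTop 0).and t).exists
  have hr : 0 < √(D / L) := by positivity
  refine ⟨c / 4 * √(D / L), max (c / 4 * √(D / L)) (Real.exp (2 * π) * C), by positivity,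
    le_max_left _ _, ?_⟩
  have t1 : Tendsto (fun N : ℕ => √(D / L) * √N) atTop atTop :=
    (Real.tendsto_sqrt_atTop.comp tendsto_natCast_atTop_atTop).const_mul_atTop hr
  have t2 : Tendsto (fun N : ℕ => ((N : ℝ))⁻¹) atTop (𝓝 0) := tendsto_inv_atTop_nhds_zero_nat
  filter_upwards [t1.eventually_ge_atTop 1, t2.eventually (gt_mem_nhds hy₀),
    (t2.const_mul (2 * L)).eventually (gt_mem_nhds (show 2 * L * 0 < y₀ by simpa using hy₀)),
    eventually_gt_atTop 0] with N a1 a2 a3 hN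
  have hN' : (0 : ℝ) < N := by exact_mod_cast hN
  have hs := Real.sqrt_pos.2 hN'
  constructor
  · set r := √(D / L) * √N with hr'
    have r2 : r ^ 2 = D / L * N := by
      rw [hr', mul_pow, Real.sq_sqrt (by positivity), Real.sq_sqrt hN'.le]
    have m1 : 0 < ⌊r⌋₊ := Nat.floor_pos.2 a1
    have m2 : (⌊r⌋₊ : ℝ) ≤ r := Nat.floor_le (by linarith)
    have m3 : r ≤ 2 * ⌊r⌋₊ := by
      have : (1 : ℝ) ≤ ⌊r⌋₊ := by exact_mod_cast m1
      linarith [Nat.lt_floor_add_one r]
    have k1 := h2 _ m1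
    have m0 : (0 : ℝ) < ⌊r⌋₊ := by exact_mod_cast m1
    generalize (⌊r⌋₊ : ℝ) = m at *
    set Y := D / m ^ 2 with hY
    have hY0 : 0 < Y := by positivity
    have y1 : L ≤ N * Y := by
      have := pow_le_pow_left₀ m0.le m2 2
      rw [r2, div_mul_eq_mul_div, le_div_iff₀ hL] at this
      rw [hY, ← mul_div_assoc, le_div_iff₀ (by positivity)]
      linarith
    have y2 : Y / 2 < y₀ := by
      refine lt_of_le_of_lt ?_ a3
      have := pow_le_pow_left₀ (by linarith) m3 2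
      rw [r2, div_mul_eq_mul_div, div_le_iff₀ hL] at this
      rw [hY, ← div_eq_mul_inv, div_div, div_le_div_iff₀ (by positivity) hN']
      linarith
    have k2 := h1 ⟨half_pos hY0, y2⟩
    have k3 : q Y ≤ ∑ n ∈ Finset.range (N + 1), u n + Real.exp (-(π * L)) * q (Y / 2) := by
      refine hasSum_le (fun n => ?_) (hq Y hY0) ((hasSum_sum_of_ne_finset_zero
        (f := fun n => if n ∈ Finset.range (N + 1) then u n else 0) fun n hn => if_neg hn).add
        ((hq _ (half_pos hY0)).mul_left (Real.exp (-(π * L))))) |>.trans (le_of_eq ?_)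
      · have b0 := hu n
        split_ifs with hn
        · refine le_trans (mul_le_of_le_one_right b0 (Real.exp_le_one_iff.2 ?_))
            (le_add_of_nonneg_right (by positivity))
          rw [neg_nonpos]; positivity
        · rw [zero_add, mul_left_comm, ← Real.exp_add]
          refine mul_le_mul_of_nonneg_left (Real.exp_le_exp.2 ?_) b0
          have b1 : (N : ℝ) ≤ n := by
            exact_mod_cast (show N ≤ n by rw [Finset.mem_range] at hn; omega)
          nlinarith [mul_le_mul_of_nonneg_left (y1.trans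
            (mul_le_mul_of_nonneg_right b1 hY0.le)) Real.pi_pos.le]
      · rw [Finset.sum_congr rfl fun n hn => if_pos hn]
    have k4 : √D ≤ 2 * m * √(Y / 2) := by
      refine Real.sqrt_le_iff.2 ⟨by positivity, ?_⟩
      rw [mul_pow, Real.sq_sqrt (by positivity), hY]
      field_simp
      linarith
    have k5 : 0 ≤ q (Y / 2) := (hq _ (half_pos hY0)).nonneg fun n => mul_nonneg (hu n) (by positivity)
    have k6 : √D * q (Y / 2) ≤ 2 * m * |C| := by
      nlinarith [mul_le_mul_of_nonneg_right k4 k5,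
        mul_le_mul_of_nonneg_left (k2.trans (le_abs_self C)) m0.le]
    have k7 : Real.exp (-(π * L)) * q (Y / 2) ≤ c / 2 * m := by
      refine le_of_mul_le_mul_left ?_ hsD
      nlinarith [mul_le_mul_of_nonneg_left k6 (Real.exp_pos (-(π * L))).le,
        mul_le_mul_of_nonneg_left hL' m0.le]
    nlinarith
  · have k1 := h1 ⟨inv_pos.2 hN', a2⟩
    rw [Real.sqrt_inv, inv_mul_le_iff₀ hs] at k1
    have k2 : ∑ n ∈ Finset.range (N + 1), u n ≤ Real.exp (2 * π) * q (N : ℝ)⁻¹ := by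
      refine le_trans (Finset.sum_le_sum fun n hn => ?_) (sum_le_hasSum (Finset.range (N + 1))
        (fun n _ => mul_nonneg (by positivity) (mul_nonneg (hu n) (by positivity)))
        ((hq _ (inv_pos.2 hN')).mul_left (Real.exp (2 * π))))
      rw [mul_left_comm, ← Real.exp_add]
      refine le_mul_of_one_le_right (hu n) (Real.one_le_exp ?_)
      have b1 : (n : ℝ) * (N : ℝ)⁻¹ ≤ 1 := by
        rw [← div_eq_mul_inv, div_le_one hN']
        exact_mod_cast Nat.lt_succ_iff.1 (Finset.mem_range.1 hn)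
      nlinarith [Real.pi_pos]
    refine k2.trans (le_trans ?_ (mul_le_mul_of_nonneg_right (le_max_right _ _) hs.le))
    nlinarith [Real.exp_pos (2 * π)]

theorem h8_order (hX : 0 < X) (hI : ∀ n : ℤ, X ≠ n) (hF : Sol X 1 F) {c : ℕ → ℝ}
    (h : ∀ (n : ℕ) (y : ℝ), 0 < y →
      fc 2 (nz F) n y = (c n * (y ^ (1 / 4 : ℝ) * Real.exp (-(π * n * y))) : ℝ)) :
    ∃ κ A : ℝ, 0 < κ ∧ κ ≤ A ∧ ∀ᶠ N : ℕ in atTop, κ * √N ≤ ∑ n ∈ Finset.range (N + 1), c n ^ 2 ∧
      ∑ n ∈ Finset.range (N + 1), c n ^ 2 ≤ A * √N := by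
  obtain ⟨C, hC⟩ := h8_up hX hF
  obtain ⟨D, hD, d, hd, hl⟩ := h8_low hX hI hF
  set P := fun y => ∫ x in (0 : ℝ)..2, ‖nz F (pt x y)‖ ^ 2 with hP
  have hq := fun y hy => h8_parseval hF h (y := y) hy
  have anti : ∀ y y', 0 < y → y ≤ y' → P y' / (2 * √y') ≤ P y / (2 * √y) := fun y y' hy hy' =>
    hasSum_le (fun n => mul_le_mul_of_nonneg_left (Real.exp_le_exp.2 (neg_le_neg (by gcongr)))
      (sq_nonneg _)) (hq y' (hy.trans_le hy')) (hq y hy)
  have nn : ∀ y, 0 < y → 0 ≤ P y / (2 * √y) := fun y hy => (hq y hy).nonneg fun n => by positivity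
  refine h8_tauber (fun n => sq_nonneg _) hq (C := C) ?_ hD
    (c := d / (2 * √(800 * D))) (by positivity) fun m hm => ?_
  · have t : Tendsto (fun y : ℝ => y / 3) (𝓝[>] 0) (𝓝[>] 0) :=
      tendsto_nhdsWithin_iff.2 ⟨by
        simpa using (tendsto_id.mono_left nhdsWithin_le_nhds : Tendsto id (𝓝[>] (0 : ℝ)) _).div_const 3,
        eventually_mem_nhdsWithin.mono fun y hy => Set.mem_Ioi.2 (div_pos hy three_pos)⟩
    filter_upwards [t.eventually hC, self_mem_nhdsWithin] with y a hy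
    have hy' : 0 < y / 3 := div_pos hy three_pos
    refine le_trans ?_ a
    rw [← win_const (√y * _) (y / 3)]
    refine win_mono ((approx_continuous_tent.smul continuous_const).intervalIntegrable _ _)
      (approx_win_int ((continuous_nz hF.hol).norm.pow 2) hy') hy' fun z hz => ?_
    have hz0 := hy'.trans_le hz.1
    have b1 := anti z y hz0 (by linarith [hz.2])
    have b2 : √y ≤ 2 * √z := Real.sqrt_le_iff.2 ⟨by positivity, by
      rw [mul_pow, Real.sq_sqrt hz0.le]; linarith [hz.1]⟩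
    refine (mul_le_mul b2 b1 (nn y hy) (by positivity)).trans (le_of_eq ?_)
    have := Real.sqrt_pos.2 hz0
    simp only [hP]
    field_simp
  · obtain ⟨y, hy, k⟩ := hl m hm
    have hm' : (0 : ℝ) < m := by exact_mod_cast hm
    have h0 : 0 < D / m ^ 2 := by positivity
    have hy0 := h0.trans_le hy.1
    refine le_trans ?_ (anti _ _ h0 hy.1)
    have b1 : √y * m ≤ √(800 * D) := by
      refine Real.le_sqrt_of_sq_le ?_
      rw [mul_pow, Real.sq_sqrt hy0.le, ← le_div_iff₀ (by positivity), mul_div_assoc]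
      exact hy.2
    have := Real.sqrt_pos.2 hy0
    rw [div_mul_eq_mul_div, div_le_div_iff₀ (by positivity) (by positivity)]
    nlinarith [mul_le_mul k b1 (by positivity) (hd.le.trans k)]

end Pool.Agent.Lib.MP_e6abdd_an
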