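import Pool.Agent.Lib.MP_e6abdd_an.Defs

/-!
Product measures on Legendre symbols: densities, Hellinger bound and the uniform test.
-/

namespace Pool.Agent.Lib.MP_e6abdd_an

open Complex hiding Gamma
open UpperHalfPlane hiding I
open MeasureTheory Filter Topology CongruenceSubgroup
open scoped Real MatrixGroups ComplexConjugate

theorem Op_map {A B : Type} [Ring A] [Ring B] (φ : A →+* B) (ι : ℝ →+* A) (M : ℕ → A)
    (L : List ℕ) (G : (ℕ → ℤ) → ℝ) :
    φ (Op ι M L G) = Op (φ.comp ι) (fun p => φ (M p)) L G := by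
  induction L generalizing G with
  | nil => simp [Op]
  | cons p L ih => simp only [Op, map_sum, map_mul, map_add, map_one, ih, RingHom.comp_apply]

theorem Op_congr {A : Type} [Ring A] (ι : ℝ →+* A) {M M' : ℕ → A} {L : List ℕ}
    (h : ∀ p ∈ L, M p = M' p) (G : (ℕ → ℤ) → ℝ) : Op ι M L G = Op ι M' L G := by
  induction L generalizing G with
  | nil => simp [Op]
  | cons p L ih =>
    simp only [Op, ih (fun q hq => h q (List.mem_cons_of_mem _ hq)), h p List.mem_cons_self]

theorem prob_cι {V : Type} [AddCommGroup V] [Module ℂ V] (r : ℝ) (v : V) :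
    cι (Module.End ℂ V) r v = (r : ℂ) • v := by
  simp [cι, Module.algebraMap_end_apply]

theorem prob_Ex_nil (m : ℕ → ℝ) (G : (ℕ → ℤ) → ℝ) : Ex m [] G = G 0 := rfl

theorem prob_Ex_cons (m : ℕ → ℝ) (p : ℕ) (L : List ℕ) (G : (ℕ → ℤ) → ℝ) :
    Ex m (p :: L) G = ∑ v ∈ ({-1, 0, 1} : Finset ℤ),
      wt p v * (Ex m L (fun e => G (Function.update e p v)) * (1 + v * m p)) := rfl

theorem Op_eig {V : Type} [AddCommGroup V] [Module ℂ V] {M : ℕ → Module.End ℂ V} {m : ℕ → ℝ}
    {L : List ℕ} {v : V} (h : ∀ p ∈ L, M p v = (m p : ℂ) • v) (G : (ℕ → ℤ) → ℝ) :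
    Op (cι (Module.End ℂ V)) M L G v = (Ex m L G : ℂ) • v := by
  induction L generalizing G with
  | nil => simp only [Op, prob_cι]; rfl
  | cons p L ih =>
    rw [prob_Ex_cons, Op, LinearMap.sum_apply, ofReal_sum, Finset.sum_smul]
    refine Finset.sum_congr rfl fun w _ => ?_
    simp only [Module.End.mul_apply, LinearMap.add_apply, Module.End.one_apply, prob_cι,
      h p List.mem_cons_self, map_add, map_smul,
      ih (fun q hq => h q (List.mem_cons_of_mem _ hq)), smul_smul, ← add_smul]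
    congr 1
    push_cast
    ring

/-- Naturality for an intertwining map. -/
theorem Op_intertwine {V W : Type} [AddCommGroup V] [Module ℂ V] [AddCommGroup W] [Module ℂ W]
    (E : V →ₗ[ℂ] W) {M : ℕ → Module.End ℂ V} {M' : ℕ → Module.End ℂ W} {L : List ℕ}
    (h : ∀ p ∈ L, ∀ v, M' p (E v) = E (M p v)) (G : (ℕ → ℤ) → ℝ) (v : V) :
    Op (cι (Module.End ℂ W)) M' L G (E v) = E (Op (cι (Module.End ℂ V)) M L G v) := by
  induction L generalizing G v with
  | nil => simp only [Op, prob_cι, map_smul]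
  | cons p L ih =>
    rw [Op, Op, LinearMap.sum_apply, LinearMap.sum_apply, map_sum]
    refine Finset.sum_congr rfl fun w _ => ?_
    simp only [Module.End.mul_apply, LinearMap.add_apply, Module.End.one_apply, prob_cι,
      h p List.mem_cons_self, map_add, map_smul,
      ih (fun q hq => h q (List.mem_cons_of_mem _ hq))]

theorem Test.update {p : ℕ} {L : List ℕ} {G : (ℕ → ℤ) → ℝ} (h : Test (p :: L) G) (v : ℤ) :
    Test L fun e => G (Function.update e p v) where
  nodup := h.nodup.of_cons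
  prime := fun q hq => h.prime q (List.mem_cons_of_mem _ hq)
  dep := fun e e' he => h.dep _ _ fun q hq => by
    by_cases hqp : q = p
    · subst hqp; simp
    · rw [Function.update_of_ne hqp, Function.update_of_ne hqp]
      exact he q ((List.mem_cons.1 hq).resolve_left hqp)
  nonneg := fun _ => h.nonneg _
  le_one := fun _ => h.le_one _

theorem prob_sum3 (f : ℤ → ℝ) : ∑ v ∈ ({-1, 0, 1} : Finset ℤ), f v = f (-1) + f 0 + f 1 := by
  rw [Finset.sum_insert (by decide), Finset.sum_insert (by decide), Finset.sum_singleton, add_assoc]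

theorem prob_wt_nonneg (p : ℕ) (v : ℤ) : 0 ≤ wt p v := by
  have h1 : (1 : ℝ) / p ≤ 1 := by
    rcases Nat.eq_zero_or_pos p with rfl | hp
    · simp
    · exact (div_le_one (by exact_mod_cast hp)).2 (by exact_mod_cast hp)
  unfold wt
  split_ifs
  · positivity
  · linarith

theorem prob_wt_zero (p : ℕ) : wt p 0 = 1 / p := by simp [wt]
theorem prob_wt_one (p : ℕ) : wt p 1 = (1 - 1 / p) / 2 := by simp [wt]
theorem prob_wt_neg (p : ℕ) : wt p (-1) = (1 - 1 / p) / 2 := by simp [wt]

theorem prob_Ex_const (m : ℕ → ℝ) (L : List ℕ) (c : ℝ) : Ex m L (fun _ => c) = c := by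
  induction L with
  | nil => rfl
  | cons p L ih =>
    rw [prob_Ex_cons, prob_sum3, ih, prob_wt_zero, prob_wt_one, prob_wt_neg]
    push_cast
    ring

theorem prob_Ex_add (m : ℕ → ℝ) (L : List ℕ) (G G' : (ℕ → ℤ) → ℝ) :
    Ex m L (fun e => G e + G' e) = Ex m L G + Ex m L G' := by
  induction L generalizing G G' with
  | nil => rfl
  | cons p L ih =>
    simp only [prob_Ex_cons, ih, ← Finset.sum_add_distrib]
    exact Finset.sum_congr rfl fun v _ => by ring

theorem prob_Ex_mul (m : ℕ → ℝ) (L : List ℕ) (c : ℝ) (G : (ℕ → ℤ) → ℝ) :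
    Ex m L (fun e => c * G e) = c * Ex m L G := by
  induction L generalizing G with
  | nil => rfl
  | cons p L ih =>
    simp only [prob_Ex_cons, ih, Finset.mul_sum]
    exact Finset.sum_congr rfl fun v _ => by ring

theorem prob_Ex_sub (m : ℕ → ℝ) (L : List ℕ) (G G' : (ℕ → ℤ) → ℝ) :
    Ex m L (fun e => G e - G' e) = Ex m L G - Ex m L G' := by
  have h := prob_Ex_add m L G fun e => -1 * G' e
  rw [prob_Ex_mul] at h
  simpa [sub_eq_add_neg] using h

/-- Monotonicity; the inequality is needed only for sequences of signs. -/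
theorem prob_Ex_mono {m : ℕ → ℝ} {L : List ℕ} (hm : ∀ p ∈ L, |m p| ≤ 1) {G G' : (ℕ → ℤ) → ℝ}
    (h : ∀ e : ℕ → ℤ, (∀ p, e p ∈ ({-1, 0, 1} : Finset ℤ)) → G e ≤ G' e) :
    Ex m L G ≤ Ex m L G' := by
  induction L generalizing G G' with
  | nil => exact h 0 fun _ => by simp
  | cons p L ih =>
    rw [prob_Ex_cons, prob_Ex_cons]
    refine Finset.sum_le_sum fun v hv => mul_le_mul_of_nonneg_left ?_ (prob_wt_nonneg p v)
    refine mul_le_mul_of_nonneg_right ?_ ?_
    · refine ih (fun q hq => hm q (List.mem_cons_of_mem _ hq)) fun e he => h _ fun q => ?_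
      by_cases hqp : q = p
      · subst hqp; rwa [Function.update_self]
      · rw [Function.update_of_ne hqp]; exact he q
    · have := abs_le.1 (hm p List.mem_cons_self)
      simp only [Finset.mem_insert, Finset.mem_singleton] at hv
      rcases hv with rfl | rfl | rfl <;> push_cast <;> linarith [this.1, this.2]

/-- The expectation of a product of functions of one coordinate. -/
theorem prob_Ex_prod (m : ℕ → ℝ) {L : List ℕ} (hL : L.Nodup) (f : ℕ → ℤ → ℝ) :
    Ex m L (fun e => (L.map fun p => f p (e p)).prod) =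
      (L.map fun p => ∑ v ∈ ({-1, 0, 1} : Finset ℤ), wt p v * (f p v * (1 + v * m p))).prod := by
  induction L with
  | nil => rfl
  | cons p L ih =>
    rw [prob_Ex_cons, List.map_cons, List.prod_cons, ← ih hL.of_cons, Finset.sum_mul]
    refine Finset.sum_congr rfl fun v _ => ?_
    have : (fun e : ℕ → ℤ => (List.map (fun q => f q (Function.update e p v q)) (p :: L)).prod) =
        fun e => f p v * (L.map fun q => f q (e q)).prod := by
      funext e
      rw [List.map_cons, List.prod_cons, Function.update_self]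
      congr 2
      refine List.map_congr_left fun q hq => ?_
      rw [Function.update_of_ne]
      rintro rfl
      exact (List.nodup_cons.1 hL).1 hq
    rw [this, prob_Ex_mul]
    ring

theorem Ex_mem {m : ℕ → ℝ} {L : List ℕ} {G : (ℕ → ℤ) → ℝ} (h : Test L G)
    (hm : ∀ p ∈ L, |m p| ≤ 1) : Ex m L G ∈ Set.Icc (0 : ℝ) 1 :=
  ⟨(prob_Ex_const m L 0).ge.trans (prob_Ex_mono hm fun e _ => h.nonneg e),
    (prob_Ex_mono hm fun e _ => h.le_one e).trans (prob_Ex_const m L 1).le⟩

theorem continuous_Ex {X : Type} [TopologicalSpace X] {m : X → ℕ → ℝ}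
    (hm : ∀ p, Continuous fun x => m x p) (L : List ℕ) (G : (ℕ → ℤ) → ℝ) :
    Continuous fun x => Ex (m x) L G := by
  induction L generalizing G with
  | nil => exact continuous_const
  | cons p L ih =>
    simp only [prob_Ex_cons]
    refine continuous_finsetSum _ fun v _ => continuous_const.mul ((ih _).mul ?_)
    exact continuous_const.add (continuous_const.mul (hm p))

theorem cp_pos {p : ℕ} (hp : 0 < p) : 0 < cp p := by
  have : (0 : ℝ) < p := by exact_mod_cast hp
  unfold cp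
  positivity

theorem cp_mul_cosh {p : ℕ} (hp : 0 < p) : cp p * Real.cosh (1 / 4 * (2 * Real.log p)) = 1 := by
  have h0 : (0 : ℝ) < p := by exact_mod_cast hp
  have h1 : Real.exp (1 / 4 * (2 * Real.log p)) = √p := by
    rw [Real.sqrt_eq_rpow, Real.rpow_def_of_pos h0]
    congr 1
    ring
  have h2 : 0 < √(p : ℝ) := Real.sqrt_pos.2 h0
  have h3 : √(p : ℝ) * √(p : ℝ) = p := Real.mul_self_sqrt h0.le
  rw [Real.cosh_eq, Real.exp_neg, h1, cp]
  field_simp
  nlinarith [h3]

theorem prob_periodic {f : ℕ → ℝ} {A : ℕ} (hA : 0 < A) (per : ∀ n, f (n % A) = f n) {μ : ℝ}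
    (hμ : ∑ n ∈ Finset.range A, f n = A * μ) :
    Tendsto (fun N : ℕ => (∑ n ∈ Finset.range N, f n) / N) atTop (𝓝 μ) := by
  set g : ℕ → ℝ := fun N => ∑ n ∈ Finset.range N, f n - N * μ with hg
  have h1 : ∀ N, g (N + A) = g N := by
    intro N
    induction N with
    | zero => simp [hg, hμ]
    | succ N ih =>
      have h2 : f (N + A) = f N := by rw [← per, Nat.add_mod_right, per]
      simp only [hg] at ih ⊢
      rw [show N + 1 + A = N + A + 1 by ring, Finset.sum_range_succ, Finset.sum_range_succ, h2]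
      push_cast at ih ⊢
      linarith
  have h2 : ∀ N, g (N % A) = g N := fun N => Function.Periodic.map_mod_nat h1 N
  have h3 : ∀ N, |g N| ≤ ∑ r ∈ Finset.range A, |g r| := fun N => by
    rw [← h2 N]
    exact Finset.single_le_sum (f := fun r => |g r|) (fun _ _ => abs_nonneg _)
      (Finset.mem_range.2 (Nat.mod_lt _ hA))
  have h4 : Tendsto (fun N : ℕ => g N / N) atTop (𝓝 0) := by
    refine squeeze_zero_norm (fun N => ?_)
      (tendsto_const_div_atTop_nhds_zero_nat (∑ r ∈ Finset.range A, |g r|))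
    rw [norm_div, Real.norm_eq_abs, Real.norm_natCast]
    exact div_le_div_of_nonneg_right (h3 N) (Nat.cast_nonneg N)
  have h5 := h4.add_const μ
  rw [zero_add] at h5
  refine h5.congr' ?_
  filter_upwards [eventually_gt_atTop 0] with N hN
  have : (N : ℝ) ≠ 0 := by exact_mod_cast hN.ne'
  simp only [hg]
  field_simp
  ring

theorem prob_crt {a b : ℕ → ℝ} {p A : ℕ} (hp : 0 < p) (hA : 0 < A) (co : p.Coprime A)
    (ha : ∀ n, a (n % p) = a n) (hb : ∀ n, b (n % A) = b n) :
    ∑ n ∈ Finset.range (p * A), a n * b n =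
      (∑ n ∈ Finset.range p, a n) * ∑ n ∈ Finset.range A, b n := by
  rw [Finset.sum_mul_sum, ← Finset.sum_product']
  refine Finset.sum_nbij (fun n => (n % p, n % A)) ?_ ?_ ?_ ?_
  · intro n _
    simp [Nat.mod_lt _ hp, Nat.mod_lt _ hA]
  · intro n hn n' hn' h
    simp only [Prod.mk.injEq] at h
    have h1 : n ≡ n' [MOD p * A] := (Nat.modEq_and_modEq_iff_modEq_mul co).1 h
    exact Nat.ModEq.eq_of_lt_of_lt h1 (by simpa using hn) (by simpa using hn')
  · rintro ⟨x, y⟩ hxy
    simp only [Finset.coe_product, Finset.coe_range, Set.mem_prod, Set.mem_Iio] at hxy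
    refine ⟨Nat.chineseRemainder co x y, by
      simpa using Nat.chineseRemainder_lt_mul co x y hp.ne' hA.ne', ?_⟩
    have h := (Nat.chineseRemainder co x y).2
    simp only [Prod.mk.injEq]
    exact ⟨Eq.trans h.1 (Nat.mod_eq_of_lt hxy.1), Eq.trans h.2 (Nat.mod_eq_of_lt hxy.2)⟩
  · intro n _
    simp only [ha, hb]

theorem prob_sum_jac {p : ℕ} (hp : p.Prime) (h2 : p ≠ 2) :
    ∑ n ∈ Finset.range p, (jacobiSym n p : ℝ) = 0 := by
  have := Fact.mk hp
  have h := quadraticChar_sum_zero (F := ZMod p) (by rwa [ZMod.ringChar_zmod_n])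
  have h3 : ∑ n ∈ Finset.range p, jacobiSym n p = ∑ a : ZMod p, quadraticChar (ZMod p) a := by
    refine Finset.sum_nbij' (fun n => (n : ZMod p)) ZMod.val ?_ ?_ ?_ ?_ ?_
    · simp
    · intro a _; exact Finset.mem_range.2 (ZMod.val_lt a)
    · intro n hn; exact ZMod.val_cast_of_lt (Finset.mem_range.1 hn)
    · intro a _; simp
    · intro n _
      rw [← jacobiSym.legendreSym.to_jacobiSym, legendreSym]
      simp
  exact_mod_cast h3.trans h

theorem prob_sum_jac_sq {p : ℕ} (hp : p.Prime) :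
    ∑ n ∈ Finset.range p, (jacobiSym n p : ℝ) ^ 2 = p - 1 := by
  obtain ⟨k, rfl⟩ : ∃ k, p = k + 1 := ⟨p - 1, (Nat.succ_pred_eq_of_pos hp.pos).symm⟩
  rw [Finset.sum_range_succ']
  have h0 : jacobiSym ((0 : ℕ) : ℤ) (k + 1) = 0 := jacobiSym.zero_left hp.one_lt
  have h1 : ∀ n ∈ Finset.range k, (jacobiSym ((n + 1 : ℕ) : ℤ) (k + 1) : ℝ) ^ 2 = 1 := by
    intro n hn
    have : ((n + 1 : ℕ) : ℤ).gcd ((k + 1 : ℕ) : ℤ) = 1 := by
      rw [Int.gcd_natCast_natCast]
      exact (Nat.coprime_of_lt_prime (Nat.succ_ne_zero n)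
        (Nat.succ_lt_succ (Finset.mem_range.1 hn)) hp).symm
    exact_mod_cast jacobiSym.sq_one this
  rw [Finset.sum_congr rfl h1, h0]
  simp

theorem Test.prob_pos {L : List ℕ} {G : (ℕ → ℤ) → ℝ} (h : Test L G) : 0 < L.prod :=
  List.prod_pos fun p hp => (h.prime p hp).1.pos

theorem Test.prob_per {L : List ℕ} {G : (ℕ → ℤ) → ℝ} (h : Test L G) (n : ℕ) :
    G (eps (n % L.prod : ℕ)) = G (eps n) := by
  refine h.dep _ _ fun p hp => jacobiSym.mod_left' ?_
  have := Nat.mod_mod_of_dvd n (List.dvd_prod hp)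
  exact_mod_cast this

theorem Test.prob_sum {L : List ℕ} {G : (ℕ → ℤ) → ℝ} (h : Test L G) :
    ∑ n ∈ Finset.range L.prod, G (eps n) = (L.prod : ℕ) * Ex 0 L G := by
  induction L generalizing G with
  | nil =>
    have : G (eps 0) = G 0 := h.dep _ _ (by simp)
    simp [prob_Ex_nil, this]
  | cons p L ih =>
    obtain ⟨hp, h2⟩ := h.prime p List.mem_cons_self
    have co : p.Coprime L.prod := by
      refine Nat.coprime_list_prod_right_iff.2 fun q hq => ?_
      refine (Nat.coprime_primes hp (h.prime q (List.mem_cons_of_mem _ hq)).1).2 ?_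
      rintro rfl
      exact (List.nodup_cons.1 h.nodup).1 hq
    have jper : ∀ n : ℕ, jacobiSym (n % p : ℕ) p = jacobiSym n p := fun n => by
      refine jacobiSym.mod_left' ?_
      exact_mod_cast Nat.mod_mod n p
    have key : ∀ (a : ℝ → ℝ) (v : ℤ), ∑ n ∈ Finset.range (p * L.prod),
        a (jacobiSym n p) * G (Function.update (eps n) p v) =
        (∑ n ∈ Finset.range p, a (jacobiSym n p)) *
          ((L.prod : ℕ) * Ex 0 L fun e => G (Function.update e p v)) := by
      intro a v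
      rw [← ih (h.update v)]
      exact prob_crt (a := fun n => a (jacobiSym n p))
        (b := fun n => G (Function.update (eps n) p v)) hp.pos (h.update v).prob_pos co
        (fun n => by rw [jper]) (h.update v).prob_per
    have hdec : ∀ n : ℕ, G (eps n) =
        (((jacobiSym n p : ℝ) ^ 2 - jacobiSym n p) / 2) * G (Function.update (eps n) p (-1)) +
        (1 - (jacobiSym n p : ℝ) ^ 2) * G (Function.update (eps n) p 0) +
        (((jacobiSym n p : ℝ) ^ 2 + jacobiSym n p) / 2) * G (Function.update (eps n) p 1) := by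
      intro n
      have h3 : G (eps n) = G (Function.update (eps n) p (jacobiSym n p)) :=
        congrArg G (Function.update_eq_self p (eps n)).symm
      rw [h3]
      rcases jacobiSym.trichotomy n p with h4 | h4 | h4 <;> rw [h4] <;> push_cast <;> ring
    have hp0 : (p : ℝ) ≠ 0 := by exact_mod_cast hp.ne_zero
    rw [List.prod_cons, Finset.sum_congr rfl fun n _ => hdec n, Finset.sum_add_distrib,
      Finset.sum_add_distrib, key (fun t => (t ^ 2 - t) / 2), key (fun t => 1 - t ^ 2),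
      key (fun t => (t ^ 2 + t) / 2), prob_Ex_cons, prob_sum3, prob_wt_zero, prob_wt_one,
      prob_wt_neg]
    simp only [← Finset.sum_div, Finset.sum_sub_distrib, Finset.sum_add_distrib,
      prob_sum_jac hp h2, prob_sum_jac_sq hp, Finset.sum_const, Finset.card_range, Pi.zero_apply,
      nsmul_eq_mul, Nat.cast_mul]
    field_simp
    ring

theorem Test.density {L : List ℕ} {G : (ℕ → ℤ) → ℝ} (h : Test L G) :
    Tendsto (fun N : ℕ => (∑ n ∈ Finset.range N, G (eps n)) / N) atTop (𝓝 (Ex 0 L G)) :=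
  prob_periodic (f := fun n => G (eps n)) h.prob_pos h.prob_per h.prob_sum

theorem good_one : Good 0 [] fun _ => 1 where
  nodup := List.nodup_nil
  prime := by simp
  dep := fun _ _ _ => rfl
  nonneg := fun _ => zero_le_one
  le_one := fun _ => le_rfl
  big := by simp [prob_Ex_nil]

theorem Good.mono {ε ε' : ℝ} {L : List ℕ} {G : (ℕ → ℤ) → ℝ} (h : Good ε L G) (h' : ε ≤ ε') :
    Good ε' L G :=
  ⟨h.toTest, by linarith [h.big]⟩

theorem Test.prob_sub {L L' : List ℕ} {G : (ℕ → ℤ) → ℝ} (h : Test L G) (hL : L ⊆ L')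
    (h1 : L'.Nodup) (h2 : ∀ p ∈ L', p.Prime ∧ p ≠ 2) : Test L' G :=
  ⟨h1, h2, fun e e' he => h.dep e e' fun p hp => he p (hL hp), h.nonneg, h.le_one⟩

theorem Good.mul {ε ε' : ℝ} {L L' : List ℕ} {G G' : (ℕ → ℤ) → ℝ} (h : Good ε L G)
    (h' : Good ε' L' G') : ∃ L'', Good (ε + ε') L'' fun e => G e * G' e := by
  have h1 : (L ∪ L').Nodup := h'.nodup.union L
  have h2 : ∀ p ∈ L ∪ L', p.Prime ∧ p ≠ 2 := fun p hp =>
    (List.mem_union_iff.1 hp).elim (h.prime p) (h'.prime p)
  have t1 := h.toTest.prob_sub (fun p hp => List.mem_union_iff.2 (Or.inl hp)) h1 h2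
  have t2 := h'.toTest.prob_sub (fun p hp => List.mem_union_iff.2 (Or.inr hp)) h1 h2
  have e1 : Ex 0 (L ∪ L') G = Ex 0 L G := tendsto_nhds_unique t1.density h.toTest.density
  have e2 : Ex 0 (L ∪ L') G' = Ex 0 L' G' := tendsto_nhds_unique t2.density h'.toTest.density
  refine ⟨L ∪ L', ⟨h1, h2, fun e e' he => by rw [t1.dep e e' he, t2.dep e e' he],
    fun e => mul_nonneg (h.nonneg e) (h'.nonneg e),
    fun e => mul_le_one₀ (h.le_one e) (h'.nonneg e) (h'.le_one e)⟩, ?_⟩
  have h3 : Ex 0 (L ∪ L') (fun e => (G e + G' e) - 1) ≤ Ex 0 (L ∪ L') fun e => G e * G' e :=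
    prob_Ex_mono (by simp) fun e _ => by
      nlinarith [mul_nonneg (sub_nonneg.2 (h.le_one e)) (sub_nonneg.2 (h'.le_one e))]
  rw [prob_Ex_sub, prob_Ex_add, prob_Ex_const, e1, e2] at h3
  linarith [h.big, h'.big]

theorem prob_factor {p : ℕ} (hp : 3 ≤ p) {a m : ℝ} (ha : |a| ≤ 1) (h : a ^ 2 ≤ a * m) :
    ∑ v ∈ ({-1, 0, 1} : Finset ℤ), wt p v * ((1 + a / 2 * v)⁻¹ * (1 + v * m)) ≤
      Real.exp (-(a ^ 2 / 6)) := by
  obtain ⟨h1, h2⟩ := abs_le.1 ha
  have h3 : (0 : ℝ) < 1 + a / 2 := by linarith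
  have h4 : (0 : ℝ) < 1 - a / 2 := by linarith
  have h5 : (1 : ℝ) / p ≤ 1 / 3 :=
    one_div_le_one_div_of_le (by norm_num) (by exact_mod_cast hp)
  have h6 : (1 - a / 2)⁻¹ * (1 - m) + (1 + a / 2)⁻¹ * (1 + m) ≤ 2 * (1 - a ^ 2 / 4) := by
    have h7 : (1 - a / 2)⁻¹ * (1 - m) + (1 + a / 2)⁻¹ * (1 + m) =
        (2 - a * m) / ((1 - a / 2) * (1 + a / 2)) := by
      rw [eq_div_iff (mul_pos h4 h3).ne', add_mul, mul_mul_mul_comm, inv_mul_cancel₀ h4.ne',
        mul_comm (1 - a / 2), mul_mul_mul_comm, inv_mul_cancel₀ h3.ne']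
      ring
    rw [h7, div_le_iff₀ (mul_pos h4 h3)]
    nlinarith [sq_nonneg (a ^ 2)]
  refine le_trans ?_ (Real.add_one_le_exp _)
  rw [prob_sum3, prob_wt_zero, prob_wt_one, prob_wt_neg]
  push_cast
  simp only [mul_neg, mul_one, mul_zero, add_zero, inv_one, zero_mul, one_mul, neg_mul,
    ← sub_eq_add_neg]
  generalize (1 : ℝ) / p = q at h5
  nlinarith [mul_le_mul_of_nonneg_left h6 (show 0 ≤ (1 - q) / 2 by linarith),
    mul_nonneg (sq_nonneg a) (sub_nonneg.2 h5)]

theorem hellinger {m₀ : ℕ → ℝ} (h1 : ∀ p, |m₀ p| ≤ 1)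
    (h : ¬ Summable fun p : Nat.Primes => m₀ p ^ 2) {ε : ℝ} (hε : 0 < ε) :
    ∃ L G, Good ε L G ∧ ∀ m : ℕ → ℝ, (∀ p ∈ L, |m p| ≤ 1 ∧ m₀ p ^ 2 ≤ m₀ p * m p) →
      Ex m L G ≤ ε := by
  classical
  obtain ⟨s, hs⟩ : ∃ s : Finset Nat.Primes, -6 * Real.log (ε ^ 2) + 1 < ∑ p ∈ s, m₀ p ^ 2 := by
    by_contra hc
    push Not at hc
    exact h (summable_of_sum_le (fun p => sq_nonneg _) hc)
  set t : Finset ℕ := (s.map ⟨Subtype.val, Subtype.val_injective⟩).erase 2 with ht
  have hts : -6 * Real.log (ε ^ 2) ≤ ∑ p ∈ t, m₀ p ^ 2 := by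
    have h2 : ∑ p ∈ s.map ⟨Subtype.val, Subtype.val_injective⟩, m₀ p ^ 2 = ∑ p ∈ s, m₀ p ^ 2 :=
      Finset.sum_map _ _ _
    have h3 : m₀ 2 ^ 2 ≤ 1 := by
      rw [← sq_abs]; exact pow_le_one₀ (abs_nonneg _) (h1 2)
    by_cases h4 : 2 ∈ s.map ⟨Subtype.val, Subtype.val_injective⟩
    · have := Finset.add_sum_erase _ (fun p => m₀ p ^ 2) h4
      linarith
    · rw [ht, Finset.erase_eq_of_notMem h4]
      linarith
  have hpr : ∀ p ∈ t.toList, p.Prime ∧ p ≠ 2 := by
    intro p hp
    rw [Finset.mem_toList, ht, Finset.mem_erase, Finset.mem_map] at hp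
    obtain ⟨h2, q, -, rfl⟩ := hp
    exact ⟨q.2, h2⟩
  set Λ : (ℕ → ℤ) → ℝ := fun e => ∏ p ∈ t, (1 + m₀ p / 2 * e p) with hΛ
  have hpos : ∀ e : ℕ → ℤ, (∀ p, e p ∈ ({-1, 0, 1} : Finset ℤ)) → 0 < Λ e := by
    intro e he
    refine Finset.prod_pos fun p _ => ?_
    have h2 := he p
    obtain ⟨h3, h4⟩ := abs_le.1 (h1 p)
    simp only [Finset.mem_insert, Finset.mem_singleton] at h2
    rcases h2 with h2 | h2 | h2 <;> rw [h2] <;> push_cast <;> linarith
  refine ⟨t.toList, fun e => if ε * Λ e ≤ 1 then 1 else 0,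
    ⟨⟨t.nodup_toList, hpr, fun e e' he => ?_, fun e => ?_, fun e => ?_⟩, ?_⟩, fun m hm => ?_⟩
  · have : Λ e = Λ e' := Finset.prod_congr rfl fun p hp => by rw [he p (Finset.mem_toList.2 hp)]
    rw [this]
  · split_ifs <;> norm_num
  · split_ifs <;> norm_num
  · have h2 : Ex 0 t.toList Λ = 1 := by
      have h3 := prob_Ex_prod 0 t.nodup_toList fun p v => 1 + m₀ p / 2 * v
      simp only [Finset.prod_map_toList] at h3
      rw [hΛ, h3]
      refine Finset.prod_eq_one fun p _ => ?_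
      rw [prob_sum3, prob_wt_zero, prob_wt_one, prob_wt_neg]
      simp only [Pi.zero_apply]
      push_cast
      ring
    have h3 : Ex 0 t.toList (fun e => 1 - ε * Λ e) ≤
        Ex 0 t.toList fun e => if ε * Λ e ≤ 1 then 1 else 0 := by
      refine prob_Ex_mono (by simp) fun e he => ?_
      have := mul_pos hε (hpos e he)
      split_ifs <;> linarith
    rwa [prob_Ex_sub, prob_Ex_const, prob_Ex_mul, h2, mul_one] at h3
  · have h2 : Ex m t.toList (fun e => (Λ e)⁻¹) ≤ ε ^ 2 := by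
      have h3 := prob_Ex_prod m t.nodup_toList fun p v => (1 + m₀ p / 2 * v)⁻¹
      simp only [Finset.prod_map_toList, Finset.prod_inv_distrib] at h3
      rw [hΛ, h3]
      refine (Finset.prod_le_prod (g := fun p => Real.exp (-(m₀ p ^ 2 / 6))) (fun p hp => ?_)
        fun p hp => ?_).trans ?_
      · refine Finset.sum_nonneg fun v hv => mul_nonneg (prob_wt_nonneg p v) ?_
        obtain ⟨h4, h5⟩ := abs_le.1 (h1 p)
        obtain ⟨h6, h7⟩ := abs_le.1 (hm p (Finset.mem_toList.2 hp)).1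
        simp only [Finset.mem_insert, Finset.mem_singleton] at hv
        rcases hv with rfl | rfl | rfl <;> push_cast <;>
          exact mul_nonneg (inv_nonneg.2 (by linarith)) (by linarith)
      · obtain ⟨h4, h5⟩ := hpr p (Finset.mem_toList.2 hp)
        exact prob_factor (by have := h4.two_le; omega) (h1 p) (hm p (Finset.mem_toList.2 hp)).2
      · rw [← Real.exp_sum, ← Real.exp_log (pow_pos hε 2), Real.exp_le_exp,
          Finset.sum_neg_distrib, ← Finset.sum_div]
        linarith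
    have h3 : Ex m t.toList (fun e => if ε * Λ e ≤ 1 then 1 else 0) ≤
        Ex m t.toList fun e => ε⁻¹ * (Λ e)⁻¹ := by
      refine prob_Ex_mono (fun p hp => (hm p hp).1) fun e he => ?_
      have := mul_pos hε (hpos e he)
      rw [← mul_inv]
      split_ifs with h4
      · exact (one_le_inv₀ this).2 h4
      · exact (inv_pos.2 this).le
    rw [prob_Ex_mul] at h3
    calc _ ≤ ε⁻¹ * ε ^ 2 := h3.trans (mul_le_mul_of_nonneg_left h2 (inv_pos.2 hε).le)
      _ = ε := by field_simp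

end Pool.Agent.Lib.MP_e6abdd_an
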