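import Pool.Agent.Lib.MP_e6abdd_an.HeckeB
import Pool.Agent.Lib.MP_e6abdd_an.Prob

/-!
Hecke operators.
-/

namespace Pool.Agent.Lib.MP_e6abdd_an

open Complex hiding Gamma
open UpperHalfPlane hiding I
open MeasureTheory Filter Topology CongruenceSubgroup
open scoped Real MatrixGroups ComplexConjugate

open scoped InnerProductSpace

noncomputable section

variable {j : ℤ} {p q : ℕ}

open Classical in
/-- The Hecke operator on `AH j`; zero unless `p` is an odd prime. -/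
def TA (j : ℤ) (p : ℕ) : Module.End ℂ (AH j) :=
  if h : p.Prime ∧ p ≠ 2 then
    { toFun f := AH.mk (TT p f.fn) (f.bc.TT h.1.pos) (f.aut.TT h.1 h.2)
      map_add' f g := AH.ext fun τ => by
        simp only [AH.fn_mk, TT, AH.fn_add, Finset.sum_add_distrib, mul_add]; ring
      map_smul' c f := AH.ext fun τ => by
        simp only [AH.fn_mk, TT, AH.fn_smul, RingHom.id_apply, mul_add, Finset.mul_sum]
        congr 1
        exact Finset.sum_congr rfl fun i _ => by ring }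
  else 0

theorem TA_fn (hp : p.Prime) (h2 : p ≠ 2) (f : AH j) : (TA j p f).fn = TT p f.fn := by
  rw [TA, dif_pos ⟨hp, h2⟩]; rfl

theorem TA_of_not (h : ¬ (p.Prime ∧ p ≠ 2)) : TA j p = 0 := by
  rw [TA, dif_neg h]

theorem inner_ip (f g : AH j) : ⟪f, g⟫_ℂ = ip f.fn g.fn := rfl

theorem inner_TA (f g : AH j) : ⟪TA j p f, g⟫_ℂ = ⟪f, TA j p g⟫_ℂ := by
  by_cases h : p.Prime ∧ p ≠ 2
  · rw [inner_ip, inner_ip, TA_fn h.1 h.2, TA_fn h.1 h.2, ip_TT_symm h.1 h.2 f.am g.am]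
  · simp [TA_of_not h]

theorem TA_comm (f : AH j) : TA j p (TA j q f) = TA j q (TA j p f) := by
  by_cases h : p.Prime ∧ p ≠ 2
  · by_cases h' : q.Prime ∧ q ≠ 2
    · by_cases e : p = q
      · rw [e]
      · refine ext_inner_left ℂ fun g => ?_
        rw [← inner_TA, ← inner_TA (p := q) g, inner_ip, inner_ip, TA_fn h.1 h.2, TA_fn h.1 h.2,
          TA_fn h'.1 h'.2, TA_fn h'.1 h'.2, ip_TT_TT h.1 h.2 h'.1 h'.2 e g.am f.am]
    · simp [TA_of_not h']
  · simp [TA_of_not h]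

theorem TA_SA (f : AH j) : TA j p (SA j f) = SA j (TA j p f) := by
  by_cases h : p.Prime ∧ p ≠ 2
  · refine ext_inner_left ℂ fun g => ?_
    rw [← inner_SA, inner_ip, inner_ip, TA_fn h.1 h.2, TA_fn h.1 h.2, SA_fn, SA_fn,
      ip_TT_sop h.1 h.2 g.am f.am]
  · simp [TA_of_not h]

/-- The normalised Hecke operator. -/
def MA (j : ℤ) (p : ℕ) : Module.End ℂ (AH j) := ((sg p * √p / (p ^ 2 + p) : ℝ) : ℂ) • TA j p

variable {M M' : ℕ} {f g h : ℍ → ℂ}

/-- Functions of period two. -/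
def Per (f : ℍ → ℂ) : Prop := ∀ τ, f (aff 1 2 τ) = f τ

theorem Per.tr (hf : Per f) (p : ℕ) (i : ℤ) : Per (tr p i f) := fun τ => by
  rw [MP_e6abdd_an.tr, MP_e6abdd_an.tr, ← hf (aff 1 (2 * i / p) τ), aff_aff one_pos one_pos,
    aff_aff one_pos one_pos, one_mul, one_mul, one_mul, add_comm]

theorem ip_tendsto (hg : AM j M g) (hf : AM j M' f) (pg : Per g) (pf : Per f) :
    Tendsto (win fun y => ∑' n : ℤ, conj (fc 2 g n y) * fc 2 f n y) (𝓝[>] 0) (𝓝 (ip g f)) := by
  refine ((hg.ll hf).tendsto_fc two_pos fun τ => by rw [pg, pf]).congr' ?_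
  filter_upwards [self_mem_nhdsWithin] with Y hY
  exact win_congr hY fun y hy => (parseval hg.bc.cont hf.bc.cont two_pos hy).tsum_eq.symm

theorem ip_eq_of_fc {M₁ M₂ : ℕ} {g' f' : ℍ → ℂ} (hg : AM j M g) (hf : AM j M' f) (pg : Per g)
    (pf : Per f) (hg' : AM j M₁ g') (hf' : AM j M₂ f') (pg' : Per g') (pf' : Per f')
    (h : ∀ n y, 0 < y → conj (fc 2 g n y) * fc 2 f n y = conj (fc 2 g' n y) * fc 2 f' n y) :
    ip g f = ip g' f' := by
  refine tendsto_nhds_unique_of_eventuallyEq (ip_tendsto hg hf pg pf)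
    (ip_tendsto hg' hf' pg' pf') ?_
  filter_upwards [self_mem_nhdsWithin] with Y hY
  exact win_congr hY fun y hy => tsum_congr fun n => h n y hy

/-- The projection on the frequencies with Legendre symbol `v`. -/
def pr (p : ℕ) (v : ℤ) (f : ℍ → ℂ) (τ : ℍ) : ℂ :=
  (v ^ 2 / 2 * f τ + (1 - 3 * v ^ 2 / 2) / p * tZ p f τ) + v * sg p / (2 * (√p : ℝ)) * tX p f τ

theorem AM.tZ (hf : AM j M f) (hp : 0 < p) : AM j (M * p ^ 2) (tZ p f) :=
  AM.sum (hf.dn hp).pos fun i _ => hf.tr hp i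

theorem AM.tX (hf : AM j M f) (hp : 0 < p) : AM j (M * p ^ 2) (tX p f) :=
  AM.sum (hf.dn hp).pos fun i _ => (hf.tr hp i).smul _

theorem AM.pr (hf : AM j M f) (hp : 0 < p) (v : ℤ) : AM j (M * p ^ 2) (pr p v f) :=
  (((hf.mono (dvd_mul_right _ _) (hf.dn hp).pos).smul _).add ((hf.tZ hp).smul _)).add
    ((hf.tX hp).smul _)

theorem Per.pr (hf : Per f) (p : ℕ) (v : ℤ) : Per (pr p v f) := fun τ => by
  simp only [MP_e6abdd_an.pr, tZ, tX, hf τ, hf.tr p _ τ]

theorem sg_sq (p : ℕ) : (sg p : ℂ) ^ 2 = 1 := by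
  rcases sg_eq p with h | h <;> simp [h]

theorem fc_pr (hp : p.Prime) (h2 : p ≠ 2) (hf : AM j M f) (pf : Per f) {v : ℤ}
    (hv : v ∈ ({-1, 0, 1} : Finset ℤ)) (n : ℤ) {y : ℝ} (hy : 0 < y) :
    fc 2 (pr p v f) n y = (if jacobiSym n p = v then 1 else 0) * fc 2 f n y := by
  have c0 := hf.bc.cont
  have c1 := (hf.tZ hp.pos).bc.cont
  have c2 := (hf.tX hp.pos).bc.cont
  have hp' : (p : ℂ) ≠ 0 := by exact_mod_cast hp.ne_zero
  have h0 : ((√(p : ℝ) : ℝ) : ℂ) ≠ 0 :=
    ofReal_ne_zero.2 (Real.sqrt_pos.2 (by exact_mod_cast hp.pos)).ne'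
  have hd : (p : ℤ) ∣ n ↔ jacobiSym n p = 0 := by
    have := Fact.mk hp
    rw [← jacobiSym.legendreSym.to_jacobiSym, legendreSym.eq_zero_iff,
      ZMod.intCast_zmod_eq_zero_iff_dvd]
  unfold pr
  rw [fc_add (by fun_prop) (by fun_prop) n hy, fc_add (by fun_prop) (by fun_prop) n hy, fc_smul,
    fc_smul, fc_smul, fc_tZ hp.pos c0 pf n hy, fc_tX hp h2 c0 pf n hy]
  simp only [hd, ← mul_assoc, ← add_mul]
  congr 1
  have hs := sg_sq p
  simp only [Finset.mem_insert, Finset.mem_singleton] at hv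
  rcases jacobiSym.trichotomy n p with e | e | e <;> rcases hv with rfl | rfl | rfl <;>
    simp [e] <;> field_simp <;> simp [hs] <;> norm_num

theorem ip_pr (hp : p.Prime) (h2 : p ≠ 2) (hM : p.Coprime M) (hh : AM j M h) (g : AH j) {v : ℤ}
    (hv : v ∈ ({-1, 0, 1} : Finset ℤ)) :
    ip h (pr p v g.fn) = wt p v * (ip h g.fn + v * ip h (MA j p g).fn) := by
  obtain ⟨k, hk⟩ : ∃ k, p = k + 1 := ⟨p - 1, (Nat.succ_pred_eq_of_pos hp.pos).symm⟩
  have hk' : (p : ℂ) = k + 1 := by rw [hk]; push_cast; rfl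
  have hs : ∀ F : ℕ → ℂ, ∑ i ∈ Finset.range p, F i = ∑ i ∈ Finset.range k, F (i + 1) + F 0 :=
    fun F => hk ▸ Finset.sum_range_succ' F k
  have hlt : ∀ i ∈ Finset.range k, i + 1 < p := fun i hi => by
    have := Finset.mem_range.1 hi; omega
  have hp' : (p : ℂ) ≠ 0 := by exact_mod_cast hp.ne_zero
  have hp1 : (p : ℂ) + 1 ≠ 0 := by exact_mod_cast p.succ_ne_zero
  have h0 : ((√(p : ℝ) : ℝ) : ℂ) ≠ 0 :=
    ofReal_ne_zero.2 (Real.sqrt_pos.2 (by exact_mod_cast hp.pos)).ne'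
  have hsq : ((√(p : ℝ) : ℝ) : ℂ) ^ 2 = p := by
    rw [← ofReal_pow, Real.sq_sqrt (Nat.cast_nonneg p)]; simp
  have hg := g.am
  have htr := fun (i : ℕ) (hi : i ∈ Finset.range k) => ip_tr hp h2 hM hh hg (i := i + 1)
    i.succ_ne_zero (hlt i hi)
  have eX : ip h (tX p g.fn) = k * ip h (dn p g.fn) := by
    unfold tX
    rw [ip_sum hh fun i _ => (hg.tr hp.pos _).smul _, hs,
      Finset.sum_congr rfl fun i hi => (ip_smul hh (hg.tr hp.pos _) _).trans (htr i hi),
      ip_smul hh (hg.tr hp.pos _)]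
    simp [om_zero hp]
  have eZ : ip h (tZ p g.fn) = ip h g.fn := by
    have h1 : ∀ i ∈ Finset.range k, ip h (tr p ((i + 1 : ℕ) : ℤ) g.fn) =
        conj (om p ((i + 1 : ℕ) : ℤ)) * ip h (dn p g.fn) := fun i hi => by
      have h3 := jac_sq (a := -((i + 1 : ℕ) : ℤ)) (d := p) (coprime_of_lt hp i.succ_ne_zero
        (hlt i hi)).symm.neg_left
      have : conj (om p ((i + 1 : ℕ) : ℤ)) * om p ((i + 1 : ℕ) : ℤ) = 1 := by
        rw [Int.natAbs_natCast] at h3
        have h4 : ((jacobiSym (-((i + 1 : ℕ) : ℤ)) p : ℤ) : ℂ) ^ 2 = 1 := by exact_mod_cast h3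
        rw [om, map_mul, map_intCast]
        split_ifs
        · rw [map_one]; linear_combination h4
        · rw [conj_I]; linear_combination h4 - (jacobiSym (-((i + 1 : ℕ) : ℤ)) p : ℂ) ^ 2 * I_sq
      rw [← htr i hi, ← mul_assoc, this, one_mul]
    have h3 := sum_om hp h2 0
    rw [jacobiSym.zero_left hp.one_lt, hs] at h3
    simp only [Int.cast_zero, mul_zero, zero_mul, zero_div, exp_zero, mul_one, Nat.cast_zero,
      om_zero hp, add_zero] at h3
    unfold tZ
    rw [ip_sum hh fun i _ => hg.tr hp.pos _, hs, Finset.sum_congr rfl h1,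
      ← Finset.sum_mul, ← map_sum, h3]
    simp only [map_zero, zero_mul, zero_add]
    congr 1
    funext τ
    simp [tr, aff_one_zero]
  have eM : ip h (MA j p g).fn = sg p * (√(p : ℝ) : ℝ) * ip h (dn p g.fn) := by
    have : (MA j p g).fn = fun τ => ((sg p * √p / (p ^ 2 + p) : ℝ) : ℂ) * TT p g.fn τ := by
      funext τ; rw [← TA_fn hp h2]; rfl
    rw [this, ip_smul hh (hg.TT hp h2), ip_TT hp h2 hM hh hg]
    push_cast
    field_simp
  have a1 := hg.mono (dvd_mul_right 1 (p ^ 2)) (hg.dn hp.pos).pos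
  unfold pr
  rw [ip_add hh ((a1.smul _).add ((hg.tZ hp.pos).smul _)) ((hg.tX hp.pos).smul _),
    ip_add hh (a1.smul _) ((hg.tZ hp.pos).smul _), ip_smul hh a1, ip_smul hh (hg.tZ hp.pos),
    ip_smul hh (hg.tX hp.pos), eX, eZ, eM, show (k : ℂ) = p - 1 by rw [hk']; ring]
  simp only [Finset.mem_insert, Finset.mem_singleton] at hv
  rcases hv with rfl | rfl | rfl <;> simp [wt] <;> field_simp
  · linear_combination (sg p * (p - 1) * ip h (dn p g.fn)) * hsq
  · linear_combination -(sg p * (p - 1) * ip h (dn p g.fn)) * hsq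

theorem ip_pr_comm (hp : p.Prime) (h2 : p ≠ 2) (hh : AM j M h) (hg : AM j M' g) (ph : Per h)
    (pg : Per g) {v : ℤ} (hv : v ∈ ({-1, 0, 1} : Finset ℤ)) :
    ip (pr p v h) g = ip h (pr p v g) :=
  ip_eq_of_fc (hh.pr hp.pos v) hg (ph.pr p v) pg hh (hg.pr hp.pos v) ph (pg.pr p v)
    fun n y hy => by
      rw [fc_pr hp h2 hh ph hv n hy, fc_pr hp h2 hg pg hv n hy]
      split_ifs <;> simp

theorem exists_twist (f : AH j) {L : List ℕ} {G : (ℕ → ℤ) → ℝ} (h : Test L G) :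
    ∃ f' : ℍ → ℂ, AM j (L.prod ^ 2) f' ∧ Per f' ∧
      (∀ n y, 0 < y → fc 2 f' n y = G (eps n) * fc 2 f.fn n y) ∧
      ∀ g : AH j, ip f' g.fn = ⟪f, Op (cι (Module.End ℂ (AH j))) (MA j) L G g⟫_ℂ := by
  induction L generalizing G with
  | nil =>
    refine ⟨fun τ => G 0 * f.fn τ, by simpa using f.am.smul _, fun τ => by simp only [f.aut.per],
      fun n y _ => by rw [fc_smul, h.dep (eps n) 0 (by simp)], fun g => ?_⟩
    rw [← ip_conj g.am (f.am.smul _), ip_smul g.am f.am, map_mul, ip_conj g.am f.am, Op, prob_cι,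
      inner_smul_right, conj_ofReal, inner_ip]
  | cons p L ih =>
    choose F hF pF cF iF using fun v => ih (h.update v)
    obtain ⟨hp, h2⟩ := h.prime p (by simp)
    have hM : p.Coprime (L.prod ^ 2) := by
      refine (Nat.coprime_list_prod_right_iff.2 fun q hq => ?_).pow_right 2
      refine (Nat.coprime_primes hp (h.prime q (by simp [hq])).1).2 ?_
      rintro rfl
      exact (List.nodup_cons.1 h.nodup).1 hq
    have hA := fun v => (hF v).pr hp.pos v
    have hA' := AM.sum (s := {-1, 0, 1}) (hA 0).pos fun v _ => hA v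
    refine ⟨fun τ => ∑ v ∈ ({-1, 0, 1} : Finset ℤ), pr p v (F v) τ, ?_, fun τ => ?_,
      fun n y hy => ?_, fun g => ?_⟩
    · rwa [List.prod_cons, mul_pow, mul_comm]
    · exact Finset.sum_congr rfl fun v _ => (pF v).pr p v τ
    · rw [fc_sum (fun v _ => (hA v).bc.cont) n hy,
        Finset.sum_congr rfl fun v hv => fc_pr hp h2 (hF v) (pF v) hv n hy,
        Finset.sum_eq_single (jacobiSym n p)]
      · rw [if_pos rfl, one_mul, cF _ n y hy]
        congr 3
        exact Function.update_eq_self p (eps n)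
      · intro v _ hv; rw [if_neg hv.symm, zero_mul]
      · intro hv
        exact absurd (by rcases jacobiSym.trichotomy n p with e | e | e <;> simp [e]) hv
    · rw [← ip_conj g.am hA', ip_sum g.am fun v _ => hA v, map_sum, Op, LinearMap.sum_apply,
        inner_sum]
      refine Finset.sum_congr rfl fun v hv => ?_
      rw [ip_conj g.am (hA v), ip_pr_comm hp h2 (hF v) g.am (pF v) g.aut.per hv,
        ip_pr hp h2 hM (hF v) g hv, iF, iF]
      simp only [Module.End.mul_apply, prob_cι, LinearMap.add_apply, Module.End.one_apply, map_add,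
        map_smul, inner_smul_right, inner_add_right, ofReal_intCast]
      ring

theorem op_tendsto {L : List ℕ} {G : (ℕ → ℤ) → ℝ} (h : Test L G) (f : AH j) :
    Tendsto (win fun y => ∑' n : ℤ, G (eps n) * ‖fc 2 f.fn n y‖ ^ 2) (𝓝[>] 0)
      (𝓝 (re ⟪f, Op (cι (Module.End ℂ (AH j))) (MA j) L G f⟫_ℂ)) := by
  obtain ⟨f', h1, h2, h3, h4⟩ := exists_twist f h
  rw [← h4]
  refine ((Complex.continuous_re.tendsto _).comp (ip_tendsto h1 f.am h2 f.aut.per)).congr' ?_
  filter_upwards [self_mem_nhdsWithin] with Y hY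
  rw [Function.comp, win_congr hY (b := fun y =>
    ((∑' n : ℤ, G (eps n) * ‖fc 2 f.fn n y‖ ^ 2 : ℝ) : ℂ)) fun y hy => ?_]
  · simp only [win, real_smul, ← ofReal_mul, intervalIntegral.integral_ofReal, ofReal_re,
      smul_eq_mul]
  · rw [ofReal_tsum]
    refine tsum_congr fun n => ?_
    rw [h3 n y hy, map_mul, conj_ofReal, mul_assoc, ← normSq_eq_conj_mul_self, normSq_eq_norm_sq]
    push_cast; rfl

theorem inner_MA (f g : AH j) : ⟪MA j p f, g⟫_ℂ = ⟪f, MA j p g⟫_ℂ := by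
  simp only [MA, LinearMap.smul_apply, inner_smul_left, inner_smul_right, conj_ofReal, inner_TA]

theorem abs_inner_MA (f : AH j) : |re ⟪f, MA j p f⟫_ℂ| ≤ ‖f‖ ^ 2 := by
  by_cases h : p.Prime ∧ p ≠ 2
  · have key : ∀ v ∈ ({-1, 0, 1} : Finset ℤ),
        0 ≤ wt p v * (‖f‖ ^ 2 + v * re ⟪f, MA j p f⟫_ℂ) := fun v hv => by
      have a := f.am.pr h.1.pos v
      have pa := Per.pr f.aut.per p v
      have e := ip_eq_of_fc f.am a f.aut.per pa a a pa pa fun n y hy => by
        rw [fc_pr h.1 h.2 f.am f.aut.per hv n hy]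
        split_ifs <;> simp
      have h0 := mean_re_mono (LL.const 0) (a.ll a) fun τ => by
        rw [← normSq_eq_conj_mul_self]; simpa using normSq_nonneg _
      have h1 := mean_const_mul (LL.const 0) 0
      simp only [zero_mul] at h1
      rw [h1, zero_re, ← ip, ← e, ip_pr h.1 h.2 p.coprime_one_right f.am f hv, ← inner_ip,
        ← inner_ip, inner_self_eq_norm_sq_to_K] at h0
      simpa [← ofReal_pow] using h0
    have hw : 0 < (1 - 1 / (p : ℝ)) / 2 := by
      have : (1 : ℝ) < p := by exact_mod_cast h.1.one_lt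
      have := (div_lt_one (by linarith : (0 : ℝ) < p)).2 this
      linarith
    have k1 := key 1 (by simp)
    have k2 := key (-1) (by simp)
    rw [prob_wt_one, mul_nonneg_iff_of_pos_left hw] at k1
    rw [prob_wt_neg, mul_nonneg_iff_of_pos_left hw] at k2
    push_cast at k1 k2
    rw [abs_le]; constructor <;> linarith
  · simp [MA, TA_of_not h]

theorem norm_MA_le (f : AH j) : ‖MA j p f‖ ≤ ‖f‖ := by
  set g := MA j p f with hg
  have h1 := abs_le.1 (abs_inner_MA (p := p) (f + g))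
  have h2 := abs_le.1 (abs_inner_MA (p := p) (f - g))
  have h3 := parallelogram_law_with_norm ℂ f g
  have e : re ⟪g, g⟫_ℂ = ‖g‖ ^ 2 := (InnerProductSpace.norm_sq_eq_re_inner (𝕜 := ℂ) g).symm
  simp only [map_add, map_sub, inner_add_left, inner_add_right, inner_sub_left, inner_sub_right,
    add_re, sub_re, ← hg, ← inner_MA f g, e] at h1 h2
  exact abs_le_of_sq_le_sq' (by nlinarith) (norm_nonneg _) |>.2

theorem norm_TA_le (f : AH j) : ‖TA j p f‖ ≤ (p ^ 2 + p) * ‖f‖ := by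
  by_cases h : p.Prime ∧ p ≠ 2
  · have h1 := norm_MA_le (p := p) f
    have hp : (1 : ℝ) ≤ p := by exact_mod_cast h.1.one_le
    have h2 : 1 ≤ √(p : ℝ) := Real.one_le_sqrt.2 hp
    have h3 : |sg p| = 1 := by rcases sg_eq p with e | e <;> simp [e]
    have h4 : (0 : ℝ) < p ^ 2 + p := by positivity
    rw [MA, LinearMap.smul_apply, norm_smul, norm_real, Real.norm_eq_abs, abs_div, abs_mul, h3,
      one_mul, abs_of_pos h4, abs_of_nonneg (Real.sqrt_nonneg _), div_mul_eq_mul_div,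
      div_le_iff₀ h4] at h1
    nlinarith [norm_nonneg (TA j p f)]
  · rw [TA_of_not h]; simp; positivity

end

end Pool.Agent.Lib.MP_e6abdd_an
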