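import Pool.Agent.Lib.MP_e6abdd_an.Space

/-!
Hecke operators: coset representatives.
-/

namespace Pool.Agent.Lib.MP_e6abdd_an

open Complex hiding Gamma
open UpperHalfPlane hiding I
open MeasureTheory Filter Topology CongruenceSubgroup
open scoped Real MatrixGroups ComplexConjugate

noncomputable section

variable {j : ℤ} {p : ℕ} {f g : ℍ → ℂ} {γ δ : SL(2, ℤ)} {M : ℕ}

def sla (j : ℤ) (γ : SL(2, ℤ)) (f : ℍ → ℂ) (τ : ℍ) : ℂ :=
  conj (JJ j (γ 1 0) (γ 1 1) τ) * f (γ • τ)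

def dn (p : ℕ) (f : ℍ → ℂ) (τ : ℍ) : ℂ := f (aff ((p : ℝ) ^ 2)⁻¹ 0 τ)

def up (p : ℕ) (f : ℍ → ℂ) (τ : ℍ) : ℂ := f (aff (p ^ 2) 0 τ)

def tr (p : ℕ) (i : ℤ) (f : ℍ → ℂ) (τ : ℍ) : ℂ := f (aff 1 (2 * i / p) τ)

theorem sla_mul (hγ : γ ∈ Gamma 2) (hδ : δ ∈ Gamma 2) (f : ℍ → ℂ) :
    sla j (γ * δ) f = sla j δ (sla j γ f) := by
  funext τ
  simp only [sla, JJ_mul j hγ hδ, map_mul, mul_smul]; ring

theorem smul_eq_sla (hγ : γ ∈ Gamma 2) (f : ℍ → ℂ) (τ : ℍ) :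
    f (γ • τ) = JJ j (γ 1 0) (γ 1 1) τ * sla j γ f τ := by
  rw [sla, ← mul_assoc, JJ_mul_conj j hγ, one_mul]

theorem SL_inv_apply (γ : SL(2, ℤ)) :
    γ⁻¹ = mkSL (γ 1 1) (-γ 0 1) (-γ 1 0) (γ 0 0) (by linarith [det_SL γ]) := by
  rw [Matrix.SpecialLinearGroup.SL2_inv_expl]; rfl

theorem mul_inv_01 (γ δ : SL(2, ℤ)) : (γ * δ⁻¹) 0 1 = γ 0 1 * δ 0 0 - γ 0 0 * δ 0 1 := by
  rw [SL_mul_apply, SL_inv_apply]; simp; ring

/-- Matrices with upper right entry divisible by `N`. -/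
def G0 (N : ℤ) : Subgroup SL(2, ℤ) where
  carrier := {γ | N ∣ γ 0 1}
  mul_mem' {γ δ} h h' := by
    show N ∣ _
    rw [SL_mul_apply]
    exact (h'.mul_left _).add (Dvd.dvd.mul_right h _)
  one_mem' := by simp
  inv_mem' {γ} h := by
    show N ∣ _
    rw [SL_inv_apply]; simpa using h

theorem mem_G0 {N : ℤ} : γ * δ⁻¹ ∈ G0 N ↔ N ∣ γ 0 1 * δ 0 0 - γ 0 0 * δ 0 1 := by
  rw [← mul_inv_01]; rfl

theorem dn_smul {p : ℕ} (hp : 0 < p) {γ δ : SL(2, ℤ)} {σ τ : ℍ}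
    (h : (δ 0 0 * (σ : ℂ) + δ 0 1) * (p ^ 2 * (γ 1 0 * (τ : ℂ) + γ 1 1)) =
      (γ 0 0 * (τ : ℂ) + γ 0 1) * (δ 1 0 * (σ : ℂ) + δ 1 1)) :
    aff ((p : ℝ) ^ 2)⁻¹ 0 (γ • τ) = δ • σ := by
  have hp' : (p : ℂ) ≠ 0 := by exact_mod_cast hp.ne'
  have h1 := denom_ne (coprime_row γ) τ
  rw [smul_eq_iff, coe_aff (by positivity), coe_SL_smul]
  push_cast
  rw [add_zero, ← mul_div_assoc, div_mul_eq_mul_div, div_eq_iff h1]
  field_simp
  linear_combination -h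

theorem sla_dn (h : Aut j 1 f) (hp : p.Prime) (h2 : p ≠ 2) (hγ : γ ∈ Gamma 2)
    (h0 : γ ∈ G0 (p ^ 2)) : sla j γ (dn p f) = dn p f := by
  funext τ
  obtain ⟨b, hb⟩ : (p : ℤ) ^ 2 ∣ γ 0 1 := h0
  have hdet := det_SL γ
  have hr : (0 : ℝ) < ((p : ℝ) ^ 2)⁻¹ := by have := hp.pos; positivity
  have hp' : (p : ℂ) ≠ 0 := by exact_mod_cast hp.ne_zero
  have ho : Odd ((p : ℤ) ^ 2) := (Int.odd_coe_nat p |>.2 (hp.odd_of_ne_two h2)).pow
  have h3 := mem_gamma2.1 hγ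
  let δ := mkSL (γ 0 0) b (p ^ 2 * γ 1 0) (γ 1 1) (by rw [hb] at hdet; linear_combination hdet)
  have hδ : δ ∈ Gamma 2 := mem_gamma2.2 ⟨by
    have := h3.1
    rw [hb, Int.even_mul] at this
    exact this.resolve_left (Int.not_even_iff_odd.2 ho), h3.2.mul_left _⟩
  have e : aff ((p : ℝ) ^ 2)⁻¹ 0 (γ • τ) = δ • aff ((p : ℝ) ^ 2)⁻¹ 0 τ := dn_smul hp.pos (by
    rw [coe_aff hr, hb]; simp only [δ, mkSL_00, mkSL_01, mkSL_10, mkSL_11]
    push_cast; field_simp; ring)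
  have e2 : JJ j (δ 1 0) (δ 1 1) (aff ((p : ℝ) ^ 2)⁻¹ 0 τ) = JJ j (γ 1 0) (γ 1 1) τ :=
    JJ_sq j (d := γ 1 1) h3.2 ⟨-(p * b * γ 1 0), γ 0 0, by
      rw [hb] at hdet; linear_combination hdet⟩ (by
      rw [coe_aff hr]; push_cast; field_simp; ring)
  rw [sla, dn, dn, e, h δ hδ, e2, ← mul_assoc, mul_comm (conj _), JJ_mul_conj j hγ, one_mul]

theorem sla_dn_congr (h : Aut j 1 f) (hp : p.Prime) (h2 : p ≠ 2) (hγ : γ ∈ Gamma 2)
    (hδ : δ ∈ Gamma 2) (h0 : γ * δ⁻¹ ∈ G0 (p ^ 2)) : sla j γ (dn p f) = sla j δ (dn p f) := by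
  have h1 := mul_mem hγ (inv_mem hδ)
  rw [← inv_mul_cancel_right γ δ, sla_mul h1 hδ, sla_dn h hp h2 h1 h0]

theorem JJ_pos (j k : ℤ) {d : ℤ} (hd : 0 < d) (τ : ℍ) : JJ j (2 * k) d τ =
    (jacobiSym k d.natAbs : ℤ) * (if d % 4 = 1 then 1 else -I) *
      ph (4 * j + 1) (2 * k * (τ : ℂ) + d) := by
  rw [JJ, nu, Int.sign_eq_one_of_pos hd, Int.mul_ediv_cancel_left _ two_ne_zero]
  simp only [one_mul, Int.cast_one, Int.cast_mul, Int.cast_ofNat]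
  congr 2
  exact if_congr (by omega) rfl rfl

theorem rep_T (hp : 0 < p) (b : ℤ) (f : ℍ → ℂ) (τ : ℍ) :
    sla j (mkSL 1 (2 * b) 0 1 (by ring)) (dn p f) τ = f (aff ((p : ℝ) ^ 2)⁻¹ (2 * b / p ^ 2) τ) := by
  have hr : (0 : ℝ) < ((p : ℝ) ^ 2)⁻¹ := by positivity
  have hp' : (p : ℂ) ≠ 0 := by exact_mod_cast hp.ne'
  rw [sla, dn, dn_smul hp (δ := 1) (σ := aff ((p : ℝ) ^ 2)⁻¹ (2 * b / p ^ 2) τ) (by
    rw [coe_aff hr]; simp; field_simp)]
  simp [JJ_zero_one]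

theorem rep_inf (hp : p.Prime) (h2 : p ≠ 2) : ∃ γ ∈ Gamma 2, γ 0 0 = p ^ 2 ∧ γ 0 1 = 2 ∧
    ∀ (j : ℤ) (f : ℍ → ℂ), Aut j 1 f → sla j γ (dn p f) = up p f := by
  obtain ⟨k, hk⟩ : Odd (p : ℤ) := (Int.odd_coe_nat p).2 (hp.odd_of_ne_two h2)
  have hr : (0 : ℝ) < (p : ℝ) ^ 2 := by have := hp.pos; positivity
  have hk' : (p : ℂ) = 2 * k + 1 := by exact_mod_cast hk
  let γ := mkSL (p ^ 2) 2 (2 * (k ^ 2 + k)) 1 (by rw [hk]; ring)
  let δ := mkSL 1 2 (2 * (k ^ 2 + k)) (p ^ 2) (by rw [hk]; ring)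
  have hγ : γ ∈ Gamma 2 := mem_gamma2.2 ⟨even_two, even_two_mul _⟩
  have hδ : δ ∈ Gamma 2 := mem_gamma2.2 ⟨even_two, even_two_mul _⟩
  refine ⟨γ, hγ, rfl, rfl, fun j f h => funext fun τ => ?_⟩
  have e : aff ((p : ℝ) ^ 2)⁻¹ 0 (γ • τ) = δ • aff (p ^ 2) 0 τ := dn_smul hp.pos (by
    rw [coe_aff hr]; simp only [γ, δ, mkSL_00, mkSL_01, mkSL_10, mkSL_11]
    push_cast; ring)
  have e2 : JJ j (δ 1 0) (δ 1 1) (aff (p ^ 2) 0 τ) = JJ j (γ 1 0) (γ 1 1) τ := by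
    have h1 : (p : ℤ) ^ 2 = ((p ^ 2 : ℕ) : ℤ) := by push_cast; rfl
    have h3 : p ^ 2 % 4 = 1 := by
      have : ((p ^ 2 : ℕ) : ℤ) = 4 * (k ^ 2 + k) + 1 := by rw [← h1, hk]; ring
      omega
    have h4 : jacobiSym (k ^ 2 + k) (p ^ 2) = 1 := by
      rw [jacobiSym.pow_right]
      exact jac_sq (d := p) ⟨-4, p, by rw [hk]; ring⟩
    have h5 : (p : ℤ) ^ 2 % 4 = 1 := by omega
    have e1 := JJ_pos j (k ^ 2 + k) (d := p ^ 2) (by have := hp.pos; positivity) (aff (p ^ 2) 0 τ)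
    have e2 := JJ_pos j (k ^ 2 + k) one_pos τ
    rw [if_pos h5, Int.natAbs_pow, Int.natAbs_natCast, h4, coe_aff hr] at e1
    rw [if_pos (by norm_num), Int.natAbs_one, jacobiSym.one_right, ← ph_pos_mul hr] at e2
    refine e1.trans (Eq.trans (congrArg₂ (· * ·) rfl (congrArg _ ?_)) e2.symm)
    push_cast; ring
  rw [sla, dn, up, e, h δ hδ, e2, ← mul_assoc, mul_comm (conj _), JJ_mul_conj j hγ, one_mul]

theorem exists_mul_sub {n : ℕ} (hn : 0 < n) {u : ℤ} (hu : IsCoprime u n) (v : ℤ) :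
    ∃ b : ℕ, b < n ∧ (n : ℤ) ∣ u * b - v := by
  obtain ⟨x, y, h⟩ := hu
  have hn' : (n : ℤ) ≠ 0 := by omega
  have h0 := Int.emod_nonneg (x * v) hn'
  have h1 := Int.emod_lt_of_pos (x * v) (by omega : (0 : ℤ) < n)
  refine ⟨(x * v % n).toNat, by omega, -(u * (x * v / n)) - y * v, ?_⟩
  rw [Int.toNat_of_nonneg h0, Int.emod_def]
  linear_combination v * h

theorem coprime_of_lt (hp : p.Prime) {i : ℕ} (h0 : i ≠ 0) (hi : i < p) : IsCoprime (p : ℤ) i :=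
  Nat.isCoprime_iff_coprime.2 (Nat.coprime_of_lt_prime h0 hi hp)

theorem coprime_two (hp : p.Prime) (h2 : p ≠ 2) : IsCoprime (p : ℤ) 2 :=
  coprime_of_lt hp (i := 2) two_ne_zero (lt_of_le_of_ne hp.two_le h2.symm)

theorem rep_i (hp : p.Prime) (h2 : p ≠ 2) {i : ℕ} (h0 : i ≠ 0) (hi : i < p) :
    ∃ γ ∈ Gamma 2, γ 0 0 = p ∧ γ 0 1 = 2 * i ∧ ∀ (j : ℤ) (f : ℍ → ℂ), Aut j 1 f → ∀ τ,
      sla j γ (dn p f) τ = om p i * tr p i f τ := by
  have hc : IsCoprime (p : ℤ) ((4 * i : ℕ) : ℤ) := by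
    push_cast
    exact (show (4 : ℤ) = 2 * 2 from rfl) ▸ ((coprime_two hp h2).mul_right
      (coprime_two hp h2)).mul_right (coprime_of_lt hp h0 hi)
  obtain ⟨d, -, c, hd⟩ := exists_mul_sub (n := 4 * i) (by omega) hc 1
  push_cast at hd
  have hd0 : 0 < d := by
    rcases Nat.eq_zero_or_pos d with h | h
    · subst h
      have : (4 : ℤ) * (i * c) = -1 := by simp at hd; linarith
      omega
    · exact h
  have hp0 : (0 : ℝ) < p := by exact_mod_cast hp.pos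
  have hp' : (p : ℂ) ≠ 0 := by exact_mod_cast hp.ne_zero
  have hd' : (p : ℂ) * d - 1 = 4 * i * c := by exact_mod_cast hd
  let γ := mkSL p (2 * i) (2 * c) d (by linear_combination hd)
  let δ := mkSL 1 0 (2 * (p * c)) 1 (by ring)
  have hγ : γ ∈ Gamma 2 := mem_gamma2.2 ⟨even_two_mul (i : ℤ), even_two_mul c⟩
  have hδ : δ ∈ Gamma 2 := mem_gamma2.2 ⟨Even.zero, even_two_mul _⟩
  refine ⟨γ, hγ, rfl, rfl, fun j f h τ => ?_⟩
  have e : aff ((p : ℝ) ^ 2)⁻¹ 0 (γ • τ) = δ • aff 1 (2 * (i : ℤ) / p) τ := dn_smul hp.pos (by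
    rw [coe_aff one_pos]; simp only [γ, δ, mkSL_00, mkSL_01, mkSL_10, mkSL_11]
    push_cast; field_simp; linear_combination (τ * p + 2 * i) * hd')
  have e2 : JJ j (2 * (p * c)) 1 (aff 1 (2 * (i : ℤ) / p) τ) =
      ph (4 * j + 1) (2 * c * (τ : ℂ) + (d : ℤ)) := by
    rw [JJ_pos j _ one_pos, coe_aff one_pos, ← ph_pos_mul hp0 _ (2 * c * (τ : ℂ) + _)]
    simp only [Int.natAbs_one, jacobiSym.one_right]
    rw [if_pos (by norm_num), Int.cast_one, one_mul, one_mul]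
    congr 1
    push_cast; field_simp; linear_combination -hd'
  have hdo : Odd d := by
    have : Odd ((p : ℤ) * d) := ⟨2 * i * c, by linarith⟩
    exact (Int.odd_coe_nat d).1 (Int.odd_mul.1 this).2
  have hpo := hp.odd_of_ne_two h2
  have e3 : jacobiSym c d = jacobiSym (-i) p := by
    have a1 : jacobiSym (-i) (p * d) = 1 := by
      rw [jacobiSym.mod_right _ (hpo.mul hdo)]
      have : p * d % (4 * (-i : ℤ).natAbs) = 1 := by
        rw [Int.natAbs_neg, Int.natAbs_natCast]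
        have : p * d ≡ 1 [MOD 4 * i] :=
          ((Nat.modEq_iff_dvd).2 (by push_cast; exact ⟨c, hd⟩)).symm
        rw [this]; exact Nat.mod_eq_of_lt (by omega)
      rw [this, jacobiSym.one_right]
    have a2 : jacobiSym (4 * (-i) * c) d = jacobiSym 1 d :=
      jacobiSym.mod_left' (Int.modEq_iff_dvd.2
        ⟨p, by linear_combination -hd⟩ : 4 * (-(i : ℤ)) * c ≡ 1 [ZMOD d])
    rw [jacobiSym.mul_left, jacobiSym.mul_left, jacobiSym.at_four hdo, jacobiSym.one_left] at a2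
    rw [jacobiSym.mul_right' _ hp.ne_zero hd0.ne'] at a1
    linear_combination (-jacobiSym c d) * a1 + jacobiSym (-i) p * a2
  have e4 : (d : ℤ) % 4 = 1 ↔ p % 4 = 1 := by
    obtain ⟨a, ha⟩ := hdo
    obtain ⟨b, hb⟩ := hpo
    have : (4 : ℤ) * (i * c) = 4 * (a * b) + 2 * a + 2 * b := by
      rw [ha, hb] at hd; push_cast at hd; linarith
    omega
  rw [sla, dn, tr, e, h δ hδ]
  show conj (JJ j (2 * c) d τ) * (JJ j (2 * (p * c)) 1 _ * _) = _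
  rw [e2, JJ_pos j c (by exact_mod_cast hd0), Int.natAbs_natCast, e3, om]
  have := ph_mul_conj (4 * j + 1) (2 * c * (τ : ℂ) + (d : ℤ))
  by_cases h4 : p % 4 = 1
  · rw [if_pos h4, if_pos (e4.2 h4)]
    simp only [map_mul, map_intCast, map_one]
    linear_combination ((jacobiSym (-i) p : ℤ) * f (aff 1 (2 * (i : ℤ) / p) τ)) * this
  · rw [if_neg h4, if_neg (mt e4.1 h4)]
    simp only [map_mul, map_intCast, map_neg, conj_I, neg_neg]
    linear_combination ((jacobiSym (-i) p : ℤ) * I * f (aff 1 (2 * (i : ℤ) / p) τ)) * this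

theorem om_zero (hp : p.Prime) : om p 0 = 0 := by
  simp [om, jacobiSym.zero_left hp.one_lt]

theorem hecke_reps (hp : p.Prime) (h2 : p ≠ 2) : ∃ r : Fin (p ^ 2) ⊕ Fin p → SL(2, ℤ),
    (∀ ι, r ι ∈ Gamma 2) ∧
    (∀ (j : ℤ) (f : ℍ → ℂ), Aut j 1 f → ∀ τ, TT p f τ = ∑ ι, sla j (r ι) (dn p f) τ) ∧
    (∀ γ : SL(2, ℤ), ∃ ι, γ * (r ι)⁻¹ ∈ G0 (p ^ 2)) ∧
    ∀ ι ι', r ι * (r ι')⁻¹ ∈ G0 (p ^ 2) → ι = ι' := by
  obtain ⟨γ₀, h₀, ha₀, hb₀, hf₀⟩ := rep_inf hp h2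
  have H : ∀ i : Fin p, ∃ γ ∈ Gamma 2, (γ 0 0 = if (i : ℕ) = 0 then (p : ℤ) ^ 2 else p) ∧
      (γ 0 1 = if (i : ℕ) = 0 then 2 else 2 * ((i : ℕ) : ℤ)) ∧
      ∀ (j : ℤ) (f : ℍ → ℂ), Aut j 1 f → ∀ τ,
        sla j γ (dn p f) τ = (if (i : ℕ) = 0 then up p f τ else 0) + om p (i : ℕ) * tr p (i : ℕ) f τ := by
    intro i
    by_cases h : (i : ℕ) = 0
    · exact ⟨γ₀, h₀, by simp [h, ha₀], by simp [h, hb₀], fun j f hf τ => by
        simp [h, hf₀ j f hf, om_zero hp]⟩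
    · obtain ⟨γ, h1, ha, hb, hf⟩ := rep_i hp h2 h i.2
      exact ⟨γ, h1, by simp [h, ha], by simp [h, hb], fun j f hf' τ => by simp [h, hf j f hf']⟩
  choose s hs ha hb hf using H
  have hp2 : IsCoprime (p : ℤ) 2 := coprime_two hp h2
  have hpz : Prime (p : ℤ) := Nat.prime_iff_prime_int.1 hp
  have hp0 : (p : ℤ) ≠ 0 := hpz.ne_zero
  have hn2 : ¬ (p : ℤ) ∣ 2 := hpz.coprime_iff_not_dvd.1 hp2
  have hpp : (p : ℤ) ∣ p ^ 2 := dvd_pow_self _ two_ne_zero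
  have small : ∀ {n a b : ℕ}, a < n → b < n → (n : ℤ) ∣ (a : ℤ) - b → a = b := fun ha hb h =>
    (Nat.ModEq.eq_of_lt_of_lt ((Nat.modEq_iff_dvd).2 h) hb ha).symm
  refine ⟨Sum.elim (fun b => mkSL 1 (2 * (b : ℕ)) 0 1 (by ring)) s, ?_, ?_, ?_, ?_⟩
  · rintro (b | i)
    exacts [mem_gamma2.2 ⟨even_two_mul ((b : ℕ) : ℤ), Even.zero⟩, hs i]
  · intro j f h τ
    rw [Fintype.sum_sum_type]
    simp only [Sum.elim_inl, Sum.elim_inr, rep_T hp.pos, hf _ j f h, Finset.sum_add_distrib]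
    rw [Fin.sum_univ_eq_sum_range
        (fun b => f (aff ((p : ℝ) ^ 2)⁻¹ (2 * ((b : ℕ) : ℤ) / p ^ 2) τ)),
      Fin.sum_univ_eq_sum_range (fun i => if i = 0 then up p f τ else 0),
      Fin.sum_univ_eq_sum_range (fun i => om p (i : ℕ) * tr p (i : ℕ) f τ), Finset.sum_ite_eq']
    simp only [TT, up, tr, Finset.mem_range, hp.pos, if_true, Int.cast_natCast]
    ring
  · intro γ
    have hdet := det_SL γ
    by_cases h : (p : ℤ) ∣ γ 0 0
    · obtain ⟨a, ha'⟩ := h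
      have hb' : ¬ (p : ℤ) ∣ γ 0 1 := fun ⟨b, hb'⟩ => hpz.not_dvd_one
        ⟨a * γ 1 1 - b * γ 1 0, by rw [ha', hb'] at hdet; linear_combination -hdet⟩
      by_cases h' : (p : ℤ) ∣ a
      · obtain ⟨a', rfl⟩ := h'
        refine ⟨.inr ⟨0, hp.pos⟩, mem_G0.2 ⟨γ 0 1 - 2 * a', ?_⟩⟩
        simp only [Sum.elim_inr, ha, hb, ha', if_true]; ring
      · obtain ⟨i, hi, k, hk⟩ := exists_mul_sub hp.pos
          (hp2.mul_right (hpz.coprime_iff_not_dvd.2 h')).symm (γ 0 1)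
        have hi0 : i ≠ 0 := by
          rintro rfl
          exact hb' ⟨-k, by simp at hk; linear_combination -hk⟩
        refine ⟨.inr ⟨i, hi⟩, mem_G0.2 ⟨-k, ?_⟩⟩
        simp only [Sum.elim_inr, ha, hb, ha', if_neg hi0]
        linear_combination -(p : ℤ) * hk
    · obtain ⟨b, hb', k, hk⟩ := exists_mul_sub (n := p ^ 2) (pow_pos hp.pos 2) (u := 2 * γ 0 0)
        (by push_cast; exact (hp2.mul_right (hpz.coprime_iff_not_dvd.2 h)).symm.pow_right) (γ 0 1)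
      refine ⟨.inl ⟨b, hb'⟩, mem_G0.2 ⟨-k, ?_⟩⟩
      push_cast at hk
      simp only [Sum.elim_inl, mkSL_00, mkSL_01]
      linear_combination -hk
  · have mixed : ∀ (b : ℤ) (i : Fin p), ¬ (p : ℤ) ∣ 2 * b * s i 0 0 - s i 0 1 := by
      intro b i h
      have h1 : (p : ℤ) ∣ s i 0 0 := by rw [ha]; split_ifs; exacts [hpp, dvd_rfl]
      have h3 : (p : ℤ) ∣ s i 0 1 := by simpa using (h1.mul_left (2 * b)).sub h
      rw [hb] at h3
      split_ifs at h3 with h0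
      · exact hn2 h3
      · exact hpz.coprime_iff_not_dvd.1 (hp2.mul_right (coprime_of_lt hp h0 i.2)) h3
    rintro (b | i) (b' | i') h <;> rw [mem_G0] at h <;>
      simp only [Sum.elim_inl, Sum.elim_inr, mkSL_00, mkSL_01, mul_one, one_mul] at h
    · congr 1
      refine Fin.ext (small b.2 b'.2 ?_)
      rw [← mul_sub] at h
      push_cast
      exact hp2.pow_left.dvd_of_dvd_mul_left h
    · exact absurd (hpp.trans h) (mixed _ _)
    · exact absurd (by rw [← dvd_neg]; convert hpp.trans h using 1; ring) (mixed b' i)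
    · congr 1
      refine Fin.ext (small i.2 i'.2 ?_)
      rw [ha, ha, hb, hb] at h
      have key : ∀ x : ℤ, (p : ℤ) ^ 2 ∣ p * x → (p : ℤ) ∣ x := fun x hx => by
        rwa [sq, mul_dvd_mul_iff_left hp0] at hx
      split_ifs at h with h0 h0' h0'
      · simp [h0, h0']
      · refine absurd ?_ hn2
        have := key (2 - p * (2 * (i' : ℕ))) (by convert h using 1; ring)
        simpa using this.add (dvd_mul_right _ (2 * ((i' : ℕ) : ℤ)))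
      · refine absurd ?_ hn2
        have := key (2 * (i : ℕ) * p - 2) (by convert h using 1; ring)
        simpa using (dvd_mul_left (p : ℤ) (2 * ((i : ℕ) : ℤ))).sub this
      · exact hp2.dvd_of_dvd_mul_left (key (2 * (((i : ℕ) : ℤ) - (i' : ℕ)))
          (by convert h using 1; ring))

theorem BC.TT (h : BC f) (hp : 0 < p) : BC (TT p f) :=
  ((h.aff (by positivity) _).add (BC.sum fun _ _ => h.aff (by positivity) _)).add
    (BC.sum fun _ _ => (BC.const _).mul (h.aff one_pos _))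

theorem Aut.TT (h : Aut j 1 f) (hp : p.Prime) (h2 : p ≠ 2) : Aut j 1 (TT p f) := by
  intro δ hδ τ
  obtain ⟨r, hr, hT, hs, hi⟩ := hecke_reps hp h2
  choose σ hσ using fun ι => hs (r ι * δ)
  have hinj : Function.Injective σ := fun ι ι' e => hi _ _ (by
    have := mul_mem (hσ ι) (inv_mem (hσ ι'))
    rw [e] at this
    simpa [mul_assoc] using this)
  rw [hT j f h, hT j f h, ← (Equiv.ofBijective σ hinj.bijective_of_finite).sum_comp
    (fun ι => sla j (r ι) (dn p f) τ), Finset.mul_sum]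
  refine Finset.sum_congr rfl fun ι _ => ?_
  rw [smul_eq_sla (j := j) hδ (sla j (r ι) (dn p f)), ← sla_mul (hr ι) hδ,
    sla_dn_congr h hp h2 (mul_mem (hr ι) hδ) (hr _) (hσ ι)]
  rfl

end

end Pool.Agent.Lib.MP_e6abdd_an
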