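import Pool.Agent.Lib.MP_e6abdd_an.HeckeA

/-!
Hecke operators: inner products and Fourier coefficients.
-/

namespace Pool.Agent.Lib.MP_e6abdd_an

open Complex hiding Gamma
open UpperHalfPlane hiding I
open MeasureTheory Filter Topology CongruenceSubgroup
open scoped Real MatrixGroups ComplexConjugate

noncomputable section

variable {j : ℤ} {p q : ℕ} {f g h : ℍ → ℂ} {γ δ : SL(2, ℤ)} {M M' : ℕ}

structure AM (j : ℤ) (M : ℕ) (f : ℍ → ℂ) : Prop where
  bc : BC f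
  aut : Aut j M f
  pos : 0 < M

def ip (g f : ℍ → ℂ) : ℂ := mean fun τ => conj (g τ) * f τ

theorem AH.am (f : AH j) : AM j 1 f.fn := ⟨f.bc, f.aut, one_pos⟩

theorem AM.mono (hf : AM j M f) (hM : M ∣ M') (h0 : 0 < M') : AM j M' f :=
  ⟨hf.bc, hf.aut.mono hM, h0⟩

theorem AM.ll (hg : AM j M g) (hf : AM j M' f) : LL fun τ => conj (g τ) * f τ :=
  ⟨_, (hg.aut.mono (dvd_mul_right M M')).lev (hf.aut.mono (dvd_mul_left M' M)) hg.bc hf.bc
    (mul_pos hg.pos hf.pos)⟩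

theorem AM.dn (hf : AM j M f) (hp : 0 < p) : AM j (M * p ^ 2) (dn p f) :=
  ⟨hf.bc.aff (by positivity) _, hf.aut.down hp, by have := hf.pos; positivity⟩

theorem AM.up (hf : AM j M f) (hp : 0 < p) : AM j (M * p ^ 2) (up p f) :=
  ⟨hf.bc.aff (by positivity) _, hf.aut.up hp, by have := hf.pos; positivity⟩

theorem AM.tr (hf : AM j M f) (hp : 0 < p) (i : ℤ) : AM j (M * p ^ 2) (tr p i f) :=
  ⟨hf.bc.aff one_pos _, hf.aut.trans hp i, by have := hf.pos; positivity⟩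

theorem AM.sla (hf : AM j M f) (hγ : γ ∈ Gamma 2) : AM j M (sla j γ f) := by
  obtain ⟨B, hB⟩ := hf.bc.bdd
  exact ⟨⟨(continuous_conj.comp (continuous_JJ j _ (ne_of_gamma2 hγ))).mul
    (hf.bc.cont.comp (continuous_SL γ)), B, fun τ => by
      rw [MP_e6abdd_an.sla, norm_mul, RCLike.norm_conj, norm_JJ' j hγ, one_mul]; exact hB _⟩,
    hf.aut.slash hγ, hf.pos⟩

theorem AM.add (hf : AM j M f) (hg : AM j M g) : AM j M fun τ => f τ + g τ :=
  ⟨hf.bc.add hg.bc, fun γ hγ τ => by simp only [hf.aut γ hγ, hg.aut γ hγ, mul_add], hf.pos⟩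

theorem AM.smul (hf : AM j M f) (c : ℂ) : AM j M fun τ => c * f τ :=
  ⟨(BC.const c).mul hf.bc, fun γ hγ τ => by simp only [hf.aut γ hγ]; ring, hf.pos⟩

theorem AM.sum {ι : Type} {s : Finset ι} {F : ι → ℍ → ℂ} (hM : 0 < M)
    (hF : ∀ i ∈ s, AM j M (F i)) : AM j M fun τ => ∑ i ∈ s, F i τ :=
  ⟨BC.sum fun i hi => (hF i hi).bc, fun γ hγ τ => by
    rw [Finset.mul_sum]; exact Finset.sum_congr rfl fun i hi => (hF i hi).aut γ hγ τ, hM⟩

theorem AM.TT (hf : AM j 1 f) (hp : p.Prime) (h2 : p ≠ 2) : AM j 1 (TT p f) :=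
  ⟨hf.bc.TT hp.pos, hf.aut.TT hp h2, one_pos⟩

theorem AM.sop (hf : AM j 1 f) : AM j 1 (sop j f) := ⟨hf.bc.sop j, hf.aut.sop, one_pos⟩

theorem ip_conj (hg : AM j M g) (hf : AM j M' f) : conj (ip g f) = ip f g := by
  rw [ip, ip, ← mean_conj (hg.ll hf)]; simp [mul_comm]

theorem ip_smul (hg : AM j M g) (hf : AM j M' f) (c : ℂ) :
    ip g (fun τ => c * f τ) = c * ip g f := by
  rw [ip, ip, ← mean_const_mul (hg.ll hf)]; simp [mul_left_comm]

theorem ip_add (hg : AM j M g) (hf : AM j M' f) {M'' : ℕ} (hh : AM j M'' h) :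
    ip g (fun τ => f τ + h τ) = ip g f + ip g h := by
  rw [ip, ip, ip, ← mean_add (hg.ll hf) (hg.ll hh)]; simp [mul_add]

theorem ip_sum {ι : Type} {s : Finset ι} {F : ι → ℍ → ℂ} (hg : AM j M g)
    (hF : ∀ i ∈ s, AM j M' (F i)) : ip g (fun τ => ∑ i ∈ s, F i τ) = ∑ i ∈ s, ip g (F i) := by
  simp only [ip, Finset.mul_sum]
  exact mean_sum fun i hi => hg.ll (hF i hi)

theorem exists_gamma_G0 (hp : p.Prime) (h2 : p ≠ 2) (hM : p.Coprime M) (γ : SL(2, ℤ)) :
    ∃ δ ∈ Gamma (2 * M), γ * δ⁻¹ ∈ G0 (p ^ 2) := by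
  have hpz : Prime (p : ℤ) := Nat.prime_iff_prime_int.1 hp
  have h1 : IsCoprime (p : ℤ) (2 * M) :=
    (coprime_two hp h2).mul_right (Nat.isCoprime_iff_coprime.2 hM)
  have hdet := det_SL γ
  by_cases ha : (p : ℤ) ∣ γ 0 0
  · have hb : ¬ (p : ℤ) ∣ γ 0 1 := fun hb => hpz.not_dvd_one
      (hdet ▸ (ha.mul_right _).sub (hb.mul_right _))
    obtain ⟨k, -, c, hk⟩ := exists_mul_sub (n := p ^ 2) (pow_pos hp.pos 2)
      (u := 2 * M * (2 * M) * γ 0 1) (by
        push_cast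
        exact ((h1.mul_right h1).mul_right (hpz.coprime_iff_not_dvd.2 hb)).symm.pow_right)
      (2 * M * γ 0 0 - γ 0 1)
    push_cast at hk
    refine ⟨mkSL (1 + 2 * M * k * (2 * M)) (2 * M) (2 * M * k) 1 (by ring), ?_, mem_G0.2 ⟨c, ?_⟩⟩
    · rw [mem_gamma]
      simp only [mkSL_00, mkSL_01, mkSL_10, mkSL_11]
      push_cast
      exact ⟨⟨k * (2 * M), by ring⟩, dvd_rfl, dvd_mul_right _ _, by simp⟩
    · simp only [mkSL_00, mkSL_01]; linear_combination hk
  · obtain ⟨k, -, c, hk⟩ := exists_mul_sub (n := p ^ 2) (pow_pos hp.pos 2)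
      (u := 2 * M * γ 0 0) (by
        push_cast; exact (h1.mul_right (hpz.coprime_iff_not_dvd.2 ha)).symm.pow_right) (γ 0 1)
    push_cast at hk
    refine ⟨mkSL 1 (2 * M * k) 0 1 (by ring), ?_, mem_G0.2 ⟨-c, ?_⟩⟩
    · rw [mem_gamma]; simp
    · simp only [mkSL_00, mkSL_01]; linear_combination -hk

theorem ip_sla (hp : p.Prime) (h2 : p ≠ 2) (hM : p.Coprime M) (hg : AM j M g) (hf : AM j 1 f)
    (hγ : γ ∈ Gamma 2) : ip g (sla j γ (dn p f)) = ip g (dn p f) := by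
  obtain ⟨δ, hδ, h0⟩ := exists_gamma_G0 hp h2 hM γ
  rw [sla_dn_congr hf.aut hp h2 hγ (mem2_of_mem hδ) h0, ip, ip,
    ← mean_smul (hg.ll (hf.dn hp.pos)) δ]
  congr 1
  funext τ
  rw [hg.aut δ hδ, sla, map_mul]; ring

theorem ip_TT (hp : p.Prime) (h2 : p ≠ 2) (hM : p.Coprime M) (hg : AM j M g) (hf : AM j 1 f) :
    ip g (TT p f) = (p ^ 2 + p) * ip g (dn p f) := by
  obtain ⟨r, hr, hT, -⟩ := hecke_reps hp h2
  rw [show TT p f = fun τ => ∑ ι, sla j (r ι) (dn p f) τ from funext (hT j f hf.aut),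
    ip_sum hg fun ι _ => (hf.dn hp.pos).sla (hr ι)]
  simp [ip_sla hp h2 hM hg hf (hr _)]

theorem ip_up (hp : p.Prime) (h2 : p ≠ 2) (hM : p.Coprime M) (hg : AM j M g) (hf : AM j 1 f) :
    ip g (up p f) = ip g (dn p f) := by
  obtain ⟨γ, hγ, -, -, h⟩ := rep_inf hp h2
  rw [← h j f hf.aut, ip_sla hp h2 hM hg hf hγ]

theorem ip_tr (hp : p.Prime) (h2 : p ≠ 2) (hM : p.Coprime M) (hg : AM j M g) (hf : AM j 1 f)
    {i : ℕ} (h0 : i ≠ 0) (hi : i < p) : om p i * ip g (tr p i f) = ip g (dn p f) := by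
  obtain ⟨γ, hγ, -, -, h⟩ := rep_i hp h2 h0 hi
  rw [← ip_sla hp h2 hM hg hf hγ, ← ip_smul hg (hf.tr hp.pos i)]
  exact congrArg _ (funext fun τ => (h j f hf.aut τ).symm)

theorem up_dn (hp : 0 < p) (f : ℍ → ℂ) : dn p (up p f) = f := by
  funext τ
  have h : (0 : ℝ) < (p : ℝ) ^ 2 := by positivity
  rw [dn, up, aff_aff h (inv_pos.2 h), mul_inv_cancel₀ h.ne']
  simp [aff_one_zero]

theorem ip_dn_dn (hp : 0 < p) (hg : AM j M g) (hf : AM j M' f) :
    ip (dn p g) (dn p f) = ip g f :=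
  mean_aff (hg.ll hf) (by positivity) 0 ((hg.dn hp).ll (hf.dn hp))

theorem ip_up_left (hp : 0 < p) (hg : AM j M g) (hf : AM j M' f) :
    ip (up p g) f = ip g (dn p f) := by
  rw [← ip_dn_dn hp (hg.up hp) hf, up_dn hp]

theorem ip_TT_symm (hp : p.Prime) (h2 : p ≠ 2) (hg : AM j 1 g) (hf : AM j 1 f) :
    ip (TT p g) f = ip g (TT p f) := by
  have h1 := p.coprime_one_right
  rw [ip_TT hp h2 h1 hg hf, ← ip_conj hf (hg.TT hp h2), ip_TT hp h2 h1 hf hg,
    ← ip_up hp h2 h1 hf hg, map_mul, ip_conj hf (hg.up hp.pos), ip_up_left hp.pos hg hf]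
  simp

theorem ip_TT_TT (hp : p.Prime) (h2 : p ≠ 2) (hq : q.Prime) (h2' : q ≠ 2) (hpq : p ≠ q)
    (hg : AM j 1 g) (hf : AM j 1 f) : ip (TT p g) (TT q f) = ip (TT q g) (TT p f) := by
  have h1 : p.Coprime (1 * q ^ 2) := by
    rw [one_mul]; exact ((Nat.coprime_primes hp hq).2 hpq).pow_right 2
  have h1' : q.Coprime (1 * p ^ 2) := by
    rw [one_mul]; exact ((Nat.coprime_primes hq hp).2 hpq.symm).pow_right 2
  have e : dn p (dn q (up p f)) = dn q f := by
    have : dn p (dn q (up p f)) = dn q (dn p (up p f)) := funext fun τ => by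
      have := hp.pos
      have := hq.pos
      simp only [dn]
      rw [aff_aff (by positivity) (by positivity), aff_aff (by positivity) (by positivity), mul_comm]
      simp
    rw [this, up_dn hp.pos]
  rw [ip_TT hq h2' q.coprime_one_right (hg.TT hp h2) hf, ← ip_conj (hf.dn hq.pos) (hg.TT hp h2),
    ip_TT hp h2 h1 (hf.dn hq.pos) hg, map_mul, ip_conj (hf.dn hq.pos) (hg.dn hp.pos),
    ip_TT hp h2 p.coprime_one_right (hg.TT hq h2') hf,
    ← ip_up hp h2 p.coprime_one_right (hg.TT hq h2') hf, ← ip_conj (hf.up hp.pos) (hg.TT hq h2'),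
    ip_TT hq h2' h1' (hf.up hp.pos) hg, ← ip_up hq h2' h1' (hf.up hp.pos) hg, map_mul,
    ip_conj (hf.up hp.pos) (hg.up hq.pos), ip_up_left hq.pos hg (hf.up hp.pos),
    ← ip_dn_dn hp.pos hg ((hf.up hp.pos).dn hq.pos), e]
  simp; ring

theorem ip_TT_sop (hp : p.Prime) (h2 : p ≠ 2) (hg : AM j 1 g) (hf : AM j 1 f) :
    ip g (TT p (sop j f)) = ip (sop j g) (TT p f) := by
  have h1 := p.coprime_one_right
  have hr : (0 : ℝ) < (p : ℝ) ^ 2 := by have := hp.pos; positivity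
  have hp' : (p : ℂ) ≠ 0 := by exact_mod_cast hp.ne_zero
  rw [ip_TT hp h2 h1 hg hf.sop, ip_TT hp h2 h1 hg.sop hf, ← ip_up hp h2 h1 hg.sop hf, ip, ip,
    ← mean_smul (hg.sop.ll (hf.up hp.pos)) ModularGroup.S]
  congr 2
  funext τ
  have e : ModularGroup.S • aff ((p : ℝ) ^ 2)⁻¹ 0 τ = aff (p ^ 2) 0 (ModularGroup.S • τ) := by
    apply UpperHalfPlane.ext
    have := τ.ne_zero
    rw [coe_S_smul, coe_aff hr, coe_aff (inv_pos.2 hr), coe_S_smul]
    push_cast; rw [add_zero, add_zero]; field_simp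
  rw [sop_S, dn, up, sop, e, coe_aff (inv_pos.2 hr), ofReal_zero, add_zero, mul_left_comm (-I),
    ph_pos_mul (inv_pos.2 hr), map_mul]
  ring

/-- The sign of the normalised Gauss sum. -/
def sg (p : ℕ) : ℝ :=
  if 0 ≤ (∑ i ∈ Finset.range p, om p i * cexp (2 * π * I * i / p)).re then 1 else -1

theorem sg_eq (p : ℕ) : sg p = 1 ∨ sg p = -1 := by
  unfold sg; split_ifs <;> simp

theorem sum_zmod {N : ℕ} [NeZero N] (F : ZMod N → ℂ) :
    ∑ i ∈ Finset.range N, F i = ∑ a, F a :=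
  Finset.sum_nbij' (fun n => (n : ZMod N)) ZMod.val (by simp)
    (fun a _ => Finset.mem_range.2 (ZMod.val_lt a))
    (fun n hn => ZMod.val_cast_of_lt (Finset.mem_range.1 hn)) (by simp) fun _ _ => rfl

theorem std_mul {N : ℕ} [NeZero N] (n : ℤ) (i : ℕ) :
    cexp (2 * π * I * n * i / N) = ZMod.stdAddChar ((n : ZMod N) * (i : ZMod N)) := by
  have := ZMod.stdAddChar_coe (N := N) (n * i)
  push_cast at this
  rw [this, mul_assoc (2 * π * I)]

theorem sum_e {N : ℕ} (hN : 0 < N) (n : ℤ) :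
    ∑ i ∈ Finset.range N, cexp (2 * π * I * n * i / N) = if (N : ℤ) ∣ n then (N : ℂ) else 0 := by
  have : NeZero N := ⟨hN.ne'⟩
  simp only [std_mul, mul_comm (n : ZMod N)]
  rw [sum_zmod fun a => ZMod.stdAddChar (a * (n : ZMod N)),
    AddChar.sum_mulShift _ (ZMod.isPrimitive_stdAddChar N)]
  simp [ZMod.intCast_zmod_eq_zero_iff_dvd]

theorem sum_om (hp : p.Prime) (h2 : p ≠ 2) (n : ℤ) :
    ∑ i ∈ Finset.range p, om p i * cexp (2 * π * I * n * i / p) =
      sg p * (√p : ℝ) * (jacobiSym n p : ℤ) := by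
  have := Fact.mk hp
  set χ : MulChar (ZMod p) ℂ := (quadraticChar (ZMod p)).ringHomComp (Int.castRingHom ℂ)
  have hχ : ∀ a : ℤ, χ a = (jacobiSym a p : ℤ) := fun a => by
    rw [← jacobiSym.legendreSym.to_jacobiSym]; rfl
  have hc : ringChar (ZMod p) ≠ 2 := by rwa [ZMod.ringChar_zmod_n]
  have h1 : χ ≠ 1 := (MulChar.ringHomComp_ne_one_iff Int.cast_injective).2 (quadraticChar_ne_one hc)
  have hq : χ.IsQuadratic := (quadraticChar_isQuadratic _).comp _
  set e : ℂ := if p % 4 = 1 then 1 else I with he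
  have key : ∀ n : ℤ, ∑ i ∈ Finset.range p, om p i * cexp (2 * π * I * n * i / p) =
      χ n * (e * χ (-1) * gaussSum χ ZMod.stdAddChar) := fun n => by
    have : gaussSum χ (ZMod.stdAddChar.mulShift (n : ZMod p)) =
        χ n * gaussSum χ ZMod.stdAddChar := by
      by_cases hn : (n : ZMod p) = 0
      · simp [hn, gaussSum, MulChar.sum_eq_zero_of_ne_one h1, MulChar.map_zero]
      · have := gaussSum_mulShift_eq χ ZMod.stdAddChar (Units.mk0 _ hn)
        rwa [hq.inv] at this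
    rw [mul_left_comm, ← this, gaussSum, ← sum_zmod, Finset.mul_sum]
    refine Finset.sum_congr rfl fun i _ => ?_
    rw [std_mul, om, ← hχ, AddChar.mulShift_apply, ← he]
    push_cast
    rw [← neg_one_mul, map_mul]; ring
  have hsq : (e * χ (-1) * gaussSum χ ZMod.stdAddChar) ^ 2 = ((√p : ℝ) : ℂ) ^ 2 := by
    have h3 := hχ (-1)
    rw [jacobiSym.at_neg_one (hp.odd_of_ne_two h2), Int.cast_neg, Int.cast_one] at h3
    rw [mul_pow, mul_pow, gaussSum_sq h1 hq (ZMod.isPrimitive_stdAddChar p), ZMod.card,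
      ← ofReal_pow, Real.sq_sqrt (Nat.cast_nonneg p), h3, he]
    split_ifs with h4
    · simp [ZMod.χ₄_nat_one_mod_four h4]
    · have := (hp.eq_two_or_odd).resolve_left h2
      simp [ZMod.χ₄_nat_three_mod_four (by omega : p % 4 = 3)]
  have h0 : 0 < √(p : ℝ) := Real.sqrt_pos.2 (by exact_mod_cast hp.pos)
  have k1 := key 1
  simp only [Int.cast_one, mul_one, map_one, one_mul] at k1
  rw [key, hχ, sg, k1, mul_comm]
  congr 1
  rcases sq_eq_sq_iff_eq_or_eq_neg.1 hsq with h | h <;> rw [h]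
  · rw [if_pos (by simp)]; simp
  · rw [if_neg (by simpa using h0)]; simp

theorem continuous_fc_aux (hf : Continuous f) {y : ℝ} (hy : 0 < y) (c : ℂ) :
    Continuous fun x : ℝ => f (pt x y) * cexp (c * x) :=
  (hf.comp (continuous_pt hy)).mul (by fun_prop)

theorem fc_two (f : ℍ → ℂ) (n : ℤ) (y : ℝ) :
    fc 2 f n y = 2⁻¹ * ∫ x in (0 : ℝ)..2, f (pt x y) * cexp (-(π * I * n) * x) := by
  rw [fc]
  congr 2
  funext x
  congr 2
  push_cast; ring

theorem fc_add (hf : Continuous f) (hg : Continuous g) (n : ℤ) {y : ℝ} (hy : 0 < y) :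
    fc 2 (fun τ => f τ + g τ) n y = fc 2 f n y + fc 2 g n y := by
  simp only [fc_two, add_mul]
  rw [intervalIntegral.integral_add ((continuous_fc_aux hf hy _).intervalIntegrable _ _)
    ((continuous_fc_aux hg hy _).intervalIntegrable _ _), mul_add]

theorem fc_smul (c : ℂ) (f : ℍ → ℂ) (n : ℤ) (y : ℝ) :
    fc 2 (fun τ => c * f τ) n y = c * fc 2 f n y := by
  simp only [fc_two, mul_assoc, intervalIntegral.integral_const_mul]; ring

theorem fc_sum {ι : Type} {s : Finset ι} {F : ι → ℍ → ℂ} (hF : ∀ i ∈ s, Continuous (F i)) (n : ℤ)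
    {y : ℝ} (hy : 0 < y) : fc 2 (fun τ => ∑ i ∈ s, F i τ) n y = ∑ i ∈ s, fc 2 (F i) n y := by
  simp only [fc_two, Finset.sum_mul, ← Finset.mul_sum]
  rw [intervalIntegral.integral_finsetSum fun i hi =>
    (continuous_fc_aux (hF i hi) hy _).intervalIntegrable _ _]

theorem integral_blocks {H : ℝ → ℂ} (hH : Continuous H) (N : ℕ) :
    ∫ x in (0 : ℝ)..(2 * N), H x = ∑ b ∈ Finset.range N, ∫ x in (0 : ℝ)..2, H (x + 2 * b) := by
  have := intervalIntegral.sum_integral_adjacent_intervals (f := H) (μ := volume)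
    (a := fun k : ℕ => 2 * (k : ℝ)) (n := N) fun k _ => hH.intervalIntegrable _ _
  simp only [Nat.cast_zero, mul_zero] at this
  rw [← this]
  refine Finset.sum_congr rfl fun b _ => ?_
  rw [intervalIntegral.integral_comp_add_right]
  push_cast; ring_nf

theorem per_nat (per : ∀ τ, f (aff 1 2 τ) = f τ) (b : ℕ) (τ : ℍ) : f (aff 1 (2 * b) τ) = f τ := by
  induction b with
  | zero => simp [aff_one_zero]
  | succ b ih =>
    rw [← ih, ← per (aff 1 (2 * b) τ), aff_aff one_pos one_pos]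
    congr 2 <;> push_cast <;> ring

theorem fc_up {N : ℕ} (hN : 0 < N) (hf : Continuous f) (per : ∀ τ, f (aff 1 2 τ) = f τ) (n : ℤ)
    {y : ℝ} (hy : 0 < y) : fc 2 (fun τ => f (aff N 0 τ)) n y =
      if (N : ℤ) ∣ n then fc 2 f (n / N) (N * y) else 0 := by
  have hN' : (0 : ℝ) < N := by exact_mod_cast hN
  have hc : (N : ℂ) ≠ 0 := by exact_mod_cast hN.ne'
  have hy' := mul_pos hN' hy
  set H : ℝ → ℂ := fun u => f (pt u (N * y)) * cexp (-(π * I * n / N) * u) with hH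
  have e1 : ∀ x : ℝ, f (aff N 0 (pt x y)) * cexp (-(π * I * n) * x) = H (N * x) := fun x => by
    rw [aff_pt hN' _ _ hy, add_zero, hH]
    congr 2
    push_cast; field_simp
  have e2 : ∀ (b : ℕ) (x : ℝ), H (x + 2 * b) = H x * cexp (2 * π * I * (-n : ℤ) * b / N) :=
    fun b x => by
      have := per_nat per b (pt x (N * y))
      rw [aff_pt one_pos _ _ hy', one_mul, one_mul] at this
      simp only [hH, this, mul_assoc, ← exp_add]
      congr 2
      push_cast; ring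
  rw [fc_two]
  simp only [e1]
  rw [intervalIntegral.integral_comp_mul_left H hN'.ne', mul_zero, mul_comm (N : ℝ) 2,
    integral_blocks (continuous_fc_aux hf hy' _)]
  rw [Finset.sum_congr rfl fun b _ => (intervalIntegral.integral_congr fun x _ => e2 b x).trans
    (intervalIntegral.integral_mul_const _ _), ← Finset.mul_sum, sum_e hN]
  simp only [dvd_neg]
  split_ifs with h
  · obtain ⟨m, rfl⟩ := h
    rw [Int.mul_ediv_cancel_left _ (by omega), fc_two]
    simp only [hH, real_smul]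
    push_cast
    rw [show (π * I * (N * m) / N : ℂ) = π * I * m by field_simp]
    field_simp
  · simp

theorem fc_down {N : ℕ} (hN : 0 < N) (hf : Continuous f) (n : ℤ) {y : ℝ} (hy : 0 < y) :
    fc 2 (fun τ => ∑ b ∈ Finset.range N, f (aff (N : ℝ)⁻¹ (2 * b / N) τ)) n y =
      N * fc 2 f (N * n) (y / N) := by
  have hN' : (0 : ℝ) < N := by exact_mod_cast hN
  have hc : (N : ℂ) ≠ 0 := by exact_mod_cast hN.ne'
  have hy' := div_pos hy hN'
  set H : ℝ → ℂ := fun u => f (pt u (y / N)) * cexp (-(π * I * (N * n : ℤ)) * u) with hH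
  have e1 : ∀ (b : ℕ) (x : ℝ), f (aff (N : ℝ)⁻¹ (2 * b / N) (pt x y)) * cexp (-(π * I * n) * x) =
      H ((x + 2 * b) / N) := fun b x => by
    rw [aff_pt (inv_pos.2 hN') _ _ hy, hH]
    congr 1
    · congr 2 <;> field_simp
    · refine exp_eq_exp_iff_exists_int.2 ⟨n * b, ?_⟩
      push_cast; field_simp; ring
  rw [fc_sum (F := fun (b : ℕ) τ => f (aff (N : ℝ)⁻¹ (2 * b / N) τ))
    (fun b _ => hf.comp (continuous_aff (inv_pos.2 hN') _)) n hy]
  simp only [fc_two, e1, ← Finset.mul_sum]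
  rw [← integral_blocks (H := fun x => H (x / N))
    ((continuous_fc_aux hf hy' _).comp (continuous_id.div_const _)),
    intervalIntegral.integral_comp_div _ hN'.ne', zero_div, mul_div_cancel_right₀ _ hN'.ne',
    real_smul, ofReal_natCast, mul_left_comm]

theorem fc_tr (per : ∀ τ, f (aff 1 2 τ) = f τ) (i n : ℤ) {y : ℝ} (hy : 0 < y) :
    fc 2 (tr p i f) n y = cexp (2 * π * I * n * i / p) * fc 2 f n y := by
  have := fc_aff two_pos per (2 * i / p) n hy
  refine this.trans ?_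
  congr 2
  push_cast; ring

/-- The twist by the Legendre symbol. -/
def tX (p : ℕ) (f : ℍ → ℂ) (τ : ℍ) : ℂ := ∑ i ∈ Finset.range p, om p i * tr p i f τ

/-- The projection on frequencies divisible by `p`. -/
def tZ (p : ℕ) (f : ℍ → ℂ) (τ : ℍ) : ℂ := ∑ i ∈ Finset.range p, tr p i f τ

theorem fc_tX (hp : p.Prime) (h2 : p ≠ 2) (hf : Continuous f) (per : ∀ τ, f (aff 1 2 τ) = f τ)
    (n : ℤ) {y : ℝ} (hy : 0 < y) :
    fc 2 (tX p f) n y = sg p * (√p : ℝ) * (jacobiSym n p : ℤ) * fc 2 f n y := by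
  rw [← sum_om hp h2, Finset.sum_mul]
  refine (fc_sum (fun i _ => continuous_const.mul (hf.comp (continuous_aff one_pos _))) n hy).trans
    (Finset.sum_congr rfl fun i _ => ?_)
  have := fc_tr (p := p) per i n hy
  rw [Int.cast_natCast] at this
  rw [mul_assoc, ← this]
  exact fc_smul _ _ _ _

theorem fc_tZ (hp : 0 < p) (hf : Continuous f) (per : ∀ τ, f (aff 1 2 τ) = f τ)
    (n : ℤ) {y : ℝ} (hy : 0 < y) :
    fc 2 (tZ p f) n y = (if (p : ℤ) ∣ n then (p : ℂ) else 0) * fc 2 f n y := by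
  rw [← sum_e hp, Finset.sum_mul]
  refine (fc_sum (fun i _ => hf.comp (continuous_aff one_pos _)) n hy).trans
    (Finset.sum_congr rfl fun i _ => ?_)
  have := fc_tr (p := p) per i n hy
  rwa [Int.cast_natCast] at this

theorem fc_TT (hp : p.Prime) (h2 : p ≠ 2) {f : ℍ → ℂ} (hf : Continuous f)
    (per : ∀ τ, f (aff 1 2 τ) = f τ) (n : ℤ) {y : ℝ} (hy : 0 < y) : fc 2 (TT p f) n y =
      (if (p : ℤ) ^ 2 ∣ n then fc 2 f (n / p ^ 2) (p ^ 2 * y) else 0) +
        p ^ 2 * fc 2 f (p ^ 2 * n) (y / p ^ 2) +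
          sg p * (√p : ℝ) * (jacobiSym n p : ℤ) * fc 2 f n y := by
  have h0 := pow_pos hp.pos 2
  have hr : (0 : ℝ) < (p : ℝ) ^ 2 := by exact_mod_cast h0
  have e1 := fc_up h0 hf per n hy
  have e2 := fc_down h0 hf n hy
  push_cast at e1 e2
  have c1 : Continuous fun τ => f (aff (p ^ 2) 0 τ) := hf.comp (continuous_aff hr 0)
  have c2 : Continuous fun τ =>
      ∑ b ∈ Finset.range (p ^ 2), f (aff ((p : ℝ) ^ 2)⁻¹ (2 * b / p ^ 2) τ) :=
    continuous_finsetSum _ fun b _ => hf.comp (continuous_aff (inv_pos.2 hr) _)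
  have c3 : Continuous (tX p f) :=
    continuous_finsetSum _ fun b _ => continuous_const.mul (hf.comp (continuous_aff one_pos _))
  rw [← e1, ← e2, ← fc_tX hp h2 hf per n hy, ← fc_add c1 c2 n hy, ← fc_add (c1.fun_add c2) c3 n hy]
  congr 1

end

end Pool.Agent.Lib.MP_e6abdd_an
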