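import Pool.Agent.Lib.MP_e6abdd_an.Mult
import Pool.Agent.Lib.MP_e6abdd_an.KnoppB

/-!
Existence of a solution of the functional equations, by a Poincare series of weight four.
-/

namespace Pool.Agent.Lib.MP_e6abdd_an

open Complex hiding Gamma
open UpperHalfPlane hiding I
open MeasureTheory Filter Topology CongruenceSubgroup
open scoped Real MatrixGroups ComplexConjugate

open ModularGroup (S T)

noncomputable section

theorem kn_norm_nz (f : ℍ → ℂ) (τ : ℍ) : ‖nz f τ‖ = τ.im ^ (1 / 4 : ℝ) * ‖f τ‖ := by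
  rw [nz, norm_mul, Complex.norm_real, Real.norm_of_nonneg (Real.rpow_nonneg τ.im_pos.le _)]

theorem kn_norm_U (f : ℍ → ℂ) (w : ℍ) : ‖nz (knU f) w‖ = ‖nz f (aff 1 1 (S • w))‖ := by
  rw [knU, nz_sl, norm_sop, nz, nz, kn_im]

theorem kn_le_of_nz {f : ℍ → ℂ} {τ : ℍ} {δ C a b : ℝ} (hδ : 0 < δ) (hτ : δ ≤ τ.im)
    (h : ‖nz f τ‖ ≤ C * (a + 1)) (ha : 0 ≤ a) (h1 : a ≤ b) (h2 : 1 ≤ b) :
    ‖f τ‖ ≤ 2 * |C| / δ ^ (1 / 4 : ℝ) * b := by
  have h3 : 0 < δ ^ (1 / 4 : ℝ) := Real.rpow_pos_of_pos hδ _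
  have h4 : δ ^ (1 / 4 : ℝ) ≤ τ.im ^ (1 / 4 : ℝ) := Real.rpow_le_rpow hδ.le hτ (by norm_num)
  rw [kn_norm_nz] at h
  rw [div_mul_eq_mul_div, le_div_iff₀ h3]
  have h5 := mul_le_mul_of_nonneg_right h4 (norm_nonneg (f τ))
  have h6 := mul_le_mul (le_abs_self C) (show a + 1 ≤ 2 * b by linarith) (by linarith)
    (abs_nonneg C)
  linarith

variable {X : ℝ} {K : ℤ → ℤ → ℍ → ℂ}

/-- The Poincare series. -/
def knP (K : ℤ → ℤ → ℍ → ℂ) (τ : ℍ) : ℂ :=
  knS (fun v => knI (fun v => v.1 + v.2) v * K v.1 v.2 τ) τ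

theorem knP_adm (hK : Coc X K) :
    KnAdm fun v τ => knI (fun v => v.1 + v.2) v * K v.1 v.2 τ := by
  obtain ⟨C, hC⟩ := hK.bd
  refine kn_adm (fun v _ => hK.hol _ _) fun δ hδ => ⟨_, by positivity, fun v h h' τ hτ =>
    kn_le_of_nz hδ hτ (hC _ _ h h' τ) (abs_nonneg _) ?_ (knSz_ge h)⟩
  exact le_add_of_nonneg_right (abs_nonneg _)

theorem knP_adm1 (hK : Coc X K) :
    KnAdm fun v τ => knI (fun v => v.1) v * knU (K (-v.2) (v.1 + v.2)) τ := by
  obtain ⟨C, hC⟩ := hK.bd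
  refine kn_adm (fun v _ => KnHol.U (hK.hol _ _)) fun δ hδ => ⟨_, by positivity,
    fun v h h' τ hτ => kn_le_of_nz (C := C) (a := |((-v.2 : ℤ) : ℝ)|) hδ hτ ?_ (abs_nonneg _) ?_
      (knSz_ge h)⟩
  · rw [kn_norm_U]
    refine hC _ _ ?_ (by simpa using h') _
    simpa only [sub_neg_eq_add] using (kn_cop_T _ _).2 ((kn_cop_S _ _).2 h)
  · rw [Int.cast_neg, abs_neg]
    exact le_add_of_nonneg_left (abs_nonneg _)

theorem knI_mul_congr {l : ℤ × ℤ → ℤ} {v : ℤ × ℤ} {a b : ℂ} (h : IsCoprime v.1 v.2 → a = b) :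
    knI l v * a = knI l v * b := by
  rw [knI]
  split_ifs with h1
  · rw [h h1.1]
  · simp

theorem knP_per (hK : Coc X K) (τ : ℍ) : knP K (aff 1 2 τ) = knP K τ := by
  rw [knP, knP]
  conv_lhs => rw [kn_two, knS_T, knS_T, ← kn_two]
  congr 1
  funext w
  have h1 : IsCoprime w.1 (w.2 - w.1 - w.1) ↔ IsCoprime w.1 w.2 := by rw [kn_cop_T, kn_cop_T]
  rw [knI_congr (l' := fun v => v.1 + v.2) (v' := w) h1 (by simp only [Int.odd_iff]; omega)]
  refine knI_mul_congr fun h => ?_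
  rw [← hK.T2 _ _ (h1.2 h)]
  congr 1
  ring

theorem knP_sl (hK : Coc X K) (τ : ℍ) :
    sl (knP K) τ = (τ : ℂ) ^ 4 * (psi X τ * knE0 τ - knP K τ) := by
  rw [sl, knP, knS_S, mul_left_comm]
  congr 1
  rw [← knS_mul, knE0, ← knS_mul, knP, knS, knS, knS,
    ← Summable.tsum_sub _ ((knP_adm hK).summable τ)]
  · congr 1
    funext w
    rw [knI_congr (l' := fun v => v.1 + v.2) (v' := w) (kn_cop_S _ _)
      (by simp only [Int.odd_iff]; omega), mul_left_comm, ← sub_mul, mul_comm (psi X τ), ← mul_sub]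
    congr 1
    refine knI_mul_congr fun h => ?_
    have := hK.S _ _ ((kn_cop_S _ _).2 h) τ
    rw [neg_neg, sl] at this
    rw [this]
    ring
  · simpa only [mul_assoc] using ((kn_admI _).summable τ).mul_left (psi X τ)

/-- A solution of the functional equations, possibly with a pole at the cusp `1`. -/
def knF (K : ℤ → ℤ → ℍ → ℂ) (τ : ℍ) : ℂ := knP K τ / knE0 τ

theorem knF_hol (hK : Coc X K) : KnHol (knF K) :=
  (knP_adm hK).holS.div knE0_hol fun τ => (kn_E_ne τ).1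

theorem knF_per (hK : Coc X K) (τ : ℍ) : knF K (aff 1 2 τ) = knF K τ := by
  rw [knF, knF, knP_per hK, knE0_per]

theorem knF_sl (hK : Coc X K) (τ : ℍ) : sl (knF K) τ = psi X τ - knF K τ := by
  have h0 : (τ : ℂ) ≠ 0 := τ.ne_zero
  have h1 := (kn_E_ne τ).1
  have h := knP_sl hK τ
  rw [sl] at h
  rw [sl, knF, knF, ← mul_div_assoc, h, knE0_S]
  field_simp

theorem knF_bd (hK : Coc X K) : KnBd (knF K) := by
  refine .of_inf (knF_hol hK).continuous (fun τ => by rw [knF_per hK]) ?_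
  have h1 : KnBd (knP K) := .of_strip (fun τ => by rw [knP_per hK]) (knP_adm hK).bound
  simpa [div_eq_mul_inv] using! h1.inf.mul ((knE0_lim.inv₀ two_ne_zero).isBigO_one ℝ)

theorem knF_U (K : ℤ → ℤ → ℍ → ℂ) (w : ℍ) : knU (knF K) w * knE1 w =
    knS (fun v => knI (fun v => v.1) v * knU (K (-v.2) (v.1 + v.2)) w) w := by
  have h0 : (w : ℂ) ≠ 0 := w.ne_zero
  have h1 := (kn_E_ne w).2
  rw [knU, sl, knF, knE0_T, knE2_S, knP, knS_T, knS_S, mul_div_mul_left _ _ (pow_ne_zero 4 h0),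
    mul_assoc, div_mul_cancel₀ _ h1, ← knS_mul]
  congr 1
  funext v
  rw [knI_congr (l' := fun v => v.1) (v' := v) ((kn_cop_T _ _).trans (kn_cop_S _ _)) (by simp),
    mul_left_comm, sub_neg_eq_add]
  rfl

/-- The homogeneous solution. -/
def knG (τ : ℍ) : ℂ := knTh τ * (knE2 τ - knE1 τ) / knE0 τ

theorem knG_hol : KnHol knG :=
  (knTh_hol.mul (knE2_hol.sub knE1_hol)).div knE0_hol fun τ => (kn_E_ne τ).1

theorem knG_per (τ : ℍ) : knG (aff 1 2 τ) = knG τ := by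
  rw [knG, knG, knTh_per, knE0_per, knE1_per, knE2_per]

theorem knG_sl (τ : ℍ) : sl knG τ = -knG τ := by
  have h0 : (τ : ℂ) ≠ 0 := τ.ne_zero
  have h1 := (kn_E_ne τ).1
  have h := knTh_sl τ
  rw [sl] at h
  rw [sl, knG, knG, ← mul_div_assoc, ← mul_assoc, h, knE0_S, knE1_S, knE2_S]
  field_simp
  ring

theorem knG_lim : Tendsto knG atImInfty (𝓝 1) := by
  have := (knTh_lim.mul (knE2_lim.sub knE1_lim)).div knE0_lim two_ne_zero
  norm_num at this
  exact this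

theorem knG_bd : KnBd knG :=
  .of_inf knG_hol.continuous (fun τ => by rw [knG_per]) (knG_lim.isBigO_one ℝ)

theorem knG_U (w : ℍ) : knU knG w * knE1 w = knU knTh w * (knE0 w - knE2 w) := by
  have h0 : (w : ℂ) ≠ 0 := w.ne_zero
  have h1 := (kn_E_ne w).2
  rw [knU, knU, sl, sl, knG, knE0_T, knE1_T, knE2_T, knE0_S, knE1_S, knE2_S]
  field_simp

theorem knG_T (w : ℍ) : knU knG (aff 1 1 w) = knZ * knU knG w :=
  knU_T (fun τ => by rw [funext knG_per, knG_sl, neg_neg]) w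

theorem knopp {X : ℝ} {K : ℤ → ℤ → ℍ → ℂ} (hK : Coc X K) :
    (∃ F, Sol X 1 F) ∨ ∃ g, Sol X 0 g ∧ Tendsto g atImInfty (𝓝 1) := by
  obtain ⟨q₁, h1⟩ := kn_cuspA knG_hol.U knG_T (by
    rw [funext knG_U]; exact (knTh_U_bd.mul (knE0_bd.sub knE2_bd)).inf)
  by_cases hq : q₁ = 0
  · subst hq
    exact Or.inr ⟨knG, ⟨knG_hol, knG_per, fun τ => by rw [knG_sl]; ring, knG_bd,
      kn_cuspB knG_hol.U knG_T h1⟩, knG_lim⟩
  have hx : KnBd (knU (K 1 (-1))) := hK.ubd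
  have hH : KnHol fun τ => knF K τ - K 1 (-1) τ := (knF_hol hK).sub (hK.hol _ _)
  have hU : ∀ w, knU (fun τ => knF K τ - K 1 (-1) τ) w = knU (knF K) w - knU (K 1 (-1)) w :=
    fun w => by simp only [knU, sl, mul_sub]
  have hT : ∀ w, knU (fun τ => knF K τ - K 1 (-1) τ) (aff 1 1 w) =
      knZ * knU (fun τ => knF K τ - K 1 (-1) τ) w := by
    refine knU_T fun τ => ?_
    have a1 := knF_sl hK τ
    have a2 := hK.S 1 1 isCoprime_one_left τ
    have a3 : K 1 1 (S • τ) = _ := hK.T2 1 (-1) isCoprime_one_left (S • τ)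
    rw [sl] at a1 a2
    rw [sl, knF_per hK, ← a3, mul_sub, a1, a2]
    ring
  have hB : KnBd fun w => knU (fun τ => knF K τ - K 1 (-1) τ) w * knE1 w := by
    refine .of_strip (fun w => by rw [norm_mul, norm_mul, kn_norm_per hT, knE1_per]) fun δ hδ => ?_
    obtain ⟨B, hB⟩ := (knP_adm1 hK).bound δ hδ
    obtain ⟨B', hB'⟩ := (hx.mul knE1_bd) δ hδ
    refine ⟨B + B', fun w hw => ?_⟩
    rw [hU, sub_mul, knF_U]
    exact (norm_sub_le _ _).trans (add_le_add (hB w hw) (hB' w hw.2))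
  obtain ⟨q₀, h0⟩ := kn_cuspA hH.U hT hB.inf
  have hC : KnBd fun w => knU (fun τ => knF K τ - K 1 (-1) τ) w - q₀ / q₁ * knU knG w := by
    refine kn_cuspB (hH.U.sub ((KnHol.const _).mul knG_hol.U))
      (fun w => by rw [hT, knG_T]; ring) ?_
    have := h0.sub (h1.const_mul (q₀ / q₁))
    rw [div_mul_cancel₀ _ hq, sub_self] at this
    simpa only [sub_mul, mul_assoc] using! this
  refine Or.inl ⟨fun τ => knF K τ - q₀ / q₁ * knG τ,
    (knF_hol hK).sub ((KnHol.const _).mul knG_hol), fun τ => by rw [knF_per hK, knG_per],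
    fun τ => ?_, (knF_bd hK).sub ((KnBd.const _).mul knG_bd), ?_⟩
  · have a1 := knF_sl hK τ
    have a2 := knG_sl τ
    rw [sl] at a1 a2
    rw [sl]
    linear_combination a1 - q₀ / q₁ * a2
  · intro δ hδ
    obtain ⟨B, hB⟩ := hC.add hx δ hδ
    refine ⟨B, fun w hw => le_of_eq_of_le (congrArg _ ?_) (hB w hw)⟩
    simp only [knU, sl]
    ring

end

end Pool.Agent.Lib.MP_e6abdd_an
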