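import Pool.Agent.Lib.MP_e6abdd_an.Defs

/-!
Holomorphic functions on the upper half plane, bounds on half planes, series of weight four.
-/

namespace Pool.Agent.Lib.MP_e6abdd_an

open Complex hiding Gamma
open UpperHalfPlane hiding I
open MeasureTheory Filter Topology CongruenceSubgroup
open scoped Real MatrixGroups ComplexConjugate Manifold

open ModularGroup (S T)

noncomputable section

/-- Holomorphic functions on the upper half plane. -/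
def KnHol (f : ℍ → ℂ) : Prop := DifferentiableOn ℂ (f ∘ ofComplex) {z | 0 < z.im}

/-- Functions bounded on all half planes `δ ≤ im`. -/
def KnBd (f : ℍ → ℂ) : Prop := ∀ δ > 0, ∃ B, ∀ τ : ℍ, δ ≤ τ.im → ‖f τ‖ ≤ B

variable {f g : ℍ → ℂ}

theorem KnHol.mdiff (h : KnHol f) : MDifferentiable 𝓘(ℂ) 𝓘(ℂ) f := mdifferentiable_iff.2 h

theorem KnHol.continuous (h : KnHol f) : Continuous f := h.mdiff.continuous

theorem KnHol.of_coe {G : ℂ → ℂ} (h : ∀ z, 0 < z.im → DifferentiableAt ℂ G z) :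
    KnHol fun τ => G τ :=
  DifferentiableOn.congr (fun z hz => (h z hz).differentiableWithinAt) fun z hz => by
    simp [ofComplex_apply_of_im_pos hz]

theorem KnHol.const (c : ℂ) : KnHol fun _ => c := differentiableOn_const c

theorem KnHol.add (h : KnHol f) (h' : KnHol g) : KnHol fun τ => f τ + g τ :=
  DifferentiableOn.add h h'

theorem KnHol.sub (h : KnHol f) (h' : KnHol g) : KnHol fun τ => f τ - g τ :=
  DifferentiableOn.sub h h'

theorem KnHol.mul (h : KnHol f) (h' : KnHol g) : KnHol fun τ => f τ * g τ :=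
  DifferentiableOn.mul h h'

theorem KnHol.div (h : KnHol f) (h' : KnHol g) (h0 : ∀ τ, g τ ≠ 0) : KnHol fun τ => f τ / g τ :=
  DifferentiableOn.div h h' fun _ _ => h0 _

theorem KnHol.comp (h : KnHol f) {φ : ℍ → ℍ} (hφ : KnHol fun τ => (φ τ : ℂ)) :
    KnHol fun τ => f (φ τ) :=
  (DifferentiableOn.comp h hφ fun z _ => (φ (ofComplex z)).im_pos).congr fun z _ => by simp

theorem KnHol.aff (h : KnHol f) {r : ℝ} (hr : 0 < r) (x : ℝ) : KnHol fun τ => f (aff r x τ) := by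
  refine h.comp ?_
  simp only [coe_aff hr]
  exact KnHol.of_coe (G := fun z => r * z + x) fun z _ => by fun_prop

theorem kn_ne {z : ℂ} (hz : 0 < z.im) : z ≠ 0 := by
  rintro rfl
  simp at hz

theorem kn_slit {z : ℂ} (hz : 0 < z.im) : -I * z ∈ slitPlane := Or.inl (by simpa using hz)

theorem KnHol.sl (h : KnHol f) : KnHol (sl f) := by
  refine KnHol.mul (KnHol.of_coe (G := fun z => (-I * z) ^ (-1 / 2 : ℂ)) fun z hz => ?_)
    (h.comp ?_)
  · exact DifferentiableAt.cpow_const (by fun_prop) (kn_slit hz)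
  · simp only [coe_S_smul]
    exact KnHol.of_coe (G := fun z => -1 / z) fun z hz =>
      (differentiableAt_const _).div differentiableAt_id (kn_ne hz)

theorem kn_periodic {P : ℝ} (h : ∀ τ, f (aff 1 P τ) = f τ) :
    Function.Periodic (f ∘ ofComplex) (P : ℂ) := by
  intro w
  by_cases hw : 0 < w.im
  · have h1 : ofComplex (w + P) = aff 1 P (ofComplex w) := by
      rw [aff, ofComplex_apply_of_im_pos hw]; simp
    simp only [Function.comp_apply, h1, h]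
  · have h2 : (w + P).im ≤ 0 := by simpa using hw
    simp [ofComplex_apply_of_im_nonpos h2, ofComplex_apply_of_im_nonpos (not_lt.1 hw)]

theorem kn_aff_add (x x' : ℝ) (τ : ℍ) : aff 1 x (aff 1 x' τ) = aff 1 (x' + x) τ := by
  rw [aff_aff one_pos one_pos]; simp

theorem kn_two (τ : ℍ) : aff 1 2 τ = aff 1 1 (aff 1 1 τ) := by
  rw [kn_aff_add]; norm_num

theorem kn_im (x : ℝ) (τ : ℍ) : (aff 1 x τ).im = τ.im := by rw [aff_im one_pos, one_mul]

theorem kn_coe (x : ℝ) (τ : ℍ) : (aff 1 x τ : ℂ) = τ + x := by rw [coe_aff one_pos]; simp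

theorem kn_red {α : Type} (φ : ℍ → α) (h : ∀ τ, φ (aff 1 2 τ) = φ τ) (τ : ℍ) :
    ∃ τ' ∈ verticalStrip 2 τ.im, τ'.im = τ.im ∧ φ τ' = φ τ := by
  have key : ∀ n : ℤ, ∀ τ, φ (aff 1 (2 * n) τ) = φ τ := by
    intro n
    induction n using Int.induction_on with
    | zero => intro τ; simp [aff_one_zero]
    | succ n ih =>
      intro τ
      rw [← h τ, ← ih (aff 1 2 τ), kn_aff_add]
      congr 2; push_cast; ring
    | pred n ih =>
      intro τ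
      rw [← h, kn_aff_add, ← ih τ]
      congr 2; push_cast; ring
  refine ⟨aff 1 (2 * (-⌊τ.re / 2⌋ : ℤ)) τ, ⟨?_, (kn_im _ _).ge⟩, kn_im _ _, key _ τ⟩
  rw [aff_re one_pos, abs_le]
  have h1 := Int.floor_le (τ.re / 2)
  have h2 := Int.lt_floor_add_one (τ.re / 2)
  push_cast
  constructor <;> linarith

theorem KnBd.of_strip (h : ∀ τ, ‖f (aff 1 2 τ)‖ = ‖f τ‖)
    (hb : ∀ δ > 0, ∃ B, ∀ τ ∈ verticalStrip 2 δ, ‖f τ‖ ≤ B) : KnBd f := by
  intro δ hδ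
  obtain ⟨B, hB⟩ := hb δ hδ
  refine ⟨B, fun τ hτ => ?_⟩
  obtain ⟨τ', h1, h2, h3⟩ := kn_red (fun τ => ‖f τ‖) h τ
  exact h3 ▸ hB τ' ⟨h1.1, h2 ▸ hτ⟩

theorem KnBd.of_inf (hc : Continuous f) (h : ∀ τ, ‖f (aff 1 2 τ)‖ = ‖f τ‖)
    (hb : IsBoundedAtImInfty f) : KnBd f := by
  refine KnBd.of_strip h fun δ hδ => ?_
  obtain ⟨M, A, hM⟩ := isBoundedAtImInfty_iff.1 hb
  have hK : IsCompact ((fun p : ℝ × ℝ => pt p.1 p.2) '' (Set.Icc (-2) 2 ×ˢ Set.Icc δ A)) :=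
    (isCompact_Icc.prod isCompact_Icc).image_of_continuousOn
      (continuousOn_pt.mono fun p hp => hδ.trans_le hp.2.1)
  obtain ⟨B, hB⟩ := hK.exists_bound_of_continuousOn hc.continuousOn
  refine ⟨max B M, fun τ hτ => ?_⟩
  rcases le_total A τ.im with h1 | h1
  · exact (hM τ h1).trans (le_max_right _ _)
  · exact (hB τ ⟨(τ.re, τ.im), ⟨abs_le.1 hτ.1, hτ.2, h1⟩, pt_re_im τ⟩).trans (le_max_left _ _)

theorem KnBd.inf (h : KnBd f) : IsBoundedAtImInfty f := by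
  obtain ⟨B, hB⟩ := h 1 one_pos
  exact isBoundedAtImInfty_iff.2 ⟨B, 1, hB⟩

theorem KnBd.add (h : KnBd f) (h' : KnBd g) : KnBd fun τ => f τ + g τ := fun δ hδ => by
  obtain ⟨B, hB⟩ := h δ hδ
  obtain ⟨B', hB'⟩ := h' δ hδ
  exact ⟨B + B', fun τ hτ => (norm_add_le _ _).trans (add_le_add (hB τ hτ) (hB' τ hτ))⟩

theorem KnBd.mul (h : KnBd f) (h' : KnBd g) : KnBd fun τ => f τ * g τ := fun δ hδ => by
  obtain ⟨B, hB⟩ := h δ hδ
  obtain ⟨B', hB'⟩ := h' δ hδ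
  exact ⟨B * B', fun τ hτ => (norm_mul_le _ _).trans (mul_le_mul (hB τ hτ) (hB' τ hτ)
    (norm_nonneg _) ((norm_nonneg _).trans (hB τ hτ)))⟩

theorem KnBd.const (c : ℂ) : KnBd fun _ => c := fun _ _ => ⟨‖c‖, fun _ _ => le_rfl⟩

theorem KnBd.sub (h : KnBd f) (h' : KnBd g) : KnBd fun τ => f τ - g τ := by
  simpa [sub_eq_add_neg] using h.add ((KnBd.const (-1)).mul h')

theorem KnBd.aff (h : KnBd f) {r : ℝ} (hr : 0 < r) (x : ℝ) : KnBd fun τ => f (aff r x τ) :=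
  fun δ hδ => by
    obtain ⟨B, hB⟩ := h (r * δ) (mul_pos hr hδ)
    exact ⟨B, fun τ hτ => hB _ (by rw [aff_im hr]; gcongr)⟩

theorem kn_tendsto (h : ∀ τ, f (aff 1 2 τ) = f τ) {L : ℂ}
    (ht : Tendsto f (atImInfty ⊓ 𝓟 (verticalStrip 2 1)) (𝓝 L)) : Tendsto f atImInfty (𝓝 L) := by
  intro U hU
  have h1 := ht hU
  rw [mem_map, mem_inf_principal, atImInfty_mem] at h1
  obtain ⟨A, hA⟩ := h1
  rw [mem_map, atImInfty_mem]
  refine ⟨max A 1, fun τ hτ => ?_⟩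
  obtain ⟨τ', h1, h2, h3⟩ := kn_red f h τ
  have := hA τ' (h2 ▸ (le_max_left _ _).trans hτ) ⟨h1.1, h2 ▸ (le_max_right _ _).trans hτ⟩
  rwa [Set.mem_preimage, h3] at this

/-- The summand of weight four. -/
def knE (v : ℤ × ℤ) (τ : ℍ) : ℂ := ((v.1 * (τ : ℂ) + v.2) ^ 4)⁻¹

/-- The size of a row. -/
def knSz (v : ℤ × ℤ) : ℝ := |(v.1 : ℝ)| + |(v.2 : ℝ)|

/-- A series of weight four with coefficients `a`. -/
def knS (a : ℤ × ℤ → ℂ) (τ : ℍ) : ℂ := ∑' v, a v * knE v τ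

theorem kn_major (A : ℝ) {δ : ℝ} (hδ : 0 < δ) : ∃ b : ℤ × ℤ → ℝ, Summable b ∧
    ∀ τ ∈ verticalStrip A δ, ∀ v, knSz v * ‖knE v τ‖ ≤ b v := by
  have hs := (finTwoArrowEquiv ℤ).symm.summable_iff.2
    (EisensteinSeries.summable_one_div_norm_rpow (k := 3) (by norm_num))
  refine ⟨_, hs.mul_left (2 * EisensteinSeries.r ⟨⟨A, δ⟩, hδ⟩ ^ (-4 : ℝ)), fun τ hτ v => ?_⟩
  have h1 := EisensteinSeries.summand_bound_of_mem_verticalStrip (k := 4) (by norm_num)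
    ![v.1, v.2] hδ hτ
  have h2 : knSz v ≤ 2 * ‖![v.1, v.2]‖ := by
    have a0 := norm_le_pi_norm ![v.1, v.2] 0
    have a1 := norm_le_pi_norm ![v.1, v.2] 1
    simp only [Matrix.cons_val_zero, Matrix.cons_val_one, Int.norm_eq_abs] at a0 a1
    rw [knSz]; linarith
  have h3 : ‖knE v τ‖ = ‖(v.1 * (τ : ℂ) + v.2)‖ ^ (-4 : ℝ) := by
    rw [knE, norm_inv, norm_pow, Real.rpow_neg (norm_nonneg _)]
    norm_cast
  simp only [Matrix.cons_val_zero, Matrix.cons_val_one] at h1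
  rw [h3]
  refine (mul_le_mul h2 h1 (by positivity) (by positivity)).trans (le_of_eq ?_)
  have h4 : ‖![v.1, v.2]‖ * ‖![v.1, v.2]‖ ^ (-4 : ℝ) = ‖![v.1, v.2]‖ ^ (-3 : ℝ) := by
    rw [show (-3 : ℝ) = 1 + -4 by norm_num, Real.rpow_add' (norm_nonneg _) (by norm_num),
      Real.rpow_one]
  simp only [Function.comp_apply, finTwoArrowEquiv_symm_apply]
  rw [← h4]; ring

theorem kn_term_le {a b C : ℝ} {x y : ℂ} (h : ‖x‖ ≤ C * a) (h' : a * ‖y‖ ≤ b) (ha : 0 ≤ a) :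
    ‖x * y‖ ≤ |C| * b := by
  rw [norm_mul]
  calc ‖x‖ * ‖y‖ ≤ (|C| * a) * ‖y‖ := by
        gcongr; exact h.trans (mul_le_mul_of_nonneg_right (le_abs_self C) ha)
    _ ≤ |C| * b := by rw [mul_assoc]; gcongr

theorem knSz_nonneg (v : ℤ × ℤ) : 0 ≤ knSz v := by rw [knSz]; positivity

theorem kn_summable {a : ℤ × ℤ → ℂ} {C : ℝ} (h : ∀ v, ‖a v‖ ≤ C * knSz v) (τ : ℍ) :
    Summable fun v => a v * knE v τ := by
  obtain ⟨b, hb, hb'⟩ := kn_major |τ.re| τ.im_pos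
  exact Summable.of_norm_bounded (hb.mul_left |C|) fun v =>
    kn_term_le (h v) (hb' τ ⟨le_rfl, le_rfl⟩ v) (knSz_nonneg v)

/-- Admissible families of coefficients. -/
structure KnAdm (u : ℤ × ℤ → ℍ → ℂ) : Prop where
  hol : ∀ v, KnHol fun τ => u v τ * knE v τ
  bd : ∀ δ > 0, ∃ C, ∀ v, ∀ τ : ℍ, δ ≤ τ.im → ‖u v τ‖ ≤ C * knSz v

theorem KnAdm.strip {u : ℤ × ℤ → ℍ → ℂ} (h : KnAdm u) (A : ℝ) {δ : ℝ} (hδ : 0 < δ) :
    ∃ b : ℤ × ℤ → ℝ, Summable b ∧ ∀ τ ∈ verticalStrip A δ, ∀ v, ‖u v τ * knE v τ‖ ≤ b v := by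
  obtain ⟨b, hb, hb'⟩ := kn_major A hδ
  obtain ⟨C, hC⟩ := h.bd δ hδ
  exact ⟨_, hb.mul_left |C|, fun τ hτ v =>
    kn_term_le (hC v τ hτ.2) (hb' τ hτ v) (knSz_nonneg v)⟩

theorem KnAdm.bound {u : ℤ × ℤ → ℍ → ℂ} (h : KnAdm u) :
    ∀ δ > 0, ∃ B, ∀ τ ∈ verticalStrip 2 δ, ‖knS (u · τ) τ‖ ≤ B := fun δ hδ => by
  obtain ⟨b, hb, hb'⟩ := h.strip 2 hδ
  exact ⟨_, fun τ hτ => tsum_of_norm_bounded hb.hasSum (hb' τ hτ)⟩

theorem KnAdm.summable {u : ℤ × ℤ → ℍ → ℂ} (h : KnAdm u) (τ : ℍ) :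
    Summable fun v => u v τ * knE v τ := by
  obtain ⟨C, hC⟩ := h.bd τ.im τ.im_pos
  exact kn_summable (fun v => hC v τ le_rfl) τ

theorem KnAdm.holS {u : ℤ × ℤ → ℍ → ℂ} (h : KnAdm u) : KnHol fun τ => knS (u · τ) τ := by
  intro z hz
  have hz' : 0 < z.im := hz
  obtain ⟨b, hb, hb'⟩ := h.strip (|z.re| + 1) (half_pos hz')
  have hU : IsOpen {w : ℂ | |w.re| < |z.re| + 1 ∧ z.im / 2 < w.im} :=
    IsOpen.and (isOpen_lt Complex.continuous_re.abs continuous_const)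
      (isOpen_lt continuous_const Complex.continuous_im)
  have hd := differentiableOn_tsum_of_summable_norm hb
    (fun v => (h.hol v).mono fun w hw => (half_pos hz').trans hw.2) hU fun v w hw => by
      have hw' : 0 < w.im := (half_pos hz').trans hw.2
      refine hb' (ofComplex w) ?_ v
      rw [ofComplex_apply_of_im_pos hw']
      exact ⟨hw.1.le, hw.2.le⟩
  exact (hd.differentiableAt (hU.mem_nhds ⟨by linarith, by linarith⟩)).differentiableWithinAt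

theorem kn_holE {v : ℤ × ℤ} (h : IsCoprime v.1 v.2) : KnHol (knE v) := by
  have := (KnHol.const 1).div (KnHol.of_coe (G := fun z => (v.1 * z + v.2) ^ 4)
    fun z _ => by fun_prop) fun τ => pow_ne_zero 4 (denom_ne h τ)
  simpa only [one_div] using! this

theorem knS_T (a : ℤ × ℤ → ℂ) (τ : ℍ) :
    knS a (aff 1 1 τ) = knS (fun w => a (w.1, w.2 - w.1)) τ := by
  let σ : ℤ × ℤ ≃ ℤ × ℤ := ⟨fun w => (w.1, w.2 - w.1), fun v => (v.1, v.2 + v.1),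
    fun _ => by simp, fun _ => by simp⟩
  rw [knS, knS, ← σ.tsum_eq]
  refine tsum_congr fun w => ?_
  simp only [σ, knE, Equiv.coe_fn_mk, kn_coe]
  push_cast
  ring_nf

theorem knS_S (a : ℤ × ℤ → ℂ) (τ : ℍ) :
    knS a (S • τ) = (τ : ℂ) ^ 4 * knS (fun w => a (-w.2, w.1)) τ := by
  let σ : ℤ × ℤ ≃ ℤ × ℤ := ⟨fun w => (-w.2, w.1), fun v => (v.2, -v.1),
    fun _ => by simp, fun _ => by simp⟩
  rw [knS, knS, ← σ.tsum_eq, ← tsum_mul_left]
  refine tsum_congr fun w => ?_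
  have h0 : (τ : ℂ) ≠ 0 := τ.ne_zero
  have : ((-w.2 : ℤ) * (-1 / (τ : ℂ)) + w.1) = (w.1 * τ + w.2) / τ := by
    push_cast; field_simp; ring
  simp only [σ, knE, Equiv.coe_fn_mk, coe_S_smul, this, div_pow, inv_div]
  ring

theorem knS_mul (c : ℂ) (a : ℤ × ℤ → ℂ) (τ : ℍ) : knS (fun v => c * a v) τ = c * knS a τ := by
  simp only [knS, mul_assoc, tsum_mul_left]

end

end Pool.Agent.Lib.MP_e6abdd_an
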