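import Pool.Agent.Lib.MP_e6abdd_an.Lift

/-!
Hecke eigenvalues are not too small.
-/

namespace Pool.Agent.Lib.MP_e6abdd_an

open Complex hiding Gamma
open UpperHalfPlane hiding I
open MeasureTheory Filter Topology CongruenceSubgroup
open scoped Real MatrixGroups ComplexConjugate

noncomputable section

/-- The normalised coefficients along the powers of a prime. -/
def lfG (L v : ℂ) (p : ℕ) : ℕ → ℂ
  | 0 => 1
  | 1 => L - v / p
  | k + 2 => L * lfG L v p (k + 1) - lfG L v p k / p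

theorem lf_pow {F : ℤ → ℝ → ℂ} {p : ℕ} (hp : p.Prime) {lam u : ℂ}
    (h : ∀ (n : ℤ) (y : ℝ), 0 < y → lam * F n y =
      (if (p : ℤ) ^ 2 ∣ n then F (n / p ^ 2) (p ^ 2 * y) else 0) +
        p ^ 2 * F (p ^ 2 * n) (y / p ^ 2) + u * (√p : ℝ) * (jacobiSym n p : ℤ) * F n y)
    {n : ℤ} (hn : ¬ (p : ℤ) ∣ n) {y : ℝ} (hy : 0 < y) (k : ℕ) :
    ((√p : ℝ) : ℂ) ^ k * F (n * p ^ (2 * k)) (y / p ^ (2 * k)) =
      lfG (lam / ((√p : ℝ) : ℂ) ^ 3) (u * (jacobiSym n p : ℤ)) p k * F n y := by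
  have hp0 : (0 : ℝ) < p := by exact_mod_cast hp.pos
  have hr0 : ((√p : ℝ) : ℂ) ≠ 0 := by exact_mod_cast (Real.sqrt_pos.2 hp0).ne'
  have hr : (p : ℂ) = ((√p : ℝ) : ℂ) ^ 2 := by
    rw [← ofReal_pow, Real.sq_sqrt hp0.le, ofReal_natCast]
  generalize ((√p : ℝ) : ℂ) = r at *
  induction k using Nat.twoStepInduction with
  | zero => simp [lfG]
  | one =>
    have h1 := h n y hy
    rw [if_neg fun h2 => hn ((dvd_pow_self _ two_ne_zero).trans h2), mul_comm _ n, hr] at h1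
    rw [lfG, hr, mul_one, pow_one]
    field_simp
    linear_combination -h1
  | more k h1 h2 =>
    have h3 := h (n * p ^ (2 * (k + 1))) (y / p ^ (2 * (k + 1))) (by positivity)
    have e0 : n * (p : ℤ) ^ (2 * (k + 1)) = p ^ 2 * (n * p ^ (2 * k)) := by ring
    have e1 : n * (p : ℤ) ^ (2 * (k + 1)) / p ^ 2 = n * p ^ (2 * k) := by
      rw [e0, Int.mul_ediv_cancel_left _ (pow_ne_zero 2 (by exact_mod_cast hp.ne_zero))]
    have e2 : (p : ℝ) ^ 2 * (y / p ^ (2 * (k + 1))) = y / p ^ (2 * k) := by field_simp; ring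
    have e3 : (p : ℤ) ^ 2 * (n * p ^ (2 * (k + 1))) = n * p ^ (2 * (k + 2)) := by ring
    have e4 : y / (p : ℝ) ^ (2 * (k + 1)) / p ^ 2 = y / p ^ (2 * (k + 2)) := by field_simp; ring
    have e5 : jacobiSym (n * p ^ (2 * (k + 1))) p = 0 := by
      rw [← jacobiSym.zero_left hp.one_lt]
      refine jacobiSym.mod_left' ?_
      rw [Int.zero_emod]
      exact Int.emod_eq_zero_of_dvd ((dvd_pow_self _ (by omega)).mul_left _)
    rw [if_pos ⟨_, e0⟩, e1, e2, e3, e4, e5, hr] at h3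
    rw [lfG, sub_mul, mul_assoc, ← h2, div_mul_eq_mul_div, div_mul_eq_mul_div, ← h1, hr]
    field_simp
    push_cast at h3
    linear_combination -(r ^ k * r) * h3

theorem lf_one {L v : ℂ} (hv : ‖v‖ ≤ 1) (p : ℕ) : ‖lfG L v p 1‖ ≤ ‖L‖ + 1 / p := by
  rw [lfG]
  refine (norm_sub_le _ _).trans (add_le_add le_rfl ?_)
  rw [norm_div, Complex.norm_natCast]
  exact div_le_div_of_nonneg_right hv (Nat.cast_nonneg p)

theorem lf_inv {p : ℕ} (hp : 0 < p) : (1 : ℝ) / p = (1 / √p) ^ 2 ∧ (1 : ℝ) / p ≤ 1 / √p := by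
  have h1 : (1 : ℝ) ≤ p := by exact_mod_cast hp
  refine ⟨by rw [div_pow, Real.sq_sqrt (by positivity), one_pow], ?_⟩
  refine one_div_le_one_div_of_le (by positivity) ?_
  rw [Real.sqrt_le_left (by positivity)]
  nlinarith

theorem lf_norm {L v : ℂ} (hv : ‖v‖ ≤ 1) {p : ℕ} (hp : 0 < p) (k : ℕ) :
    ‖lfG L v p k‖ ≤ (‖L‖ + 1 / √p) ^ k := by
  obtain ⟨e1, e2⟩ := lf_inv hp
  induction k using Nat.twoStepInduction with
  | zero => simp [lfG]
  | one => rw [pow_one]; linarith [lf_one (L := L) hv p]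
  | more k h1 h2 =>
    rw [lfG]
    refine (norm_sub_le _ _).trans ?_
    rw [norm_mul, norm_div, Complex.norm_natCast, div_eq_mul_one_div, e1]
    have hs : (0 : ℝ) ≤ 1 / √p := by positivity
    generalize (1 : ℝ) / √p = s at *
    have h3 := mul_le_mul_of_nonneg_left h2 (norm_nonneg L)
    have h4 := mul_le_mul_of_nonneg_right h1 (sq_nonneg s)
    have h5 : 0 ≤ (‖L‖ + s) ^ k * (‖L‖ * s) := by positivity
    have e : (‖L‖ + s) ^ (k + 2) = ‖L‖ * (‖L‖ + s) ^ (k + 1) + (‖L‖ + s) ^ k * s ^ 2 +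
      (‖L‖ + s) ^ k * (‖L‖ * s) := by ring
    linarith

/-- The multiplicative function with the given values at prime powers. -/
def lfC (G : ℕ → ℕ → ℂ) (m : ℕ) : ℂ := m.factorization.prod G

theorem lfC_one (G : ℕ → ℕ → ℂ) : lfC G 1 = 1 := by simp [lfC]

theorem lfC_mul (G : ℕ → ℕ → ℂ) {m n : ℕ} (h : m.Coprime n) :
    lfC G (m * n) = lfC G m * lfC G n := by
  rw [lfC, Nat.factorization_mul_of_coprime h, Finsupp.prod_add_index_of_disjoint
    (by simpa using h.disjoint_primeFactors)]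
  rfl

theorem lfC_pow {G : ℕ → ℕ → ℂ} {p : ℕ} (hp : p.Prime) (h : G p 0 = 1) (k : ℕ) :
    lfC G (p ^ k) = G p k := by
  rw [lfC, hp.factorization_pow, Finsupp.prod_single_index h]

theorem lf_euler {f t : ℕ → ℝ} (h0 : ∀ m, 0 ≤ f m) (h1 : f 1 = 1)
    (hmul : ∀ {m n : ℕ}, m.Coprime n → f (m * n) = f m * f n) (ht0 : ∀ p, 0 ≤ t p)
    (ht : Summable t) (h : ∀ p : ℕ, p.Prime → ∀ k, f (p ^ (k + 1)) ≤ t p * (1 / 2) ^ k) :
    Summable f := by
  classical
  have hs : ∀ {p : ℕ}, p.Prime → Summable fun k => f (p ^ k) := fun {p} hp =>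
    (summable_nat_add_iff 1).1
      ((summable_geometric_two.mul_left (t p)).of_nonneg_of_le (fun _ => h0 _) (h p hp))
  have hb : ∀ p : ℕ, p.Prime → ∑' k, f (p ^ k) ≤ Real.exp (2 * t p) := fun p hp => by
    rw [(hs hp).tsum_eq_zero_add, pow_zero, h1]
    have := ((summable_nat_add_iff 1).2 (hs hp)).tsum_le_tsum (h p hp)
      (summable_geometric_two.mul_left (t p))
    rw [tsum_mul_left, tsum_geometric_two] at this
    linarith [Real.add_one_le_exp (2 * t p)]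
  refine summable_of_sum_range_le (c := f 0 + Real.exp (2 * ∑' p, t p)) h0 fun n => ?_
  have h2 := (EulerProduct.summable_and_hasSum_smoothNumbers_prod_primesBelow_tsum h1 hmul
    (fun hp => (hs hp).norm) n).2
  rw [show (fun m : n.smoothNumbers => f m) = f ∘ (↑) from rfl, hasSum_subtype_iff_indicator] at h2
  have h3 := sum_le_hasSum (Finset.range n) (fun i _ => Set.indicator_nonneg (fun m _ => h0 m) i) h2
  have h4 : ∑ i ∈ Finset.range n, f i ≤
      ∑ i ∈ Finset.range n, ((if i = 0 then f 0 else 0) + n.smoothNumbers.indicator f i) := by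
    refine Finset.sum_le_sum fun i hi => ?_
    rcases Nat.eq_zero_or_pos i with rfl | h5
    · simpa using Set.indicator_nonneg (fun m _ => h0 m) 0
    · rw [if_neg h5.ne', zero_add,
        Set.indicator_of_mem (Nat.mem_smoothNumbers_of_lt h5 (Finset.mem_range.1 hi))]
  rw [Finset.sum_add_distrib, Finset.sum_ite_eq'] at h4
  have h5 : ∏ p ∈ n.primesBelow, ∑' k, f (p ^ k) ≤ Real.exp (2 * ∑' p, t p) := by
    refine (Finset.prod_le_prod (fun p _ => tsum_nonneg fun _ => h0 _)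
      fun p hp => hb p (Nat.prime_of_mem_primesBelow hp)).trans ?_
    rw [← Real.exp_sum, ← Finset.mul_sum]
    exact Real.exp_le_exp.2 (mul_le_mul_of_nonneg_left
      (ht.sum_le_tsum _ fun p _ => ht0 p) zero_le_two)
  have h6 : (if 0 ∈ Finset.range n then f 0 else 0) ≤ f 0 := by
    split_ifs
    · exact le_rfl
    · exact h0 0
  linarith

/-- The majorant of the coefficients of the lift. -/
def lfA (G : ℕ → ℕ → ℂ) (m : ℕ) : ℝ :=
  ∑ q ∈ m.divisorsAntidiagonal, 1 / (q.1 : ℝ) * ‖lfC G q.2‖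

theorem lfA_nonneg (G : ℕ → ℕ → ℂ) (m : ℕ) : 0 ≤ lfA G m :=
  Finset.sum_nonneg fun _ _ => by positivity

theorem lfA_mul (G : ℕ → ℕ → ℂ) {m n : ℕ} (h : m.Coprime n) :
    lfA G (m * n) = lfA G m * lfA G n := by
  let e : ArithmeticFunction ℝ := ⟨fun m => 1 / (m : ℝ), by simp⟩
  let c : ArithmeticFunction ℝ := ⟨fun m => if m = 0 then 0 else ‖lfC G m‖, by simp⟩
  have he : e.IsMultiplicative := ⟨by simp [e], fun {m n} _ => by simp [e, mul_comm]⟩
  have hc : c.IsMultiplicative := ⟨by simp [c, lfC_one], fun {m n} h => by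
    simp only [c, ArithmeticFunction.coe_mk, mul_eq_zero, lfC_mul G h, norm_mul]
    by_cases h1 : m = 0 <;> by_cases h2 : n = 0 <;> simp [h1, h2]⟩
  have : ∀ m, (e * c) m = lfA G m := fun m => by
    rw [ArithmeticFunction.mul_apply, lfA]
    refine Finset.sum_congr rfl fun q hq => ?_
    simp only [e, c, ArithmeticFunction.coe_mk]
    rw [if_neg (Nat.right_ne_zero_of_mem_divisorsAntidiagonal hq)]
  rw [← this, ← this, ← this, (he.mul hc).map_mul_of_coprime h]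

theorem lfA_pow {G : ℕ → ℕ → ℂ} {p : ℕ} (hp : p.Prime) (h : G p 0 = 1) (k : ℕ) :
    lfA G (p ^ k) = ∑ i ∈ Finset.range (k + 1), (1 / (p : ℝ)) ^ i * ‖G p (k - i)‖ := by
  rw [lfA, Nat.sum_divisorsAntidiagonal fun a b => 1 / (a : ℝ) * ‖lfC G b‖,
    Nat.sum_divisors_prime_pow hp]
  refine Finset.sum_congr rfl fun i hi => ?_
  rw [Nat.pow_div (Nat.lt_succ_iff.1 (Finset.mem_range.1 hi)) hp.pos, lfC_pow hp h]
  simp

theorem lf_local {G : ℕ → ℕ → ℂ} {p : ℕ} (hp : p.Prime) {L v : ℂ} (hv : ‖v‖ ≤ 1)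
    (hG : G p = lfG L v p) (hL : ‖L‖ ≤ 1 / 8) (h64 : 64 ≤ p) (k : ℕ) :
    lfA G (p ^ (k + 1)) ^ 2 ≤ 256 * (‖L‖ ^ 2 + 1 / (p : ℝ) ^ 2) * (1 / 2) ^ k := by
  obtain ⟨e1, e2⟩ := lf_inv hp.pos
  have h0 : G p 0 = 1 := by rw [hG, lfG]
  have hs : (0 : ℝ) ≤ 1 / √p := by positivity
  have hs8 : (1 : ℝ) / √p ≤ 1 / 8 := by
    refine one_div_le_one_div_of_le (by norm_num) (Real.le_sqrt_of_sq_le ?_)
    exact_mod_cast h64
  have hL0 := norm_nonneg L
  have e3 : 1 / (p : ℝ) ^ 2 = (1 / p) ^ 2 := by rw [div_pow, one_pow]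
  rcases k with _ | k
  · have := lf_one (L := L) hv p
    have h1 : lfA G (p ^ (0 + 1)) ≤ ‖L‖ + 2 * (1 / p) := by
      rw [lfA_pow hp h0, Finset.sum_range_succ, Finset.sum_range_succ, Finset.sum_range_zero, hG]
      simp only [zero_add, pow_zero, one_mul, Nat.sub_zero, pow_one, Nat.sub_self, lfG.eq_1,
        norm_one, mul_one]
      linarith
    refine (pow_le_pow_left₀ (lfA_nonneg _ _) h1 2).trans ?_
    rw [e3]
    nlinarith [sq_nonneg (‖L‖ - 2 * (1 / p)), sq_nonneg ‖L‖, sq_nonneg (1 / (p : ℝ))]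
  · have h1 : lfA G (p ^ (k + 1 + 1)) ≤ (2 * (‖L‖ + 1 / √p)) ^ (k + 2) := by
      rw [lfA_pow hp h0, mul_pow]
      refine (Finset.sum_le_card_nsmul _ _ ((‖L‖ + 1 / √p) ^ (k + 2)) fun i hi => ?_).trans ?_
      · have hi' : i ≤ k + 2 := Nat.lt_succ_iff.1 (Finset.mem_range.1 hi)
        rw [hG, ← pow_mul_pow_sub _ hi']
        exact mul_le_mul (pow_le_pow_left₀ (by positivity) (by linarith) i) (lf_norm hv hp.pos _)
          (norm_nonneg _) (by positivity)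
      · rw [Finset.card_range, nsmul_eq_mul]
        refine mul_le_mul_of_nonneg_right ?_ (by positivity)
        exact_mod_cast Nat.lt_two_pow_self
    refine (pow_le_pow_left₀ (lfA_nonneg _ _) h1 2).trans ?_
    rw [e3, e1]
    generalize (1 : ℝ) / √p = s at *
    have h2 : (2 * (‖L‖ + s)) ^ k ≤ (1 / 2) ^ k :=
      pow_le_pow_left₀ (by positivity) (by linarith) k
    have h3 : (2 * (‖L‖ + s)) ^ k ≤ 1 := pow_le_one₀ (by positivity) (by linarith)
    have h4 : (‖L‖ + s) ^ 2 ≤ 2 * (‖L‖ ^ 2 + s ^ 2) := by nlinarith [sq_nonneg (‖L‖ - s)]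
    have h5 : ((‖L‖ + s) ^ 2) ^ 2 ≤ 8 * (‖L‖ ^ 2 + (s ^ 2) ^ 2) := by
      refine (pow_le_pow_left₀ (by positivity) h4 2).trans ?_
      have : (‖L‖ ^ 2) ^ 2 ≤ ‖L‖ ^ 2 := by
        have : ‖L‖ ^ 2 ≤ 1 := by nlinarith
        nlinarith [sq_nonneg ‖L‖]
      nlinarith [sq_nonneg (‖L‖ ^ 2 - s ^ 2)]
    have e4 : ((2 * (‖L‖ + s)) ^ (k + 2)) ^ 2 =
        (2 * (‖L‖ + s)) ^ k * (2 * (‖L‖ + s)) ^ k * (16 * ((‖L‖ + s) ^ 2) ^ 2) := by ring
    have h6 : (2 * (‖L‖ + s)) ^ k * (2 * (‖L‖ + s)) ^ k ≤ (1 / 2) ^ k * 1 :=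
      mul_le_mul h2 h3 (by positivity) (by positivity)
    rw [e4]
    refine (mul_le_mul h6 (mul_le_mul_of_nonneg_left h5 (by norm_num)) (by positivity)
      (by positivity)).trans (le_of_eq ?_)
    ring

end

theorem not_summable_eig {j : ℤ} {g : ℍ → ℂ} (hg : BC g) (ha : Aut j 1 g) {D : ℕ} (hD : 0 < D)
    {y₀ : ℝ} (hy : 0 < y₀) (hne : fc 2 g D y₀ ≠ 0) {lam u : ℕ → ℂ} (hu : ∀ p, ‖u p‖ ≤ 1)
    (h : ∀ p : ℕ, p.Prime → p ≠ 2 → ∀ (n : ℤ) (y : ℝ), 0 < y → lam p * fc 2 g n y =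
      (if (p : ℤ) ^ 2 ∣ n then fc 2 g (n / p ^ 2) (p ^ 2 * y) else 0) +
        p ^ 2 * fc 2 g (p ^ 2 * n) (y / p ^ 2) +
          u p * (√p : ℝ) * (jacobiSym n p : ℤ) * fc 2 g n y) :
    ¬ Summable fun p : Nat.Primes => ‖lam p‖ ^ 2 / (p : ℝ) ^ 3 := by
  classical
  intro hs
  let L : ℕ → ℂ := fun p => lam p / ((√p : ℝ) : ℂ) ^ 3
  have hL : ∀ p : ℕ, ‖L p‖ ^ 2 = ‖lam p‖ ^ 2 / (p : ℝ) ^ 3 := fun p => by
    simp only [L]
    rw [norm_div, norm_pow, norm_real, Real.norm_of_nonneg (Real.sqrt_nonneg _), div_pow,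
      ← pow_mul, mul_comm 3 2, pow_mul, Real.sq_sqrt (Nat.cast_nonneg p)]
  have hs' : Summable ({p : ℕ | p.Prime}.indicator fun p => ‖L p‖ ^ 2) := by
    rw [← summable_subtype_iff_indicator]
    simp only [hL]
    exact hs
  obtain ⟨P, hP⟩ := eventually_atTop.1 ((hs'.tendsto_atTop_zero.eventually
    (gt_mem_nhds (show (0 : ℝ) < 1 / 64 by norm_num))).and (eventually_ge_atTop 64))
  have hN0 : 0 < 4 * D * P.factorial := by positivity
  have hp : ∀ p : ℕ, p.Prime → p.Coprime (4 * D * P.factorial) →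
      p ≠ 2 ∧ ¬ p ∣ D ∧ ‖L p‖ ≤ 1 / 8 ∧ 64 ≤ p := fun p hp hc => by
    rw [hp.coprime_iff_not_dvd] at hc
    have h1 : P ≤ p := by
      by_contra h1
      exact hc (((hp.dvd_factorial).2 (by omega)).mul_left _)
    obtain ⟨h2, h3⟩ := hP p h1
    rw [Set.indicator_of_mem (show p ∈ {p : ℕ | p.Prime} from hp)] at h2
    refine ⟨by omega, fun h4 => hc ((h4.mul_left _).mul_right _), ?_, h3⟩
    nlinarith [norm_nonneg (L p)]
  generalize hN : 4 * D * P.factorial = N at hp hN0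
  let G : ℕ → ℕ → ℂ := fun p => lfG (L p) (u p * (jacobiSym D p : ℤ)) p
  have hJ : ∀ (a : ℤ) (p : ℕ), ‖((jacobiSym a p : ℤ) : ℂ)‖ ≤ 1 := fun a p => by
    rcases jacobiSym.trichotomy a p with h | h | h <;> simp [h]
  have hv : ∀ p, ‖u p * (jacobiSym D p : ℤ)‖ ≤ 1 := fun p => by
    rw [norm_mul]; exact mul_le_one₀ (hu p) (norm_nonneg _) (hJ _ _)
  have hb : ∀ m : ℕ, Nat.Coprime m N → 0 < m → ∀ y, 0 < y →
      ((√m : ℝ) : ℂ) * fc 2 g (D * m ^ 2) (y / m ^ 2) = lfC G m * fc 2 g D y := by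
    intro m
    induction m using Nat.recOnPrimePow with
    | zero => intro _ h0; omega
    | one => intro _ _ y _; simp [lfC_one]
    | prime_pow_mul a p k pp hpa hk ih =>
      intro hc h0 y hy
      have ha0 : 0 < a := Nat.pos_of_mul_pos_left h0
      obtain ⟨h1, h2, -, -⟩ := hp p pp
        (Nat.Coprime.coprime_dvd_left ((dvd_pow_self p hk.ne').mul_right a) hc)
      have hca : p.Coprime a := pp.coprime_iff_not_dvd.2 hpa
      have h3 : ¬ (p : ℤ) ∣ D * a ^ 2 := by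
        intro h3
        have : p ∣ D * a ^ 2 := by exact_mod_cast h3
        rcases pp.dvd_mul.1 this with h4 | h4
        · exact h2 h4
        · exact hpa (pp.dvd_of_dvd_pow h4)
      have h4 := lf_pow (F := fc 2 g) pp (h p pp h1) h3 (y := y / a ^ 2) (by positivity) k
      rw [jacobiSym.mul_left, jacobiSym.sq_one' (by simpa using hca.symm), mul_one] at h4
      have h5 := ih (Nat.Coprime.coprime_mul_left hc) ha0 y hy
      have e1 : (D : ℤ) * ((p ^ k * a : ℕ) : ℤ) ^ 2 = D * a ^ 2 * p ^ (2 * k) := by push_cast; ring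
      have e2 : y / ((p ^ k * a : ℕ) : ℝ) ^ 2 = y / a ^ 2 / p ^ (2 * k) := by
        push_cast; rw [div_div]; congr 1; ring
      have e3 : √((p ^ k * a : ℕ) : ℝ) = √p ^ k * √a := by
        push_cast
        rw [Real.sqrt_mul (by positivity), Real.sqrt_eq_rpow, Real.sqrt_eq_rpow (p : ℝ),
          ← Real.rpow_natCast, ← Real.rpow_natCast, ← Real.rpow_mul (Nat.cast_nonneg p),
          ← Real.rpow_mul (Nat.cast_nonneg p), mul_comm (k : ℝ)]
      rw [e1, e2, e3, lfC_mul G (hca.pow_left k), lfC_pow pp rfl]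
      push_cast
      linear_combination ((√a : ℝ) : ℂ) * h4 + G p k * h5
  have hsq : ∀ m : ℕ, 0 < m → ((√m : ℝ) : ℂ) ≠ 0 := fun m hm => by
    exact_mod_cast (Real.sqrt_pos.2 (by exact_mod_cast hm)).ne'
  obtain ⟨Ψ, hΨ⟩ := lift hg ha hD ⟨_, hN.symm⟩ hN0 hy hne (b := fun m => lfC G m / (√m : ℝ))
    fun m hc hm y hy => by
      rw [div_mul_eq_mul_div, eq_div_iff (hsq m hm), ← hb m hc hm y hy, mul_comm]
  refine hΨ.not_summable hN0 ?_
  have ht : Summable fun p : ℕ => 256 * ({p : ℕ | p.Prime}.indicator (fun p => ‖L p‖ ^ 2) p +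
      1 / (p : ℝ) ^ 2) :=
    (hs'.add (Real.summable_one_div_nat_pow.2 one_lt_two)).mul_left _
  have hi : ∀ p, 0 ≤ {p : ℕ | p.Prime}.indicator (fun p => ‖L p‖ ^ 2) p :=
    Set.indicator_nonneg fun _ _ => by positivity
  have := lf_euler (f := fun m => if Nat.Coprime m N then lfA G m ^ 2 else 0)
    (fun m => by positivity) (by simp [lfA, lfC_one]) (fun {m n} hc => by
      simp only [Nat.coprime_mul_iff_left, lfA_mul G hc]
      by_cases h1 : m.Coprime N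
      · by_cases h2 : n.Coprime N
        · rw [if_pos ⟨h1, h2⟩, if_pos h1, if_pos h2, mul_pow]
        · rw [if_neg fun h3 => h2 h3.2, if_neg h2, mul_zero]
      · rw [if_neg fun h3 => h1 h3.1, if_neg h1, zero_mul])
    (fun p => by have := hi p; positivity) ht fun p pp k => by
      split_ifs with h1
      · obtain ⟨-, -, h2, h3⟩ := hp p pp
          (Nat.Coprime.coprime_dvd_left (dvd_pow_self p k.succ_ne_zero) h1)
        rw [Set.indicator_of_mem (show p ∈ {p : ℕ | p.Prime} from pp)]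
        exact lf_local (G := G) pp (hv p) rfl h2 h3 k
      · have := hi p
        positivity
  refine this.of_nonneg_of_le (fun m => by positivity) fun m => ?_
  split_ifs
  · refine pow_le_pow_left₀ (norm_nonneg _) ((norm_sum_le _ _).trans
      (Finset.sum_le_sum fun q hq => ?_)) 2
    rw [div_mul_cancel₀ _ (hsq _ (Nat.pos_of_ne_zero
      (Nat.right_ne_zero_of_mem_divisorsAntidiagonal hq))), norm_mul, norm_div, Complex.norm_natCast]
    exact mul_le_mul_of_nonneg_right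
      (div_le_div_of_nonneg_right (hJ _ _) (Nat.cast_nonneg _)) (norm_nonneg _)
  · exact le_rfl

end Pool.Agent.Lib.MP_e6abdd_an
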