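import Pool.Agent.Lib.MP_e6abdd_an.LiftD

/-!
The theta lift.
-/

namespace Pool.Agent.Lib.MP_e6abdd_an

open Complex hiding Gamma
open UpperHalfPlane hiding I
open MeasureTheory Filter Topology CongruenceSubgroup AddCircle
open scoped Real MatrixGroups ComplexConjugate

theorem lift_L_zero (j : ℤ) : ∃ (a b : ℂ) (n : ℕ), ‖a‖ ≤ 1 ∧ ‖b‖ ≤ 1 ∧ ∀ ζ ρ : ℝ,
    liftL j a b 0 ζ ρ =
      Real.exp (-π * ζ ^ 2) * ((-I * π * (√2 : ℝ) * ζ) ^ n / n.factorial) := by
  rcases le_total 0 j with hj | hj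
  · refine ⟨1, 0, (2 * j).toNat, by simp, by simp, fun ζ ρ => ?_⟩
    rw [← lift_integral_exp _ one_ne_zero, ← integral_const_mul, liftL,
      Int.toNat_of_nonneg (by omega), one_mul]
    congr 1
    funext θ
    simp only [fourier_eval_zero, f1, normSq_ofReal, conj_ofReal, ofReal_exp, ← mul_assoc,
      ← exp_add]
    congr 2
    push_cast
    ring
  · refine ⟨0, 1, (-(2 * j)).toNat, by simp, by simp, fun ζ ρ => ?_⟩
    rw [← lift_integral_exp _ (e := -1) (by norm_num), ← integral_const_mul, liftL,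
      Int.toNat_of_nonneg (by omega), neg_one_mul, neg_neg]
    congr 1
    funext θ
    simp only [fourier_eval_zero, f1, normSq_ofReal, conj_ofReal, ofReal_exp, ← mul_assoc,
      ← exp_add]
    congr 2
    push_cast
    ring

theorem lift_ne {j : ℤ} {g : ℍ → ℂ} (hg : BC g) {D N : ℕ} (hD : 0 < D) {y₀ : ℝ} (hy : 0 < y₀)
    (hne : fc 2 g D y₀ ≠ 0) : ∃ a b : ℂ, ‖a‖ ≤ 1 ∧ ‖b‖ ≤ 1 ∧ ∃ r, 0 < r ∧
      liftI g j a b D N 0 1 (-1) r ≠ 0 := by
  obtain ⟨a, b, n, ha, hb, hL⟩ := lift_L_zero j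
  refine ⟨a, b, ha, hb, ?_⟩
  by_contra! h0
  have hD' : (0 : ℝ) < D := by exact_mod_cast hD
  let u : ℝ → ℝ := fun v => Real.exp (-π * D * v) * (D * v) ^ (1 / 4 : ℝ) *
    (√(2 * D * v))⁻¹ ^ n * Real.exp (-v⁻¹) / v ^ 2
  have upos : ∀ v, 0 < v → 0 < u v := fun v hv => by positivity
  have uc : ContinuousOn u (Set.Ioi 0) := fun v hv => by
    have hv' : (0 : ℝ) < v := hv
    refine ContinuousAt.continuousWithinAt ?_
    have h1 : ContinuousAt (fun v : ℝ => (D * v) ^ (1 / 4 : ℝ)) v :=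
      ContinuousAt.rpow_const (by fun_prop) (Or.inr (by norm_num))
    have h2 : √(2 * D * v) ≠ 0 := by positivity
    have h3 := hv'.ne'
    have h4 : v ^ 2 ≠ 0 := by positivity
    simp only [u]
    fun_prop (disch := assumption)
  have hc : ContinuousOn (fun v => fc 2 g D v * (u v : ℂ)) (Set.Ioi 0) :=
    (continuousOn_fc hg.cont 2 D).mul (continuous_ofReal.comp_continuousOn uc)
  obtain ⟨C, hC⟩ := hg.bdd
  have hfc : ∀ v, ‖fc 2 g D v‖ ≤ C := fun v => by
    have := intervalIntegral.norm_integral_le_of_norm_le_const (a := 0) (b := 2) (C := C)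
      (f := fun x : ℝ => g (pt x v) * cexp (-(2 * π * I * (D : ℤ) * x / (2 : ℝ)))) fun x _ => by
        rw [norm_mul, norm_exp]; simpa using hC _
    rw [fc, norm_mul]
    norm_num at this ⊢
    linarith
  have hi : IntegrableOn (fun v => fc 2 g D v * (u v : ℂ)) (Set.Ioi 0) := by
    refine ((lift_integrable_inv (c := 1) (p := 1 / 4 - n / 2) one_pos
      (by have := n.cast_nonneg (α := ℝ); linarith)).const_mul
        (C * (D ^ (1 / 4 : ℝ) * (√(2 * D))⁻¹ ^ n))).mono'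
      (hc.aestronglyMeasurable measurableSet_Ioi) ?_
    filter_upwards [ae_restrict_mem measurableSet_Ioi] with v hv
    have hv' : (0 : ℝ) < v := hv
    rw [norm_mul, norm_real, Real.norm_of_nonneg (upos v hv).le, mul_assoc]
    refine mul_le_mul (hfc v) ?_ (upos v hv).le ((norm_nonneg _).trans (hfc v))
    have h1 : v ^ (1 / 4 - n / 2 : ℝ) = v ^ (1 / 4 : ℝ) * (√v)⁻¹ ^ n := by
      rw [Real.rpow_sub hv', Real.sqrt_eq_rpow, inv_pow, ← Real.rpow_natCast,
        ← Real.rpow_mul hv'.le, div_eq_mul_inv]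
      ring_nf
    have h2 : Real.exp (-π * D * v) ≤ 1 := Real.exp_le_one_iff.2 (by
      have : 0 < π * D * v := by positivity
      linarith)
    simp only [u]
    rw [h1, Real.mul_rpow hD'.le hv'.le, Real.sqrt_mul (by positivity), mul_inv, mul_pow, neg_div,
      one_div v, mul_assoc, mul_assoc, mul_div_assoc]
    refine (mul_le_of_le_one_left (by positivity) h2).trans_eq (by ring)
  refine mul_ne_zero hne (ofReal_ne_zero.2 (upos _ hy).ne') (lift_laplace hc hi (fun m => ?_) hy)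
  set r := √(2 * D * (m + 1) / π) with hr
  have hr0 : 0 < r := by positivity
  have hr2 : r ^ 2 = 2 * D * (m + 1) / π := Real.sq_sqrt (by positivity)
  have hK : (2 * r * conj ((-I * π * (√2 : ℝ) * r) ^ n / n.factorial) : ℂ) ≠ 0 := by
    simp [hr0.ne', Real.pi_ne_zero, n.factorial_ne_zero]
  refine (mul_eq_zero.1 ?_).resolve_left hK
  rw [← h0 r hr0, ← integral_const_mul, liftI]
  refine setIntegral_congr_fun measurableSet_Ioi fun v hv => ?_
  have hv' : (0 : ℝ) < v := hv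
  have e1 : Real.exp (-π * (r * (1 : ℤ) / √(2 * D * v)) ^ 2) =
      Real.exp (-v⁻¹) * Real.exp (-v⁻¹) ^ m := by
    rw [← pow_succ', ← Real.exp_nat_mul, div_pow, mul_pow, hr2, Real.sq_sqrt (by positivity)]
    congr 1
    push_cast
    field_simp
  have w2 : WW D N 1 = 1 := by simp [WW]
  simp only [hL, e1, w2, u, map_mul, conj_ofReal, map_div₀, map_pow, map_natCast]
  push_cast
  simp only [map_one, even_two, Even.neg_pow, one_pow, mul_one, div_eq_mul_inv, mul_pow]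
  ring

theorem lift {j : ℤ} {g : ℍ → ℂ} (hg : BC g) (ha : Aut j 1 g) {D N : ℕ} (hD : 0 < D)
    (hN : 4 * D ∣ N) (hN0 : 0 < N) {y₀ : ℝ} (hy : 0 < y₀) (hne : fc 2 g D y₀ ≠ 0) {b : ℕ → ℂ}
    (hb : ∀ m : ℕ, Nat.Coprime m N → 0 < m → ∀ y, 0 < y →
      fc 2 g (D * m ^ 2) (y / m ^ 2) = b m * fc 2 g D y) :
    ∃ Ψ, RSH N (fun m => ∑ q ∈ m.divisorsAntidiagonal,
      (jacobiSym D q.1 : ℤ) / (q.1 : ℂ) * (b q.2 * (√q.2 : ℝ))) Ψ := by
  obtain ⟨a', b', h1, h2, r, hr, h3⟩ := lift_ne (j := j) (N := N) hg hD hy hne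
  exact lift_rsh (lift_continuous_P hg hD h1 h2) (M := N ^ 2) (by positivity)
    (fun γ hγ => lift_cov_P hg ha hD hN hN0 h1 h2 hγ) lift_per_P
    (fun α => (lift_coef_P hg hD h1 h2 hb α).2) (fun δ hδ => lift_bdd_P hg hD h1 h2 hδ)
    ⟨r, hr, by rwa [(lift_coef_P hg hD h1 h2 hb 0).1 1 (Or.inl rfl) r hr]⟩

end Pool.Agent.Lib.MP_e6abdd_an
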