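import Pool.Agent.Lib.MP_e6abdd_an.RS

/-!
General analytic lemmas for the theta lift.
-/

namespace Pool.Agent.Lib.MP_e6abdd_an

open Complex hiding Gamma
open UpperHalfPlane hiding I
open MeasureTheory Filter Topology CongruenceSubgroup AddCircle
open scoped Real MatrixGroups ComplexConjugate

noncomputable section

/-- The class of an angle on the unit circle. -/
def liftAng (φ : ℝ) : UnitAddCircle := ((φ / (2 * π) : ℝ) : UnitAddCircle)

theorem lift_fourier_add (n : ℤ) (θ φ : UnitAddCircle) :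
    fourier n (θ + φ) = fourier n θ * fourier n φ := by
  simp [fourier_apply, toCircle_add]

theorem lift_fourier_ang (n : ℤ) (φ : ℝ) : fourier n (liftAng φ) = cexp (I * (n * φ)) := by
  rw [liftAng, fourier_coe_apply]
  congr 1
  have : (π : ℂ) ≠ 0 := ofReal_ne_zero.2 Real.pi_ne_zero
  push_cast
  field_simp

theorem lift_norm_fourier (n : ℤ) (θ : UnitAddCircle) : ‖fourier n θ‖ = 1 := by
  simp [fourier_apply]

theorem lift_norm_e (n : ℤ) (x : ℝ) : ‖cexp (-(2 * π * I * n * x / (1 : ℝ)))‖ = 1 := by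
  rw [norm_exp]; simp

theorem lift_fc_integral {Ω : Type} [MeasurableSpace Ω] {μ : Measure Ω} [SFinite μ]
    {F : ℍ → Ω → ℂ} (hF : Measurable (Function.uncurry F)) {r : ℝ} (hr : 0 < r) {B : Ω → ℝ}
    (hB : Integrable B μ) (h : ∀ z ω, z.im = r → ‖F z ω‖ ≤ B ω) (n : ℤ) :
    Integrable (fun ω => fc 1 (fun z => F z ω) n r) μ ∧
      fc 1 (fun z => ∫ ω, F z ω ∂μ) n r = ∫ ω, fc 1 (fun z => F z ω) n r ∂μ := by
  have hi : Integrable (Function.uncurry fun (x : ℝ) ω =>
      F (pt x r) ω * cexp (-(2 * π * I * n * x / (1 : ℝ))))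
      ((volume.restrict (Set.uIoc 0 1)).prod μ) := by
    have : IsFiniteMeasure (volume.restrict (Set.uIoc (0 : ℝ) 1)) :=
      isFiniteMeasure_restrict.2 (by simp)
    refine (hB.comp_snd _).mono' (Measurable.aestronglyMeasurable ?_) (ae_of_all _ fun p => ?_)
    · refine (hF.comp (((continuous_pt hr).measurable.comp measurable_fst).prodMk
        measurable_snd)).mul ?_
      exact (show Continuous fun x : ℝ => cexp (-(2 * π * I * n * x / (1 : ℝ))) by
        fun_prop).measurable.comp measurable_fst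
    · simp only [Function.uncurry, norm_mul, lift_norm_e, mul_one]
      exact h _ _ (pt_im _ hr)
  constructor
  · refine Integrable.const_mul ?_ _
    simpa only [intervalIntegral.integral_of_le zero_le_one, Set.uIoc_of_le zero_le_one,
      Function.uncurry] using hi.integral_prod_right
  · simp only [fc, integral_const_mul]
    rw [← intervalIntegral_integral_swap hi]
    simp only [integral_mul_const]

theorem lift_fc_const_mul (c : ℂ) (P : ℝ) (f : ℍ → ℂ) (n : ℤ) (y : ℝ) :
    fc P (fun z => c * f z) n y = c * fc P f n y := by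
  simp only [fc, mul_assoc, intervalIntegral.integral_const_mul]
  ring

theorem lift_rsh {N : ℕ} {a : ℕ → ℂ} {Φ : UnitAddCircle → ℍ → ℂ}
    (cont : Continuous (Function.uncurry Φ)) {M : ℕ} (hM : 0 < M)
    (cov : ∀ γ ∈ Gamma M, ∀ α (z : ℍ),
      Φ α (γ • z) = Φ (α + liftAng (2 * arg (γ 1 0 * (z : ℂ) + γ 1 1))) z)
    (per : ∀ α z, Φ α (aff 1 1 z) = Φ α z)
    (coef : ∀ α, ∀ s : ℤ, s = 1 ∨ s = -1 → ∀ m : ℕ, Nat.Coprime m N → 0 < m → ∀ r, 0 < r →
      fc 1 (Φ α) (s * m) r = a m * fc 1 (Φ α) s (m * r))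
    (bdd : ∀ δ > 0, ∃ B, ∀ α (z : ℍ), δ ≤ z.im → ‖Φ α z‖ ≤ B)
    (ne : ∃ r, 0 < r ∧ fc 1 (Φ 0) 1 r ≠ 0) : ∃ Ψ, RSH N a Ψ := by
  let Ψ : ℤ → ℍ → ℂ := fun l z => ∫ α, fourier (-l) α * Φ α z ∂haarAddCircle
  have hc : ∀ l : ℤ, Continuous (Function.uncurry fun (z : ℍ) α => fourier (-l) α * Φ α z) :=
    fun l => ((fourier (-l)).continuous.comp continuous_snd).mul (cont.comp continuous_swap)
  have hfc : ∀ l n r, 0 < r → fc 1 (Ψ l) n r =
      ∫ α, fourier (-l) α * fc 1 (Φ α) n r ∂haarAddCircle := by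
    intro l n r hr
    obtain ⟨B, hB⟩ := bdd r hr
    rw [(lift_fc_integral (hc l).measurable hr (integrable_const B) (fun z α hz => by
      rw [norm_mul, lift_norm_fourier, one_mul]; exact hB _ _ hz.ge) n).2]
    simp only [lift_fc_const_mul]
  obtain ⟨r, hr, hne⟩ := ne
  have hl : ∃ l, fc 1 (Ψ l) 1 r ≠ 0 := by
    by_contra! h0
    have hf : Continuous fun α => fc 1 (Φ α) 1 r := by
      refine continuous_const.mul (intervalIntegral.continuous_parametric_intervalIntegral_of_continuous'
        ?_ 0 1)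
      exact (cont.comp (continuous_fst.prodMk ((continuous_pt hr).comp continuous_snd))).mul
        (by fun_prop)
    have h1 : fourierCoeff (⟨_, hf⟩ : C(UnitAddCircle, ℂ)) = 0 := funext fun l => by
      rw [Pi.zero_apply, ← h0 l, hfc l 1 r hr]; rfl
    have h2 := has_pointwise_sum_fourier_series_of_summable (f := ⟨_, hf⟩)
      (by rw [h1]; exact summable_zero) 0
    rw [h1] at h2
    exact hne (h2.unique (by simpa using hasSum_zero))
  obtain ⟨l, hl⟩ := hl
  refine ⟨Ψ l, ?_, ⟨M, fun w => fourier l (liftAng (2 * arg w)), hM,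
    fun w => lift_norm_fourier _ _, fun γ hγ z => ?_⟩, fun z => ?_, fun s hs m hm hm0 r hr => ?_,
    fun δ hδ => ?_, 1, Or.inl rfl, r, hr, hl⟩
  · simpa only [Measure.restrict_univ] using
      continuous_parametric_integral_of_continuous (μ := haarAddCircle) (hc l) isCompact_univ
  · simp only [Ψ, cov γ hγ]
    rw [← integral_add_right_eq_self (μ := haarAddCircle) (fun α => fourier (-l) α * Φ α z)
      (liftAng (2 * arg (γ 1 0 * (z : ℂ) + γ 1 1))), ← integral_const_mul]
    congr 1
    funext α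
    have : ∀ β : UnitAddCircle, fourier l β * fourier (-l) β = 1 := fun β => by
      rw [← fourier_add]; simp
    rw [lift_fourier_add]
    linear_combination (-(fourier (-l) α * Φ _ z)) * this _
  · simp only [Ψ, per]
  · rw [hfc l _ r hr, hfc l _ _ (by positivity), ← integral_const_mul]
    congr 1
    funext α
    rw [coef α s hs m hm hm0 r hr]
    ring
  · obtain ⟨B, hB⟩ := bdd δ hδ
    refine ⟨B, fun z hz => ?_⟩
    simpa only [probReal_univ, mul_one] using
      norm_integral_le_of_norm_le_const (μ := haarAddCircle) (C := B)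
      (f := fun α => fourier (-l) α * Φ α z) (ae_of_all _ fun α => by
        rw [norm_mul, lift_norm_fourier, one_mul]; exact hB _ _ hz)

theorem lift_integral_fourier (n : ℤ) :
    ∫ θ : UnitAddCircle, fourier n θ ∂haarAddCircle = if n = 0 then 1 else 0 := by
  split_ifs with h
  · simp [h]
  · exact integral_eq_zero_of_add_right_eq_neg (μ := haarAddCircle)
      (fourier_add_half_inv_index h one_pos)

theorem lift_fourier_pow (e : ℤ) (m : ℕ) (θ : UnitAddCircle) :
    fourier e θ ^ m = fourier (e * m) θ := by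
  induction m with
  | zero => simp
  | succ m ih => rw [pow_succ, ih, ← fourier_add]; push_cast; ring_nf

theorem lift_integral_exp (w : ℂ) {e : ℤ} (he : e ≠ 0) (n : ℕ) :
    ∫ θ : UnitAddCircle, cexp (w * fourier e θ) * fourier (-(e * n)) θ ∂haarAddCircle =
      w ^ n / n.factorial := by
  have h1 : ∀ θ : UnitAddCircle, HasSum (fun m : ℕ => w ^ m / m.factorial *
      fourier (e * m - e * n) θ) (cexp (w * fourier e θ) * fourier (-(e * n)) θ) := fun θ => by
    have := (NormedSpace.expSeries_div_hasSum_exp (w * fourier e θ)).mul_right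
      (fourier (-(e * n)) θ)
    rw [← Complex.exp_eq_exp_ℂ] at this
    refine this.congr_fun fun m => ?_
    rw [mul_pow, lift_fourier_pow, sub_eq_add_neg, fourier_add]
    ring
  have h2 := hasSum_integral_of_summable_integral_norm (μ := haarAddCircle)
    (F := fun (m : ℕ) (θ : UnitAddCircle) => w ^ m / m.factorial * fourier (e * m - e * n) θ)
    (fun m => (continuous_const.mul (fourier _).continuous).integrable_of_hasCompactSupport
      (HasCompactSupport.of_compactSpace _))
    (by simpa [lift_norm_fourier] using Real.summable_pow_div_factorial ‖w‖)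
  simp only [(h1 _).tsum_eq, integral_const_mul, lift_integral_fourier] at h2
  refine h2.unique ?_
  refine (hasSum_ite_eq n (w ^ n / n.factorial)).congr_fun fun m => ?_
  by_cases h : m = n
  · simp [h]
  · rw [if_neg h, if_neg, mul_zero]
    rw [← mul_sub]
    exact mul_ne_zero he (sub_ne_zero.2 (by exact_mod_cast h))

/-- Uniqueness for a transform of Laplace type. -/
theorem lift_laplace {A : ℝ → ℂ} (hc : ContinuousOn A (Set.Ioi 0)) (hi : IntegrableOn A (Set.Ioi 0))
    (h : ∀ n : ℕ, ∫ v in Set.Ioi (0 : ℝ), A v * ((Real.exp (-v⁻¹) ^ n : ℝ) : ℂ) = 0) {y : ℝ}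
    (hy : 0 < y) : A y = 0 := by
  let t : ℝ → ℝ := fun v => Real.exp (-v⁻¹)
  have tm : Measurable t := by fun_prop
  have t01 : ∀ v ∈ Set.Ioi (0 : ℝ), t v ∈ Set.Icc (0 : ℝ) 1 := fun v hv =>
    ⟨(Real.exp_pos _).le, Real.exp_le_one_iff.2 (neg_nonpos.2 (inv_nonneg.2 (le_of_lt hv)))⟩
  have hint : ∀ φ : ℝ → ℝ, Continuous φ →
      IntegrableOn (fun v => A v * (φ (t v) : ℂ)) (Set.Ioi 0) := by
    intro φ hφ
    obtain ⟨C, hC⟩ := isCompact_Icc.exists_bound_of_continuousOn (hφ.continuousOn (s := Set.Icc 0 1))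
    refine Integrable.mul_bdd (c := C) hi (Measurable.aestronglyMeasurable
      (measurable_ofReal.comp (hφ.measurable.comp tm))) ?_
    filter_upwards [ae_restrict_mem measurableSet_Ioi] with v hv
    simpa using hC _ (t01 v hv)
  have hp : ∀ p : Polynomial ℝ, ∫ v in Set.Ioi (0 : ℝ), A v * (p.eval (t v) : ℝ) = 0 := by
    intro p
    induction p using Polynomial.induction_on' with
    | add p q hp hq =>
      simp only [Polynomial.eval_add, ofReal_add, mul_add]
      rw [integral_add (hint _ p.continuous) (hint _ q.continuous), hp, hq, add_zero]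
    | monomial n c =>
      simp only [Polynomial.eval_monomial, ofReal_mul, mul_left_comm _ (c : ℂ)]
      rw [integral_const_mul, h n, mul_zero]
  have hφ : ∀ φ : ℝ → ℝ, Continuous φ → ∫ v in Set.Ioi (0 : ℝ), A v * (φ (t v) : ℂ) = 0 := by
    intro φ hφ
    rw [← norm_le_zero_iff]
    refine le_of_forall_pos_le_add fun ε hε => ?_
    set K := ∫ v in Set.Ioi (0 : ℝ), ‖A v‖
    have hK : 0 ≤ K := integral_nonneg fun _ => norm_nonneg _
    obtain ⟨p, hp'⟩ := exists_polynomial_near_of_continuousOn 0 1 φ hφ.continuousOn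
      (ε / (K + 1)) (by positivity)
    rw [← sub_zero (∫ v in _, _), ← hp p, ← integral_sub (hint _ hφ) (hint _ p.continuous)]
    refine (norm_integral_le_of_norm_le (hi.norm.mul_const (ε / (K + 1))) ?_).trans ?_
    · filter_upwards [ae_restrict_mem measurableSet_Ioi] with v hv
      rw [← mul_sub, norm_mul, ← ofReal_sub, norm_real, Real.norm_eq_abs, abs_sub_comm]
      exact mul_le_mul_of_nonneg_left (hp' _ (t01 v hv)).le (norm_nonneg _)
    · rw [integral_mul_const, zero_add, mul_div_assoc', div_le_iff₀ (by positivity)]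
      nlinarith
  by_contra hne
  have hca : ContinuousAt (fun v => (conj (A y) * A v).re) y :=
    continuous_re.continuousAt.comp (continuousAt_const.mul (hc.continuousAt (Ioi_mem_nhds hy)))
  have h0 : 0 < (conj (A y) * A y).re := by
    rw [← normSq_eq_conj_mul_self, ofReal_re]; exact normSq_pos.2 hne
  obtain ⟨l, u, ⟨hl, hu⟩, hlu⟩ := mem_nhds_iff_exists_Ioo_subset.1
    (inter_mem (hca.eventually (lt_mem_nhds h0)) (Ioi_mem_nhds hy))
  have mono : StrictMonoOn t (Set.Ioi 0) := fun a ha b _ hab =>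
    Real.exp_lt_exp.2 (neg_lt_neg (inv_strictAnti₀ ha hab))
  set l' := (max l 0 + y) / 2
  have hl1 : max l 0 < l' := by have := max_lt hl hy; simp only [l']; linarith
  have hl2 : l' < y := by have := max_lt hl hy; simp only [l']; linarith
  have hl0 : 0 < l' := (le_max_right _ _).trans_lt hl1
  let φ : ℝ → ℝ := fun s => max 0 (min (s - t l') (t u - s))
  have φc : Continuous φ := by fun_prop
  have φpos : ∀ v, 0 < v → (0 < φ (t v) ↔ v ∈ Set.Ioo l' u) := fun v hv => by
    simp only [φ, lt_max_iff, lt_self_iff_false, false_or, lt_min_iff, sub_pos, Set.mem_Ioo]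
    rw [mono.lt_iff_lt hl0 hv, mono.lt_iff_lt hv (hy.trans hu)]
  have h1 : ∫ v in Set.Ioi (0 : ℝ), (conj (A y) * A v).re * φ (t v) = 0 := by
    have := congrArg (fun w => (conj (A y) * w).re) (hφ φ φc)
    simp only [mul_zero, zero_re] at this
    rw [← integral_const_mul, ← RCLike.re_to_complex,
      ← integral_re ((hint φ φc).const_mul _)] at this
    simpa [← mul_assoc] using this
  have h2 : ∀ v ∈ Set.Ioo l' u, 0 < (conj (A y) * A v).re := fun v hv =>
    (hlu ⟨(le_max_left _ _).trans_lt (hl1.trans hv.1), hv.2⟩).1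
  have h3 : 0 < ∫ v in Set.Ioi (0 : ℝ), (conj (A y) * A v).re * φ (t v) := by
    rw [setIntegral_pos_iff_support_of_nonneg_ae]
    · refine lt_of_lt_of_le ?_ (measure_mono (s := Set.Ioo l' u) fun v hv => ?_)
      · simpa using hl2.trans hu
      · have hv0 := hl0.trans hv.1
        exact ⟨(mul_pos (h2 v hv) ((φpos v hv0).2 hv)).ne', hv0⟩
    · filter_upwards [ae_restrict_mem measurableSet_Ioi] with v hv
      have h3 : 0 ≤ φ (t v) := le_max_left _ _
      rcases h3.eq_or_lt with e | e
      · rw [← e, mul_zero]; rfl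
      · exact (mul_pos (h2 v ((φpos v hv).1 e)) e).le
    · refine ((hint φ φc).const_mul (conj (A y))).re.congr (ae_of_all _ fun v => ?_)
      simp [← mul_assoc]
  exact h3.ne' h1

end

end Pool.Agent.Lib.MP_e6abdd_an
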