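import Pool.Agent.Lib.MP_e6abdd_an.Theta

/-!
The transformation law of the theta kernel in the second variable.
-/

namespace Pool.Agent.Lib.MP_e6abdd_an

open Complex hiding Gamma
open UpperHalfPlane hiding I
open MeasureTheory Filter Topology CongruenceSubgroup
open scoped Real MatrixGroups ComplexConjugate

noncomputable section

/-- The value of the form `[a, b, k]` at `z`, divided by the height. -/
def theta2P (z : ℍ) (a b k : ℝ) : ℂ := (a * (z : ℂ) ^ 2 + b * z + k) / z.im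

def theta2R (z : ℍ) (a b k : ℝ) : ℝ := (a * normSq (z : ℂ) + b * z.re + k) / z.im

/-- The exponent of the theta kernel in the symmetric model. -/
def theta2Phi (D : ℕ) (τ z : ℍ) (sp sm s₃ : ℂ) (a b k : ℝ) : ℂ :=
  π * I * D * τ * normSq (theta2P z a b k) - π * I * D * conj (τ : ℂ) * theta2R z a b k ^ 2 +
    2 * π * (√(D * τ.im) : ℝ) * (s₃ * theta2R z a b k +
      (sp * conj (theta2P z a b k) + sm * theta2P z a b k) / 2) - π * (sp * sm + s₃ ^ 2) / 2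

theorem theta2P_eq (z : ℍ) (a b k : ℝ) : theta2P z a b k =
    (((a * z.re ^ 2 + b * z.re + k) / z.im - a * z.im : ℝ) : ℂ) + (2 * a * z.re + b : ℝ) * I := by
  have hr : (z.im : ℂ) ≠ 0 := by exact_mod_cast z.im_pos.ne'
  have hz : (z : ℂ) = z.re + z.im * I := (re_add_im (z : ℂ)).symm
  rw [theta2P, hz]
  push_cast
  field_simp
  linear_combination (a * z.im ^ 2 : ℂ) * I_mul_I

theorem theta2R_eq (z : ℍ) (a b k : ℝ) :
    theta2R z a b k = (a * z.re ^ 2 + b * z.re + k) / z.im + a * z.im := by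
  have hr := z.im_pos.ne'
  rw [theta2R, normSq_apply, coe_re, coe_im]
  field_simp
  ring

theorem theta2Phi_eq (D : ℕ) (τ z : ℍ) (sp sm s₃ : ℂ) (a b k : ℝ) {p₁ p₂ R : ℝ}
    (h₁ : p₁ = (a * z.re ^ 2 + b * z.re + k) / z.im - a * z.im) (h₂ : p₂ = 2 * a * z.re + b)
    (h₃ : R = (a * z.re ^ 2 + b * z.re + k) / z.im + a * z.im) :
    theta2Phi D τ z sp sm s₃ a b k = -(π * D * τ.im : ℝ) * p₁ ^ 2 - (π * D * τ.im : ℝ) * p₂ ^ 2 -
      (π * D * τ.im : ℝ) * R ^ 2 + π * (√(D * τ.im) : ℝ) * (sp + sm) * p₁ +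
      π * (√(D * τ.im) : ℝ) * (I * (sm - sp)) * p₂ + 2 * π * (√(D * τ.im) : ℝ) * s₃ * R +
      -(π * (sp * sm + s₃ ^ 2) / 2) + I * (π * D * τ.re * (p₁ ^ 2 + p₂ ^ 2 - R ^ 2) : ℝ) := by
  have hτ : (τ : ℂ) = τ.re + τ.im * I := (re_add_im (τ : ℂ)).symm
  rw [theta2Phi, theta2P_eq, theta2R_eq, ← h₁, ← h₂, ← h₃, normSq_add_mul_I, hτ]
  simp only [map_add, map_mul, conj_ofReal, conj_I]
  push_cast
  linear_combination (π * D * τ.im * (p₁ ^ 2 + p₂ ^ 2 + R ^ 2) : ℂ) * I_mul_I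

theorem theta2_summable {D N : ℕ} (hD : 0 < D) (hN : 0 < N) (τ z : ℍ) (sp sm s₃ : ℂ)
    {W : ℤ × ℤ × ℤ → ℂ} {B : ℝ} (hW : ∀ n, ‖W n‖ ≤ B) : Summable fun n : ℤ × ℤ × ℤ =>
      W n * cexp (theta2Phi D τ z sp sm s₃ (N * n.1) n.2.1 (n.2.2 / N)) := by
  have hq : 0 < π * D * τ.im := by have := τ.im_pos; positivity
  have hr := z.im_pos
  have hN' : (0 : ℝ) < N := by exact_mod_cast hN
  set x := z.re
  set r := z.im
  simp_rw [fun n : ℤ × ℤ × ℤ => theta2Phi_eq D τ z sp sm s₃ (N * n.1) n.2.1 (n.2.2 / N) rfl rfl rfl]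
  refine theta_gauss3 (M := (|-1 / (2 * r * N)| + |0| + |1 / (2 * r * N)|) +
    (|x / r| + |1| + |-x / r|) + (|N * (r / 2 - x ^ 2 / (2 * r))| + |-N * x| +
      |N * (r / 2 + x ^ 2 / (2 * r))|)) hq hq hq _ _ _ _ hW fun n => ?_
  rw [add_mul, add_mul]
  refine add_le_add (add_le_add ?_ ?_) ?_ <;>
  · refine le_trans (le_of_eq ?_) (theta_lin3 _ _ _ _ _ _)
    congr 1
    field_simp
    ring

theorem theta2P_smul (g : SL(2, ℤ)) (z : ℍ) (a b k : ℝ) : theta2P (g • z) a b k =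
    theta2P z (a * g 0 0 ^ 2 + b * g 0 0 * g 1 0 + k * g 1 0 ^ 2)
      (2 * a * g 0 0 * g 0 1 + b * (g 0 0 * g 1 1 + g 0 1 * g 1 0) + 2 * k * g 1 0 * g 1 1)
      (a * g 0 1 ^ 2 + b * g 0 1 * g 1 1 + k * g 1 1 ^ 2) /
      cexp (I * arg (g 1 0 * (z : ℂ) + g 1 1)) ^ 2 := by
  have h := denom_ne (ModularGroup.bottom_row_coprime g) z
  have hr : (z.im : ℂ) ≠ 0 := by exact_mod_cast z.im_pos.ne'
  have hn : ((‖(g 1 0 * (z : ℂ) + g 1 1)‖ : ℝ) : ℂ) ≠ 0 := by simpa using h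
  rw [theta2P, theta2P, im_SL_smul, hgt, coe_SL_smul, theta_un_eq h, normSq_eq_norm_sq]
  push_cast
  generalize ((‖(g 1 0 * (z : ℂ) + g 1 1)‖ : ℝ) : ℂ) = m at hn
  obtain ⟨j, hj⟩ : ∃ j, j = g 1 0 * (z : ℂ) + g 1 1 := ⟨_, rfl⟩
  rw [← hj] at h ⊢
  field_simp
  rw [hj]
  ring

theorem theta2R_smul (g : SL(2, ℤ)) (z : ℍ) (a b k : ℝ) : theta2R (g • z) a b k =
    theta2R z (a * g 0 0 ^ 2 + b * g 0 0 * g 1 0 + k * g 1 0 ^ 2)
      (2 * a * g 0 0 * g 0 1 + b * (g 0 0 * g 1 1 + g 0 1 * g 1 0) + 2 * k * g 1 0 * g 1 1)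
      (a * g 0 1 ^ 2 + b * g 0 1 * g 1 1 + k * g 1 1 ^ 2) := by
  have h := denom_ne (ModularGroup.bottom_row_coprime g) z
  have hr := z.im_pos.ne'
  have hn : normSq (g 1 0 * (z : ℂ) + g 1 1) ≠ 0 := by simpa using h
  rw [theta2R, theta2R, im_SL_smul, hgt, ← coe_re, coe_SL_smul, map_div₀, div_re]
  obtain ⟨m, hm⟩ : ∃ m, m = normSq (g 1 0 * (z : ℂ) + g 1 1) := ⟨_, rfl⟩
  rw [← hm] at hn ⊢
  field_simp
  rw [hm]
  simp only [normSq_apply, add_re, mul_re, intCast_re, intCast_im, add_im, mul_im, coe_re, coe_im]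
  ring

theorem theta2Phi_smul (D : ℕ) (τ : ℍ) (g : SL(2, ℤ)) (z : ℍ) (sp sm s₃ : ℂ) (a b k : ℝ) :
    theta2Phi D τ (g • z) sp sm s₃ a b k =
      theta2Phi D τ z (sp * cexp (I * arg (g 1 0 * (z : ℂ) + g 1 1)) ^ 2)
        (sm / cexp (I * arg (g 1 0 * (z : ℂ) + g 1 1)) ^ 2) s₃
        (a * g 0 0 ^ 2 + b * g 0 0 * g 1 0 + k * g 1 0 ^ 2)
        (2 * a * g 0 0 * g 0 1 + b * (g 0 0 * g 1 1 + g 0 1 * g 1 0) + 2 * k * g 1 0 * g 1 1)
        (a * g 0 1 ^ 2 + b * g 0 1 * g 1 1 + k * g 1 1 ^ 2) := by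
  rw [theta2Phi, theta2Phi, theta2P_smul, theta2R_smul]
  generalize theta2P z _ _ _ = P
  generalize theta2R z _ _ _ = R
  generalize arg _ = t
  have h0 : cexp (I * t) ≠ 0 := exp_ne_zero _
  have h1 : conj (cexp (I * t)) = (cexp (I * t))⁻¹ := by
    rw [← exp_conj, ← exp_neg]; simp
  have h2 : normSq (cexp (I * t)) = 1 := by
    rw [normSq_eq_norm_sq, mul_comm, norm_exp_ofReal_mul_I, one_pow]
  rw [map_div₀, map_pow, h2, map_div₀, map_pow, h1]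
  field_simp

/-- The action of a matrix of determinant one on binary quadratic forms. -/
def theta2Act (p q s t : ℤ) (n : ℤ × ℤ × ℤ) : ℤ × ℤ × ℤ :=
  (n.1 * p ^ 2 + n.2.1 * p * s + n.2.2 * s ^ 2,
    2 * n.1 * p * q + n.2.1 * (p * t + q * s) + 2 * n.2.2 * s * t,
    n.1 * q ^ 2 + n.2.1 * q * t + n.2.2 * t ^ 2)

theorem theta2Act_inv {p q s t : ℤ} (h : p * t - q * s = 1) (n : ℤ × ℤ × ℤ) :
    theta2Act t (-q) (-s) p (theta2Act p q s t n) = n := by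
  obtain ⟨a, b, c⟩ := n
  simp only [theta2Act, Prod.mk.injEq]
  refine ⟨?_, ?_, ?_⟩
  · linear_combination (a * (p * t - q * s + 1)) * h
  · linear_combination (b * (p * t - q * s + 1)) * h
  · linear_combination (c * (p * t - q * s + 1)) * h

def theta2Equiv {p q s t : ℤ} (h : p * t - q * s = 1) : ℤ × ℤ × ℤ ≃ ℤ × ℤ × ℤ where
  toFun := theta2Act p q s t
  invFun := theta2Act t (-q) (-s) p
  left_inv := theta2Act_inv h
  right_inv n := by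
    have := theta2Act_inv (p := t) (q := -q) (s := -s) (t := p) (by linear_combination h) n
    rwa [neg_neg, neg_neg] at this

theorem theta2_WW_per {D N : ℕ} (hD : 0 < D) (hN : 4 * D ∣ N) (d m : ℤ) :
    WW D N (d + N * m) = WW D N d := by
  rw [WW, WW, Int.gcd_add_mul_left_left]
  split_ifs with h
  · obtain ⟨k, rfl⟩ := hN
    refine jac_periodic hD ?_ ⟨k * m, by push_cast; ring⟩
    rw [← Int.not_even_iff_odd]
    intro he
    have h2 : (2 : ℤ) ∣ ((4 * D * k : ℕ) : ℤ) := ⟨2 * D * k, by push_cast; ring⟩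
    have := Int.dvd_coe_gcd he.two_dvd h2
    rw [h] at this
    norm_num at this
  · rfl

theorem theta2_tsum3 {F : ℤ × ℤ × ℤ → ℂ} (hF : Summable F) :
    ∑' n, F n = ∑' a, ∑' b, ∑' c, F (a, b, c) := by
  rw [hF.tsum_prod]
  exact tsum_congr fun a => (hF.prod_factor a).tsum_prod

theorem theta2_tsum3' {F : ℤ × ℤ × ℤ → ℂ} (hF : Summable F) :
    ∑' v : ℤ × ℤ, ∑' b, F (v.1, b, v.2) = ∑' n, F n := by
  let e : (ℤ × ℤ) × ℤ ≃ ℤ × ℤ × ℤ :=
    (Equiv.prodAssoc _ _ _).trans ((Equiv.refl ℤ).prodCongr (Equiv.prodComm _ _))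
  have h := e.summable_iff.2 hF
  rw [Function.comp_def] at h
  rw [← e.tsum_eq, h.tsum_prod]
  rfl

/-- The exponent of the theta kernel in the mixed model. -/
def theta2E (D : ℕ) (τ z : ℍ) (s₁ s₂ s₃ : ℂ) (a b d : ℝ) : ℂ :=
  -(π * (z.im ^ 2 / (2 * D * τ.im)) : ℝ) * (2 * D * a * τ.re + d : ℝ) ^ 2 -
    (π * (z.im ^ 2 / (2 * D * τ.im)) * τ.im ^ 2 : ℝ) * (2 * D * a : ℝ) ^ 2 -
    (π * D * τ.im : ℝ) * (b + 2 * a * z.re : ℝ) ^ 2 +
    -(I * π * z.im / (√(D * τ.im) : ℝ) * (s₁ + s₃)) * (2 * D * a * τ.re + d : ℝ) +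
    π * z.im / (√(D * τ.im) : ℝ) * τ.im * (s₃ - s₁) * (2 * D * a : ℝ) +
    2 * π * (√(D * τ.im) : ℝ) * s₂ * (b + 2 * a * z.re : ℝ) + (π * s₁ * s₃ - π * s₂ ^ 2 / 2) +
    I * (π * D * τ.re * (b + 2 * a * z.re) ^ 2 + 2 * π * z.re * d * (b + a * z.re) : ℝ)

theorem theta2E_summable {D N : ℕ} (hD : 0 < D) (hN : 0 < N) (τ z : ℍ) (s₁ s₂ s₃ : ℂ) :
    Summable fun n : ℤ × ℤ × ℤ =>
      WW D N n.2.2 * cexp (theta2E D τ z s₁ s₂ s₃ (N * n.1) n.2.1 n.2.2) := by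
  have hv := τ.im_pos
  have hr := z.im_pos
  have hN' : (0 : ℝ) < N := by exact_mod_cast hN
  have hD' : (0 : ℝ) < D := by exact_mod_cast hD
  simp only [theta2E]
  refine theta_gauss3 (M := (|0| + |1 / (2 * D * N : ℝ)| + |0|) +
    (|0| + |-z.re / D| + |1|) + (|1| + |-τ.re| + |0|)) (by positivity) (by positivity)
      (by positivity) _ _ _ _ (fun n => theta_norm_WW D N n.2.2) fun n => ?_
  rw [add_mul, add_mul]
  refine add_le_add (add_le_add ?_ ?_) ?_ <;>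
  · refine le_trans (le_of_eq ?_) (theta_lin3 _ _ _ _ _ _)
    congr 1
    field_simp
    ring

theorem theta2_term_eq {D N : ℕ} (hD : 0 < D) (τ z : ℍ) (sp sm s₃ : ℂ) (c d : ℤ) :
    term D N τ z sp sm s₃ (2 * D * N * c) d = z.im * ((D * τ.im) ^ (1 / 4 : ℝ) : ℝ) *
      ∑' b : ℤ, WW D N d *
        cexp (theta2E D τ z ((sp + sm) / 2) ((sp - sm) / (2 * I)) s₃ (N * c) b d) := by
  have hv := τ.im_pos
  have hD' : (0 : ℝ) < D := by exact_mod_cast hD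
  have hD0 : (D : ℂ) ≠ 0 := by exact_mod_cast hD.ne'
  have hv0 : (τ.im : ℂ) ≠ 0 := by exact_mod_cast hv.ne'
  have hρ : ((√(D * τ.im) : ℝ) : ℂ) ≠ 0 := by
    exact_mod_cast (Real.sqrt_pos.2 (by positivity)).ne'
  have h2 : ((√2 : ℝ) : ℂ) ≠ 0 := by exact_mod_cast (Real.sqrt_pos.2 two_pos).ne'
  have hτ : (τ : ℂ) = τ.re + τ.im * I := (re_add_im (τ : ℂ)).symm
  rw [term, f1, GG, aff_im hD', coe_aff hD']
  generalize (sp + sm) / 2 = s₁
  generalize (sp - sm) / (2 * I) = s₂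
  have g5 : normSq (z.im * (((2 * D * N * c : ℤ) : ℂ) * (τ : ℂ) + d) / (√(2 * D * τ.im) : ℝ)) =
      z.im ^ 2 / (2 * D * τ.im) * (2 * D * (N * c) * τ.re + d) ^ 2 +
        z.im ^ 2 / (2 * D * τ.im) * τ.im ^ 2 * (2 * D * (N * c)) ^ 2 := by
    rw [map_div₀, map_mul, normSq_ofReal, normSq_ofReal, Real.mul_self_sqrt (by positivity),
      normSq_apply]
    simp only [add_re, mul_re, intCast_re, intCast_im, add_im, mul_im, coe_re, coe_im]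
    push_cast
    ring
  have g6 : √(2 * D * τ.im) = √2 * √(D * τ.im) := by rw [mul_assoc, Real.sqrt_mul zero_le_two]
  rw [g5, g6, ← tsum_mul_left, ← tsum_mul_left, ← tsum_mul_left]
  refine tsum_congr fun b => ?_
  rw [mul_mul_mul_comm (WW D N d * z.im : ℂ), ← exp_add, ← mul_assoc (z.im * _ : ℂ)]
  congr 1
  · ring
  congr 1
  rw [theta2E, hτ]
  simp only [map_add, map_mul, map_div₀, conj_ofReal, conj_I, map_intCast]
  push_cast
  field_simp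
  ring_nf
  simp only [I_sq]
  ring

theorem theta2E_poisson {D : ℕ} (hD : 0 < D) (τ z : ℍ) (sp sm s₃ : ℂ) (a b : ℝ) :
    ∃ B C : ℂ, (∀ d : ℝ, theta2E D τ z ((sp + sm) / 2) ((sp - sm) / (2 * I)) s₃ a b d =
      -π * (z.im ^ 2 / (2 * D * τ.im) : ℝ) * d ^ 2 + 2 * π * B * d + C) ∧
      ∀ k : ℝ, -π / (z.im ^ 2 / (2 * D * τ.im) : ℝ) * (k - I * B) ^ 2 + C =
        theta2Phi D τ z sp sm s₃ a b k := by
  have hv := τ.im_pos
  have hD' : (0 : ℝ) < D := by exact_mod_cast hD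
  have hD0 : (D : ℂ) ≠ 0 := by exact_mod_cast hD.ne'
  have hv0 : (τ.im : ℂ) ≠ 0 := by exact_mod_cast hv.ne'
  have hr0 : (z.im : ℂ) ≠ 0 := by exact_mod_cast z.im_pos.ne'
  have hρ : ((√(D * τ.im) : ℝ) : ℂ) ≠ 0 := by
    exact_mod_cast (Real.sqrt_pos.2 (by positivity)).ne'
  have hρ2 : (τ.im : ℂ) = ((√(D * τ.im) : ℝ) : ℂ) ^ 2 / D := by
    rw [← ofReal_pow, Real.sq_sqrt (by positivity)]; push_cast; field_simp
  refine ⟨-(z.im ^ 2 / (2 * D * τ.im) : ℝ) * (2 * D * a * τ.re) -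
    I * z.im / (2 * (√(D * τ.im) : ℝ)) * ((sp + sm) / 2 + s₃) + I * z.re * (b + a * z.re),
    theta2E D τ z ((sp + sm) / 2) ((sp - sm) / (2 * I)) s₃ a b 0, fun d => ?_, fun k => ?_⟩
  · rw [theta2E, theta2E]
    push_cast
    ring
  · rw [theta2Phi_eq D τ z sp sm s₃ a b k rfl rfl rfl, theta2E]
    push_cast
    generalize ((√(D * τ.im) : ℝ) : ℂ) = ρ at hρ hρ2 ⊢
    rw [hρ2]
    have hI : (sp - sm) / (2 * I) = I * (sm - sp) / 2 := by
      field_simp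
      linear_combination (sp - sm) * I_mul_I
    rw [hI]
    field_simp
    ring_nf
    simp only [I_sq, I_pow_three, I_pow_four]
    ring

/-- The theta kernel in the symmetric model. -/
theorem theta2_TH_eq {D N : ℕ} (hD : 0 < D) (hN : 4 * D ∣ N) (hN0 : 0 < N) :
    ∃ w : ℤ → ℂ, (∀ n m : ℤ, w (n + N * m) = w n) ∧ ∀ τ : ℍ, ∃ K : ℂ, ∀ (z : ℍ) (sp sm s₃ : ℂ),
      TH D N τ z sp sm s₃ = K * ∑' n : ℤ × ℤ × ℤ,
        w n.2.2 * cexp (theta2Phi D τ z sp sm s₃ (N * n.1) n.2.1 (n.2.2 / N)) := by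
  obtain ⟨w, B, hw, hB, hP⟩ := theta_poisson hN0 (W := fun d => WW D N d)
    fun d m => by rw [theta2_WW_per hD hN]
  refine ⟨w, hw, fun τ => ⟨((D * τ.im) ^ (1 / 4 : ℝ) : ℝ) * (√(2 * D * τ.im) : ℝ),
    fun z sp sm s₃ => ?_⟩⟩
  have hv := τ.im_pos
  have hr := z.im_pos
  have hD' : (0 : ℝ) < D := by exact_mod_cast hD
  have h1 := theta2E_summable hD hN0 τ z ((sp + sm) / 2) ((sp - sm) / (2 * I)) s₃
  have h2 := theta2_summable hD hN0 τ z sp sm s₃ (W := fun n => w n.2.2) fun n => hB n.2.2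
  have h3 := theta2_tsum3' h1
  rw [theta2_tsum3 h1] at h3
  simp only at h3
  rw [TH, theta2_tsum3 h2]
  simp_rw [theta2_term_eq hD]
  rw [tsum_mul_left, h3]
  have hA : 0 < z.im ^ 2 / (2 * D * τ.im) := by positivity
  have hs : √(z.im ^ 2 / (2 * D * τ.im)) = z.im / √(2 * D * τ.im) := by
    rw [Real.sqrt_div (sq_nonneg _), Real.sqrt_sq hr.le]
  have key : ∀ c b : ℤ, ∑' d : ℤ, WW D N d *
      cexp (theta2E D τ z ((sp + sm) / 2) ((sp - sm) / (2 * I)) s₃ (N * c) b d) =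
      ((√(2 * D * τ.im) : ℝ) / z.im : ℂ) *
        ∑' n : ℤ, w n * cexp (theta2Phi D τ z sp sm s₃ (N * c) b (n / N)) := by
    intro c b
    obtain ⟨B', C, e1, e2⟩ := theta2E_poisson hD τ z sp sm s₃ (N * c) b
    have h4 := hP _ hA B'
    simp_rw [e1, ← e2, exp_add _ C, ← mul_assoc]
    rw [tsum_mul_right, tsum_mul_right]
    simp only [ofReal_intCast, ofReal_div (_ : ℤ), ofReal_natCast]
    rw [h4, hs, ofReal_div, inv_div, mul_assoc]
  simp_rw [key, tsum_mul_left]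
  have hr0 : (z.im : ℂ) ≠ 0 := by exact_mod_cast hr.ne'
  field_simp

end

theorem TH_cov {D N : ℕ} (hD : 0 < D) (hN : 4 * D ∣ N) (hN0 : 0 < N) {g : SL(2, ℤ)}
    (hg : g ∈ Gamma (N ^ 2)) (τ z : ℍ) (sp sm s₃ : ℂ) :
    TH D N τ (g • z) sp sm s₃ =
      TH D N τ z (sp * cexp (I * arg (g 1 0 * (z : ℂ) + g 1 1)) ^ 2)
        (sm / cexp (I * arg (g 1 0 * (z : ℂ) + g 1 1)) ^ 2) s₃ := by
  obtain ⟨w, hw, hT⟩ := theta2_TH_eq hD hN hN0
  obtain ⟨K, hK⟩ := hT τ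
  obtain ⟨-, -, h10, h11⟩ := Gamma_mem.1 hg
  obtain ⟨s, hs⟩ : (N : ℤ) ∣ g 1 0 :=
    (dvd_pow_self (N : ℤ) two_ne_zero).trans (by
      exact_mod_cast (ZMod.intCast_zmod_eq_zero_iff_dvd _ _).1 h10)
  obtain ⟨t, ht⟩ : (N : ℤ) ∣ g 1 1 - 1 :=
    (dvd_pow_self (N : ℤ) two_ne_zero).trans (by
      have : ((g 1 1 - 1 : ℤ) : ZMod (N ^ 2)) = 0 := by push_cast; rw [h11, sub_self]
      exact_mod_cast (ZMod.intCast_zmod_eq_zero_iff_dvd _ _).1 this)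
  have hd : g 0 0 * g 1 1 - N * g 0 1 * s = 1 := by
    have := g.det_coe
    rw [Matrix.det_fin_two, hs] at this
    linear_combination this
  have hN' : (N : ℝ) ≠ 0 := by exact_mod_cast hN0.ne'
  have hs' : (g 1 0 : ℝ) = N * s := by exact_mod_cast hs
  rw [hK, hK, ← (theta2Equiv hd).tsum_eq (fun n : ℤ × ℤ × ℤ => w n.2.2 * cexp (theta2Phi D τ z
    (sp * cexp (I * arg (g 1 0 * (z : ℂ) + g 1 1)) ^ 2)
    (sm / cexp (I * arg (g 1 0 * (z : ℂ) + g 1 1)) ^ 2) s₃ (N * n.1) n.2.1 (n.2.2 / N)))]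
  congr 1
  refine tsum_congr fun n => ?_
  obtain ⟨a, b, c⟩ := n
  rw [theta2Phi_smul]
  simp only [theta2Equiv, theta2Act, Equiv.coe_fn_mk]
  congr 1
  · rw [← hw c (a * N * g 0 1 ^ 2 + b * g 0 1 * g 1 1 + c * t * (g 1 1 + 1))]
    congr 1
    linear_combination (-c * (g 1 1 + 1)) * ht
  · congr 2 <;>
    · push_cast
      try rw [hs']
      field_simp

end Pool.Agent.Lib.MP_e6abdd_an
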