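import Pool.Agent.Lib.MP_e6abdd_an.LiftA
import Pool.Agent.Lib.MP_e6abdd_an.Theta2

/-!
The family of theta lifts: definition, bounds, continuity.
-/

namespace Pool.Agent.Lib.MP_e6abdd_an

open Complex hiding Gamma
open UpperHalfPlane hiding I
open MeasureTheory Filter Topology CongruenceSubgroup AddCircle
open scoped Real MatrixGroups ComplexConjugate

noncomputable section

theorem lift_integrable_inv {c p : ℝ} (hc : 0 < c) (hp : p < 1) :
    IntegrableOn (fun v : ℝ => v ^ p * Real.exp (-c / v) / v ^ 2) (Set.Ioi 0) := by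
  have h := (integrableOn_Ioi_comp_rpow_iff' _ (p := -1) (by norm_num)).2
    (integrableOn_rpow_mul_exp_neg_mul_rpow (s := -p) (p := 1) (by linarith) one_pos hc)
  refine h.congr_fun (fun v hv => ?_) measurableSet_Ioi
  have hv' : (0 : ℝ) < v := hv
  simp only [smul_eq_mul, Real.rpow_one]
  rw [← Real.rpow_mul hv'.le, Real.rpow_neg_one, show (-1 - 1 : ℝ) = -(2 : ℕ) by norm_num,
    Real.rpow_neg hv'.le, Real.rpow_natCast]
  simp only [neg_mul, mul_neg, neg_neg, one_mul, div_eq_mul_inv]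
  ring

theorem lift_ineq {r δ K D v : ℝ} (q : ℝ) (hδ : 0 < δ) (hr : δ ≤ r) (hK : 1 ≤ K) (hD : 0 < D)
    (hv : 0 < v) : r * Real.exp (-(r ^ 2 * K ^ 2 / (2 * D * v))) * (D * v) ^ q ≤
      K ^ (-5 / 4 : ℝ) * (δ ^ (-1 / 4 : ℝ) * (2 * D) ^ (5 / 8 : ℝ) * D ^ q *
        (v ^ (5 / 8 + q) * Real.exp (-(3 * δ ^ 2 / (16 * D)) / v))) := by
  have hr0 : 0 < r := hδ.trans_le hr
  have hK0 : 0 < K := one_pos.trans_le hK
  have h1 := Real.log_le_self (x := r ^ 2 * K ^ 2 / (2 * D * v)) (by positivity)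
  rw [Real.log_div (by positivity) (by positivity), Real.log_mul (by positivity) (by positivity),
    Real.log_mul (by positivity) hv.ne', Real.log_pow, Real.log_pow] at h1
  have h2 : δ ^ 2 / (2 * D * v) ≤ r ^ 2 * K ^ 2 / (2 * D * v) := by
    gcongr
    exact (pow_le_pow_left₀ hδ.le hr 2).trans (le_mul_of_one_le_right (by positivity)
      (one_le_pow₀ hK))
  have h3 : -(3 * δ ^ 2 / (16 * D)) / v = -(3 / 8) * (δ ^ 2 / (2 * D * v)) := by field_simp; ring
  have h4 := Real.log_le_log hδ hr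
  rw [h3, Real.rpow_def_of_pos hK0, Real.rpow_def_of_pos hδ, Real.rpow_def_of_pos hD,
    Real.rpow_def_of_pos hv, Real.rpow_def_of_pos (mul_pos hD hv),
    Real.rpow_def_of_pos (mul_pos two_pos hD), Real.log_mul hD.ne' hv.ne']
  nth_rewrite 1 [← Real.exp_log hr0]
  simp only [← Real.exp_add]
  rw [Real.exp_le_exp]
  push_cast at h1
  linarith

theorem lift_continuous_term {D N : ℕ} (hD : 0 < D) {X : Type} [TopologicalSpace X] {τ z : X → ℍ}
    {sp sm s₃ : X → ℂ} (hτ : Continuous τ) (hz : Continuous z) (h1 : Continuous sp)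
    (h2 : Continuous sm) (h3 : Continuous s₃) (c d : ℤ) :
    Continuous fun x => term D N (τ x) (z x) (sp x) (sm x) (s₃ x) c d := by
  have hD' : (0 : ℝ) < D := by exact_mod_cast hD
  have a1 : Continuous fun x => (z x).im := continuous_im.comp hz
  have a2 : Continuous fun x => (z x).re := continuous_re.comp hz
  have a3 : Continuous fun x => (τ x).im := continuous_im.comp hτ
  have a4 : Continuous fun x => (τ x : ℂ) := continuous_coe.comp hτ
  have a5 : Continuous fun x => ((z x).im * (c * (τ x : ℂ) + d) / (√(2 * D * (τ x).im) : ℝ) : ℂ) := by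
    refine Continuous.div (by fun_prop) (by fun_prop) fun x => ?_
    have := (τ x).im_pos
    exact ofReal_ne_zero.2 (by positivity)
  have a6 : Continuous fun q : ℂ × ℂ × ℂ => f1 q.1 q.2.1 q.2.2 := by
    unfold f1
    fun_prop
  have a7 := a6.comp (a5.prodMk (((h1.add h2).div_const 2).prodMk h3))
  have a8 := continuous_GG.comp (((continuous_aff hD' 0).comp hτ).prodMk
    (((a2.mul (continuous_const (y := (c : ℝ)))).div_const D).prodMk
      ((a2.mul (continuous_const (y := (d : ℝ)))).prodMk ((h1.sub h2).div_const (2 * I)))))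
  simp only [Function.comp_def] at a7 a8
  unfold term
  exact ((continuous_const.mul (continuous_ofReal.comp a1)).mul a7).mul a8

theorem lift_term_zero (D N : ℕ) (τ z : ℍ) (sp sm s₃ : ℂ) (d : ℤ) : term D N τ z sp sm s₃ 0 d =
    WW D N d * z.im * f1 ((z.im * d / √(2 * D * τ.im) : ℝ) : ℂ) ((sp + sm) / 2) s₃ *
      GG (aff D 0 τ) 0 (z.re * d) ((sp - sm) / (2 * I)) := by
  simp [term]

theorem lift_norm_WW (D N : ℕ) (d : ℤ) : ‖(WW D N d : ℂ)‖ ≤ 1 := by
  unfold WW
  split_ifs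
  · rcases jacobiSym.trichotomy D d.natAbs with h | h | h <;> simp [h]
  · simp

theorem lift_bound {D : ℕ} (N : ℕ) (hD : 0 < D) {δ : ℝ} (hδ : 0 < δ) : ∃ B : ℝ → ℝ, Measurable B ∧
    (∀ v, 0 < v → 0 ≤ B v) ∧ IntegrableOn (fun v => B v / v ^ 2) (Set.Ioi 0) ∧
    ∀ (τ z : ℍ) (sp sm s₃ : ℂ), ‖sp‖ ≤ 1 → ‖sm‖ ≤ 1 → ‖s₃‖ ≤ 1 → δ ≤ z.im → ∀ k : ℕ,
      ‖term D N τ z sp sm s₃ 0 (k + 1)‖ ≤ (k + 1 : ℝ) ^ (-5 / 4 : ℝ) * B τ.im := by
  have hD' : (0 : ℝ) < D := by exact_mod_cast hD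
  obtain ⟨C, hC, h1⟩ := norm_f1_le 1
  obtain ⟨C', hC', h2⟩ := norm_GG_le 1
  let E : ℝ → ℝ → ℝ := fun q v => δ ^ (-1 / 4 : ℝ) * (2 * D) ^ (5 / 8 : ℝ) * D ^ q *
    (v ^ (5 / 8 + q) * Real.exp (-(3 * δ ^ 2 / (16 * D)) / v))
  have hE : ∀ q, q < 3 / 8 → IntegrableOn (fun v => E q v / v ^ 2) (Set.Ioi 0) := fun q hq => by
    have := (lift_integrable_inv (c := 3 * δ ^ 2 / (16 * D)) (p := 5 / 8 + q) (by positivity)
      (by linarith)).const_mul (δ ^ (-1 / 4 : ℝ) * (2 * D) ^ (5 / 8 : ℝ) * D ^ q)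
    exact this.congr (ae_of_all _ fun v => (mul_div_assoc _ _ _).symm)
  refine ⟨fun v => C * C' * (E (1 / 4) v + E (-1 / 4) v), by fun_prop, fun v hv => by positivity,
    ?_, fun τ z sp sm s₃ hp hm h3 hz k => ?_⟩
  · refine (((hE (1 / 4) (by norm_num)).add (hE (-1 / 4) (by norm_num))).const_mul
      (C * C')).congr (ae_of_all _ fun v => ?_)
    simp only [Pi.add_apply]
    ring
  · have hv := τ.im_pos
    have hr := z.im_pos
    have b1 : ‖(sp + sm) / 2‖ ≤ 1 := by
      have := norm_add_le sp sm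
      rw [norm_div, Complex.norm_two]; linarith
    have b2 : ‖(sp - sm) / (2 * I)‖ ≤ 1 := by
      have := norm_sub_le sp sm
      rw [norm_div, norm_mul, Complex.norm_two, norm_I]; linarith
    have e1 := h1 ((z.im * ((k + 1 : ℤ) : ℝ) / √(2 * D * τ.im) : ℝ) : ℂ) _ _ b1 h3
    have e2 := h2 (aff D 0 τ) 0 (z.re * ((k + 1 : ℤ) : ℝ)) _ b2
    rw [normSq_ofReal, ← sq, div_pow, mul_pow, Real.sq_sqrt (by positivity)] at e1
    rw [aff_im hD'] at e2
    have hk : (1 : ℝ) ≤ k + 1 := by simp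
    have i1 := lift_ineq (1 / 4) hδ hz hk hD' hv
    have i2 := lift_ineq (-1 / 4) hδ hz hk hD' hv
    rw [lift_term_zero, norm_mul, norm_mul, norm_mul, norm_real, Real.norm_of_nonneg hr.le]
    push_cast at e1 e2 ⊢
    refine (mul_le_mul (mul_le_mul (mul_le_of_le_one_left hr.le (lift_norm_WW _ _ _)) e1
      (norm_nonneg _) hr.le) e2 (norm_nonneg _) (by positivity)).trans ?_
    have := mul_le_mul_of_nonneg_left (add_le_add i1 i2) (mul_nonneg hC hC')
    simp only [E]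
    linarith

/-- A term of the theta kernel with rotated parameters. -/
def liftT (j : ℤ) (a b : ℂ) (D N : ℕ) (α θ : UnitAddCircle) (τ z : ℍ) (c d : ℤ) : ℂ :=
  term D N τ z (a * (fourier 1 θ * fourier 1 α)) (a * (fourier 1 θ * fourier (-1) α))
    (b * fourier (-1) θ) c d * fourier (-(2 * j)) θ

def liftF (g : ℍ → ℂ) (j : ℤ) (a b : ℂ) (D N : ℕ) (α : UnitAddCircle) (z : ℍ)
    (ω : ℕ × ℍ × UnitAddCircle) : ℂ :=
  g ω.2.1 * conj (liftT j a b D N α ω.2.2 ω.2.1 z 0 (ω.1 + 1))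

def liftM : Measure (ℕ × ℍ × UnitAddCircle) :=
  Measure.count.prod ((volume.restrict strip).prod haarAddCircle)

instance : SFinite liftM := by unfold liftM; infer_instance

/-- The family of lifts. -/
def liftP (g : ℍ → ℂ) (j : ℤ) (a b : ℂ) (D N : ℕ) (α : UnitAddCircle) (z : ℍ) : ℂ :=
  ∫ ω, liftF g j a b D N α z ω ∂liftM

variable {g : ℍ → ℂ} {j : ℤ} {a b : ℂ} {D N : ℕ}

theorem lift_continuous_T (hD : 0 < D) {X : Type} [TopologicalSpace X] {τ z : X → ℍ}
    {α θ : X → UnitAddCircle} (hα : Continuous α) (hθ : Continuous θ) (hτ : Continuous τ)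
    (hz : Continuous z) (c d : ℤ) :
    Continuous fun x => liftT j a b D N (α x) (θ x) (τ x) (z x) c d :=
  (lift_continuous_term hD hτ hz (by fun_prop) (by fun_prop) (by fun_prop) c d).mul (by fun_prop)

theorem lift_norm_T (α θ : UnitAddCircle) (τ z : ℍ) (c d : ℤ) : ‖liftT j a b D N α θ τ z c d‖ =
    ‖term D N τ z (a * (fourier 1 θ * fourier 1 α)) (a * (fourier 1 θ * fourier (-1) α))
      (b * fourier (-1) θ) c d‖ := by
  rw [liftT, norm_mul, lift_norm_fourier, mul_one]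

theorem lift_measurable_F (hg : BC g) (hD : 0 < D) (α : UnitAddCircle) :
    Measurable (Function.uncurry (liftF g j a b D N α)) := by
  have : Continuous fun p : ℕ × ℍ × ℍ × UnitAddCircle =>
      liftF g j a b D N α p.2.1 (p.1, p.2.2) := by
    refine continuous_prod_of_discrete_left.2 fun k => ?_
    have h1 : Continuous fun p : ℍ × ℍ × UnitAddCircle =>
        liftT j a b D N α p.2.2 p.2.1 p.1 0 (k + 1) :=
      lift_continuous_T hD continuous_const continuous_snd.snd continuous_snd.fst continuous_fst _ _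
    simp only [liftF]
    exact (hg.cont.comp continuous_snd.fst).mul (continuous_conj.comp h1)
  have h2 : Measurable fun p : ℍ × ℕ × ℍ × UnitAddCircle => (p.2.1, p.1, p.2.2) :=
    measurable_snd.fst.prodMk (measurable_fst.prodMk measurable_snd.snd)
  have h3 := this.measurable.comp h2
  simp only [Function.comp_def, Prod.mk.eta] at h3
  exact h3

theorem lift_bound_F (hg : BC g) (hD : 0 < D) (ha : ‖a‖ ≤ 1) (hb : ‖b‖ ≤ 1) {δ : ℝ} (hδ : 0 < δ) :
    ∃ B, Integrable B liftM ∧ ∀ α (z : ℍ), δ ≤ z.im → ∀ ω, ‖liftF g j a b D N α z ω‖ ≤ B ω := by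
  obtain ⟨B, hm, h0, hi, hB⟩ := lift_bound N hD hδ
  obtain ⟨C, hC⟩ := hg.bdd
  have h1 : Integrable (fun k : ℕ => (k + 1 : ℝ) ^ (-5 / 4 : ℝ)) Measure.count := by
    rw [integrable_count_iff]
    have := (summable_nat_add_iff 1).2 (Real.summable_nat_rpow.2 (by norm_num : (-5 / 4 : ℝ) < -1))
    refine this.congr fun k => ?_
    rw [Real.norm_of_nonneg (by positivity)]
    simp
  have h2 : IntegrableOn (fun τ : ℍ => (B τ.im : ℂ)) strip :=
    integrableOn_strip (measurable_ofReal.comp (hm.comp continuous_im.measurable)) hi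
      fun τ => by rw [norm_real, Real.norm_of_nonneg (h0 _ τ.im_pos)]
  refine ⟨fun ω => C * ((ω.1 + 1 : ℝ) ^ (-5 / 4 : ℝ) * B ω.2.1.im),
    (h1.mul_prod (h2.re.comp_fst haarAddCircle)).const_mul C, fun α z hz ω => ?_⟩
  rw [liftF, norm_mul, norm_conj, lift_norm_T]
  refine mul_le_mul (hC _) (hB _ _ _ _ _ ?_ ?_ ?_ hz _) (norm_nonneg _)
    ((norm_nonneg _).trans (hC ω.2.1)) <;> simpa [lift_norm_fourier]

theorem lift_integrable_F (hg : BC g) (hD : 0 < D) (ha : ‖a‖ ≤ 1) (hb : ‖b‖ ≤ 1)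
    (α : UnitAddCircle) (z : ℍ) : Integrable (liftF g j a b D N α z) liftM := by
  obtain ⟨B, h1, h2⟩ := lift_bound_F (j := j) (N := N) hg hD ha hb z.im_pos
  exact h1.mono' (lift_measurable_F hg hD α).of_uncurry_left.aestronglyMeasurable
    (ae_of_all _ (h2 α z le_rfl))

theorem lift_continuous_P (hg : BC g) (hD : 0 < D) (ha : ‖a‖ ≤ 1) (hb : ‖b‖ ≤ 1) :
    Continuous (Function.uncurry (liftP g j a b D N)) := by
  refine continuous_iff_continuousAt.2 fun p => ?_
  obtain ⟨B, h1, h2⟩ := lift_bound_F (j := j) (N := N) hg hD ha hb (half_pos p.2.im_pos)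
  refine continuousAt_of_dominated (F := fun q : UnitAddCircle × ℍ => liftF g j a b D N q.1 q.2)
    (Eventually.of_forall fun q => (lift_integrable_F hg hD ha hb _ _).1) ?_ h1
    (ae_of_all _ fun ω => Continuous.continuousAt ?_)
  · have : ∀ᶠ q : UnitAddCircle × ℍ in 𝓝 p, p.2.im / 2 < q.2.im :=
      (UpperHalfPlane.continuous_im.comp continuous_snd).continuousAt.eventually
        (lt_mem_nhds (half_lt_self p.2.im_pos))
    exact this.mono fun q hq => ae_of_all _ (h2 _ _ hq.le)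
  · exact continuous_const.mul (continuous_conj.comp
      (lift_continuous_T hD continuous_fst continuous_const continuous_const continuous_snd _ _))

theorem lift_bdd_P (hg : BC g) (hD : 0 < D) (ha : ‖a‖ ≤ 1) (hb : ‖b‖ ≤ 1) {δ : ℝ} (hδ : 0 < δ) :
    ∃ B, ∀ α (z : ℍ), δ ≤ z.im → ‖liftP g j a b D N α z‖ ≤ B := by
  obtain ⟨B, h1, h2⟩ := lift_bound_F (j := j) (N := N) hg hD ha hb hδ
  exact ⟨_, fun α z hz => norm_integral_le_of_norm_le h1 (ae_of_all _ (h2 α z hz))⟩

theorem lift_GG_per (τ : ℍ) (β : ℝ) (n : ℤ) (s : ℂ) : GG τ 0 (β + n) s = GG τ 0 β s := by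
  unfold GG
  congr 2
  funext m
  rw [Complex.exp_eq_exp_iff_exists_int]
  exact ⟨n * m, by push_cast; ring⟩

theorem lift_per_P (α : UnitAddCircle) (z : ℍ) :
    liftP g j a b D N α (aff 1 1 z) = liftP g j a b D N α z := by
  unfold liftP liftF liftT
  simp only [lift_term_zero, aff_im one_pos, aff_re one_pos, one_mul, add_mul, lift_GG_per]

end

end Pool.Agent.Lib.MP_e6abdd_an
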