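import Pool.Agent.Lib.MP_e6abdd_an.LiftB

/-!
The family of theta lifts: unfolding and covariance.
-/

namespace Pool.Agent.Lib.MP_e6abdd_an

open Complex hiding Gamma
open UpperHalfPlane hiding I
open MeasureTheory Filter Topology CongruenceSubgroup AddCircle
open scoped Real MatrixGroups ComplexConjugate

noncomputable section

variable {g : ℍ → ℂ} {j : ℤ} {a b : ℂ} {D N : ℕ}

theorem lift_det (γ : SL(2, ℤ)) : γ 0 0 * γ 1 1 - γ 0 1 * γ 1 0 = 1 := by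
  have := γ.det_coe
  rwa [Matrix.det_fin_two] at this

theorem lift_coprime (γ : SL(2, ℤ)) : IsCoprime (γ 1 0) (γ 1 1) :=
  ⟨-γ 0 1, γ 0 0, by linear_combination lift_det γ⟩

theorem lift_WW_mul (hN : 2 ≤ N) {d : ℤ} (hd : IsCoprime d N) (k : ℤ) :
    WW D N (k * d) = WW D N k * jacobiSym D d.natAbs := by
  have h0 : ∀ {e : ℤ}, IsCoprime e N → e.natAbs ≠ 0 := fun {e} he h => by
    rw [Int.natAbs_eq_zero.1 h, isCoprime_zero_left, Int.isUnit_iff] at he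
    omega
  unfold WW
  by_cases h : IsCoprime k N
  · rw [if_pos (Int.isCoprime_iff_gcd_eq_one.1 h),
      if_pos (Int.isCoprime_iff_gcd_eq_one.1 (h.mul_left hd)), Int.natAbs_mul,
      jacobiSym.mul_right' _ (h0 h) (h0 hd)]
  · rw [if_neg (fun h' => h (Int.isCoprime_iff_gcd_eq_one.2 h')),
      if_neg (fun h' => h (Int.isCoprime_iff_gcd_eq_one.2 h').of_mul_left_left), zero_mul]

theorem lift_f1_rot (x φ : ℝ) (s₁ s₃ : ℂ) :
    f1 (x * cexp (I * φ)) (s₁ * cexp (I * φ)) (s₃ / cexp (I * φ)) = f1 x s₁ s₃ := by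
  have h1 : conj (cexp (I * φ)) = (cexp (I * φ))⁻¹ := by
    rw [← exp_conj, ← exp_neg]; simp
  have h2 : normSq (cexp (I * φ)) = 1 := by
    rw [normSq_eq_norm_sq, norm_exp]; simp
  have h3 := exp_ne_zero (I * φ)
  unfold f1
  rw [map_mul, h2, mul_one, map_mul, h1, conj_ofReal]
  congr 1
  field_simp

theorem lift_term_smul (hD : 0 < D) (hN : 2 ≤ N) {γ : SL(2, ℤ)} (hγ : γ ∈ Gamma 2)
    (hc : (2 * D * N : ℤ) ∣ γ 1 0) (τ z : ℍ) (sp sm s₃ : ℂ) (k : ℤ) :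
    term D N (γ • τ) z sp sm s₃ 0 k = JJ 0 (γ 1 0) (γ 1 1) τ *
      term D N τ z (sp * cexp (I * arg (γ 1 0 * (τ : ℂ) + γ 1 1)))
        (sm * cexp (I * arg (γ 1 0 * (τ : ℂ) + γ 1 1)))
        (s₃ / cexp (I * arg (γ 1 0 * (τ : ℂ) + γ 1 1))) (k * γ 1 0) (k * γ 1 1) := by
  have hD' : (0 : ℝ) < D := by exact_mod_cast hD
  have hDc : (D : ℂ) ≠ 0 := by exact_mod_cast hD.ne'
  have hdet := lift_det γ
  have hcop := lift_coprime γ
  have hc2 : (2 * D : ℤ) ∣ γ 1 0 := (dvd_mul_right _ _).trans hc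
  obtain ⟨c', hc'⟩ : (D : ℤ) ∣ γ 1 0 := (dvd_mul_left _ _).trans hc2
  have hdiv : γ 1 0 / D = c' := by
    rw [hc', Int.mul_ediv_cancel_left _ (by exact_mod_cast hD.ne')]
  have hodd : Odd (γ 1 1) := by
    rw [← Int.not_even_iff_odd]
    intro h
    have := hcop.isUnit_of_dvd' (mem_gamma2.1 hγ).2.two_dvd h.two_dvd
    rw [Int.isUnit_iff] at this
    omega
  let γ' : SL(2, ℤ) := ⟨!![γ 0 0, γ 0 1 * D; c', γ 1 1], by
    rw [Matrix.det_fin_two_of]; rw [hc'] at hdet; linear_combination hdet⟩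
  have e00 : γ' 0 0 = γ 0 0 := rfl
  have e01 : γ' 0 1 = γ 0 1 * D := rfl
  have e10 : γ' 1 0 = c' := rfl
  have e11 : γ' 1 1 = γ 1 1 := rfl
  have hγ' : γ' ∈ Gamma 2 := by
    refine mem_gamma2.2 ⟨(mem_gamma2.1 hγ).1.mul_right _, ?_⟩
    rw [e10, even_iff_two_dvd]
    rw [hc', mul_comm (D : ℤ)] at hc2
    exact Int.dvd_of_mul_dvd_mul_right (by exact_mod_cast hD.ne') hc2
  have hden : (c' * (aff D 0 τ : ℂ) + γ 1 1) = γ 1 0 * (τ : ℂ) + γ 1 1 := by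
    rw [coe_aff hD', hc']; push_cast; ring
  have hne := denom_ne hcop τ
  have hact : aff D 0 (γ • τ) = γ' • aff D 0 τ := UpperHalfPlane.ext (by
    rw [coe_SL_smul γ', e00, e01, e10, e11, hden, coe_aff hD', coe_aff hD', coe_SL_smul]
    push_cast
    field_simp
    ring)
  set w : ℂ := γ 1 0 * (τ : ℂ) + γ 1 1 with hw
  have hw0 : 0 < ‖w‖ := norm_pos_iff.2 hne
  have hv := τ.im_pos
  have hs : √(2 * D * (γ • τ).im) = √(2 * D * τ.im) / ‖w‖ := by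
    rw [im_SL_smul, hgt, ← hw, normSq_eq_norm_sq, ← mul_div_assoc, Real.sqrt_div (by positivity),
      Real.sqrt_sq hw0.le]
  have hs0 : 0 < √(2 * D * τ.im) := by positivity
  have hζ : (z.im * ((k * γ 1 0 : ℤ) * (τ : ℂ) + (k * γ 1 1 : ℤ)) / (√(2 * D * τ.im) : ℝ) : ℂ) =
      ((z.im * k / √(2 * D * (γ • τ).im) : ℝ) : ℂ) * cexp (I * arg w) := by
    have h1 : ((k * γ 1 0 : ℤ) * (τ : ℂ) + (k * γ 1 1 : ℤ)) = k * (‖w‖ * cexp (arg w * I)) := by
      rw [norm_mul_exp_arg_mul_I, hw]; push_cast; ring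
    have h2 : ((‖w‖ : ℝ) : ℂ) ≠ 0 := ofReal_ne_zero.2 hw0.ne'
    have h3 : ((√(2 * D * τ.im) : ℝ) : ℂ) ≠ 0 := ofReal_ne_zero.2 hs0.ne'
    rw [h1, hs, mul_comm I]
    push_cast
    field_simp
  rw [lift_term_zero, hact, GG_law hγ', e00, e01, e10, e11, hden, ← hdiv,
    JJ_twist hD hodd hc2 hcop, hdiv, term, hζ,
    lift_WW_mul hN (hcop.symm.of_isCoprime_of_dvd_right ((dvd_mul_left _ _).trans hc)),
    ← add_mul, mul_div_right_comm _ (cexp _), lift_f1_rot, ← sub_mul, mul_div_right_comm _ (cexp _)]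
  have f1' : (0 : ℝ) * (γ 0 0 : ℤ) + z.re * k * c' = z.re * (k * γ 1 0 : ℤ) / D := by
    rw [hc']; push_cast; field_simp; ring
  have f2' : (0 : ℝ) * (γ 0 1 * D : ℤ) + z.re * k * (γ 1 1 : ℤ) = z.re * (k * γ 1 1 : ℤ) := by
    push_cast; ring
  rw [f1', f2']
  push_cast
  ring

theorem lift_T_smul (hD : 0 < D) (hN : 2 ≤ N) {γ : SL(2, ℤ)} (hγ : γ ∈ Gamma 2)
    (hc : (2 * D * N : ℤ) ∣ γ 1 0) (α θ : UnitAddCircle) (τ z : ℍ) (k : ℤ) :
    liftT j a b D N α θ (γ • τ) z 0 k = JJ j (γ 1 0) (γ 1 1) τ *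
      liftT j a b D N α (θ + liftAng (arg (γ 1 0 * (τ : ℂ) + γ 1 1))) τ z
        (k * γ 1 0) (k * γ 1 1) := by
  unfold liftT
  rw [lift_term_smul hD hN hγ hc, JJ_eq' j hγ]
  simp only [lift_fourier_add, lift_fourier_ang]
  generalize arg (γ 1 0 * (τ : ℂ) + γ 1 1) = φ
  have h1 : cexp (I * (2 * j * φ)) * cexp (I * ((-(2 * j) : ℤ) * φ)) = 1 := by
    rw [← exp_add]; push_cast; ring_nf; simp
  have h2 : ∀ x : ℂ, x / cexp (I * φ) = x * cexp (I * ((-1 : ℤ) * φ)) := fun x => by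
    rw [div_eq_mul_inv, ← exp_neg]; push_cast; ring_nf
  have h3 : ∀ x y : ℂ, a * (x * y) * cexp (I * φ) = a * (x * cexp (I * ((1 : ℤ) * φ)) * y) :=
    fun x y => by push_cast; ring_nf
  rw [h2, h3, h3, mul_assoc b]
  linear_combination (-(JJ 0 (γ 1 0) (γ 1 1) τ * term D N τ z _ _ _ _ _ *
    fourier (-(2 * j)) θ)) * h1

/-- The group used for unfolding. -/
def liftG (M : ℕ) : Subgroup SL(2, ℤ) := Gamma 2 ⊓ Gamma0 M

theorem lift_mem_G {M : ℕ} {γ : SL(2, ℤ)} : γ ∈ liftG M ↔ γ ∈ Gamma 2 ∧ (M : ℤ) ∣ γ 1 0 := by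
  rw [liftG, Subgroup.mem_inf, Gamma0_mem, ZMod.intCast_zmod_eq_zero_iff_dvd]

def liftE (M : ℕ) (p : rows (liftG M) × ℕ) : ℤ × ℤ := ((p.2 + 1) * p.1.1.1, (p.2 + 1) * p.1.1.2)

theorem lift_E_inj (M : ℕ) : Function.Injective (liftE M) := by
  have h : ∀ p, Int.gcd (liftE M p).1 (liftE M p).2 = p.2 + 1 := by
    rintro ⟨⟨_, γ, hγ, rfl⟩, k⟩
    simp only [liftE]
    rw [Int.gcd_mul_left, Int.isCoprime_iff_gcd_eq_one.1 (lift_coprime γ), mul_one]
    rfl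
  rintro ⟨⟨⟨c, d⟩, hv⟩, k⟩ ⟨⟨⟨c', d'⟩, hv'⟩, k'⟩ e
  have h1 := h (⟨_, hv⟩, k)
  rw [e, h] at h1
  obtain rfl : k' = k := by simpa using h1
  simp only [liftE, Prod.mk.injEq] at e
  have h0 : ((k' : ℤ) + 1) ≠ 0 := by positivity
  obtain rfl := mul_left_cancel₀ h0 e.1
  obtain rfl := mul_left_cancel₀ h0 e.2
  rfl

theorem lift_reindex (hD : 0 < D) (hN : 4 * D ∣ N) (hN0 : 0 < N) {t : ℤ × ℤ → ℂ}
    (ht : ∀ u, t u ≠ 0 → IsCoprime u.2 N) :
    ∑' p, t (liftE (2 * D * N) p) = ∑' u : ℤ × ℤ, t (2 * D * N * u.1, u.2) := by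
  classical
  let t' : ℤ × ℤ → ℂ := fun u => if (2 * D * N : ℤ) ∣ u.1 then t u else 0
  have hs : ∀ u, t' u ≠ 0 → (2 * D * N : ℤ) ∣ u.1 ∧ IsCoprime u.2 N := fun u hu => by
    by_cases h : (2 * D * N : ℤ) ∣ u.1
    · exact ⟨h, ht u (by simpa [t', h] using hu)⟩
    · simp [t', h] at hu
  have hN2 : 4 ≤ N := (by omega : 4 ≤ 4 * D).trans (Nat.le_of_dvd hN0 hN)
  have h1 := (lift_E_inj (2 * D * N)).tsum_eq (f := t') (by
    rintro ⟨c, d⟩ hu
    obtain ⟨h1, h2⟩ := hs _ hu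
    have hd : d ≠ 0 := by
      rintro rfl
      rw [isCoprime_zero_left, Int.isUnit_iff] at h2
      omega
    obtain ⟨k, c', d', hk, hg, rfl, rfl⟩ := Int.exists_gcd_one' (m := c) (n := d)
      (Int.gcd_pos_of_ne_zero_right _ hd)
    have h3 : IsCoprime (k : ℤ) N := h2.of_mul_left_right
    have h4 : IsCoprime (k : ℤ) (2 * D) := h3.of_isCoprime_of_dvd_right
      (Dvd.dvd.trans ⟨2, by push_cast; ring⟩ (Int.natCast_dvd_natCast.2 hN))
    have h5 : (2 * D * N : ℤ) ∣ c' := (h4.mul_right h3).symm.dvd_of_dvd_mul_right h1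
    obtain ⟨γ, hγ, e1, e2⟩ := exists_gamma2_row (Int.isCoprime_iff_gcd_eq_one.2 hg)
      (even_iff_two_dvd.2 (Dvd.dvd.trans ⟨D * N, by ring⟩ h5))
    refine ⟨(⟨(c', d'), γ, lift_mem_G.2 ⟨hγ, by rw [e1]; exact_mod_cast h5⟩, by rw [e1, e2]⟩,
      k - 1), ?_⟩
    simp only [liftE, Nat.cast_pred hk, sub_add_cancel, mul_comm])
  have h2 := Function.Injective.tsum_eq (g := fun u : ℤ × ℤ => ((2 * D * N * u.1, u.2) : ℤ × ℤ))
    (fun u v e => by
      simp only [Prod.mk.injEq] at e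
      exact Prod.ext (mul_left_cancel₀ (by positivity) e.1) e.2) (f := t') (by
    rintro ⟨c, d⟩ hu
    obtain ⟨c', rfl⟩ := (hs _ hu).1
    exact ⟨(c', d), rfl⟩)
  rw [← h2] at h1
  refine (tsum_congr fun p => ?_).trans (h1.trans (tsum_congr fun u => ?_))
  · obtain ⟨⟨_, γ, hγ, rfl⟩, k⟩ := p
    refine (if_pos (Dvd.dvd.mul_left ?_ _)).symm
    exact_mod_cast (lift_mem_G.1 hγ).2
  · exact if_pos (dvd_mul_right _ _)

theorem lift_hasSum_circle {ι : Type} [Countable ι] {f : ι → UnitAddCircle → ℂ}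
    (hf : ∀ i, Continuous (f i)) {β : ι → ℝ} (hβ : Summable β) (h : ∀ i θ, ‖f i θ‖ ≤ β i) :
    HasSum (fun i => ∫ θ, f i θ ∂haarAddCircle) (∫ θ, ∑' i, f i θ ∂haarAddCircle) := by
  refine hasSum_integral_of_summable_integral_norm (fun i =>
    (hf i).integrable_of_hasCompactSupport (HasCompactSupport.of_compactSpace _))
    (hβ.of_nonneg_of_le (fun i => integral_nonneg fun _ => norm_nonneg _) fun i => ?_)
  refine (le_abs_self _).trans ?_
  simpa only [probReal_univ, mul_one, Real.norm_eq_abs] using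
    norm_integral_le_of_norm_le_const (μ := haarAddCircle) (C := β i) (f := fun θ => ‖f i θ‖)
      (ae_of_all _ fun θ => by rw [norm_norm]; exact h i θ)

theorem lift_sum_rows (hD : 0 < D) (hN : 4 * D ∣ N) (hN0 : 0 < N) (ha : ‖a‖ ≤ 1) (hb : ‖b‖ ≤ 1)
    (c : ℂ) (α : UnitAddCircle) (τ z : ℍ) :
    ∑' v : rows (liftG (2 * D * N)), ∫ θ, ∫ k : ℕ, c * conj (liftT j a b D N α θ τ z
      ((k + 1) * v.1.1) ((k + 1) * v.1.2)) ∂Measure.count ∂haarAddCircle =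
    ∫ θ : UnitAddCircle, c * conj (TH D N τ z (a * (fourier 1 θ * fourier 1 α))
      (a * (fourier 1 θ * fourier (-1) α)) (b * fourier (-1) θ) * fourier (-(2 * j)) θ)
      ∂haarAddCircle := by
  obtain ⟨β, hβ, hb'⟩ := term_majorant (N := N) hD τ z 1
  let f : rows (liftG (2 * D * N)) × ℕ → UnitAddCircle → ℂ := fun p θ =>
    c * conj (liftT j a b D N α θ τ z (liftE _ p).1 (liftE _ p).2)
  have fc : ∀ p, Continuous (f p) := fun p => continuous_const.mul (continuous_conj.comp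
    (lift_continuous_T hD continuous_const continuous_id continuous_const continuous_const _ _))
  have fb : ∀ p θ, ‖f p θ‖ ≤ ‖c‖ * β (liftE _ p) := fun p θ => by
    rw [norm_mul, norm_conj, lift_norm_T]
    refine mul_le_mul_of_nonneg_left (hb' _ _ _ ?_ ?_ ?_ _) (norm_nonneg _) <;>
      simpa only [norm_mul, lift_norm_fourier, mul_one]
  have hs : Summable fun p => ‖c‖ * β (liftE (2 * D * N) p) :=
    (hβ.comp_injective (lift_E_inj _)).mul_left _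
  have H := (lift_hasSum_circle fc hs fb).prod_fiberwise fun v =>
    lift_hasSum_circle (fun k => fc (v, k)) (hs.prod_factor v) fun k θ => fb (v, k) θ
  have e1 : ∀ v θ, ∫ k : ℕ, f (v, k) θ ∂Measure.count = ∑' k, f (v, k) θ := fun v θ => by
    rw [integral_countable (integrable_count_iff.2 ((hs.prod_factor v).of_nonneg_of_le
      (fun _ => norm_nonneg _) fun k => fb (v, k) θ))]
    simp
  simp only [← e1] at H
  refine H.tsum_eq.trans (integral_congr_ae (ae_of_all _ fun θ => ?_))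
  simp only [f, liftT, tsum_mul_left]
  rw [← conj_tsum, tsum_mul_right, lift_reindex hD hN hN0 (t := fun u => term D N τ z _ _ _ u.1 u.2)]
  · rfl
  · intro u hu
    by_contra h
    simp [term, WW, ← Int.isCoprime_iff_gcd_eq_one, h] at hu

theorem lift_unfold (hg : BC g) (hA : Aut j 1 g) (hD : 0 < D) (hN : 4 * D ∣ N) (hN0 : 0 < N)
    (ha : ‖a‖ ≤ 1) (hb : ‖b‖ ≤ 1) : ∃ κ : ℝ, ∀ α z, liftP g j a b D N α z =
      κ * fint (2 * D * N) fun τ => ∫ θ : UnitAddCircle, g τ *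
        conj (TH D N τ z (a * (fourier 1 θ * fourier 1 α))
        (a * (fourier 1 θ * fourier (-1) α)) (b * fourier (-1) θ) * fourier (-(2 * j)) θ)
        ∂haarAddCircle := by
  have hN2 : 2 ≤ N := (by omega : 2 ≤ 4 * D).trans (Nat.le_of_dvd hN0 hN)
  obtain ⟨κ, -, hκ⟩ := unfold (liftG (2 * D * N)) (M := 2 * D * N) (by positivity)
    (fun γ hγ => by
      obtain ⟨-, h1, h2, -⟩ := Gamma_mem.1 hγ
      rw [ZMod.intCast_zmod_eq_zero_iff_dvd] at h1 h2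
      have h3 : (2 : ℤ) ∣ (2 * D * N : ℕ) := ⟨D * N, by push_cast; ring⟩
      exact lift_mem_G.2 ⟨mem_gamma2.2 ⟨even_iff_two_dvd.2 (h3.trans h1),
        even_iff_two_dvd.2 (h3.trans h2)⟩, h2⟩) inf_le_left
    (lift_mem_G.2 ⟨mem_gamma2.2 (by decide), by
      rw [show (ModularGroup.T ^ 2) 1 0 = 0 by decide]; exact dvd_zero _⟩)
  refine ⟨κ, fun α z => ?_⟩
  have hi := lift_integrable_F (j := j) (N := N) hg hD ha hb α z
  rw [liftP, liftM, integral_prod_symm _ hi, integral_prod _ hi.integral_prod_right,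
    hκ _ (fun v τ => ∫ θ, ∫ k : ℕ, g τ * conj (liftT j a b D N α θ τ z
      ((k + 1) * v.1) ((k + 1) * v.2)) ∂Measure.count ∂haarAddCircle)
      hi.integral_prod_right.integral_prod_left]
  · simp only [lift_sum_rows hD hN hN0 ha hb]
  · intro γ hγ τ
    obtain ⟨h1, h2⟩ := lift_mem_G.1 hγ
    rw [← integral_add_right_eq_self (μ := haarAddCircle) _
      (liftAng (arg (γ 1 0 * (τ : ℂ) + γ 1 1)))]
    congr 1
    funext θ
    congr 1
    funext k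
    have h3 : JJ j (γ 1 0) (γ 1 1) τ * conj (JJ j (γ 1 0) (γ 1 1) τ) = 1 := by
      rw [mul_conj, normSq_eq_norm_sq, norm_JJ' j h1]; simp
    simp only [liftF]
    rw [lift_T_smul hD hN2 h1 (by exact_mod_cast h2), hA γ h1, map_mul]
    linear_combination (-(g τ * conj (liftT j a b D N α _ τ z _ _))) * h3

theorem lift_cov_P (hg : BC g) (hA : Aut j 1 g) (hD : 0 < D) (hN : 4 * D ∣ N) (hN0 : 0 < N)
    (ha : ‖a‖ ≤ 1) (hb : ‖b‖ ≤ 1) {γ : SL(2, ℤ)} (hγ : γ ∈ Gamma (N ^ 2)) (α : UnitAddCircle)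
    (z : ℍ) : liftP g j a b D N α (γ • z) =
      liftP g j a b D N (α + liftAng (2 * arg (γ 1 0 * (z : ℂ) + γ 1 1))) z := by
  obtain ⟨κ, hκ⟩ := lift_unfold hg hA hD hN hN0 ha hb
  rw [hκ, hκ]
  simp only [TH_cov hD hN hN0 hγ, lift_fourier_add, lift_fourier_ang]
  generalize arg (γ 1 0 * (z : ℂ) + γ 1 1) = φ
  have h1 : ∀ x y : ℂ, a * (x * y) * cexp (I * φ) ^ 2 =
      a * (x * (y * cexp (I * ((1 : ℤ) * (2 * φ : ℝ))))) := fun x y => by
    rw [← exp_nat_mul]; push_cast; ring_nf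
  have h2 : ∀ x y : ℂ, a * (x * y) / cexp (I * φ) ^ 2 =
      a * (x * (y * cexp (I * ((-1 : ℤ) * (2 * φ : ℝ))))) := fun x y => by
    rw [← exp_nat_mul, div_eq_mul_inv, ← exp_neg]; push_cast; ring_nf
  simp only [h1, h2]

end

end Pool.Agent.Lib.MP_e6abdd_an
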