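import Pool.Agent.Lib.MP_e6abdd_an.LiftC

/-!
The family of theta lifts: Fourier coefficients.
-/

namespace Pool.Agent.Lib.MP_e6abdd_an

open Complex hiding Gamma
open UpperHalfPlane hiding I
open MeasureTheory Filter Topology CongruenceSubgroup AddCircle
open scoped Real MatrixGroups ComplexConjugate

noncomputable section

variable {g : ℍ → ℂ} {j : ℤ} {a b : ℂ} {D N : ℕ}

theorem lift_integral_e (m : ℤ) :
    ∫ x in (0 : ℝ)..1, cexp (2 * π * I * m * x) = if m = 0 then 1 else 0 := by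
  split_ifs with h
  · simp [h]
  · have h0 : (2 * π * I * m : ℂ) ≠ 0 := by
      simp [Real.pi_ne_zero, h]
    rw [integral_exp_mul_complex h0, ofReal_one, mul_one, mul_comm _ (m : ℂ),
      exp_int_mul_two_pi_mul_I]
    simp

theorem lift_fc_GG (τ : ℍ) {k : ℤ} (hk : k ≠ 0) (s : ℂ) (n : ℤ) :
    ∫ x in (0 : ℝ)..1, conj (GG τ 0 (x * k) s) * cexp (-(2 * π * I * n * x / (1 : ℝ))) =
      if k ∣ n then conj ((τ.im ^ (1 / 4 : ℝ) : ℝ) * (cexp (π * I * τ * (-(n / k) : ℤ) ^ 2) *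
        cexp (2 * π * ((√τ.im * (-(n / k) : ℤ) : ℝ) : ℂ) * s - π * s ^ 2 / 2))) else 0 := by
  let c : ℤ → ℂ := fun m => (τ.im ^ (1 / 4 : ℝ) : ℝ) * (cexp (π * I * τ * m ^ 2) *
    cexp (2 * π * ((√τ.im * m : ℝ) : ℂ) * s - π * s ^ 2 / 2))
  have hc : Summable fun m => ‖c m‖ := by
    have := (((summable_jacobiTheta₂_term_iff (-I * (√τ.im : ℝ) * s) τ).2 τ.im_pos).mul_left
      ((τ.im ^ (1 / 4 : ℝ) : ℝ) * cexp (-(π * s ^ 2 / 2)))).norm
    refine this.congr fun m => ?_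
    congr 1
    simp only [c, jacobiTheta₂_term, mul_assoc _ (cexp _), ← exp_add]
    congr 2
    push_cast
    linear_combination (-2 * π * m * √τ.im * s) * I_mul_I
  have h1 : ∀ x : ℝ, conj (GG τ 0 (x * k) s) * cexp (-(2 * π * I * n * x / (1 : ℝ))) =
      ∑' m : ℤ, conj (c m) * cexp (2 * π * I * (-(k * m + n) : ℤ) * x) := fun x => by
    rw [GG, ← tsum_mul_left, conj_tsum, ← tsum_mul_right]
    refine tsum_congr fun m => ?_
    simp only [c, map_mul, ← exp_conj, mul_assoc _ (cexp _), ← exp_add]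
    congr 2
    simp only [map_add, map_sub, map_mul, map_div₀, map_pow, conj_ofReal, conj_I, map_intCast,
      map_ofNat]
    push_cast
    ring
  have h2 := hasSum_integral_of_summable_integral_norm (μ := volume.restrict (Set.Ioc (0 : ℝ) 1))
    (F := fun (m : ℤ) (x : ℝ) => conj (c m) * cexp (2 * π * I * (-(k * m + n) : ℤ) * x))
    (fun m => (Continuous.integrableOn_Icc (by fun_prop)).mono_set Set.Ioc_subset_Icc_self)
    (by simpa [norm_exp] using hc)
  simp only [← intervalIntegral.integral_of_le zero_le_one, intervalIntegral.integral_const_mul,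
    lift_integral_e, ← h1] at h2
  refine h2.unique ?_
  split_ifs with h
  · obtain ⟨n', rfl⟩ := h
    rw [Int.mul_ediv_cancel_left _ hk]
    refine (hasSum_ite_eq (-n') _).congr_fun fun m => ?_
    by_cases hm : m = -n'
    · simp [hm, c]
    · rw [if_neg hm, if_neg, mul_zero]
      rw [← mul_add, neg_eq_zero]
      exact mul_ne_zero hk fun h => hm (by omega)
  · refine hasSum_zero.congr_fun fun m => ?_
    rw [if_neg, mul_zero]
    exact fun h' => h ⟨-m, by linear_combination -h'⟩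

/-- The archimedean kernel. -/
def liftL (j : ℤ) (a b : ℂ) (α : UnitAddCircle) (ζ ρ : ℝ) : ℂ :=
  ∫ θ : UnitAddCircle,
    f1 ζ ((a * (fourier 1 θ * fourier 1 α) + a * (fourier 1 θ * fourier (-1) α)) / 2)
      (b * fourier (-1) θ) *
    cexp (2 * π * ρ * ((a * (fourier 1 θ * fourier 1 α) - a * (fourier 1 θ * fourier (-1) α)) /
      (2 * I)) - π * ((a * (fourier 1 θ * fourier 1 α) - a * (fourier 1 θ * fourier (-1) α)) /
      (2 * I)) ^ 2 / 2) * fourier (-(2 * j)) θ ∂haarAddCircle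

def liftI (g : ℍ → ℂ) (j : ℤ) (a b : ℂ) (D N : ℕ) (α : UnitAddCircle) (k β : ℤ) (r : ℝ) : ℂ :=
  ∫ v in Set.Ioi (0 : ℝ), 2 * fc 2 g (D * β ^ 2) v * Real.exp (-π * D * β ^ 2 * v) *
    conj (WW D N k * r * ((D * v) ^ (1 / 4 : ℝ) : ℝ) *
      liftL j a b α (r * k / √(2 * D * v)) (√(D * v) * β)) / v ^ 2

theorem lift_fc_F (hD : 0 < D) (α : UnitAddCircle) (n : ℤ) {r : ℝ} (hr : 0 < r) (k : ℕ) (τ : ℍ) :
    ∫ θ, fc 1 (fun z => liftF g j a b D N α z (k, τ, θ)) n r ∂haarAddCircle =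
      if (k + 1 : ℤ) ∣ n then g τ * conj (cexp (π * I * (D * τ) * (-(n / (k + 1)) : ℤ) ^ 2)) *
        conj (WW D N (k + 1) * r * ((D * τ.im) ^ (1 / 4 : ℝ) : ℝ) *
          liftL j a b α (r * (k + 1 : ℤ) / √(2 * D * τ.im)) (√(D * τ.im) * (-(n / (k + 1)) : ℤ)))
      else 0 := by
  have hD' : (0 : ℝ) < D := by exact_mod_cast hD
  have h : ∀ (A B G E H : ℂ), H * (conj A * conj G * conj B) * E =
      H * conj A * conj B * (conj G * E) := fun A B G E H => by ring
  simp only [fc, liftF, liftT, lift_term_zero, pt_im _ hr, pt_re _ hr, map_mul _ _ (GG _ _ _ _),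
    map_mul _ _ (fourier (-(2 * j)) _), h, intervalIntegral.integral_const_mul,
    lift_fc_GG _ (show (k + 1 : ℤ) ≠ 0 by positivity), aff_im hD', coe_aff hD']
  split_ifs with hk
  · rw [liftL, ← integral_const_mul, ← integral_conj, ← integral_const_mul]
    congr 1
    funext θ
    simp only [map_mul, ofReal_natCast, ofReal_zero, add_zero, ofReal_one, inv_one, one_mul]
    ring
  · simp

theorem lift_fc_P (hg : BC g) (hD : 0 < D) (ha : ‖a‖ ≤ 1) (hb : ‖b‖ ≤ 1) (α : UnitAddCircle)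
    (n : ℤ) {r : ℝ} (hr : 0 < r) : fc 1 (liftP g j a b D N α) n r =
      ∑' k : ℕ, if (k + 1 : ℤ) ∣ n then liftI g j a b D N α (k + 1) (-(n / (k + 1))) r else 0 := by
  obtain ⟨B, h1, h2⟩ := lift_bound_F (j := j) (N := N) hg hD ha hb hr
  obtain ⟨hi, e⟩ := lift_fc_integral (lift_measurable_F (j := j) (a := a) (b := b) (N := N) hg hD α)
    hr h1 (fun z ω hz => h2 α z hz.ge ω) n
  refine e.trans ?_
  rw [liftM, integral_prod _ hi, integral_countable hi.integral_prod_left]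
  refine tsum_congr fun k => ?_
  have hk := Measure.ae_count_iff.1 hi.prod_right_ae k
  have hk' := hk.integral_prod_left
  rw [integral_prod _ hk]
  simp only [lift_fc_F hD α n hr] at hk' ⊢
  split_ifs at hk' ⊢ with h
  · rw [integral_strip hk', liftI]
    simp only [measureReal_def, Measure.count_singleton, ENNReal.toReal_one, one_smul]
    refine setIntegral_congr_fun measurableSet_Ioi fun v hv => ?_
    simp only [pt_im _ hv, coe_pt _ hv, intervalIntegral.integral_mul_const]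
    congr 2
    rw [fc, ← mul_assoc, ← intervalIntegral.integral_const_mul,
      ← intervalIntegral.integral_mul_const]
    congr 1
    funext x
    have : conj (cexp (π * I * (D * (x + v * I)) * (-(n / (k + 1)) : ℤ) ^ 2)) =
        cexp (-(2 * π * I * (D * (-(n / (k + 1))) ^ 2 : ℤ) * x / (2 : ℝ))) *
          Real.exp (-π * D * (-(n / (k + 1)) : ℤ) ^ 2 * v) := by
      rw [← exp_conj, ofReal_exp, ← exp_add]
      congr 1
      simp only [map_add, map_mul, map_pow, conj_ofReal, conj_I, map_intCast, map_natCast]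
      push_cast
      linear_combination (π * D * (n / (k + 1) : ℤ) ^ 2 * v) * I_mul_I
    rw [this]
    push_cast
    ring
  · simp

theorem lift_I_scale (hD : 0 < D) (α : UnitAddCircle) {s : ℤ} (hs : s = 1 ∨ s = -1) {p q : ℕ}
    (hp : 0 < p) (hq : 0 < q) (hpN : Nat.Coprime p N) {c : ℂ}
    (hc : ∀ y, 0 < y → fc 2 g (D * q ^ 2) (y / q ^ 2) = c * fc 2 g D y) (r : ℝ) :
    liftI g j a b D N α p (-(s * q)) r =
      (jacobiSym D p : ℤ) / (p : ℂ) * (c * (√q : ℝ)) * liftI g j a b D N α 1 (-s) ((p * q : ℕ) * r) := by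
  have hD' : (0 : ℝ) < D := by exact_mod_cast hD
  have hq' : (0 : ℝ) < q := by exact_mod_cast hq
  have hs2 : s ^ 2 = 1 := by rcases hs with rfl | rfl <;> simp
  have e1 : (-(s * q)) ^ 2 = (q : ℤ) ^ 2 := by linear_combination (q : ℤ) ^ 2 * hs2
  have e2 : (-s) ^ 2 = 1 := by linear_combination hs2
  have e3 : ((-(s * q) : ℤ) : ℝ) ^ 2 = (q : ℝ) ^ 2 := by exact_mod_cast e1
  have e4 : ((-s : ℤ) : ℝ) ^ 2 = 1 := by exact_mod_cast e2
  have w1 : WW D N p = jacobiSym D p := by simp [WW, Int.gcd_natCast_natCast, hpN.gcd_eq_one]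
  have w2 : WW D N 1 = 1 := by simp [WW]
  have key := integral_comp_mul_left_Ioi' (fun v : ℝ => 2 * fc 2 g (D * q ^ 2) v *
    Real.exp (-π * D * q ^ 2 * v) * conj ((jacobiSym D p : ℤ) * r * ((D * v) ^ (1 / 4 : ℝ) : ℝ) *
      liftL j a b α (r * (p : ℤ) / √(2 * D * v)) (√(D * v) * (-(s * q) : ℤ))) / v ^ 2) 0
    (b := ((q : ℝ) ^ 2)⁻¹) (by positivity)
  rw [mul_zero] at key
  rw [liftI, liftI, e1, e2, e3, e4, w1, w2, ← key, ← integral_smul, ← integral_const_mul]
  refine setIntegral_congr_fun measurableSet_Ioi fun v hv => ?_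
  have hv' : (0 : ℝ) < v := hv
  have a1 : √(2 * D * (((q : ℝ) ^ 2)⁻¹ * v)) = √(2 * D * v) / q := by
    rw [← div_eq_inv_mul, ← mul_div_assoc, Real.sqrt_div (by positivity), Real.sqrt_sq hq'.le]
  have a2 : √(D * (((q : ℝ) ^ 2)⁻¹ * v)) = √(D * v) / q := by
    rw [← div_eq_inv_mul, ← mul_div_assoc, Real.sqrt_div (by positivity), Real.sqrt_sq hq'.le]
  have a3 : (D * (((q : ℝ) ^ 2)⁻¹ * v)) ^ (1 / 4 : ℝ) = (D * v) ^ (1 / 4 : ℝ) / √q := by
    rw [← div_eq_inv_mul, ← mul_div_assoc, Real.div_rpow (by positivity) (by positivity),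
      Real.sqrt_eq_rpow, ← Real.rpow_natCast, ← Real.rpow_mul hq'.le]
    norm_num
  have a4 : r * (p : ℤ) / (√(2 * D * v) / q) = (p * q : ℕ) * r * (1 : ℤ) / √(2 * D * v) := by
    push_cast; field_simp
  have a5 : √(D * v) / q * (-(s * q) : ℤ) = √(D * v) * (-s : ℤ) := by
    push_cast; field_simp
  have a6 : -π * D * q ^ 2 * (((q : ℝ) ^ 2)⁻¹ * v) = -π * D * 1 * v := by field_simp
  have a7 : ((√q : ℝ) : ℂ) * (√q : ℝ) = q := by
    rw [← ofReal_mul, Real.mul_self_sqrt hq'.le, ofReal_natCast]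
  have a8 : ((√q : ℝ) : ℂ) ≠ 0 := ofReal_ne_zero.2 (by positivity)
  have a9 : (p : ℂ) ≠ 0 := by exact_mod_cast hp.ne'
  have a10 : (v : ℂ) ≠ 0 := ofReal_ne_zero.2 hv'.ne'
  rw [a1, a2, a3, a4, a5, a6, ← div_eq_inv_mul, hc v hv', mul_one (D : ℤ)]
  simp only [map_mul, conj_ofReal, map_intCast, real_smul]
  push_cast
  rw [← a7]
  field_simp

theorem lift_coef_P (hg : BC g) (hD : 0 < D) (ha : ‖a‖ ≤ 1) (hb : ‖b‖ ≤ 1) {c : ℕ → ℂ}
    (hc : ∀ m : ℕ, Nat.Coprime m N → 0 < m → ∀ y, 0 < y →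
      fc 2 g (D * m ^ 2) (y / m ^ 2) = c m * fc 2 g D y) (α : UnitAddCircle) :
    (∀ s : ℤ, s = 1 ∨ s = -1 → ∀ r, 0 < r →
      fc 1 (liftP g j a b D N α) s r = liftI g j a b D N α 1 (-s) r) ∧
    ∀ s : ℤ, s = 1 ∨ s = -1 → ∀ m : ℕ, Nat.Coprime m N → 0 < m → ∀ r, 0 < r →
      fc 1 (liftP g j a b D N α) (s * m) r = (∑ q ∈ m.divisorsAntidiagonal,
        (jacobiSym D q.1 : ℤ) / (q.1 : ℂ) * (c q.2 * (√q.2 : ℝ))) *
          fc 1 (liftP g j a b D N α) s (m * r) := by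
  have h1 : ∀ s : ℤ, s = 1 ∨ s = -1 → ∀ r, 0 < r →
      fc 1 (liftP g j a b D N α) s r = liftI g j a b D N α 1 (-s) r := fun s hs r hr => by
    rw [lift_fc_P hg hD ha hb α s hr, tsum_eq_single 0]
    · simp
    · intro k hk
      refine if_neg fun h => ?_
      have := Int.isUnit_iff.1 (isUnit_of_dvd_unit h (Int.isUnit_iff.2 hs))
      omega
  refine ⟨h1, fun s hs m hm hm0 r hr => ?_⟩
  have hd : ∀ k : ℕ, (k + 1 : ℤ) ∣ s * m ↔ k + 1 ∣ m := fun k => by
    rw [(Int.isUnit_iff.2 hs).dvd_mul_left, ← Int.natCast_dvd_natCast]; simp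
  rw [h1 s hs _ (by positivity), lift_fc_P hg hD ha hb α _ hr, tsum_eq_sum (s := Finset.range m),
    Finset.sum_mul, Nat.sum_divisorsAntidiagonal fun p q => (jacobiSym D p : ℤ) / (p : ℂ) *
      (c q * (√q : ℝ)) * liftI g j a b D N α 1 (-s) (m * r), Nat.divisors, Finset.sum_filter,
    Finset.sum_Ico_eq_sum_range, Nat.add_sub_cancel]
  · refine Finset.sum_congr rfl fun k _ => ?_
    rw [add_comm 1 k]
    refine if_ctx_congr (hd k) (fun h => ?_) fun _ => rfl
    obtain ⟨q, rfl⟩ := h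
    have hq : 0 < q := Nat.pos_of_mul_pos_left hm0
    rw [Nat.mul_div_cancel_left _ k.succ_pos, ← lift_I_scale hD α hs k.succ_pos hq
      (Nat.Coprime.coprime_mul_right hm) (hc q (Nat.Coprime.coprime_mul_left hm) hq)]
    congr 2
    push_cast
    rw [mul_left_comm, Int.mul_ediv_cancel_left _ (by positivity)]
  · intro k hk
    refine if_neg fun h => hk ?_
    exact Finset.mem_range.2 (Nat.le_of_dvd hm0 ((hd k).1 h))

end

end Pool.Agent.Lib.MP_e6abdd_an
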