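import Pool.Agent.Lib.MP_e6abdd_an.Cusp
import Pool.Agent.Lib.MP_e6abdd_an.Cos
import Pool.Agent.Lib.MP_e6abdd_an.Lfun
import Pool.Agent.Lib.MP_e6abdd_an.Approx

/-!
The main theorem.
-/

namespace Pool.Agent.Lib.MP_e6abdd_an

open Complex hiding Gamma
open UpperHalfPlane hiding I
open MeasureTheory Filter Topology CongruenceSubgroup
open scoped Real MatrixGroups ComplexConjugate

open scoped FourierTransform BoundedContinuousFunction InnerProductSpace

noncomputable section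

/-- The mass of the frequencies `1, ..., N`, weighted with a test. -/
def qp (G : (ℕ → ℤ) → ℝ) (f : ℍ → ℂ) (N : ℕ) (y : ℝ) : ℝ :=
  ∑ n ∈ Finset.range N, G (eps (n + 1 : ℕ)) * ‖fc 2 f (n + 1 : ℕ) y‖ ^ 2

variable {j : ℤ} {L : List ℕ} {G G₁ G₂ : (ℕ → ℤ) → ℝ} {f g : ℍ → ℂ} {ε Y : ℝ}

theorem continuousOn_qp (hf : Continuous f) (G : (ℕ → ℤ) → ℝ) (N : ℕ) :
    ContinuousOn (qp G f N) (Set.Ioi 0) :=
  continuousOn_finsetSum _ fun _ _ => continuousOn_const.mul ((continuousOn_fc hf 2 _).norm.pow 2)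

theorem qp_le {y a : ℝ} (h0 : ∀ e, 0 ≤ G e)
    (h : HasSum (fun n : ℤ => G (eps n) * ‖fc 2 f n y‖ ^ 2) a) (N : ℕ) : qp G f N y ≤ a := by
  have := sum_le_hasSum ((Finset.range N).map ⟨fun n : ℕ => ((n + 1 : ℕ) : ℤ), fun a b h => by
    simpa using h⟩) (fun n _ => mul_nonneg (h0 _) (sq_nonneg _)) h
  rwa [Finset.sum_map] at this

theorem win_qp_add (hf : Continuous f) (hg : Continuous g) (h0 : ∀ e, 0 ≤ G e)
    (h1 : ∀ e, G e ≤ G₁ e) (h2 : ∀ e, G e ≤ G₂ e) (N : ℕ) (hY : 0 < Y) :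
    win (qp G (fun τ => f τ + g τ) N) Y ≤ 2 * win (qp G₁ f N) Y + 2 * win (qp G₂ g N) Y := by
  have c1 := (continuousOn_const (c := (2 : ℝ))).fun_mul (continuousOn_qp hf G₁ N)
  have c2 := (continuousOn_const (c := (2 : ℝ))).fun_mul (continuousOn_qp hg G₂ N)
  rw [← rs_win_mul, ← rs_win_mul, ← rs_win_add c1 c2 hY]
  refine rs_win_mono (continuousOn_qp (hf.fun_add hg) G N) (c1.fun_add c2) hY fun y hy => ?_
  simp only [qp, Finset.mul_sum, ← Finset.sum_add_distrib]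
  refine Finset.sum_le_sum fun n _ => ?_
  rw [fc_add hf hg _ (hY.trans_le hy.1)]
  set a := fc 2 f (n + 1 : ℕ) y
  set b := fc 2 g (n + 1 : ℕ) y
  have h3 : ‖a + b‖ ^ 2 ≤ 2 * ‖a‖ ^ 2 + 2 * ‖b‖ ^ 2 := by
    nlinarith [norm_add_le a b, norm_nonneg (a + b), sq_nonneg (‖a‖ - ‖b‖)]
  nlinarith [mul_le_mul_of_nonneg_left h3 (h0 (eps (n + 1 : ℕ))),
    mul_le_mul_of_nonneg_right (h1 (eps (n + 1 : ℕ))) (sq_nonneg ‖a‖),
    mul_le_mul_of_nonneg_right (h2 (eps (n + 1 : ℕ))) (sq_nonneg ‖b‖)]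

theorem win_qp_smul (c : ℂ) (N : ℕ) :
    win (qp G (fun τ => c * f τ) N) Y = ‖c‖ ^ 2 * win (qp G f N) Y := by
  rw [← rs_win_mul]
  congr 1
  funext y
  simp only [qp, fc_smul, norm_mul, Finset.mul_sum]
  exact Finset.sum_congr rfl fun n _ => by ring

theorem win_qp_nonneg (h0 : ∀ e, 0 ≤ G e) (N : ℕ) (hY : 0 < Y) : 0 ≤ win (qp G f N) Y :=
  rs_win_nonneg hY fun _ _ => Finset.sum_nonneg fun _ _ => mul_nonneg (h0 _) (sq_nonneg _)

theorem op_bound (h : Test L G) (f : AH j) {a : ℝ}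
    (ha : re ⟪f, Op (cι (Module.End ℂ (AH j))) (MA j) L G f⟫_ℂ < a) :
    ∀ᶠ Y in 𝓝[>] (0 : ℝ), ∀ N, win (qp G f.fn N) Y ≤ a := by
  obtain ⟨f', h1, -, h3, -⟩ := exists_twist f h
  have hs : ∀ y, 0 < y → HasSum (fun n : ℤ => G (eps n) * ‖fc 2 f.fn n y‖ ^ 2)
      (fc 2 (fun τ => conj (f' τ) * f.fn τ) 0 y).re := fun y hy => by
    convert hasSum_re (parseval h1.bc.cont f.bc.cont two_pos hy) using 2 with n
    rw [h3 n y hy, map_mul, conj_ofReal, mul_assoc, ← normSq_eq_conj_mul_self, normSq_eq_norm_sq,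
      ← ofReal_mul, ofReal_re]
  filter_upwards [(op_tendsto h f).eventually (gt_mem_nhds ha), self_mem_nhdsWithin] with Y h4 hY N
  refine le_trans ?_ h4.le
  rw [win_congr hY fun y hy => (hs y hy).tsum_eq]
  exact rs_win_mono (continuousOn_qp f.bc.cont G N) (Complex.continuous_re.comp_continuousOn
    (continuousOn_fc ((continuous_conj.comp h1.bc.cont).mul f.bc.cont) 2 0)) hY
    fun y hy => qp_le h.nonneg (hs y (lt_of_lt_of_le hY hy.1)) N

/-- Functions whose positive frequencies concentrate on sets of small density. -/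
def Sing (f : ℍ → ℂ) : Prop :=
  ∀ ε > 0, ∃ L G, Good ε L G ∧ ∀ᶠ Y in 𝓝[>] (0 : ℝ), ∀ N, win (qp G f N) Y ≤ ε

theorem Sing.of_zero (h : ∀ (n : ℕ) (y : ℝ), 0 < y → fc 2 f (n + 1 : ℕ) y = 0) : Sing f :=
  fun ε hε => ⟨[], _, good_one.mono hε.le, by
    filter_upwards [self_mem_nhdsWithin] with Y hY N
    rw [win_congr hY (b := fun _ => (0 : ℝ)) fun y hy => by simp only [qp, h _ y hy]; simp,
      win_const]
    exact hε.le⟩

def SS (j : ℤ) : Submodule ℂ (AH j) where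
  carrier := {f | Sing f.fn}
  zero_mem' := Sing.of_zero fun n y _ => by simp [fc]
  add_mem' {f g} hf hg ε hε := by
    obtain ⟨L, G, h1, h2⟩ := hf (ε / 4) (by positivity)
    obtain ⟨L', G', h1', h2'⟩ := hg (ε / 4) (by positivity)
    obtain ⟨L'', h⟩ := h1.mul h1'
    refine ⟨L'', _, h.mono (by linarith), ?_⟩
    filter_upwards [h2, h2', self_mem_nhdsWithin] with Y a b hY N
    have := win_qp_add f.bc.cont g.bc.cont h.nonneg
      (fun e => mul_le_of_le_one_right (h1.nonneg e) (h1'.le_one e))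
      (fun e => mul_le_of_le_one_left (h1'.nonneg e) (h1.le_one e)) N hY
    exact this.trans (by linarith [a N, b N])
  smul_mem' c f hf ε hε := by
    have h0 : 0 < ‖c‖ ^ 2 + 1 := by positivity
    obtain ⟨L, G, h1, h2⟩ := hf (ε / (‖c‖ ^ 2 + 1)) (by positivity)
    refine ⟨L, G, h1.mono (div_le_self hε.le (by nlinarith [sq_nonneg ‖c‖])), ?_⟩
    filter_upwards [h2] with Y a N
    refine (win_qp_smul c N).trans_le ((mul_le_mul_of_nonneg_left (a N) (sq_nonneg _)).trans ?_)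
    rw [← mul_div_assoc, div_le_iff₀ h0]
    nlinarith

theorem sing_of_op {f : AH j} (h : ∀ ε > 0, ∃ L G, Good ε L G ∧
    re ⟪f, Op (cι (Module.End ℂ (AH j))) (MA j) L G f⟫_ℂ ≤ ε) : f ∈ SS j := fun ε hε => by
  obtain ⟨L, G, h1, h2⟩ := h (ε / 2) (by positivity)
  exact ⟨L, G, h1.mono (by linarith), op_bound h1.toTest f (by linarith)⟩

theorem sing_eig {g : AH j} (h : ∀ p, ∃ lam : ℂ, TA j p g = lam • g) : g ∈ SS j := by
  by_cases h0 : ∀ (n : ℕ) (y : ℝ), 0 < y → fc 2 g.fn (n + 1 : ℕ) y = 0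
  · exact Sing.of_zero h0
  push Not at h0
  obtain ⟨n, y, hy, hne⟩ := h0
  have hg : g ≠ 0 := by
    rintro rfl
    exact hne (by simp [fc])
  have hg' : 0 < ‖g‖ := norm_pos_iff.2 hg
  choose lam hl using h
  have hre : ∀ p, lam p = (lam p).re := fun p => by
    have := inner_TA (p := p) g g
    rw [hl, inner_smul_left, inner_smul_right] at this
    exact (conj_eq_iff_re.1 (mul_right_cancel₀ (inner_self_ne_zero.2 hg) this)).symm
  set m : ℕ → ℝ := fun p => sg p * √p / (p ^ 2 + p) * (lam p).re with hm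
  have hM : ∀ p, MA j p g = (m p : ℂ) • g := fun p => by
    rw [MA, LinearMap.smul_apply, hl, smul_smul, hm, hre p]
    simp
  have h1 : ∀ p, |m p| ≤ 1 := fun p => by
    have := norm_MA_le (p := p) g
    rw [hM, norm_smul, norm_real, Real.norm_eq_abs] at this
    exact le_of_mul_le_mul_right (by simpa using this) hg'
  have h2 : ¬ Summable fun p : Nat.Primes => m p ^ 2 := fun hs => by
    refine not_summable_eig g.bc g.aut n.succ_pos hy hne (lam := lam) (u := fun p => sg p)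
      (fun p => by rcases sg_eq p with e | e <;> simp [e]) (fun p hp h2 k y hy => ?_)
      ((hs.mul_left 4).of_nonneg_of_le (fun p => by positivity) fun p => ?_)
    · rw [← fc_TT hp h2 g.bc.cont g.aut.per k hy, ← TA_fn hp h2, hl, ← fc_smul]
      rfl
    · have hp : (1 : ℝ) ≤ (p : ℕ) := by exact_mod_cast p.2.one_le
      have e : sg p ^ 2 = 1 := by rcases sg_eq p with e | e <;> simp [e]
      rw [hre, norm_real, Real.norm_eq_abs, sq_abs, hm]
      simp only [mul_pow, div_pow, e, one_mul, Real.sq_sqrt (zero_le_one.trans hp)]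
      rw [← mul_assoc, div_eq_inv_mul, ← mul_div_assoc]
      refine mul_le_mul_of_nonneg_right ?_ (sq_nonneg _)
      rw [inv_eq_one_div, div_le_div_iff₀ (by positivity) (by positivity)]
      have h3 : ((p : ℕ) : ℝ) ^ 2 + (p : ℕ) ≤ 2 * (p : ℕ) ^ 2 := by nlinarith
      nlinarith [pow_le_pow_left₀ (by positivity) h3 2]
  refine sing_of_op fun ε hε => ?_
  have h3 : 0 < ‖g‖ ^ 2 + 1 := by positivity
  obtain ⟨L, G, h4, h5⟩ := hellinger h1 h2 (div_pos hε h3)
  refine ⟨L, G, h4.mono (div_le_self hε.le (by nlinarith [sq_nonneg ‖g‖])), ?_⟩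
  have h6 := h5 m fun p _ => ⟨h1 p, (sq _).le⟩
  rw [Op_eig (fun p _ => hM p), inner_smul_right, inner_self_eq_norm_sq_to_K]
  rw [le_div_iff₀ h3] at h6
  have h7 := (Ex_mem h4.toTest fun p _ => h1 p).1
  have : (Ex m L G : ℂ) * ((‖g‖ : ℝ) : ℂ) ^ 2 = ((Ex m L G * ‖g‖ ^ 2 : ℝ) : ℂ) := by push_cast; rfl
  refine (congrArg Complex.re this).trans_le ?_
  rw [ofReal_re]
  nlinarith

theorem op_EE (φ : VV) (hε : 0 < ε) : ∃ L G, Good ε L G ∧
    re ⟪EE j φ, Op (cι (Module.End ℂ (AH j))) (MA j) L G (EE j φ)⟫_ℂ ≤ ε := by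
  let E : VV →ₗ[ℂ] UniformSpace.Completion (AH j) :=
    (UniformSpace.Completion.toComplₗᵢ (𝕜 := ℂ)).toLinearMap.comp (EE j)
  have hE : ∀ φ ψ, ⟪E φ, E ψ⟫_ℂ = ⟪EE j φ, EE j ψ⟫_ℂ := fun φ ψ =>
    UniformSpace.Completion.inner_coe _ _
  have hN : ∀ φ, ‖E φ‖ = ‖EE j φ‖ := fun φ => UniformSpace.Completion.norm_coe _
  obtain ⟨L, G, h1, h2⟩ := cos_family E CC CC_zero CC_add
    (fun a φ ψ => by rw [hE, hE, inner_EE_CC]) (fun φ ψ => by
      simp only [hE]; exact continuous_EE_CC φ ψ) (fun φ => by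
      have := norm_MA_le (p := 3) (EE j φ)
      rw [MA_EE Nat.prime_three (by norm_num), LinearMap.smul_apply, map_smul, norm_smul, norm_real,
        Real.norm_eq_abs, abs_mul, abs_of_pos (cp_pos (by norm_num))] at this
      rw [hN, hN]
      rcases sg_eq 3 with e | e <;> simpa [e] using this) sg_eq φ hε
  refine ⟨L, G, h1, ?_⟩
  rwa [Op_intertwine (EE j) (fun p hp v => MA_EE (h1.prime p hp).1 (h1.prime p hp).2 v), ← hE]

theorem sing (f : AH j) : Sing f.fn := by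
  have hd := cusp_dense (SS j) (fun g => sing_eig) (fun φ => sing_of_op fun ε hε => op_EE φ hε)
    fun φ => sing_of_op fun ε hε => by
      obtain ⟨L, G, h1, h2⟩ := op_EE (j := j) φ hε
      refine ⟨L, G, h1, ?_⟩
      rwa [Op_intertwine (SA j) (M := MA j) (fun p _ v => by
        simp only [MA, LinearMap.smul_apply, TA_SA, map_smul]), inner_SA_SA]
  intro ε hε
  obtain ⟨g, hg, hfg⟩ := hd.exists_dist_lt f (ε := √(ε / 4)) (by positivity)
  obtain ⟨L, G, h1, h2⟩ := hg (ε / 4) (by positivity)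
  have h3 := op_bound good_one.toTest (f - g) (a := ε / 4) (by
    rw [Op, prob_cι, ofReal_one, one_smul]
    refine (InnerProductSpace.norm_sq_eq_re_inner (𝕜 := ℂ) (f - g)).symm.trans_lt ?_
    rw [← dist_eq_norm]
    exact (Real.lt_sqrt dist_nonneg).1 hfg)
  refine ⟨L, G, h1.mono (by linarith), ?_⟩
  filter_upwards [h2, h3, self_mem_nhdsWithin] with Y a b hY N
  have := win_qp_add g.bc.cont (f - g).bc.cont h1.nonneg (fun e => le_rfl) h1.le_one N hY
  simp only [AH.fn_sub, add_sub_cancel] at this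
  exact this.trans (by linarith [a N, b N])

theorem sing_sum {Φ : ℤ → ℍ → ℂ} (h : ∀ j, BC (Φ j) ∧ Aut j 1 (Φ j)) (s : Finset ℤ)
    (hε : 0 < ε) : ∃ L G, Good ε L G ∧ ∀ᶠ Y in 𝓝[>] (0 : ℝ), ∀ u : ℤ → ℂ, (∀ j, ‖u j‖ ≤ 1) →
      ∀ N, win (qp G (fun τ => ∑ j ∈ s, u j * Φ j τ) N) Y ≤ ε := by
  induction s using Finset.induction_on generalizing ε with
  | empty =>
    obtain ⟨L, G, h1, h2⟩ := (SS 0).zero_mem ε hε
    exact ⟨L, G, h1, h2.mono fun Y a u _ N => a N⟩
  | insert i s hi ih =>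
    obtain ⟨L, G, h1, h2⟩ := sing (AH.mk _ (h i).1 (h i).2) (ε / 4) (by positivity)
    obtain ⟨L', G', h1', h2'⟩ := ih (ε := ε / 4) (by positivity)
    obtain ⟨L'', h3⟩ := h1.mul h1'
    refine ⟨L'', _, h3.mono (by linarith), ?_⟩
    filter_upwards [h2, h2', self_mem_nhdsWithin] with Y a b hY u hu N
    simp only [Finset.sum_insert hi]
    have := win_qp_add (f := fun τ => u i * Φ i τ) (g := fun τ => ∑ j ∈ s, u j * Φ j τ)
      (continuous_const.mul (h i).1.cont)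
      (continuous_finsetSum _ fun j _ => continuous_const.mul (h j).1.cont) h3.nonneg
      (fun e => mul_le_of_le_one_right (h1.nonneg e) (h1'.le_one e))
      (fun e => mul_le_of_le_one_left (h1'.nonneg e) (h1.le_one e)) N hY
    rw [win_qp_smul] at this
    have h4 := mul_le_of_le_one_left (win_qp_nonneg (f := Φ i) h1.nonneg N hY)
      (pow_le_one₀ (n := 2) (norm_nonneg _) (hu i))
    have h5 : win (qp G (Φ i) N) Y ≤ ε / 4 := a N
    exact this.trans (by linarith [b u hu N])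

theorem sing_F {X : ℝ} {K : ℤ → ℤ → ℍ → ℂ} {F : ℍ → ℂ} (hK : Coc X K) (hF : Sol X 1 F) :
    Sing (nz F) := by
  intro ε hε
  obtain ⟨J, Φ, h1, h2⟩ := approx hK hF (ε := ε / 2) (by positivity)
  obtain ⟨L, G, h3, h4⟩ := sing_sum h1 (Finset.Icc (-J : ℤ) J) (ε := ε / 4) (by positivity)
  refine ⟨L, G, h3.mono (by linarith), ?_⟩
  filter_upwards [h2, h4, self_mem_nhdsWithin] with Y ⟨u, hu, a⟩ b hY N
  have c1 : Continuous fun τ => ∑ j ∈ Finset.Icc (-J : ℤ) J, u j * Φ j τ :=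
    continuous_finsetSum _ fun j _ => continuous_const.mul (h1 j).1.cont
  have c2 := (continuous_nz hF.hol).fun_sub c1
  have := win_qp_add c1 c2 h3.nonneg (fun e => le_rfl) h3.le_one N hY
  simp only [add_sub_cancel] at this
  have h5 : 2 * win (qp (fun _ => 1) (fun τ => nz F τ - ∑ j ∈ Finset.Icc (-J : ℤ) J, u j * Φ j τ) N)
      Y ≤ ε / 2 := by
    rw [← rs_win_mul]
    refine le_trans (win_mono (rs_int (continuousOn_const.mul (continuousOn_qp c2 _ N)) hY)
      (approx_win_int (c2.norm.pow 2) hY) hY fun y hy => ?_) a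
    have := qp_le (G := fun _ => 1) (fun _ => zero_le_one) (by
      simpa using parseval_norm c2 two_pos (lt_of_lt_of_le hY hy.1)) N
    linarith
  exact this.trans (by linarith [b u hu N])

theorem density {c : ℕ → ℝ} (hc : Continuous f) (hs : Sing f)
    (h : ∀ (n : ℕ) (y : ℝ), 0 < y →
      fc 2 f n y = (c n * (y ^ (1 / 4 : ℝ) * Real.exp (-(π * n * y))) : ℝ)) {δ : ℝ} (hδ : 0 < δ)
    (hε : 0 < ε) : ∀ᶠ N : ℕ in atTop, ∑ n ∈ Finset.range (N + 1),
      (if δ ≤ |(n : ℝ) ^ (1 / 4 : ℝ) * c n| then (1 : ℝ) else 0) ≤ ε * (N + 1) := by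
  set A := Real.exp (6 * π) / δ ^ 2 with hA
  have hA0 : 0 < A := by positivity
  set η := ε / (2 + A) with hη
  have hη0 : 0 < η := by positivity
  obtain ⟨L, G, h1, h2⟩ := hs η hη0
  have t1 : Tendsto (fun N : ℕ => ((N : ℝ))⁻¹) atTop (𝓝[>] 0) :=
    tendsto_inv_atTop_nhdsGT_zero.comp tendsto_natCast_atTop_atTop
  have t2 := (h1.density.comp (tendsto_add_atTop_nat 1)).eventually
    (lt_mem_nhds (show 1 - 2 * η < Ex 0 L G by linarith [h1.big]))
  filter_upwards [t1.eventually h2, t2, eventually_gt_atTop 0] with N a b hN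
  have hN' : (0 : ℝ) < N := by exact_mod_cast hN
  have hY := inv_pos.2 hN'
  have hs0 : 0 < √(N : ℝ) := Real.sqrt_pos.2 hN'
  set B := ∑ n ∈ Finset.range N, G (eps (n + 1 : ℕ)) * c (n + 1) ^ 2 with hB
  have h3 : B * ((√(N : ℝ))⁻¹ * Real.exp (-(6 * π))) ≤ η := by
    refine le_trans ?_ (a N)
    rw [← win_const (B * _) (N : ℝ)⁻¹]
    refine rs_win_mono continuousOn_const (continuousOn_qp hc G N) hY fun y hy => ?_
    have hy0 := lt_of_lt_of_le hY hy.1
    rw [hB, Finset.sum_mul, qp]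
    refine Finset.sum_le_sum fun n hn => ?_
    rw [h _ y hy0, norm_real, Real.norm_eq_abs, sq_abs, mul_assoc, mul_pow, mul_pow]
    refine mul_le_mul_of_nonneg_left (mul_le_mul_of_nonneg_left (mul_le_mul ?_ ?_ (by positivity)
      (by positivity)) (sq_nonneg _)) (h1.nonneg _)
    · rw [← Real.rpow_natCast, ← Real.rpow_mul hy0.le, ← Real.sqrt_inv, Real.sqrt_eq_rpow]
      norm_num
      exact Real.rpow_le_rpow hY.le hy.1 (by norm_num)
    · rw [← Real.exp_nat_mul, Real.exp_le_exp]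
      have h4 : ((n + 1 : ℕ) : ℝ) ≤ N := by exact_mod_cast Finset.mem_range.1 hn
      have h5 : ((n + 1 : ℕ) : ℝ) * y ≤ 3 := by
        refine (mul_le_mul h4 hy.2 hy0.le hN'.le).trans_eq ?_
        field_simp
      have := mul_le_mul_of_nonneg_left h5 Real.pi_pos.le
      push_cast at this ⊢
      nlinarith
  have h4 : ∀ n ∈ Finset.range (N + 1), (if δ ≤ |(n : ℝ) ^ (1 / 4 : ℝ) * c n| then (1 : ℝ) else 0) ≤
      (1 - G (eps n)) + √(N : ℝ) / δ ^ 2 * (if n = 0 then 0 else G (eps n) * c n ^ 2) := by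
    intro n hn
    have g0 := h1.nonneg (eps n)
    have g1 := h1.le_one (eps n)
    split_ifs with h5 h6 h6
    · simp [h6] at h5; linarith
    · have h7 : δ ^ 2 ≤ √(N : ℝ) * c n ^ 2 := by
        refine (pow_le_pow_left₀ hδ.le h5 2).trans ?_
        rw [sq_abs, mul_pow, ← Real.rpow_natCast, ← Real.rpow_mul (Nat.cast_nonneg n),
          Real.sqrt_eq_rpow]
        refine mul_le_mul_of_nonneg_right ?_ (sq_nonneg _)
        norm_num
        exact Real.rpow_le_rpow (Nat.cast_nonneg n)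
          (by exact_mod_cast Nat.lt_succ_iff.1 (Finset.mem_range.1 hn)) (by norm_num)
      have h8 : G (eps n) ≤ √(N : ℝ) / δ ^ 2 * (G (eps n) * c n ^ 2) := by
        rw [div_mul_eq_mul_div, le_div_iff₀ (by positivity)]
        nlinarith
      linarith
    · linarith
    · have : 0 ≤ √(N : ℝ) / δ ^ 2 * (G (eps n) * c n ^ 2) := by positivity
      linarith
  refine (Finset.sum_le_sum h4).trans ?_
  rw [Finset.sum_add_distrib, ← Finset.mul_sum, Finset.sum_range_succ' (fun n => if n = 0 then _ else _),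
    Finset.sum_sub_distrib]
  simp only [Nat.succ_ne_zero, if_false, if_true, add_zero, ← hB, Finset.sum_const,
    Finset.card_range, nsmul_eq_mul, mul_one]
  simp only [Function.comp] at b
  rw [lt_div_iff₀ (by positivity)] at b
  have h5 : √(N : ℝ) / δ ^ 2 * B ≤ A * η * N := by
    have e : √(N : ℝ) / δ ^ 2 * B = A * (B * ((√(N : ℝ))⁻¹ * Real.exp (-(6 * π)))) *
        (√(N : ℝ) * √(N : ℝ)) := by
      rw [hA, Real.exp_neg]; field_simp
    rw [e, Real.mul_self_sqrt hN'.le]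
    gcongr
  have h6 : ε = η * (2 + A) := by rw [hη]; field_simp
  push_cast at b ⊢
  rw [h6]
  nlinarith [mul_pos hA0 hη0]

theorem main (b : ℕ → SchwartzMap ℝ ℝ) (he : ∀ n x, b n (-x) = b n x)
    (hf : ∀ n ξ, 𝓕 (fun x => (b n x : ℂ)) ξ = b n ξ)
    (hb : ∀ n m : ℕ, b n √m = if n = m then 1 else 0) {X : ℝ} (hX : 0 < X) (g : ℝ →ᵇ ℝ) :
    Tendsto (fun N : ℕ => (∑ n ∈ Finset.range (N + 1), g ((n : ℝ) ^ (1 / 4 : ℝ) * b n √X)) /
      (N + 1)) atTop (𝓝 (g 0)) := by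
  obtain ⟨K, F, hK, hF, h⟩ := exists_F hX b he hf hb
  rw [Metric.tendsto_nhds]
  intro ε hε
  obtain ⟨δ, hδ, hg⟩ := Metric.continuousAt_iff.1 (g.continuous.continuousAt (x := 0)) (ε / 3)
    (by positivity)
  have h0 : 0 < 2 * ‖g‖ + 1 := by positivity
  filter_upwards [density (continuous_nz hF.hol) (sing_F hK hF) h hδ
    (ε := ε / 3 / (2 * ‖g‖ + 1)) (by positivity)] with N hN
  have hN' : (0 : ℝ) < N + 1 := by positivity
  have e : (∑ n ∈ Finset.range (N + 1), g ((n : ℝ) ^ (1 / 4 : ℝ) * b n √X)) / (N + 1) - g 0 =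
      (∑ n ∈ Finset.range (N + 1), (g ((n : ℝ) ^ (1 / 4 : ℝ) * b n √X) - g 0)) / (N + 1) := by
    rw [Finset.sum_sub_distrib, Finset.sum_const, Finset.card_range, nsmul_eq_mul]
    push_cast; field_simp
  have h1 : ∀ n ∈ Finset.range (N + 1), |g ((n : ℝ) ^ (1 / 4 : ℝ) * b n √X) - g 0| ≤
      ε / 3 + (2 * ‖g‖ + 1) * if δ ≤ |(n : ℝ) ^ (1 / 4 : ℝ) * b n √X| then (1 : ℝ) else 0 := by
    intro n _
    split_ifs with h2
    · have := g.dist_le_two_norm ((n : ℝ) ^ (1 / 4 : ℝ) * b n √X) 0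
      rw [Real.dist_eq] at this
      linarith
    · have := hg (x := (n : ℝ) ^ (1 / 4 : ℝ) * b n √X) (by simpa using h2)
      rw [Real.dist_eq] at this
      linarith
  rw [Real.dist_eq, e, abs_div, abs_of_pos hN', div_lt_iff₀ hN']
  refine ((Finset.abs_sum_le_sum_abs _ _).trans (Finset.sum_le_sum h1)).trans_lt ?_
  rw [Finset.sum_add_distrib, ← Finset.mul_sum, Finset.sum_const, Finset.card_range, nsmul_eq_mul]
  have h2 := mul_le_mul_of_nonneg_left hN h0.le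
  rw [← mul_assoc, mul_div_cancel₀ _ h0.ne'] at h2
  push_cast
  nlinarith [mul_pos hε hN']

end

end Pool.Agent.Lib.MP_e6abdd_an
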