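import Pool.Agent.Lib.MP_e6abdd_an.Tile

/-!
The majorant of the heights.
-/

namespace Pool.Agent.Lib.MP_e6abdd_an

open Complex hiding Gamma
open UpperHalfPlane hiding I
open MeasureTheory Filter Topology CongruenceSubgroup
open scoped Real MatrixGroups ComplexConjugate

noncomputable def majG (u : ℝ) : ℝ := (1 + u ^ 2) ^ (-5 / 8 : ℝ)

theorem maj_g_nonneg (u : ℝ) : 0 ≤ majG u := Real.rpow_nonneg (by positivity) _

theorem maj_g_int : Integrable majG := by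
  have h := integrable_rpow_neg_one_add_norm_sq (E := ℝ) (μ := volume) (r := 5 / 4)
    (by simp; norm_num)
  refine h.congr (Eventually.of_forall fun u => ?_)
  simp only [majG, Real.norm_eq_abs, sq_abs]
  norm_num

theorem maj_g_cont : Continuous majG :=
  Continuous.rpow_const (by fun_prop) fun u => Or.inl (by positivity)

theorem maj_hgt_eq (c d : ℤ) (τ : ℍ) :
    hgt c d τ = τ.im / ((c * τ.re + d) ^ 2 + (c * τ.im) ^ 2) := by
  rw [hgt, normSq_apply]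
  simp [sq]

theorem maj_hgt_nonneg (c d : ℤ) (τ : ℍ) : 0 ≤ hgt c d τ :=
  div_nonneg τ.im_pos.le (normSq_nonneg _)

theorem maj_hgt_neg (c d : ℤ) (τ : ℍ) : hgt (-c) (-d) τ = hgt c d τ := by
  rw [maj_hgt_eq, maj_hgt_eq]; push_cast; ring

theorem maj_term {c : ℤ} (hc : c ≠ 0) (d : ℤ) (τ : ℍ) :
    (hgt c d τ / ((c : ℝ) ^ 2 * τ.im) ^ (1 / 4 : ℝ)) ^ (5 / 8 : ℝ) =
      ((c : ℝ) ^ 2 * τ.im) ^ (-25 / 32 : ℝ) * majG ((c * τ.re + d) / (c * τ.im)) := by
  have hy := τ.im_pos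
  have hc' : (c : ℝ) ≠ 0 := by exact_mod_cast hc
  have hm : 0 < (c : ℝ) ^ 2 * τ.im := by positivity
  set t : ℝ := (c * τ.re + d) / (c * τ.im) with ht
  have h1 : hgt c d τ = ((c : ℝ) ^ 2 * τ.im) ^ (-1 : ℝ) * (1 + t ^ 2) ^ (-1 : ℝ) := by
    rw [maj_hgt_eq, Real.rpow_neg_one, Real.rpow_neg_one, ht]
    have : 0 < (c * τ.re + d) ^ 2 + (c * τ.im) ^ 2 := by positivity
    field_simp
    ring
  rw [h1, mul_div_right_comm, ← Real.rpow_sub hm, Real.mul_rpow (by positivity) (by positivity),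
    ← Real.rpow_mul hm.le, ← Real.rpow_mul (by positivity), majG]
  norm_num

theorem maj_summable {r : ℝ} (hr : r ≠ 0) (a : ℝ) :
    Summable fun d : ℤ => majG ((a + d) / r) := by
  have h := ((Real.summable_one_div_int_add_rpow a (5 / 4)).2 (by norm_num)).mul_left
    (|r| ^ (5 / 4 : ℝ))
  refine h.of_norm_bounded_eventually ?_
  have hfin : {d : ℤ | (d : ℝ) + a = 0}.Finite := by
    apply Set.Subsingleton.finite
    intro d hd d' hd'
    have : (d : ℝ) = d' := by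
      simp only [Set.mem_ofPred_eq] at hd hd'
      linarith
    exact_mod_cast this
  filter_upwards [hfin.compl_mem_cofinite] with d hd
  have hd' : (d : ℝ) + a ≠ 0 := hd
  rw [Real.norm_of_nonneg (maj_g_nonneg _), majG]
  have h0 : 0 < |(d : ℝ) + a| / |r| := by positivity
  have h1 : (|(d : ℝ) + a| / |r|) ^ (2 : ℝ) ≤ 1 + ((a + d) / r) ^ 2 := by
    rw [Real.rpow_two, div_pow, sq_abs, sq_abs, div_pow, add_comm a]
    linarith
  refine (Real.rpow_le_rpow_of_nonpos (by positivity) h1 (by norm_num)).trans (le_of_eq ?_)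
  rw [← Real.rpow_mul h0.le, show (2 : ℝ) * (-5 / 8) = -(5 / 4) by norm_num,
    Real.rpow_neg h0.le, Real.div_rpow (abs_nonneg _) (abs_nonneg _), inv_div, mul_one_div]

theorem maj_sum_nonneg (τ : ℍ) (c : ℕ) :
    0 ≤ ∑' d : ℤ, (hgt c d τ / ((c : ℝ) ^ 2 * τ.im) ^ (1 / 4 : ℝ)) ^ (5 / 8 : ℝ) :=
  tsum_nonneg fun _ => Real.rpow_nonneg (div_nonneg (maj_hgt_nonneg _ _ _)
    (Real.rpow_nonneg (mul_nonneg (sq_nonneg _) τ.im_pos.le) _)) _

theorem one_le_maj (τ : ℍ) : 1 ≤ maj τ :=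
  le_add_of_nonneg_right (Finset.sum_nonneg fun c _ => maj_sum_nonneg τ c)

theorem maj_hgt_le_one {c : ℤ} (d : ℤ) {τ : ℍ} (h : 1 ≤ (c : ℝ) ^ 2 * τ.im) : hgt c d τ ≤ 1 := by
  have h1 := hgt_mul_le c d τ
  have h2 := maj_hgt_nonneg c d τ
  nlinarith

theorem maj_le_nat {c : ℕ} (hc : c ≠ 0) (d : ℤ) (τ : ℍ) :
    (hgt c d τ / ((c : ℝ) ^ 2 * τ.im) ^ (1 / 4 : ℝ)) ^ (5 / 8 : ℝ) ≤ maj τ := by
  have hy := τ.im_pos
  have hc' : (0 : ℝ) < c := by positivity
  rcases le_total 1 ((c : ℝ) ^ 2 * τ.im) with h | h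
  · refine le_trans (Real.rpow_le_one (div_nonneg (maj_hgt_nonneg _ _ _) (by positivity)) ?_
      (by norm_num)) (one_le_maj τ)
    rw [div_le_one (by positivity)]
    exact (maj_hgt_le_one d (by simpa using h)).trans (Real.one_le_rpow h (by norm_num))
  · have hmem : c ∈ Finset.Icc 1 ⌊τ.im ^ (-1 / 2 : ℝ)⌋₊ := by
      rw [Finset.mem_Icc]
      refine ⟨Nat.one_le_iff_ne_zero.2 hc, Nat.le_floor ?_⟩
      rw [← pow_le_pow_iff_left₀ hc'.le (by positivity) two_ne_zero, ← Real.rpow_natCast (_ ^ _),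
        ← Real.rpow_mul hy.le, show (-1 / 2 : ℝ) * (2 : ℕ) = -1 by norm_num, Real.rpow_neg_one,
        ← one_div, le_div_iff₀ hy]
      exact h
    have hs : Summable fun d : ℤ =>
        (hgt c d τ / ((c : ℝ) ^ 2 * τ.im) ^ (1 / 4 : ℝ)) ^ (5 / 8 : ℝ) := by
      have h1 := (maj_summable (r := c * τ.im) (by positivity) (c * τ.re)).mul_left
        (((c : ℝ) ^ 2 * τ.im) ^ (-25 / 32 : ℝ))
      refine h1.congr fun d => ?_
      have h2 := maj_term (c := c) (by exact_mod_cast hc) d τ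
      simpa using h2.symm
    have h1 := hs.le_tsum d fun d' _ => Real.rpow_nonneg
      (div_nonneg (maj_hgt_nonneg _ _ _) (by positivity)) _
    have h2 := Finset.single_le_sum (fun c _ => maj_sum_nonneg τ c) hmem
    unfold maj
    linarith

theorem le_maj {c d : ℤ} (hc : c ≠ 0) (τ : ℍ) :
    (hgt c d τ / ((c : ℝ) ^ 2 * τ.im) ^ (1 / 4 : ℝ)) ^ (5 / 8 : ℝ) ≤ maj τ := by
  obtain ⟨n, rfl | rfl⟩ := c.eq_nat_or_neg
  · simpa using maj_le_nat (c := n) (by simpa using hc) d τ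
  · have h := maj_le_nat (c := n) (by simpa using hc) (-d) τ
    rw [← maj_hgt_neg, neg_neg] at h
    simpa using h

theorem hgt_le_maj {c d : ℤ} (hc : c ≠ 0) (τ : ℍ) : hgt c d τ ^ (5 / 8 : ℝ) ≤ maj τ := by
  have hy := τ.im_pos
  have hc' : (c : ℝ) ≠ 0 := by exact_mod_cast hc
  rcases le_total 1 ((c : ℝ) ^ 2 * τ.im) with h | h
  · exact le_trans (Real.rpow_le_one (maj_hgt_nonneg _ _ _) (maj_hgt_le_one d h)
      (by norm_num)) (one_le_maj τ)
  · refine le_trans (Real.rpow_le_rpow (maj_hgt_nonneg _ _ _) ?_ (by norm_num))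
      (le_maj (d := d) hc τ)
    exact le_div_self (maj_hgt_nonneg _ _ _) (by positivity)
      (Real.rpow_le_one (by positivity) h (by norm_num))

theorem maj_int_tsum {F : ℤ → ℝ → ℝ} {μ : Measure ℝ} (hF : ∀ i, Integrable (F i) μ)
    (hs : Summable fun i => ∫ a, ‖F i a‖ ∂μ) : Integrable (fun a => ∑' i, F i a) μ := by
  refine ⟨AEStronglyMeasurable.tsum fun i => (hF i).1, ?_⟩
  refine lt_of_le_of_lt (lintegral_mono fun a => enorm_tsum_le_tsum_enorm) ?_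
  rw [lintegral_tsum fun i => (hF i).1.enorm]
  simp_rw [← fun i => ofReal_integral_norm_eq_lintegral_enorm (hF i)]
  rw [← ENNReal.ofReal_tsum_of_nonneg (fun i => integral_nonneg fun a => norm_nonneg _) hs]
  exact ENNReal.ofReal_lt_top

theorem maj_hasSum_len {G : ℝ → ℝ} (hG : Integrable G) (n : ℕ) :
    HasSum (fun d : ℤ => ∫ u in (d : ℝ)..(n + d), G u) (n * ∫ u, G u) := by
  induction n with
  | zero => simp
  | succ n ih =>
    have h := ih.add (hG.hasSum_intervalIntegral n)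
    push_cast
    rw [add_mul, one_mul]
    refine h.congr_fun ?_
    intro d
    rw [intervalIntegral.integral_add_adjacent_intervals hG.intervalIntegrable
      hG.intervalIntegrable]
    congr 1
    ring

theorem maj_hasSum {G : ℝ → ℝ} (hG : Integrable G) {c : ℕ} (hc : c ≠ 0) :
    HasSum (fun d : ℤ => ∫ x in (0 : ℝ)..2, G (c * x + d)) (2 * ∫ u, G u) := by
  have hc' : (c : ℝ) ≠ 0 := by exact_mod_cast hc
  have h := (maj_hasSum_len hG (2 * c)).mul_left (c : ℝ)⁻¹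
  rw [show (c : ℝ)⁻¹ * (((2 * c : ℕ) : ℝ) * ∫ u, G u) = 2 * ∫ u, G u by
    push_cast; field_simp] at h
  refine h.congr_fun fun d => ?_
  rw [intervalIntegral.integral_comp_mul_add _ hc']
  simp [mul_comm]

theorem maj_col {c : ℕ} (hc : c ≠ 0) {y : ℝ} (hy : 0 < y) :
    IntervalIntegrable (fun x => ∑' d : ℤ,
      (hgt c d (pt x y) / ((c : ℝ) ^ 2 * (pt x y).im) ^ (1 / 4 : ℝ)) ^ (5 / 8 : ℝ)) volume 0 2 ∧
    ∫ x in (0 : ℝ)..2, ∑' d : ℤ,
      (hgt c d (pt x y) / ((c : ℝ) ^ 2 * (pt x y).im) ^ (1 / 4 : ℝ)) ^ (5 / 8 : ℝ) =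
      2 * (∫ u, majG u) * (y ^ (7 / 32 : ℝ) * (c : ℝ) ^ (-9 / 16 : ℝ)) := by
  have hc' : (0 : ℝ) < c := by positivity
  set G : ℝ → ℝ := fun u => ((c : ℝ) ^ 2 * y) ^ (-25 / 32 : ℝ) * majG (u / (c * y)) with hGdef
  have hG : Integrable G := (maj_g_int.comp_div (by positivity)).const_mul _
  have hGc : Continuous G := continuous_const.mul (maj_g_cont.comp (by fun_prop))
  have hG0 : ∀ u, 0 ≤ G u := fun u => mul_nonneg (by positivity) (maj_g_nonneg _)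
  have he : ∀ (x : ℝ) (d : ℤ),
      (hgt c d (pt x y) / ((c : ℝ) ^ 2 * (pt x y).im) ^ (1 / 4 : ℝ)) ^ (5 / 8 : ℝ) =
        G (c * x + d) := by
    intro x d
    have h2 := maj_term (c := c) (by exact_mod_cast hc) d (pt x y)
    rw [pt_re x hy] at h2
    simp only [Int.cast_natCast] at h2
    rw [h2, pt_im x hy]
  simp only [he]
  have hs := maj_hasSum hG hc
  simp only [intervalIntegral.integral_of_le (zero_le_two (α := ℝ))] at hs ⊢
  have hi : ∀ d : ℤ, Integrable (fun x : ℝ => G (c * x + d)) (volume.restrict (Set.Ioc 0 2)) :=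
    fun d => (hGc.comp (by fun_prop)).integrableOn_Ioc
  have hs' : Summable fun d : ℤ => ∫ x in Set.Ioc (0 : ℝ) 2, ‖G (c * x + d)‖ := by
    simpa only [Real.norm_of_nonneg (hG0 _)] using hs.summable
  refine ⟨(intervalIntegrable_iff_integrableOn_Ioc_of_le zero_le_two).2 (maj_int_tsum hi hs'), ?_⟩
  rw [← integral_tsum_of_summable_integral_norm hi hs', hs.tsum_eq, hGdef, integral_const_mul,
    Measure.integral_comp_div, abs_of_pos (by positivity), smul_eq_mul,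
    Real.mul_rpow (by positivity) hy.le, ← Real.rpow_natCast, ← Real.rpow_mul hc'.le,
    show (7 / 32 : ℝ) = -25 / 32 + 1 by norm_num,
    show (-9 / 16 : ℝ) = (2 : ℕ) * (-25 / 32) + 1 by norm_num,
    Real.rpow_add_one hy.ne', Real.rpow_add_one hc'.ne']
  ring

theorem maj_pt {y : ℝ} (hy : 0 < y) (x : ℝ) : maj (pt x y) =
    1 + ∑ c ∈ Finset.Icc 1 ⌊y ^ (-1 / 2 : ℝ)⌋₊, ∑' d : ℤ,
      (hgt c d (pt x y) / ((c : ℝ) ^ 2 * (pt x y).im) ^ (1 / 4 : ℝ)) ^ (5 / 8 : ℝ) := by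
  rw [maj]
  congr 3
  rw [pt_im x hy]

theorem intervalIntegrable_maj {y : ℝ} (hy : 0 < y) :
    IntervalIntegrable (fun x => maj (pt x y)) volume 0 2 := by
  simp only [maj_pt hy]
  refine intervalIntegrable_const.add ?_
  refine (IntervalIntegrable.sum (Finset.Icc 1 ⌊y ^ (-1 / 2 : ℝ)⌋₊) fun c hc =>
    (maj_col (c := c) (Nat.one_le_iff_ne_zero.1 (Finset.mem_Icc.1 hc).1) hy).1).congr ?_
  intro x _
  simp

theorem maj_sum_rpow (N : ℕ) :
    ∑ c ∈ Finset.Icc 1 N, (c : ℝ) ^ (-9 / 16 : ℝ) ≤ 3 * (N : ℝ) ^ (7 / 16 : ℝ) := by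
  induction N with
  | zero => simp
  | succ N ih =>
    rw [Finset.sum_Icc_succ_top (by omega)]
    have hN : (0 : ℝ) < (N + 1 : ℕ) := by positivity
    set M : ℝ := ((N + 1 : ℕ) : ℝ) with hM
    have h1 : (N : ℝ) = M * (1 + -M⁻¹) := by
      field_simp
      rw [hM]; push_cast; ring
    have h2 : M⁻¹ ≤ 1 := inv_le_one_of_one_le₀ (by rw [hM]; push_cast; linarith [N.cast_nonneg (α := ℝ)])
    have h3 := rpow_one_add_le_one_add_mul_self (s := -M⁻¹) (p := 7 / 16) (by linarith)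
      (by norm_num) (by norm_num)
    have h4 : M ^ (-9 / 16 : ℝ) = M ^ (7 / 16 : ℝ) * M⁻¹ := by
      rw [← Real.rpow_neg_one, ← Real.rpow_add hN]; norm_num
    have h5 : (N : ℝ) ^ (7 / 16 : ℝ) ≤ M ^ (7 / 16 : ℝ) * (1 + 7 / 16 * -M⁻¹) := by
      rw [h1, Real.mul_rpow hN.le (by linarith)]
      exact mul_le_mul_of_nonneg_left h3 (by positivity)
    have h6 : 0 ≤ M ^ (7 / 16 : ℝ) * M⁻¹ := by positivity
    rw [h4]
    nlinarith

theorem integral_maj : ∃ C : ℝ, ∀ y, 0 < y → ∫ x in (0 : ℝ)..2, maj (pt x y) ≤ C := by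
  refine ⟨2 + 2 * (∫ u, majG u) * 3, fun y hy => ?_⟩
  have hne : ∀ c ∈ Finset.Icc 1 ⌊y ^ (-1 / 2 : ℝ)⌋₊, c ≠ 0 := fun c hc =>
    Nat.one_le_iff_ne_zero.1 (Finset.mem_Icc.1 hc).1
  have hI := intervalIntegrable_maj hy
  simp only [maj_pt hy] at hI ⊢
  rw [intervalIntegral.integral_add intervalIntegrable_const
    (by simpa using hI.sub (intervalIntegrable_const (c := (1 : ℝ)))),
    intervalIntegral.integral_finsetSum fun c hc => (maj_col (hne c hc) hy).1,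
    Finset.sum_congr rfl fun c hc => (maj_col (hne c hc) hy).2, ← Finset.mul_sum,
    ← Finset.mul_sum]
  have hB : 0 ≤ ∫ u, majG u := integral_nonneg maj_g_nonneg
  have h1 := maj_sum_rpow ⌊y ^ (-1 / 2 : ℝ)⌋₊
  have h2 : ((⌊y ^ (-1 / 2 : ℝ)⌋₊ : ℕ) : ℝ) ^ (7 / 16 : ℝ) ≤ y ^ (-(7 / 32) : ℝ) := by
    refine (Real.rpow_le_rpow (by positivity) (Nat.floor_le (by positivity)) (by norm_num)).trans
      (le_of_eq ?_)
    rw [← Real.rpow_mul hy.le]; norm_num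
  have h3 : y ^ (7 / 32 : ℝ) * y ^ (-(7 / 32) : ℝ) = 1 := by
    rw [← Real.rpow_add hy]; simp
  have h4 : y ^ (7 / 32 : ℝ) * ∑ c ∈ Finset.Icc 1 ⌊y ^ (-1 / 2 : ℝ)⌋₊, (c : ℝ) ^ (-9 / 16 : ℝ)
      ≤ 3 := by
    have h5 : 0 ≤ y ^ (7 / 32 : ℝ) := by positivity
    calc _ ≤ y ^ (7 / 32 : ℝ) * (3 * y ^ (-(7 / 32) : ℝ)) :=
          mul_le_mul_of_nonneg_left (by linarith) h5
      _ = 3 := by rw [mul_left_comm, h3, mul_one]
  have h6 := mul_le_mul_of_nonneg_left h4 (by positivity : 0 ≤ 2 * ∫ u, majG u)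
  simp only [intervalIntegral.integral_const, sub_zero, smul_eq_mul, mul_one]
  linarith

end Pool.Agent.Lib.MP_e6abdd_an
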