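import Pool.Agent.Lib.MP_e6abdd_an.Defs

/-!
Arguments, the group `Γ(2)` and the Jacobi symbol.
-/

namespace Pool.Agent.Lib.MP_e6abdd_an

open Complex hiding Gamma
open UpperHalfPlane hiding I
open MeasureTheory Filter Topology CongruenceSubgroup
open scoped Real MatrixGroups ComplexConjugate

open ModularGroup (S T)

def U2 : SL(2, ℤ) := ⟨!![1, 0; 2, 1], by simp [Matrix.det_fin_two]⟩

theorem eq_of_exp_eq {a b : ℝ} (h : cexp (I * a) = cexp (I * b)) (h' : |a - b| < 2 * π) :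
    a = b := by
  obtain ⟨n, hn⟩ := exp_eq_exp_iff_exists_int.1 h
  have h1 : a - b = n * (2 * π) := by
    have := congrArg Complex.im hn
    simp at this
    linarith
  rw [h1, abs_mul, abs_of_pos Real.two_pi_pos] at h'
  have h2 : |(n : ℝ)| < 1 := by nlinarith [Real.two_pi_pos]
  have h3 : n = 0 := by
    have : |n| < 1 := by exact_mod_cast h2
    exact Int.abs_lt_one_iff.1 this
  simp only [h3, Int.cast_zero, zero_mul] at h1
  linarith

theorem exp_arg {z : ℂ} (hz : z ≠ 0) : cexp (I * arg z) = z / ‖z‖ := by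
  have h : (‖z‖ : ℂ) ≠ 0 := by simpa using hz
  rw [eq_div_iff h, mul_comm, mul_comm I]
  exact norm_mul_exp_arg_mul_I z

theorem arg_mul_of_lt {z z' : ℂ} (hz : z ≠ 0) (hz' : z' ≠ 0)
    (h : |arg z + arg z' - arg (z * z')| < 2 * π) : arg (z * z') = arg z + arg z' := by
  symm
  apply eq_of_exp_eq _ h
  push_cast
  rw [mul_add, exp_add, exp_arg hz, exp_arg hz', exp_arg (mul_ne_zero hz hz'), norm_mul]
  push_cast
  rw [div_mul_div_comm]

theorem ph_mul {z z' : ℂ} (h : arg (z * z') = arg z + arg z') (w : ℤ) :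
    ph w (z * z') = ph w z * ph w z' := by
  simp only [ph, h, ← exp_add]
  congr 1
  push_cast; ring

theorem ph_pos_mul {r : ℝ} (hr : 0 < r) (w : ℤ) (z : ℂ) : ph w (r * z) = ph w z := by
  simp only [ph, arg_real_mul z hr]

theorem ph_mul_conj (w : ℤ) (z : ℂ) : ph w z * conj (ph w z) = 1 := by
  rw [mul_conj, normSq_eq_norm_sq, norm_ph]; simp

theorem det_SL (γ : SL(2, ℤ)) : γ 0 0 * γ 1 1 - γ 0 1 * γ 1 0 = 1 := by
  have := γ.det_coe
  rwa [Matrix.det_fin_two] at this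

theorem SL_mul_apply (γ δ : SL(2, ℤ)) (i k : Fin 2) :
    (γ * δ) i k = γ i 0 * δ 0 k + γ i 1 * δ 1 k := by
  simp [Matrix.mul_apply, Fin.sum_univ_two]

theorem mem_gamma {N : ℕ} {γ : SL(2, ℤ)} : γ ∈ Gamma N ↔
    (N : ℤ) ∣ γ 0 0 - 1 ∧ (N : ℤ) ∣ γ 0 1 ∧ (N : ℤ) ∣ γ 1 0 ∧ (N : ℤ) ∣ γ 1 1 - 1 := by
  rw [Gamma_mem]
  simp only [← ZMod.intCast_zmod_eq_zero_iff_dvd, Int.cast_sub, Int.cast_one, sub_eq_zero]

theorem mem_gamma2 {γ : SL(2, ℤ)} : γ ∈ Gamma 2 ↔ Even (γ 0 1) ∧ Even (γ 1 0) := by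
  rw [mem_gamma]
  simp only [Nat.cast_ofNat, ← even_iff_two_dvd]
  refine ⟨fun h => ⟨h.2.1, h.2.2.1⟩, fun ⟨h1, h2⟩ => ?_⟩
  have h := det_SL γ
  have h3 : Odd (γ 0 0 * γ 1 1) := by
    have : γ 0 0 * γ 1 1 = γ 0 1 * γ 1 0 + 1 := by linarith
    rw [this]; exact (h1.mul_right _).add_one
  rw [Int.odd_mul] at h3
  exact ⟨h3.1.sub_odd odd_one, h1, h2, h3.2.sub_odd odd_one⟩

theorem odd_of_gamma2 {γ : SL(2, ℤ)} (h : γ ∈ Gamma 2) : Odd (γ 1 1) := by
  have := (mem_gamma.1 h).2.2.2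
  simp only [Nat.cast_ofNat, ← even_iff_two_dvd] at this
  simpa using this.add_one

theorem ne_of_gamma2 {γ : SL(2, ℤ)} (h : γ ∈ Gamma 2) : γ 1 1 ≠ 0 := fun h0 => by
  have := odd_of_gamma2 h
  rw [h0] at this
  exact absurd this (by decide)

theorem coprime_row (γ : SL(2, ℤ)) : IsCoprime (γ 1 0) (γ 1 1) :=
  ModularGroup.bottom_row_coprime γ

theorem gamma_le {M M' : ℕ} (h : M ∣ M') : Gamma M' ≤ Gamma M := fun γ hγ => by
  rw [mem_gamma] at hγ ⊢
  have h' : (M : ℤ) ∣ M' := Int.natCast_dvd_natCast.2 h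
  exact ⟨h'.trans hγ.1, h'.trans hγ.2.1, h'.trans hγ.2.2.1, h'.trans hγ.2.2.2⟩

/-- The matrix with given entries. -/
def mkSL (a b c d : ℤ) (h : a * d - b * c = 1) : SL(2, ℤ) :=
  ⟨!![a, b; c, d], by simpa [Matrix.det_fin_two] using h⟩

@[simp] theorem mkSL_00 (a b c d : ℤ) (h) : mkSL a b c d h 0 0 = a := rfl
@[simp] theorem mkSL_01 (a b c d : ℤ) (h) : mkSL a b c d h 0 1 = b := rfl
@[simp] theorem mkSL_10 (a b c d : ℤ) (h) : mkSL a b c d h 1 0 = c := rfl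
@[simp] theorem mkSL_11 (a b c d : ℤ) (h) : mkSL a b c d h 1 1 = d := rfl

theorem exists_row {c d : ℤ} (h : IsCoprime c d) : ∃ γ : SL(2, ℤ), γ 1 0 = c ∧ γ 1 1 = d := by
  obtain ⟨u, v, huv⟩ := h
  exact ⟨mkSL v (-u) c d (by linarith), rfl, rfl⟩

theorem odd_of_coprime {c d : ℤ} (h : IsCoprime c d) (hc : Even c) : Odd d := by
  obtain ⟨u, v, huv⟩ := h
  by_contra hd
  rw [Int.not_odd_iff_even] at hd
  have : Even (1 : ℤ) := huv ▸ (hc.mul_left u).add (hd.mul_left v)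
  exact absurd this (by decide)

theorem exists_gamma2_row {c d : ℤ} (h : IsCoprime c d) (hc : Even c) :
    ∃ γ ∈ Gamma 2, γ 1 0 = c ∧ γ 1 1 = d := by
  have hd := odd_of_coprime h hc
  obtain ⟨u, v, huv⟩ := h
  refine ⟨mkSL (v + u * c) (u * d - u) c d (by linarith), mem_gamma2.2 ⟨?_, hc⟩, rfl, rfl⟩
  have : u * d - u = u * (d - 1) := by ring
  rw [mkSL_01, this]
  exact (hd.sub_odd odd_one).mul_left u

theorem mem_rows2 {v : ℤ × ℤ} : v ∈ rows (Gamma 2) ↔ IsCoprime v.1 v.2 ∧ Even v.1 := by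
  constructor
  · rintro ⟨γ, hγ, rfl⟩
    exact ⟨coprime_row γ, (mem_gamma2.1 hγ).2⟩
  · rintro ⟨h, hc⟩
    obtain ⟨γ, hγ, h1, h2⟩ := exists_gamma2_row h hc
    exact ⟨γ, hγ, Prod.ext h1 h2⟩

theorem T_sq_apply : (T ^ 2 : SL(2, ℤ)) = mkSL 1 2 0 1 (by norm_num) := by
  decide

theorem T_sq_mem : T ^ 2 ∈ Gamma 2 := by
  rw [T_sq_apply, mem_gamma2]; simp

theorem U2_mem : U2 ∈ Gamma 2 := by
  rw [mem_gamma2]; simp [U2]

theorem neg_one_mem : (-1 : SL(2, ℤ)) ∈ Gamma 2 := by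
  rw [mem_gamma2]; simp

theorem gamma2_le : Gamma 2 ≤ Subgroup.closure {-1, T ^ 2, U2} := by
  set H := Subgroup.closure ({-1, T ^ 2, U2} : Set SL(2, ℤ))
  have h1 : (-1 : SL(2, ℤ)) ∈ H := Subgroup.subset_closure (by simp)
  have hT : T ^ 2 ∈ H := Subgroup.subset_closure (by simp)
  have hU : U2 ∈ H := Subgroup.subset_closure (by simp)
  have key : ∀ n : ℕ, ∀ γ ∈ Gamma 2, (γ 1 0).natAbs + (γ 1 1).natAbs = n → γ ∈ H := by
    intro n
    induction n using Nat.strong_induction_on with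
    | _ n ih =>
      intro γ hγ hn
      have step : ∀ δ ∈ H, δ ∈ Gamma 2 →
          ((γ * δ) 1 0).natAbs + ((γ * δ) 1 1).natAbs < n → γ ∈ H := fun δ hδ hδ' hlt => by
        have := ih _ hlt (γ * δ) (mul_mem hγ hδ') rfl
        simpa using mul_mem this (inv_mem hδ)
      obtain ⟨k, hk⟩ := (mem_gamma2.1 hγ).2
      obtain ⟨l, hl⟩ := odd_of_gamma2 hγ
      by_cases hc : γ 1 0 = 0
      · have hd := det_SL γ
        rw [hc, mul_zero, sub_zero] at hd
        obtain ⟨m, hm⟩ := (mem_gamma2.1 hγ).1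
        rcases Int.eq_one_or_neg_one_of_mul_eq_one' hd with ⟨ha, hd'⟩ | ⟨ha, hd'⟩
        · have : γ = (T ^ 2) ^ m := by
            rw [← zpow_natCast, ← zpow_mul]
            ext i k; fin_cases i <;> fin_cases k <;>
              simp [ModularGroup.coe_T_zpow, ha, hd', hc, hm, two_mul]
          exact this ▸ zpow_mem hT m
        · have : γ = -1 * (T ^ 2) ^ (-m) := by
            rw [← zpow_natCast, ← zpow_mul]
            ext i k; fin_cases i <;> fin_cases k <;>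
              simp [ModularGroup.coe_T_zpow, ha, hd', hc, hm, two_mul, -zpow_neg, -mul_neg]
          exact this ▸ mul_mem h1 (zpow_mem hT _)
      · have e1 : (T ^ 2)⁻¹ = mkSL 1 (-2) 0 1 (by norm_num) := by
          decide
        have e2 : U2⁻¹ = mkSL 1 0 (-2) 1 (by norm_num) := by
          decide
        have e3 : U2 = mkSL 1 0 2 1 (by norm_num) := rfl
        by_cases hlt : (γ 1 0).natAbs < (γ 1 1).natAbs
        · by_cases hs : (0 < γ 1 0 ↔ 0 < γ 1 1)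
          · refine step _ (inv_mem hT) (inv_mem T_sq_mem) ?_
            rw [e1, SL_mul_apply, SL_mul_apply]; simp only [mkSL_00, mkSL_01, mkSL_10, mkSL_11]
            omega
          · refine step _ hT T_sq_mem ?_
            rw [T_sq_apply, SL_mul_apply, SL_mul_apply]
            simp only [mkSL_00, mkSL_01, mkSL_10, mkSL_11]
            omega
        · by_cases hs : (0 < γ 1 0 ↔ 0 < γ 1 1)
          · refine step _ (inv_mem hU) (inv_mem U2_mem) ?_
            rw [e2, SL_mul_apply, SL_mul_apply]; simp only [mkSL_00, mkSL_01, mkSL_10, mkSL_11]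
            omega
          · refine step _ hU U2_mem ?_
            rw [e3, SL_mul_apply, SL_mul_apply]; simp only [mkSL_00, mkSL_01, mkSL_10, mkSL_11]
            omega
  exact fun γ hγ => key _ γ hγ rfl

theorem gamma2_induction {P : SL(2, ℤ) → Prop} (h1 : P (-1)) (hT : P (T ^ 2)) (hU : P U2)
    (mul : ∀ γ ∈ Gamma 2, ∀ γ' ∈ Gamma 2, P γ → P γ' → P (γ * γ'))
    (inv : ∀ γ ∈ Gamma 2, P γ → P γ⁻¹) : ∀ γ ∈ Gamma 2, P γ := by
  intro γ hγ
  refine (Subgroup.closure_induction (p := fun γ _ => γ ∈ Gamma 2 ∧ P γ) ?_ ?_ ?_ ?_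
    (gamma2_le hγ)).2
  · rintro x (rfl | rfl | rfl)
    exacts [⟨neg_one_mem, h1⟩, ⟨T_sq_mem, hT⟩, ⟨U2_mem, hU⟩]
  · exact ⟨one_mem _, by simpa using mul _ neg_one_mem _ neg_one_mem h1 h1⟩
  · exact fun x y _ _ hx hy => ⟨mul_mem hx.1 hy.1, mul _ hx.1 _ hy.1 hx.2 hy.2⟩
  · exact fun x _ hx => ⟨inv_mem hx.1, inv _ hx.1 hx.2⟩

theorem U2_eq : U2 = -1 * (S * (T ^ 2)⁻¹ * S) := by
  decide

theorem S_sq : S * S = -1 := by
  decide

theorem theta_coset (δ : SL(2, ℤ)) :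
    ∃ σ ∈ ({1, T, T * S} : Set SL(2, ℤ)), σ * δ ∈ Subgroup.closure ({S, T ^ 2} : Set SL(2, ℤ)) := by
  set H := Subgroup.closure ({S, T ^ 2} : Set SL(2, ℤ))
  have hS : S ∈ H := Subgroup.subset_closure (by simp)
  have hT : T ^ 2 ∈ H := Subgroup.subset_closure (by simp)
  have h1 : (-1 : SL(2, ℤ)) ∈ H := S_sq ▸ mul_mem hS hS
  have hle : ∀ γ ∈ Gamma 2, γ ∈ H := gamma2_induction h1 hT
    (U2_eq ▸ mul_mem h1 (mul_mem (mul_mem hS (inv_mem hT)) hS))
    (fun _ _ _ _ => mul_mem) fun _ _ => inv_mem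
  have hle' : ∀ γ : SL(2, ℤ), Even (γ 0 0) → Even (γ 1 1) → γ ∈ H := fun γ ha hd => by
    have : S * γ ∈ Gamma 2 := by
      rw [mem_gamma2, SL_mul_apply, SL_mul_apply]; simp [S, ha, hd]
    simpa using mul_mem (inv_mem hS) (hle _ this)
  have hdet := det_SL δ
  have hp : Odd (δ 0 0 * δ 1 1 - δ 0 1 * δ 1 0) := by rw [hdet]; exact odd_one
  rw [← Int.not_even_iff_odd, Int.even_sub, Int.even_mul, Int.even_mul] at hp
  have eT : ∀ k, (T * δ) 0 k = δ 0 k + δ 1 k ∧ (T * δ) 1 k = δ 1 k := fun k => by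
    rw [SL_mul_apply, SL_mul_apply]; simp [T]
  have eS : ∀ k, (T * S * δ) 0 k = δ 0 k - δ 1 k ∧ (T * S * δ) 1 k = δ 0 k := fun k => by
    rw [show T * S = mkSL 1 (-1) 1 0 (by norm_num) by decide, SL_mul_apply, SL_mul_apply]
    simp [sub_eq_add_neg]
  by_cases hc : Even (δ 1 0)
  · by_cases hb : Even (δ 0 1)
    · exact ⟨1, by simp, by simpa using hle _ (mem_gamma2.2 ⟨hb, hc⟩)⟩
    · refine ⟨T, by simp, hle _ (mem_gamma2.2 ?_)⟩
      rw [(eT 1).1, (eT 0).2, Int.even_add]; tauto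
  · by_cases hd : Even (δ 1 1)
    · by_cases ha : Even (δ 0 0)
      · exact ⟨1, by simp, by simpa using hle' _ ha hd⟩
      · refine ⟨T, by simp, hle' _ ?_ ?_⟩
        · rw [(eT 0).1, Int.even_add]; tauto
        · rw [(eT 1).2]; exact hd
    · by_cases ha : Even (δ 0 0)
      · refine ⟨T * S, by simp, hle _ (mem_gamma2.2 ?_)⟩
        rw [(eS 1).1, (eS 0).2, Int.even_sub]; tauto
      · refine ⟨T * S, by simp, hle' _ ?_ ?_⟩
        · rw [(eS 0).1, Int.even_sub]; tauto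
        · rw [(eS 1).2]; tauto

theorem jac_periodic {D : ℕ} (hD : 0 < D) {d d' : ℤ} (hd : Odd d) (h : (4 * D : ℤ) ∣ d' - d) :
    jacobiSym D d'.natAbs = jacobiSym D d.natAbs := by
  have hd' : Odd d' := by
    obtain ⟨k, hk⟩ := h
    have : d' = 2 * (2 * D * k) + d := by linarith
    rw [this]; exact (even_two_mul _).add_odd hd
  have A : ∀ m n : ℕ, Odd m → Odd n → (4 * D : ℤ) ∣ (m : ℤ) - n →
      jacobiSym D m = jacobiSym D n := fun m n hm hn h => by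
    rw [jacobiSym.mod_right _ hm, jacobiSym.mod_right _ hn]
    congr 1
    exact ((Nat.modEq_iff_dvd (n := 4 * D)).2 (by simpa using h)).symm
  have h0 : 4 * D - 1 ≠ 0 := by omega
  have hc : ((4 * D - 1 : ℕ) : ℤ) = 4 * D - 1 := by omega
  have ho : Odd (4 * D - 1) := ⟨2 * D - 1, by omega⟩
  have h1 : jacobiSym D (4 * D - 1) = 1 := by
    have e : jacobiSym (4 * D) (4 * D - 1) = jacobiSym 1 (4 * D - 1) :=
      jacobiSym.mod_left' (by
        rw [hc]; exact (Int.emod_emod_of_dvd _ dvd_rfl).symm.trans (by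
          have : (4 * D : ℤ) = 1 + (4 * D - 1) := by ring
          rw [Int.emod_emod_of_dvd _ dvd_rfl]
          nth_rewrite 1 [this]; exact Int.add_emod_right _ _))
    rwa [jacobiSym.mul_left, jacobiSym.at_four ho, jacobiSym.one_left, one_mul] at e
  have B : ∀ m n : ℕ, Odd m → Odd n → (4 * D : ℤ) ∣ (m : ℤ) + n →
      jacobiSym D m = jacobiSym D n := fun m n hm hn h => by
    rw [A m (n * (4 * D - 1)) hm (hn.mul ho) (by
      push_cast; rw [hc]
      have : (m : ℤ) - n * (4 * D - 1) = m + n - 4 * D * n := by ring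
      rw [this]; exact h.sub (dvd_mul_right _ _)),
      jacobiSym.mul_right' _ hn.pos.ne' h0, h1, mul_one]
  have o1 := Int.natAbs_odd.2 hd
  have o2 := Int.natAbs_odd.2 hd'
  rcases Int.natAbs_eq d with e | e <;> rcases Int.natAbs_eq d' with e' | e'
  · exact A _ _ o2 o1 (by rwa [← e, ← e'])
  · exact B _ _ o2 o1 (by rw [← dvd_neg, show -((d'.natAbs : ℤ) + d.natAbs) = d' - d by omega]; exact h)
  · exact B _ _ o2 o1 (by convert h using 1; linarith)
  · exact A _ _ o2 o1 (by rw [← dvd_neg, show -((d'.natAbs : ℤ) - d.natAbs) = d' - d by omega]; exact h)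

end Pool.Agent.Lib.MP_e6abdd_an
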