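import Pool.Agent.Lib.MP_e6abdd_an.RSB

/-!
A lower bound for the mean square of Fourier coefficients.
-/

namespace Pool.Agent.Lib.MP_e6abdd_an

open Complex hiding Gamma
open UpperHalfPlane hiding I
open MeasureTheory Filter Topology CongruenceSubgroup
open scoped Real MatrixGroups ComplexConjugate

/-- An automorphic function whose Fourier coefficients are the dilates of two functions. -/
structure RSH (N : ℕ) (a : ℕ → ℂ) (Ψ : ℍ → ℂ) : Prop where
  cont : Continuous Ψ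
  aut : ∃ (M : ℕ) (l : ℂ → ℂ), 0 < M ∧ (∀ z, ‖l z‖ = 1) ∧ ∀ γ ∈ Gamma M, ∀ z : ℍ,
    Ψ (γ • z) = l (γ 1 0 * (z : ℂ) + γ 1 1) * Ψ z
  per : ∀ z, Ψ (aff 1 1 z) = Ψ z
  coef : ∀ s : ℤ, s = 1 ∨ s = -1 → ∀ m : ℕ, Nat.Coprime m N → 0 < m → ∀ r, 0 < r →
    fc 1 Ψ (s * m) r = a m * fc 1 Ψ s (m * r)
  bdd : ∀ δ > 0, ∃ B, ∀ z : ℍ, δ ≤ z.im → ‖Ψ z‖ ≤ B
  ne : ∃ s : ℤ, (s = 1 ∨ s = -1) ∧ ∃ r, 0 < r ∧ fc 1 Ψ s r ≠ 0

theorem RSH.not_summable {N : ℕ} (hN : 0 < N) {a : ℕ → ℂ} {Ψ : ℍ → ℂ} (h : RSH N a Ψ) :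
    ¬ Summable fun m : ℕ => if Nat.Coprime m N then ‖a m‖ ^ 2 else 0 := by
  classical
  intro hs
  obtain ⟨M, l, hM, hl, hcov⟩ := h.aut
  have hcov : RsCov M l Ψ := hcov
  have hK : 1 < 2 * N := by omega
  have : NeZero (2 * N) := ⟨by omega⟩
  have : Fact (1 < 2 * N) := ⟨hK⟩
  set Ψ₀ : ℍ → ℂ := fun z => ∑ r ∈ Finset.univ.filter (fun r : ZMod (2 * N) => IsUnit r),
    1 * rsPi (2 * N) 1 Ψ r z with hΨ₀
  have c0 : Continuous Ψ₀ :=
    continuous_finsetSum _ fun r _ => continuous_const.mul (continuous_rsPi h.cont r)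
  have per0 : ∀ z, Ψ₀ (aff 1 1 z) = Ψ₀ z := fun z => by simp only [hΨ₀, rsPi_per h.per]
  have hM' : 0 < M * (2 * N) ^ 2 := by positivity
  have cov0 : RsCov (M * (2 * N) ^ 2) l Ψ₀ := fun γ hγ z => by
    simp only [hΨ₀, Finset.mul_sum]
    exact Finset.sum_congr rfl fun r _ => by rw [rsPi_cov hcov r γ hγ z]; ring
  have fc0 : ∀ (n : ℤ) y, 0 < y →
      fc 1 Ψ₀ n y = if IsUnit (n : ZMod (2 * N)) then fc 1 Ψ n y else 0 := fun n y hy => by
    rw [hΨ₀, rs_fc_sum _ _ (continuous_rsPi h.cont) 1 n hy]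
    simp only [fc_rsPi h.cont h.per _ n hy, one_mul, mul_one]
    rw [Finset.sum_ite_eq]
    simp
  let α : ℕ → ℝ := fun m => if Nat.Coprime m (2 * N) then ‖a m‖ ^ 2 else 0
  have hα : ∀ m, 0 ≤ α m := fun m => by simp only [α]; positivity
  have hα0 : α 0 = 0 := if_neg (by rw [Nat.coprime_zero_left]; omega)
  have hαs : Summable α := by
    refine hs.of_nonneg_of_le hα fun m => ?_
    simp only [α]
    split_ifs with h1 h2
    · exact le_rfl
    · exact (h2 (h1.coprime_mul_left_right)).elim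
    · positivity
    · exact le_rfl
  let H : ℝ → ℝ := fun y => ‖fc 1 Ψ 1 y‖ ^ 2 + ‖fc 1 Ψ (-1) y‖ ^ 2
  have hH0 : ∀ y, 0 ≤ H y := fun y => by positivity
  have hHc : ContinuousOn H (Set.Ioi 0) := (rs_fc_cont h.cont 1).add (rs_fc_cont h.cont (-1))
  have hHB : ∀ δ > 0, ∃ B, ∀ y, δ ≤ y → H y ≤ B := fun δ hδ => by
    obtain ⟨B, hB⟩ := h.bdd δ hδ
    have : ∀ (n : ℤ) y, δ ≤ y → ‖fc 1 Ψ n y‖ ^ 2 ≤ B ^ 2 := fun n y hy => by
      refine pow_le_pow_left₀ (norm_nonneg _) ?_ 2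
      simp only [fc, ofReal_one, inv_one, one_mul]
      refine (intervalIntegral.norm_integral_le_of_norm_le_const (C := B) fun x _ => ?_).trans
        (by simp)
      have e : ‖cexp (-(2 * π * I * n * x / 1))‖ = 1 := by rw [norm_exp]; simp
      rw [norm_mul, e, mul_one]
      exact hB _ (by rw [pt_im x (hδ.trans_le hy)]; exact hy)
    exact ⟨B ^ 2 + B ^ 2, fun y hy => add_le_add (this _ y hy) (this _ y hy)⟩
  have hP : ∀ y, 0 < y → HasSum (fun m : ℕ => α m * H (m * y)) (rsMs Ψ₀ y) := fun y hy => by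
    have h1 := (rsMs_hasSum c0 hy).nat_add_neg
    rw [fc0 0 y hy, if_neg (by simp), norm_zero, zero_pow two_ne_zero, add_zero] at h1
    convert h1 using 2 with m
    rw [fc0 _ y hy, fc0 _ y hy]
    simp only [α, H, Int.cast_neg, IsUnit.neg_iff, Int.cast_natCast, ZMod.isUnit_iff_coprime]
    split_ifs with h2
    · have hm : 0 < m := Nat.pos_of_ne_zero (by
        rintro rfl
        rw [Nat.coprime_zero_left] at h2; omega)
      have e1 := h.coef 1 (Or.inl rfl) m h2.coprime_mul_left_right hm y hy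
      have e2 := h.coef (-1) (Or.inr rfl) m h2.coprime_mul_left_right hm y hy
      rw [one_mul] at e1
      rw [neg_one_mul] at e2
      rw [e1, e2, norm_mul, norm_mul]; ring
    · simp
  have hU : ∀ Y, 0 < Y → HasSum (fun m : ℕ => α m * win H (m * Y)) (win (rsMs Ψ₀) Y) :=
    fun Y hY => by
    obtain ⟨B, hB⟩ := hHB Y hY
    have h1 := intervalIntegral.hasSum_integral_of_dominated_convergence (μ := volume) (a := 1)
      (b := 3) (F := fun (m : ℕ) t => α m * (tent t • H (m * Y * t)))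
      (f := fun t => tent t • rsMs Ψ₀ (Y * t)) (fun m _ => α m * B) (fun m => ?_) (fun m => ?_)
      (Eventually.of_forall fun _ _ => hαs.mul_right B) intervalIntegrable_const ?_
    · simp only [intervalIntegral.integral_const_mul] at h1
      exact h1
    · rcases Nat.eq_zero_or_pos m with rfl | hm
      · simp only [hα0, zero_mul]; exact aestronglyMeasurable_const
      · have hm' : 0 < m * Y := mul_pos (by exact_mod_cast hm) hY
        exact ((rs_int hHc hm').const_mul (α m)).def'.aestronglyMeasurable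
    · refine Eventually.of_forall fun t ht => ?_
      rw [Set.uIoc_of_le (by norm_num)] at ht
      rcases Nat.eq_zero_or_pos m with rfl | hm
      · simp [hα0]
      · have hm' : (1 : ℝ) ≤ m := by exact_mod_cast hm
        have h2 : Y ≤ m * Y * t := by nlinarith [ht.1, mul_le_mul_of_nonneg_right hm' hY.le]
        rw [smul_eq_mul, Real.norm_of_nonneg
          (mul_nonneg (hα m) (mul_nonneg (rs_tent_nonneg t) (hH0 _)))]
        refine mul_le_mul_of_nonneg_left ?_ (hα m)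
        nlinarith [hB _ h2, hH0 (m * Y * t), rs_tent_le t, rs_tent_nonneg t]
    · refine Eventually.of_forall fun t ht => ?_
      rw [Set.uIoc_of_le (by norm_num)] at ht
      have := (hP (Y * t) (mul_pos hY (by linarith [ht.1]))).mul_left (tent t)
      have e : (fun m : ℕ => α m * (tent t • H (m * Y * t))) =
          fun m : ℕ => tent t * (α m * H (m * (Y * t))) := funext fun m => by
        rw [smul_eq_mul, mul_assoc (m : ℝ)]; ring
      rw [e]
      exact this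
  have hf : ∀ T, 0 < T → BC (fun τ => chi T τ * Ψ₀ τ) ∧
      RsCov (M * (2 * N) ^ 2) l (fun τ => chi T τ * Ψ₀ τ) ∧
      ∀ z, chi T (aff 1 1 z) * Ψ₀ (aff 1 1 z) = chi T z * Ψ₀ z := fun T hT => by
    obtain ⟨B, hB⟩ := bdd_of_inv hM' c0.norm
      (fun γ hγ τ => by rw [cov0 γ hγ, norm_mul, hl, one_mul]) (2 * T)
    refine ⟨⟨(continuous_ofReal.comp (continuous_chi hT)).mul c0, max B 0, fun τ => ?_⟩,
      fun γ hγ z => ?_, fun z => ?_⟩
    · by_cases h1 : chi T τ = 0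
      · simp [h1]
      · rw [norm_mul, norm_real, Real.norm_of_nonneg (chi_nonneg T τ)]
        have := hB τ fun c d hcd => hgt_le_of_chi hT h1 hcd
        refine le_trans ?_ (le_max_left _ _)
        nlinarith [chi_le_one T τ, chi_nonneg T τ, norm_nonneg (Ψ₀ τ)]
    · simp only [chi_smul, cov0 γ hγ z]; ring
    · have := T_zpow_smul 1 z
      rw [Int.cast_one] at this
      rw [per0, ← this, chi_smul]
  have tU : Tendsto (win (rsMs Ψ₀)) (𝓝[>] 0) (𝓝 0) := by
    refine rs_boot hα hα0 hαs (fun Y hY => rs_win_nonneg hY fun y _ => hH0 y)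
      (fun δ hδ => ?_) hU fun θ hθ ε hε => ?_
    · obtain ⟨B, hB⟩ := hHB δ hδ
      refine ⟨B, fun Y hY => ?_⟩
      rw [← win_const B Y]
      exact rs_win_mono hHc continuousOn_const (hδ.trans_le hY) fun y hy => hB y (hY.trans hy.1)
    obtain ⟨C, hC, hcut⟩ := rs_cut
    obtain ⟨T, hT1, hT2⟩ : ∃ T : ℝ, 3 ≤ T ∧ T ^ (-(5 / 8) : ℝ) < θ / (4 * C) :=
      ((eventually_ge_atTop 3).and ((tendsto_rpow_neg_atTop (by norm_num)).eventually
        (gt_mem_nhds (by positivity)))).exists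
    obtain ⟨f1, f2, f3⟩ := hf T (by linarith)
    have c1 : ∀ s : ℤ, ContinuousOn (fun y => 2 * ‖fc 1 (fun τ => chi T τ * Ψ₀ τ) s y‖ ^ 2)
      (Set.Ioi 0) := fun s => continuousOn_const.mul (rs_fc_cont f1.cont s)
    have c2 : ContinuousOn (fun y => 2 * ‖fc 1 (fun τ => chi T τ * Ψ₀ τ) 1 y‖ ^ 2 +
      2 * ‖fc 1 (fun τ => chi T τ * Ψ₀ τ) (-1) y‖ ^ 2) (Set.Ioi 0) := (c1 1).add (c1 (-1))
    have c3 : ContinuousOn (fun y => θ * rsMs Ψ₀ y) (Set.Ioi 0) :=
      continuousOn_const.mul (rsMs_cont c0)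
    filter_upwards [Ioo_mem_nhdsGT one_pos,
      rs_small f2 hM' hl f1 f3 (Or.inl rfl) (show 0 < ε / 4 by positivity),
      rs_small f2 hM' hl f1 f3 (Or.inr rfl) (show 0 < ε / 4 by positivity)] with Y hY h1 h2
    have h3 := rs_win_mono hHc (b := fun y => 2 * ‖fc 1 (fun τ => chi T τ * Ψ₀ τ) 1 y‖ ^ 2 +
        2 * ‖fc 1 (fun τ => chi T τ * Ψ₀ τ) (-1) y‖ ^ 2 + θ * rsMs Ψ₀ y)
      (c2.add c3) hY.1 fun y hy => by
      have hy0 : 0 < y := hY.1.trans_le hy.1
      have hyT : y ≤ T := by linarith [hy.2, hY.2]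
      have key : ∀ s : ℤ, IsUnit (s : ZMod (2 * N)) → ‖fc 1 Ψ s y‖ ^ 2 ≤
          2 * ‖fc 1 (fun τ => chi T τ * Ψ₀ τ) s y‖ ^ 2 + θ / 2 * rsMs Ψ₀ y := fun s hu => by
        have e1 := hcut c0 hy0 hyT s
        rw [fc0 s y hy0, if_pos hu] at e1
        have e2 := norm_le_norm_add_norm_sub' (fc 1 Ψ s y) (fc 1 (fun τ => chi T τ * Ψ₀ τ) s y)
        have e3 : C * T ^ (-(5 / 8) : ℝ) ≤ θ / 4 := by
          rw [lt_div_iff₀ (by positivity)] at hT2; linarith
        have e4 := mul_le_mul_of_nonneg_right e3 (rsMs_nonneg Ψ₀ y)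
        have e5 := pow_le_pow_left₀ (norm_nonneg _) e2 2
        nlinarith [sq_nonneg (‖fc 1 (fun τ => chi T τ * Ψ₀ τ) s y‖ -
          ‖fc 1 Ψ s y - fc 1 (fun τ => chi T τ * Ψ₀ τ) s y‖)]
      have k1 := key 1 (by simp)
      have k2 := key (-1) (by simp)
      simp only [H]
      linarith
    rw [rs_win_add c2 c3 hY.1, rs_win_add (c1 1) (c1 (-1)) hY.1, rs_win_mul, rs_win_mul,
      rs_win_mul] at h3
    linarith
  have hz : ∀ τ, Ψ₀ τ = 0 := fun τ => by
    obtain ⟨T, hT, h1⟩ := ((eventually_gt_atTop 0).and (eventually_chi τ)).exists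
    obtain ⟨f1, f2, f3⟩ := hf T hT
    have ll : LL fun τ => conj (chi T τ * Ψ₀ τ) * (chi T τ * Ψ₀ τ) := ⟨_, f2.lev hM' hl f1⟩
    have h2 : rsMu (fun τ => chi T τ * Ψ₀ τ) ≤ 0 := by
      refine le_of_tendsto_of_tendsto (rs_tendsto ll f3) tU ?_
      filter_upwards [self_mem_nhdsWithin] with Y hY
      refine rs_win_mono (rsMs_cont f1.cont) (rsMs_cont c0) hY fun y hy => ?_
      have hy0 : 0 < y := lt_of_lt_of_le hY hy.1
      refine intervalIntegral.integral_mono_on zero_le_one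
        (((f1.cont.comp (continuous_pt hy0)).norm.pow 2).intervalIntegrable _ _)
        (((c0.comp (continuous_pt hy0)).norm.pow 2).intervalIntegrable _ _) fun x _ => ?_
      refine pow_le_pow_left₀ (norm_nonneg _) ?_ 2
      rw [norm_mul, norm_real, Real.norm_of_nonneg (chi_nonneg T _)]
      exact mul_le_of_le_one_left (norm_nonneg _) (chi_le_one T _)
    have h3 := eq_zero_of_mean ll (fun τ => by rw [conj_mul', ← ofReal_pow, ofReal_re]; positivity)
      h2 τ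
    rw [conj_mul', ← ofReal_pow, ofReal_re, h1] at h3
    simpa using h3
  obtain ⟨s, hs, r, hr, hne⟩ := h.ne
  have := fc0 s r hr
  rw [if_pos (by rcases hs with rfl | rfl <;> simp)] at this
  apply hne
  rw [← this]
  simp [fc, hz]

end Pool.Agent.Lib.MP_e6abdd_an
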