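import Pool.Agent.Lib.MP_e6abdd_an.Mean
import Pool.Agent.Lib.MP_e6abdd_an.Maj

/-!
Projections on residue classes of frequencies.
-/

namespace Pool.Agent.Lib.MP_e6abdd_an

open Complex hiding Gamma
open UpperHalfPlane hiding I
open MeasureTheory Filter Topology CongruenceSubgroup
open scoped Real MatrixGroups ComplexConjugate

noncomputable section

/-- Covariance under `Γ(M)` with the factor `l`. -/
def RsCov (M : ℕ) (l : ℂ → ℂ) (f : ℍ → ℂ) : Prop :=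
  ∀ γ ∈ Gamma M, ∀ z : ℍ, f (γ • z) = l (γ 1 0 * (z : ℂ) + γ 1 1) * f z

theorem rs_mem_gamma {M : ℕ} {γ : SL(2, ℤ)} : γ ∈ Gamma M ↔ (M : ℤ) ∣ γ 0 0 - 1 ∧
    (M : ℤ) ∣ γ 0 1 ∧ (M : ℤ) ∣ γ 1 0 ∧ (M : ℤ) ∣ γ 1 1 - 1 := by
  rw [Gamma_mem, ← ZMod.intCast_zmod_eq_zero_iff_dvd, ← ZMod.intCast_zmod_eq_zero_iff_dvd,
    ← ZMod.intCast_zmod_eq_zero_iff_dvd, ← ZMod.intCast_zmod_eq_zero_iff_dvd]
  push_cast
  simp only [sub_eq_zero]

theorem rs_det (γ : SL(2, ℤ)) : γ 0 0 * γ 1 1 - γ 0 1 * γ 1 0 = 1 := by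
  have := γ.det_coe
  rwa [Matrix.det_fin_two] at this

theorem rs_denom (γ : SL(2, ℤ)) (z : ℍ) : (γ 1 0 * (z : ℂ) + γ 1 1) ≠ 0 :=
  denom_ne ⟨-γ 0 1, γ 0 0, by linear_combination rs_det γ⟩ z

theorem RsCov.conj {M : ℕ} {l : ℂ → ℂ} {f : ℍ → ℂ} (h : RsCov M l f) (γ : SL(2, ℤ)) {x x' : ℝ}
    {a b d : ℤ} (ha : (a : ℝ) = γ 0 0 + γ 1 0 * x) (hd : (d : ℝ) = γ 1 1 - γ 1 0 * x')
    (hb : (b : ℝ) = γ 0 1 + γ 1 1 * x - γ 0 0 * x' - γ 1 0 * x * x')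
    (h1 : (M : ℤ) ∣ a - 1) (h2 : (M : ℤ) ∣ b) (h3 : (M : ℤ) ∣ γ 1 0) (h4 : (M : ℤ) ∣ d - 1)
    (z : ℍ) : f (aff 1 x (γ • z)) = l (γ 1 0 * (z : ℂ) + γ 1 1) * f (aff 1 x' z) := by
  have hdet : (γ 0 0 : ℝ) * γ 1 1 - γ 0 1 * γ 1 0 = 1 := by exact_mod_cast rs_det γ
  have hdet' : a * d - b * γ 1 0 = 1 := by
    have : (a : ℝ) * d - b * γ 1 0 = 1 := by rw [ha, hb, hd]; linear_combination hdet
    exact_mod_cast this
  let g : SL(2, ℤ) := ⟨!![a, b; γ 1 0, d], by rw [Matrix.det_fin_two_of]; exact hdet'⟩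
  have g00 : g 0 0 = a := rfl
  have g01 : g 0 1 = b := rfl
  have g10 : g 1 0 = γ 1 0 := rfl
  have g11 : g 1 1 = d := rfl
  have hg : g ∈ Gamma M := rs_mem_gamma.2 ⟨h1, h2, h3, h4⟩
  have ha' : (a : ℂ) = γ 0 0 + γ 1 0 * x := by exact_mod_cast congrArg ofReal ha
  have hb' : (b : ℂ) = γ 0 1 + γ 1 1 * x - γ 0 0 * x' - γ 1 0 * x * x' := by
    exact_mod_cast congrArg ofReal hb
  have hd' : (d : ℂ) = γ 1 1 - γ 1 0 * x' := by exact_mod_cast congrArg ofReal hd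
  have e1 : (g 1 0 * ((aff 1 x' z : ℍ) : ℂ) + g 1 1) = γ 1 0 * (z : ℂ) + γ 1 1 := by
    rw [g10, g11, coe_aff one_pos, hd']; push_cast; ring
  have e2 : aff 1 x (γ • z) = g • aff 1 x' z := by
    apply UpperHalfPlane.ext
    rw [coe_SL_smul g, e1, coe_aff one_pos, coe_SL_smul, g00, g01, coe_aff one_pos, ha', hb']
    rw [eq_div_iff (rs_denom γ z), add_mul, mul_assoc, div_mul_cancel₀ _ (rs_denom γ z)]
    push_cast; ring
  rw [e2, h g hg, e1]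

theorem RsCov.mono {M M' : ℕ} {l : ℂ → ℂ} {f : ℍ → ℂ} (h : RsCov M l f) (hM : M ∣ M') :
    RsCov M' l f := fun γ hγ z => by
  obtain ⟨h1, h2, h3, h4⟩ := rs_mem_gamma.1 hγ
  have : (M : ℤ) ∣ M' := Int.natCast_dvd_natCast.2 hM
  exact h γ (rs_mem_gamma.2 ⟨this.trans h1, this.trans h2, this.trans h3, this.trans h4⟩) z

theorem RsCov.trans {M : ℕ} {l : ℂ → ℂ} {f : ℍ → ℂ} (h : RsCov M l f) {K : ℕ} (hK : 0 < K)
    (i : ℤ) : RsCov (M * K ^ 2) l fun z => f (aff 1 (i / K) z) := fun γ hγ z => by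
  obtain ⟨⟨a0, h1⟩, ⟨b0, h2⟩, ⟨c0, h3⟩, ⟨d0, h4⟩⟩ := rs_mem_gamma.1 hγ
  have hK' : (K : ℝ) ≠ 0 := by positivity
  have h1' : γ 0 0 = 1 + M * K ^ 2 * a0 := by push_cast at h1; linear_combination h1
  have h4' : γ 1 1 = 1 + M * K ^ 2 * d0 := by push_cast at h4; linear_combination h4
  push_cast at h2 h3
  refine h.conj γ (a := γ 0 0 + M * K * c0 * i) (d := γ 1 1 - M * K * c0 * i)
    (b := γ 0 1 + M * K * (d0 - a0) * i - M * c0 * i ^ 2) ?_ ?_ ?_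
    ⟨K ^ 2 * a0 + K * c0 * i, by rw [h1']; ring⟩
    ⟨K ^ 2 * b0 + K * (d0 - a0) * i - c0 * i ^ 2, by rw [h2]; ring⟩
    ⟨K ^ 2 * c0, by rw [h3]; ring⟩ ⟨K ^ 2 * d0 - K * c0 * i, by rw [h4']; ring⟩ z
  · rw [h3]; push_cast; field_simp
  · rw [h3]; push_cast; field_simp
  · rw [h3, h1', h4']; push_cast; field_simp; ring

theorem rs_per_int {f : ℍ → ℂ} (per : ∀ z, f (aff 1 1 z) = f z) (n : ℤ) (z : ℍ) :
    f (aff 1 n z) = f z := by
  induction n using Int.induction_on generalizing z with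
  | zero => simp [aff_one_zero]
  | succ n ih =>
    rw [← ih z, ← per (aff 1 ((n : ℤ) : ℝ) z), aff_aff one_pos one_pos]; push_cast; ring_nf
  | pred n ih =>
    rw [← ih z, ← per (aff 1 _ z), aff_aff one_pos one_pos]; push_cast; ring_nf

theorem rs_per_aff {f : ℍ → ℂ} (per : ∀ z, f (aff 1 1 z) = f z) (x : ℝ) (z : ℍ) :
    f (aff 1 x (aff 1 1 z)) = f (aff 1 x z) := by
  rw [← per (aff 1 x z), aff_aff one_pos one_pos, aff_aff one_pos one_pos]; ring_nf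

/-- The translate of `f` by `m i / K`. -/
def rsTr (K : ℕ) (m : ℤ) (f : ℍ → ℂ) (i : ZMod K) (z : ℍ) : ℂ :=
  f (aff 1 (((m * i.val : ℤ) : ℝ) / K) z)

theorem rsTr_intCast {K : ℕ} [NeZero K] (m : ℤ) {f : ℍ → ℂ} (per : ∀ z, f (aff 1 1 z) = f z)
    (j : ℤ) (z : ℍ) : rsTr K m f (j : ZMod K) z = f (aff 1 (((m * j : ℤ) : ℝ) / K) z) := by
  have hK : (K : ℝ) ≠ 0 := by exact_mod_cast NeZero.ne K
  have : ((((j : ZMod K).val : ℤ) : ZMod K)) = j := by simp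
  obtain ⟨t, ht⟩ := (ZMod.intCast_eq_intCast_iff_dvd_sub _ _ _).1 this
  rw [rsTr, ← rs_per_int per (m * t) (aff 1 _ z), aff_aff one_pos one_pos]
  congr 2
  · ring
  · have : (j : ℝ) = ((j : ZMod K).val : ℤ) + K * t := by
      have : j = ((j : ZMod K).val : ℤ) + K * t := by linear_combination ht
      exact_mod_cast this
    rw [Int.cast_mul, Int.cast_mul, Int.cast_mul, this]
    field_simp

/-- The projection on the frequencies `n` with `n m = r` modulo `K`. -/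
def rsPi (K : ℕ) [NeZero K] (m : ℤ) (f : ℍ → ℂ) (r : ZMod K) (z : ℍ) : ℂ :=
  ∑ i : ZMod K, ((K : ℂ)⁻¹ * ZMod.stdAddChar (-(i * r))) * rsTr K m f i z

theorem rs_fc_sum {ι : Type} (s : Finset ι) (c : ι → ℂ) {f : ι → ℍ → ℂ}
    (hf : ∀ i, Continuous (f i)) (P : ℝ) (n : ℤ) {y : ℝ} (hy : 0 < y) :
    fc P (fun z => ∑ i ∈ s, c i * f i z) n y = ∑ i ∈ s, c i * fc P (f i) n y := by
  simp only [fc, Finset.sum_mul]
  rw [intervalIntegral.integral_finsetSum, Finset.mul_sum]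
  · refine Finset.sum_congr rfl fun i _ => ?_
    simp only [mul_assoc]
    rw [intervalIntegral.integral_const_mul]; ring
  · intro i _
    have := (hf i).comp (continuous_pt hy)
    exact Continuous.intervalIntegrable (by
      refine (continuous_const.mul this).mul ?_
      fun_prop) _ _

section
variable {K : ℕ} [NeZero K] {m : ℤ} {f : ℍ → ℂ}

omit [NeZero K] in
theorem continuous_rsTr (hf : Continuous f) (i : ZMod K) : Continuous (rsTr K m f i) :=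
  hf.comp (continuous_aff one_pos _)

theorem continuous_rsPi (hf : Continuous f) (r : ZMod K) : Continuous (rsPi K m f r) :=
  continuous_finsetSum _ fun i _ => continuous_const.mul (continuous_rsTr hf i)

theorem rsPi_per (per : ∀ z, f (aff 1 1 z) = f z) (r : ZMod K) (z : ℍ) :
    rsPi K m f r (aff 1 1 z) = rsPi K m f r z := by
  simp only [rsPi, rsTr, rs_per_aff per]

theorem rsPi_cov {M : ℕ} {l : ℂ → ℂ} (h : RsCov M l f) (r : ZMod K) :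
    RsCov (M * K ^ 2) l (rsPi K m f r) := fun γ hγ z => by
  simp only [rsPi, rsTr, Finset.mul_sum]
  refine Finset.sum_congr rfl fun i _ => ?_
  have := h.trans (Nat.pos_of_ne_zero (NeZero.ne K)) (m * i.val) γ hγ z
  simp only at this
  rw [this]; ring

theorem rsPi_bc (hf : BC f) (r : ZMod K) : BC (rsPi K m f r) := by
  obtain ⟨B, hB⟩ := hf.bdd
  refine ⟨continuous_rsPi hf.cont r,
    ∑ i : ZMod K, ‖(K : ℂ)⁻¹ * ZMod.stdAddChar (-(i * r))‖ * B, fun z => ?_⟩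
  refine (norm_sum_le _ _).trans (Finset.sum_le_sum fun i _ => ?_)
  rw [norm_mul]
  exact mul_le_mul_of_nonneg_left (hB _) (norm_nonneg _)

theorem fc_rsPi (hf : Continuous f) (per : ∀ z, f (aff 1 1 z) = f z) (r : ZMod K) (n : ℤ)
    {y : ℝ} (hy : 0 < y) :
    fc 1 (rsPi K m f r) n y = if ((n * m : ℤ) : ZMod K) = r then fc 1 f n y else 0 := by
  have hK : (K : ℂ) ≠ 0 := by exact_mod_cast NeZero.ne K
  have e : ∀ i : ZMod K, fc 1 (rsTr K m f i) n y =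
      ZMod.stdAddChar (i * ((n * m : ℤ) : ZMod K)) * fc 1 f n y := fun i => by
    have : i * ((n * m : ℤ) : ZMod K) = (((i.val : ℤ) * (n * m) : ℤ) : ZMod K) := by simp
    rw [this, ZMod.stdAddChar_coe]
    unfold rsTr
    rw [fc_aff one_pos per _ n hy]
    congr 2
    push_cast; ring
  unfold rsPi
  rw [rs_fc_sum _ _ (continuous_rsTr hf) 1 n hy]
  simp only [e]
  have : ∀ i : ZMod K, (K : ℂ)⁻¹ * ZMod.stdAddChar (-(i * r)) *
      (ZMod.stdAddChar (i * ((n * m : ℤ) : ZMod K)) * fc 1 f n y) =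
      (K : ℂ)⁻¹ * fc 1 f n y * ZMod.stdAddChar (i * (((n * m : ℤ) : ZMod K) - r)) := fun i => by
    rw [mul_sub, sub_eq_add_neg, AddChar.map_add_eq_mul]; ring
  simp only [this]
  rw [← Finset.mul_sum, AddChar.sum_mulShift _ (ZMod.isPrimitive_stdAddChar K)]
  simp only [sub_eq_zero, ZMod.card]
  split_ifs
  · field_simp
  · simp

end

/-- The squares trick. -/
theorem rsPi_sq {M Q : ℕ} [Fact Q.Prime] {l : ℂ → ℂ} {f : ℍ → ℂ} (h : RsCov M l f)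
    (per : ∀ z, f (aff 1 1 z) = f z) {d : ℤ} (hd : (M : ℤ) ∣ d - 1) (hQ : IsCoprime d (Q : ℤ)) :
    ∃ γ : SL(2, ℤ), ∀ (r : ZMod Q) (z : ℍ), rsPi Q M f r (γ • z) =
      l (γ 1 0 * (z : ℂ) + γ 1 1) * rsPi Q M f (r * ((d : ZMod Q) ^ 2)⁻¹) z := by
  obtain ⟨e, he⟩ := hd
  have hM : IsCoprime d (M : ℤ) := ⟨1, -e, by linear_combination he⟩
  obtain ⟨a, b0, hab⟩ : IsCoprime d ((M : ℤ) ^ 2 * Q ^ 2) := hM.pow_right.mul_right hQ.pow_right
  let γ : SL(2, ℤ) := ⟨!![a, -b0 * M; M * Q ^ 2, d], by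
    rw [Matrix.det_fin_two_of]; linear_combination hab⟩
  have g00 : γ 0 0 = a := rfl
  have g01 : γ 0 1 = -b0 * M := rfl
  have g10 : γ 1 0 = M * Q ^ 2 := rfl
  have g11 : γ 1 1 = d := rfl
  have hQ0 : (Q : ℝ) ≠ 0 := by exact_mod_cast NeZero.ne Q
  have hd0 : (d : ZMod Q) ≠ 0 := by
    intro h0
    have := hQ.isUnit_of_dvd' ((ZMod.intCast_zmod_eq_zero_iff_dvd _ _).1 h0) dvd_rfl
    rw [Int.isUnit_iff_natAbs_eq] at this
    exact (Fact.out : Q.Prime).one_lt.ne' (by simpa using this)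
  have hd2 : (d : ZMod Q) ^ 2 ≠ 0 := pow_ne_zero _ hd0
  have habr : (a : ℝ) * d + b0 * (M ^ 2 * Q ^ 2) = 1 := by exact_mod_cast hab
  have key : ∀ (i : ZMod Q) (z : ℍ), rsTr Q M f i (γ • z) =
      l (γ 1 0 * (z : ℂ) + γ 1 1) * rsTr Q M f ((d : ZMod Q) ^ 2 * i) z := fun i z => by
    have : (d : ZMod Q) ^ 2 * i = ((d ^ 2 * (i.val : ℤ) : ℤ) : ZMod Q) := by simp
    rw [this, rsTr_intCast _ per, rsTr]
    generalize (i.val : ℤ) = k
    refine h.conj γ (a := a + M ^ 2 * Q * k) (d := d - M ^ 2 * Q * (d ^ 2 * k))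
      (b := -b0 * M + M * (d * k * b0 * M ^ 2 * Q) - M ^ 3 * k * (d ^ 2 * k)) ?_ ?_ ?_
      ⟨-(a * e) - b0 * M * Q ^ 2 + M * Q * k, by linear_combination hab - a * he⟩
      ⟨-b0 + d * k * b0 * M ^ 2 * Q - M ^ 2 * k * (d ^ 2 * k), by ring⟩
      ⟨Q ^ 2, g10⟩ ⟨e - M * Q * (d ^ 2 * k), by linear_combination he⟩ z
    · rw [g00, g10]; push_cast; field_simp
    · rw [g11, g10]; push_cast; field_simp
    · rw [g00, g01, g10, g11]; push_cast; field_simp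
      linear_combination (M * d * k) * habr
  refine ⟨γ, fun r z => ?_⟩
  simp only [rsPi, key]
  rw [← Equiv.sum_comp (Equiv.mulLeft₀ _ hd2)
    (fun i => (Q : ℂ)⁻¹ * ZMod.stdAddChar (-(i * (r * ((d : ZMod Q) ^ 2)⁻¹))) * rsTr Q M f i z),
    Finset.mul_sum]
  refine Finset.sum_congr rfl fun i _ => ?_
  have : (d : ZMod Q) ^ 2 * i * (r * ((d : ZMod Q) ^ 2)⁻¹) = i * r := by field_simp
  rw [Equiv.mulLeft₀_apply, this]; ring

end

end Pool.Agent.Lib.MP_e6abdd_an
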