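import Pool.Agent.Lib.MP_e6abdd_an.RSA

/-!
Mean squares on horocycles.
-/

namespace Pool.Agent.Lib.MP_e6abdd_an

open Complex hiding Gamma
open UpperHalfPlane hiding I
open MeasureTheory Filter Topology CongruenceSubgroup
open scoped Real MatrixGroups ComplexConjugate

noncomputable section

theorem rs_tent_cont : Continuous tent := by unfold tent; fun_prop

theorem rs_tent_nonneg (t : ℝ) : 0 ≤ tent t := le_max_left _ _

theorem rs_tent_le (t : ℝ) : tent t ≤ 1 :=
  max_le zero_le_one (by linarith [abs_nonneg (t - 2)])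

theorem rs_contOn {a : ℝ → ℝ} (ha : ContinuousOn a (Set.Ioi 0)) {Y : ℝ} (hY : 0 < Y) :
    ContinuousOn (fun t => tent t • a (Y * t)) (Set.uIcc 1 3) := by
  refine rs_tent_cont.continuousOn.smul (ha.comp (by fun_prop) fun t ht => ?_)
  rw [Set.uIcc_of_le (by norm_num)] at ht
  exact mul_pos hY (by linarith [ht.1])

theorem rs_int {a : ℝ → ℝ} (ha : ContinuousOn a (Set.Ioi 0)) {Y : ℝ} (hY : 0 < Y) :
    IntervalIntegrable (fun t => tent t • a (Y * t)) volume 1 3 :=
  (rs_contOn ha hY).intervalIntegrable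

theorem rs_win_mono {a b : ℝ → ℝ} (ha : ContinuousOn a (Set.Ioi 0))
    (hb : ContinuousOn b (Set.Ioi 0)) {Y : ℝ} (hY : 0 < Y)
    (h : ∀ y ∈ Set.Icc Y (3 * Y), a y ≤ b y) : win a Y ≤ win b Y :=
  win_mono (rs_int ha hY) (rs_int hb hY) hY h

theorem rs_win_add {a b : ℝ → ℝ} (ha : ContinuousOn a (Set.Ioi 0))
    (hb : ContinuousOn b (Set.Ioi 0)) {Y : ℝ} (hY : 0 < Y) :
    win (fun y => a y + b y) Y = win a Y + win b Y := by
  simp only [win, smul_add]
  exact intervalIntegral.integral_add (rs_int ha hY) (rs_int hb hY)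

theorem rs_win_mul (c : ℝ) (a : ℝ → ℝ) (Y : ℝ) : win (fun y => c * a y) Y = c * win a Y := by
  simp only [win, smul_eq_mul]
  rw [← intervalIntegral.integral_const_mul]
  congr 1; funext t; ring

theorem rs_win_sum {ι : Type} (s : Finset ι) {a : ι → ℝ → ℝ}
    (ha : ∀ i, ContinuousOn (a i) (Set.Ioi 0)) {Y : ℝ} (hY : 0 < Y) :
    win (fun y => ∑ i ∈ s, a i y) Y = ∑ i ∈ s, win (a i) Y := by
  simp only [win, Finset.smul_sum]
  exact intervalIntegral.integral_finsetSum fun i _ => rs_int (ha i) hY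

theorem rs_win_ofReal (a : ℝ → ℝ) (Y : ℝ) : win (fun y => (a y : ℂ)) Y = (win a Y : ℝ) := by
  simp only [win, smul_eq_mul]
  rw [← intervalIntegral.integral_ofReal]
  congr 1; funext t; simp

theorem rs_win_nonneg {a : ℝ → ℝ} {Y : ℝ} (hY : 0 < Y) (h : ∀ y, 0 < y → 0 ≤ a y) :
    0 ≤ win a Y :=
  intervalIntegral.integral_nonneg (by norm_num) fun t ht =>
    mul_nonneg (rs_tent_nonneg t) (h _ (mul_pos hY (by linarith [ht.1])))

/-- The mean square on the horocycle of height `y`. -/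
def rsMs (f : ℍ → ℂ) (y : ℝ) : ℝ := ∫ x in (0 : ℝ)..1, ‖f (pt x y)‖ ^ 2

theorem rs_fc_ms (f : ℍ → ℂ) (y : ℝ) : fc 1 (fun τ => conj (f τ) * f τ) 0 y = rsMs f y := by
  rw [fc, rsMs, ← intervalIntegral.integral_ofReal]
  simp [conj_mul', ofReal_pow]

theorem rsMs_nonneg (f : ℍ → ℂ) (y : ℝ) : 0 ≤ rsMs f y :=
  intervalIntegral.integral_nonneg zero_le_one fun _ _ => by positivity

theorem rsMs_cont {f : ℍ → ℂ} (hf : Continuous f) : ContinuousOn (rsMs f) (Set.Ioi 0) := by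
  have := continuous_re.comp_continuousOn
    (continuousOn_fc (f := fun τ => conj (f τ) * f τ) ((continuous_conj.comp hf).mul hf) 1 0)
  refine this.congr fun y _ => ?_
  simp [rs_fc_ms]

theorem rsMs_hasSum {f : ℍ → ℂ} (hf : Continuous f) {y : ℝ} (hy : 0 < y) :
    HasSum (fun n : ℤ => ‖fc 1 f n y‖ ^ 2) (rsMs f y) := by
  simpa [rsMs] using parseval_norm hf one_pos hy

theorem rs_fc_cont {f : ℍ → ℂ} (hf : Continuous f) (n : ℤ) :
    ContinuousOn (fun y => ‖fc 1 f n y‖ ^ 2) (Set.Ioi 0) :=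
  (continuousOn_fc hf 1 n).norm.pow 2

theorem RsCov.lev {M : ℕ} {l : ℂ → ℂ} {f : ℍ → ℂ} (h : RsCov M l f) (hM : 0 < M)
    (hl : ∀ z, ‖l z‖ = 1) (hf : BC f) : Lev M fun τ => conj (f τ) * f τ := by
  obtain ⟨B, hB⟩ := hf.bdd
  refine ⟨⟨(continuous_conj.comp hf.cont).mul hf.cont, B * B, fun τ => ?_⟩, hM, fun γ hγ τ => ?_⟩
  · rw [norm_mul, norm_conj]
    exact mul_le_mul (hB τ) (hB τ) (norm_nonneg _) ((norm_nonneg _).trans (hB τ))
  · rw [conj_mul', conj_mul', h γ hγ, norm_mul, hl, one_mul]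

/-- The mean square. -/
def rsMu (f : ℍ → ℂ) : ℝ := (mean fun τ => conj (f τ) * f τ).re

theorem rs_tendsto {f : ℍ → ℂ} (h : LL fun τ => conj (f τ) * f τ)
    (per : ∀ z, f (aff 1 1 z) = f z) : Tendsto (win (rsMs f)) (𝓝[>] 0) (𝓝 (rsMu f)) := by
  have := (Complex.continuous_re.tendsto _).comp (h.tendsto_fc one_pos fun τ => by rw [per])
  refine this.congr fun Y => ?_
  have e : fc 1 (fun τ => conj (f τ) * f τ) 0 = fun y => (rsMs f y : ℂ) := funext (rs_fc_ms f)
  rw [Function.comp, e, rs_win_ofReal, ofReal_re]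

/-- A single Fourier coefficient carries no mass in the limit. -/
theorem rs_small {M : ℕ} {l : ℂ → ℂ} {f : ℍ → ℂ} (h : RsCov M l f) (hM : 0 < M)
    (hl : ∀ z, ‖l z‖ = 1) (hf : BC f) (per : ∀ z, f (aff 1 1 z) = f z) {s : ℤ}
    (hs : s = 1 ∨ s = -1) {ε : ℝ} (hε : 0 < ε) :
    ∀ᶠ Y in 𝓝[>] (0 : ℝ), win (fun y => ‖fc 1 f s y‖ ^ 2) Y ≤ ε := by
  classical
  obtain ⟨k, hk⟩ := exists_nat_gt (rsMu f / ε)
  obtain ⟨Q, hQ, hp⟩ := Nat.exists_infinite_primes (M * (1 + M * k) ^ 2 + 1)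
  have : Fact Q.Prime := ⟨hp⟩
  have hM2 : 0 < M * Q ^ 2 := Nat.mul_pos hM (pow_pos hp.pos 2)
  have lev : ∀ r : ZMod Q, Lev (M * Q ^ 2) fun τ => conj (rsPi Q M f r τ) * rsPi Q M f r τ :=
    fun r => (rsPi_cov h r).lev hM2 hl (rsPi_bc hf r)
  have tend : ∀ r : ZMod Q, Tendsto (win (rsMs (rsPi Q M f r))) (𝓝[>] 0)
      (𝓝 (rsMu (rsPi Q M f r))) := fun r => rs_tendsto ⟨_, lev r⟩ (rsPi_per per r)
  let d : ℕ → ℕ := fun e => 1 + M * e
  let r : ℕ → ZMod Q := fun e => ((s * M : ℤ) : ZMod Q) * ((d e : ℤ) : ZMod Q) ^ 2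
  have hd : ∀ e < k, M * d e ^ 2 < Q := fun e he => by
    have : d e ≤ 1 + M * k := Nat.add_le_add_left (Nat.mul_le_mul_left _ he.le) _
    have : M * d e ^ 2 ≤ M * (1 + M * k) ^ 2 := Nat.mul_le_mul_left _ (Nat.pow_le_pow_left this 2)
    omega
  have hmu : ∀ e < k, rsMu (rsPi Q M f (r e)) = rsMu (rsPi Q M f ((s * M : ℤ) : ZMod Q)) :=
    fun e he => by
    have h0 : 0 < d e := by simp [d]
    have h1 : d e < Q := by
      have := hd e he
      nlinarith
    have hc : Nat.Coprime (d e) Q :=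
      ((Nat.Prime.coprime_iff_not_dvd hp).2 (Nat.not_dvd_of_pos_of_lt h0 h1)).symm
    obtain ⟨γ, hγ⟩ := rsPi_sq (Q := Q) h per (d := d e) ⟨e, by simp [d]⟩
      (Nat.isCoprime_iff_coprime.2 hc)
    have hd0 : ((d e : ℤ) : ZMod Q) ≠ 0 := by
      rw [Int.cast_natCast, Ne, ZMod.natCast_eq_zero_iff]
      exact Nat.not_dvd_of_pos_of_lt h0 h1
    have e1 : r e * (((d e : ℤ) : ZMod Q) ^ 2)⁻¹ = ((s * M : ℤ) : ZMod Q) := by
      simp only [r]; field_simp
    rw [rsMu, rsMu, ← mean_smul ⟨_, lev (r e)⟩ γ]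
    congr 2
    funext τ
    rw [hγ, e1, conj_mul', conj_mul', norm_mul, hl, one_mul]
  have hinj : ∀ e < k, ∀ e' < k, r e = r e' → e = e' := fun e he e' he' hr => by
    have hs0 : ((s : ℤ) : ZMod Q) ≠ 0 := by rcases hs with rfl | rfl <;> simp
    have : ((M * d e ^ 2 : ℕ) : ZMod Q) = ((M * d e' ^ 2 : ℕ) : ZMod Q) := by
      apply mul_left_cancel₀ hs0
      simp only [r] at hr
      push_cast at hr ⊢
      linear_combination hr
    rw [ZMod.natCast_eq_natCast_iff', Nat.mod_eq_of_lt (hd e he), Nat.mod_eq_of_lt (hd e' he')]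
      at this
    have := Nat.pow_left_injective two_ne_zero (Nat.eq_of_mul_eq_mul_left hM this)
    exact Nat.eq_of_mul_eq_mul_left hM (Nat.add_left_cancel this)
  have hsum : ∀ y, 0 < y → ∑ e ∈ Finset.range k, rsMs (rsPi Q M f (r e)) y ≤ rsMs f y :=
    fun y hy => by
    refine hasSum_le (fun n => ?_)
      (hasSum_sum fun e _ => rsMs_hasSum (continuous_rsPi hf.cont (r e)) hy) (rsMs_hasSum hf.cont hy)
    simp only [fc_rsPi hf.cont per _ n hy]
    by_cases hn : ∃ e ∈ Finset.range k, ((n * M : ℤ) : ZMod Q) = r e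
    · obtain ⟨e, he, hn⟩ := hn
      rw [Finset.sum_eq_single_of_mem e he, if_pos hn]
      intro e' he' hne
      rw [if_neg fun h' => hne (hinj e' (Finset.mem_range.1 he') e (Finset.mem_range.1 he)
        (h'.symm.trans hn))]
      simp
    · rw [Finset.sum_eq_zero fun e he => by rw [if_neg fun h' => hn ⟨e, he, h'⟩]; simp]
      positivity
  have hle : k * rsMu (rsPi Q M f ((s * M : ℤ) : ZMod Q)) ≤ rsMu f := by
    have t1 := tendsto_finsetSum (Finset.range k) fun e _ => tend (r e)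
    rw [Finset.sum_congr rfl fun e he => hmu e (Finset.mem_range.1 he), Finset.sum_const,
      Finset.card_range, nsmul_eq_mul] at t1
    refine le_of_tendsto_of_tendsto t1 (rs_tendsto ⟨_, h.lev hM hl hf⟩ per) ?_
    filter_upwards [self_mem_nhdsWithin] with Y hY
    have c := fun e => rsMs_cont (continuous_rsPi (K := Q) (m := M) hf.cont (r e))
    rw [← rs_win_sum _ c hY]
    exact rs_win_mono (continuousOn_finsetSum _ fun e _ => c e) (rsMs_cont hf.cont) hY
      fun y hy => hsum y (lt_of_lt_of_le hY hy.1)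
  have hlt : rsMu (rsPi Q M f ((s * M : ℤ) : ZMod Q)) < ε := by
    rw [div_lt_iff₀ hε] at hk
    exact lt_of_mul_lt_mul_left (hle.trans_lt hk) (Nat.cast_nonneg k)
  filter_upwards [self_mem_nhdsWithin, (tend _).eventually (gt_mem_nhds hlt)] with Y hY h1
  refine le_trans (rs_win_mono (rs_fc_cont hf.cont s) (rsMs_cont (continuous_rsPi hf.cont _)) hY
    fun y hy => ?_) h1.le
  have hy0 : 0 < y := lt_of_lt_of_le hY hy.1
  have := le_hasSum (rsMs_hasSum (continuous_rsPi (K := Q) (m := M) hf.cont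
    ((s * M : ℤ) : ZMod Q)) hy0) s fun _ _ => by positivity
  rwa [fc_rsPi hf.cont per _ s hy0, if_pos rfl] at this

theorem rs_amgm {x A B : ℝ} (hx : 0 ≤ x) (hA : 0 < A) (hB : 0 ≤ B)
    (h : ∀ t, 0 < t → x ≤ (t * A + B / t) / 2) : x ^ 2 ≤ A * B := by
  rcases hx.eq_or_lt with rfl | hx
  · simpa using mul_nonneg hA.le hB
  have := h (x / A) (div_pos hx hA)
  rw [div_mul_cancel₀ _ hA.ne', div_div_eq_mul_div] at this
  have h2 : x ≤ B * A / x := by linarith
  rw [le_div_iff₀ hx] at h2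
  nlinarith

/-- Cutting off the cusps changes the Fourier coefficients by little. -/
theorem rs_cut : ∃ C : ℝ, 0 < C ∧ ∀ {f : ℍ → ℂ}, Continuous f → ∀ {T y : ℝ}, 0 < y → y ≤ T →
    ∀ n : ℤ, ‖fc 1 f n y - fc 1 (fun τ => chi T τ * f τ) n y‖ ^ 2 ≤
      C * T ^ (-(5 / 8) : ℝ) * rsMs f y := by
  obtain ⟨C, hC⟩ := integral_maj
  refine ⟨max C 1, by positivity, fun {f} hf {T y} hy hT n => ?_⟩
  have hT0 : 0 < T := hy.trans_le hT
  have hθ : 0 < T ^ (-(5 / 8) : ℝ) := Real.rpow_pos_of_pos hT0 _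
  have c1 : Continuous fun x => f (pt x y) := hf.comp (continuous_pt hy)
  have c2 : Continuous fun x => chi T (pt x y) := (continuous_chi hT0).comp (continuous_pt hy)
  have c3 : Continuous fun x : ℝ => cexp (-(2 * π * I * n * x / (1 : ℝ))) := by fun_prop
  have c4 : Continuous fun x => (chi T (pt x y) : ℂ) := continuous_ofReal.comp c2
  have hm : IntervalIntegrable (fun x => maj (pt x y)) volume 0 1 :=
    (intervalIntegrable_maj hy).mono_set (by
      rw [Set.uIcc_of_le zero_le_one, Set.uIcc_of_le zero_le_two]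
      exact Set.Icc_subset_Icc_right one_le_two)
  have hm1 : ∫ x in (0 : ℝ)..1, maj (pt x y) ≤ max C 1 := by
    refine le_trans ?_ ((hC y hy).trans (le_max_left _ _))
    exact intervalIntegral.integral_mono_interval le_rfl zero_le_one one_le_two
      (Eventually.of_forall fun x => zero_le_one.trans (one_le_maj _)) (intervalIntegrable_maj hy)
  have hpt : ∀ τ : ℍ, τ.im ≤ T → (1 - chi T τ) ^ 2 ≤ T ^ (-(5 / 8) : ℝ) * maj τ := fun τ hτ => by
    by_cases h1 : ∀ c d, IsCoprime c d → hgt c d τ ≤ T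
    · rw [chi_eq_one hT0 h1]
      simpa using mul_nonneg hθ.le (zero_le_one.trans (one_le_maj τ))
    push Not at h1
    obtain ⟨c, d, hcd, h1⟩ := h1
    have hc : c ≠ 0 := by
      rintro rfl
      have hd : d ^ 2 = 1 := by
        rcases Int.isUnit_iff.1 (isCoprime_zero_left.1 hcd) with rfl | rfl <;> simp
      have : normSq ((d : ℂ)) = 1 := by
        rw [normSq_intCast]; exact_mod_cast (by rw [← hd]; ring : d * d = 1)
      simp only [hgt, Int.cast_zero, zero_mul, zero_add, this, div_one] at h1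
      linarith
    have h2 : T ^ (5 / 8 : ℝ) ≤ maj τ :=
      (Real.rpow_le_rpow hT0.le h1.le (by norm_num)).trans (hgt_le_maj hc τ)
    have h3 : 1 ≤ T ^ (-(5 / 8) : ℝ) * maj τ := by
      rw [Real.rpow_neg hT0.le, ← div_eq_inv_mul, le_div_iff₀ (Real.rpow_pos_of_pos hT0 _)]
      linarith
    nlinarith [chi_nonneg T τ, chi_le_one T τ]
  refine rs_amgm (norm_nonneg _) (by positivity) (rsMs_nonneg f y) fun t ht => ?_
  simp only [fc, ofReal_one, inv_one, one_mul]
  simp only [ofReal_one] at c3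
  have c5 : Continuous fun x : ℝ => f (pt x y) * cexp (-(2 * π * I * n * x / 1)) := c1.mul c3
  have c6 : Continuous fun x : ℝ =>
    chi T (pt x y) * f (pt x y) * cexp (-(2 * π * I * n * x / 1)) := (c4.mul c1).mul c3
  rw [← intervalIntegral.integral_sub (c5.intervalIntegrable _ _) (c6.intervalIntegrable _ _)]
  have i1 : IntervalIntegrable (fun x => t * T ^ (-(5 / 8) : ℝ) / 2 * maj (pt x y)) volume 0 1 :=
    hm.const_mul _
  have i2 : IntervalIntegrable (fun x => 1 / (2 * t) * ‖f (pt x y)‖ ^ 2) volume 0 1 :=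
    (continuous_const.mul (c1.norm.pow 2)).intervalIntegrable _ _
  refine (intervalIntegral.norm_integral_le_of_norm_le zero_le_one
    (Eventually.of_forall fun x _ => ?_) (i1.add i2)).trans ?_
  · have e : ‖cexp (-(2 * π * I * n * x / 1))‖ = 1 := by rw [norm_exp]; simp
    have e2 : f (pt x y) * cexp (-(2 * π * I * n * x / 1)) -
        chi T (pt x y) * f (pt x y) * cexp (-(2 * π * I * n * x / 1)) =
        ((1 - chi T (pt x y) : ℝ) : ℂ) * f (pt x y) * cexp (-(2 * π * I * n * x / 1)) := by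
      push_cast; ring
    rw [e2, norm_mul, norm_mul, e, mul_one, norm_real, Real.norm_eq_abs,
      abs_of_nonneg (by linarith [chi_le_one T (pt x y)])]
    have h4 := hpt (pt x y) (by rw [pt_im x hy]; exact hT)
    have h5 : (1 - chi T (pt x y)) * ‖f (pt x y)‖ ≤
        t / 2 * (1 - chi T (pt x y)) ^ 2 + 1 / (2 * t) * ‖f (pt x y)‖ ^ 2 := by
      have : t / 2 * (1 - chi T (pt x y)) ^ 2 + 1 / (2 * t) * ‖f (pt x y)‖ ^ 2 -
          (1 - chi T (pt x y)) * ‖f (pt x y)‖ =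
          (t * (1 - chi T (pt x y)) - ‖f (pt x y)‖) ^ 2 / (2 * t) := by field_simp; ring
      have h6 : 0 ≤ (t * (1 - chi T (pt x y)) - ‖f (pt x y)‖) ^ 2 / (2 * t) := by positivity
      linarith
    nlinarith
  · rw [intervalIntegral.integral_add i1 i2, intervalIntegral.integral_const_mul,
      intervalIntegral.integral_const_mul]
    have := mul_le_mul_of_nonneg_left hm1 (show 0 ≤ t * T ^ (-(5 / 8) : ℝ) / 2 by positivity)
    have e : (t * (max C 1 * T ^ (-(5 / 8) : ℝ)) + rsMs f y / t) / 2 =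
        t * T ^ (-(5 / 8) : ℝ) / 2 * max C 1 + 1 / (2 * t) * rsMs f y := by field_simp
    rw [e, rsMs]; linarith

/-- The bootstrap argument. -/
theorem rs_boot {V U : ℝ → ℝ} {α : ℕ → ℝ} (hα : ∀ m, 0 ≤ α m) (h0 : α 0 = 0) (hs : Summable α)
    (hV : ∀ Y, 0 < Y → 0 ≤ V Y) (hB : ∀ δ > 0, ∃ B, ∀ Y, δ ≤ Y → V Y ≤ B)
    (hU : ∀ Y, 0 < Y → HasSum (fun m : ℕ => α m * V (m * Y)) (U Y))
    (h : ∀ θ > 0, ∀ ε > 0, ∀ᶠ Y in 𝓝[>] (0 : ℝ), V Y ≤ ε + θ * U Y) :
    Tendsto U (𝓝[>] 0) (𝓝 0) := by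
  set A := ∑' m, α m
  have hA : 0 ≤ A := tsum_nonneg hα
  have hUB : ∀ Y B, 0 < Y → (∀ Y', Y ≤ Y' → V Y' ≤ B) → U Y ≤ A * B := fun Y B hY hb => by
    refine hasSum_le (fun m => ?_) (hU Y hY) (hs.hasSum.mul_right B)
    rcases Nat.eq_zero_or_pos m with rfl | hm
    · simp [h0]
    · refine mul_le_mul_of_nonneg_left (hb _ ?_) (hα m)
      have : (1 : ℝ) ≤ m := by exact_mod_cast hm
      nlinarith
  obtain ⟨B, hB1⟩ : ∃ B, ∀ Y, 0 < Y → V Y ≤ B := by
    obtain ⟨Y₀, hY₀, h1⟩ := (nhdsGT_basis (0 : ℝ)).eventually_iff.1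
      (h (1 / (2 * (A + 1))) (by positivity) 1 one_pos)
    obtain ⟨B₀, hB₀⟩ := hB Y₀ hY₀
    refine ⟨max B₀ 2, fun Y hY => ?_⟩
    obtain ⟨B₁, hB₁⟩ := hB Y hY
    have bd : BddAbove (V '' Set.Ici Y) := ⟨B₁, by rintro _ ⟨y, hy, rfl⟩; exact hB₁ y hy⟩
    have hS : ∀ Y', Y ≤ Y' → V Y' ≤ sSup (V '' Set.Ici Y) := fun y hy => le_csSup bd ⟨y, hy, rfl⟩
    have hS0 : 0 ≤ sSup (V '' Set.Ici Y) := (hV Y hY).trans (hS Y le_rfl)
    have h2 : sSup (V '' Set.Ici Y) ≤ max B₀ (1 + sSup (V '' Set.Ici Y) / 2) := by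
      refine csSup_le ⟨_, Y, Set.self_mem_Ici, rfl⟩ ?_
      rintro _ ⟨y, hy, rfl⟩
      rcases le_or_gt Y₀ y with h3 | h3
      · exact (hB₀ y h3).trans (le_max_left _ _)
      · have hy0 : 0 < y := hY.trans_le hy
        refine (h1 ⟨hy0, h3⟩).trans (le_trans ?_ (le_max_right _ _))
        have h4 := hUB y _ hy0 fun y' hy' => hS y' (le_trans hy hy')
        have h5 : 1 / (2 * (A + 1)) * U y ≤ sSup (V '' Set.Ici Y) / 2 := by
          rw [one_div, ← div_eq_inv_mul, div_le_div_iff₀ (by positivity) two_pos]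
          nlinarith
        linarith
    refine (hS Y le_rfl).trans ?_
    rcases le_max_iff.1 h2 with h3 | h3
    · exact h3.trans (le_max_left _ _)
    · exact le_trans (by linarith) (le_max_right _ _)
  have hB0 : 0 ≤ B := (hV 1 one_pos).trans (hB1 1 one_pos)
  have tV : Tendsto V (𝓝[>] 0) (𝓝 0) := by
    refine tendsto_order.2 ⟨fun a ha => ?_, fun a ha => ?_⟩
    · filter_upwards [self_mem_nhdsWithin] with Y hY using ha.trans_le (hV Y hY)
    · filter_upwards [self_mem_nhdsWithin,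
        h (a / (4 * (A * B + 1))) (by positivity) (a / 2) (by positivity)] with Y hY h1
      have h4 := hUB Y B hY fun y hy => hB1 y (lt_of_lt_of_le hY hy)
      have h5 : a / (4 * (A * B + 1)) * U Y ≤ a / 4 := by
        rw [div_mul_eq_mul_div, div_le_div_iff₀ (by positivity) four_pos]
        nlinarith
      linarith
  have t := tendsto_tsum_of_dominated_convergence (𝓕 := 𝓝[>] (0 : ℝ))
    (f := fun Y m => α m * V (m * Y)) (g := fun _ => 0) (hs.mul_right B) (fun m => ?_) ?_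
  · rw [tsum_zero] at t
    refine t.congr' ?_
    filter_upwards [self_mem_nhdsWithin] with Y hY using (hU Y hY).tsum_eq
  · rcases Nat.eq_zero_or_pos m with rfl | hm
    · simp [h0]
    · have hm' : (0 : ℝ) < m := by exact_mod_cast hm
      have : Tendsto (fun Y : ℝ => m * Y) (𝓝[>] 0) (𝓝[>] 0) := by
        refine tendsto_nhdsWithin_iff.2 ⟨?_, ?_⟩
        · have : Tendsto (fun Y : ℝ => m * Y) (𝓝 0) (𝓝 (m * 0)) := by
            exact Continuous.tendsto (by fun_prop) 0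
          rw [mul_zero] at this
          exact this.mono_left nhdsWithin_le_nhds
        · filter_upwards [self_mem_nhdsWithin] with Y hY using mul_pos hm' hY
      simpa using (tV.comp this).const_mul (α m)
  · filter_upwards [self_mem_nhdsWithin] with Y hY m
    rcases Nat.eq_zero_or_pos m with rfl | hm
    · simp [h0]
    · have hm' : 0 < m * Y := mul_pos (by exact_mod_cast hm) hY
      rw [Real.norm_of_nonneg (mul_nonneg (hα m) (hV _ hm'))]
      exact mul_le_mul_of_nonneg_left (hB1 _ hm') (hα m)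

end

end Pool.Agent.Lib.MP_e6abdd_an
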