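import Pool.Agent.Lib.MP_e6abdd_an.Coc
import Pool.Agent.Lib.MP_e6abdd_an.Knopp
import Pool.Agent.Lib.MP_e6abdd_an.Gauss

/-!
Solutions of the functional equations: equivariance, growth, Fourier expansion.
-/

namespace Pool.Agent.Lib.MP_e6abdd_an

open Complex hiding Gamma
open UpperHalfPlane hiding I
open MeasureTheory Filter Topology CongruenceSubgroup
open scoped Real MatrixGroups ComplexConjugate

open scoped FourierTransform

variable {X : ℝ} {t : ℂ} {K : ℤ → ℤ → ℍ → ℂ} {F : ℍ → ℂ}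

/-- The solution attached to the cusp with row `v`, in unitary normalisation. -/
noncomputable def FF (t : ℂ) (K : ℤ → ℤ → ℍ → ℂ) (F : ℍ → ℂ) (v : ℤ × ℤ) (τ : ℍ) : ℂ :=
  nz F τ - t * nz (K v.1 v.2) τ

theorem continuous_nz {f : ℍ → ℂ} (h : DifferentiableOn ℂ (f ∘ ofComplex) {z | 0 < z.im}) :
    Continuous (nz f) := by
  exact (continuous_ofReal.comp (UpperHalfPlane.continuous_im.rpow_const
    fun τ => Or.inl τ.im_ne_zero)).mul (KnHol.continuous h)

theorem FF_T2 (hK : Coc X K) (hF : Sol X t F) {c d : ℤ} (h : IsCoprime c d) (τ : ℍ) :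
    FF t K F (c, d + 2 * c) τ = FF t K F (c, d) (aff 1 2 τ) := by
  simp only [FF, nz, kn_im, hF.per, hK.T2 c d h]

theorem FF_S (hK : Coc X K) (hF : Sol X t F) {c d : ℤ} (h : IsCoprime c d) (τ : ℍ) :
    FF t K F (d, -c) τ = -sop 0 (FF t K F (c, d)) τ := by
  have h1 := congrFun (nz_sl F) τ
  have h2 := congrFun (nz_sl (K c d)) τ
  have h3 := hF.eqn τ
  have h4 := hK.S c d h τ
  simp only [sop] at h1 h2
  simp only [FF, sop, mul_sub]
  rw [← h1, mul_left_comm, ← h2, nz, nz, nz, nz, h4]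
  linear_combination ((τ.im ^ (1 / 4 : ℝ) : ℝ) : ℂ) * h3

theorem sol_neg (hK : Coc X K) (c d : ℤ) (τ : ℍ) : FF t K F (-c, -d) τ = FF t K F (c, d) τ := by
  simp only [FF, hK.neg]

theorem sol_S (hK : Coc X K) (hF : Sol X t F) {v : ℤ × ℤ} (h : IsCoprime v.1 v.2) (τ : ℍ) :
    FF t K F v (ModularGroup.S • τ) = -ph (4 * 0 + 1) (-I * τ) * FF t K F (v.2, -v.1) τ := by
  have h1 : ph (4 * 0 + 1) (-I * τ) * conj (ph (4 * 0 + 1) (-I * τ)) = 1 := by
    rw [mul_conj, normSq_eq_norm_sq, norm_ph]; simp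
  rw [FF_S hK hF h, sop]
  linear_combination (-FF t K F v (ModularGroup.S • τ)) * h1

theorem sol_T2 : ((ModularGroup.T ^ 2 : SL(2, ℤ)) : Matrix (Fin 2) (Fin 2) ℤ) = !![1, 2; 0, 1] :=
  ModularGroup.coe_T_zpow 2

theorem sol_row_T2 (v : ℤ × ℤ) : rowEquiv (ModularGroup.T ^ 2) v = (v.1, v.2 + 2 * v.1) := by
  simp only [rowEquiv, Equiv.coe_fn_mk, sol_T2]
  simp [mul_comm, add_comm]

theorem sol_T2_smul (τ : ℍ) : ModularGroup.T ^ 2 • τ = aff 1 2 τ := by
  rw [pow_two, mul_smul, kn_T_smul, kn_T_smul, kn_two]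

theorem sol_row_mul (γ γ' : SL(2, ℤ)) (v : ℤ × ℤ) :
    rowEquiv (γ * γ') v = rowEquiv γ' (rowEquiv γ v) := by
  simp only [rowEquiv, Equiv.coe_fn_mk, Matrix.SpecialLinearGroup.coe_mul, Matrix.mul_apply,
    Fin.sum_univ_two, Prod.mk.injEq]
  constructor <;> ring

theorem sol_row_one (v : ℤ × ℤ) : rowEquiv 1 v = v := by simp [rowEquiv]

theorem FF_equiv (hK : Coc X K) (hF : Sol X t F) {γ : SL(2, ℤ)} (hγ : γ ∈ Gamma 2) {v : ℤ × ℤ}
    (h : IsCoprime v.1 v.2) (τ : ℍ) :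
    FF t K F v (γ • τ) = JJ 0 (γ 1 0) (γ 1 1) τ * FF t K F (rowEquiv γ v) τ := by
  revert v τ
  refine gamma2_induction (P := fun γ => ∀ {v : ℤ × ℤ}, IsCoprime v.1 v.2 → ∀ τ : ℍ,
    FF t K F v (γ • τ) = JJ 0 (γ 1 0) (γ 1 1) τ * FF t K F (rowEquiv γ v) τ)
    ?_ ?_ ?_ ?_ ?_ γ hγ
  · intro v h τ
    have e : rowEquiv (-1) v = (-v.1, -v.2) := by simp [rowEquiv]
    have e1 : JJ 0 ((-1 : SL(2, ℤ)) 1 0) ((-1 : SL(2, ℤ)) 1 1) τ = 1 := by
      rw [← JJ_neg 0 (by simp)]; simpa using JJ_zero_one 0 τ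
    rw [e, e1, sol_neg hK, one_mul, ModularGroup.SL_neg_smul, one_smul]
  · intro v h τ
    have e1 : JJ 0 ((ModularGroup.T ^ 2) 1 0) ((ModularGroup.T ^ 2) 1 1) τ = 1 := by
      rw [sol_T2]; exact JJ_zero_one 0 τ
    rw [e1, one_mul, sol_row_T2, sol_T2_smul, FF_T2 hK hF h]
  · intro v h τ
    have e : rowEquiv U2 v = (v.1 + 2 * v.2, v.2) := by simp [rowEquiv, U2, mul_comm]
    have h1 : IsCoprime v.2 (-v.1 - 2 * v.2) := by
      simpa [sub_eq_add_neg] using h.symm.neg_right.add_mul_right_right (-2)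
    have e2 := FF_T2 hK hF h1 (aff 1 (-2) (ModularGroup.S • τ))
    rw [sub_add_cancel, kn_aff_add, neg_add_cancel, aff_one_zero] at e2
    have e3 := sol_neg (t := t) (F := F) hK (v.1 + 2 * v.2) v.2 τ
    rw [e, U2_smul, sol_S hK hF h, e2, sol_S hK hF h1, show U2 1 0 = 2 from rfl,
      show U2 1 1 = 1 from rfl, JJ_U2, ← e3, show -(v.1 + 2 * v.2) = -v.1 - 2 * v.2 by ring]
    ring
  · intro γ hγ γ' hγ' h1 h2 v h τ
    rw [mul_smul, h1 h, h2 ((isCoprime_rowEquiv γ v).2 h), JJ_mul 0 hγ hγ', sol_row_mul, mul_assoc]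
  · intro γ hγ h1 v h τ
    have e1 := h1 ((isCoprime_rowEquiv γ⁻¹ v).2 h) (γ⁻¹ • τ)
    have e2 := JJ_mul 0 hγ (inv_mem hγ) τ
    rw [smul_inv_smul, ← sol_row_mul, inv_mul_cancel, sol_row_one] at e1
    rw [mul_inv_cancel, show JJ 0 ((1 : SL(2, ℤ)) 1 0) ((1 : SL(2, ℤ)) 1 1) τ = 1 by
      simpa using JJ_zero_one 0 τ] at e2
    rw [e1]
    linear_combination FF t K F v (γ⁻¹ • τ) * e2

theorem sol_norm (hK : Coc X K) (hF : Sol X t F) {γ : SL(2, ℤ)}
    (hγ : γ ∈ Subgroup.closure ({ModularGroup.S, ModularGroup.T ^ 2} : Set SL(2, ℤ)))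
    {v : ℤ × ℤ} (h : IsCoprime v.1 v.2) (τ : ℍ) :
    ‖FF t K F v (γ • τ)‖ = ‖FF t K F (rowEquiv γ v) τ‖ := by
  induction hγ using Subgroup.closure_induction generalizing v τ with
  | mem γ hγ =>
    rcases hγ with rfl | rfl
    · rw [sol_S hK hF h, norm_mul, norm_neg, norm_ph, one_mul,
        show rowEquiv ModularGroup.S v = (v.2, -v.1) by simp [rowEquiv, ModularGroup.S]]
    · rw [sol_row_T2, sol_T2_smul, FF_T2 hK hF h]
  | one => rw [one_smul, sol_row_one]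
  | mul γ γ' _ _ h1 h2 => rw [mul_smul, h1 h, h2 ((isCoprime_rowEquiv γ v).2 h), sol_row_mul]
  | inv γ _ h1 =>
    have e1 := h1 ((isCoprime_rowEquiv γ⁻¹ v).2 h) (γ⁻¹ • τ)
    rw [smul_inv_smul, ← sol_row_mul, inv_mul_cancel, sol_row_one] at e1
    exact e1.symm

theorem FF_growth (hK : Coc X K) (hF : Sol X t F) {δ : ℝ} (hδ : 0 < δ) :
    ∃ B : ℝ, 0 ≤ B ∧ ∀ v : ℤ × ℤ, IsCoprime v.1 v.2 → ∀ τ : ℍ, δ ≤ hgt v.1 v.2 τ →
      ‖FF t K F v τ‖ ≤ B * hgt v.1 v.2 τ ^ (1 / 4 : ℝ) := by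
  obtain ⟨B, hB⟩ := hF.bdd δ hδ
  obtain ⟨B1, hB1⟩ := hF.bdd1 δ hδ
  obtain ⟨B2, hB2⟩ := hK.ubd δ hδ
  refine ⟨|B| + (|B1| + ‖t‖ * |B2|), by positivity, fun v h τ hτ => ?_⟩
  obtain ⟨g, h1, h2⟩ := exists_row h
  have hw : (g • τ).im = hgt v.1 v.2 τ := by rw [im_SL_smul, h1, h2]
  have hv : rowEquiv g (0, 1) = v := by simp [rowEquiv, h1, h2]
  rw [← hw] at hτ ⊢
  have hp : 0 ≤ (g • τ).im ^ (1 / 4 : ℝ) := Real.rpow_nonneg (g • τ).im_pos.le _
  have h0 : ∀ w : ℍ, w.im = (g • τ).im →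
      ‖FF t K F (0, 1) w‖ ≤ (|B| + (|B1| + ‖t‖ * |B2|)) * (g • τ).im ^ (1 / 4 : ℝ) := by
    intro w hw
    have : FF t K F (0, 1) w = nz F w := by simp [FF, hK.base, nz]
    rw [this, kn_norm_nz, hw, mul_comm]
    gcongr
    exact (hB w (hw ▸ hτ)).trans ((le_abs_self B).trans (le_add_of_nonneg_right (by positivity)))
  obtain ⟨σ, hσ, h3⟩ := theta_coset g
  have h4 := fun v h => sol_norm hK hF h3 (v := v) h τ
  simp only [sol_row_mul, mul_smul] at h4
  rcases hσ with rfl | rfl | rfl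
  · have := h4 (0, 1) isCoprime_one_right
    rw [sol_row_one, hv, one_smul] at this
    exact this ▸ h0 _ rfl
  · have := h4 (0, 1) isCoprime_one_right
    rw [show rowEquiv ModularGroup.T (0, 1) = (0, 1) by simp [rowEquiv, ModularGroup.T], hv,
      kn_T_smul] at this
    exact this ▸ h0 _ (kn_im _ _)
  · have := h4 (1, -1) isCoprime_one_left
    rw [sol_row_mul, show rowEquiv ModularGroup.T (1, -1) = (1, 0) by
      simp [rowEquiv, ModularGroup.T], show rowEquiv ModularGroup.S (1, 0) = (0, -1) by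
      simp [rowEquiv, ModularGroup.S], show rowEquiv g (0, -1) = (-v.1, -v.2) by
      simp [rowEquiv, h1, h2], sol_neg hK, mul_smul, kn_T_smul] at this
    rw [← this, FF]
    refine (norm_sub_le _ _).trans ?_
    rw [norm_mul, ← kn_norm_U, ← kn_norm_U, kn_norm_nz, kn_norm_nz]
    have a1 := mul_le_mul_of_nonneg_left ((hB1 _ hτ).trans (le_abs_self _)) hp
    have a2 := mul_le_mul_of_nonneg_left
      (mul_le_mul_of_nonneg_left ((hB2 _ hτ).trans (le_abs_self _)) hp) (norm_nonneg t)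
    have a3 := mul_nonneg (abs_nonneg B) hp
    simp only [knU]
    linarith

theorem sol_per (hF : Sol X t F) : Function.Periodic (F ∘ ofComplex) ((2 : ℝ) : ℂ) :=
  kn_periodic hF.per

theorem sol_hasSum (hF : Sol X t F) (τ : ℍ) :
    HasSum (fun n : ℕ => (qExpansion 2 F).coeff n * gs n τ) (F τ) := by
  have h := hasSum_qExpansion two_pos (sol_per hF) (KnHol.mdiff hF.hol) (KnBd.inf hF.bdd) τ
  have e : ∀ n : ℕ, Function.Periodic.qParam 2 τ ^ n = gs n τ := fun n => by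
    rw [Function.Periodic.qParam, gs, ← Complex.exp_nat_mul]
    congr 1
    push_cast
    ring
  simpa only [e, smul_eq_mul] using h

theorem sol_fc (hF : Sol X t F) (n : ℕ) (y : ℝ) (hy : 0 < y) : fc 2 (nz F) n y =
    (qExpansion 2 F).coeff n * (y ^ (1 / 4 : ℝ) * Real.exp (-(π * n * y)) : ℝ) := by
  rw [qExpansion_coeff_eq_intervalIntegral two_pos (sol_per hF) (KnHol.mdiff hF.hol)
    (KnBd.inf hF.bdd) n hy, fc, mul_assoc (1 / _ : ℂ), ← intervalIntegral.integral_mul_const,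
    one_div]
  congr 2
  funext x
  have e : pt x y = ⟨x + y * UpperHalfPlane.I, by simpa using hy⟩ :=
    UpperHalfPlane.ext (by rw [coe_pt x hy]; rfl)
  have e1 : cexp (-(2 * π * I * (n : ℤ) * x / (2 : ℝ))) =
      1 / Function.Periodic.qParam 2 (x + y * UpperHalfPlane.I) ^ n *
        (Real.exp (-(π * n * y)) : ℝ) := by
    rw [Function.Periodic.qParam, ← Complex.exp_nat_mul, one_div, ← Complex.exp_neg,
      ofReal_exp, ← Complex.exp_add, UpperHalfPlane.coe_I]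
    congr 1
    push_cast
    linear_combination (π * n * y : ℂ) * I_mul_I
  rw [nz, pt_im x hy, e1, ← e]
  push_cast
  ring

theorem sol_pointwise (hK : Coc X K) (hF : Sol X t F) : ∃ B : ℝ, 0 ≤ B ∧ ∀ τ : ℍ, τ.im ≤ 1 →
    ‖nz F τ‖ ≤ B / τ.im ^ (1 / 4 : ℝ) + B * maj τ := by
  obtain ⟨B, hB0, hB⟩ := FF_growth hK hF (show (0 : ℝ) < 3 / 4 by norm_num)
  obtain ⟨C, hC⟩ := hK.err
  refine ⟨B + ‖t‖ * (|C| * 2 ^ (1 / 32 : ℝ) + 1), by positivity, fun τ hτ => ?_⟩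
  obtain ⟨c, d, h, h1⟩ := exists_hgt τ
  have hy := τ.im_pos
  have h2 := hgt_mul_le c d τ
  have h3 : hgt c d τ ≤ τ.im⁻¹ := by
    rw [← one_div, le_div_iff₀ hy]
    rcases eq_or_ne c 0 with rfl | hc
    · have : hgt 0 d τ = τ.im := by
        rcases Int.isUnit_iff.1 (isCoprime_zero_left.1 h) with rfl | rfl <;> simp [hgt]
      rw [this]; nlinarith
    · have : (1 : ℝ) ≤ (c : ℝ) ^ 2 := by
        exact_mod_cast (one_le_sq_iff_one_le_abs c).2 (Int.one_le_abs hc)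
      nlinarith [mul_pos (hgt_pos h τ) hy]
  have h4 := (hB (c, d) h τ h1).trans (mul_le_mul_of_nonneg_left
    (Real.rpow_le_rpow (hgt_pos h τ).le h3 (by norm_num)) hB0)
  rw [Real.inv_rpow hy.le, ← div_eq_mul_inv] at h4
  have h5 := hC c d h τ 2 (by nlinarith [mul_nonneg (sq_nonneg (c : ℝ)) hy.le]) le_rfl
  have h6 := one_le_maj τ
  have h7 : ‖nz (K c d) τ‖ ≤ (|C| * 2 ^ (1 / 32 : ℝ) + 1) * maj τ := by
    have a1 : C * 2 ^ (1 / 32 : ℝ) * maj τ ≤ |C| * 2 ^ (1 / 32 : ℝ) * maj τ := by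
      gcongr; exact le_abs_self C
    have a2 : 0 ≤ |C| * 2 ^ (1 / 32 : ℝ) * maj τ := by positivity
    nlinarith [sq_nonneg (‖nz (K c d) τ‖ - 1)]
  have h8 : nz F τ = FF t K F (c, d) τ + t * nz (K c d) τ := by rw [FF]; ring
  rw [h8]
  refine (norm_add_le _ _).trans (add_le_add (h4.trans ?_) ?_)
  · gcongr
    exact le_add_of_nonneg_right (by positivity)
  · rw [norm_mul, add_mul, mul_assoc]
    exact (mul_le_mul_of_nonneg_left h7 (norm_nonneg t)).trans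
      (le_add_of_nonneg_left (by positivity))

theorem sol_bound (hK : Coc X K) (hF : Sol X t F) :
    ∃ C : ℝ, ∀ n : ℕ, ‖(qExpansion 2 F).coeff n‖ ≤ C * (n + 1) := by
  obtain ⟨B, hB0, hB⟩ := sol_pointwise hK hF
  obtain ⟨C, hC⟩ := integral_maj
  refine ⟨Real.exp π * (B + B * |C|), fun n => ?_⟩
  obtain ⟨y, hy⟩ : ∃ y : ℝ, y = 1 / (n + 1) := ⟨_, rfl⟩
  have hn : (0 : ℝ) ≤ n := n.cast_nonneg
  have h0 : 0 < y := by rw [hy]; positivity
  have h1 : y * (n + 1) = 1 := by rw [hy]; field_simp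
  have h2 : y ≤ 1 := by nlinarith
  obtain ⟨s, hs⟩ : ∃ s : ℝ, s = y ^ (1 / 4 : ℝ) := ⟨_, rfl⟩
  have s0 : 0 < s := by rw [hs]; positivity
  have s1 : s ≤ 1 := by rw [hs]; exact Real.rpow_le_one h0.le h2 (by norm_num)
  have s4 : s ^ 4 = y := by
    rw [hs, ← Real.rpow_natCast, ← Real.rpow_mul h0.le]; norm_num
  have h3 : ‖fc 2 (nz F) n y‖ ≤ B / s + B * |C| := by
    have a1 := intervalIntegral.norm_integral_le_of_norm_le (μ := volume) (a := 0) (b := 2)
      (f := fun x : ℝ => nz F (pt x y) * cexp (-(2 * π * I * (n : ℤ) * x / (2 : ℝ))))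
      (g := fun x : ℝ => B / s + B * maj (pt x y)) (by norm_num)
      (Eventually.of_forall fun x _ => by
        have := hB (pt x y) (by rwa [pt_im x h0])
        rw [pt_im x h0, ← hs] at this
        rw [norm_mul, Complex.norm_exp]
        simpa using this)
      (intervalIntegrable_const.add ((intervalIntegrable_maj h0).const_mul B))
    rw [intervalIntegral.integral_add intervalIntegrable_const
      ((intervalIntegrable_maj h0).const_mul B), intervalIntegral.integral_const_mul,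
      intervalIntegral.integral_const] at a1
    have a2 := mul_le_mul_of_nonneg_left ((hC y h0).trans (le_abs_self C)) hB0
    have a3 : 0 ≤ B * |C| := by positivity
    rw [fc, norm_mul, norm_inv, Complex.norm_real, Real.norm_ofNat]
    simp only [sub_zero, smul_eq_mul] at a1
    linarith
  rw [sol_fc hF n y h0, norm_mul, Complex.norm_real, ← hs,
    Real.norm_of_nonneg (by positivity)] at h3
  have h4 : 1 ≤ Real.exp π * Real.exp (-(π * n * y)) := by
    rw [← Real.exp_add]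
    exact Real.one_le_exp (by nlinarith [mul_pos Real.pi_pos h0])
  have h5 : B / s + B * |C| ≤ (B + B * |C|) * (n + 1) * s := by
    have a1 : 1 ≤ (n + 1) * s * s := by
      nlinarith [mul_le_mul s1 s1 s0.le zero_le_one, mul_pos s0 s0]
    have a2 : 1 ≤ (n + 1) * s := by nlinarith [mul_pos (add_pos_of_nonneg_of_pos hn one_pos) s0]
    have a3 : 0 ≤ B * |C| := by positivity
    have a4 : B / s ≤ B * (n + 1) * s := by
      rw [div_le_iff₀ s0]; nlinarith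
    nlinarith
  refine le_of_mul_le_mul_right ?_ s0
  have h6 := mul_le_mul_of_nonneg_left (h3.trans h5) (Real.exp_pos π).le
  nlinarith [mul_nonneg (norm_nonneg ((qExpansion 2 F).coeff n)) s0.le]

theorem Sol.expansion (hK : Coc X K) (hF : Sol X t F) : ∃ (a : ℕ → ℂ) (C : ℝ),
    (∀ n, ‖a n‖ ≤ C * (n + 1)) ∧ (∀ τ : ℍ, HasSum (fun n : ℕ => a n * gs n τ) (F τ)) ∧
      ∀ (n : ℕ) (y : ℝ), 0 < y →
        fc 2 (nz F) n y = a n * (y ^ (1 / 4 : ℝ) * Real.exp (-(π * n * y)) : ℝ) := by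
  obtain ⟨C, hC⟩ := sol_bound hK hF
  exact ⟨_, C, hC, sol_hasSum hF, sol_fc hF⟩

theorem sol_coeff (hX : 0 < X) (hK : Coc X K) (hF : Sol X t F) (b : ℕ → SchwartzMap ℝ ℝ)
    (he : ∀ n x, b n (-x) = b n x) (hf : ∀ n ξ, 𝓕 (fun x => (b n x : ℂ)) ξ = b n ξ)
    (hb : ∀ n m : ℕ, b n √m = if n = m then 1 else 0) (m : ℕ) :
    (qExpansion 2 F).coeff m = t * b m √X := by
  obtain ⟨C, hC⟩ := sol_bound hK hF
  have h := interp hX.le (t := t) hC (fun τ => by
    have := (sol_hasSum hF τ).add ((sol_hasSum hF (ModularGroup.S • τ)).mul_left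
      ((-I * τ) ^ (-1 / 2 : ℂ)))
    rw [← hF.eqn τ, sl]
    simpa only [psi, sl, mul_add, mul_left_comm] using this) (b m) (he m) (hf m)
  refine (HasSum.unique ?_ h)
  have := hasSum_single (f := fun n : ℕ => (qExpansion 2 F).coeff n * (b m √n : ℝ)) m
    fun n hn => by simp [hb, hn.symm]
  simpa [hb] using this

/-- The generating function of the values of the interpolation basis at `√X`. -/
theorem exists_F (hX : 0 < X) (b : ℕ → SchwartzMap ℝ ℝ) (he : ∀ n x, b n (-x) = b n x)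
    (hf : ∀ n ξ, 𝓕 (fun x => (b n x : ℂ)) ξ = b n ξ)
    (hb : ∀ n m : ℕ, b n √m = if n = m then 1 else 0) :
    ∃ K F, Coc X K ∧ Sol X 1 F ∧ ∀ (n : ℕ) (y : ℝ), 0 < y →
      fc 2 (nz F) n y = (b n √X * (y ^ (1 / 4 : ℝ) * Real.exp (-(π * n * y))) : ℝ) := by
  obtain ⟨K, hK⟩ := exists_coc hX
  rcases knopp hK with ⟨F, hF⟩ | ⟨g, hg, hl⟩
  · refine ⟨K, F, hK, hF, fun n y hy => ?_⟩
    rw [sol_fc hF n y hy, sol_coeff hX hK hF b he hf hb]
    push_cast
    ring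
  · have h1 := sol_coeff hX hK hg b he hf hb 0
    rw [qExpansion_coeff_zero two_pos (analyticAt_cuspFunction_zero two_pos (sol_per hg)
      (KnHol.mdiff hg.hol) (KnBd.inf hg.bdd)) (sol_per hg), valueAtInfty, hl.limUnder_eq] at h1
    simp at h1

end Pool.Agent.Lib.MP_e6abdd_an
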