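import Pool.Agent.Lib.MP_e6abdd_an.Mean
import Pool.Agent.Lib.MP_e6abdd_an.Mult

/-!
The inner product space of bounded automorphic functions.
-/

namespace Pool.Agent.Lib.MP_e6abdd_an

open Complex hiding Gamma
open UpperHalfPlane hiding I
open MeasureTheory Filter Topology CongruenceSubgroup
open scoped Real MatrixGroups ComplexConjugate

open scoped InnerProductSpace

noncomputable section

theorem BC.add {f g : ℍ → ℂ} (h : BC f) (h' : BC g) : BC fun τ => f τ + g τ := by
  obtain ⟨B, hB⟩ := h.bdd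
  obtain ⟨B', hB'⟩ := h'.bdd
  exact ⟨h.cont.add h'.cont, B + B', fun τ => (norm_add_le _ _).trans (add_le_add (hB τ) (hB' τ))⟩

theorem BC.mul {f g : ℍ → ℂ} (h : BC f) (h' : BC g) : BC fun τ => f τ * g τ := by
  obtain ⟨B, hB⟩ := h.bdd
  obtain ⟨B', hB'⟩ := h'.bdd
  exact ⟨h.cont.mul h'.cont, B * B', fun τ => (norm_mul_le _ _).trans
    (mul_le_mul (hB τ) (hB' τ) (norm_nonneg _) ((norm_nonneg _).trans (hB τ)))⟩

theorem BC.const (c : ℂ) : BC fun _ => c := ⟨continuous_const, ‖c‖, fun _ => le_rfl⟩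

theorem BC.sum {ι : Type} {s : Finset ι} {F : ι → ℍ → ℂ} (h : ∀ i ∈ s, BC (F i)) :
    BC fun τ => ∑ i ∈ s, F i τ := by
  classical
  induction s using Finset.induction_on with
  | empty => simpa using BC.const 0
  | insert a s ha ih =>
    simp only [Finset.sum_insert ha]
    exact (h a (by simp)).add (ih fun i hi => h i (by simp [hi]))

def AA (j : ℤ) : Submodule ℂ (ℍ → ℂ) where
  carrier := {f | BC f ∧ Aut j 1 f}
  add_mem' := fun {f g} hf hg => ⟨hf.1.add hg.1, fun γ hγ τ => by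
    simp only [Pi.add_apply, hf.2 γ hγ τ, hg.2 γ hγ τ, mul_add]⟩
  zero_mem' := ⟨BC.const 0, fun γ _ τ => by simp⟩
  smul_mem' := fun c f hf => ⟨(BC.const c).mul hf.1, fun γ hγ τ => by
    simp only [Pi.smul_apply, hf.2 γ hγ τ, smul_eq_mul]; ring⟩

/-- Bounded continuous automorphic functions of weight `1/2 + 2 j` for `Γ(2)`. -/
def AH (j : ℤ) : Type := AA j

variable {j : ℤ}

instance : AddCommGroup (AH j) := inferInstanceAs (AddCommGroup (AA j))

instance : Module ℂ (AH j) := inferInstanceAs (Module ℂ (AA j))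

def AH.mk (f : ℍ → ℂ) (h : BC f) (h' : Aut j 1 f) : AH j := ⟨f, h, h'⟩

/-- The underlying function. -/
def AH.fn (f : AH j) : ℍ → ℂ := f.1

theorem AH.bc (f : AH j) : BC f.fn := f.2.1

theorem AH.aut (f : AH j) : Aut j 1 f.fn := f.2.2

theorem AH.ext {f g : AH j} (h : ∀ τ, f.fn τ = g.fn τ) : f = g := Subtype.ext (funext h)

@[simp] theorem AH.fn_mk (f : ℍ → ℂ) (h : BC f) (h' : Aut j 1 f) : (AH.mk f h h').fn = f := rfl

@[simp] theorem AH.fn_add (f g : AH j) (τ : ℍ) : (f + g).fn τ = f.fn τ + g.fn τ := rfl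

@[simp] theorem AH.fn_sub (f g : AH j) (τ : ℍ) : (f - g).fn τ = f.fn τ - g.fn τ := rfl

@[simp] theorem AH.fn_smul (c : ℂ) (f : AH j) (τ : ℍ) : (c • f).fn τ = c * f.fn τ := rfl

@[simp] theorem AH.fn_zero (τ : ℍ) : (0 : AH j).fn τ = 0 := rfl

theorem AH.lev (f g : AH j) : Lev 2 fun τ => conj (f.fn τ) * g.fn τ :=
  f.aut.lev g.aut f.bc g.bc one_pos

theorem AH.ll (f g : AH j) : LL fun τ => conj (f.fn τ) * g.fn τ := ⟨2, f.lev g⟩

@[reducible] def AH.core (j : ℤ) : InnerProductSpace.Core ℂ (AH j) where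
  inner f g := mean fun τ => conj (f.fn τ) * g.fn τ
  conj_inner_symm f g := by
    rw [← mean_conj (g.ll f)]; simp [mul_comm]
  re_inner_nonneg f := by
    have h := mean_re_mono (LL.const 0) (f.ll f) fun τ => by
      rw [← normSq_eq_conj_mul_self]; simpa using normSq_nonneg _
    have h0 := mean_const_mul (LL.const 0) 0
    simp only [zero_mul] at h0
    simpa [h0] using h
  add_left f g h := by
    rw [← mean_add (f.ll h) (g.ll h)]; simp [add_mul]
  smul_left f g c := by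
    rw [← mean_const_mul (f.ll g)]; simp [mul_assoc]
  definite f h := AH.ext fun τ => by
    have := eq_zero_of_mean (f.ll f) (fun τ => by
      rw [← normSq_eq_conj_mul_self]; simpa using normSq_nonneg _)
      (by rw [show (mean fun τ => conj (f.fn τ) * f.fn τ) = 0 from h]; simp) τ
    rw [← normSq_eq_conj_mul_self] at this
    simpa using this

instance : NormedAddCommGroup (AH j) :=
  InnerProductSpace.Core.toNormedAddCommGroup (𝕜 := ℂ) (cd := AH.core j)

instance : InnerProductSpace ℂ (AH j) := InnerProductSpace.ofCore (AH.core j).toCore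

theorem AH.inner_def (f g : AH j) : ⟪f, g⟫_ℂ = mean fun τ => conj (f.fn τ) * g.fn τ := rfl

theorem AH.norm_sq (f : AH j) : ‖f‖ ^ 2 = (mean fun τ => conj (f.fn τ) * f.fn τ).re :=
  InnerProductSpace.norm_sq_eq_re_inner (𝕜 := ℂ) f

/-- The involution given by `S`. -/
def SA (j : ℤ) : Module.End ℂ (AH j) where
  toFun f := AH.mk (sop j f.fn) (f.bc.sop j) f.aut.sop
  map_add' f g := AH.ext fun τ => by simp [sop, mul_add]
  map_smul' c f := AH.ext fun τ => by simp [sop]; ring

theorem SA_fn (f : AH j) : (SA j f).fn = sop j f.fn := rfl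

theorem SA_SA (f : AH j) : SA j (SA j f) = f := AH.ext fun τ => congrFun (sop_sop j f.fn) τ

theorem inner_SA_SA (f g : AH j) : ⟪SA j f, SA j g⟫_ℂ = ⟪f, g⟫_ℂ := by
  rw [AH.inner_def, AH.inner_def, ← mean_smul (f.ll g) ModularGroup.S]
  congr 1
  funext τ
  have h : ph (4 * j + 1) (-I * τ) * conj (ph (4 * j + 1) (-I * τ)) = 1 := by
    rw [mul_conj, normSq_eq_norm_sq, norm_ph]; simp
  simp only [SA_fn, sop, map_mul, conj_conj]
  linear_combination (conj (f.fn (ModularGroup.S • τ)) * g.fn (ModularGroup.S • τ)) * h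

theorem inner_SA (f g : AH j) : ⟪SA j f, g⟫_ℂ = ⟪f, SA j g⟫_ℂ := by
  rw [← inner_SA_SA, SA_SA]

theorem norm_SA (f : AH j) : ‖SA j f‖ = ‖f‖ := by
  rw [@norm_eq_sqrt_re_inner ℂ, inner_SA_SA, ← @norm_eq_sqrt_re_inner ℂ]

end

end Pool.Agent.Lib.MP_e6abdd_an
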