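import Pool.Agent.Lib.MP_e6abdd_an.Defs

/-!
Auxiliary estimates for theta series: unit phases, geometric majorants and Gaussian sums.
-/

namespace Pool.Agent.Lib.MP_e6abdd_an

open Complex hiding Gamma
open UpperHalfPlane hiding I
open MeasureTheory Filter Topology CongruenceSubgroup
open scoped Real MatrixGroups ComplexConjugate

theorem theta_un_eq {z : ℂ} (hz : z ≠ 0) : cexp (I * arg z) = z / (‖z‖ : ℝ) := by
  have h := norm_mul_exp_arg_mul_I z
  have h0 : ((‖z‖ : ℝ) : ℂ) ≠ 0 := by simpa using hz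
  rw [eq_div_iff h0, mul_comm I, mul_comm, h]

theorem theta_un_mul {z w : ℂ} (hz : z ≠ 0) (hw : w ≠ 0) :
    cexp (I * arg (z * w)) = cexp (I * arg z) * cexp (I * arg w) := by
  rw [theta_un_eq hz, theta_un_eq hw, theta_un_eq (mul_ne_zero hz hw), norm_mul]
  push_cast
  rw [div_mul_div_comm]

theorem theta_un_neg {z : ℂ} (hz : z ≠ 0) : cexp (I * arg (-z)) = -cexp (I * arg z) := by
  rw [theta_un_eq hz, theta_un_eq (neg_ne_zero.2 hz), norm_neg, neg_div]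

theorem theta_quad {a : ℝ} (ha : 0 < a) (L t : ℝ) : -a * t ^ 2 + L * |t| ≤ L ^ 2 / (4 * a) := by
  rw [le_div_iff₀ (by positivity), ← sq_abs t]
  nlinarith [sq_nonneg (2 * a * |t| - L)]

/-- A geometric majorant on the integers. -/
theorem theta_geom {c : ℝ} (hc : 0 < c) (α : ℝ) :
    Summable (fun b : ℤ => Real.exp (-(c * |b + α|))) ∧
      ∑' b : ℤ, Real.exp (-(c * |b + α|)) ≤ 2 * (1 + c⁻¹) := by
  have hr0 : 0 ≤ Real.exp (-c) := (Real.exp_pos _).le
  have hr1 : Real.exp (-c) < 1 := Real.exp_lt_one_iff.2 (by linarith)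
  have hg := hasSum_geometric_of_lt_one hr0 hr1
  have h2 := HasSum.int_rec hg hg
  set g : ℤ → ℝ := Int.rec (fun n : ℕ => Real.exp (-c) ^ n) (fun n : ℕ => Real.exp (-c) ^ n)
  have h3 : HasSum (fun b : ℤ => g (b + ⌊α⌋)) ((1 - Real.exp (-c))⁻¹ + (1 - Real.exp (-c))⁻¹) :=
    (Equiv.addRight ⌊α⌋).hasSum_iff.2 h2
  have hle : ∀ b : ℤ, Real.exp (-(c * |b + α|)) ≤ g (b + ⌊α⌋) := by
    intro b
    have f1 := Int.floor_le α
    have f2 := Int.lt_floor_add_one α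
    rcases hn : b + ⌊α⌋ with n | n
    · change _ ≤ Real.exp (-c) ^ n
      rw [← Real.exp_nat_mul, Real.exp_le_exp]
      have e : (b : ℝ) + ⌊α⌋ = n := by exact_mod_cast hn
      have : (n : ℝ) ≤ |b + α| := le_trans (by linarith) (le_abs_self _)
      nlinarith
    · change _ ≤ Real.exp (-c) ^ n
      rw [← Real.exp_nat_mul, Real.exp_le_exp]
      have e : (b : ℝ) + ⌊α⌋ = -(n + 1) := by
        have : b + ⌊α⌋ = -(n + 1 : ℤ) := by rw [hn, Int.negSucc_eq]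
        exact_mod_cast this
      have : (n : ℝ) ≤ |b + α| := le_trans (by linarith) (neg_le_abs _)
      nlinarith
  have hs : Summable (fun b : ℤ => Real.exp (-(c * |b + α|))) :=
    Summable.of_nonneg_of_le (fun _ => (Real.exp_pos _).le) hle h3.summable
  refine ⟨hs, (hs.tsum_le_tsum hle h3.summable).trans ?_⟩
  rw [h3.tsum_eq]
  have h4 : (1 - Real.exp (-c))⁻¹ ≤ 1 + c⁻¹ := by
    have h5 : c + 1 ≤ Real.exp c := Real.add_one_le_exp c
    have h6 : Real.exp (-c) * Real.exp c = 1 := by rw [← Real.exp_add]; simp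
    have h7 : Real.exp (-c) * (c + 1) ≤ 1 := by nlinarith
    rw [inv_le_iff_one_le_mul₀ (by linarith)]
    have : (1 + c⁻¹) * (1 - Real.exp (-c)) = (c + 1 - Real.exp (-c) * (c + 1)) / c := by
      field_simp
    rw [this, le_div_iff₀ hc]
    linarith
  linarith

theorem theta_summable_abs : Summable fun b : ℤ => Real.exp (-|(b : ℝ)|) := by
  simpa using (theta_geom one_pos 0).1

theorem theta_summable2 : Summable fun v : ℤ × ℤ => Real.exp (-(|(v.1 : ℝ)| + |(v.2 : ℝ)|)) := by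
  have := theta_summable_abs.mul_of_nonneg theta_summable_abs (fun _ => (Real.exp_pos _).le)
    (fun _ => (Real.exp_pos _).le)
  refine this.congr fun v => ?_
  rw [← Real.exp_add]; congr 1; ring

theorem theta_summable3 : Summable fun v : ℤ × ℤ × ℤ =>
    Real.exp (-(|(v.1 : ℝ)| + |(v.2.1 : ℝ)| + |(v.2.2 : ℝ)|)) := by
  have h := theta_summable_abs.mul_of_nonneg theta_summable2 (fun _ => (Real.exp_pos _).le)
    (fun _ => (Real.exp_pos _).le)
  have e : (fun v : ℤ × ℤ × ℤ => Real.exp (-(|(v.1 : ℝ)| + |(v.2.1 : ℝ)| + |(v.2.2 : ℝ)|))) =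
      fun v : ℤ × ℤ × ℤ =>
        Real.exp (-|(v.1 : ℝ)|) * Real.exp (-(|(v.2.1 : ℝ)| + |(v.2.2 : ℝ)|)) := by
    funext v
    rw [← Real.exp_add]; congr 1; ring
  rw [e]
  exact h

/-- Gaussian sums over a lattice of rank three converge absolutely. -/
theorem theta_gauss3 {y₁ y₂ y₃ θ : ℤ × ℤ × ℤ → ℝ} {q₁ q₂ q₃ M B : ℝ} (h₁ : 0 < q₁) (h₂ : 0 < q₂)
    (h₃ : 0 < q₃) (l₁ l₂ l₃ c₀ : ℂ) {W : ℤ × ℤ × ℤ → ℂ} (hW : ∀ n, ‖W n‖ ≤ B)
    (hM : ∀ n : ℤ × ℤ × ℤ,
      |(n.1 : ℝ)| + |(n.2.1 : ℝ)| + |(n.2.2 : ℝ)| ≤ M * (|y₁ n| + |y₂ n| + |y₃ n|)) :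
    Summable fun n => W n * cexp (-q₁ * y₁ n ^ 2 - q₂ * y₂ n ^ 2 - q₃ * y₃ n ^ 2 + l₁ * y₁ n +
      l₂ * y₂ n + l₃ * y₃ n + c₀ + I * θ n) := by
  set K := (M + |l₁.re|) ^ 2 / (4 * q₁) + (M + |l₂.re|) ^ 2 / (4 * q₂) +
    (M + |l₃.re|) ^ 2 / (4 * q₃) + c₀.re
  refine Summable.of_norm_bounded (theta_summable3.mul_left (B * Real.exp K)) fun n => ?_
  rw [norm_mul, mul_assoc, ← Real.exp_add, norm_exp]
  refine mul_le_mul (hW n) (Real.exp_le_exp.2 ?_) (Real.exp_pos _).le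
    ((norm_nonneg _).trans (hW n))
  have e : (-q₁ * y₁ n ^ 2 - q₂ * y₂ n ^ 2 - q₃ * y₃ n ^ 2 + l₁ * y₁ n +
      l₂ * y₂ n + l₃ * y₃ n + c₀ + I * θ n : ℂ).re = -q₁ * y₁ n ^ 2 - q₂ * y₂ n ^ 2 -
      q₃ * y₃ n ^ 2 + l₁.re * y₁ n + l₂.re * y₂ n + l₃.re * y₃ n + c₀.re := by
    simp [← ofReal_pow]
  rw [e]
  have a1 := theta_quad h₁ (M + |l₁.re|) (y₁ n)
  have a2 := theta_quad h₂ (M + |l₂.re|) (y₂ n)
  have a3 := theta_quad h₃ (M + |l₃.re|) (y₃ n)
  have b1 : l₁.re * y₁ n ≤ |l₁.re| * |y₁ n| := by rw [← abs_mul]; exact le_abs_self _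
  have b2 : l₂.re * y₂ n ≤ |l₂.re| * |y₂ n| := by rw [← abs_mul]; exact le_abs_self _
  have b3 : l₃.re * y₃ n ≤ |l₃.re| * |y₃ n| := by rw [← abs_mul]; exact le_abs_self _
  have := hM n
  simp only [K]
  linarith

theorem theta_lin3 (a b c x y z : ℝ) :
    |a * x + b * y + c * z| ≤ (|a| + |b| + |c|) * (|x| + |y| + |z|) := by
  have h : |a * x + b * y + c * z| ≤ |a| * |x| + |b| * |y| + |c| * |z| := by
    rw [← abs_mul, ← abs_mul, ← abs_mul]; exact abs_add_three _ _ _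
  have := abs_nonneg a; have := abs_nonneg b; have := abs_nonneg c
  have := abs_nonneg x; have := abs_nonneg y; have := abs_nonneg z
  nlinarith [mul_nonneg (abs_nonneg a) (abs_nonneg y), mul_nonneg (abs_nonneg a) (abs_nonneg z),
    mul_nonneg (abs_nonneg b) (abs_nonneg x), mul_nonneg (abs_nonneg b) (abs_nonneg z),
    mul_nonneg (abs_nonneg c) (abs_nonneg x), mul_nonneg (abs_nonneg c) (abs_nonneg y)]

/-- Poisson summation for a Gaussian twisted by a periodic function. -/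
theorem theta_poisson {N : ℕ} (hN : 0 < N) {W : ℤ → ℂ} (hW : ∀ d m : ℤ, W (d + N * m) = W d) :
    ∃ (w : ℤ → ℂ) (B : ℝ), (∀ n m : ℤ, w (n + N * m) = w n) ∧ (∀ n, ‖w n‖ ≤ B) ∧
      ∀ (A : ℝ), 0 < A → ∀ b : ℂ, ∑' d : ℤ, W d * cexp (-π * A * d ^ 2 + 2 * π * b * d) =
        ((√A : ℝ) : ℂ)⁻¹ * ∑' n : ℤ, w n * cexp (-π / A * (n / N - I * b) ^ 2) := by
  have : NeZero N := ⟨hN.ne'⟩
  have hN' : (N : ℂ) ≠ 0 := by exact_mod_cast hN.ne'
  refine ⟨fun n => (N : ℂ)⁻¹ * ∑ k : Fin N, W k * cexp (-(2 * π * I * n * k / N)),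
    (N : ℝ)⁻¹ * ∑ k : Fin N, ‖W k‖, fun n m => ?_, fun n => ?_, fun A hA b => ?_⟩
  · beta_reduce
    congr 1
    refine Finset.sum_congr rfl fun k _ => ?_
    congr 1
    rw [exp_eq_exp_iff_exists_int]
    refine ⟨-(m * k), ?_⟩
    push_cast
    field_simp
    ring
  · rw [norm_mul, norm_inv, Complex.norm_natCast]
    refine mul_le_mul_of_nonneg_left ((norm_sum_le _ _).trans (le_of_eq ?_)) (by positivity)
    refine Finset.sum_congr rfl fun k _ => ?_
    have : (-(2 * π * I * n * k / N) : ℂ) = (-(2 * π * n * k / N) : ℝ) * I := by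
      push_cast; ring
    rw [norm_mul, this, norm_exp_ofReal_mul_I, mul_one]
  have hA' : (A : ℂ) ≠ 0 := by exact_mod_cast hA.ne'
  -- summability of Gaussians
  have hs : ∀ (a : ℝ), 0 < a → ∀ c : ℂ,
      Summable fun n : ℤ => cexp (-π * a * n ^ 2 + 2 * π * c * n) := by
    intro a ha c
    have := (summable_jacobiTheta₂_term_iff (-I * c) (I * a)).2 (by simpa using ha)
    refine this.congr fun n => ?_
    rw [jacobiTheta₂_term]
    congr 1
    linear_combination (-2 * π * n * c + π * n ^ 2 * a) * I_mul_I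
  obtain ⟨B, hB⟩ : ∃ B, ∀ d, ‖W d‖ ≤ B := by
    refine ⟨∑ k : Fin N, ‖W k‖, fun d => ?_⟩
    obtain ⟨⟨m, k⟩, rfl⟩ := (Int.divModEquiv N).symm.surjective d
    change ‖W (m * N + (k : ℕ))‖ ≤ _
    rw [add_comm, mul_comm, hW]
    exact Finset.single_le_sum (f := fun k : Fin N => ‖W k‖) (fun _ _ => norm_nonneg _)
      (Finset.mem_univ k)
  have hsW : Summable fun d : ℤ => W d * cexp (-π * A * d ^ 2 + 2 * π * b * d) :=
    Summable.of_norm_bounded ((hs A hA b).norm.mul_left B) fun d => by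
      rw [norm_mul]; exact mul_le_mul_of_nonneg_right (hB d) (norm_nonneg _)
  let e : Fin N × ℤ ≃ ℤ := (Equiv.prodComm _ _).trans (Int.divModEquiv N).symm
  have he : ∀ p : Fin N × ℤ, e p = p.2 * N + (p.1 : ℕ) := fun p => rfl
  have hsE := e.summable_iff.2 hsW
  rw [Function.comp_def] at hsE
  rw [← e.tsum_eq, hsE.tsum_prod, tsum_fintype]
  beta_reduce
  have hs2 : ∀ k : Fin N, Summable fun n : ℤ =>
      cexp (-(2 * π * I * n * k / N)) * cexp (-π / A * (n / N - I * b) ^ 2) := by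
    intro k
    have := (hs (A * N ^ 2)⁻¹ (by positivity) (I * b / (A * N) - I * k / N)).mul_left
      (cexp (π / A * b ^ 2))
    refine this.congr fun n => ?_
    rw [← exp_add, ← exp_add]
    congr 1
    push_cast
    field_simp
    linear_combination (N ^ 2 * b ^ 2) * I_mul_I
  have key : ∀ k : Fin N, ∑' m : ℤ, W (e (k, m)) *
      cexp (-π * A * (e (k, m) : ℤ) ^ 2 + 2 * π * b * (e (k, m) : ℤ)) = ((√A : ℝ) : ℂ)⁻¹ *
        ∑' n : ℤ, (N : ℂ)⁻¹ * (W k * cexp (-(2 * π * I * n * k / N))) *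
          cexp (-π / A * (n / N - I * b) ^ 2) := by
    intro k
    have h1 : ∀ m : ℤ, W (e (k, m)) *
        cexp (-π * A * (e (k, m) : ℤ) ^ 2 + 2 * π * b * (e (k, m) : ℤ)) =
        W k * cexp (-π * A * k ^ 2 + 2 * π * b * k) *
          cexp (-π * (A * N ^ 2 : ℝ) * m ^ 2 + 2 * π * (b * N - A * N * k) * m) := by
      intro m
      rw [he, add_comm, mul_comm m, hW, mul_assoc (W k), ← exp_add]
      congr 2
      push_cast
      ring
    have h2 : ((A * N ^ 2 : ℝ) : ℂ) ^ (1 / 2 : ℂ) = (√A : ℝ) * N := by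
      have : (1 / 2 : ℂ) = ((1 / 2 : ℝ) : ℂ) := by push_cast; rfl
      rw [this, ← ofReal_cpow (by positivity), ← Real.sqrt_eq_rpow, Real.sqrt_mul hA.le,
        Real.sqrt_sq (by positivity)]
      push_cast; rfl
    simp_rw [h1]
    rw [tsum_mul_left, Complex.tsum_exp_neg_quadratic (by rw [ofReal_re]; positivity), h2,
      ← (Equiv.neg ℤ).tsum_eq, ← tsum_mul_left, ← tsum_mul_left, ← tsum_mul_left]
    refine tsum_congr fun n => ?_
    have h3 : cexp (-π * A * k ^ 2 + 2 * π * b * k) * cexp (-π / (A * N ^ 2 : ℝ) *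
        ((Equiv.neg ℤ n : ℤ) + I * (b * N - A * N * k)) ^ 2) = cexp (-(2 * π * I * n * k / N)) *
          cexp (-π / A * (n / N - I * b) ^ 2) := by
      rw [← exp_add, ← exp_add]
      congr 1
      rw [Equiv.neg_apply]
      push_cast
      field_simp
      linear_combination (2 * A * N ^ 2 * b * k - A ^ 2 * N ^ 2 * k ^ 2) * I_mul_I
    rw [one_div, mul_inv]
    linear_combination (W k * ((√A : ℝ) : ℂ)⁻¹ * (N : ℂ)⁻¹) * h3
  simp_rw [key]
  rw [← Finset.mul_sum, ← Summable.tsum_finsetSum]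
  · congr 1
    refine tsum_congr fun n => ?_
    rw [Finset.mul_sum, Finset.sum_mul]
  · intro k _
    refine ((hs2 k).mul_left ((N : ℂ)⁻¹ * W k)).congr fun n => ?_
    ring

end Pool.Agent.Lib.MP_e6abdd_an
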