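import Pool.Agent.Lib.MP_e6abdd_an.Mult
import Pool.Agent.Lib.MP_e6abdd_an.ThetaA

/-!
Transformation laws of the theta kernel.
-/

namespace Pool.Agent.Lib.MP_e6abdd_an

open Complex hiding Gamma
open UpperHalfPlane hiding I
open MeasureTheory Filter Topology CongruenceSubgroup
open scoped Real MatrixGroups ComplexConjugate

theorem theta_GG_eq (τ : ℍ) (α β : ℝ) (s : ℂ) : GG τ α β s = (τ.im ^ (1 / 4 : ℝ) : ℝ) *
    (cexp (π * I * τ * α ^ 2 + π * I * β * α + 2 * π * (√τ.im : ℝ) * s * α - π * s ^ 2 / 2) *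
      jacobiTheta₂ (τ * α + β - I * (√τ.im : ℝ) * s) τ) := by
  rw [GG, jacobiTheta₂]
  congr 1
  rw [← tsum_mul_left]
  refine tsum_congr fun b => ?_
  rw [jacobiTheta₂_term, ← exp_add]
  congr 1
  linear_combination (2 * π * b * (√τ.im : ℝ) * s) * I_mul_I

theorem theta_GG_neg (τ : ℍ) (α β : ℝ) (s : ℂ) : GG τ (-α) (-β) (-s) = GG τ α β s := by
  rw [GG, GG, ← (Equiv.neg ℤ).tsum_eq]
  congr 1
  refine tsum_congr fun b => ?_
  congr 1
  rw [Equiv.neg_apply]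
  push_cast
  ring

theorem theta_GG_aff (n : ℤ) (τ : ℍ) (α β : ℝ) (s : ℂ) :
    GG (aff 1 (2 * n) τ) α β s = GG τ α (β + 2 * n * α) s := by
  rw [GG, GG, aff_im one_pos, one_mul, coe_aff one_pos]
  congr 1
  refine tsum_congr fun b => ?_
  rw [exp_eq_exp_iff_exists_int]
  refine ⟨n * b ^ 2, ?_⟩
  push_cast
  ring

theorem theta_GG_S (τ : ℍ) (α β : ℝ) (s : ℂ) : GG (ModularGroup.S • τ) α β s =
    ph 1 (-I * τ) * GG τ β (-α) (s * cexp (I * arg (τ : ℂ))) := by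
  have h0 : (τ : ℂ) ≠ 0 := τ.ne_zero
  have hn : 0 < ‖(τ : ℂ)‖ := norm_pos_iff.2 h0
  have hn' : ((‖(τ : ℂ)‖ : ℝ) : ℂ) ≠ 0 := by exact_mod_cast hn.ne'
  have hv := τ.im_pos
  have him : (ModularGroup.S • τ).im = τ.im / ‖(τ : ℂ)‖ ^ 2 := by
    rw [im_SL_smul, hgt, normSq_eq_norm_sq]; simp [ModularGroup.S]
  have hsq : √(ModularGroup.S • τ).im = √τ.im / ‖(τ : ℂ)‖ := by
    rw [him, Real.sqrt_div hv.le, Real.sqrt_sq hn.le]
  have h4 : (ModularGroup.S • τ).im ^ (1 / 4 : ℝ) = τ.im ^ (1 / 4 : ℝ) / √‖(τ : ℂ)‖ := by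
    rw [him, Real.div_rpow hv.le (by positivity), ← Real.rpow_natCast, ← Real.rpow_mul hn.le,
      Real.sqrt_eq_rpow]
    norm_num
  have hp : (-I * (τ : ℂ)) ^ (1 / 2 : ℂ) = (√‖(τ : ℂ)‖ : ℝ) * ph 1 (-I * τ) := by
    have h1 : -I * (τ : ℂ) ≠ 0 := mul_ne_zero (neg_ne_zero.2 I_ne_zero) h0
    rw [cpow_def_of_ne_zero h1, Complex.log, ph, Real.sqrt_eq_rpow, Real.rpow_def_of_pos hn,
      ofReal_exp, ← exp_add]
    congr 1
    simp only [norm_mul, norm_neg, norm_I, one_mul]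
    push_cast
    ring
  have hs0 : ((√‖(τ : ℂ)‖ : ℝ) : ℂ) ≠ 0 := by
    exact_mod_cast (Real.sqrt_pos.2 hn).ne'
  have hph : ph 1 (-I * τ) ≠ 0 := exp_ne_zero _
  set ρ : ℂ := ((√τ.im : ℝ) : ℂ) with hρ
  set m : ℂ := ((‖(τ : ℂ)‖ : ℝ) : ℂ) with hm
  have hρ2 : ρ ^ 2 = τ.im := by rw [hρ, ← ofReal_pow, Real.sq_sqrt hv.le]
  have hm2 : m ^ 2 = τ * (τ - 2 * I * τ.im) := by
    rw [hm, ← ofReal_pow, ← normSq_eq_norm_sq, ← mul_conj]
    congr 1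
    apply Complex.ext <;> simp
    ring
  rw [theta_GG_eq, theta_GG_eq, theta_un_eq h0, ← hm, ← hρ, hsq, h4, coe_S_smul,
    jacobiTheta₂_functional_equation ((τ : ℂ) * β + (-α : ℝ) - I * ρ * (s * (τ / m))) τ, hp]
  have e1 : ((τ : ℂ) * β + (-α : ℝ) - I * ρ * (s * (τ / m))) / τ =
      -1 / τ * α + β - I * (√τ.im / ‖(τ : ℂ)‖ : ℝ) * s := by
    push_cast
    rw [← hm, ← hρ]
    field_simp
    ring
  rw [e1]
  have e2 : cexp (π * I * (-1 / τ) * α ^ 2 + π * I * β * α +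
      2 * π * (√τ.im / ‖(τ : ℂ)‖ : ℝ) * s * α - π * s ^ 2 / 2) =
      cexp (π * I * τ * β ^ 2 + π * I * (-α : ℝ) * β + 2 * π * ρ * (s * (τ / m)) * β -
        π * (s * (τ / m)) ^ 2 / 2) *
        cexp (-π * I * (τ * β + (-α : ℝ) - I * ρ * (s * (τ / m))) ^ 2 / τ) := by
    rw [← exp_add]
    congr 1
    push_cast
    rw [← hm, ← hρ]
    field_simp
    linear_combination (-s ^ 2 * τ) * hm2 + (2 * I ^ 3 * s ^ 2 * τ ^ 2) * hρ2 +
      (4 * α * ρ * s * m * τ - 4 * β * ρ * s * m * τ ^ 2 + 2 * I * s ^ 2 * τ ^ 2 * τ.im) * I_mul_I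
  rw [e2, ofReal_div]
  generalize ph 1 (-I * τ) = P at hph
  generalize jacobiTheta₂ _ _ = J
  generalize cexp _ = E
  generalize cexp _ = E'
  field_simp

theorem theta_cocycle (γ γ' : SL(2, ℤ)) (τ : ℍ) :
    ((γ * γ') 1 0 * (τ : ℂ) + (γ * γ') 1 1) =
      (γ 1 0 * ((γ' • τ : ℍ) : ℂ) + γ 1 1) * (γ' 1 0 * (τ : ℂ) + γ' 1 1) := by
  have h := denom_ne (ModularGroup.bottom_row_coprime γ') τ
  rw [coe_SL_smul]
  simp only [Matrix.SpecialLinearGroup.coe_mul, Matrix.mul_apply, Fin.sum_univ_two]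
  push_cast
  field_simp
  ring

theorem GG_law {γ : SL(2, ℤ)} (hγ : γ ∈ Gamma 2) (τ : ℍ) (α β : ℝ) (s : ℂ) :
    GG (γ • τ) α β s = JJ 0 (γ 1 0) (γ 1 1) τ * GG τ (α * γ 0 0 + β * γ 1 0)
      (α * γ 0 1 + β * γ 1 1) (s * cexp (I * arg (γ 1 0 * (τ : ℂ) + γ 1 1))) := by
  revert τ α β s
  refine gamma2_induction (P := fun γ => ∀ (τ : ℍ) (α β : ℝ) (s : ℂ),
    GG (γ • τ) α β s = JJ 0 (γ 1 0) (γ 1 1) τ * GG τ (α * γ 0 0 + β * γ 1 0)
      (α * γ 0 1 + β * γ 1 1) (s * cexp (I * arg (γ 1 0 * (τ : ℂ) + γ 1 1))))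
    ?_ ?_ ?_ ?_ ?_ γ hγ
  · intro τ α β s
    have h := JJ_neg 0 (c := 0) ⟨0, rfl⟩ 1 τ
    rw [JJ_zero_one, neg_zero] at h
    rw [ModularGroup.SL_neg_smul, one_smul, ← theta_GG_neg]
    simp [h, mul_comm I, exp_pi_mul_I]
  · intro τ α β s
    have e : (ModularGroup.T ^ 2 : SL(2, ℤ)) = ModularGroup.T ^ (2 : ℤ) := rfl
    have h := theta_GG_aff 1 τ α β s
    rw [e, T_zpow_smul]
    simp only [ModularGroup.coe_T_zpow]
    simp only [Int.cast_one, mul_one] at h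
    simp [JJ_zero_one, h, add_comm, mul_comm]
  · intro τ α β s
    have h0 : (τ : ℂ) ≠ 0 := τ.ne_zero
    have h := theta_GG_aff (-1) (ModularGroup.S • τ)
    simp only [Int.cast_neg, Int.cast_one, mul_neg, mul_one] at h
    set w := aff 1 (-2) (ModularGroup.S • τ) with hw
    have hw0 : (w : ℂ) ≠ 0 := w.ne_zero
    have hw1 : -((w : ℂ) * τ) = 2 * τ + 1 := by
      rw [hw, coe_aff one_pos, coe_S_smul]; push_cast; field_simp; ring
    have hJ := JJ_U2 0 τ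
    simp only [mul_zero, zero_add] at hJ
    rw [U2_smul, theta_GG_S, h, theta_GG_S, ← theta_GG_neg τ]
    have u : ∀ i j, U2 i j = !![(1 : ℤ), 0; 2, 1] i j := fun _ _ => rfl
    simp only [u, Matrix.of_apply, Matrix.cons_val', Matrix.cons_val_zero, Matrix.cons_val_one,
      Matrix.cons_val_fin_one]
    rw [hJ, ← hw, mul_assoc (ph 1 (-I * w))]
    congr 3
    · push_cast; ring
    · push_cast; ring
    · push_cast
      rw [← hw1, theta_un_neg (mul_ne_zero hw0 h0), theta_un_mul hw0 h0]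
      ring
  · intro γ h γ' h' ih ih' τ α β s
    rw [mul_smul, ih, ih', JJ_mul 0 h h', theta_cocycle,
      theta_un_mul (denom_ne (ModularGroup.bottom_row_coprime γ) _) (denom_ne (ModularGroup.bottom_row_coprime γ') _),
      mul_assoc s, ← mul_assoc (JJ 0 _ _ _)]
    congr 2 <;>
    · simp only [Matrix.SpecialLinearGroup.coe_mul, Matrix.mul_apply, Fin.sum_univ_two]
      push_cast
      ring
  · intro γ h ih τ α β s
    have h1 := JJ_mul 0 h (inv_mem h) τ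
    have h2 := theta_cocycle γ γ⁻¹ τ
    have h3 := theta_un_mul (denom_ne (ModularGroup.bottom_row_coprime γ) (γ⁻¹ • τ))
      (denom_ne (ModularGroup.bottom_row_coprime γ⁻¹) τ)
    rw [← h2] at h3
    rw [mul_inv_cancel] at h1 h3
    simp only [Matrix.SpecialLinearGroup.coe_one, ne_eq, one_ne_zero, not_false_eq_true,
      Matrix.one_apply_ne, Matrix.one_apply_eq, JJ_zero_one, Int.cast_zero, zero_mul, Int.cast_one,
      zero_add, arg_one, ofReal_zero, mul_zero, exp_zero] at h1 h3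
    have h4 := ih (γ⁻¹ • τ) (α * γ⁻¹ 0 0 + β * γ⁻¹ 1 0) (α * γ⁻¹ 0 1 + β * γ⁻¹ 1 1)
      (s * cexp (I * arg (γ⁻¹ 1 0 * (τ : ℂ) + γ⁻¹ 1 1)))
    have hd : (γ 0 0 : ℝ) * γ 1 1 - γ 0 1 * γ 1 0 = 1 := by
      have := γ.det_coe
      rw [Matrix.det_fin_two] at this
      exact_mod_cast this
    have i00 : γ⁻¹ 0 0 = γ 1 1 := by simp [Matrix.SpecialLinearGroup.coe_inv, Matrix.adjugate_fin_two]
    have i01 : γ⁻¹ 0 1 = -γ 0 1 := by simp [Matrix.SpecialLinearGroup.coe_inv, Matrix.adjugate_fin_two]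
    have i10 : γ⁻¹ 1 0 = -γ 1 0 := by simp [Matrix.SpecialLinearGroup.coe_inv, Matrix.adjugate_fin_two]
    have i11 : γ⁻¹ 1 1 = γ 0 0 := by simp [Matrix.SpecialLinearGroup.coe_inv, Matrix.adjugate_fin_two]
    have a1 : (α * γ⁻¹ 0 0 + β * γ⁻¹ 1 0) * γ 0 0 + (α * γ⁻¹ 0 1 + β * γ⁻¹ 1 1) * γ 1 0 = α := by
      rw [i00, i01, i10, i11]; push_cast; linear_combination α * hd
    have a2 : (α * γ⁻¹ 0 0 + β * γ⁻¹ 1 0) * γ 0 1 + (α * γ⁻¹ 0 1 + β * γ⁻¹ 1 1) * γ 1 1 = β := by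
      rw [i00, i01, i10, i11]; push_cast; linear_combination β * hd
    rw [smul_inv_smul, a1, a2, mul_assoc s, mul_comm (cexp _), ← h3, mul_one] at h4
    rw [h4, ← mul_assoc, mul_comm (JJ 0 _ _ τ), ← h1, one_mul]

theorem theta_re_le (l : ℂ) (t R : ℝ) (h : ‖l‖ ≤ R) : l.re * t ≤ R * |t| :=
  (le_abs_self _).trans (by
    rw [abs_mul]; exact mul_le_mul_of_nonneg_right ((abs_re_le_norm l).trans h) (abs_nonneg _))

theorem norm_GG_le (R : ℝ) : ∃ C : ℝ, 0 ≤ C ∧ ∀ (τ : ℍ) (α β : ℝ) (s : ℂ), ‖s‖ ≤ R →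
    ‖GG τ α β s‖ ≤ C * (τ.im ^ (1 / 4 : ℝ) + τ.im ^ (-1 / 4 : ℝ)) := by
  set K := (2 * π * R + 1) ^ 2 / (4 * π) + π * R ^ 2 / 2
  refine ⟨Real.exp K * 2, by positivity, fun τ α β s hs => ?_⟩
  have hv := τ.im_pos
  have hc : 0 < √τ.im := Real.sqrt_pos.2 hv
  obtain ⟨h1, h2⟩ := theta_geom hc α
  have hb : ∀ b : ℤ, ‖cexp (π * I * τ * (b + α) ^ 2 + 2 * π * I * β * (b + α / 2) +
      2 * π * (√τ.im : ℝ) * s * (b + α) - π * s ^ 2 / 2)‖ ≤
      Real.exp K * Real.exp (-(√τ.im * |b + α|)) := by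
    intro b
    rw [norm_exp, ← Real.exp_add, Real.exp_le_exp]
    have e : (π * I * τ * (b + α) ^ 2 + 2 * π * I * β * (b + α / 2) +
        2 * π * (√τ.im : ℝ) * s * (b + α) - π * s ^ 2 / 2 : ℂ).re =
        -π * (τ.im * (b + α) ^ 2) + 2 * π * (s.re * (√τ.im * (b + α))) - π * (s ^ 2).re / 2 := by
      have : ((b : ℂ) + α) = ((b + α : ℝ) : ℂ) := by push_cast; rfl
      rw [this, ← ofReal_pow]
      simp [-ofReal_add, -ofReal_pow]
      ring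
    have q := theta_quad Real.pi_pos (2 * π * R + 1) (√τ.im * (b + α))
    have q2 := theta_re_le s (√τ.im * (b + α)) R hs
    have q3 : -(s ^ 2).re ≤ R ^ 2 := (neg_le_abs _).trans ((abs_re_le_norm _).trans (by
      rw [norm_pow]; exact pow_le_pow_left₀ (norm_nonneg _) hs 2))
    rw [mul_pow, Real.sq_sqrt hv.le] at q
    rw [abs_mul, abs_of_pos hc] at q q2
    rw [e]
    simp only [K]
    nlinarith [Real.pi_pos]
  have h3 := (tsum_of_norm_bounded (h1.mul_left (Real.exp K)).hasSum hb)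
  rw [tsum_mul_left] at h3
  rw [GG, norm_mul, norm_real, Real.norm_of_nonneg (by positivity)]
  have h4 : τ.im ^ (-1 / 4 : ℝ) = τ.im ^ (1 / 4 : ℝ) * (√τ.im)⁻¹ := by
    rw [Real.sqrt_eq_rpow, ← Real.rpow_neg hv.le, ← Real.rpow_add hv]; norm_num
  rw [h4]
  have h5 : 0 ≤ τ.im ^ (1 / 4 : ℝ) := by positivity
  calc _ ≤ τ.im ^ (1 / 4 : ℝ) * (Real.exp K * (2 * (1 + (√τ.im)⁻¹))) :=
        mul_le_mul_of_nonneg_left (h3.trans (mul_le_mul_of_nonneg_left h2 (by positivity))) h5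
    _ = _ := by ring

theorem continuous_GG : Continuous fun q : ℍ × ℝ × ℝ × ℂ => GG q.1 q.2.1 q.2.2.1 q.2.2.2 := by
  simp_rw [theta_GG_eq]
  have h1 : Continuous fun q : ℍ × ℝ × ℝ × ℂ => q.1.im ^ (1 / 4 : ℝ) :=
    (UpperHalfPlane.continuous_im.comp continuous_fst).rpow_const fun _ => Or.inr (by norm_num)
  have h2 : Continuous fun q : ℍ × ℝ × ℝ × ℂ =>
      jacobiTheta₂ (q.1 * q.2.1 + q.2.2.1 - I * (√q.1.im : ℝ) * q.2.2.2) q.1 := by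
    refine continuous_iff_continuousAt.2 fun q => ?_
    have h3 : Continuous fun q : ℍ × ℝ × ℝ × ℂ =>
        (((q.1 : ℂ) * q.2.1 + q.2.2.1 - I * (√q.1.im : ℝ) * q.2.2.2, (q.1 : ℂ)) : ℂ × ℂ) := by
      fun_prop
    exact ContinuousAt.comp (f := fun q : ℍ × ℝ × ℝ × ℂ =>
        (((q.1 : ℂ) * q.2.1 + q.2.2.1 - I * (√q.1.im : ℝ) * q.2.2.2, (q.1 : ℂ)) : ℂ × ℂ))
      (continuousAt_jacobiTheta₂ _ q.1.im_pos) h3.continuousAt
  exact (continuous_ofReal.comp h1).mul (Continuous.mul (by fun_prop) h2)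

theorem norm_f1_le (R : ℝ) : ∃ C : ℝ, 0 ≤ C ∧ ∀ ζ s₁ s₃ : ℂ, ‖s₁‖ ≤ R → ‖s₃‖ ≤ R →
    ‖f1 ζ s₁ s₃‖ ≤ C * Real.exp (-normSq ζ) := by
  have hπ : 0 < π - 1 := by linarith [Real.pi_gt_three]
  set K := (π * √2 * (2 * R)) ^ 2 / (4 * (π - 1)) + π * R ^ 2
  refine ⟨Real.exp K, by positivity, fun ζ s₁ s₃ h₁ h₃ => ?_⟩
  have hR : 0 ≤ R := (norm_nonneg _).trans h₁
  rw [f1, norm_exp, ← Real.exp_add, Real.exp_le_exp, add_re, sub_re]
  have q := theta_quad hπ (π * √2 * (2 * R)) ‖ζ‖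
  have e1 : (-π * normSq ζ : ℂ).re = -π * ‖ζ‖ ^ 2 := by
    rw [← normSq_eq_norm_sq]; simp
  have e2 : -(I * π * (√2 : ℝ) * (s₁ * conj ζ + s₃ * ζ)).re ≤ π * √2 * (2 * R) * ‖ζ‖ := by
    refine (neg_le_abs _).trans ((abs_re_le_norm _).trans ?_)
    have : ‖s₁ * conj ζ + s₃ * ζ‖ ≤ 2 * R * ‖ζ‖ := by
      refine (norm_add_le _ _).trans ?_
      rw [norm_mul, norm_mul, norm_conj]
      nlinarith [norm_nonneg ζ]
    rw [norm_mul, norm_mul, norm_mul, norm_I, one_mul, norm_real, norm_real,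
      Real.norm_of_nonneg Real.pi_pos.le, Real.norm_of_nonneg (Real.sqrt_nonneg _),
      mul_assoc (π * √2)]
    exact mul_le_mul_of_nonneg_left this (by positivity)
  have e3 : (π * s₁ * s₃ : ℂ).re ≤ π * R ^ 2 := by
    refine (re_le_norm _).trans ?_
    rw [norm_mul, norm_mul, norm_real, Real.norm_of_nonneg Real.pi_pos.le, mul_assoc, sq]
    exact mul_le_mul_of_nonneg_left (mul_le_mul h₁ h₃ (norm_nonneg _) hR) Real.pi_pos.le
  rw [abs_norm] at q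
  rw [e1, normSq_eq_norm_sq]
  simp only [K]
  linarith

theorem theta_norm_WW (D N : ℕ) (d : ℤ) : ‖(WW D N d : ℂ)‖ ≤ 1 := by
  rw [WW]
  split_ifs
  · rcases jacobiSym.trichotomy (D : ℤ) d.natAbs with h | h | h <;> simp [h]
  · simp

/-- The terms of the theta kernel have a summable majorant, uniformly for bounded parameters. -/
theorem term_majorant {D N : ℕ} (hD : 0 < D) (τ z : ℍ) (R : ℝ) :
    ∃ b : ℤ × ℤ → ℝ, Summable b ∧ ∀ sp sm s₃ : ℂ, ‖sp‖ ≤ R → ‖sm‖ ≤ R → ‖s₃‖ ≤ R →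
      ∀ v : ℤ × ℤ, ‖term D N τ z sp sm s₃ v.1 v.2‖ ≤ b v := by
  obtain ⟨C, hC, hG⟩ := norm_GG_le R
  obtain ⟨C', hC', hf⟩ := norm_f1_le R
  have hv := τ.im_pos
  have hr := z.im_pos
  have hD' : (0 : ℝ) < D := by exact_mod_cast hD
  set A := z.im ^ 2 / (2 * D * τ.im) with hA
  have hA0 : 0 < A := by positivity
  set K := 1 ^ 2 / (4 * A) + (|τ.re| + 1) ^ 2 / (4 * (A * τ.im ^ 2))
  set G := C * ((aff D 0 τ).im ^ (1 / 4 : ℝ) + (aff D 0 τ).im ^ (-1 / 4 : ℝ))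
  refine ⟨_, theta_summable2.mul_left (z.im * (C' * Real.exp K) * G),
    fun sp sm s₃ h1 h2 h3 v => ?_⟩
  have g1 : ‖(sp + sm) / 2‖ ≤ R := by
    rw [norm_div, Complex.norm_two]; linarith [norm_add_le sp sm]
  have g2 : ‖(sp - sm) / (2 * I)‖ ≤ R := by
    rw [norm_div, norm_mul, Complex.norm_two, norm_I]; linarith [norm_sub_le sp sm]
  have g3 := hG (aff D 0 τ) (z.re * v.1 / D) (z.re * v.2) _ g2
  have g4 := hf (z.im * (v.1 * (τ : ℂ) + v.2) / (√(2 * D * τ.im) : ℝ)) _ _ g1 h3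
  have g5 : normSq (z.im * (v.1 * (τ : ℂ) + v.2) / (√(2 * D * τ.im) : ℝ)) =
      A * (v.1 * τ.re + v.2) ^ 2 + A * τ.im ^ 2 * v.1 ^ 2 := by
    rw [map_div₀, map_mul, normSq_ofReal, normSq_ofReal, Real.mul_self_sqrt (by positivity),
      normSq_apply, hA]
    simp
    ring
  have g6 : Real.exp (-normSq (z.im * (v.1 * (τ : ℂ) + v.2) / (√(2 * D * τ.im) : ℝ))) ≤
      Real.exp K * Real.exp (-(|(v.1 : ℝ)| + |(v.2 : ℝ)|)) := by
    rw [← Real.exp_add, Real.exp_le_exp, g5]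
    have q1 := theta_quad hA0 1 (v.1 * τ.re + v.2)
    have q2 := theta_quad (show 0 < A * τ.im ^ 2 by positivity) (|τ.re| + 1) v.1
    have q3 : |(v.2 : ℝ)| ≤ |v.1 * τ.re + v.2| + |τ.re| * |(v.1 : ℝ)| := by
      rw [← abs_mul]
      have := abs_sub (v.1 * τ.re + v.2) (τ.re * v.1)
      rwa [show v.1 * τ.re + v.2 - τ.re * v.1 = v.2 by ring] at this
    simp only [K]
    linarith
  have g7 := theta_norm_WW D N v.2
  have hG0 : 0 ≤ G := (norm_nonneg _).trans g3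
  rw [term, norm_mul, norm_mul, norm_mul, norm_real, Real.norm_of_nonneg hr.le]
  calc _ ≤ 1 * z.im * (C' * (Real.exp K * Real.exp (-(|(v.1 : ℝ)| + |(v.2 : ℝ)|)))) * G := by
        gcongr
        exact g4.trans (mul_le_mul_of_nonneg_left g6 hC')
    _ = _ := by ring

end Pool.Agent.Lib.MP_e6abdd_an
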