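import Pool.Agent.Lib.MP_e6abdd_an.Mult

/-!
Integration on the upper half plane, horocycle averages, cusps, the mean and unfolding.
-/

namespace Pool.Agent.Lib.MP_e6abdd_an

open Complex hiding Gamma
open UpperHalfPlane hiding I
open MeasureTheory Filter Topology CongruenceSubgroup
open scoped Real MatrixGroups ComplexConjugate

open ModularGroup (S T)

theorem measurePreserving_SL (γ : SL(2, ℤ)) : MeasurePreserving fun τ : ℍ => γ • τ :=
  measurePreserving_smul (Matrix.SpecialLinearGroup.mapGL ℝ γ) (volume : Measure ℍ)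

theorem measurePreserving_aff {r : ℝ} (hr : 0 < r) (x : ℝ) : MeasurePreserving (aff r x) := by
  have hd : (!![r, x; 0, 1] : Matrix (Fin 2) (Fin 2) ℝ).det ≠ 0 := by
    simpa [Matrix.det_fin_two] using hr.ne'
  have h : aff r x = fun τ : ℍ => Matrix.GeneralLinearGroup.mkOfDetNeZero _ hd • τ := by
    funext τ
    refine UpperHalfPlane.ext ?_
    rw [coe_aff hr, coe_smul_of_det_pos (by simpa [Matrix.det_fin_two] using hr)]
    simp [num, denom]
  rw [h]
  exact measurePreserving_smul _ (volume : Measure ℍ)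

theorem tile_measurable_ofComplex : Measurable (ofComplex : ℂ → ℍ) := by
  rw [← measurableEmbedding_coe.measurable_comp_iff]
  have h : (UpperHalfPlane.coe ∘ (ofComplex : ℂ → ℍ)) =
      Set.piecewise {z : ℂ | 0 < z.im} id fun _ => ((ofComplex 0 : ℍ) : ℂ) := by
    classical
    funext z
    by_cases hz : 0 < z.im
    · rw [Set.piecewise_eq_of_mem _ _ _ (show z ∈ {z : ℂ | 0 < z.im} from hz)]
      simp [ofComplex_apply_of_im_pos hz]
    · rw [Set.piecewise_eq_of_notMem _ _ _ (show z ∉ {z : ℂ | 0 < z.im} from hz)]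
      exact congrArg UpperHalfPlane.coe
        (ofComplex_apply_eq_of_im_nonpos (w' := 0) (not_lt.1 hz) (by simp))
  rw [h]
  exact Measurable.piecewise (measurableSet_lt measurable_const Complex.measurable_im)
    measurable_id measurable_const

theorem measurable_pt : Measurable fun p : ℝ × ℝ => pt p.1 p.2 :=
  tile_measurable_ofComplex.comp (by fun_prop)

theorem lintegral_upper {G : ℍ → ENNReal} (hG : Measurable G) :
    ∫⁻ τ, G τ = ∫⁻ y in Set.Ioi (0 : ℝ), (∫⁻ x, G (pt x y)) * ENNReal.ofReal (1 / y ^ 2) := by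
  have hd : Measurable fun y : ℝ => ENNReal.ofReal (1 / y ^ 2) := by fun_prop
  have hH : Measurable fun z : ℂ => G (ofComplex z) * ENNReal.ofReal (1 / z.im ^ 2) :=
    (hG.comp tile_measurable_ofComplex).mul (hd.comp Complex.measurable_im)
  have hU : MeasurableSet {z : ℂ | 0 < z.im} :=
    measurableSet_lt measurable_const Complex.measurable_im
  have h1 : (fun z : ℍ => (((1 / NNReal.mk z.im z.im_pos.le : NNReal) ^ 2 : NNReal) : ENNReal)) =
      fun z : ℍ => ENNReal.ofReal (1 / z.im ^ 2) := by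
    funext z
    rw [← ENNReal.ofReal_coe_nnreal]
    congr 1
    simp
  have h2 : ∫⁻ τ, G τ = ∫⁻ z in {z : ℂ | 0 < z.im},
      G (ofComplex z) * ENNReal.ofReal (1 / z.im ^ 2) := by
    rw [volume_def, h1, lintegral_withDensity_eq_lintegral_mul _
      (show Measurable fun z : ℍ => ENNReal.ofReal (1 / z.im ^ 2) from
        hd.comp UpperHalfPlane.continuous_im.measurable) hG]
    have h3 : {z : ℂ | 0 < z.im} = Set.range UpperHalfPlane.coe := UpperHalfPlane.range_coe.symm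
    rw [h3, ← measurableEmbedding_coe.map_comap, measurableEmbedding_coe.lintegral_map]
    refine lintegral_congr fun τ => ?_
    simp [mul_comm]
  rw [h2, ← lintegral_indicator hU,
    ← (Complex.volume_preserving_equiv_real_prod.symm).lintegral_comp (hH.indicator hU),
    ← lintegral_indicator measurableSet_Ioi]
  rw [Measure.volume_eq_prod]
  refine (lintegral_prod_symm _
    ((hH.indicator hU).comp measurableEquivRealProd.symm.measurable).aemeasurable).trans ?_
  refine lintegral_congr fun y => ?_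
  simp only [Function.comp_apply]
  have he : ∀ x : ℝ, measurableEquivRealProd.symm (x, y) = (x : ℂ) + y * I := fun x => by
    simp [Complex.ext_iff]
  by_cases hy : 0 < y
  · rw [Set.indicator_of_mem (show y ∈ Set.Ioi 0 from hy), ← lintegral_mul_const _
      (show Measurable fun x => G (pt x y) from hG.comp (continuous_pt hy).measurable)]
    refine lintegral_congr fun x => ?_
    rw [he, Set.indicator_of_mem (by simpa using hy)]
    simp [pt]
  · rw [Set.indicator_of_notMem (show y ∉ Set.Ioi 0 from hy)]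
    refine (lintegral_congr fun x => ?_).trans lintegral_zero
    rw [he, Set.indicator_of_notMem (by simpa using hy)]

/-- The measure `dy / y ^ 2` on the positive reals. -/
noncomputable def tileHt : Measure ℝ :=
  (volume.restrict (Set.Ioi (0 : ℝ))).withDensity fun y => ENNReal.ofReal (1 / y ^ 2)

instance : SFinite tileHt := by unfold tileHt; infer_instance

theorem tile_measurePreserving_pt :
    MeasurePreserving (fun p : ℝ × ℝ => pt p.1 p.2) (volume.prod tileHt) volume := by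
  refine ⟨measurable_pt, Measure.ext fun s hs => ?_⟩
  have hd : Measurable fun y : ℝ => ENNReal.ofReal (1 / y ^ 2) := by fun_prop
  have hi : Measurable (s.indicator (1 : ℍ → ENNReal)) := measurable_one.indicator hs
  rw [← lintegral_indicator_one hs, ← lintegral_indicator_one hs, lintegral_map hi measurable_pt,
    lintegral_upper hi]
  refine (lintegral_prod_symm _ (hi.comp measurable_pt).aemeasurable).trans ?_
  rw [tileHt,
    lintegral_withDensity_eq_lintegral_mul _ hd (hi.comp measurable_pt).lintegral_prod_left']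
  exact lintegral_congr fun y => mul_comm _ _

theorem integral_upper {G : ℍ → ℂ} (hG : Integrable G) :
    ∫ τ, G τ = ∫ y in Set.Ioi (0 : ℝ), (∫ x, G (pt x y)) / y ^ 2 := by
  have hd : Measurable fun y : ℝ => ENNReal.ofReal (1 / y ^ 2) := by fun_prop
  have hp := tile_measurePreserving_pt
  have h1 : ∫ τ, G τ = ∫ p : ℝ × ℝ, G (pt p.1 p.2) ∂(volume.prod tileHt) := by
    rw [← hp.map_eq, integral_map hp.measurable.aemeasurable]
    rw [hp.map_eq]
    exact hG.aestronglyMeasurable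
  rw [h1]
  refine (integral_prod_symm _ (hp.integrable_comp_of_integrable hG)).trans ?_
  rw [tileHt, integral_withDensity_eq_integral_toReal_smul hd (by simp)]
  refine integral_congr_ae (Eventually.of_forall fun y => ?_)
  simp only [Function.comp_apply]
  rw [ENNReal.toReal_ofReal (by positivity), Complex.real_smul]
  push_cast
  ring

theorem measurableSet_strip : MeasurableSet strip :=
  UpperHalfPlane.continuous_re.measurable measurableSet_Ioc

theorem tile_indicator_strip {E : Type} [Zero E] (G : ℍ → E) {y : ℝ} (hy : 0 < y) (x : ℝ) :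
    strip.indicator G (pt x y) = (Set.Ioc (0 : ℝ) 2).indicator (fun x => G (pt x y)) x := by
  by_cases hx : x ∈ Set.Ioc (0 : ℝ) 2
  · rw [Set.indicator_of_mem hx, Set.indicator_of_mem]
    simpa [strip, pt_re x hy] using hx
  · rw [Set.indicator_of_notMem hx, Set.indicator_of_notMem]
    simpa [strip, pt_re x hy] using hx

theorem lintegral_strip {G : ℍ → ENNReal} (hG : Measurable G) : ∫⁻ τ in strip, G τ =
    ∫⁻ y in Set.Ioi (0 : ℝ), (∫⁻ x in Set.Ioc (0 : ℝ) 2, G (pt x y)) * ENNReal.ofReal (1 / y ^ 2) := by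
  rw [← lintegral_indicator measurableSet_strip, lintegral_upper (hG.indicator measurableSet_strip)]
  refine setLIntegral_congr_fun measurableSet_Ioi fun y hy => ?_
  simp only [tile_indicator_strip G hy, lintegral_indicator measurableSet_Ioc]

theorem integral_strip {G : ℍ → ℂ} (hG : IntegrableOn G strip) : ∫ τ in strip, G τ =
    ∫ y in Set.Ioi (0 : ℝ), (∫ x in (0 : ℝ)..2, G (pt x y)) / y ^ 2 := by
  rw [← integral_indicator measurableSet_strip,
    integral_upper ((integrable_indicator_iff measurableSet_strip).2 hG)]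
  refine setIntegral_congr_fun measurableSet_Ioi fun y hy => ?_
  simp only [tile_indicator_strip G hy, integral_indicator measurableSet_Ioc,
    intervalIntegral.integral_of_le (show (0 : ℝ) ≤ 2 by norm_num)]

/-- A function on the strip that is dominated by an integrable function of the height. -/
theorem integrableOn_strip {G : ℍ → ℂ} (hG : Measurable G) {b : ℝ → ℝ}
    (hb : IntegrableOn (fun y => b y / y ^ 2) (Set.Ioi 0)) (h : ∀ τ, ‖G τ‖ ≤ b τ.im) :
    IntegrableOn G strip := by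
  refine ⟨hG.aestronglyMeasurable, ?_⟩
  rw [hasFiniteIntegral_iff_enorm, lintegral_strip hG.enorm]
  have h2 := (hb.const_mul 2).2
  rw [hasFiniteIntegral_iff_enorm] at h2
  refine lt_of_le_of_lt (setLIntegral_mono' measurableSet_Ioi fun y hy => ?_) h2
  have hy' : 0 < y := hy
  have hb0 : 0 ≤ b y := by
    have := h (pt 0 y)
    rw [pt_im 0 hy'] at this
    exact (norm_nonneg _).trans this
  have h3 : ∫⁻ x in Set.Ioc (0 : ℝ) 2, ‖G (pt x y)‖ₑ ≤ ENNReal.ofReal (b y) * ENNReal.ofReal 2 := by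
    calc ∫⁻ x in Set.Ioc (0 : ℝ) 2, ‖G (pt x y)‖ₑ
        ≤ ∫⁻ _ in Set.Ioc (0 : ℝ) 2, ENNReal.ofReal (b y) := by
          refine lintegral_mono fun x => ?_
          have := h (pt x y)
          rw [pt_im x hy'] at this
          rw [← ofReal_norm]
          exact ENNReal.ofReal_le_ofReal this
      _ = _ := by simp
  refine (mul_le_mul_left h3 _).trans (le_of_eq ?_)
  rw [← ENNReal.ofReal_mul hb0, ← ENNReal.ofReal_mul (by positivity),
    Real.enorm_eq_ofReal (by positivity)]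
  congr 1
  ring

theorem hav_eq {F : ℍ → ℂ} (hF : Continuous F) {P : ℝ} (hP : 0 < P)
    (per : ∀ τ, F (aff 1 P τ) = F τ) {y : ℝ} (hy : 0 < y) : hav F y = fc P F 0 y := by
  have hfc : ∀ L : ℝ, fc L F 0 y = (L : ℂ)⁻¹ * ∫ x in (0 : ℝ)..L, F (pt x y) := fun L => by
    simp [fc]
  set f : ℝ → ℂ := fun x => F (pt x y) with hf
  have hc : Continuous f := hF.comp (continuous_pt hy)
  have hper : Function.Periodic f P := fun x => by
    have := per (pt x y)
    rw [aff_pt one_pos P x hy, one_mul, one_mul] at this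
    exact this
  have hi : ∀ a b, IntervalIntegrable f volume a b := fun a b => hc.intervalIntegrable a b
  set m : ℂ := (P : ℂ)⁻¹ * ∫ x in (0 : ℝ)..P, f x with hm
  set g : ℝ → ℂ := fun L => (∫ x in (0 : ℝ)..L, f x) - L * m with hg
  have hP' : (P : ℂ) ≠ 0 := by exact_mod_cast hP.ne'
  have hgp : Function.Periodic g P := fun L => by
    simp only [hg]
    rw [hper.intervalIntegral_add_eq_add 0 L hi, zero_add, hm]
    push_cast
    field_simp
    ring
  have hgc : Continuous g :=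
    (intervalIntegral.continuous_primitive hi 0).sub (by fun_prop)
  obtain ⟨B, hB⟩ := isBounded_iff_forall_norm_le.1 (hgp.isBounded_of_continuous hP.ne' hgc)
  have h0 : Tendsto (fun L : ℝ => (L : ℂ)⁻¹ * g L) atTop (𝓝 0) := by
    refine squeeze_zero_norm' (a := fun L : ℝ => L⁻¹ * B) ?_ ?_
    · filter_upwards [eventually_gt_atTop 0] with L hL
      rw [norm_mul, norm_inv, Complex.norm_real, Real.norm_of_nonneg hL.le]
      exact mul_le_mul_of_nonneg_left (hB _ ⟨L, rfl⟩) (inv_nonneg.2 hL.le)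
    · simpa using tendsto_inv_atTop_zero.mul_const B
  have h1 : Tendsto (fun L : ℝ => fc L F 0 y) atTop (𝓝 m) := by
    have h2 := h0.add_const m
    rw [zero_add] at h2
    refine h2.congr' ?_
    filter_upwards [eventually_gt_atTop 0] with L hL
    have hL' : (L : ℂ) ≠ 0 := by exact_mod_cast hL.ne'
    rw [hfc, hg]
    field_simp
    ring
  rw [hav, h1.limUnder_eq, hfc]

theorem tile_fc_eq (f : ℍ → ℂ) {P : ℝ} (hP : 0 < P) (n : ℤ) (y : ℝ) :
    fc P f n y = fourierCoeffOn hP (fun x => f (pt x y)) n := by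
  rw [fourierCoeffOn_eq_integral, fc, Complex.real_smul]
  simp only [fourier_coe_apply, smul_eq_mul, sub_zero]
  congr 1
  · simp
  · refine intervalIntegral.integral_congr fun x _ => ?_
    rw [mul_comm]
    congr 2
    push_cast
    ring

theorem tile_memLp {f : ℝ → ℂ} (hf : Continuous f) (a b : ℝ) :
    MemLp f 2 (volume.restrict (Set.Ioc a b)) := by
  obtain ⟨C, hC⟩ := isCompact_Icc.exists_bound_of_continuousOn (hf.continuousOn (s := Set.Icc a b))
  refine MemLp.of_bound hf.aestronglyMeasurable C ?_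
  filter_upwards [ae_restrict_mem measurableSet_Ioc] with x hx
  exact hC x (Set.Ioc_subset_Icc_self hx)

theorem tile_parseval {a b : ℝ} {f g : ℝ → ℂ} (hab : a < b)
    (hf : MemLp f 2 (volume.restrict (Set.Ioc a b)))
    (hg : MemLp g 2 (volume.restrict (Set.Ioc a b))) :
    HasSum (fun i => conj (fourierCoeffOn hab f i) * fourierCoeffOn hab g i)
      ((b - a)⁻¹ • ∫ x in a..b, conj (f x) * g x) := by
  have := Fact.mk (by linarith : 0 < b - a)
  rw [← add_sub_cancel a b] at hf hg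
  have h := hf.memLp_liftIoc.haarAddCircle
  have h' := hg.memLp_liftIoc.haarAddCircle
  have H := (fourierBasis (T := b - a)).hasSum_inner_mul_inner h.toLp h'.toLp
  have e1 : (fun i => conj (fourierCoeffOn hab f i) * fourierCoeffOn hab g i) = fun i =>
      inner ℂ h.toLp (fourierBasis i) * inner ℂ (fourierBasis i) h'.toLp := by
    funext i
    rw [← inner_conj_symm, ← HilbertBasis.repr_apply_apply, ← HilbertBasis.repr_apply_apply,
      fourierBasis_repr, fourierBasis_repr]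
    simp [fourierCoeff_congr_ae h.coeFn_toLp, fourierCoeff_congr_ae h'.coeFn_toLp,
      fourierCoeff_liftIoc_eq]
  have e2 : (b - a)⁻¹ • ∫ x in a..b, conj (f x) * g x = inner ℂ h.toLp h'.toLp := by
    nth_rw 2 [← add_sub_cancel a b]
    rw [← AddCircle.integral_liftIoc_eq_intervalIntegral, ← AddCircle.integral_haarAddCircle,
      L2.inner_def]
    apply integral_congr_ae
    filter_upwards [h.coeFn_toLp, h'.coeFn_toLp] with x hx hx'
    rw [hx, hx', RCLike.inner_apply, mul_comm]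
    simp only [AddCircle.liftIoc, Function.comp_apply, Set.domRestrict_apply]
  rw [e1, e2]
  exact H

theorem parseval {f g : ℍ → ℂ} (hf : Continuous f) (hg : Continuous g) {P : ℝ} (hP : 0 < P)
    {y : ℝ} (hy : 0 < y) : HasSum (fun n : ℤ => conj (fc P f n y) * fc P g n y)
      (fc P (fun τ => conj (f τ) * g τ) 0 y) := by
  have H := tile_parseval hP (tile_memLp (hf.comp (continuous_pt hy)) 0 P)
    (tile_memLp (hg.comp (continuous_pt hy)) 0 P)
  have e : fc P (fun τ => conj (f τ) * g τ) 0 y =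
      (P - 0)⁻¹ • ∫ x in (0 : ℝ)..P, conj (f (pt x y)) * g (pt x y) := by simp [fc]
  rw [e]
  simp only [tile_fc_eq f hP, tile_fc_eq g hP]
  exact H

theorem parseval_norm {f : ℍ → ℂ} (hf : Continuous f) {P : ℝ} (hP : 0 < P)
    {y : ℝ} (hy : 0 < y) : HasSum (fun n : ℤ => ‖fc P f n y‖ ^ 2)
      (P⁻¹ * ∫ x in (0 : ℝ)..P, ‖f (pt x y)‖ ^ 2) := by
  have H := hasSum_sq_fourierCoeffOn hP (tile_memLp (hf.comp (continuous_pt hy)) 0 P)
  rw [smul_eq_mul, sub_zero] at H
  simp only [tile_fc_eq f hP]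
  exact H

theorem continuousOn_fc {f : ℍ → ℂ} (hf : Continuous f) (P : ℝ) (n : ℤ) :
    ContinuousOn (fc P f n) (Set.Ioi 0) := by
  rw [continuousOn_iff_continuous_domRestrict]
  have h1 : Continuous fun p : Set.Ioi (0 : ℝ) × ℝ => pt p.2 p.1 :=
    continuousOn_pt.comp_continuous
      (f := fun p : Set.Ioi (0 : ℝ) × ℝ => (p.2, (p.1 : ℝ))) (by fun_prop) fun p => p.1.2
  have h2 : Continuous (Function.uncurry fun (y : Set.Ioi (0 : ℝ)) (x : ℝ) =>
      f (pt x y) * cexp (-(2 * π * I * n * x / P))) :=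
    (hf.comp h1).mul (by fun_prop)
  exact continuous_const.mul
    (intervalIntegral.continuous_parametric_intervalIntegral_of_continuous' h2 0 P)

theorem fc_aff {f : ℍ → ℂ} {P : ℝ} (hP : 0 < P) (per : ∀ τ, f (aff 1 P τ) = f τ) (s : ℝ) (n : ℤ)
    {y : ℝ} (hy : 0 < y) :
    fc P (fun τ => f (aff 1 s τ)) n y = cexp (2 * π * I * n * s / P) * fc P f n y := by
  have hP' : (P : ℂ) ≠ 0 := by exact_mod_cast hP.ne'
  set h : ℝ → ℂ := fun x => f (pt x y) * cexp (-(2 * π * I * n * x / P)) with hh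
  have hper : Function.Periodic h P := fun x => by
    have h1 := per (pt x y)
    rw [aff_pt one_pos P x hy, one_mul, one_mul] at h1
    simp only [hh, h1]
    congr 1
    rw [Complex.exp_eq_exp_iff_exists_int]
    refine ⟨-n, ?_⟩
    push_cast
    field_simp
    ring
  have h2 : ∀ x : ℝ, f (aff 1 s (pt x y)) * cexp (-(2 * π * I * n * x / P)) =
      cexp (2 * π * I * n * s / P) * h (x + s) := fun x => by
    rw [aff_pt one_pos s x hy, one_mul, one_mul, hh]
    simp only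
    rw [mul_left_comm, ← Complex.exp_add]
    congr 2
    push_cast
    field_simp
    ring
  have h3 := hper.intervalIntegral_add_eq s 0
  simp only [fc, h2]
  rw [intervalIntegral.integral_const_mul, intervalIntegral.integral_comp_add_right h s,
    zero_add, add_comm P s, h3, zero_add]
  ring

theorem hgt_pos {c d : ℤ} (h : IsCoprime c d) (τ : ℍ) : 0 < hgt c d τ :=
  div_pos τ.im_pos (normSq_pos.2 (denom_ne h τ))

theorem continuous_hgt {c d : ℤ} (h : IsCoprime c d) : Continuous (hgt c d) :=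
  UpperHalfPlane.continuous_im.div (Complex.continuous_normSq.comp (by fun_prop))
    fun τ => (normSq_pos.2 (denom_ne h τ)).ne'

theorem tile_row_coprime (γ : SL(2, ℤ)) : IsCoprime (γ 1 0) (γ 1 1) :=
  ModularGroup.bottom_row_coprime γ

theorem tile_det (γ : SL(2, ℤ)) : γ 0 0 * γ 1 1 - γ 0 1 * γ 1 0 = 1 := by
  have := γ.det_coe
  rwa [Matrix.det_fin_two] at this

theorem hgt_smul (γ : SL(2, ℤ)) (c d : ℤ) (τ : ℍ) :
    hgt c d (γ • τ) = hgt (c * γ 0 0 + d * γ 1 0) (c * γ 0 1 + d * γ 1 1) τ := by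
  have hj := denom_ne (tile_row_coprime γ) τ
  have hj' : normSq (γ 1 0 * (τ : ℂ) + γ 1 1) ≠ 0 := (normSq_pos.2 hj).ne'
  have h1 : (c : ℂ) * ((γ • τ : ℍ) : ℂ) + d =
      (((c * γ 0 0 + d * γ 1 0 : ℤ) : ℂ) * τ + ((c * γ 0 1 + d * γ 1 1 : ℤ) : ℂ)) /
        (γ 1 0 * (τ : ℂ) + γ 1 1) := by
    rw [coe_SL_smul, eq_div_iff hj, add_mul, mul_assoc, div_mul_cancel₀ _ hj]
    push_cast
    ring
  rw [hgt, h1, im_SL_smul, hgt, hgt, map_div₀, div_div_div_cancel_right₀ hj']

theorem tile_normSq (c d : ℤ) (τ : ℍ) :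
    normSq (c * (τ : ℂ) + d) = (c * τ.re + d) ^ 2 + (c * τ.im) ^ 2 := by
  simp [normSq_apply, sq]

theorem hgt_mul_le (c d : ℤ) (τ : ℍ) : hgt c d τ * (c ^ 2 * τ.im) ≤ 1 := by
  rw [hgt, div_mul_eq_mul_div]
  refine div_le_one_of_le₀ ?_ (normSq_nonneg _)
  rw [tile_normSq]
  nlinarith [sq_nonneg ((c : ℝ) * τ.re + d)]

/-- Right multiplication of row vectors by `γ`. -/
def rowEquiv (γ : SL(2, ℤ)) : ℤ × ℤ ≃ ℤ × ℤ where
  toFun v := (v.1 * γ 0 0 + v.2 * γ 1 0, v.1 * γ 0 1 + v.2 * γ 1 1)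
  invFun v := (v.1 * γ 1 1 - v.2 * γ 1 0, -v.1 * γ 0 1 + v.2 * γ 0 0)
  left_inv := fun v => Prod.ext (by simp only; linear_combination v.1 * tile_det γ)
    (by simp only; linear_combination v.2 * tile_det γ)
  right_inv := fun v => Prod.ext (by simp only; linear_combination v.1 * tile_det γ)
    (by simp only; linear_combination v.2 * tile_det γ)

theorem isCoprime_rowEquiv (γ : SL(2, ℤ)) (v : ℤ × ℤ) :
    IsCoprime (rowEquiv γ v).1 (rowEquiv γ v).2 ↔ IsCoprime v.1 v.2 := by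
  change IsCoprime (v.1 * γ 0 0 + v.2 * γ 1 0) (v.1 * γ 0 1 + v.2 * γ 1 1) ↔ _
  constructor
  · rintro ⟨a, b, h⟩
    exact ⟨a * γ 0 0 + b * γ 0 1, a * γ 1 0 + b * γ 1 1, by linear_combination h⟩
  · rintro ⟨a, b, h⟩
    exact ⟨a * γ 1 1 - b * γ 0 1, -a * γ 1 0 + b * γ 0 0, by
      linear_combination h + (a * v.1 + b * v.2) * tile_det γ⟩

theorem tile_im_fd {τ : ℍ} (h : τ ∈ ModularGroup.fd) : 3 / 4 ≤ τ.im := by
  have h1 := ModularGroup.three_le_four_mul_im_sq_of_mem_fd h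
  have h2 := τ.im_pos
  by_contra h3
  push Not at h3
  nlinarith

theorem exists_hgt (τ : ℍ) : ∃ c d, IsCoprime c d ∧ 3 / 4 ≤ hgt c d τ := by
  obtain ⟨γ, hγ⟩ := ModularGroup.exists_smul_mem_fd τ
  exact ⟨γ 1 0, γ 1 1, tile_row_coprime γ, im_SL_smul γ τ ▸ tile_im_fd hγ⟩

/-- Rows of height at least `δ` at some point of a box are bounded. -/
theorem tile_box {δ y₁ : ℝ} (hδ : 0 < δ) (hy₁ : 0 < y₁) (y₂ R : ℝ) : ∃ K : ℕ, 1 ≤ K ∧
    ∀ (τ : ℍ) (c d : ℤ), y₁ ≤ τ.im → τ.im ≤ y₂ → |τ.re| ≤ R → δ ≤ hgt c d τ →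
      (c, d) ∈ Finset.Icc (-K : ℤ) K ×ˢ Finset.Icc (-K : ℤ) K := by
  set A := y₂ / δ with hA
  obtain ⟨K, hK⟩ := exists_nat_ge (|1 + A / y₁ ^ 2| + |1 + A + (1 + A / y₁ ^ 2) * R|)
  refine ⟨K + 1, by omega, fun τ c d h1 h2 h3 h4 => ?_⟩
  have hn : 0 < normSq (c * (τ : ℂ) + d) := by
    rcases (normSq_nonneg (c * (τ : ℂ) + d)).eq_or_lt with h | h
    · rw [hgt, ← h, div_zero] at h4
      linarith
    · exact h
  rw [hgt, le_div_iff₀ hn, tile_normSq] at h4
  have h5 : ((c : ℝ) * τ.re + d) ^ 2 + (c * τ.im) ^ 2 ≤ A := by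
    rw [hA, le_div_iff₀ hδ]
    linarith
  have h6 : (c : ℝ) ^ 2 ≤ A / y₁ ^ 2 := by
    rw [le_div_iff₀ (by positivity)]
    have : y₁ ^ 2 ≤ τ.im ^ 2 := by gcongr
    nlinarith [sq_nonneg ((c : ℝ) * τ.re + d), sq_nonneg (c : ℝ)]
  have h7 : |(c : ℝ)| ≤ 1 + A / y₁ ^ 2 := by
    nlinarith [sq_abs (c : ℝ), sq_nonneg (|(c : ℝ)| - 1), abs_nonneg (c : ℝ)]
  have h8 : |(c : ℝ) * τ.re + d| ≤ 1 + A := by
    nlinarith [sq_abs ((c : ℝ) * τ.re + d), sq_nonneg (|(c : ℝ) * τ.re + d| - 1),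
      abs_nonneg ((c : ℝ) * τ.re + d), sq_nonneg ((c : ℝ) * τ.im)]
  have h9 : |(d : ℝ)| ≤ 1 + A + (1 + A / y₁ ^ 2) * R := by
    have e : (d : ℝ) = (c * τ.re + d) - c * τ.re := by ring
    have h10 : |(c : ℝ) * τ.re| ≤ (1 + A / y₁ ^ 2) * R := by
      rw [abs_mul]
      exact mul_le_mul h7 h3 (abs_nonneg _) ((abs_nonneg _).trans h7)
    rw [e]
    exact (abs_sub _ _).trans (add_le_add h8 h10)
  have hc : |(c : ℝ)| ≤ K := by
    linarith [le_abs_self (1 + A / y₁ ^ 2), abs_nonneg (1 + A + (1 + A / y₁ ^ 2) * R)]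
  have hd : |(d : ℝ)| ≤ K := by
    linarith [le_abs_self (1 + A + (1 + A / y₁ ^ 2) * R), abs_nonneg (1 + A / y₁ ^ 2)]
  have hc' : |c| ≤ K := by exact_mod_cast hc
  have hd' : |d| ≤ K := by exact_mod_cast hd
  rw [abs_le] at hc' hd'
  simp only [Finset.mem_product, Finset.mem_Icc]
  omega

theorem locallyFinite_hgt {δ : ℝ} (hδ : 0 < δ) :
    LocallyFinite fun v : ℤ × ℤ => {τ : ℍ | IsCoprime v.1 v.2 ∧ δ ≤ hgt v.1 v.2 τ} := by
  intro τ₀
  have h0 := τ₀.im_pos
  obtain ⟨K, -, hK⟩ := tile_box hδ (half_pos h0) (τ₀.im + 1) (|τ₀.re| + 1)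
  refine ⟨{τ | τ₀.im / 2 < τ.im ∧ τ.im < τ₀.im + 1 ∧ |τ.re| < |τ₀.re| + 1}, ?_, ?_⟩
  · refine IsOpen.mem_nhds ?_ ⟨by linarith, by linarith, by linarith⟩
    exact (isOpen_lt continuous_const UpperHalfPlane.continuous_im).inter
      ((isOpen_lt UpperHalfPlane.continuous_im continuous_const).inter
        (isOpen_lt UpperHalfPlane.continuous_re.abs continuous_const))
  · refine (Finset.finite_toSet (Finset.Icc (-K : ℤ) K ×ˢ Finset.Icc (-K : ℤ) K)).subset ?_
    rintro v ⟨τ, ⟨-, h1⟩, h2, h3, h4⟩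
    exact hK τ v.1 v.2 h2.le h3.le h4.le h1

theorem card_hgt {δ : ℝ} (hδ : 0 < δ) : ∃ N : ℕ, ∀ τ : ℍ, ∃ s : Finset (ℤ × ℤ), s.card ≤ N ∧
    ∀ v : ℤ × ℤ, IsCoprime v.1 v.2 → δ ≤ hgt v.1 v.2 τ → v ∈ s := by
  obtain ⟨K, hK1, hK⟩ := tile_box hδ (show (0 : ℝ) < 3 / 4 by norm_num) (1 / δ) (1 / 2)
  refine ⟨(Finset.Icc (-K : ℤ) K ×ˢ Finset.Icc (-K : ℤ) K).card, fun τ => ?_⟩
  obtain ⟨γ, hγ⟩ := ModularGroup.exists_smul_mem_fd τ
  refine ⟨(Finset.Icc (-K : ℤ) K ×ˢ Finset.Icc (-K : ℤ) K).map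
    (rowEquiv γ⁻¹).symm.toEmbedding, (Finset.card_map _).le, fun v hv h => ?_⟩
  rw [Finset.mem_map_equiv, Equiv.symm_symm]
  have h1 : δ ≤ hgt (rowEquiv γ⁻¹ v).1 (rowEquiv γ⁻¹ v).2 (γ • τ) := by
    have := hgt_smul γ⁻¹ v.1 v.2 (γ • τ)
    rw [inv_smul_smul] at this
    rw [this] at h
    exact h
  have h2 := (isCoprime_rowEquiv γ⁻¹ v).2 hv
  generalize rowEquiv γ⁻¹ v = w at h1 h2
  obtain ⟨c, d⟩ := w
  simp only at h1 h2
  by_cases hc : c = 0
  · subst hc
    have hd := Int.isUnit_iff.1 (isCoprime_zero_left.1 h2)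
    simp only [Finset.mem_product, Finset.mem_Icc]
    omega
  · refine hK (γ • τ) c d (tile_im_fd hγ) ?_ hγ.2 h1
    have h3 := hgt_mul_le c d (γ • τ)
    have h4 : (1 : ℝ) ≤ (c : ℝ) ^ 2 := by
      have : (1 : ℤ) ≤ c ^ 2 := by have := sq_pos_of_ne_zero hc; omega
      exact_mod_cast this
    have h5 := (γ • τ).im_pos
    rw [le_div_iff₀ hδ]
    have h6 : (γ • τ).im * δ ≤ ((c : ℝ) ^ 2 * (γ • τ).im) * hgt c d (γ • τ) :=
      mul_le_mul (by nlinarith) h1 hδ.le (by positivity)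
    linarith

/-- Sums over cusps of functions supported in horoballs are continuous. -/
theorem continuous_tsum_hgt {X E : Type} [TopologicalSpace X] [NormedAddCommGroup E]
    {R : Set (ℤ × ℤ)} (hR : ∀ v ∈ R, IsCoprime v.1 v.2) {w : X → ℍ} (hw : Continuous w)
    {δ : ℝ} (hδ : 0 < δ) {g : R → X → E} (hg : ∀ v, Continuous (g v))
    (h : ∀ v x, g v x ≠ 0 → δ ≤ hgt v.1.1 v.1.2 (w x)) : Continuous fun x => ∑' v, g v x := by
  have h1 : LocallyFinite fun v : R => Function.support (g v) :=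
    (((locallyFinite_hgt hδ).comp_injective
      (Subtype.val_injective (p := fun v => v ∈ R))).preimage_continuous hw).subset
      fun v x hx => ⟨hR v.1 v.2, h v x hx⟩
  have h2 : (fun x => ∑' v, g v x) = fun x => ∑ᶠ v, g v x :=
    funext fun x => tsum_eq_finsum (h1.point_finite x)
  rw [h2]
  exact continuous_finsum hg h1

theorem norm_tsum_hgt {δ : ℝ} (hδ : 0 < δ) : ∃ N : ℝ, 0 ≤ N ∧ ∀ (R : Set (ℤ × ℤ)),
    (∀ v ∈ R, IsCoprime v.1 v.2) → ∀ (τ : ℍ) (g : R → ℂ) (B : ℝ), 0 ≤ B → (∀ v, ‖g v‖ ≤ B) →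
      (∀ v, g v ≠ 0 → δ ≤ hgt v.1.1 v.1.2 τ) → Summable g ∧ ‖∑' v, g v‖ ≤ N * B := by
  classical
  obtain ⟨N, hN⟩ := card_hgt hδ
  refine ⟨N, Nat.cast_nonneg _, fun R hR τ g B hB hg h => ?_⟩
  obtain ⟨s, hs, hs'⟩ := hN τ
  have h1 : ∀ v : R, v ∉ s.subtype (· ∈ R) → g v = 0 := fun v hv => by
    by_contra h0
    exact hv (Finset.mem_subtype.2 (hs' v.1 (hR v.1 v.2) (h v h0)))
  refine ⟨summable_of_ne_finset_zero h1, ?_⟩
  rw [tsum_eq_sum h1]
  have h2 : (s.subtype (· ∈ R)).card ≤ N := by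
    rw [Finset.card_subtype]
    exact (Finset.card_filter_le _ _).trans hs
  refine (norm_sum_le _ _).trans ((Finset.sum_le_card_nsmul _ _ B fun v _ => hg v).trans ?_)
  rw [nsmul_eq_mul]
  exact mul_le_mul_of_nonneg_right (by exact_mod_cast h2) hB

theorem tile_le_hgt {T h : ℝ} (hT : 0 < T) (h0 : max 0 (h / T - 1) ≠ 0) : T ≤ h := by
  by_contra h1
  push Not at h1
  exact h0 (max_eq_left (by rw [sub_nonpos, div_le_one hT]; exact h1.le))

theorem continuous_chi {T : ℝ} (hT : 0 < T) : Continuous (chi T) := by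
  have h := continuous_tsum_hgt (R := {v : ℤ × ℤ | IsCoprime v.1 v.2}) (fun _ hv => hv)
    continuous_id hT (g := fun v τ => max 0 (hgt v.1.1 v.1.2 τ / T - 1))
    (fun v => continuous_const.max (((continuous_hgt v.2).div_const T).sub continuous_const))
    fun _ _ h0 => tile_le_hgt hT h0
  exact continuous_const.max (continuous_const.sub h)

theorem chi_smul (T : ℝ) (γ : SL(2, ℤ)) (τ : ℍ) : chi T (γ • τ) = chi T τ := by
  have h := ((rowEquiv γ).subtypeEquiv (p := fun v => IsCoprime v.1 v.2)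
    (q := fun v => IsCoprime v.1 v.2) fun v => (isCoprime_rowEquiv γ v).symm).tsum_eq
    fun v => max 0 (hgt v.1.1 v.1.2 τ / T - 1)
  rw [chi, chi, ← h]
  simp only [hgt_smul]
  rfl

theorem chi_nonneg (T : ℝ) (τ : ℍ) : 0 ≤ chi T τ := le_max_left _ _

theorem chi_le_one (T : ℝ) (τ : ℍ) : chi T τ ≤ 1 :=
  max_le zero_le_one (sub_le_self _ (tsum_nonneg fun _ => le_max_left _ _))

theorem chi_eq_one {T : ℝ} (hT : 0 < T) {τ : ℍ} (h : ∀ c d, IsCoprime c d → hgt c d τ ≤ T) :
    chi T τ = 1 := by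
  have h1 : ∀ v : {v : ℤ × ℤ // IsCoprime v.1 v.2}, max 0 (hgt v.1.1 v.1.2 τ / T - 1) = 0 :=
    fun v => max_eq_left (by rw [sub_nonpos, div_le_one hT]; exact h _ _ v.2)
  simp [chi, h1]

theorem hgt_le_of_chi {T : ℝ} (hT : 0 < T) {τ : ℍ} (h : chi T τ ≠ 0) {c d : ℤ}
    (hcd : IsCoprime c d) : hgt c d τ ≤ 2 * T := by
  have h1 : Summable fun v : {v : ℤ × ℤ // IsCoprime v.1 v.2} =>
      max 0 (hgt v.1.1 v.1.2 τ / T - 1) := by
    refine summable_of_hasFiniteSupport ?_
    exact (((locallyFinite_hgt hT).point_finite τ).preimage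
      Subtype.val_injective.injOn).subset fun v hv => ⟨v.2, tile_le_hgt hT hv⟩
  have h2 := h1.le_tsum ⟨(c, d), hcd⟩ fun _ _ => le_max_left _ _
  have h3 : ∑' v : {v : ℤ × ℤ // IsCoprime v.1 v.2}, max 0 (hgt v.1.1 v.1.2 τ / T - 1) ≤ 1 := by
    by_contra h4
    push Not at h4
    exact h (max_eq_left (by linarith))
  have h5 : hgt c d τ / T - 1 ≤ 1 := (le_max_right _ _).trans (h2.trans h3)
  rw [← div_le_iff₀ hT]
  linarith

theorem eventually_chi (τ : ℍ) : ∀ᶠ T in atTop, chi T τ = 1 := by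
  have hy := τ.im_pos
  filter_upwards [eventually_ge_atTop τ.im, eventually_ge_atTop (1 / τ.im)] with T h1 h2
  refine chi_eq_one (hy.trans_le h1) fun c d hcd => ?_
  by_cases hc : c = 0
  · subst hc
    rcases Int.isUnit_iff.1 (isCoprime_zero_left.1 hcd) with rfl | rfl <;> simpa [hgt] using h1
  · have h3 := hgt_mul_le c d τ
    have h4 : (1 : ℝ) ≤ (c : ℝ) ^ 2 := by
      have : (1 : ℤ) ≤ c ^ 2 := by have := sq_pos_of_ne_zero hc; omega
      exact_mod_cast this
    have h5 := hgt_pos hcd τ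
    refine le_trans ?_ h2
    rw [le_div_iff₀ hy]
    have h6 : hgt c d τ * τ.im ≤ hgt c d τ * ((c : ℝ) ^ 2 * τ.im) :=
      mul_le_mul_of_nonneg_left (by nlinarith) h5.le
    linarith

end Pool.Agent.Lib.MP_e6abdd_an
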