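import Mathlib

/-!
Equidistribution of primitive lattice points in a congruence class.
-/

namespace Pool.Agent.Lib.MP_e6abdd_an

open MeasureTheory Filter Topology
open scoped ArithmeticFunction.Moebius ArithmeticFunction.zeta

/-- A bounded continuous function with bounded support that vanishes at the origin. -/
structure Bump (f : ℝ × ℝ → ℝ) (R B : ℝ) : Prop where
  cont : Continuous f
  bdd : ∀ u, |f u| ≤ B
  supp : ∀ u, f u ≠ 0 → |u.1| ≤ R ∧ |u.2| ≤ R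
  zero : f (0, 0) = 0
  nonneg : 0 ≤ R

theorem unfold_step {h : ℝ} (hh : 0 < h) {k : ℤ × ℤ → ℝ}
    (hk : Integrable fun u : ℝ × ℝ => k (⌊u.1 / h⌋, ⌊u.2 / h⌋)) :
    ∫ u : ℝ × ℝ, k (⌊u.1 / h⌋, ⌊u.2 / h⌋) = h ^ 2 * ∑' w, k w := by
  have hφ : Measurable fun u : ℝ × ℝ => (⌊u.1 / h⌋, ⌊u.2 / h⌋) := by fun_prop
  have hm : ∀ m : Measure (ℤ × ℤ), AEStronglyMeasurable k m := fun _ =>
    (measurable_of_countable k).aestronglyMeasurable
  rw [← integral_map hφ.aemeasurable (hm _),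
    integral_countable ((integrable_map_measure (hm _) hφ.aemeasurable).2 hk), ← tsum_mul_left]
  refine tsum_congr fun w => ?_
  have e : ∀ (n : ℤ) (t : ℝ), ⌊t / h⌋ = n ↔ t ∈ Set.Ico (n * h) ((n + 1) * h) := fun n t => by
    rw [Int.floor_eq_iff, le_div_iff₀ hh, div_lt_iff₀ hh, Set.mem_Ico]
  have : (fun u : ℝ × ℝ => (⌊u.1 / h⌋, ⌊u.2 / h⌋)) ⁻¹' {w} =
      Set.Ico (w.1 * h) ((w.1 + 1) * h) ×ˢ Set.Ico (w.2 * h) ((w.2 + 1) * h) := by
    ext u
    rw [Set.mem_preimage, Set.mem_singleton_iff, Prod.ext_iff, e, e, Set.mem_prod]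
  rw [smul_eq_mul, map_measureReal_apply hφ (measurableSet_singleton w), this, measureReal_def,
    Measure.volume_eq_prod, Measure.prod_prod, Real.volume_Ico, Real.volume_Ico,
    ENNReal.toReal_mul, ENNReal.toReal_ofReal (by nlinarith), ENNReal.toReal_ofReal (by nlinarith)]
  ring

theorem unfold_floor {η m : ℝ} (hη : 0 < η) (hm : 0 < m) (a t : ℝ) :
    |η * (a + m * ⌊t / (η * m)⌋) - t| ≤ η * (|a| + m) := by
  have h := mul_pos hη hm
  have h1 := (le_div_iff₀ h).1 (Int.floor_le (t / (η * m)))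
  have h2 := (div_lt_iff₀ h).1 (Int.lt_floor_add_one (t / (η * m)))
  have h3 := mul_le_mul_of_nonneg_left (le_abs_self a) hη.le
  have h4 := mul_le_mul_of_nonneg_left (neg_abs_le a) hη.le
  rw [abs_le]
  constructor <;> nlinarith

theorem unfold_riemann {f : ℝ × ℝ → ℝ} {R B : ℝ} (hf : Bump f R B) (a b : ℝ) {m : ℝ} (hm : 0 < m) :
    Tendsto (fun η : ℝ => η ^ 2 * ∑' w : ℤ × ℤ, f (η * (a + m * w.1), η * (b + m * w.2))) (𝓝[>] 0)
      (𝓝 ((m ^ 2)⁻¹ * ∫ u, f u)) := by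
  set F : ℝ → ℝ × ℝ → ℝ := fun η u =>
    f (η * (a + m * ⌊u.1 / (η * m)⌋), η * (b + m * ⌊u.2 / (η * m)⌋)) with hF
  set g : ℝ × ℝ → ℝ := (Metric.closedBall 0 (R + |a| + |b| + m)).indicator fun _ => B with hg
  have hgi : Integrable g :=
    (integrableOn_const measure_closedBall_lt_top.ne).integrable_indicator measurableSet_closedBall
  have hmeas : ∀ η, AEStronglyMeasurable (F η) volume := fun η =>
    (hf.cont.measurable.comp (by fun_prop)).aestronglyMeasurable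
  have hb : ∀ η ∈ Set.Ioc (0 : ℝ) 1, ∀ u, ‖F η u‖ ≤ g u := fun η hη u => by
    by_cases h0 : F η u = 0
    · rw [h0, norm_zero]
      exact Set.indicator_nonneg (fun _ _ => (abs_nonneg _).trans (hf.bdd 0)) u
    · obtain ⟨h1, h2⟩ := hf.supp _ h0
      have h3 := (unfold_floor hη.1 hm a u.1).trans (mul_le_of_le_one_left (by positivity) hη.2)
      have h4 := (unfold_floor hη.1 hm b u.2).trans (mul_le_of_le_one_left (by positivity) hη.2)
      rw [hg, Set.indicator_of_mem]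
      · exact hf.bdd _
      · rw [mem_closedBall_zero_iff, Prod.norm_def, max_le_iff, Real.norm_eq_abs, Real.norm_eq_abs]
        have := abs_nonneg a
        have := abs_nonneg b
        simp only [abs_le] at h1 h2 h3 h4 ⊢
        refine ⟨⟨?_, ?_⟩, ?_, ?_⟩ <;> linarith [h1.1, h1.2, h2.1, h2.2, h3.1, h3.2, h4.1, h4.2]
  have hI : ∀ᶠ η in 𝓝[>] (0 : ℝ), η ∈ Set.Ioc (0 : ℝ) 1 := Ioc_mem_nhdsGT one_pos
  have h1 : ∀ a t : ℝ, Tendsto (fun η : ℝ => η * (a + m * ⌊t / (η * m)⌋)) (𝓝[>] 0) (𝓝 t) := by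
    intro a t
    rw [tendsto_iff_norm_sub_tendsto_zero]
    have : Tendsto (fun η : ℝ => η * (|a| + m)) (𝓝[>] 0) (𝓝 0) :=
      ((continuous_mul_const _).tendsto' 0 0 (zero_mul _)).mono_left nhdsWithin_le_nhds
    exact squeeze_zero' (.of_forall fun _ => norm_nonneg _)
      (hI.mono fun η hη => unfold_floor hη.1 hm a t) this
  have := (tendsto_integral_filter_of_dominated_convergence (F := F) (f := f) g (.of_forall hmeas)
    (hI.mono fun η hη => .of_forall (hb η hη)) hgi (.of_forall fun u =>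
      (hf.cont.tendsto u).comp ((h1 a u.1).prodMk_nhds (h1 b u.2)))).const_mul (m ^ 2)⁻¹
  refine this.congr' (hI.mono fun η hη => ?_)
  have := unfold_step (mul_pos hη.1 hm) (k := fun w => f (η * (a + m * w.1), η * (b + m * w.2)))
    (hgi.mono' (hmeas η) (.of_forall (hb η hη)))
  simp only [hF]
  rw [this]
  field_simp

theorem Bump.mem_box {f : ℝ × ℝ → ℝ} {R B η : ℝ} (hf : Bump f R B) (hη : 0 < η) {w : ℤ × ℤ}
    (h : f (η * w.1, η * w.2) ≠ 0) :
    w ≠ 0 ∧ w.1.natAbs ≤ ⌊R / η⌋₊ ∧ w.2.natAbs ≤ ⌊R / η⌋₊ := by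
  have key : ∀ n : ℤ, |η * n| ≤ R → n.natAbs ≤ ⌊R / η⌋₊ := fun n hn => by
    rw [Nat.le_floor_iff (div_nonneg hf.nonneg hη.le), le_div_iff₀ hη, Nat.cast_natAbs,
      Int.cast_abs, mul_comm]
    rwa [abs_mul, abs_of_pos hη] at hn
  refine ⟨?_, key _ (hf.supp _ h).1, key _ (hf.supp _ h).2⟩
  rintro rfl
  exact h (by simpa using hf.zero)

theorem unfold_box {N : ℕ} {w : ℤ × ℤ} (h1 : w.1.natAbs ≤ N) (h2 : w.2.natAbs ≤ N) :
    w ∈ Finset.Icc (-(N : ℤ)) N ×ˢ Finset.Icc (-(N : ℤ)) N := by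
  simp only [Finset.mem_product, Finset.mem_Icc]
  omega

theorem Bump.bound {f : ℝ × ℝ → ℝ} {R B η : ℝ} (hf : Bump f R B) (hη : 0 < η)
    (p : ℤ × ℤ → Prop) [DecidablePred p] :
    |η ^ 2 * ∑' w, if p w then f (η * w.1, η * w.2) else 0| ≤ 8 * R ^ 2 * B := by
  set N := ⌊R / η⌋₊
  have hB : 0 ≤ B := (abs_nonneg _).trans (hf.bdd 0)
  rw [tsum_eq_sum (s := (Finset.Icc (-(N : ℤ)) N ×ˢ Finset.Icc (-(N : ℤ)) N).erase 0)]
  · have h1 : |∑ w ∈ (Finset.Icc (-(N : ℤ)) N ×ˢ Finset.Icc (-(N : ℤ)) N).erase 0,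
        if p w then f (η * w.1, η * w.2) else 0| ≤ (8 * N ^ 2 : ℕ) * B := by
      refine (Finset.abs_sum_le_sum_abs _ _).trans
        ((Finset.sum_le_card_nsmul _ _ B fun w _ => ?_).trans ?_)
      · split_ifs
        exacts [hf.bdd _, by rwa [abs_zero]]
      · rw [nsmul_eq_mul]
        refine mul_le_mul_of_nonneg_right (Nat.cast_le.2 ?_) hB
        rw [Finset.card_erase_of_mem (unfold_box (by simp) (by simp)), Finset.card_product,
          Int.card_Icc, show ((N : ℤ) + 1 - -(N : ℤ)).toNat = 2 * N + 1 by omega]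
        have : N ≤ N ^ 2 := Nat.le_self_pow two_ne_zero N
        refine Nat.sub_le_of_le_add ?_
        nlinarith
    have h2 : η * N ≤ R := by
      rw [mul_comm, ← le_div_iff₀ hη]
      exact Nat.floor_le (div_nonneg hf.nonneg hη.le)
    have h3 : (η * N) ^ 2 ≤ R ^ 2 := pow_le_pow_left₀ (by positivity) h2 2
    rw [abs_mul, abs_of_nonneg (sq_nonneg η)]
    refine (mul_le_mul_of_nonneg_left h1 (sq_nonneg η)).trans ?_
    push_cast
    nlinarith
  · intro w hw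
    split_ifs
    · by_contra h
      obtain ⟨h1, h2, h3⟩ := hf.mem_box hη h
      exact hw (Finset.mem_erase.2 ⟨h1, unfold_box h2 h3⟩)
    · rfl

theorem unfold_moebius {w : ℤ × ℤ} (hw : w ≠ 0) :
    ∑' k : ℕ, (if (k : ℤ) ∣ w.1 ∧ (k : ℤ) ∣ w.2 then (μ k : ℝ) else 0) =
      if IsCoprime w.1 w.2 then 1 else 0 := by
  have h0 : Int.gcd w.1 w.2 ≠ 0 := fun h => hw (Prod.ext (Int.gcd_eq_zero_iff.1 h).1
    (Int.gcd_eq_zero_iff.1 h).2)
  have e : ∀ k : ℕ, (k : ℤ) ∣ w.1 ∧ (k : ℤ) ∣ w.2 ↔ k ∈ (Int.gcd w.1 w.2).divisors := fun k => by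
    rw [Nat.mem_divisors, and_iff_left h0, Int.dvd_gcd_iff]
  simp only [e, Int.isCoprime_iff_gcd_eq_one]
  rw [tsum_eq_sum (s := (Int.gcd w.1 w.2).divisors) fun k hk => if_neg hk,
    Finset.sum_congr rfl fun k hk => if_pos hk, ← Int.cast_sum,
    ← ArithmeticFunction.coe_mul_zeta_apply, ArithmeticFunction.moebius_mul_coe_zeta,
    ArithmeticFunction.one_apply]
  split_ifs <;> simp

theorem Bump.sieve {f : ℝ × ℝ → ℝ} {R B η : ℝ} (hf : Bump f R B) (hη : 0 < η)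
    (c : ℤ × ℤ → Prop) [DecidablePred c] :
    (∑' v : ℤ × ℤ, if c v ∧ IsCoprime v.1 v.2 then f (η * v.1, η * v.2) else 0) =
      ∑' k : ℕ, μ k * ∑' w : ℤ × ℤ,
        if c (k * w.1, k * w.2) then f (η * k * w.1, η * k * w.2) else 0 := by
  set F : ℤ × ℤ → ℕ → ℝ := fun v k => (if (k : ℤ) ∣ v.1 ∧ (k : ℤ) ∣ v.2 then (μ k : ℝ) else 0) *
    if c v then f (η * v.1, η * v.2) else 0 with hF
  have hs : Summable (Function.uncurry F) := by
    set N := ⌊R / η⌋₊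
    refine summable_of_ne_finset_zero (s := (Finset.Icc (-(N : ℤ)) N ×ˢ Finset.Icc (-(N : ℤ)) N) ×ˢ
      Finset.range (N + 1)) fun z hz => by_contra fun h => hz ?_
    obtain ⟨v, k⟩ := z
    obtain ⟨h1, h2⟩ := mul_ne_zero_iff.1 h
    obtain ⟨h3, -⟩ := ite_ne_right_iff.1 h1
    obtain ⟨h4, h5, h6⟩ := hf.mem_box hη (ite_ne_right_iff.1 h2).2
    refine Finset.mem_product.2 ⟨unfold_box h5 h6, Finset.mem_range.2 (Nat.lt_succ_of_le ?_)⟩
    by_cases h7 : v.1 = 0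
    · have h8 : v.2 ≠ 0 := fun h8 => h4 (Prod.ext h7 h8)
      exact (Int.natAbs_le_of_dvd_ne_zero h3.2 h8).trans h6
    · exact (Int.natAbs_le_of_dvd_ne_zero h3.1 h7).trans h5
  calc _ = ∑' v, ∑' k, F v k := by
        refine tsum_congr fun v => ?_
        rw [tsum_mul_right]
        by_cases hv : v = 0
        · have : f (η * v.1, η * v.2) = 0 := by simpa [hv] using hf.zero
          simp [this]
        · rw [unfold_moebius hv]
          by_cases h1 : c v <;> by_cases h2 : IsCoprime v.1 v.2 <;> simp [h1, h2]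
    _ = ∑' k, ∑' v, F v k := hs.tsum_comm.symm
    _ = _ := by
        refine tsum_congr fun k => ?_
        rcases eq_or_ne k 0 with rfl | hk
        · simp [hF]
        have hk' : (k : ℤ) ≠ 0 := by exact_mod_cast hk
        have hi : Function.Injective fun w : ℤ × ℤ => (k * w.1, k * w.2) := fun w w' e =>
          Prod.ext (mul_left_cancel₀ hk' (congrArg Prod.fst e))
            (mul_left_cancel₀ hk' (congrArg Prod.snd e))
        rw [← hi.tsum_eq, ← tsum_mul_left]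
        · refine tsum_congr fun w => ?_
          simp [hF, mul_assoc]
        · intro v hv
          obtain ⟨⟨a, ha⟩, b, hb⟩ := (ite_ne_right_iff.1 (mul_ne_zero_iff.1 hv).1).1
          exact ⟨(a, b), Prod.ext ha.symm hb.symm⟩

theorem unfold_class {f : ℝ × ℝ → ℝ} {R B : ℝ} (hf : Bump f R B) {M : ℕ} (hM : 0 < M) (k : ℤ) :
    Tendsto (fun η : ℝ => η ^ 2 * ∑' w : ℤ × ℤ,
      if (M : ℤ) ∣ k * w.1 ∧ (M : ℤ) ∣ k * w.2 - 1 then f (η * w.1, η * w.2) else 0) (𝓝[>] 0)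
      (𝓝 ((if IsCoprime k M then ((M : ℝ) ^ 2)⁻¹ else 0) * ∫ u, f u)) := by
  split_ifs with h
  · obtain ⟨a, b, hab⟩ := id h
    have hM' : (M : ℤ) ≠ 0 := by exact_mod_cast hM.ne'
    have hi : Function.Injective fun z : ℤ × ℤ => (M * z.1, a + M * z.2) := fun w w' e =>
      Prod.ext (mul_left_cancel₀ hM' (congrArg Prod.fst e))
        (mul_left_cancel₀ hM' (add_left_cancel (congrArg Prod.snd e)))
    refine (unfold_riemann hf 0 a (m := M) (by exact_mod_cast hM)).congr fun η => ?_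
    refine congrArg (η ^ 2 * ·) (Eq.trans (tsum_congr fun z => ?_) (hi.tsum_eq ?_))
    · rw [if_pos ⟨⟨k * z.1, by ring⟩, k * z.2 - b, by linear_combination hab⟩]
      simp
    · intro v hv
      obtain ⟨h1, d, hd⟩ := (ite_ne_right_iff.1 hv).1
      obtain ⟨c, hc⟩ := h.symm.dvd_of_dvd_mul_left h1
      exact ⟨(c, a * d + b * v.2), Prod.ext hc.symm (by
        simp only
        linear_combination (-a) * hd + v.2 * hab)⟩
  · rw [zero_mul]
    refine tendsto_const_nhds.congr fun η => ?_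
    rw [tsum_congr (g := fun _ => 0), tsum_zero, mul_zero]
    exact fun w => if_neg fun ⟨_, d, hd⟩ => h ⟨w.2, -d, by linear_combination hd⟩

theorem unfold_count {M : ℕ} (hM : 0 < M) : ∃ κ : ℝ, ∀ (f : ℝ × ℝ → ℝ) (R B : ℝ), Bump f R B →
    Tendsto (fun η : ℝ => η ^ 2 * ∑' v : ℤ × ℤ,
      if ((M : ℤ) ∣ v.1 ∧ (M : ℤ) ∣ v.2 - 1) ∧ IsCoprime v.1 v.2 then f (η * v.1, η * v.2) else 0)
      (𝓝[>] 0) (𝓝 (κ * ∫ u, f u)) := by
  refine ⟨∑' k : ℕ, μ k * ((k : ℝ) ^ 2)⁻¹ * if IsCoprime (k : ℤ) M then ((M : ℝ) ^ 2)⁻¹ else 0,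
    fun f R B hf => ?_⟩
  rw [← tsum_mul_right]
  set A : ℝ → ℕ → ℝ := fun η k => η ^ 2 * ∑' w : ℤ × ℤ,
    if (M : ℤ) ∣ k * w.1 ∧ (M : ℤ) ∣ k * w.2 - 1 then f (η * w.1, η * w.2) else 0 with hA
  have h := tendsto_tsum_of_dominated_convergence (𝓕 := 𝓝[>] (0 : ℝ))
    (f := fun η k => μ k * ((k : ℝ) ^ 2)⁻¹ * A (η * k) k)
    (g := fun k : ℕ => (μ k * ((k : ℝ) ^ 2)⁻¹ *
      if IsCoprime (k : ℤ) M then ((M : ℝ) ^ 2)⁻¹ else 0) * ∫ u, f u)
    (bound := fun k => ((k : ℝ) ^ 2)⁻¹ * (8 * R ^ 2 * B))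
    ((Real.summable_nat_pow_inv.2 one_lt_two).mul_right _) (fun k => ?_) ?_
  · refine h.congr' (eventually_mem_nhdsWithin.mono fun η hη => ?_)
    simp only
    rw [hf.sieve hη fun v => (M : ℤ) ∣ v.1 ∧ (M : ℤ) ∣ v.2 - 1, ← tsum_mul_left]
    refine tsum_congr fun k => ?_
    rcases eq_or_ne k 0 with rfl | hk
    · simp
    have hk' : (k : ℝ) ≠ 0 := by exact_mod_cast hk
    simp only [hA]
    field_simp
  · rcases eq_or_ne k 0 with rfl | hk
    · simp
    have hk' : (0 : ℝ) < k := by exact_mod_cast Nat.pos_of_ne_zero hk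
    rw [mul_assoc _ (ite _ _ _)]
    refine Tendsto.const_mul _ ((unfold_class hf hM k).comp ?_)
    exact tendsto_nhdsWithin_iff.2 ⟨((continuous_mul_const _).tendsto' 0 0 (zero_mul _)).mono_left
      nhdsWithin_le_nhds, eventually_mem_nhdsWithin.mono fun η hη => mul_pos hη hk'⟩
  · refine eventually_mem_nhdsWithin.mono fun η hη k => ?_
    rcases eq_or_ne k 0 with rfl | hk
    · simp
    have hk' : (0 : ℝ) < k := by exact_mod_cast Nat.pos_of_ne_zero hk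
    have h1 : |(μ k : ℝ)| ≤ 1 := by exact_mod_cast ArithmeticFunction.abs_moebius_le_one
    rw [Real.norm_eq_abs, abs_mul, abs_mul, abs_of_nonneg (a := ((k : ℝ) ^ 2)⁻¹) (by positivity)]
    exact mul_le_mul (mul_le_of_le_one_left (by positivity) h1) (hf.bound (mul_pos hη hk') _)
      (abs_nonneg _) (by positivity)

end Pool.Agent.Lib.MP_e6abdd_an
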