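import Pool.Agent.Lib.MP_e6abdd_an.Tile

/-!
Tiling of the upper half plane by the fundamental domain, and unfolding.
-/

namespace Pool.Agent.Lib.MP_e6abdd_an

open Complex hiding Gamma
open UpperHalfPlane hiding I
open MeasureTheory Filter Topology CongruenceSubgroup
open scoped Real MatrixGroups ComplexConjugate ENNReal

open ModularGroup (S T fd fdo)

theorem unfold_mem_fd {x y : ℝ} (hy : 0 < y) :
    pt x y ∈ fd ↔ 1 ≤ x ^ 2 + y ^ 2 ∧ |x| ≤ 1 / 2 := by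
  rw [ModularGroup.fd, Set.mem_ofPred_eq, pt_re x hy, coe_pt x hy, normSq_add_mul_I]

theorem unfold_mem_fdo {x y : ℝ} (hy : 0 < y) :
    pt x y ∈ fdo ↔ 1 < x ^ 2 + y ^ 2 ∧ |x| < 1 / 2 := by
  rw [ModularGroup.fdo, Set.mem_ofPred_eq, pt_re x hy, coe_pt x hy, normSq_add_mul_I]

theorem unfold_meas_fdo : MeasurableSet fdo := ModularGroup.isOpen_fdo.measurableSet

theorem unfold_null : volume (fd \ fdo) = 0 := by
  have hm : MeasurableSet (fd \ fdo) := ModularGroup.isClosed_fd.measurableSet.diff unfold_meas_fdo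
  rw [← lintegral_indicator_one hm, lintegral_upper (measurable_one.indicator hm)]
  refine (setLIntegral_congr_fun (g := fun _ => 0) measurableSet_Ioi fun y hy => ?_).trans
    lintegral_zero
  have hf : ({√(1 - y ^ 2), -√(1 - y ^ 2), 1 / 2, -(1 / 2)} : Set ℝ).Finite := by simp
  rw [lintegral_congr_ae (g := fun _ => 0), lintegral_zero, zero_mul]
  filter_upwards [hf.countable.ae_notMem volume] with x hx
  refine Set.indicator_of_notMem (fun h => hx ?_) _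
  rw [Set.mem_sdiff, unfold_mem_fd hy, unfold_mem_fdo hy] at h
  obtain ⟨⟨h1, h2⟩, h3⟩ := h
  simp only [Set.mem_insert_iff, Set.mem_singleton_iff]
  rcases h1.eq_or_lt with h1 | h1
  · have : 1 - y ^ 2 = x ^ 2 := by linarith
    rw [this, Real.sqrt_sq_eq_abs]
    rcases abs_cases x with h | h
    · exact .inl h.1.symm
    · exact .inr (.inl (by linarith [h.1]))
  · have := h2.antisymm (not_lt.1 fun h => h3 ⟨h1, h⟩)
    rcases abs_cases x with h | h
    · exact .inr (.inr (.inl (by linarith [h.1])))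
    · exact .inr (.inr (.inr (by linarith [h.1])))

theorem unfold_im_fd {τ : ℍ} (h : τ ∈ fd) : 3 / 4 < τ.im := by
  have := ModularGroup.three_le_four_mul_im_sq_of_mem_fd h
  by_contra h'
  nlinarith [τ.im_pos]

theorem unfold_vol_fdo : volume fdo < ∞ := by
  rw [← lintegral_indicator_one unfold_meas_fdo,
    lintegral_upper (measurable_one.indicator unfold_meas_fdo)]
  have h1 : IntegrableOn (fun y : ℝ => 1 / y ^ 2) (Set.Ioi (3 / 4)) :=
    (integrableOn_Ioi_rpow_of_lt (a := -2) (by norm_num) (by norm_num)).congr_fun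
      (fun y hy => by
        have : (0 : ℝ) < y := lt_trans (by norm_num) hy
        simp only [Real.rpow_neg this.le, Real.rpow_two, one_div]) measurableSet_Ioi
  refine lt_of_le_of_lt ?_ h1.setLIntegral_lt_top
  rw [← lintegral_indicator measurableSet_Ioi, ← lintegral_indicator measurableSet_Ioi]
  refine lintegral_mono fun y => ?_
  by_cases hy : y ∈ Set.Ioi (0 : ℝ)
  swap
  · rw [Set.indicator_of_notMem hy]; exact bot_le
  rw [Set.indicator_of_mem hy]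
  by_cases hy' : y ∈ Set.Ioi (3 / 4 : ℝ)
  · rw [Set.indicator_of_mem hy']
    refine mul_le_of_le_one_left' ?_
    calc ∫⁻ x, fdo.indicator 1 (pt x y)
        ≤ ∫⁻ x, (Set.Ioo (-(1 / 2) : ℝ) (1 / 2)).indicator 1 x := lintegral_mono fun x => by
          by_cases h : pt x y ∈ fdo
          · rw [Set.indicator_of_mem h,
              Set.indicator_of_mem (Set.mem_Ioo.2 (abs_lt.1 ((unfold_mem_fdo hy).1 h).2))]
            exact le_rfl
          · rw [Set.indicator_of_notMem h]; exact bot_le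
      _ = 1 := by rw [lintegral_indicator_one measurableSet_Ioo, Real.volume_Ioo]; norm_num
  · rw [Set.indicator_of_notMem hy', lintegral_congr (g := fun _ => 0), lintegral_zero, zero_mul]
    intro x
    refine Set.indicator_of_notMem (fun h => hy' ?_) _
    have := unfold_im_fd (ModularGroup.fdo_subset_fd h)
    rwa [pt_im x hy] at this

instance unfold_finite : IsFiniteMeasure (volume.restrict fdo) :=
  isFiniteMeasure_restrict.2 unfold_vol_fdo.ne

instance unfold_countable : Countable SL(2, ℤ) :=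
  have : Countable (Matrix (Fin 2) (Fin 2) ℤ) := inferInstanceAs (Countable (Fin 2 → Fin 2 → ℤ))
  Subtype.countable

theorem unfold_two : ∀ᵐ τ : ℍ,
    ∑' δ : SL(2, ℤ), ((fun s : ℍ => δ⁻¹ • s) ⁻¹' fdo).indicator (1 : ℍ → ℝ≥0∞) τ = 2 := by
  have h : ∀ᵐ τ : ℍ, ∀ δ : SL(2, ℤ), δ • τ ∉ fd \ fdo := ae_all_iff.2 fun δ =>
    (measurePreserving_SL δ).quasiMeasurePreserving.ae (measure_eq_zero_iff_ae_notMem.1 unfold_null)
  filter_upwards [h] with τ hτ
  obtain ⟨g, hg⟩ := ModularGroup.exists_smul_mem_fd τ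
  have hg' : g • τ ∈ fdo := by_contra fun h' => hτ g ⟨hg, h'⟩
  have hne : g⁻¹ ≠ -g⁻¹ := fun e => by
    have e' : (1 : SL(2, ℤ)) = -1 := by
      have := congrArg (g * ·) e
      simpa using this
    have := congrArg (fun γ : SL(2, ℤ) => γ 0 0) e'
    simp at this
  classical
  rw [tsum_eq_sum (s := {g⁻¹, -g⁻¹}), Finset.sum_pair hne, Set.indicator_of_mem, Set.indicator_of_mem]
  · exact one_add_one_eq_two
  · show (-g⁻¹)⁻¹ • τ ∈ fdo
    rwa [← neg_inv, inv_inv, ModularGroup.SL_neg_smul]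
  · show g⁻¹⁻¹ • τ ∈ fdo
    rwa [inv_inv]
  · intro δ hδ
    refine Set.indicator_of_notMem (fun h' => hδ ?_) _
    have h2 : (δ⁻¹ * g⁻¹) • (g • τ) ∈ fdo := by rwa [smul_smul, inv_mul_cancel_right]
    rcases ModularGroup.eq_one_or_neg_one_of_mem_fdo_mem_fdo hg' h2 with e | e
    · rw [inv_mul_eq_one] at e
      simp [e]
    · rw [inv_mul_eq_iff_eq_mul] at e
      simp [e]

theorem unfold_tile {H : ℍ → ℂ} (hH : Integrable H) :
    (∀ᵐ τ ∂volume.restrict fdo, Summable fun δ : SL(2, ℤ) => H (δ • τ)) ∧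
      ∫ τ in fdo, ∑' δ : SL(2, ℤ), H (δ • τ) = 2 * ∫ τ, H τ := by
  set s : SL(2, ℤ) → Set ℍ := fun δ => (fun τ : ℍ => δ⁻¹ • τ) ⁻¹' fdo with hs
  have hsm : ∀ δ, MeasurableSet (s δ) := fun δ =>
    (measurePreserving_SL δ⁻¹).measurable unfold_meas_fdo
  have hmp : ∀ δ : SL(2, ℤ),
      MeasurePreserving (fun τ : ℍ => δ • τ) (volume.restrict fdo) (volume.restrict (s δ)) := by
    intro δ
    have := (measurePreserving_SL δ).restrict_preimage (hsm δ)
    rwa [show (fun τ : ℍ => δ • τ) ⁻¹' s δ = fdo by ext τ; simp [hs]] at this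
  have hsum : Measure.sum (fun δ => volume.restrict (s δ)) = (2 : ℝ≥0∞) • volume := by
    ext A hA
    rw [Measure.sum_apply _ hA, Measure.smul_apply, smul_eq_mul]
    calc ∑' δ, volume.restrict (s δ) A = ∑' δ, ∫⁻ τ in A, (s δ).indicator 1 τ := by
          refine tsum_congr fun δ => ?_
          rw [lintegral_indicator_one (hsm δ), Measure.restrict_apply hA,
            Measure.restrict_apply (hsm δ), Set.inter_comm]
      _ = ∫⁻ τ in A, ∑' δ, (s δ).indicator 1 τ :=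
          (lintegral_tsum fun δ => (measurable_one.indicator (hsm δ)).aemeasurable).symm
      _ = ∫⁻ _ in A, 2 := lintegral_congr_ae (ae_restrict_of_ae unfold_two)
      _ = 2 * volume A := by rw [setLIntegral_const]
  have hi : Integrable H (Measure.sum fun δ => volume.restrict (s δ)) := by
    rw [hsum]; exact hH.smul_measure (by simp)
  have hm : ∀ δ : SL(2, ℤ), AEStronglyMeasurable (fun τ => H (δ • τ)) (volume.restrict fdo) :=
    fun δ => hH.1.restrict.comp_measurePreserving (hmp δ)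
  have hl : ∑' δ : SL(2, ℤ), ∫⁻ τ in fdo, ‖H (δ • τ)‖ₑ ≠ ∞ := by
    have := hi.2
    rw [hasFiniteIntegral_iff_enorm, lintegral_sum_measure] at this
    refine ne_of_lt (lt_of_eq_of_lt (tsum_congr fun δ => ?_) this)
    rw [← (hmp δ).map_eq, lintegral_map' _ (hmp δ).aemeasurable]
    rw [(hmp δ).map_eq]
    exact hH.1.restrict.enorm
  refine ⟨?_, ?_⟩
  · rw [← lintegral_tsum fun δ => (hm δ).enorm] at hl
    filter_upwards [ae_lt_top' (AEMeasurable.tsum fun δ => (hm δ).enorm) hl] with τ hτ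
    exact Summable.of_nnnorm (ENNReal.tsum_coe_ne_top_iff_summable.1 hτ.ne)
  · rw [integral_tsum hm hl]
    have := integral_sum_measure hi
    rw [hsum, integral_smul_measure] at this
    rw [show (2 : ℂ) * ∫ τ, H τ = (2 : ℝ≥0∞).toReal • ∫ τ, H τ by simp, this]
    refine tsum_congr fun δ => ?_
    rw [← (hmp δ).map_eq, integral_map (hmp δ).aemeasurable]
    rw [(hmp δ).map_eq]
    exact hH.1.restrict

theorem unfold_eq_T {g g' : SL(2, ℤ)} (h0 : g' 1 0 = g 1 0) (h1 : g' 1 1 = g 1 1) :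
    ∃ k : ℤ, g' = T ^ k * g := by
  have hd := g.det_coe
  have hd' := g'.det_coe
  rw [Matrix.det_fin_two] at hd hd'
  refine ⟨g' 0 1 * g 0 0 - g' 0 0 * g 0 1, ?_⟩
  ext i j
  rw [h0, h1] at hd'
  fin_cases i <;> fin_cases j <;>
    simp [ModularGroup.coe_T_zpow, Matrix.mul_apply, Fin.sum_univ_two, h0, h1, -map_zpow]
  · linear_combination (-g' 0 0) * hd + g 0 0 * hd'
  · linear_combination (-g' 0 1) * hd + g 0 1 * hd'

theorem unfold_row (k : ℤ) (g : SL(2, ℤ)) (j : Fin 2) : (T ^ k * g) 1 j = g 1 j := by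
  simp [-map_zpow]

theorem unfold_rows {Γ₀ : Subgroup SL(2, ℤ)} {p : ℕ} (hp : 0 < p)
    (hT : ∀ k : ℤ, T ^ k ∈ Γ₀ ↔ (p : ℤ) ∣ k) {G : ℍ → ℂ} {G' : ℤ × ℤ → ℍ → ℂ}
    (h : ∀ γ ∈ Γ₀, ∀ τ : ℍ, G' (γ 1 0, γ 1 1) τ = G (γ • τ)) (s : ℍ) :
    ∑' v : rows Γ₀, G' v s =
      ∑' γ : Γ₀, {τ : ℍ | τ.re ∈ Set.Ioc (0 : ℝ) p}.indicator G (γ.1 • s) := by
  have hp' : (0 : ℝ) < p := by exact_mod_cast hp
  have hre : ∀ (n : ℤ) (g : SL(2, ℤ)), ((T ^ (p * n) * g) • s).re = (g • s).re + n • (p : ℝ) :=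
    fun n g => by rw [mul_smul, ModularGroup.re_T_zpow_smul]; push_cast; ring
  have : ∀ v : rows Γ₀, ∃ γ : Γ₀, (γ.1 1 0, γ.1 1 1) = v.1 ∧ (γ.1 • s).re ∈ Set.Ioc (0 : ℝ) p := by
    rintro ⟨v, γ, hγ, rfl⟩
    obtain ⟨n, hn, -⟩ := existsUnique_add_zsmul_mem_Ioc hp' (γ • s).re 0
    refine ⟨⟨T ^ (p * n) * γ, Γ₀.mul_mem ((hT _).2 (dvd_mul_right _ _)) hγ⟩, ?_, ?_⟩
    · simp only [unfold_row]
    · rw [zero_add] at hn
      rwa [hre]
  choose σ h1 h2 using this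
  have hi : Function.Injective σ := fun v w e => Subtype.ext (by rw [← h1, ← h1, e])
  rw [← hi.tsum_eq]
  · refine tsum_congr fun v => ?_
    rw [Set.indicator_of_mem (s := {τ : ℍ | τ.re ∈ Set.Ioc (0 : ℝ) p}) (h2 v), ← h _ (σ v).2, h1]
  · intro γ hγ
    have h3 : (γ.1 • s).re ∈ Set.Ioc (0 : ℝ) p := by_contra fun h' =>
      hγ (Set.indicator_of_notMem (s := {τ : ℍ | τ.re ∈ Set.Ioc (0 : ℝ) p}) h' _)
    set v : rows Γ₀ := ⟨_, γ.1, γ.2, rfl⟩
    obtain ⟨k, hk⟩ := unfold_eq_T (congrArg Prod.fst (h1 v)) (congrArg Prod.snd (h1 v))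
    obtain ⟨n, rfl⟩ := (hT k).1 (by
      have := Γ₀.mul_mem (σ v).2 (Γ₀.inv_mem γ.2)
      rwa [hk, mul_inv_cancel_right] at this)
    have h4 := h2 v
    rw [hk, hre] at h4
    have : n = 0 := (existsUnique_add_zsmul_mem_Ioc hp' (γ.1 • s).re 0).unique
      (by rwa [zero_add]) (by simpa using h3)
    exact ⟨v, Subtype.ext (by rw [hk, this]; simp)⟩

theorem unfold_cosets (Γ₀ : Subgroup SL(2, ℤ)) {M : ℕ} (hM : 0 < M) (h1 : Gamma M ≤ Γ₀) :
    ∃ i : ℕ, 0 < i ∧ ∀ h : SL(2, ℤ) → ℂ, Summable h →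
      ∑ᶠ q : SL(2, ℤ) ⧸ Gamma M, ∑' γ : Γ₀, h (γ.1 * q.out) = i * ∑' δ, h δ := by
  classical
  haveI : NeZero M := ⟨hM.ne'⟩
  haveI := Gamma_normal M
  haveI : Fintype (SL(2, ℤ) ⧸ Gamma M) := Fintype.ofFinite _
  set K := Γ₀.map (QuotientGroup.mk' (Gamma M))
  refine ⟨(Finset.univ.filter (· ∈ K)).card, Finset.card_pos.2 ⟨1, by simp⟩, fun h hh => ?_⟩
  have hK : ∀ g : SL(2, ℤ), g ∈ Γ₀ ↔ (g : SL(2, ℤ) ⧸ Gamma M) ∈ K := fun g => by
    have := Subgroup.comap_map_eq_self (f := QuotientGroup.mk' (Gamma M)) (H := Γ₀)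
      (by rwa [QuotientGroup.ker_mk'])
    rw [← this]
    rfl
  have e : ∀ q : SL(2, ℤ) ⧸ Gamma M, ∑' γ : Γ₀, h (γ.1 * q.out) =
      ∑' δ : SL(2, ℤ), if (δ : SL(2, ℤ) ⧸ Gamma M) * q⁻¹ ∈ K then h δ else 0 := fun q => by
    refine (tsum_subtype (Γ₀ : Set SL(2, ℤ)) fun γ => h (γ * q.out)).trans
      (Eq.trans (tsum_congr fun γ => ?_) ((Equiv.mulRight q.out).tsum_eq _))
    simp [Set.indicator_apply, hK]
  rw [finsum_eq_sum_of_fintype, Finset.sum_congr rfl fun q _ => e q, ← Summable.tsum_finsetSum,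
    ← tsum_mul_left]
  · refine tsum_congr fun δ => ?_
    rw [← Finset.sum_filter, Finset.sum_const, nsmul_eq_mul]
    congr 2
    refine Finset.card_equiv ((Equiv.inv _).trans (Equiv.mulLeft (δ : SL(2, ℤ) ⧸ Gamma M))) ?_
    simp
  · exact fun q _ => (hh.indicator {δ : SL(2, ℤ) | (δ : SL(2, ℤ) ⧸ Gamma M) * q⁻¹ ∈ K}).congr fun δ => by
      simp [Set.indicator_apply]

theorem unfold_gen (Γ₀ : Subgroup SL(2, ℤ)) {M : ℕ} (hM : 0 < M) (h1 : Gamma M ≤ Γ₀) {p : ℕ}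
    (hp : 0 < p) (hT : ∀ k : ℤ, T ^ k ∈ Γ₀ ↔ (p : ℤ) ∣ k) : ∃ κ : ℝ, 0 < κ ∧
    ∀ (G : ℍ → ℂ) (G' : ℤ × ℤ → ℍ → ℂ), IntegrableOn G {τ : ℍ | τ.re ∈ Set.Ioc (0 : ℝ) p} →
      (∀ γ ∈ Γ₀, ∀ τ : ℍ, G' (γ 1 0, γ 1 1) τ = G (γ • τ)) →
      ∫ τ in {τ : ℍ | τ.re ∈ Set.Ioc (0 : ℝ) p}, G τ =
        κ * fint M fun τ => ∑' v : rows Γ₀, G' v τ := by
  obtain ⟨i, hi, h⟩ := unfold_cosets Γ₀ hM h1
  have hm : MeasurableSet {τ : ℍ | τ.re ∈ Set.Ioc (0 : ℝ) p} :=
    UpperHalfPlane.continuous_re.measurable measurableSet_Ioc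
  refine ⟨(2 * i)⁻¹, by positivity, fun G G' hG hG' => ?_⟩
  obtain ⟨h2, h3⟩ := unfold_tile (hG.integrable_indicator hm)
  have : (fint M fun τ => ∑' v : rows Γ₀, G' v τ) = i * (2 * ∫ τ in {τ : ℍ | τ.re ∈
      Set.Ioc (0 : ℝ) p}, G τ) := by
    rw [← integral_indicator hm, ← h3, ← integral_const_mul, fint]
    refine integral_congr_ae ?_
    filter_upwards [h2] with τ hτ
    rw [← h _ hτ]
    refine finsum_congr fun q => ?_
    rw [unfold_rows hp hT hG']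
    simp only [mul_smul]
  have hi' : (i : ℂ) ≠ 0 := by exact_mod_cast hi.ne'
  rw [this]
  push_cast
  field_simp

theorem unfold_T_mem (M : ℕ) (k : ℤ) : T ^ k ∈ Gamma M ↔ (M : ℤ) ∣ k := by
  rw [Gamma_mem, ← ZMod.intCast_zmod_eq_zero_iff_dvd]
  simp [ModularGroup.coe_T_zpow, -map_zpow]

end Pool.Agent.Lib.MP_e6abdd_an
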