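import Pool.Agent.Lib.MP_e6abdd_an.Tile
import Pool.Agent.Lib.MP_e6abdd_an.Mult
import Pool.Agent.Lib.MP_e6abdd_an.UnfoldA
import Pool.Agent.Lib.MP_e6abdd_an.UnfoldB

/-!
Tiling by the fundamental domain: equidistribution of horocycles and unfolding.
-/

namespace Pool.Agent.Lib.MP_e6abdd_an

open Complex hiding Gamma
open UpperHalfPlane hiding I
open MeasureTheory Filter Topology CongruenceSubgroup
open scoped Real MatrixGroups ComplexConjugate

open ModularGroup (S T)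

theorem unfold_cont (γ : SL(2, ℤ)) : Continuous fun τ : ℍ => γ • τ :=
  continuous_const_smul (γ : GL (Fin 2) ℝ)

theorem bdd_of_inv {M : ℕ} (hM : 0 < M) {F : ℍ → ℝ} (hF : Continuous F)
    (inv : ∀ γ ∈ Gamma M, ∀ τ : ℍ, F (γ • τ) = F τ) (T : ℝ) :
    ∃ B, ∀ τ : ℍ, (∀ c d, IsCoprime c d → hgt c d τ ≤ T) → F τ ≤ B := by
  haveI : NeZero M := ⟨hM.ne'⟩
  have hK : IsCompact (⋃ q : SL(2, ℤ) ⧸ Gamma M,
      (fun s : ℍ => F (q.out • s)) '' ModularGroup.truncatedFundamentalDomain T) :=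
    isCompact_iUnion fun q => (ModularGroup.isCompact_truncatedFundamentalDomain T).image
      (hF.comp (unfold_cont _))
  obtain ⟨B, hB⟩ := hK.bddAbove
  refine ⟨B, fun τ hτ => hB ?_⟩
  obtain ⟨g, hg⟩ := ModularGroup.exists_smul_mem_fd τ
  refine Set.mem_iUnion.2 ⟨(g⁻¹ : SL(2, ℤ)), g • τ, ⟨hg, ?_⟩, ?_⟩
  · rw [im_SL_smul]
    exact hτ _ _ (ModularGroup.bottom_row_coprime g)
  · obtain ⟨h, hh⟩ := QuotientGroup.mk_out_eq_mul (Gamma M) g⁻¹
    have := (Gamma_normal M).conj_mem h.1 h.2 g⁻¹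
    simp only [hh, smul_smul]
    rw [inv_inv] at this
    exact inv _ this τ

/-- The profile of the test functions. -/
noncomputable def unfoldG (t : ℝ) : ℝ := t ^ 2 * tent t

/-- The same profile in the reciprocal variable. -/
noncomputable def unfoldP (r : ℝ) : ℝ := unfoldG (max r (1 / 4))⁻¹

/-- The incomplete Eisenstein series of the test function at scale `Y`. -/
noncomputable def unfoldE (M : ℕ) (Y : ℝ) (s : ℍ) : ℝ :=
  ∑' v : rows (Gamma M), Y * unfoldG (hgt v.1.1 v.1.2 s / Y)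

theorem unfold_tent_cont : Continuous tent := by unfold tent; fun_prop

theorem unfold_tent_ne {t : ℝ} (h : tent t ≠ 0) : 1 < t ∧ t < 3 := by
  have : 0 < 1 - |t - 2| := by_contra fun h' => h (max_eq_left (not_lt.1 h'))
  have := abs_lt.1 (show |t - 2| < 1 by linarith)
  exact ⟨by linarith [this.1], by linarith [this.2]⟩

theorem unfoldG_cont : Continuous unfoldG := (continuous_pow 2).mul unfold_tent_cont

theorem unfoldG_ne {t : ℝ} (h : unfoldG t ≠ 0) : 1 < t ∧ t < 3 :=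
  unfold_tent_ne (mul_ne_zero_iff.1 h).2

theorem unfoldG_nonneg (t : ℝ) : 0 ≤ unfoldG t := mul_nonneg (sq_nonneg t) (le_max_left _ _)

theorem unfoldG_le (t : ℝ) : unfoldG t ≤ 9 := by
  by_cases h : unfoldG t = 0
  · rw [h]; norm_num
  · obtain ⟨h1, h2⟩ := unfoldG_ne h
    have : tent t ≤ 1 := max_le zero_le_one (by linarith [abs_nonneg (t - 2)])
    exact (mul_le_of_le_one_right (sq_nonneg t) this).trans (by nlinarith)

theorem unfoldP_cont : Continuous unfoldP :=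
  unfoldG_cont.comp ((continuous_id.max continuous_const).inv₀ fun r =>
    (lt_max_of_lt_right (by norm_num)).ne')

theorem unfoldP_eq (r : ℝ) : unfoldP r = unfoldG r⁻¹ := by
  rcases le_total r (1 / 4) with h | h
  · rw [unfoldP, max_eq_right h]
    have h1 : unfoldG (1 / 4)⁻¹ = 0 := by_contra fun h' => by
      have := (unfoldG_ne h').2
      norm_num at this
    rw [h1, eq_comm]
    by_contra h'
    obtain ⟨h2, h3⟩ := unfoldG_ne h'
    have h4 : 0 < r := inv_pos.1 (one_pos.trans h2)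
    rw [inv_lt_comm₀ h4 (by norm_num)] at h3
    linarith
  · rw [unfoldP, max_eq_left h]

theorem unfold_mem_rows {M : ℕ} {v : ℤ × ℤ} : v ∈ rows (Gamma M) ↔
    ((M : ℤ) ∣ v.1 ∧ (M : ℤ) ∣ v.2 - 1) ∧ IsCoprime v.1 v.2 := by
  constructor
  · rintro ⟨γ, hγ, rfl⟩
    obtain ⟨-, -, h1, h2⟩ := Gamma_mem.1 hγ
    refine ⟨⟨(ZMod.intCast_zmod_eq_zero_iff_dvd _ _).1 h1,
      (ZMod.intCast_zmod_eq_zero_iff_dvd _ _).1 ?_⟩, ModularGroup.bottom_row_coprime γ⟩
    push_cast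
    rw [h2, sub_self]
  · rintro ⟨⟨h1, h2⟩, h3⟩
    obtain ⟨γ, e1, e2⟩ := exists_row h3
    rw [← ZMod.intCast_zmod_eq_zero_iff_dvd] at h1 h2
    rw [Int.cast_sub, Int.cast_one, sub_eq_zero] at h2
    have hd := congrArg (Int.cast : ℤ → ZMod M) γ.det_coe
    rw [Matrix.det_fin_two, e1, e2] at hd
    push_cast at hd
    rw [h1, h2, mul_one, mul_zero, sub_zero] at hd
    refine ⟨T ^ (-γ 0 1) * γ, Gamma_mem.2 ?_, by simp only [unfold_row, e1, e2]⟩
    simp [ModularGroup.coe_T_zpow, Matrix.mul_apply, Fin.sum_univ_two, e1, e2, h1, h2, hd,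
      -map_zpow, -zpow_neg]

theorem unfold_normSq (s : ℍ) (a b : ℝ) :
    normSq (a * (s : ℂ) + b) = (a * s.re + b) ^ 2 + (a * s.im) ^ 2 := by
  rw [normSq_apply]
  simp
  ring

theorem unfold_bump (s : ℍ) : Bump (fun u => unfoldP (normSq (u.1 * (s : ℂ) + u.2) / s.im))
    ((1 + 1 / s.im) * (1 + |s.re|) + (1 + s.im)) 9 := by
  have hy := s.im_pos
  refine ⟨unfoldP_cont.comp (by fun_prop), fun u => ?_, fun u hu => ?_, ?_, by positivity⟩
  · rw [unfoldP, abs_of_nonneg (unfoldG_nonneg _)]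
    exact unfoldG_le _
  · have h1 := (unfoldG_ne hu).1
    rw [one_lt_inv₀ (lt_max_of_lt_right (by norm_num)), max_lt_iff, div_lt_one hy,
      unfold_normSq] at h1
    have h2 : u.1 ^ 2 ≤ 1 / s.im := by
      rw [le_div_iff₀ hy]
      refine le_of_mul_le_mul_right ?_ hy
      nlinarith [h1.1, sq_nonneg (u.1 * s.re + u.2)]
    have h3 : |u.1| ≤ 1 + 1 / s.im := by nlinarith [sq_abs u.1, sq_nonneg (|u.1| - 1)]
    have h4 : |u.1 * s.re + u.2| ≤ 1 + s.im := by
      nlinarith [h1.1, sq_abs (u.1 * s.re + u.2), sq_nonneg (|u.1 * s.re + u.2| - 1),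
        sq_nonneg (u.1 * s.im)]
    have h5 : |u.2| ≤ |u.1 * s.re + u.2| + |u.1| * |s.re| := by
      rw [← abs_mul]
      simpa using abs_sub (u.1 * s.re + u.2) (u.1 * s.re)
    have h6 := mul_le_mul_of_nonneg_right h3 (abs_nonneg s.re)
    have h7 : 0 ≤ (1 + 1 / s.im) * |s.re| := by positivity
    have h8 : 0 ≤ 1 / s.im := by positivity
    constructor <;> nlinarith
  · simp only [ofReal_zero, zero_mul, add_zero, map_zero, zero_div]
    rw [unfoldP_eq]
    simp [unfoldG]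

theorem unfold_int (s : ℍ) : ∫ u : ℝ × ℝ, unfoldP (normSq (u.1 * (s : ℂ) + u.2) / s.im) =
    ∫ u : ℝ × ℝ, unfoldP (u.1 ^ 2 + u.2 ^ 2) := by
  have hy := s.im_pos
  have hr : 0 < √s.im := Real.sqrt_pos.2 hy
  set L := Matrix.toLin (Module.Basis.finTwoProd ℝ) (Module.Basis.finTwoProd ℝ)
    !![√s.im, 0; s.re / √s.im, 1 / √s.im] with hL
  have hd : LinearMap.det L = 1 := by
    rw [hL, LinearMap.det_toLin, Matrix.det_fin_two_of]
    field_simp
    ring
  have hm : Measure.map L volume = volume := by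
    rw [Measure.map_linearMap_addHaar_eq_smul_addHaar _ (by rw [hd]; exact one_ne_zero), hd]
    simp
  have hc : Continuous fun u : ℝ × ℝ => unfoldP (u.1 ^ 2 + u.2 ^ 2) :=
    unfoldP_cont.comp (by fun_prop)
  conv_rhs => rw [← hm]
  rw [integral_map L.continuous_of_finiteDimensional.aemeasurable hc.aestronglyMeasurable]
  refine integral_congr_ae (.of_forall fun u => ?_)
  simp only [hL, Matrix.toLin_finTwoProd_apply, unfold_normSq]
  congr 1
  have h2 : √s.im ^ 2 = s.im := Real.sq_sqrt hy.le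
  generalize √s.im = r at hr h2
  rw [← h2]
  field_simp
  ring

theorem unfoldE_tendsto {M : ℕ} (hM : 0 < M) : ∃ κ : ℝ, ∀ s : ℍ,
    Tendsto (fun Y => unfoldE M Y s) (𝓝[>] 0) (𝓝 κ) := by
  obtain ⟨κ, h⟩ := unfold_count hM
  refine ⟨κ * ∫ u : ℝ × ℝ, unfoldP (u.1 ^ 2 + u.2 ^ 2), fun s => ?_⟩
  have hs : Tendsto (fun Y : ℝ => √Y) (𝓝[>] 0) (𝓝[>] 0) :=
    tendsto_nhdsWithin_iff.2 ⟨(Real.continuous_sqrt.tendsto' 0 0 Real.sqrt_zero).mono_left
      nhdsWithin_le_nhds, eventually_mem_nhdsWithin.mono fun Y hY => Real.sqrt_pos.2 hY⟩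
  rw [← unfold_int s]
  refine ((h _ _ _ (unfold_bump s)).comp hs).congr' (eventually_mem_nhdsWithin.mono fun Y hY => ?_)
  have hY : 0 < Y := hY
  have hy := s.im_pos
  simp only [Function.comp, unfoldE]
  rw [Real.sq_sqrt hY.le, ← tsum_mul_left,
    tsum_subtype (rows (Gamma M)) fun v => Y * unfoldG (hgt v.1 v.2 s / Y)]
  refine tsum_congr fun v => ?_
  by_cases hv : v ∈ rows (Gamma M)
  · rw [Set.indicator_of_mem hv, if_pos (unfold_mem_rows.1 hv),
      unfoldP_eq, hgt]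
    congr 2
    rw [show ((√Y * v.1 : ℝ) : ℂ) * s + (√Y * v.2 : ℝ) = (√Y : ℝ) * (v.1 * (s : ℂ) + v.2) by
      push_cast; ring, map_mul, normSq_ofReal, Real.mul_self_sqrt hY.le, inv_div, div_div, mul_comm]
  · rw [Set.indicator_of_notMem hv, if_neg (mt unfold_mem_rows.2 hv), mul_zero]

theorem unfoldE_nonneg (M : ℕ) {Y : ℝ} (hY : 0 < Y) (s : ℍ) : 0 ≤ unfoldE M Y s :=
  tsum_nonneg fun _ => mul_nonneg hY.le (unfoldG_nonneg _)

theorem unfoldE_cont (M : ℕ) {Y : ℝ} (hY : 0 < Y) : Continuous (unfoldE M Y) :=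
  continuous_tsum_hgt (fun _ hv => (unfold_mem_rows.1 hv).2) continuous_id hY
    (fun v => continuous_const.mul (unfoldG_cont.comp
      ((continuous_hgt (unfold_mem_rows.1 v.2).2).div_const Y)))
    fun _ _ h => ((one_lt_div hY).1 (unfoldG_ne (mul_ne_zero_iff.1 h).2).1).le

theorem unfoldE_le (M : ℕ) {Y : ℝ} (hY : 0 < Y) (hY' : Y < 1 / 4) {τ : ℍ} (hτ : 3 / 4 < τ.im)
    (g : SL(2, ℤ)) : unfoldE M Y (g • τ) ≤ 90 := by
  classical
  have hy := τ.im_pos
  set r := √(τ.im / Y)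
  have hr2 : r ^ 2 = τ.im / Y := Real.sq_sqrt (by positivity)
  have hr1 : 1 ≤ r := Real.one_le_sqrt.2 ((one_le_div hY).2 (by linarith))
  set N₁ := ⌊r / τ.im⌋₊
  set N₂ := ⌊r⌋₊ + 1
  refine tsum_le_of_sum_le' (by norm_num) fun s => ?_
  rw [← Finset.sum_filter_ne_zero]
  refine (Finset.sum_le_card_nsmul _ _ (Y * 9) fun v _ =>
    mul_le_mul_of_nonneg_left (unfoldG_le _) hY.le).trans ?_
  have hc : (s.filter fun v => Y * unfoldG (hgt v.1.1 v.1.2 (g • τ) / Y) ≠ 0).card ≤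
      ((Finset.Icc (-(N₁ : ℤ)) N₁).erase 0 ×ˢ Finset.Icc (-(N₂ : ℤ)) N₂).card := by
    refine Finset.card_le_card_of_injOn (fun v => ((rowEquiv g v.1).1,
      (rowEquiv g v.1).2 + ⌊(rowEquiv g v.1).1 * τ.re⌋)) (fun v hv => ?_) fun v _ w _ e => ?_
    · have h1 := unfoldG_ne (mul_ne_zero_iff.1 (Finset.mem_filter.1 hv).2).2
      have h2 := (isCoprime_rowEquiv g v.1).2 (unfold_mem_rows.1 v.2).2
      rw [hgt_smul, one_lt_div hY, div_lt_iff₀ hY] at h1
      change Y < hgt (rowEquiv g v.1).1 (rowEquiv g v.1).2 τ ∧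
        hgt (rowEquiv g v.1).1 (rowEquiv g v.1).2 τ < 3 * Y at h1
      simp only [Finset.coe_product, Finset.coe_erase, Finset.coe_Icc, Set.mem_prod, Set.mem_sdiff,
        Set.mem_Icc, Set.mem_singleton_iff]
      generalize (rowEquiv g v.1).1 = c at h1 h2
      generalize (rowEquiv g v.1).2 = d at h1 h2
      have h3 : 0 < normSq (c * (τ : ℂ) + d) := normSq_pos.2 (denom_ne h2 τ)
      have h4 : normSq (c * (τ : ℂ) + d) = (c * τ.re + d) ^ 2 + (c * τ.im) ^ 2 := by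
        exact_mod_cast unfold_normSq τ c d
      rw [hgt, lt_div_iff₀ h3, div_lt_iff₀ h3, h4, mul_comm Y, ← lt_div_iff₀ hY, ← hr2] at h1
      have h5 : |c * τ.im| ≤ r := abs_le_of_sq_le_sq' (by nlinarith [h1.1, sq_nonneg (c * τ.re + d)])
        (by linarith) |> abs_le.2
      have h6 : |c * τ.re + d| ≤ r := abs_le_of_sq_le_sq' (by nlinarith [h1.1, sq_nonneg (c * τ.im)])
        (by linarith) |> abs_le.2
      have h7 : c.natAbs ≤ N₁ := by
        rw [Nat.le_floor_iff (by positivity), le_div_iff₀ hy, Nat.cast_natAbs, Int.cast_abs]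
        rwa [abs_mul, abs_of_pos hy] at h5
      have h8 : c ≠ 0 := by
        rintro rfl
        have h9 := h1.2
        rcases Int.isUnit_iff.1 (isCoprime_zero_left.1 h2) with rfl | rfl <;>
          · simp at h9
            linarith
      have h9 := Nat.lt_floor_add_one r
      have h10 := Int.floor_le (c * τ.re)
      have h11 := Int.lt_floor_add_one (c * τ.re)
      have h12 := abs_le.1 h6
      have h13 : ((d + ⌊c * τ.re⌋ : ℤ) : ℝ) < (N₂ : ℤ) := by
        simp only [N₂]; push_cast; linarith [h12.2]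
      have h14 : ((-(N₂ : ℤ) - 1 : ℤ) : ℝ) < (d + ⌊c * τ.re⌋ : ℤ) := by
        simp only [N₂]; push_cast; linarith [h12.1]
      have h15 := Int.cast_lt.1 h13
      have h16 := Int.cast_lt.1 h14
      omega
    · obtain ⟨e1, e2⟩ := Prod.ext_iff.1 e
      simp only at e1 e2
      rw [e1] at e2
      exact Subtype.ext ((rowEquiv g).injective (Prod.ext e1 (add_right_cancel e2)))
  rw [Finset.card_product, Finset.card_erase_of_mem (by simp), Int.card_Icc, Int.card_Icc,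
    show ((N₁ : ℤ) + 1 - -(N₁ : ℤ)).toNat - 1 = 2 * N₁ by omega,
    show ((N₂ : ℤ) + 1 - -(N₂ : ℤ)).toNat = 2 * N₂ + 1 by omega] at hc
  have h1 : (N₁ : ℝ) ≤ r / τ.im := Nat.floor_le (by positivity)
  have h2 : (N₂ : ℝ) ≤ r + 1 := by
    simp only [N₂]; push_cast; linarith [Nat.floor_le (show 0 ≤ r by linarith)]
  have h3 : (2 * N₁ * (2 * N₂ + 1) : ℝ) ≤ 2 * (r / τ.im) * (5 * r) :=
    mul_le_mul (by linarith) (by linarith) (by positivity) (by positivity)
  have h4 : 2 * (r / τ.im) * (5 * r) * (Y * 9) = 90 := by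
    rw [show 2 * (r / τ.im) * (5 * r) * (Y * 9) = 90 * (r ^ 2 * (Y / τ.im)) by ring, hr2]
    field_simp
  rw [nsmul_eq_mul, ← h4]
  refine mul_le_mul_of_nonneg_right (le_trans ?_ h3) (by positivity)
  exact_mod_cast hc

theorem unfold_win {M : ℕ} {F : ℍ → ℂ} (hF : Lev M F) {Y : ℝ} (hY : 0 < Y) :
    IntegrableOn (fun τ => F τ * (Y * unfoldG (τ.im / Y) : ℝ)) {τ : ℍ | τ.re ∈ Set.Ioc (0 : ℝ) M} ∧
      ∫ τ in {τ : ℍ | τ.re ∈ Set.Ioc (0 : ℝ) M}, F τ * (Y * unfoldG (τ.im / Y) : ℝ) =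
        M * win (hav F) Y := by
  have hM : (0 : ℝ) < M := by exact_mod_cast hF.pos
  have hm : MeasurableSet {τ : ℍ | τ.re ∈ Set.Ioc (0 : ℝ) M} :=
    UpperHalfPlane.continuous_re.measurable measurableSet_Ioc
  have hc : Continuous fun τ : ℍ => F τ * (Y * unfoldG (τ.im / Y) : ℝ) :=
    hF.cont.mul (continuous_ofReal.comp (continuous_const.mul
      (unfoldG_cont.comp (UpperHalfPlane.continuous_im.div_const Y))))
  have hK : IsCompact ((fun p : ℝ × ℝ => pt p.1 p.2) '' Set.Icc 0 (M : ℝ) ×ˢ Set.Icc Y (3 * Y)) :=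
    (isCompact_Icc.prod isCompact_Icc).image_of_continuousOn
      (continuousOn_pt.mono fun p hp => hY.trans_le hp.2.1)
  have hi : IntegrableOn (fun τ => F τ * (Y * unfoldG (τ.im / Y) : ℝ))
      {τ : ℍ | τ.re ∈ Set.Ioc (0 : ℝ) M} := by
    refine (hc.continuousOn.integrableOn_compact hK).of_forall_sdiff_eq_zero hm fun τ hτ => ?_
    by_contra h
    have h1 := unfoldG_ne (mul_ne_zero_iff.1 (ofReal_ne_zero.1 (mul_ne_zero_iff.1 h).2)).2
    rw [one_lt_div hY, div_lt_iff₀ hY] at h1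
    exact hτ.2 ⟨(τ.re, τ.im), ⟨Set.Ioc_subset_Icc_self hτ.1, h1.1.le, h1.2.le⟩, pt_re_im τ⟩
  refine ⟨hi, ?_⟩
  have per : ∀ τ, F (aff 1 M τ) = F τ := fun τ => by
    have := hF.inv (T ^ (M : ℤ)) ((unfold_T_mem M M).2 dvd_rfl) τ
    rwa [T_zpow_smul, Int.cast_natCast] at this
  rw [← integral_indicator hm, integral_upper (hi.integrable_indicator hm),
    setIntegral_congr_fun (g := fun y => (M * Y⁻¹ : ℂ) * (tent (Y⁻¹ * y) • hav F (Y * (Y⁻¹ * y))))
      measurableSet_Ioi, integral_const_mul,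
    integral_comp_mul_left_Ioi (fun t => tent t • hav F (Y * t)) 0 (inv_pos.2 hY), mul_zero, inv_inv,
    win, intervalIntegral.integral_of_le (by norm_num),
    setIntegral_eq_of_subset_of_forall_sdiff_eq_zero (s := Set.Ioc (1 : ℝ) 3) measurableSet_Ioi]
  · have : (Y : ℂ) ≠ 0 := ofReal_ne_zero.2 hY.ne'
    rw [real_smul]
    push_cast
    field_simp
  · exact fun t ht => one_pos.trans ht.1
  · intro t ht
    have : tent t = 0 := by_contra fun h =>
      ht.2 ⟨(unfold_tent_ne h).1, (unfold_tent_ne h).2.le⟩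
    rw [this, zero_smul]
  · intro y hy
    have hy : 0 < y := hy
    have e : ∀ x, {τ : ℍ | τ.re ∈ Set.Ioc (0 : ℝ) M}.indicator
        (fun τ => F τ * (Y * unfoldG (τ.im / Y) : ℝ)) (pt x y) = (Set.Ioc (0 : ℝ) M).indicator
        (fun x => F (pt x y) * (Y * unfoldG (y / Y) : ℝ)) x := fun x => by
      simp only [Set.indicator_apply, Set.mem_ofPred_eq, pt_re x hy, pt_im x hy]
    simp only [e]
    rw [integral_indicator measurableSet_Ioc, integral_mul_const, mul_inv_cancel_left₀ hY.ne',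
      hav_eq hF.cont hM per hy, fc, intervalIntegral.integral_of_le hM.le, unfoldG,
      inv_mul_eq_div, real_smul]
    have h1 : (Y : ℂ) ≠ 0 := ofReal_ne_zero.2 hY.ne'
    have h2 : (y : ℂ) ≠ 0 := ofReal_ne_zero.2 hy.ne'
    have h3 : (M : ℂ) ≠ 0 := by exact_mod_cast hF.pos.ne'
    simp only [Int.cast_zero, mul_zero, zero_mul, zero_div, neg_zero, Complex.exp_zero, mul_one]
    push_cast
    field_simp

/-- The basic equidistribution statement. -/
theorem tendsto_fint {M : ℕ} (hM : 0 < M) : ∃ κ : ℝ, 0 < κ ∧ ∀ F, Lev M F →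
    Tendsto (win (hav F)) (𝓝[>] 0) (𝓝 (κ * fint M F)) := by
  haveI : NeZero M := ⟨hM.ne'⟩
  haveI : Fintype (SL(2, ℤ) ⧸ Gamma M) := Fintype.ofFinite _
  obtain ⟨κ₁, h1, hu⟩ := unfold_gen (Gamma M) hM le_rfl hM (unfold_T_mem M)
  obtain ⟨κ₂, h2⟩ := unfoldE_tendsto hM
  have hM' : (0 : ℝ) < M := by exact_mod_cast hM
  have hM'' : (M : ℂ) ≠ 0 := by exact_mod_cast hM.ne'
  have h3 : 0 ≤ κ₂ := ge_of_tendsto (h2 UpperHalfPlane.I)
    (eventually_mem_nhdsWithin.mono fun Y hY => unfoldE_nonneg M hY _)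
  have main : ∀ F, Lev M F →
      Tendsto (win (hav F)) (𝓝[>] 0) (𝓝 ((κ₁ * κ₂ / M : ℝ) * fint M F)) := by
    intro F hF
    obtain ⟨B, hB⟩ := hF.bdd
    have hI : ∀ᶠ Y in 𝓝[>] (0 : ℝ), Y ∈ Set.Ioo (0 : ℝ) (1 / 4) := Ioo_mem_nhdsGT (by norm_num)
    have h4 := tendsto_integral_filter_of_dominated_convergence (μ := volume.restrict ModularGroup.fdo)
      (l := 𝓝[>] (0 : ℝ))
      (F := fun Y τ => ∑ q : SL(2, ℤ) ⧸ Gamma M, F (q.out • τ) * unfoldE M Y (q.out • τ))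
      (f := fun τ => ∑ q : SL(2, ℤ) ⧸ Gamma M, F (q.out • τ) * κ₂)
      (fun _ => ∑ _q : SL(2, ℤ) ⧸ Gamma M, B * 90)
      (hI.mono fun Y hY => (continuous_finsetSum _ fun q _ =>
        (hF.cont.comp (unfold_cont _)).mul (continuous_ofReal.comp
          ((unfoldE_cont M hY.1).comp (unfold_cont _)))).aestronglyMeasurable)
      (hI.mono fun Y hY => (ae_restrict_mem unfold_meas_fdo).mono fun τ hτ =>
        norm_sum_le_of_le _ fun q _ => by
          rw [norm_mul, norm_real, Real.norm_of_nonneg (unfoldE_nonneg M hY.1 _)]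
          exact mul_le_mul (hB _)
            (unfoldE_le M hY.1 hY.2 (unfold_im_fd (ModularGroup.fdo_subset_fd hτ)) _)
            (unfoldE_nonneg M hY.1 _) ((norm_nonneg _).trans (hB τ)))
      (integrable_const _)
      (.of_forall fun τ => tendsto_finsetSum _ fun q _ =>
        ((continuous_ofReal.tendsto _).comp (h2 _)).const_mul _)
    have h5 : ((κ₁ * κ₂ / M : ℝ) : ℂ) * fint M F = κ₁ / M * ∫ τ in ModularGroup.fdo,
        ∑ q : SL(2, ℤ) ⧸ Gamma M, F (q.out • τ) * κ₂ := by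
      simp only [fint, finsum_eq_sum_of_fintype, ← Finset.sum_mul, integral_mul_const]
      push_cast
      ring
    rw [h5]
    refine (h4.const_mul _).congr' (hI.mono fun Y hY => ?_)
    obtain ⟨h6, h7⟩ := unfold_win hF hY.1
    have h8 := hu _ (fun v τ => F τ * (Y * unfoldG (hgt v.1 v.2 τ / Y) : ℝ)) h6 fun γ hγ τ => by
      rw [hF.inv γ hγ, im_SL_smul]
    rw [h7] at h8
    simp only [fint, finsum_eq_sum_of_fintype, tsum_mul_left, ← ofReal_tsum] at h8
    simp only [unfoldE, tsum_mul_left]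
    rw [div_mul_eq_mul_div, ← h8]
    field_simp
  refine ⟨κ₁ * κ₂ / M, lt_of_le_of_ne (by positivity) fun h0 => ?_, main⟩
  have h4 := main (fun _ => 1) ⟨⟨continuous_const, 1, fun _ => norm_one.le⟩, hM, fun _ _ _ => rfl⟩
  rw [← h0, ofReal_zero, zero_mul] at h4
  have h5 : Tendsto (win (hav fun _ => 1)) (𝓝[>] 0) (𝓝 ((∫ t in (1 : ℝ)..3, tent t : ℝ) : ℂ)) := by
    refine tendsto_const_nhds.congr' (eventually_mem_nhdsWithin.mono fun Y hY => ?_)
    rw [win, ← intervalIntegral.integral_ofReal]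
    refine intervalIntegral.integral_congr fun t ht => ?_
    rw [Set.uIcc_of_le (by norm_num)] at ht
    rw [hav_eq continuous_const one_pos (fun _ => rfl) (mul_pos hY (one_pos.trans_le ht.1))]
    simp [fc]
  have h6 : 0 < ∫ t in (1 : ℝ)..3, tent t :=
    intervalIntegral.intervalIntegral_pos_of_pos_on (unfold_tent_cont.intervalIntegrable _ _)
      (fun t ht => lt_max_of_lt_right (by
        have := abs_lt.2 (show -1 < t - 2 ∧ t - 2 < 1 from ⟨by linarith [ht.1], by linarith [ht.2]⟩)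
        linarith)) (by norm_num)
  exact h6.ne' (ofReal_eq_zero.1 (tendsto_nhds_unique h5 h4))

theorem unfold (Γ₀ : Subgroup SL(2, ℤ)) {M : ℕ} (hM : 0 < M) (h1 : Gamma M ≤ Γ₀)
    (h2 : Γ₀ ≤ Gamma 2) (hT : T ^ 2 ∈ Γ₀) : ∃ κ : ℝ, 0 < κ ∧
    ∀ (G : ℍ → ℂ) (G' : ℤ × ℤ → ℍ → ℂ), IntegrableOn G strip →
      (∀ γ ∈ Γ₀, ∀ τ : ℍ, G' (γ 1 0, γ 1 1) τ = G (γ • τ)) →
      ∫ τ in strip, G τ = κ * fint M fun τ => ∑' v : rows Γ₀, G' v τ := by
  have := unfold_gen Γ₀ hM h1 two_pos fun k => ⟨fun h => (unfold_T_mem 2 k).1 (h2 h), by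
    rintro ⟨n, rfl⟩
    rw [zpow_mul, zpow_natCast]
    exact Γ₀.zpow_mem hT n⟩
  rwa [Nat.cast_ofNat] at this

end Pool.Agent.Lib.MP_e6abdd_an
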