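import Pool.Agent.Lib.MP_e6abdd_an.Sol

/-!
Uniqueness of the interpolation basis.
-/

namespace Pool.Agent.Lib.MP_e6abdd_an

open Complex hiding Gamma
open UpperHalfPlane hiding I
open MeasureTheory Filter Topology CongruenceSubgroup
open scoped Real MatrixGroups ComplexConjugate FourierTransform

theorem basis_unique (b b' : ℕ → SchwartzMap ℝ ℝ) (he : ∀ n x, b n (-x) = b n x)
    (hf : ∀ n ξ, 𝓕 (fun x => (b n x : ℂ)) ξ = b n ξ)
    (hb : ∀ n m : ℕ, b n √m = if n = m then 1 else 0) (he' : ∀ n x, b' n (-x) = b' n x)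
    (hf' : ∀ n ξ, 𝓕 (fun x => (b' n x : ℂ)) ξ = b' n ξ)
    (hb' : ∀ n m : ℕ, b' n √m = if n = m then 1 else 0) : b = b' := by
  funext n
  ext x
  have key : ∀ x : ℝ, 0 < x → b n x = b' n x := fun x hx => by
    have hX : 0 < x ^ 2 := by positivity
    obtain ⟨K, F, hK, hF, -⟩ := exists_F hX b he hf hb
    have h1 := sol_coeff hX hK hF b he hf hb n
    have h2 := sol_coeff hX hK hF b' he' hf' hb' n
    rw [h1, Real.sqrt_sq hx.le] at h2
    simpa using h2
  rcases lt_trichotomy x 0 with h | h | h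
  · rw [← he, ← he', key _ (neg_pos.2 h)]
  · have h1 := hb n 0
    have h2 := hb' n 0
    rw [Nat.cast_zero, Real.sqrt_zero] at h1 h2
    rw [h, h1, h2]
  · exact key x h

end Pool.Agent.Lib.MP_e6abdd_an
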